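import Pool.Agent.Lib.MP_562b47_mp.Str.Dfm

/-!
Module STR-Meas (MP_562b47_mp, strips).  Bounded measurable functions; resampling one coordinate and
resampling the layers `> n`.

PROOFS.  `BMeas` functions: closure properties are immediate (`StronglyMeasurable` API).
`mp_update`: the map `(V, v) ↦ Function.update V x v` sends `PX × unif` to `PX`.  Check on boxes
(`Measure.pi_eq`): the preimage of `pi univ s` is `{V | ∀ y ≠ x, V y ∈ s y} ×ˢ s x`, of measure
`∏_{y ≠ x} unif (s y) * 1 * unif (s x)`.  (Measurability of `update` jointly: coordinatewise.)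
`mp_mix`: in the same way for `(V, V') ↦ mix ℓ n V V'`: the preimage of a box is
`{V | ∀ x, ℓ x ≤ n → V x ∈ s x} ×ˢ {V' | ∀ x, n < ℓ x → V' x ∈ s x}`.
The integral identities: `MeasurePreserving.integral_comp'`/`integral_map` and Fubini
(`integral_prod`).
-/

open MeasureTheory Matrix Complex

namespace Pool.Agent.Lib.MP_562b47_mp.Str

/-- bounded (strongly) measurable functions -/
structure BMeas {Ω E : Type*} [MeasurableSpace Ω] [NormedAddCommGroup E] (F : Ω → E) : Prop where
  meas : StronglyMeasurable F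
  bdd : ∃ C : ℝ, ∀ w, ‖F w‖ ≤ C

section gen

variable {Ω Ω' E : Type*} [MeasurableSpace Ω] [MeasurableSpace Ω'] [NormedAddCommGroup E]

theorem BMeas.integrable {F : Ω → E} (h : BMeas F) (μ : Measure Ω) [IsFiniteMeasure μ] :
    Integrable F μ := by
  obtain ⟨C, hC⟩ := h.bdd
  exact Integrable.of_bound h.meas.aestronglyMeasurable C (Filter.Eventually.of_forall hC)

theorem BMeas.comp {F : Ω → E} (h : BMeas F) {φ : Ω' → Ω} (hφ : Measurable φ) :
    BMeas fun w => F (φ w) := by
  obtain ⟨C, hC⟩ := h.bdd
  exact ⟨h.meas.comp_measurable hφ, C, fun w => hC _⟩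

theorem BMeas.add {F G : Ω → E} (h : BMeas F) (h' : BMeas G) : BMeas fun w => F w + G w := by
  obtain ⟨C, hC⟩ := h.bdd
  obtain ⟨C', hC'⟩ := h'.bdd
  exact ⟨h.meas.add h'.meas, C + C', fun w => (norm_add_le _ _).trans (add_le_add (hC w) (hC' w))⟩

theorem BMeas.sub {F G : Ω → E} (h : BMeas F) (h' : BMeas G) : BMeas fun w => F w - G w := by
  obtain ⟨C, hC⟩ := h.bdd
  obtain ⟨C', hC'⟩ := h'.bdd
  exact ⟨h.meas.sub h'.meas, C + C', fun w => (norm_sub_le _ _).trans (add_le_add (hC w) (hC' w))⟩

theorem BMeas.norm_sq {F : Ω → E} (h : BMeas F) : BMeas fun w => ‖F w‖ ^ 2 := by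
  obtain ⟨C, hC⟩ := h.bdd
  refine ⟨h.meas.norm.pow 2, C ^ 2, fun w => ?_⟩
  rw [norm_pow, norm_norm]
  exact pow_le_pow_left₀ (norm_nonneg _) (hC w) 2

theorem BMeas.norm {F : Ω → E} (h : BMeas F) : BMeas fun w => ‖F w‖ := by
  obtain ⟨C, hC⟩ := h.bdd
  refine ⟨h.meas.norm, C, fun w => ?_⟩
  rw [norm_norm]
  exact hC w

theorem BMeas.mul {F G : Ω → ℝ} (h : BMeas F) (h' : BMeas G) : BMeas fun w => F w * G w := by
  obtain ⟨C, hC⟩ := h.bdd
  obtain ⟨C', hC'⟩ := h'.bdd
  refine ⟨h.meas.mul h'.meas, C * C', fun w => ?_⟩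
  rw [norm_mul]
  exact mul_le_mul (hC w) (hC' w) (norm_nonneg _) ((norm_nonneg _).trans (hC w))

theorem BMeas.inner {E : Type*} [NormedAddCommGroup E] [InnerProductSpace ℂ E] {F G : Ω → E}
    (h : BMeas F) (h' : BMeas G) : BMeas fun w => inner ℂ (F w) (G w) := by
  obtain ⟨C, hC⟩ := h.bdd
  obtain ⟨C', hC'⟩ := h'.bdd
  refine ⟨h.meas.inner h'.meas, C * C', fun w => ?_⟩
  exact (norm_inner_le_norm _ _).trans
    (mul_le_mul (hC w) (hC' w) (norm_nonneg _) ((norm_nonneg _).trans (hC w)))

theorem BMeas.indicator {F : Ω → E} (h : BMeas F) {s : Set Ω} (hs : MeasurableSet s) :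
    BMeas (s.indicator F) := by
  obtain ⟨C, hC⟩ := h.bdd
  exact ⟨h.meas.indicator hs, C, fun w => (norm_indicator_le_norm_self _ _).trans (hC w)⟩

theorem BMeas.const (e : E) : BMeas fun _ : Ω => e :=
  ⟨stronglyMeasurable_const, ‖e‖, fun _ => le_refl _⟩

theorem BMeas.sum {α : Type*} (s : Finset α) {F : α → Ω → E} (h : ∀ a ∈ s, BMeas (F a)) :
    BMeas fun w => ∑ a ∈ s, F a w := by
  classical
  induction s using Finset.induction_on with
  | empty => simpa using BMeas.const (Ω := Ω) (0 : E)
  | insert a s ha ih =>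
    have e : (fun w => ∑ a ∈ insert a s, F a w) = fun w => F a w + ∑ a ∈ s, F a w := by
      funext w
      rw [Finset.sum_insert ha]
    rw [e]
    exact (h a (Finset.mem_insert_self _ _)).add
      (ih fun b hb => h b (Finset.mem_insert_of_mem hb))

theorem BMeas.smul_const [NormedSpace ℝ E] {F : Ω → E} (h : BMeas F) (r : ℝ) :
    BMeas fun w => r • F w := by
  obtain ⟨C, hC⟩ := h.bdd
  refine ⟨h.meas.const_smul r, ‖r‖ * C, fun w => ?_⟩
  rw [norm_smul]
  exact mul_le_mul_of_nonneg_left (hC w) (norm_nonneg _)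

/-- partial integration -/
theorem BMeas.integral [NormedSpace ℝ E] {F : Ω × Ω' → E} (h : BMeas F) (μ : Measure Ω')
    [IsFiniteMeasure μ] : BMeas fun w => ∫ w', F (w, w') ∂μ := by
  obtain ⟨C, hC⟩ := h.bdd
  refine ⟨h.meas.integral_prod_right', C * μ.real Set.univ, fun w => ?_⟩
  exact norm_integral_le_of_norm_le_const (Filter.Eventually.of_forall fun w' => hC _)

theorem BMeas.of_continuous {Ω : Type*} [TopologicalSpace Ω] [MeasurableSpace Ω] [BorelSpace Ω]
    [SecondCountableTopology Ω] {F : Ω → E} (hc : Continuous F) {C : ℝ} (hb : ∀ w, ‖F w‖ ≤ C) :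
    BMeas F :=
  ⟨hc.stronglyMeasurable, C, hb⟩

end gen

variable {X : Type*} [Fintype X] [DecidableEq X] {E : Type*} [NormedAddCommGroup E]
  [NormedSpace ℝ E]

theorem measurable_update2 (x : X) :
    Measurable fun p : (X → ℝ) × ℝ => Function.update p.1 x p.2 := by
  rw [measurable_pi_iff]
  intro y
  by_cases h : y = x
  · subst h
    simpa using measurable_snd
  · have : (fun p : (X → ℝ) × ℝ => Function.update p.1 x p.2 y) = fun p => p.1 y := by
      funext p
      rw [Function.update_of_ne h]
    rw [this]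
    exact (measurable_pi_apply y).comp measurable_fst

theorem measurable_mix (ℓ : X → ℕ) (n : ℕ) :
    Measurable fun p : (X → ℝ) × (X → ℝ) => mix ℓ n p.1 p.2 := by
  rw [measurable_pi_iff]
  intro y
  by_cases h : ℓ y ≤ n
  · have : (fun p : (X → ℝ) × (X → ℝ) => mix ℓ n p.1 p.2 y) = fun p => p.1 y := by
      funext p
      simp [mix, h]
    rw [this]
    exact (measurable_pi_apply y).comp measurable_fst
  · have : (fun p : (X → ℝ) × (X → ℝ) => mix ℓ n p.1 p.2 y) = fun p => p.2 y := by
      funext p
      simp [mix, h]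
    rw [this]
    exact (measurable_pi_apply y).comp measurable_snd

theorem mp_update {c : ℝ} (hc : 0 < c) (x : X) :
    MeasurePreserving (fun p : (X → ℝ) × ℝ => Function.update p.1 x p.2)
      ((PX X c).prod (unif c)) (PX X c) := by
  haveI := isProb_unif hc
  haveI : IsProbabilityMeasure (PX X c) := isProb_PX hc
  refine ⟨measurable_update2 x, ?_⟩
  unfold PX
  symm
  apply Measure.pi_eq
  intro s hs
  rw [Measure.map_apply (measurable_update2 x) (MeasurableSet.univ_pi hs)]
  have e : (fun p : (X → ℝ) × ℝ => Function.update p.1 x p.2) ⁻¹' Set.univ.pi s =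
      (Set.univ.pi (Function.update s x Set.univ)) ×ˢ s x := by
    ext p
    simp only [Set.mem_preimage, Set.mem_univ_pi, Set.mem_prod]
    constructor
    · intro h
      refine ⟨fun y => ?_, by simpa using h x⟩
      by_cases hy : y = x
      · subst hy; simp
      · rw [Function.update_of_ne hy]
        have := h y
        rwa [Function.update_of_ne hy] at this
    · rintro ⟨h1, h2⟩ y
      by_cases hy : y = x
      · subst hy; simpa using h2
      · have := h1 y
        rw [Function.update_of_ne hy] at this ⊢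
        exact this
  rw [e, Measure.prod_prod, Measure.pi_pi]
  rw [← Finset.mul_prod_erase Finset.univ (fun i => unif c (Function.update s x Set.univ i))
    (Finset.mem_univ x), ← Finset.mul_prod_erase Finset.univ (fun i => unif c (s i))
    (Finset.mem_univ x)]
  rw [Function.update_self, measure_univ, one_mul, mul_comm]
  congr 1
  refine Finset.prod_congr rfl fun y hy => ?_
  rw [Function.update_of_ne (Finset.ne_of_mem_erase hy)]

theorem integral_update {c : ℝ} (hc : 0 < c) (x : X) {F : (X → ℝ) → E} (hF : BMeas F) :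
    ∫ V, F V ∂(PX X c) = ∫ V, ∫ v, F (Function.update V x v) ∂(unif c) ∂(PX X c) := by
  haveI := isProb_unif hc
  haveI : IsProbabilityMeasure (PX X c) := isProb_PX hc
  have h1 := mp_update hc x
  conv_lhs => rw [← h1.map_eq]
  rw [integral_map h1.measurable.aemeasurable hF.meas.aestronglyMeasurable]
  exact integral_prod _ ((hF.comp h1.measurable).integrable _)

theorem mp_mix {c : ℝ} (hc : 0 < c) (ℓ : X → ℕ) (n : ℕ) :
    MeasurePreserving (fun p : (X → ℝ) × (X → ℝ) => mix ℓ n p.1 p.2)
      ((PX X c).prod (PX X c)) (PX X c) := by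
  haveI := isProb_unif hc
  haveI : IsProbabilityMeasure (PX X c) := isProb_PX hc
  refine ⟨measurable_mix ℓ n, ?_⟩
  have key : Measure.map (fun p : (X → ℝ) × (X → ℝ) => mix ℓ n p.1 p.2)
      ((Measure.pi fun _ : X => unif c).prod (Measure.pi fun _ : X => unif c)) =
      Measure.pi fun _ : X => unif c := by
    symm
    apply Measure.pi_eq
    intro s hs
    rw [Measure.map_apply (measurable_mix ℓ n) (MeasurableSet.univ_pi hs)]
    have e : (fun p : (X → ℝ) × (X → ℝ) => mix ℓ n p.1 p.2) ⁻¹' Set.univ.pi s =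
        (Set.univ.pi fun y => if ℓ y ≤ n then s y else Set.univ) ×ˢ
          (Set.univ.pi fun y => if ℓ y ≤ n then Set.univ else s y) := by
      ext p
      simp only [Set.mem_preimage, Set.mem_univ_pi, Set.mem_prod]
      constructor
      · intro h
        refine ⟨fun y => ?_, fun y => ?_⟩
        · by_cases hy : ℓ y ≤ n
          · rw [if_pos hy]
            have := h y
            rwa [mix, if_pos hy] at this
          · rw [if_neg hy]
            trivial
        · by_cases hy : ℓ y ≤ n
          · rw [if_pos hy]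
            trivial
          · rw [if_neg hy]
            have := h y
            rwa [mix, if_neg hy] at this
      · rintro ⟨h1, h2⟩ y
        by_cases hy : ℓ y ≤ n
        · have := h1 y
          rw [if_pos hy] at this
          rw [mix, if_pos hy]
          exact this
        · have := h2 y
          rw [if_neg hy] at this
          rw [mix, if_neg hy]
          exact this
    rw [e, Measure.prod_prod, Measure.pi_pi, Measure.pi_pi, ← Finset.prod_mul_distrib]
    refine Finset.prod_congr rfl fun y _ => ?_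
    by_cases hy : ℓ y ≤ n
    · simp [hy]
    · simp [hy]
  exact key

theorem integral_mix {c : ℝ} (hc : 0 < c) (ℓ : X → ℕ) (n : ℕ) {F : (X → ℝ) → E} (hF : BMeas F) :
    ∫ V, F V ∂(PX X c) = ∫ V, ∫ V', F (mix ℓ n V V') ∂(PX X c) ∂(PX X c) := by
  haveI := isProb_unif hc
  haveI : IsProbabilityMeasure (PX X c) := isProb_PX hc
  have h1 := mp_mix hc ℓ n
  conv_lhs => rw [← h1.map_eq]
  rw [integral_map h1.measurable.aemeasurable hF.meas.aestronglyMeasurable]
  exact integral_prod _ ((hF.comp h1.measurable).integrable _)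

end Pool.Agent.Lib.MP_562b47_mp.Str
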