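import Pool.Agent.Lib.MP_562b47_mp.Str.Site
import Pool.Agent.Lib.MP_562b47_mp.Str.Meas

/-!
Module STR-Apri (MP_562b47_mp, strips).  A priori bounds of fractional moments of Green functions of
complex symmetric matrices `H + diag(V + i y)`, uniformly in everything (`s ∈ (0,1)`).

PROOFS.
* `frac_one`: `∫ ‖(v + w)⁻¹‖^s ∂(unif c) ≤ C1` uniformly in `w : ℂ` (`0⁻¹ = 0`): `‖v + w‖ ≥ |v + Re w|`,
  and `(1/2c) ∫_{|u| ≤ c} |u + a|^(-s) du ≤ (1/2c) 2 ∫_0^c u^(-s) du = c^(-s)/(1-s)` at most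
  (rearrangement) or, more simply, split `|u + a| ≤ c`: `≤ (1/2c) ∫_{-c}^{c}|t|^(-s) dt + c^(-s)
  ≤ c^(-s)/(1-s) + c^(-s)`.
* `frac_two`: for all complex `α β p` (`α, β` the diagonal, `p` the off-diagonal entry):
  `∫∫ ‖p / ((v + α)(u + β) - p²)‖^s du dv ≤ C2` (division by zero gives 0).
  If `‖p‖ < 8c`: for fixed `v` with `v + α ≠ 0` the integrand equals
  `(‖p‖/‖v+α‖)^s ‖(u + β - p²/(v+α))⁻¹‖^s`; integrate over `u` (`frac_one`): `≤ (8c)^s C1 ‖(v+α)⁻¹‖^s`, and
  over `v` (`v + α = 0` for at most one `v`): `≤ (8c)^s C1²`.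
  If `‖p‖ ≥ 8c`: if `‖v + α‖ ≥ ‖p‖/2` for all `v ∈ [-c,c]`, the integral over `u` gives `≤ 2^s C1`.
  Similarly with the roles exchanged, if `‖u + β‖ ≥ ‖p‖/2` for all `u`.  Otherwise
  `‖v+α‖ ≤ ‖p‖/2 + 2c ≤ 3‖p‖/4` and `‖u+β‖ ≤ 3‖p‖/4` for all `u, v`, so
  `‖(v+α)(u+β) - p²‖ ≥ (7/16)‖p‖²` and the integrand is at most `((16/7)/‖p‖)^s ≤ (2/(7c))^s`.
* `apri`: let `x ≠ z`.  With the potential `0` at `x` and `z` (base potential `ν0`), let
  `a = G x x`, `d = G z z`, `p' = G x z` (for `ν0`).  From `upd_G`/`upd_Gxx` (first `x`, then `z`):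
  `G(v,u) x z * ((1 + v a)(1 + u d) - v u p'²) = p'`.
  `Im a < 0`, `Im d < 0` (`G_im_neg`) so `a, d ≠ 0`; and `D := a d - p'² ≠ 0`: choose
  `v0 = 1/(2 ‖a‖ + ...)`... simplest: the vector `u := G(·,x) α + G(·,z) β`-argument: the `2 × 2` block
  `A = [[a, p'],[p', d]]` of `G` satisfies: `A` is injective, because if `A (α,β) = 0` then for
  `f := α e_x + β e_z`, `g := G f`, `⟪f, G f⟫ = conj(α)(aα + p'β) + conj(β)(p'α + dβ) = 0`, but
  `⟪f, g⟫ = ⟪K g, g⟫` has imaginary part `-∑ y |g|²` (`≠ 0` unless `g = 0`, `f = K g = 0`).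
  Then `(1 + v a)(1 + u d) - v u p'² = D ((v + d/D)(u + a/D) - (p'/D)²)`, since
  `D (v + d/D)(u + a/D) - p'²/D = D v u + a v + d u + (a d - p'²)/D`.  So
  `G(v,u) x z = (p'/D) / ((v + d/D)(u + a/D) - (p'/D)²)` and `frac_two` applies.
  For `x = z`: `G(v) x x = a/(1 + v a) = (v + 1/a)⁻¹` and `frac_one`.
-/

open MeasureTheory Matrix Complex

namespace Pool.Agent.Lib.MP_562b47_mp.Str

private theorem Apri_abs_int {c s : ℝ} (hc : 0 < c) (hs1 : s < 1) :
    IntegrableOn (fun t : ℝ => |t| ^ (-s)) (Set.Icc (-c) c) volume := by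
  have hI1 : IntervalIntegrable (fun t : ℝ => |t| ^ (-s)) volume 0 c := by
    refine IntervalIntegrable.congr ?_
      (intervalIntegral.intervalIntegrable_rpow' (a := 0) (b := c) (r := -s) (by linarith))
    intro t ht
    rw [Set.uIoc_of_le hc.le] at ht
    simp only
    rw [abs_of_pos ht.1]
  have hI2 : IntervalIntegrable (fun t : ℝ => |t| ^ (-s)) volume 0 (-c) := by
    have h := (IntervalIntegrable.iff_comp_neg (f := fun t : ℝ => |t| ^ (-s)) (a := 0)
      (b := c)).mp hI1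
    simpa using h
  exact (intervalIntegrable_iff_integrableOn_Icc_of_le (by linarith)).mp (hI2.symm.trans hI1)

private theorem Apri_ae_mem (c : ℝ) : ∀ᵐ v ∂(unif c), v ∈ Set.Icc (-c) c := by
  unfold unif
  exact Measure.ae_smul_measure (ae_restrict_mem measurableSet_Icc) _

private theorem Apri_ae_ne (c : ℝ) (α : ℂ) : ∀ᵐ (v : ℝ) ∂(unif c), (v : ℂ) + α ≠ 0 := by
  have h1 : ∀ᵐ v ∂(volume : Measure ℝ), v ≠ -α.re := by
    rw [ae_iff]
    simp
  have h2 : ∀ᵐ v ∂(unif c), v ≠ -α.re := by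
    unfold unif
    exact Measure.ae_smul_measure (ae_restrict_of_ae h1) _
  filter_upwards [h2] with v hv h
  apply hv
  have h3 := congrArg Complex.re h
  simp at h3
  linarith

theorem frac_one {c s : ℝ} (hc : 0 < c) (hs : 0 < s) (hs1 : s < 1) : ∃ C1 : ℝ, 0 < C1 ∧
    ∀ w : ℂ, Integrable (fun v : ℝ => ‖((v : ℂ) + w)⁻¹‖ ^ s) (unif c) ∧
      ∫ v : ℝ, ‖((v : ℂ) + w)⁻¹‖ ^ s ∂(unif c) ≤ C1 := by
  haveI := isProb_unif hc
  set h : ℝ → ℝ := (Set.Icc (-c) c).indicator (fun t => |t| ^ (-s)) with hh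
  have hint : Integrable h volume :=
    (integrable_indicator_iff measurableSet_Icc).mpr (Apri_abs_int hc hs1)
  have hnn : ∀ t, 0 ≤ h t := fun t => Set.indicator_nonneg (fun t _ => by positivity) t
  have hcs : 0 < c ^ (-s) := Real.rpow_pos_of_pos hc _
  refine ⟨(2 * c)⁻¹ * (∫ t, h t) + c ^ (-s), ?_, fun w => ?_⟩
  · have h0 : 0 ≤ ∫ t, h t := integral_nonneg hnn
    positivity
  · have hg1 : Integrable (fun v => h (v + w.re)) (unif c) := by
      unfold unif
      refine Integrable.smul_measure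
        ((hint.comp_add_right w.re).integrableOn (s := Set.Icc (-c) c)) ?_
      rw [ENNReal.inv_ne_top]
      simpa using hc
    have hg : Integrable (fun v => h (v + w.re) + c ^ (-s)) (unif c) :=
      hg1.add (integrable_const _)
    have hb : ∀ᵐ (v : ℝ) ∂(unif c), ‖((v : ℂ) + w)⁻¹‖ ^ s ≤ h (v + w.re) + c ^ (-s) := by
      filter_upwards [Apri_ae_ne c (w.re : ℂ)] with v hv
      have hv' : v + w.re ≠ 0 := by
        intro h0
        apply hv
        exact_mod_cast h0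
      have habs : 0 < |v + w.re| := abs_pos.mpr hv'
      have hle : |v + w.re| ≤ ‖(v : ℂ) + w‖ := by
        have := Complex.abs_re_le_norm ((v : ℂ) + w)
        simpa using this
      have h1 : ‖((v : ℂ) + w)⁻¹‖ ^ s ≤ |v + w.re| ^ (-s) := by
        rw [norm_inv, Real.inv_rpow (norm_nonneg _), ← Real.rpow_neg (norm_nonneg _)]
        exact Real.rpow_le_rpow_of_nonpos habs hle (by linarith)
      refine h1.trans ?_
      by_cases hm : v + w.re ∈ Set.Icc (-c) c
      · rw [hh, Set.indicator_of_mem hm]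
        linarith
      · have h3 : c ≤ |v + w.re| := by
          rw [Set.mem_Icc, ← abs_le, not_le] at hm
          exact hm.le
        have h2 := Real.rpow_le_rpow_of_nonpos hc h3 (by linarith : -s ≤ 0)
        have h4 := hnn (v + w.re)
        linarith
    have hmeas : Measurable fun v : ℝ => ‖((v : ℂ) + w)⁻¹‖ ^ s := by fun_prop
    have hI : Integrable (fun v : ℝ => ‖((v : ℂ) + w)⁻¹‖ ^ s) (unif c) := by
      refine hg.mono' hmeas.aestronglyMeasurable ?_
      filter_upwards [hb] with v hv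
      rw [Real.norm_of_nonneg (by positivity)]
      exact hv
    refine ⟨hI, ?_⟩
    calc ∫ v : ℝ, ‖((v : ℂ) + w)⁻¹‖ ^ s ∂(unif c)
        ≤ ∫ v, (h (v + w.re) + c ^ (-s)) ∂(unif c) := integral_mono_ae hI hg hb
      _ = ∫ v, h (v + w.re) ∂(unif c) + c ^ (-s) := by
          rw [integral_add hg1 (integrable_const _)]
          simp
      _ ≤ (2 * c)⁻¹ * (∫ t, h t) + c ^ (-s) := by
          rw [integral_unif hc, smul_eq_mul]
          gcongr
          calc ∫ v in Set.Icc (-c) c, h (v + w.re) ≤ ∫ v, h (v + w.re) :=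
                setIntegral_le_integral (hint.comp_add_right _) (ae_of_all _ fun v => hnn _)
            _ = ∫ v, h v := integral_add_right_eq_self _ _

private theorem Apri_lone {c s : ℝ} (hc : 0 < c) (hs : 0 < s) (hs1 : s < 1) : ∃ C1 : ℝ, 0 < C1 ∧
    ∀ w : ℂ, ∫⁻ v : ℝ, ENNReal.ofReal (‖((v : ℂ) + w)⁻¹‖ ^ s) ∂(unif c) ≤ ENNReal.ofReal C1 := by
  obtain ⟨C1, h1, h2⟩ := frac_one hc hs hs1
  refine ⟨C1, h1, fun w => ?_⟩
  rw [← ofReal_integral_eq_lintegral_ofReal (h2 w).1 (ae_of_all _ fun v => by positivity)]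
  exact ENNReal.ofReal_le_ofReal (h2 w).2

/-- the inner integral -/
private theorem Apri_inner {c s C1 : ℝ} (hs : 0 < s)
    (h1 : ∀ w : ℂ, ∫⁻ v : ℝ, ENNReal.ofReal (‖((v : ℂ) + w)⁻¹‖ ^ s) ∂(unif c) ≤
      ENNReal.ofReal C1) (α β p : ℂ) (v : ℝ) (hv : (v : ℂ) + α ≠ 0) :
    ∫⁻ u : ℝ, ENNReal.ofReal (‖p / (((v : ℂ) + α) * ((u : ℂ) + β) - p ^ 2)‖ ^ s) ∂(unif c) ≤
      ENNReal.ofReal ((‖p‖ * ‖((v : ℂ) + α)⁻¹‖) ^ s) * ENNReal.ofReal C1 := by
  have e : ∀ u : ℝ, ENNReal.ofReal (‖p / (((v : ℂ) + α) * ((u : ℂ) + β) - p ^ 2)‖ ^ s) =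
      ENNReal.ofReal ((‖p‖ * ‖((v : ℂ) + α)⁻¹‖) ^ s) *
        ENNReal.ofReal (‖((u : ℂ) + (β - p ^ 2 / ((v : ℂ) + α)))⁻¹‖ ^ s) := by
    intro u
    have e1 : ((v : ℂ) + α) * ((u : ℂ) + β) - p ^ 2 =
        ((v : ℂ) + α) * ((u : ℂ) + (β - p ^ 2 / ((v : ℂ) + α))) := by
      field_simp
      ring
    rw [e1, div_eq_mul_inv, mul_inv, ← mul_assoc, norm_mul, norm_mul,
      Real.mul_rpow (by positivity) (norm_nonneg _), ENNReal.ofReal_mul (by positivity)]
  simp only [e]
  have hmeas : Measurable fun u : ℝ =>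
      ENNReal.ofReal (‖((u : ℂ) + (β - p ^ 2 / ((v : ℂ) + α)))⁻¹‖ ^ s) := by fun_prop
  rw [lintegral_const_mul _ hmeas]
  gcongr
  exact h1 _

private theorem Apri_B1 {c s C1 : ℝ} (hc : 0 < c) (hs : 0 < s)
    (h1 : ∀ w : ℂ, ∫⁻ v : ℝ, ENNReal.ofReal (‖((v : ℂ) + w)⁻¹‖ ^ s) ∂(unif c) ≤
      ENNReal.ofReal C1) (α β p : ℂ) (hp : 0 < ‖p‖)
    (hv : ∀ v : ℝ, v ∈ Set.Icc (-c) c → ‖p‖ / 2 ≤ ‖(v : ℂ) + α‖) :
    ∫⁻ v : ℝ, ∫⁻ u : ℝ, ENNReal.ofReal (‖p / (((v : ℂ) + α) * ((u : ℂ) + β) - p ^ 2)‖ ^ s)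
        ∂(unif c) ∂(unif c) ≤ ENNReal.ofReal (2 ^ s) * ENNReal.ofReal C1 := by
  haveI := isProb_unif hc
  calc _ ≤ ∫⁻ _ : ℝ, ENNReal.ofReal (2 ^ s) * ENNReal.ofReal C1 ∂(unif c) := by
        refine lintegral_mono_ae ?_
        filter_upwards [Apri_ae_mem c] with v hmem
        have h2 := hv v hmem
        have h3 : 0 < ‖(v : ℂ) + α‖ := by linarith
        refine (Apri_inner hs h1 α β p v (norm_pos_iff.mp h3)).trans ?_
        gcongr
        rw [norm_inv]
        rw [← div_eq_mul_inv, div_le_iff₀ h3]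
        linarith
    _ = _ := by simp

theorem frac_two {c s : ℝ} (hc : 0 < c) (hs : 0 < s) (hs1 : s < 1) : ∃ C2 : ℝ, 0 < C2 ∧
    ∀ α β p : ℂ,
      ∫⁻ v : ℝ, ∫⁻ u : ℝ, ENNReal.ofReal (‖p / (((v : ℂ) + α) * ((u : ℂ) + β) - p ^ 2)‖ ^ s)
        ∂(unif c) ∂(unif c) ≤ ENNReal.ofReal C2 := by
  haveI := isProb_unif hc
  obtain ⟨C1, hC1, h1⟩ := Apri_lone hc hs hs1
  have hA0 : 0 < (8 * c) ^ s * C1 * C1 := by positivity
  have hB0 : 0 < (2 : ℝ) ^ s * C1 := by positivity
  have hD0 : 0 < (2 / (7 * c)) ^ s := by positivity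
  refine ⟨(8 * c) ^ s * C1 * C1 + 2 ^ s * C1 + (2 / (7 * c)) ^ s, by positivity,
    fun α β p => ?_⟩
  rcases lt_or_ge ‖p‖ (8 * c) with hp | hp
  · -- small `p`
    calc _ ≤ ∫⁻ v : ℝ, ENNReal.ofReal ((8 * c) ^ s * C1) *
          ENNReal.ofReal (‖((v : ℂ) + α)⁻¹‖ ^ s) ∂(unif c) := by
          refine lintegral_mono_ae ?_
          filter_upwards [Apri_ae_ne c α] with v hv
          refine (Apri_inner hs h1 α β p v hv).trans ?_
          rw [← ENNReal.ofReal_mul (by positivity), ← ENNReal.ofReal_mul (by positivity),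
            Real.mul_rpow (norm_nonneg _) (norm_nonneg _)]
          apply ENNReal.ofReal_le_ofReal
          have h2 : ‖p‖ ^ s ≤ (8 * c) ^ s := Real.rpow_le_rpow (norm_nonneg _) hp.le hs.le
          have h3 : 0 ≤ ‖((v : ℂ) + α)⁻¹‖ ^ s := by positivity
          calc ‖p‖ ^ s * ‖((v : ℂ) + α)⁻¹‖ ^ s * C1
              ≤ (8 * c) ^ s * ‖((v : ℂ) + α)⁻¹‖ ^ s * C1 := by gcongr
            _ = (8 * c) ^ s * C1 * ‖((v : ℂ) + α)⁻¹‖ ^ s := by ring
      _ ≤ ENNReal.ofReal ((8 * c) ^ s * C1) * ENNReal.ofReal C1 := by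
          have hmeas : Measurable fun v : ℝ => ENNReal.ofReal (‖((v : ℂ) + α)⁻¹‖ ^ s) := by
            fun_prop
          rw [lintegral_const_mul _ hmeas]
          gcongr
          exact h1 α
      _ ≤ _ := by
          rw [← ENNReal.ofReal_mul (by positivity)]
          apply ENNReal.ofReal_le_ofReal
          linarith
  · have hp0 : 0 < ‖p‖ := by linarith
    by_cases hB1 : ∀ v : ℝ, v ∈ Set.Icc (-c) c → ‖p‖ / 2 ≤ ‖(v : ℂ) + α‖
    · refine (Apri_B1 hc hs h1 α β p hp0 hB1).trans ?_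
      rw [← ENNReal.ofReal_mul (by positivity)]
      apply ENNReal.ofReal_le_ofReal
      linarith
    · by_cases hB2 : ∀ u : ℝ, u ∈ Set.Icc (-c) c → ‖p‖ / 2 ≤ ‖(u : ℂ) + β‖
      · have hswap : ∫⁻ v : ℝ, ∫⁻ u : ℝ,
            ENNReal.ofReal (‖p / (((v : ℂ) + α) * ((u : ℂ) + β) - p ^ 2)‖ ^ s)
              ∂(unif c) ∂(unif c) = ∫⁻ u : ℝ, ∫⁻ v : ℝ,
            ENNReal.ofReal (‖p / (((u : ℂ) + β) * ((v : ℂ) + α) - p ^ 2)‖ ^ s)
              ∂(unif c) ∂(unif c) := by
          rw [lintegral_lintegral_swap]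
          · simp only [mul_comm]
          · apply Measurable.aemeasurable
            unfold Function.uncurry
            fun_prop
        rw [hswap]
        refine (Apri_B1 hc hs h1 β α p hp0 hB2).trans ?_
        rw [← ENNReal.ofReal_mul (by positivity)]
        apply ENNReal.ofReal_le_ofReal
        linarith
      · push Not at hB1 hB2
        obtain ⟨v0, hv0, hv0'⟩ := hB1
        obtain ⟨u0, hu0, hu0'⟩ := hB2
        have key : ∀ (v0 v : ℝ) (α : ℂ), v0 ∈ Set.Icc (-c) c → v ∈ Set.Icc (-c) c →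
            ‖(v0 : ℂ) + α‖ < ‖p‖ / 2 → ‖(v : ℂ) + α‖ ≤ 3 / 4 * ‖p‖ := by
          intro v0 v α h0 h h'
          have e : (v : ℂ) + α = ((v0 : ℂ) + α) + ((v - v0 : ℝ) : ℂ) := by
            push_cast
            ring
          have h2 : ‖((v - v0 : ℝ) : ℂ)‖ ≤ 2 * c := by
            rw [Complex.norm_real, Real.norm_eq_abs, abs_le]
            constructor <;> linarith [h0.1, h0.2, h.1, h.2]
          calc ‖(v : ℂ) + α‖ ≤ ‖(v0 : ℂ) + α‖ + ‖((v - v0 : ℝ) : ℂ)‖ := by
                rw [e]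
                exact norm_add_le _ _
            _ ≤ 3 / 4 * ‖p‖ := by linarith
        calc _ ≤ ∫⁻ _ : ℝ, ENNReal.ofReal ((2 / (7 * c)) ^ s) ∂(unif c) := by
              refine lintegral_mono_ae ?_
              filter_upwards [Apri_ae_mem c] with v hv
              calc _ ≤ ∫⁻ _ : ℝ, ENNReal.ofReal ((2 / (7 * c)) ^ s) ∂(unif c) := by
                    refine lintegral_mono_ae ?_
                    filter_upwards [Apri_ae_mem c] with u hu
                    apply ENNReal.ofReal_le_ofReal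
                    refine Real.rpow_le_rpow (norm_nonneg _) ?_ hs.le
                    have h2 := key v0 v α hv0 hv hv0'
                    have h3 := key u0 u β hu0 hu hu0'
                    have h4 : ‖((v : ℂ) + α) * ((u : ℂ) + β)‖ ≤ 9 / 16 * ‖p‖ ^ 2 := by
                      rw [norm_mul]
                      calc ‖(v : ℂ) + α‖ * ‖(u : ℂ) + β‖ ≤ (3 / 4 * ‖p‖) * (3 / 4 * ‖p‖) := by
                            gcongr
                        _ = 9 / 16 * ‖p‖ ^ 2 := by ring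
                    have h5 : 7 / 16 * ‖p‖ ^ 2 ≤ ‖((v : ℂ) + α) * ((u : ℂ) + β) - p ^ 2‖ := by
                      have h6 := norm_sub_norm_le (p ^ 2) (((v : ℂ) + α) * ((u : ℂ) + β))
                      rw [norm_sub_rev, norm_pow] at h6
                      linarith
                    rw [norm_div]
                    calc ‖p‖ / ‖((v : ℂ) + α) * ((u : ℂ) + β) - p ^ 2‖
                        ≤ ‖p‖ / (7 / 16 * ‖p‖ ^ 2) := by gcongr
                      _ = 16 / (7 * ‖p‖) := by field_simp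
                      _ ≤ 16 / (7 * (8 * c)) := by gcongr
                      _ = 2 / (7 * c) := by
                          field_simp
                          norm_num
                _ = _ := by simp
          _ = ENNReal.ofReal ((2 / (7 * c)) ^ s) := by simp
          _ ≤ _ := by
              apply ENNReal.ofReal_le_ofReal
              linarith

private theorem Apri_two_int {c s C2 : ℝ} (hc : 0 < c) (hC2 : 0 < C2) (α β p : ℂ)
    (h : ∫⁻ v : ℝ, ∫⁻ u : ℝ, ENNReal.ofReal (‖p / (((v : ℂ) + α) * ((u : ℂ) + β) - p ^ 2)‖ ^ s)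
        ∂(unif c) ∂(unif c) ≤ ENNReal.ofReal C2) :
    ∫ v : ℝ, ∫ u : ℝ, ‖p / (((v : ℂ) + α) * ((u : ℂ) + β) - p ^ 2)‖ ^ s
        ∂(unif c) ∂(unif c) ≤ C2 := by
  haveI := isProb_unif hc
  have hm2 : Measurable fun q : ℝ × ℝ =>
      ENNReal.ofReal (‖p / (((q.1 : ℂ) + α) * ((q.2 : ℂ) + β) - p ^ 2)‖ ^ s) := by fun_prop
  have hmL := hm2.lintegral_prod_right' (ν := unif c)
  have e : ∀ v : ℝ, ∫ u : ℝ, ‖p / (((v : ℂ) + α) * ((u : ℂ) + β) - p ^ 2)‖ ^ s ∂(unif c) =
      (∫⁻ u : ℝ, ENNReal.ofReal (‖p / (((v : ℂ) + α) * ((u : ℂ) + β) - p ^ 2)‖ ^ s)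
        ∂(unif c)).toReal := by
    intro v
    refine integral_eq_lintegral_of_nonneg_ae (ae_of_all _ fun u => by positivity) ?_
    have hm : Measurable fun u : ℝ =>
        ‖p / (((v : ℂ) + α) * ((u : ℂ) + β) - p ^ 2)‖ ^ s := by fun_prop
    exact hm.aestronglyMeasurable
  simp only [e]
  rw [integral_toReal hmL.aemeasurable
    (ae_lt_top hmL (ne_top_of_le_ne_top ENNReal.ofReal_ne_top h))]
  exact ENNReal.toReal_le_of_le_ofReal hC2.le h

section alg

variable {X ι : Type*} [Fintype X] [DecidableEq X] [Fintype ι] [DecidableEq ι]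

private theorem Apri_im_real (H : Matrix X X ℝ) (hH : H.IsSymm) (v : X → ℂ) :
    (star v ⬝ᵥ (H.map Complex.ofReal *ᵥ v)).im = 0 := by
  have h : star (star v ⬝ᵥ (H.map Complex.ofReal *ᵥ v)) =
      star v ⬝ᵥ (H.map Complex.ofReal *ᵥ v) := by
    have hc : (H.map Complex.ofReal)ᴴ = H.map Complex.ofReal := by
      ext i j
      simp only [Matrix.conjTranspose_apply, Matrix.map_apply]
      rw [hH.apply]
      simp
    rw [← Matrix.star_dotProduct_star, star_star, star_mulVec, hc, Matrix.dotProduct_mulVec,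
      dotProduct_comm]
  exact Complex.conj_eq_iff_im.mp h

private theorem Apri_im_diag (f : X → ℂ) (v : X → ℂ) :
    (star v ⬝ᵥ (diagonal f *ᵥ v)).im = ∑ x, (f x).im * Complex.normSq (v x) := by
  simp only [dotProduct, mulVec_diagonal, Complex.im_sum]
  refine Finset.sum_congr rfl fun x _ => ?_
  have : star v x * (f x * v x) = f x * (Complex.normSq (v x) : ℂ) := by
    rw [Complex.normSq_eq_conj_mul_self]
    simp only [Pi.star_apply, RCLike.star_def]
    ring
  rw [this, Complex.im_mul_ofReal]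

private theorem Apri_im_UU (U : Matrix X ι ℝ) (v : X → ℂ) :
    (star v ⬝ᵥ ((I • (U.map Complex.ofReal * (U.map Complex.ofReal)ᵀ)) *ᵥ v)).im
      = ∑ s, Complex.normSq (((U.map Complex.ofReal)ᵀ *ᵥ v) s) := by
  have hc : (U.map Complex.ofReal)ᴴ = (U.map Complex.ofReal)ᵀ := by
    ext i j
    simp [Matrix.conjTranspose_apply]
  have h1 : star v ⬝ᵥ ((I • (U.map Complex.ofReal * (U.map Complex.ofReal)ᵀ)) *ᵥ v)
      = I * ((∑ s, Complex.normSq (((U.map Complex.ofReal)ᵀ *ᵥ v) s) : ℝ) : ℂ) := by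
    have h2 : star v ᵥ* (U.map Complex.ofReal) = star ((U.map Complex.ofReal)ᵀ *ᵥ v) := by
      rw [star_mulVec, ← hc, conjTranspose_conjTranspose]
    rw [Matrix.smul_mulVec, dotProduct_smul, smul_eq_mul, ← Matrix.mulVec_mulVec,
      Matrix.dotProduct_mulVec, h2]
    congr 1
    push_cast
    simp only [dotProduct]
    refine Finset.sum_congr rfl fun s _ => ?_
    rw [Complex.normSq_eq_conj_mul_self]
    rfl
  rw [h1]
  simp

private theorem Apri_pos {S : Sys X ι} {ν : X → ℂ} (hS : S.Good) (hν : Adm ν) (v : X → ℂ)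
    (h1 : (star v ⬝ᵥ (S.K ν *ᵥ v)).im = 0) : v = 0 := by
  rw [Sys.K, Matrix.add_mulVec, Matrix.add_mulVec, dotProduct_add, dotProduct_add, Complex.add_im,
    Complex.add_im, Apri_im_real _ hS.symm, Apri_im_diag, Apri_im_UU] at h1
  have h2 : ∀ x, (ν x + (S.y x : ℂ) * I).im = (ν x).im + S.y x := by intro x; simp
  simp only [h2, zero_add] at h1
  have h3 : 0 ≤ ∑ s, Complex.normSq (((S.U.map Complex.ofReal)ᵀ *ᵥ v) s) :=
    Finset.sum_nonneg fun s _ => Complex.normSq_nonneg _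
  have h4 : ∀ x ∈ Finset.univ, 0 ≤ ((ν x).im + S.y x) * Complex.normSq (v x) := fun x _ =>
    mul_nonneg (add_nonneg (hν x) (hS.pos x).le) (Complex.normSq_nonneg _)
  have h5 : ∑ x, ((ν x).im + S.y x) * Complex.normSq (v x) = 0 := by
    have := Finset.sum_nonneg h4
    linarith
  rw [Finset.sum_eq_zero_iff_of_nonneg h4] at h5
  ext x
  have h6 := h5 x (Finset.mem_univ x)
  have h7 : 0 < (ν x).im + S.y x := by have := hν x; have := hS.pos x; linarith
  have h8 : Complex.normSq (v x) = 0 := by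
    rcases mul_eq_zero.mp h6 with h | h
    · exact absurd h h7.ne'
    · exact h
  exact Complex.normSq_eq_zero.mp h8

private theorem Apri_D_ne {S : Sys X ι} {ν : X → ℂ} (hS : S.Good) (hν : Adm ν) {x z : X}
    (hxz : x ≠ z) : S.G ν x x * S.G ν z z - S.G ν x z ^ 2 ≠ 0 := by
  intro hD
  set f : X → ℂ := Pi.single x (S.G ν z z) - Pi.single z (S.G ν x z) with hf
  set g : X → ℂ := S.G ν *ᵥ f with hgdef
  have hK : S.K ν *ᵥ g = f := by
    rw [hgdef, Matrix.mulVec_mulVec, Sys.K_mul_G hS hν, Matrix.one_mulVec]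
  have hg : ∀ y, g y = S.G ν y x * S.G ν z z - S.G ν y z * S.G ν x z := by
    intro y
    rw [hgdef, hf, Matrix.mulVec_sub, Pi.sub_apply, Matrix.mulVec_single, Matrix.mulVec_single]
    simp [mul_comm]
  have hgx : g x = 0 := by
    rw [hg, ← hD]
    ring
  have hgz : g z = 0 := by
    rw [hg, Sys.G_comm hS ν z x]
    ring
  have him : (star g ⬝ᵥ (S.K ν *ᵥ g)).im = 0 := by
    have h0 : star g ⬝ᵥ f = 0 := by
      rw [hf, dotProduct_sub, dotProduct_single, dotProduct_single, Pi.star_apply, Pi.star_apply,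
        hgx, hgz]
      simp
    rw [hK, h0]
    rfl
  have hg0 := Apri_pos hS hν g him
  have hf0 : f = 0 := by rw [← hK, hg0, Matrix.mulVec_zero]
  have h1 := congrFun hf0 x
  rw [hf, Pi.sub_apply, Pi.single_eq_same, Pi.single_eq_of_ne hxz, sub_zero] at h1
  exact Sys.G_ne hS hν z h1

private theorem Apri_formula {S : Sys X ι} (hS : S.Good) {x z : X} (hxz : x ≠ z) (V : X → ℝ) :
    ∃ α β p : ℂ, ∀ v u : ℝ,
      S.G (fun w => ((Function.update (Function.update V x v) z u w : ℝ) : ℂ)) x z =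
        p / (((v : ℂ) + α) * ((u : ℂ) + β) - p ^ 2) := by
  set ν0 : X → ℂ := fun w => ((Function.update (Function.update V x 0) z 0 w : ℝ) : ℂ) with hν0
  have hA0 : Adm ν0 := adm_real _
  have h0x : ν0 x = 0 := by
    simp only [hν0]
    rw [Function.update_of_ne hxz, Function.update_self, Complex.ofReal_zero]
  have h0z : ν0 z = 0 := by
    simp only [hν0]
    rw [Function.update_self, Complex.ofReal_zero]
  have hup : ∀ v u : ℝ, (fun w => ((Function.update (Function.update V x v) z u w : ℝ) : ℂ)) =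
      Function.update (Function.update ν0 x (v : ℂ)) z (u : ℂ) := by
    intro v u
    funext w
    by_cases hw : w = z
    · subst hw
      rw [Function.update_self, Function.update_self]
    · rw [Function.update_of_ne hw, Function.update_of_ne hw]
      by_cases hw2 : w = x
      · subst hw2
        rw [Function.update_self, Function.update_self]
      · rw [Function.update_of_ne hw2, Function.update_of_ne hw2]
        simp only [hν0]
        rw [Function.update_of_ne hw, Function.update_of_ne hw2]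
  set a := S.G ν0 x x with ha
  set d := S.G ν0 z z with hd
  set p := S.G ν0 x z with hp
  have hD : a * d - p ^ 2 ≠ 0 := Apri_D_ne hS hA0 hxz
  set D := a * d - p ^ 2 with hDdef
  refine ⟨d / D, a / D, p / D, fun v u => ?_⟩
  rw [hup v u]
  have hv : 0 ≤ ((v : ℂ)).im := by simp
  have hu : 0 ≤ ((u : ℂ)).im := by simp
  have hA1 : Adm (Function.update ν0 x (v : ℂ)) := hA0.update x hv
  have hA2 : Adm (Function.update (Function.update ν0 x (v : ℂ)) z (u : ℂ)) := hA1.update z hu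
  have h1 := Sys.upd_G hS hA0 x hv x z
  have h2 := Sys.upd_G hS hA0 x hv z z
  have h3 := Sys.upd_Gxx hS hA0 x hv
  have h4 := Sys.upd_G hS hA1 z hu x z
  have h5 := Sys.upd_Gxx hS hA1 z hu
  rw [Function.update_of_ne hxz.symm, h0z, sub_zero] at h4 h5
  rw [h0x, sub_zero] at h1 h2 h3
  rw [Sys.G_comm hS ν0 z x] at h2
  set G1xz := S.G (Function.update ν0 x (v : ℂ)) x z with hG1xz
  set G1zz := S.G (Function.update ν0 x (v : ℂ)) z z with hG1zz
  set G2xz := S.G (Function.update (Function.update ν0 x (v : ℂ)) z (u : ℂ)) x z with hG2xz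
  set G2zz := S.G (Function.update (Function.update ν0 x (v : ℂ)) z (u : ℂ)) z z with hG2zz
  have hne1 : 1 + (v : ℂ) * a ≠ 0 := by
    intro h0
    rw [h0, mul_zero] at h3
    exact Sys.G_ne hS hA0 x h3.symm
  have hne2 : 1 + (u : ℂ) * G1zz ≠ 0 := by
    intro h0
    rw [h0, mul_zero] at h5
    exact Sys.G_ne hS hA1 z h5.symm
  have hQ : (1 + (v : ℂ) * a) * (1 + (u : ℂ) * G1zz) =
      D * (((v : ℂ) + d / D) * ((u : ℂ) + a / D) - (p / D) ^ 2) := by
    have e1 : (1 + (v : ℂ) * a) * G1xz = p := by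
      linear_combination h1
    have e2 : (1 + (v : ℂ) * a) * G1zz = d * (1 + (v : ℂ) * a) - v * p ^ 2 := by
      linear_combination (1 + (v : ℂ) * a) * h2 - (v : ℂ) * p * e1
    have e3 : D * (((v : ℂ) + d / D) * ((u : ℂ) + a / D) - (p / D) ^ 2) =
        D * v * u + a * v + d * u + (a * d - p ^ 2) / D := by
      field_simp
      ring
    rw [e3, ← hDdef, div_self hD]
    linear_combination (u : ℂ) * e2 + (u : ℂ) * v * hDdef
  have hmul : G2xz * ((1 + (v : ℂ) * a) * (1 + (u : ℂ) * G1zz)) = p := by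
    have e1 : (1 + (v : ℂ) * a) * G1xz = p := by
      linear_combination h1
    have e4 : G2xz * (1 + (u : ℂ) * G1zz) = G1xz := by
      linear_combination (1 + (u : ℂ) * G1zz) * h4 - (u : ℂ) * G1xz * h5
    linear_combination (1 + (v : ℂ) * a) * e4 + e1
  have hQne : ((v : ℂ) + d / D) * ((u : ℂ) + a / D) - (p / D) ^ 2 ≠ 0 := by
    intro h0
    rw [h0, mul_zero] at hQ
    exact mul_ne_zero hne1 hne2 hQ
  rw [hQ] at hmul
  rw [eq_div_iff hQne, eq_div_iff hD]
  linear_combination hmul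

end alg

/-- the a priori bound: resampling the potential at `x` and `z` (all other values are fixed) -/
theorem apri {c s : ℝ} (hc : 0 < c) (hs : 0 < s) (hs1 : s < 1) : ∃ C : ℝ, 1 ≤ C ∧
    ∀ (X ι : Type) [Fintype X] [DecidableEq X] [Fintype ι] [DecidableEq ι] (S : Sys X ι),
      S.Good → ∀ (x z : X) (V : X → ℝ),
      ∫ v, ∫ u, ‖S.G (fun w => ((Function.update (Function.update V x v) z u w : ℝ) : ℂ)) x z‖ ^ s
        ∂(unif c) ∂(unif c) ≤ C := by
  haveI := isProb_unif hc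
  obtain ⟨C1, hC1, h1⟩ := frac_one hc hs hs1
  obtain ⟨C2, hC2, h2⟩ := frac_two hc hs hs1
  refine ⟨1 + C1 + C2, by linarith, ?_⟩
  intro X ι _ _ _ _ S hS x z V
  by_cases hxz : x = z
  · subst hxz
    obtain ⟨σ, a0, -, hσ⟩ := Sys.site hS (adm_real V) x
    have e : ∀ v u : ℝ,
        ‖S.G (fun w => ((Function.update (Function.update V x v) x u w : ℝ) : ℂ)) x x‖ ^ s =
          ‖((u : ℂ) + σ)⁻¹‖ ^ s := by
      intro v u
      have e1 : (fun w => ((Function.update (Function.update V x v) x u w : ℝ) : ℂ)) =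
          Function.update (fun w => (V w : ℂ)) x (u : ℂ) := by
        rw [Function.update_idem]
        funext w
        by_cases hw : w = x
        · subst hw
          rw [Function.update_self, Function.update_self]
        · rw [Function.update_of_ne hw, Function.update_of_ne hw]
      rw [e1, (hσ (u : ℂ) (by simp)).2.1]
    simp only [e]
    rw [integral_const]
    simp only [probReal_univ, one_smul]
    have := (h1 σ).2
    linarith
  · obtain ⟨α, β, p, h⟩ := Apri_formula hS hxz V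
    simp only [h]
    have := Apri_two_int hc hC2 α β p (h2 α β p)
    linarith

end Pool.Agent.Lib.MP_562b47_mp.Str
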