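import Pool.Agent.Lib.MP_562b47_mp.Str.Dfm

/-!
Module STR-AeInv (MP_562b47_mp, strips).  `A + diag V` is invertible for almost every `V`.

PROOF.  `PX X c` is absolutely continuous with respect to `volume` on `X → ℝ` (`Measure.pi` of
`(2c)⁻¹ • volume.restrict (Icc (-c) c)`; it is `≤ C • Measure.pi volume`, or show null sets by
`Measure.pi` monotonicity; `volume_pi`).  Let `Z = {V | det (A + diag V) = 0}`, a closed set.  For each
`V` the set `{t : ℝ | V + t·1 ∈ Z}` is the set of the roots of the monic polynomial (up to sign)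
`t ↦ det ((A + diag V) + t • 1)` (`Matrix.charpoly` of `-(A + diag V)`), so it is finite and has measure
zero.  Tonelli and translation invariance of `volume`:
`volume Z * 1 = ∫⁻_{t ∈ [0,1]} volume {V | V + t·1 ∈ Z} = ∫⁻_V volume {t ∈ [0,1] | V + t·1 ∈ Z} = 0`
(if `X` is empty the determinant is `1`).
-/

open MeasureTheory Matrix Complex

namespace Pool.Agent.Lib.MP_562b47_mp.Str

private theorem aeinv_PX {X : Type*} [Fintype X] {c : ℝ} (hc : 0 < c) :
    PX X c = ((ENNReal.ofReal (2 * c))⁻¹) ^ Fintype.card X •
      ((volume : Measure (X → ℝ)).restrict (Set.univ.pi fun _ => Set.Icc (-c) c)) := by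
  have hprob := isProb_unif hc
  unfold PX
  refine Measure.pi_eq fun s hs => ?_
  rw [Measure.smul_apply, volume_pi, Measure.restrict_pi_pi, Measure.pi_pi, smul_eq_mul]
  unfold unif
  simp_rw [Measure.smul_apply, smul_eq_mul]
  rw [Finset.prod_mul_distrib, Finset.prod_const, Finset.card_univ]

private theorem aeinv_finite {X : Type*} [Fintype X] [DecidableEq X] (B : Matrix X X ℝ) :
    {t : ℝ | (B + diagonal fun _ => t).det = 0}.Finite := by
  have h1 : {t : ℝ | (B + diagonal fun _ => t).det = 0} = {t : ℝ | (-B).charpoly.IsRoot t} := by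
    ext t
    show (B + diagonal fun _ => t).det = 0 ↔ (-B).charpoly.eval t = 0
    rw [Matrix.eval_charpoly]
    have h2 : (Matrix.scalar X) t - -B = B + diagonal fun _ => t := by
      rw [sub_neg_eq_add, add_comm]
      rfl
    rw [h2]
  rw [h1]
  exact Polynomial.finite_setOfPred_isRoot (Matrix.charpoly_monic _).ne_zero

private theorem aeinv_vol {X : Type*} [Fintype X] [DecidableEq X] (A : Matrix X X ℝ) :
    (volume : Measure (X → ℝ)) {V | (A + diagonal V).det = 0} = 0 := by
  have hcont : Continuous fun V : X → ℝ => (A + diagonal V).det :=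
    (continuous_const.add continuous_id.matrix_diagonal).matrix_det
  set S : Set ((X → ℝ) × ℝ) := {p | (A + diagonal fun x => p.1 x + p.2).det = 0} with hS
  have hcont2 : Continuous fun p : (X → ℝ) × ℝ => (A + diagonal fun x => p.1 x + p.2).det := by
    have h1 : Continuous fun p : (X → ℝ) × ℝ => (fun x => p.1 x + p.2 : X → ℝ) := by
      fun_prop
    exact hcont.comp h1
  have hSm : MeasurableSet S := (isClosed_singleton.preimage hcont2).measurableSet
  have h1 := Measure.prod_apply (μ := (volume : Measure (X → ℝ)))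
    (ν := (volume : Measure ℝ).restrict (Set.Icc 0 1)) hSm
  have h2 := Measure.prod_apply_symm (μ := (volume : Measure (X → ℝ)))
    (ν := (volume : Measure ℝ).restrict (Set.Icc 0 1)) hSm
  have h3 : ∀ V : X → ℝ, ((volume : Measure ℝ).restrict (Set.Icc 0 1)) (Prod.mk V ⁻¹' S) = 0 := by
    intro V
    refine Measure.absolutelyContinuous_of_le Measure.restrict_le_self ?_
    refine (Set.Finite.subset (aeinv_finite (A + diagonal V)) fun t ht => ?_).measure_zero _
    have ht' : (A + diagonal fun x => V x + t).det = 0 := ht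
    show (A + diagonal V + diagonal fun _ => t).det = 0
    rw [add_assoc, diagonal_add]
    exact ht'
  have h4 : ∀ t : ℝ, (volume : Measure (X → ℝ)) ((fun V => (V, t)) ⁻¹' S)
      = (volume : Measure (X → ℝ)) {V | (A + diagonal V).det = 0} := by
    intro t
    have h5 : (fun V : X → ℝ => (V, t)) ⁻¹' S
        = (fun V : X → ℝ => V + fun _ => t) ⁻¹' {V | (A + diagonal V).det = 0} := rfl
    rw [h5, measure_preimage_add_right]
  rw [h1] at h2
  simp_rw [h3, h4] at h2
  rw [lintegral_zero, lintegral_const, Measure.restrict_apply_univ, Real.volume_Icc] at h2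
  norm_num at h2
  exact h2.symm

theorem ae_det_ne {X : Type*} [Fintype X] [DecidableEq X] {c : ℝ} (hc : 0 < c)
    (A : Matrix X X ℝ) : ∀ᵐ V ∂(PX X c), (A + diagonal V).det ≠ 0 := by
  have h1 : PX X c ≪ (volume : Measure (X → ℝ)) := by
    rw [aeinv_PX hc]
    exact (Measure.absolutelyContinuous_of_le Measure.restrict_le_self).smul_left _
  have h2 : ∀ᵐ V ∂(volume : Measure (X → ℝ)), (A + diagonal V).det ≠ 0 := by
    rw [ae_iff]
    simp only [not_not]
    exact aeinv_vol A
  exact h1.ae_le h2

end Pool.Agent.Lib.MP_562b47_mp.Str
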