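import Pool.Agent.Lib.MP_562b47_mp.Str.Frac

/-!
Module STR-TubeLim (MP_562b47_mp, strips).  The limit `η → 0` of the absorption in the bound for the
Green function of the tube (Fatou).
-/

open MeasureTheory Matrix Complex

namespace Pool.Agent.Lib.MP_562b47_mp.Str

/-- `∑ |G(x, z)|²`, `x` in the first and `z` in the last layer, `G = (segH + V)⁻¹` -/
noncomputable def gsq (L : ℕ) {Q : Type} [Fintype Q] [DecidableEq Q] (h : Fin L → Matrix Q Q ℝ)
    (V : Fin L × Q → ℝ) : ℝ :=
  ∑ x : Fin L × Q, ∑ z : Fin L × Q,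
    if (x.1 : ℕ) = 0 ∧ (z.1 : ℕ) = L - 1 then
      ((segH L h 0 (L - 1) + diagonal V)⁻¹ x z) ^ 2 else 0

section tlim

variable {n : Type} [Fintype n] [DecidableEq n]

private theorem tlim_meas_inv {Ω : Type*} [MeasurableSpace Ω] {K : Ω → Matrix n n ℂ}
    (hK : ∀ x z, Measurable fun w => K w x z) (x z : n) : Measurable fun w => (K w)⁻¹ x z := by
  have hdet : ∀ {M : Ω → Matrix n n ℂ}, (∀ x z, Measurable fun w => M w x z) →
      Measurable fun w => (M w).det := by
    intro M hM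
    simp_rw [Matrix.det_apply]
    refine Finset.measurable_sum _ fun σ _ => ?_
    exact (Finset.measurable_prod _ fun i _ => hM _ _).const_smul _
  have hadj : Measurable fun w => (K w).adjugate x z := by
    simp_rw [Matrix.adjugate_apply]
    refine hdet fun a b => ?_
    by_cases ha : a = z
    · subst ha
      simp only [Matrix.updateRow_self]
      exact measurable_const
    · simp only [Matrix.updateRow_ne ha]
      exact hK a b
  have h1 : (fun w => (K w)⁻¹ x z) = fun w => ((K w).det)⁻¹ * (K w).adjugate x z := by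
    funext w
    rw [Matrix.inv_def, Matrix.smul_apply, Ring.inverse_eq_inv', smul_eq_mul]
  rw [h1]
  exact (hdet hK).inv.mul hadj

private theorem tlim_lsc {g : Matrix n n ℂ → ℝ} (hg : Continuous g) (hg0 : g 0 = 0)
    {A : Matrix n n ℂ} {B : ℕ → Matrix n n ℂ} (hB : Filter.Tendsto B Filter.atTop (nhds A)) :
    ENNReal.ofReal (g A⁻¹) ≤ Filter.liminf (fun k => ENNReal.ofReal (g (B k)⁻¹)) Filter.atTop := by
  by_cases hdet : A.det = 0
  · have h1 : A⁻¹ = 0 := by
      rw [Matrix.inv_def, hdet, Ring.inverse_zero, zero_smul]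
    rw [h1, hg0, ENNReal.ofReal_zero]
    exact zero_le
  · have h1 : ContinuousAt Ring.inverse A.det := by
      rw [Ring.inverse_eq_inv']
      exact continuousAt_inv₀ hdet
    have h2 := (continuousAt_matrix_inv A h1).tendsto.comp hB
    have h3 := (hg.tendsto A⁻¹).comp h2
    exact (ENNReal.tendsto_ofReal h3).liminf_eq.ge

private theorem tlim_map_inv (A : Matrix n n ℝ) :
    (A.map Complex.ofReal)⁻¹ = A⁻¹.map Complex.ofReal := by
  have hdet : (A.map Complex.ofReal).det = (A.det : ℂ) := by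
    have := RingHom.map_det Complex.ofRealHom A
    exact this.symm
  by_cases h : A.det = 0
  · rw [Matrix.inv_def, Matrix.inv_def, hdet, h, Complex.ofReal_zero, Ring.inverse_zero,
      Ring.inverse_zero, zero_smul, zero_smul]
    ext x z
    rw [Matrix.map_apply, Matrix.zero_apply, Matrix.zero_apply, Complex.ofReal_zero]
  · refine Matrix.inv_eq_left_inv ?_
    have h1 : A⁻¹ * A = 1 := Matrix.nonsing_inv_mul A (isUnit_iff_ne_zero.2 h)
    ext x z
    have h2 := congrFun (congrFun h1 x) z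
    rw [Matrix.mul_apply] at h2
    rw [Matrix.mul_apply]
    simp only [Matrix.map_apply]
    have h3 := congrArg Complex.ofReal h2
    push_cast at h3
    rw [h3]
    by_cases hxz : x = z
    · rw [hxz, Matrix.one_apply_eq, Matrix.one_apply_eq, Complex.ofReal_one]
    · rw [Matrix.one_apply_ne hxz, Matrix.one_apply_ne hxz, Complex.ofReal_zero]

variable {Q : Type} [Fintype Q] [DecidableEq Q]

omit [Fintype Q] in
private theorem tlim_K (L : ℕ) (h : Fin L → Matrix Q Q ℝ) (η : ℝ) (V : Fin L × Q → ℝ) :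
    (segD L h 0 (L - 1) (fun _ => η)).K (fun x => ((V x : ℝ) : ℂ))
      = (segH L h 0 (L - 1) + diagonal V).map Complex.ofReal
        + ((η : ℂ) * I) • (1 : Matrix (Fin L × Q) (Fin L × Q) ℂ) := by
  ext x z
  have hU : (segD L h 0 (L - 1) (fun _ => η)).U.map Complex.ofReal
      * ((segD L h 0 (L - 1) (fun _ => η)).U.map Complex.ofReal)ᵀ = 0 := by
    ext a b
    rw [Matrix.mul_apply]
    exact Finset.sum_empty
  unfold Sys.K
  rw [hU, smul_zero, add_zero]
  show ((segH L h 0 (L - 1)).map Complex.ofReal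
      + diagonal (fun x => (V x : ℂ) + ((η : ℝ) : ℂ) * I)) x z = _
  rw [Matrix.add_apply, Matrix.add_apply, Matrix.smul_apply, Matrix.map_apply, Matrix.map_apply,
    Matrix.add_apply]
  by_cases hxz : x = z
  · rw [hxz, diagonal_apply_eq, diagonal_apply_eq, Matrix.one_apply_eq]
    push_cast
    rw [smul_eq_mul, mul_one]
    ring
  · rw [diagonal_apply_ne _ hxz, diagonal_apply_ne _ hxz, Matrix.one_apply_ne hxz, smul_zero,
      add_zero, add_zero, add_zero]

omit [DecidableEq Q] in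
private theorem tlim_sum {L : ℕ} (hL : 1 ≤ L) (f : Fin L × Q → Fin L × Q → ℝ) :
    (∑ x : Fin L × Q, ∑ z : Fin L × Q,
      if (x.1 : ℕ) = 0 ∧ (z.1 : ℕ) = L - 1 then f x z else 0)
      = ∑ q, ∑ q', f (⟨0, by omega⟩, q) (⟨L - 1, by omega⟩, q') := by
  rw [Fintype.sum_prod_type]
  rw [Finset.sum_eq_single (⟨0, by omega⟩ : Fin L)]
  · refine Finset.sum_congr rfl fun q _ => ?_
    rw [Fintype.sum_prod_type, Finset.sum_eq_single (⟨L - 1, by omega⟩ : Fin L)]
    · refine Finset.sum_congr rfl fun q' _ => ?_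
      rw [if_pos ⟨rfl, rfl⟩]
    · intro b _ hb
      refine Finset.sum_eq_zero fun q' _ => ?_
      rw [if_neg]
      rintro ⟨-, h2⟩
      exact hb (Fin.ext h2)
    · intro h
      exact absurd (Finset.mem_univ _) h
  · intro b _ hb
    refine Finset.sum_eq_zero fun q _ => Finset.sum_eq_zero fun z _ => ?_
    rw [if_neg]
    rintro ⟨h1, -⟩
    exact hb (Fin.ext h1)
  · intro h
    exact absurd (Finset.mem_univ _) h

end tlim

theorem tube_limit {c : ℝ} (hc : 0 < c) {Q : Type} [Fintype Q] [DecidableEq Q] {L : ℕ}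
    {h : Fin L → Matrix Q Q ℝ} (hL : 1 ≤ L) (hs : ∀ k, (h k).IsSymm) {η0 b : ℝ} (hη0p : 0 < η0)
    (hη : ∀ η, 0 < η → η ≤ η0 → am c (1 / 4) L h η 0 (L - 1) (by omega) (by omega) ≤ b) :
    ∫⁻ V, ENNReal.ofReal (gsq L h V ^ (1 / 8 : ℝ)) ∂(PX (Fin L × Q) c) ≤ ENNReal.ofReal b := by
  have hprob := isProb_PX (X := Fin L × Q) hc
  have hL0 : 0 < L := by omega
  have hL1 : L - 1 < L := by omega
  set ηk : ℕ → ℝ := fun k => η0 / ((k : ℝ) + 1) with hηk
  have hηp : ∀ k, 0 < ηk k := fun k => by positivity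
  have hηle : ∀ k, ηk k ≤ η0 := fun k => by
    refine div_le_self hη0p.le ?_
    have : (0 : ℝ) ≤ k := Nat.cast_nonneg _
    linarith
  have hη0t : Filter.Tendsto ηk Filter.atTop (nhds 0) := by
    have h1 : Filter.Tendsto (fun k : ℕ => η0 * (1 / ((k : ℝ) + 1))) Filter.atTop (nhds (η0 * 0)) :=
      tendsto_one_div_add_atTop_nhds_zero_nat.const_mul η0
    rw [mul_zero] at h1
    refine h1.congr fun k => ?_
    rw [hηk]
    ring
  set q0 : Matrix (Fin L × Q) (Fin L × Q) ℂ → ℝ := fun M => ∑ x : Fin L × Q, ∑ z : Fin L × Q,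
    if (x.1 : ℕ) = 0 ∧ (z.1 : ℕ) = L - 1 then ‖M x z‖ ^ 2 else 0 with hq0
  have hq0c : Continuous q0 := by
    refine continuous_finsetSum _ fun x _ => continuous_finsetSum _ fun z _ => ?_
    split_ifs
    · exact (continuous_id.matrix_elem x z).norm.pow 2
    · exact continuous_const
  have hq0nn : ∀ M, 0 ≤ q0 M := fun M => by
    refine Finset.sum_nonneg fun x _ => Finset.sum_nonneg fun z _ => ?_
    split_ifs
    · positivity
    · exact le_rfl
  set g : Matrix (Fin L × Q) (Fin L × Q) ℂ → ℝ := fun M => q0 M ^ (1 / 8 : ℝ) with hg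
  have hgc : Continuous g := hq0c.rpow_const fun _ => Or.inr (by norm_num)
  have hg0 : g 0 = 0 := by
    rw [hg, hq0]
    simp
  have hgnn : ∀ M, 0 ≤ g M := fun M => Real.rpow_nonneg (hq0nn M) _
  set A : (Fin L × Q → ℝ) → Matrix (Fin L × Q) (Fin L × Q) ℂ := fun V =>
    (segH L h 0 (L - 1) + diagonal V).map Complex.ofReal with hAdef
  set B : ℕ → (Fin L × Q → ℝ) → Matrix (Fin L × Q) (Fin L × Q) ℂ := fun k V =>
    A V + ((ηk k : ℂ) * I) • (1 : Matrix (Fin L × Q) (Fin L × Q) ℂ) with hBdef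
  have hBt : ∀ V, Filter.Tendsto (fun k => B k V) Filter.atTop (nhds (A V)) := by
    intro V
    have h1 : Filter.Tendsto (fun k => ((ηk k : ℂ) * I)) Filter.atTop (nhds (((0 : ℝ) : ℂ) * I)) :=
      ((Complex.continuous_ofReal.tendsto 0).comp hη0t).mul_const I
    have h2 := (h1.smul_const (1 : Matrix (Fin L × Q) (Fin L × Q) ℂ)).const_add (A V)
    rw [Complex.ofReal_zero, zero_mul, zero_smul, add_zero] at h2
    exact h2
  have hAm : ∀ x z, Measurable fun V => A V x z := by
    intro x z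
    rw [hAdef]
    simp only [Matrix.map_apply, Matrix.add_apply]
    refine Complex.measurable_ofReal.comp (measurable_const.add ?_)
    by_cases hxz : x = z
    · rw [hxz]
      simp only [diagonal_apply_eq]
      exact measurable_pi_apply z
    · simp only [diagonal_apply_ne _ hxz]
      exact measurable_const
  have hBm : ∀ k x z, Measurable fun V => B k V x z := fun k x z =>
    (hAm x z).add_const _
  have hgm : ∀ {K : (Fin L × Q → ℝ) → Matrix (Fin L × Q) (Fin L × Q) ℂ},
      (∀ x z, Measurable fun V => K V x z) → Measurable fun V => g (K V)⁻¹ := by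
    intro K hK
    rw [hg, hq0]
    refine Measurable.pow_const ?_ _
    refine Finset.measurable_sum _ fun x _ => Finset.measurable_sum _ fun z _ => ?_
    split_ifs
    · exact (tlim_meas_inv hK x z).norm.pow_const 2
    · exact measurable_const
  have hgB : ∀ k V, g (B k V)⁻¹
      = hsn (blk (Gs L h 0 (L - 1) (fun _ => ηk k) V) ⟨0, hL0⟩ ⟨L - 1, hL1⟩) ^ (1 / 4 : ℝ) := by
    intro k V
    have h1 : q0 (B k V)⁻¹ = ∑ q, ∑ q',
        ‖blk (Gs L h 0 (L - 1) (fun _ => ηk k) V) ⟨0, hL0⟩ ⟨L - 1, hL1⟩ q q'‖ ^ 2 := by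
      rw [hq0, hBdef, hAdef]
      unfold Gs Sys.G
      rw [tlim_K]
      exact tlim_sum hL _
    show q0 (B k V)⁻¹ ^ (1 / 8 : ℝ) = _
    unfold hsn
    rw [← h1, Real.sqrt_eq_rpow, ← Real.rpow_mul (hq0nn _)]
    norm_num
  have hgA : ∀ V, gsq L h V ^ (1 / 8 : ℝ) = g (A V)⁻¹ := by
    intro V
    show _ = q0 (A V)⁻¹ ^ (1 / 8 : ℝ)
    congr 1
    rw [hq0, hAdef]
    unfold gsq
    refine Finset.sum_congr rfl fun x _ => Finset.sum_congr rfl fun z _ => ?_
    rw [tlim_map_inv, Matrix.map_apply, Complex.norm_real, Real.norm_eq_abs, sq_abs]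
  have hint : ∀ k, Integrable (fun V => g (B k V)⁻¹) (PX (Fin L × Q) c) := by
    intro k
    have h1 := (bmeas_hsn hs 0 (L - 1) (y := fun _ => ηk k) (fun _ => hηp k) ⟨0, hL0⟩
      ⟨L - 1, hL1⟩ (r := 1 / 4) (by norm_num)).integrable (PX (Fin L × Q) c)
    simp_rw [hgB k]
    exact h1
  have hkb : ∀ k, ∫ V, g (B k V)⁻¹ ∂(PX (Fin L × Q) c) ≤ b := by
    intro k
    simp_rw [hgB k]
    exact hη (ηk k) (hηp k) (hηle k)
  simp_rw [hgA]
  calc ∫⁻ V, ENNReal.ofReal (g (A V)⁻¹) ∂(PX (Fin L × Q) c)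
      ≤ ∫⁻ V, Filter.liminf (fun k => ENNReal.ofReal (g (B k V)⁻¹)) Filter.atTop
        ∂(PX (Fin L × Q) c) := lintegral_mono fun V => tlim_lsc hgc hg0 (hBt V)
    _ ≤ Filter.liminf (fun k => ∫⁻ V, ENNReal.ofReal (g (B k V)⁻¹) ∂(PX (Fin L × Q) c))
        Filter.atTop := lintegral_liminf_le fun k => (hgm (hBm k)).ennreal_ofReal
    _ ≤ Filter.liminf (fun _ : ℕ => ENNReal.ofReal b) Filter.atTop := by
        refine Filter.liminf_le_liminf (Filter.Eventually.of_forall fun k => ?_)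
        rw [← ofReal_integral_eq_lintegral_ofReal (hint k)
          (Filter.Eventually.of_forall fun V => hgnn _)]
        exact ENNReal.ofReal_le_ofReal (hkb k)
    _ = ENNReal.ofReal b := Filter.liminf_const _

end Pool.Agent.Lib.MP_562b47_mp.Str
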