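import Pool.Agent.Lib.MP_562b47_mp.Str.TauIt
import Pool.Agent.Lib.MP_562b47_mp.Str.TubeLim

/-!
Module STR-Tube4 (MP_562b47_mp, strips).  Exponential decay of the Green function of the tube with
localization length `≤ C_ε W^(4+ε)`, `W = card Q ≥ 1`.

PROOF of `tube4_eta`.  `C0, Cη` from `tau_iter`, `n0 = ⌈C0 W^(4+ε)⌉₊`, `η0 = min 1 (exp (-Cη W (n0+1)))`,
`p = (L - 1)/(n0 + 3)` (natural division), so `p (n0+3) ≤ L - 1 < (L - 1) - 0 + 1` and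
`p ≥ L/(n0+3) - 1`; `τ := tau (3/4) 0 (L-1) ≤ 2^(-p) W^(3/8)`.
By `lead_remove`, `hsn_mul`: `hsn (blk G 0 (L-1)) ≤ a b d`, `a = √W + hsn (blk G 0 0)`,
`b = hsn T`, `d = √W + hsn (blk G₁₀ (L-1) (L-1))` (`hsn 1 = √W`, `hsn (I • A) = hsn A`).
Elementary (AM-GM, weights 1/3): for `x, y, z ≥ 0`, `λ > 0`: `x y z ≤ (λ x³ + λ z³ + λ⁻² y³)/3`; with
`x = a^(1/4)`, `y = b^(1/4)`, `z = d^(1/4)`, `λ = 2^(-p/3)`:
`∫ (a b d)^(1/4) ≤ (λ ∫ a^(3/4) + λ ∫ d^(3/4) + λ⁻² τ)/3 ≤ (2 C1 λ W^(3/4) + λ⁻² λ³ W^(3/8))/3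
≤ C1 λ W` where `∫ a^(3/4), ∫ d^(3/4) ≤ C1 W^(3/4)`: `weg_tube` for `k = l = a = b := 0` (or `L - 1`),
integrated with `int_mxL` (as in `apri_hsn` of `Frac`).
`λ = 2^(-p/3) ≤ 2^(1/3) exp (- log 2/3 * L/(n0+3))`, `n0 + 3 ≤ (C0+4) W^(4+ε)`.
`C = max (2^(1/3) C1) (3 (C0+4)/log 2)` is enough.
`tube4`: `tube_limit` with `b = C W exp (..)`.
-/

open MeasureTheory Matrix Complex

namespace Pool.Agent.Lib.MP_562b47_mp.Str

section tube4aux

variable {Q : Type} [Fintype Q] [DecidableEq Q]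

private theorem tube4_hsn_one : hsn (1 : Matrix Q Q ℂ) = √(Fintype.card Q) := by
  unfold hsn
  congr 1
  have h1 : ∀ q : Q, ∑ q', ‖(1 : Matrix Q Q ℂ) q q'‖ ^ 2 = 1 := by
    intro q
    rw [Finset.sum_eq_single q]
    · rw [Matrix.one_apply_eq]
      norm_num
    · intro b _ hb
      rw [Matrix.one_apply_ne (Ne.symm hb)]
      norm_num
    · intro h
      exact absurd (Finset.mem_univ _) h
  rw [Finset.sum_congr rfl fun q _ => h1 q]
  simp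

private theorem tube4_hsn_I (A : Matrix Q Q ℂ) : hsn (I • A) = hsn A := by
  unfold hsn
  congr 1
  refine Finset.sum_congr rfl fun q _ => Finset.sum_congr rfl fun q' _ => ?_
  rw [Matrix.smul_apply, smul_eq_mul, norm_mul, Complex.norm_I, one_mul]

private theorem tube4_hsn_one_add (A : Matrix Q Q ℂ) :
    hsn (1 + I • A) ≤ √(Fintype.card Q) + hsn A := by
  have h := hsn_add (1 : Matrix Q Q ℂ) (I • A)
  rwa [tube4_hsn_one, tube4_hsn_I] at h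

private theorem tube4_bmeas {L : ℕ} {h : Fin L → Matrix Q Q ℝ} (hs : ∀ k, (h k).IsSymm)
    (i j : ℕ) {y : Fin L × Q → ℝ} (hy : ∀ x, 0 < y x) (k l : Fin L) {r : ℝ} (hr : 0 ≤ r) :
    BMeas fun V : Fin L × Q → ℝ =>
      (√(Fintype.card Q) + hsn (blk (Gs L h i j y V) k l)) ^ r := by
  have hh0 : ∀ V, 0 ≤ √(Fintype.card Q : ℝ) + hsn (blk (Gs L h i j y V) k l) := fun V =>
    add_nonneg (Real.sqrt_nonneg _) (hsn_nonneg _)
  refine BMeas.of_continuous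
    (C := (√(Fintype.card Q) + √(∑ q, ∑ q', 1 / (y (k, q) * y (l, q')))) ^ r) ?_ fun V => ?_
  · refine Continuous.rpow_const ?_ fun V => Or.inr hr
    refine continuous_const.add ?_
    unfold hsn
    refine Real.continuous_sqrt.comp ?_
    refine continuous_finsetSum _ fun q _ => continuous_finsetSum _ fun q' _ => ?_
    exact ((cont_Gs hs i j hy (k, q) (l, q')).norm).pow 2
  · rw [Real.norm_of_nonneg (Real.rpow_nonneg (hh0 V) r)]
    refine Real.rpow_le_rpow (hh0 V) (add_le_add le_rfl (Real.sqrt_le_sqrt ?_)) hr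
    refine Finset.sum_le_sum fun q _ => Finset.sum_le_sum fun q' _ => ?_
    exact norm_Gs_bdd hs i j hy V (k, q) (l, q')

/-- the integrated bound of a diagonal block -/
private theorem tube4_diag {c s C1 : ℝ} (hc : 0 < c) (hs : 0 < s)
    (hC : ∀ (Q : Type) [Fintype Q] [DecidableEq Q] (L : ℕ) (h : Fin L → Matrix Q Q ℝ) (i j : ℕ)
      (y : Fin L × Q → ℝ) (k l a b : Fin L), (∀ k, (h k).IsSymm) → (∀ x, 0 < y x) →
      (a = k ∨ a = l) → (b = k ∨ b = l) → ∀ V : Fin L × Q → ℝ,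
      ∫ V', (√(Fintype.card Q) + hsn (blk (Gs L h i j y (mxL k l V V')) a b)) ^ s
        ∂(PX (Fin L × Q) c) ≤ C1 * (Fintype.card Q : ℝ) ^ s)
    {L : ℕ} {h : Fin L → Matrix Q Q ℝ} (hsy : ∀ k, (h k).IsSymm)
    (i j : ℕ) {y : Fin L × Q → ℝ} (hy : ∀ x, 0 < y x) (k : Fin L) :
    ∫ V, (√(Fintype.card Q) + hsn (blk (Gs L h i j y V) k k)) ^ s ∂(PX (Fin L × Q) c)
      ≤ C1 * (Fintype.card Q : ℝ) ^ s := by
  have : IsProbabilityMeasure (PX (Fin L × Q) c) := isProb_PX hc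
  rw [int_mxL hc k k (tube4_bmeas hsy i j hy k k hs.le)]
  exact int_le (((tube4_bmeas hsy i j hy k k hs.le).comp (meas_mxL k k)).integral _) fun V =>
    hC Q L h i j y k k k k hsy hy (Or.inl rfl) (Or.inl rfl) V

end tube4aux

/-- weighted AM-GM -/
private theorem tube4_amgm {a b d l : ℝ} (ha : 0 ≤ a) (hb : 0 ≤ b) (hd : 0 ≤ d) (hl : 0 < l) :
    (a * b * d) ^ (1 / 4 : ℝ)
      ≤ (l * a ^ (3 / 4 : ℝ) + (l ^ 2)⁻¹ * b ^ (3 / 4 : ℝ) + l * d ^ (3 / 4 : ℝ)) / 3 := by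
  have key := Real.geom_mean_le_arith_mean3_weighted (w₁ := 1 / 3) (w₂ := 1 / 3) (w₃ := 1 / 3)
    (p₁ := l * a ^ (3 / 4 : ℝ)) (p₂ := (l ^ 2)⁻¹ * b ^ (3 / 4 : ℝ)) (p₃ := l * d ^ (3 / 4 : ℝ))
    (by norm_num) (by norm_num) (by norm_num) (by positivity) (by positivity) (by positivity)
    (by norm_num)
  have e : ∀ t : ℝ, 0 ≤ t → (t ^ (3 / 4 : ℝ)) ^ (1 / 3 : ℝ) = t ^ (1 / 4 : ℝ) := by
    intro t ht
    rw [← Real.rpow_mul ht]
    norm_num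
  rw [Real.mul_rpow hl.le (by positivity), Real.mul_rpow (by positivity) (by positivity),
    Real.mul_rpow hl.le (by positivity), e a ha, e b hb, e d hd] at key
  have e2 : ((l ^ 2)⁻¹) ^ (1 / 3 : ℝ) = (l ^ (1 / 3 : ℝ) * l ^ (1 / 3 : ℝ))⁻¹ := by
    rw [Real.inv_rpow (by positivity), pow_two, Real.mul_rpow hl.le hl.le]
  rw [e2] at key
  have hl3 : 0 < l ^ (1 / 3 : ℝ) := Real.rpow_pos_of_pos hl _
  rw [Real.mul_rpow (mul_nonneg ha hb) hd, Real.mul_rpow ha hb]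
  refine (le_of_eq ?_).trans (key.trans (le_of_eq ?_))
  · field_simp
  · ring

/-- the length of the pieces -/
private theorem tube4_exp {C0 C W ε p L n0 : ℝ} (hC0 : 1 ≤ C0) (hW : 1 ≤ W) (hε : 0 < ε)
    (hn : n0 ≤ C0 * W ^ (4 + ε) + 1) (hn0 : 0 ≤ n0) (hL : 0 ≤ L) (hC : 3 * (C0 + 4) / Real.log 2 ≤ C)
    (hp : L ≤ (p + 1) * (n0 + 3)) :
    (2 : ℝ) ^ (-(p / 3)) ≤ 2 ^ (1 / 3 : ℝ) * Real.exp (-(L / (C * W ^ (4 + ε)))) := by
  have hlog : 0 < Real.log 2 := Real.log_pos (by norm_num)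
  have hWe : 1 ≤ W ^ (4 + ε) := Real.one_le_rpow hW (by linarith)
  have hWp : 0 < W ^ (4 + ε) := by linarith
  have hCp : 0 < C := lt_of_lt_of_le (by positivity) hC
  have h1 : n0 + 3 ≤ (C0 + 4) * W ^ (4 + ε) := by nlinarith
  have h2 : L / ((C0 + 4) * W ^ (4 + ε)) ≤ p + 1 := by
    rw [div_le_iff₀ (by positivity)]
    have hp1 : 0 ≤ p + 1 := by
      by_contra hneg
      push Not at hneg
      nlinarith
    exact hp.trans (mul_le_mul_of_nonneg_left h1 hp1)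
  have h3 : L / (C * W ^ (4 + ε)) ≤ Real.log 2 / 3 * (L / ((C0 + 4) * W ^ (4 + ε))) := by
    have h4 : 3 * (C0 + 4) ≤ C * Real.log 2 := by
      rwa [div_le_iff₀ hlog] at hC
    rw [div_mul_div_comm, div_le_div_iff₀ (by positivity) (by positivity)]
    have h5 : 0 ≤ L * W ^ (4 + ε) := by positivity
    nlinarith [mul_le_mul_of_nonneg_right h4 h5]
  have h6 : (2 : ℝ) ^ (-(p / 3)) = 2 ^ (1 / 3 : ℝ) * 2 ^ (-((p + 1) / 3)) := by
    rw [← Real.rpow_add (by norm_num)]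
    congr 1
    ring
  rw [h6]
  refine mul_le_mul_of_nonneg_left ?_ (by positivity)
  rw [Real.rpow_def_of_pos (by norm_num)]
  refine Real.exp_le_exp.2 ?_
  have h7 : Real.log 2 / 3 * (L / ((C0 + 4) * W ^ (4 + ε))) ≤ Real.log 2 / 3 * (p + 1) :=
    mul_le_mul_of_nonneg_left h2 (by positivity)
  nlinarith

theorem tube4_eta {c R ε : ℝ} (hc : 0 < c) (hR : 0 ≤ R) (hε : 0 < ε) (hε1 : ε ≤ 1) (Δ : ℕ) :
    ∃ C : ℝ, 1 ≤ C ∧
    ∀ (Q : Type) [Fintype Q] [DecidableEq Q] [Nonempty Q] (L : ℕ) (h : Fin L → Matrix Q Q ℝ)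
      (hL : 1 ≤ L), (∀ k, (h k).IsSymm) → (∀ k q, ∑ q', |h k q q'| ≤ R) →
      (∀ k q, (Finset.univ.filter fun q' => h k q q' ≠ 0).card ≤ Δ) →
      ∃ η0 : ℝ, 0 < η0 ∧ ∀ η, 0 < η → η ≤ η0 →
        am c (1 / 4) L h η 0 (L - 1) (by omega) (by omega)
          ≤ C * (Fintype.card Q : ℝ) * Real.exp (-(L / (C * (Fintype.card Q : ℝ) ^ (4 + ε)))) := by
  obtain ⟨C0, Cη, hC0, hCη, hit⟩ := tau_iter hc hR hε hε1 Δ
  obtain ⟨C1, hC1, hweg⟩ := weg_tube (s := 3 / 4) hc (by norm_num) (by norm_num)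
  have h2r : (1 : ℝ) ≤ 2 ^ (1 / 3 : ℝ) := Real.one_le_rpow (by norm_num) (by norm_num)
  refine ⟨max (2 ^ (1 / 3 : ℝ) * C1) (3 * (C0 + 4) / Real.log 2), le_max_of_le_left ?_, ?_⟩
  · nlinarith
  set C := max (2 ^ (1 / 3 : ℝ) * C1) (3 * (C0 + 4) / Real.log 2) with hCdef
  intro Q _ _ _ L h hL hsy hrow hdeg
  set W : ℝ := (Fintype.card Q : ℝ) with hW
  have hW1 : 1 ≤ W := by
    rw [hW]
    exact_mod_cast Fintype.card_pos
  set n0 : ℕ := ⌈C0 * W ^ (4 + ε)⌉₊ with hn0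
  have hn0a : C0 * W ^ (4 + ε) ≤ n0 := Nat.le_ceil _
  have hn0b : (n0 : ℝ) ≤ C0 * W ^ (4 + ε) + 1 :=
    (Nat.ceil_lt_add_one (by positivity)).le
  refine ⟨min 1 (Real.exp (-(Cη * (W * ((n0 : ℝ) + 1))))),
    lt_min one_pos (Real.exp_pos _), ?_⟩
  intro η hη hη0
  have hprob : IsProbabilityMeasure (PX (Fin L × Q) c) := isProb_PX hc
  set p : ℕ := (L - 1) / (n0 + 3) with hp
  have hp1 : p * (n0 + 3) < L - 1 - 0 + 1 := by
    have := Nat.div_mul_le_self (L - 1) (n0 + 3)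
    rw [← hp] at this
    omega
  have hp2 : (L : ℝ) ≤ ((p : ℝ) + 1) * ((n0 : ℝ) + 3) := by
    have h1 : L - 1 < (n0 + 3) * p + (n0 + 3) := by
      have := Nat.lt_mul_div_succ (L - 1) (show 0 < n0 + 3 by omega)
      rw [← hp] at this
      linarith [this]
    have h2 : L ≤ (p + 1) * (n0 + 3) := by
      have h3 : (p + 1) * (n0 + 3) = (n0 + 3) * p + (n0 + 3) := by ring
      omega
    exact_mod_cast h2
  have htau := hit Q L h η n0 hsy hrow hdeg hη (hη0.trans (min_le_left _ _)) hn0a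
    (hη0.trans (min_le_right _ _)) p 0 (L - 1) (by omega) (by omega) hp1
  set l : ℝ := (2 : ℝ) ^ (-((p : ℝ) / 3)) with hl
  have hlp : 0 < l := Real.rpow_pos_of_pos (by norm_num) _
  have hl3 : l ^ 3 = (1 / 2) ^ p := by
    rw [hl, ← Real.rpow_natCast, ← Real.rpow_mul (by norm_num), ← Real.rpow_natCast, one_div,
      Real.inv_rpow (by norm_num), ← Real.rpow_neg (by norm_num)]
    congr 1
    push_cast
    ring
  have hy0 : ∀ x : Fin L × Q, 0 < (fun _ : Fin L × Q => η) x := fun _ => hη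
  have hy1 : ∀ x : Fin L × Q, 0 < (fun x : Fin L × Q => η + if (x.1 : ℕ) = 0 then 1 else 0) x := by
    intro x
    show 0 < η + if (x.1 : ℕ) = 0 then (1 : ℝ) else 0
    split_ifs <;> linarith
  have hy2 : ∀ x : Fin L × Q, 0 < yLead 0 (L - 1) η x := fun x => yLead_pos hη x
  have hs34 : (0 : ℝ) < 3 / 4 := by norm_num
  have hA := tube4_diag hc hs34 hweg hsy 0 (L - 1) hy0 ⟨0, by omega⟩
  have hD := tube4_diag hc hs34 hweg hsy 0 (L - 1) hy1 ⟨L - 1, by omega⟩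
  have hAm := tube4_bmeas hsy 0 (L - 1) hy0 ⟨0, by omega⟩ ⟨0, by omega⟩ hs34.le
  have hDm := tube4_bmeas hsy 0 (L - 1) hy1 ⟨L - 1, by omega⟩ ⟨L - 1, by omega⟩ hs34.le
  have hBm := bmeas_hsn hsy 0 (L - 1) hy2 ⟨0, by omega⟩ ⟨L - 1, by omega⟩ hs34.le
  have hEm := bmeas_hsn hsy 0 (L - 1) hy0 ⟨0, by omega⟩ ⟨L - 1, by omega⟩
    (r := 1 / 4) (by norm_num)
  have hpt : ∀ V : Fin L × Q → ℝ,
      hsn (blk (Gs L h 0 (L - 1) (fun _ => η) V) ⟨0, by omega⟩ ⟨L - 1, by omega⟩) ^ (1 / 4 : ℝ)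
      ≤ (l * (√(Fintype.card Q) + hsn (blk (Gs L h 0 (L - 1) (fun _ => η) V)
              ⟨0, by omega⟩ ⟨0, by omega⟩)) ^ (3 / 4 : ℝ)
          + (l ^ 2)⁻¹ * hsn (blk (Gs L h 0 (L - 1) (yLead 0 (L - 1) η) V)
              ⟨0, by omega⟩ ⟨L - 1, by omega⟩) ^ (3 / 4 : ℝ)
          + l * (√(Fintype.card Q) + hsn (blk (Gs L h 0 (L - 1)
              (fun x => η + if (x.1 : ℕ) = 0 then 1 else 0) V)
              ⟨L - 1, by omega⟩ ⟨L - 1, by omega⟩)) ^ (3 / 4 : ℝ)) / 3 := by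
    intro V
    refine le_trans ?_ (tube4_amgm (add_nonneg (Real.sqrt_nonneg _) (hsn_nonneg _)) (hsn_nonneg _)
      (add_nonneg (Real.sqrt_nonneg _) (hsn_nonneg _)) hlp)
    refine Real.rpow_le_rpow (hsn_nonneg _) ?_ (by norm_num)
    rw [lead_remove hsy hη hL V]
    refine (hsn_mul _ _).trans ?_
    refine mul_le_mul ((hsn_mul _ _).trans ?_) (tube4_hsn_one_add _) (hsn_nonneg _) ?_
    · exact mul_le_mul_of_nonneg_right (tube4_hsn_one_add _) (hsn_nonneg _)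
    · exact mul_nonneg (add_nonneg (Real.sqrt_nonneg _) (hsn_nonneg _)) (hsn_nonneg _)
  have hint : am c (1 / 4) L h η 0 (L - 1) (by omega) (by omega)
      ≤ (l * (C1 * W ^ (3 / 4 : ℝ)) + (l ^ 2)⁻¹ * ((1 / 2) ^ p * W ^ (3 / 8 : ℝ))
        + l * (C1 * W ^ (3 / 4 : ℝ))) / 3 := by
    unfold am
    refine (integral_mono (hEm.integrable _) ?_ hpt).trans ?_
    · exact ((((hAm.integrable _).const_mul l).add ((hBm.integrable _).const_mul _)).add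
        ((hDm.integrable _).const_mul l)).div_const 3
    · rw [integral_div, integral_add, integral_add, integral_const_mul, integral_const_mul,
        integral_const_mul]
      · refine div_le_div_of_nonneg_right ?_ (by norm_num)
        refine add_le_add (add_le_add ?_ ?_) ?_
        · exact mul_le_mul_of_nonneg_left hA hlp.le
        · exact mul_le_mul_of_nonneg_left htau (by positivity)
        · exact mul_le_mul_of_nonneg_left hD hlp.le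
      · exact (hAm.integrable _).const_mul l
      · exact (hBm.integrable _).const_mul _
      · exact ((hAm.integrable _).const_mul l).add ((hBm.integrable _).const_mul _)
      · exact (hDm.integrable _).const_mul l
  have hW34 : W ^ (3 / 4 : ℝ) ≤ W := by
    calc W ^ (3 / 4 : ℝ) ≤ W ^ (1 : ℝ) := Real.rpow_le_rpow_of_exponent_le hW1 (by norm_num)
      _ = W := Real.rpow_one W
  have hW38 : W ^ (3 / 8 : ℝ) ≤ W := by
    calc W ^ (3 / 8 : ℝ) ≤ W ^ (1 : ℝ) := Real.rpow_le_rpow_of_exponent_le hW1 (by norm_num)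
      _ = W := Real.rpow_one W
  have hfin : (l * (C1 * W ^ (3 / 4 : ℝ)) + (l ^ 2)⁻¹ * ((1 / 2) ^ p * W ^ (3 / 8 : ℝ))
        + l * (C1 * W ^ (3 / 4 : ℝ))) / 3 ≤ l * (C1 * W) := by
    rw [← hl3]
    have e1 : (l ^ 2)⁻¹ * (l ^ 3 * W ^ (3 / 8 : ℝ)) = l * W ^ (3 / 8 : ℝ) := by
      field_simp
    rw [e1]
    have e2 : C1 * W ^ (3 / 4 : ℝ) ≤ C1 * W := mul_le_mul_of_nonneg_left hW34 (by linarith)
    have e3 : W ^ (3 / 8 : ℝ) ≤ C1 * W := by nlinarith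
    have e4 := mul_le_mul_of_nonneg_left e2 hlp.le
    have e5 := mul_le_mul_of_nonneg_left e3 hlp.le
    linarith
  have hexp := tube4_exp (C := C) (p := (p : ℝ)) (L := (L : ℝ)) (n0 := (n0 : ℝ)) hC0 hW1 hε hn0b
    (Nat.cast_nonneg _) (Nat.cast_nonneg _) (le_max_right _ _) hp2
  refine hint.trans (hfin.trans ?_)
  calc l * (C1 * W)
      ≤ (2 ^ (1 / 3 : ℝ) * Real.exp (-(L / (C * W ^ (4 + ε))))) * (C1 * W) :=
        mul_le_mul_of_nonneg_right hexp (by positivity)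
    _ = (2 ^ (1 / 3 : ℝ) * C1) * W * Real.exp (-(L / (C * W ^ (4 + ε)))) := by ring
    _ ≤ C * W * Real.exp (-(L / (C * W ^ (4 + ε)))) := by
        refine mul_le_mul_of_nonneg_right ?_ (Real.exp_pos _).le
        exact mul_le_mul_of_nonneg_right (le_max_left _ _) (by linarith)

theorem tube4 {c R ε : ℝ} (hc : 0 < c) (hR : 0 ≤ R) (hε : 0 < ε) (hε1 : ε ≤ 1) (Δ : ℕ) :
    ∃ C : ℝ, 1 ≤ C ∧
    ∀ (Q : Type) [Fintype Q] [DecidableEq Q] [Nonempty Q] (L : ℕ) (h : Fin L → Matrix Q Q ℝ)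
      (_ : 1 ≤ L), (∀ k, (h k).IsSymm) → (∀ k q, ∑ q', |h k q q'| ≤ R) →
      (∀ k q, (Finset.univ.filter fun q' => h k q q' ≠ 0).card ≤ Δ) →
      ∫⁻ V, ENNReal.ofReal (gsq L h V ^ (1 / 8 : ℝ)) ∂(PX (Fin L × Q) c)
        ≤ ENNReal.ofReal (C * (Fintype.card Q : ℝ)
            * Real.exp (-(L / (C * (Fintype.card Q : ℝ) ^ (4 + ε))))) := by
  obtain ⟨C, hC, hmain⟩ := tube4_eta hc hR hε hε1 Δ
  refine ⟨C, hC, ?_⟩
  intro Q _ _ _ L h hL hs hrow hdeg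
  obtain ⟨η0, hη0p, hη⟩ := hmain Q L h hL hs hrow hdeg
  exact tube_limit hc hL hs hη0p hη

end Pool.Agent.Lib.MP_562b47_mp.Str
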