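import Pool.Agent.Lib.MP_562b47_mp.Str.Base

/-!
Module STR-AlgBase (MP_562b47_mp, strips).  Pure linear algebra.

`K ν = H + diag(ν + i y) + i U Uᵀ`.  PROOFS.
* `det_ne`: if `K u = 0`, then `Im (star u ⬝ K u) = ∑ x, ((ν x).im + y x) |u x|² + ∑ s |∑ x, U x s u x|²`
  (the real symmetric `H` contributes a real number) `= 0`, and `(ν x).im + y x > 0`, so `u = 0`
  (`Matrix.exists_mulVec_eq_zero_iff` : det = 0 iff there is a nonzero kernel vector).
* `K_symm`, `G_symm`: transpose (no conjugate); `Matrix.transpose_nonsing_inv`.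
* the equation `K w = U`: `Matrix.mul_nonsing_inv` and associativity.
* `eqn'`: if `U x = 0` then row `x` of `i U Uᵀ` vanishes.
-/

open MeasureTheory Matrix Complex

namespace Pool.Agent.Lib.MP_562b47_mp.Str

variable {X ι : Type*} [Fintype X] [DecidableEq X] [Fintype ι] [DecidableEq ι]

namespace Sys

variable {S : Sys X ι} {ν : X → ℂ}

private theorem im_real_part (H : Matrix X X ℝ) (hH : H.IsSymm) (v : X → ℂ) :
    (star v ⬝ᵥ (H.map Complex.ofReal *ᵥ v)).im = 0 := by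
  have h : star (star v ⬝ᵥ (H.map Complex.ofReal *ᵥ v)) = star v ⬝ᵥ (H.map Complex.ofReal *ᵥ v) := by
    have hc : (H.map Complex.ofReal)ᴴ = H.map Complex.ofReal := by
      ext i j
      simp only [Matrix.conjTranspose_apply, Matrix.map_apply]
      rw [hH.apply]
      simp
    rw [← Matrix.star_dotProduct_star, star_star, star_mulVec, hc, Matrix.dotProduct_mulVec,
      dotProduct_comm]
  exact Complex.conj_eq_iff_im.mp h

private theorem im_diag (f : X → ℂ) (v : X → ℂ) :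
    (star v ⬝ᵥ (diagonal f *ᵥ v)).im = ∑ x, (f x).im * Complex.normSq (v x) := by
  simp only [dotProduct, mulVec_diagonal, Complex.im_sum]
  refine Finset.sum_congr rfl fun x _ => ?_
  have : star v x * (f x * v x) = f x * (Complex.normSq (v x) : ℂ) := by
    rw [Complex.normSq_eq_conj_mul_self]
    simp only [Pi.star_apply, RCLike.star_def]
    ring
  rw [this, Complex.im_mul_ofReal]

private theorem im_UU (U : Matrix X ι ℝ) (v : X → ℂ) :
    (star v ⬝ᵥ ((I • (U.map Complex.ofReal * (U.map Complex.ofReal)ᵀ)) *ᵥ v)).im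
      = ∑ s, Complex.normSq (((U.map Complex.ofReal)ᵀ *ᵥ v) s) := by
  have hc : (U.map Complex.ofReal)ᴴ = (U.map Complex.ofReal)ᵀ := by
    ext i j
    simp [Matrix.conjTranspose_apply]
  have h1 : star v ⬝ᵥ ((I • (U.map Complex.ofReal * (U.map Complex.ofReal)ᵀ)) *ᵥ v)
      = I * ((∑ s, Complex.normSq (((U.map Complex.ofReal)ᵀ *ᵥ v) s) : ℝ) : ℂ) := by
    have h2 : star v ᵥ* (U.map Complex.ofReal) = star ((U.map Complex.ofReal)ᵀ *ᵥ v) := by
      rw [star_mulVec, ← hc, conjTranspose_conjTranspose]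
    rw [Matrix.smul_mulVec, dotProduct_smul, smul_eq_mul, ← Matrix.mulVec_mulVec,
      Matrix.dotProduct_mulVec, h2]
    congr 1
    push_cast
    simp only [dotProduct]
    refine Finset.sum_congr rfl fun s _ => ?_
    rw [Complex.normSq_eq_conj_mul_self]
    rfl
  rw [h1]
  simp

theorem det_ne (hS : S.Good) (hν : Adm ν) : (S.K ν).det ≠ 0 := by
  intro h0
  obtain ⟨v, hv, hKv⟩ := Matrix.exists_mulVec_eq_zero_iff.mpr h0
  have h1 : (star v ⬝ᵥ (S.K ν *ᵥ v)).im = 0 := by rw [hKv]; simp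
  rw [Sys.K, Matrix.add_mulVec, Matrix.add_mulVec, dotProduct_add, dotProduct_add, Complex.add_im,
    Complex.add_im, im_real_part _ hS.symm, im_diag, im_UU] at h1
  have h2 : ∀ x, (ν x + (S.y x : ℂ) * I).im = (ν x).im + S.y x := by intro x; simp
  simp only [h2, zero_add] at h1
  have h3 : 0 ≤ ∑ s, Complex.normSq (((S.U.map Complex.ofReal)ᵀ *ᵥ v) s) :=
    Finset.sum_nonneg fun s _ => Complex.normSq_nonneg _
  have h4 : ∀ x ∈ Finset.univ, 0 ≤ ((ν x).im + S.y x) * Complex.normSq (v x) := fun x _ =>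
    mul_nonneg (add_nonneg (hν x) (hS.pos x).le) (Complex.normSq_nonneg _)
  have h5 : ∑ x, ((ν x).im + S.y x) * Complex.normSq (v x) = 0 := by
    have := Finset.sum_nonneg h4
    linarith
  rw [Finset.sum_eq_zero_iff_of_nonneg h4] at h5
  apply hv
  ext x
  have h6 := h5 x (Finset.mem_univ x)
  have h7 : 0 < (ν x).im + S.y x := by have := hν x; have := hS.pos x; linarith
  have h8 : Complex.normSq (v x) = 0 := by
    rcases mul_eq_zero.mp h6 with h | h
    · exact absurd h h7.ne'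
    · exact h
  exact Complex.normSq_eq_zero.mp h8

theorem K_symm (hS : S.Good) (ν : X → ℂ) : (S.K ν)ᵀ = S.K ν := by
  rw [Sys.K, transpose_add, transpose_add, diagonal_transpose, transpose_smul, transpose_mul,
    transpose_transpose, ← transpose_map]
  have h := hS.symm
  unfold Matrix.IsSymm at h
  rw [h]

theorem G_symm (hS : S.Good) (ν : X → ℂ) : (S.G ν)ᵀ = S.G ν := by
  rw [Sys.G, Matrix.transpose_nonsing_inv, K_symm hS]

theorem G_comm (hS : S.Good) (ν : X → ℂ) (x z : X) : S.G ν x z = S.G ν z x := by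
  conv_lhs => rw [← G_symm hS ν]
  rfl

theorem G_mul_K (hS : S.Good) (hν : Adm ν) : S.G ν * S.K ν = 1 :=
  Matrix.nonsing_inv_mul _ (isUnit_iff_ne_zero.mpr (det_ne hS hν))

theorem K_mul_G (hS : S.Good) (hν : Adm ν) : S.K ν * S.G ν = 1 :=
  Matrix.mul_nonsing_inv _ (isUnit_iff_ne_zero.mpr (det_ne hS hν))

theorem K_mul_w (hS : S.Good) (hν : Adm ν) : S.K ν * S.w ν = S.U.map Complex.ofReal := by
  rw [Sys.w, ← Matrix.mul_assoc, K_mul_G hS hν, Matrix.one_mul]

theorem eqn (hS : S.Good) (hν : Adm ν) (x : X) (s : ι) :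
    ∑ z, S.K ν x z * S.w ν z s = (S.U x s : ℂ) := by
  have h := congrFun (congrFun (K_mul_w hS hν) x) s
  rwa [Matrix.mul_apply] at h

private theorem K_row (S : Sys X ι) (ν : X → ℂ) (x : X) (f : X → ℂ) :
    ∑ z, S.K ν x z * f z = ∑ z, (S.H x z : ℂ) * f z + (ν x + (S.y x : ℂ) * I) * f x
      + I * ∑ s, (S.U x s : ℂ) * ∑ z, (S.U z s : ℂ) * f z := by
  have h1 : ∀ z, S.K ν x z * f z = (S.H x z : ℂ) * f z
      + diagonal (fun x => ν x + (S.y x : ℂ) * I) x z * f z
      + I * ∑ s, (S.U x s : ℂ) * ((S.U z s : ℂ) * f z) := by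
    intro z
    simp only [Sys.K, Matrix.add_apply, Matrix.map_apply, Matrix.smul_apply, Matrix.mul_apply,
      transpose_apply, smul_eq_mul]
    rw [add_mul, add_mul, mul_assoc I, Finset.sum_mul]
    simp only [mul_assoc]
  simp only [h1, Finset.sum_add_distrib]
  congr 1
  · congr 1
    rw [Finset.sum_eq_single x]
    · rw [diagonal_apply_eq]
    · intro z _ hz
      rw [diagonal_apply_ne _ (Ne.symm hz), zero_mul]
    · intro h; exact absurd (Finset.mem_univ x) h
  · rw [← Finset.mul_sum, Finset.sum_comm]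
    simp only [Finset.mul_sum]

/-- the equation at a site without source -/
theorem eqn' (hS : S.Good) (hν : Adm ν) (x : X) (hU : ∀ s, S.U x s = 0) (s : ι) :
    ∑ z, (S.H x z : ℂ) * S.w ν z s + (ν x + (S.y x : ℂ) * I) * S.w ν x s = 0 := by
  have h := eqn hS hν x s
  rw [K_row S ν x (fun z => S.w ν z s)] at h
  simpa [hU] using h

/-- the equation at a general site, in terms of the scattering matrix:
`1 - i Uᵀ w = (1 + Sm) / 2` -/
theorem eqnS (hS : S.Good) (hν : Adm ν) (x : X) (s : ι) :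
    ∑ z, (S.H x z : ℂ) * S.w ν z s + (ν x + (S.y x : ℂ) * I) * S.w ν x s
      = ∑ s', (S.U x s' : ℂ) * ((1 + S.Sm ν) s' s / 2) := by
  have h := eqn hS hν x s
  rw [K_row S ν x (fun z => S.w ν z s)] at h
  have h2 : ∀ s', (1 + S.Sm ν) s' s / 2 = (1 : Matrix ι ι ℂ) s' s
      - I * ∑ z, (S.U z s' : ℂ) * S.w ν z s := by
    intro s'
    simp only [Sys.Sm, Matrix.add_apply, Matrix.sub_apply, Matrix.smul_apply, Matrix.mul_apply,
      transpose_apply, Matrix.map_apply, smul_eq_mul]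
    ring
  simp only [h2, mul_sub, Finset.sum_sub_distrib]
  have h3 : ∑ s', (S.U x s' : ℂ) * (1 : Matrix ι ι ℂ) s' s = (S.U x s : ℂ) := by
    rw [Finset.sum_eq_single s]
    · simp
    · intro s' _ hs'; rw [Matrix.one_apply_ne hs', mul_zero]
    · intro h; exact absurd (Finset.mem_univ s) h
  rw [h3, ← h]
  have h4 : ∑ s', (S.U x s' : ℂ) * (I * ∑ z, (S.U z s' : ℂ) * S.w ν z s)
      = I * ∑ s', (S.U x s' : ℂ) * ∑ z, (S.U z s' : ℂ) * S.w ν z s := by
    rw [Finset.mul_sum]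
    refine Finset.sum_congr rfl fun s' _ => by ring
  rw [h4]
  ring

theorem Sm_symm (hS : S.Good) (ν : X → ℂ) : (S.Sm ν)ᵀ = S.Sm ν := by
  rw [Sys.Sm, transpose_sub, transpose_one, transpose_smul, transpose_mul, transpose_transpose,
    Sys.w, transpose_mul, G_symm hS, Matrix.mul_assoc]

/-- `w x s` as a source expansion -/
theorem w_eq (hS : S.Good) (ν : X → ℂ) (x : X) (s : ι) :
    S.w ν x s = ∑ z, S.G ν x z * (S.U z s : ℂ) := by
  rw [Sys.w, Matrix.mul_apply]
  rfl

theorem norm_wv_sq (S : Sys X ι) (ν : X → ℂ) (x : X) :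
    ‖S.wv ν x‖ ^ 2 = ∑ s, ‖S.w ν x s‖ ^ 2 := by
  rw [EuclideanSpace.norm_sq_eq]
  rfl

theorem norm_Sv_sq (S : Sys X ι) (ν : X → ℂ) :
    ‖S.Sv ν‖ ^ 2 = ∑ s, ∑ s', ‖S.Sm ν s s'‖ ^ 2 := by
  rw [EuclideanSpace.norm_sq_eq, Fintype.sum_prod_type]
  rfl

end Sys

end Pool.Agent.Lib.MP_562b47_mp.Str
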