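import Pool.Agent.Lib.MP_562b47_mp.Str.Dfm

/-!
Module STR-AnaInt (MP_562b47_mp, strips).  Analytic families and their integrals.

`Fam`: a family `f V z`, jointly continuous for `0 ≤ Im z`, differentiable in `z` for `0 < Im z`,
bounded by `Kb`, and whose values at real `z = t` are `g (shf V t)`.
PROOF of `ana_int`: `Φ z = ∫ V, ⟪f V I, f V z⟫ ∂μ` (Mathlib's inner product is conjugate linear in the
FIRST variable, so `Φ` is holomorphic in `z`).  Continuity on the closed half plane:
`continuousOn_of_dominated` with the constant bound `Kb²` (probability measure).  Differentiability at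
`z0`, `0 < Im z0`: `hasDerivAt_integral_of_dominated_loc_of_deriv_le` on the ball of radius
`Im z0 / 2`; there the derivative is bounded by `Kb * Kb / (Im z0 / 4)` by Cauchy's estimate
(`Complex.norm_deriv_le_of_forall_mem_sphere_norm_le`), the measurability of
`V ↦ deriv (fun z => ⟪f V I, f V z⟫) z0` : it is the limit of difference quotients
(`measurable_of_tendsto_metrizable`/`aestronglyMeasurable_of_tendsto_ae`) or use the Mathlib lemma
`hasDerivAt_integral_of_dominated_loc_of_lip` with the Lipschitz bound, which needs the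
measurability of the derivative only a.e. as well.
-/

open MeasureTheory Matrix Complex

namespace Pool.Agent.Lib.MP_562b47_mp.Str

variable {X : Type*} [Fintype X] [DecidableEq X]

/-- bounded analytic families with shifted real values -/
structure Fam {E : Type*} [NormedAddCommGroup E] [InnerProductSpace ℂ E] (B : Set X) (c b Kb : ℝ)
    (f : (X → ℝ) → ℂ → E) (g : (X → ℝ) → E) : Prop where
  cont : ContinuousOn (fun p : (X → ℝ) × ℂ => f p.1 p.2) {p | 0 ≤ p.2.im}
  contg : Continuous g
  diff : ∀ V (z : ℂ), 0 < z.im → DifferentiableAt ℂ (f V) z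
  bdd : ∀ V (z : ℂ), 0 ≤ z.im → ‖f V z‖ ≤ Kb
  real : ∀ V (t : ℝ), f V (t : ℂ) = g (shf B c b V t)

theorem Fam.continuous_at {E : Type*} [NormedAddCommGroup E] [InnerProductSpace ℂ E] {B : Set X}
    {c b Kb : ℝ} {f : (X → ℝ) → ℂ → E} {g : (X → ℝ) → E} (h : Fam B c b Kb f g) {z : ℂ}
    (hz : 0 ≤ z.im) : Continuous fun V => f V z :=
  h.cont.comp_continuous (f := fun V : X → ℝ => ((V, z) : (X → ℝ) × ℂ)) (by fun_prop)
    (fun _ => hz)

theorem Fam.g_le {E : Type*} [NormedAddCommGroup E] [InnerProductSpace ℂ E] {B : Set X}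
    {c b Kb : ℝ} {f : (X → ℝ) → ℂ → E} {g : (X → ℝ) → E} (h : Fam B c b Kb f g) (V : X → ℝ) :
    ‖g V‖ ≤ Kb := by
  -- `f V 0 = g (shf V 0) = g V`
  have h1 : shf B c b V 0 = V := by
    funext x
    unfold shf
    split_ifs <;> simp
  have h2 := h.real V 0
  rw [h1] at h2
  rw [← h2]
  exact h.bdd V _ (by simp)

private theorem anaint_inner_le {E : Type*} [NormedAddCommGroup E] [InnerProductSpace ℂ E]
    {B : Set X} {c b Kb : ℝ} {f : (X → ℝ) → ℂ → E} {g : (X → ℝ) → E} (h : Fam B c b Kb f g)
    (V : X → ℝ) {z : ℂ} (hz : 0 ≤ z.im) : ‖inner ℂ (f V I) (f V z)‖ ≤ Kb * Kb := by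
  have hI : (0 : ℝ) ≤ (I : ℂ).im := by simp
  have h0 : 0 ≤ Kb := (norm_nonneg _).trans (h.bdd V I hI)
  exact (norm_inner_le_norm _ _).trans
    (mul_le_mul (h.bdd V I hI) (h.bdd V z hz) (norm_nonneg _) h0)

private theorem anaint_diff {E : Type*} [NormedAddCommGroup E] [InnerProductSpace ℂ E]
    {B : Set X} {c b Kb : ℝ} {f : (X → ℝ) → ℂ → E} {g : (X → ℝ) → E} (h : Fam B c b Kb f g)
    (V : X → ℝ) {z : ℂ} (hz : 0 < z.im) :
    DifferentiableAt ℂ (fun z : ℂ => inner ℂ (f V I) (f V z)) z := by
  have h1 : (fun z : ℂ => inner ℂ (f V I) (f V z))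
      = fun z : ℂ => (innerSL ℂ (f V I)) (f V z) := by
    funext w
    rw [innerSL_apply_apply]
  rw [h1]
  exact (innerSL ℂ (f V I)).differentiableAt.comp z (h.diff V z hz)

private theorem anaint_cont {E : Type*} [NormedAddCommGroup E] [InnerProductSpace ℂ E]
    {B : Set X} {c b Kb : ℝ} {f : (X → ℝ) → ℂ → E} {g : (X → ℝ) → E} (h : Fam B c b Kb f g)
    {z : ℂ} (hz : 0 ≤ z.im) : Continuous fun V => (inner ℂ (f V I) (f V z) : ℂ) :=
  (h.continuous_at (z := I) (by simp)).inner (h.continuous_at hz)

/-- the scalar function of the three lines argument (without the Gaussian factor) -/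
theorem ana_int {E : Type*} [NormedAddCommGroup E] [InnerProductSpace ℂ E] [FiniteDimensional ℂ E]
    {B : Set X} {c b Kb : ℝ} (hc : 0 < c) {f : (X → ℝ) → ℂ → E} {g : (X → ℝ) → E}
    (h : Fam B c b Kb f g) :
    ContinuousOn (fun z : ℂ => ∫ V, inner ℂ (f V I) (f V z) ∂(PX X c)) {z | 0 ≤ z.im} ∧
    (∀ z : ℂ, 0 < z.im →
      DifferentiableAt ℂ (fun z : ℂ => ∫ V, inner ℂ (f V I) (f V z) ∂(PX X c)) z) ∧
    (∀ z : ℂ, 0 ≤ z.im → ‖∫ V, inner ℂ (f V I) (f V z) ∂(PX X c)‖
      ≤ √(∫ V, ‖f V I‖ ^ 2 ∂(PX X c)) * √(∫ V, ‖f V z‖ ^ 2 ∂(PX X c))) := by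
  have : IsProbabilityMeasure (PX X c) := isProb_PX hc
  have hI : (0 : ℝ) ≤ (I : ℂ).im := by simp
  refine ⟨?_, ?_, ?_⟩
  · refine continuousOn_of_dominated (bound := fun _ => Kb * Kb) ?_ ?_ (integrable_const _) ?_
    · intro z hz
      exact (anaint_cont h hz).aestronglyMeasurable
    · intro z hz
      exact Filter.Eventually.of_forall fun V => anaint_inner_le h V hz
    · refine Filter.Eventually.of_forall fun V => ?_
      have h1 : ContinuousOn (fun z : ℂ => f V z) {z : ℂ | 0 ≤ z.im} :=
        h.cont.comp (f := fun z : ℂ => ((V, z) : (X → ℝ) × ℂ)) (by fun_prop) (fun z hz => hz)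
      exact continuousOn_const.inner h1
  · intro z0 hz0
    have hR : 0 < z0.im / 4 := by positivity
    have hball : ∀ z ∈ Metric.ball z0 (z0.im / 2), z0.im / 2 < z.im := by
      intro z hz
      have h1 : |z.im - z0.im| ≤ ‖z - z0‖ := by
        have := Complex.abs_im_le_norm (z - z0)
        rwa [Complex.sub_im] at this
      have h2 : ‖z - z0‖ < z0.im / 2 := by
        rw [← dist_eq_norm]
        exact hz
      have h3 := abs_le.mp (h1.trans h2.le)
      have h4 := (abs_lt.mp (lt_of_le_of_lt h1 h2)).1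
      linarith
    have hcs : ∀ z ∈ Metric.ball z0 (z0.im / 2), ∀ w ∈ Metric.closedBall z (z0.im / 4),
        0 < w.im := by
      intro z hz w hw
      have h1 : |w.im - z.im| ≤ ‖w - z‖ := by
        have := Complex.abs_im_le_norm (w - z)
        rwa [Complex.sub_im] at this
      have h2 : ‖w - z‖ ≤ z0.im / 4 := by
        rw [← dist_eq_norm]
        exact hw
      have h3 := (abs_le.mp (h1.trans h2)).1
      have h4 := hball z hz
      linarith
    have key := hasDerivAt_integral_of_dominated_loc_of_deriv_le (𝕜 := ℂ) (μ := PX X c)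
      (F := fun (z : ℂ) (V : X → ℝ) => (inner ℂ (f V I) (f V z) : ℂ)) (x₀ := z0)
      (s := Metric.ball z0 (z0.im / 2)) (bound := fun _ => Kb * Kb / (z0.im / 4))
      (F' := fun (z : ℂ) (V : X → ℝ) => deriv (fun z : ℂ => (inner ℂ (f V I) (f V z) : ℂ)) z)
      (Metric.ball_mem_nhds _ (by positivity)) ?_ ?_ ?_ ?_ (integrable_const _) ?_
    · exact key.2.differentiableAt
    · filter_upwards [Metric.ball_mem_nhds z0 (show 0 < z0.im / 2 by positivity)] with z hz
      have := hball z hz
      exact (anaint_cont h (by linarith)).aestronglyMeasurable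
    · refine Integrable.mono' (integrable_const (Kb * Kb)) (anaint_cont h hz0.le).aestronglyMeasurable
        (Filter.Eventually.of_forall fun V => anaint_inner_le h V hz0.le)
    · -- measurability of the derivative
      have hlim : ∀ V : X → ℝ, Filter.Tendsto
          (fun n : ℕ => ((n : ℂ) + 1) * ((inner ℂ (f V I) (f V (z0 + ((n : ℂ) + 1)⁻¹)) : ℂ)
            - inner ℂ (f V I) (f V z0))) Filter.atTop
          (nhds (deriv (fun z : ℂ => (inner ℂ (f V I) (f V z) : ℂ)) z0)) := by
        intro V
        have h1 := (anaint_diff h V hz0).hasDerivAt.tendsto_slope_zero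
        have h2 : Filter.Tendsto (fun n : ℕ => ((n : ℂ) + 1)⁻¹) Filter.atTop
            (nhdsWithin (0 : ℂ) {0}ᶜ) := by
          refine tendsto_nhdsWithin_iff.mpr ⟨?_, ?_⟩
          · have h3 : Filter.Tendsto (fun n : ℕ => (((1 : ℝ) / ((n : ℝ) + 1) : ℝ) : ℂ))
                Filter.atTop (nhds ((0 : ℝ) : ℂ)) :=
              (Complex.continuous_ofReal.tendsto 0).comp tendsto_one_div_add_atTop_nhds_zero_nat
            simpa using h3
          · refine Filter.Eventually.of_forall fun n => ?_
            have h4 : ((n : ℂ) + 1) ≠ 0 := Nat.cast_add_one_ne_zero n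
            exact inv_ne_zero h4
        have h3 := h1.comp h2
        refine h3.congr fun n => ?_
        simp only [Function.comp_apply, smul_eq_mul, inv_inv]
      refine aestronglyMeasurable_of_tendsto_ae (u := Filter.atTop)
        (f := fun (n : ℕ) (V : X → ℝ) => ((n : ℂ) + 1) *
          ((inner ℂ (f V I) (f V (z0 + ((n : ℂ) + 1)⁻¹)) : ℂ) - inner ℂ (f V I) (f V z0)))
        ?_ (Filter.Eventually.of_forall hlim)
      intro n
      have h5 : 0 ≤ (z0 + ((n : ℂ) + 1)⁻¹).im := by
        have h6 : (((n : ℂ) + 1)⁻¹).im = 0 := by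
          have h7 : ((n : ℂ) + 1)⁻¹ = ((((n : ℝ) + 1)⁻¹ : ℝ) : ℂ) := by push_cast; rfl
          rw [h7, Complex.ofReal_im]
        rw [Complex.add_im, h6]
        linarith
      exact (continuous_const.mul ((anaint_cont h h5).sub
        (anaint_cont h hz0.le))).aestronglyMeasurable
    · refine Filter.Eventually.of_forall fun V z hz => ?_
      have hcb := hcs z hz
      refine norm_deriv_le_of_forall_mem_sphere_norm_le hR ?_ ?_
      · refine DifferentiableOn.diffContOnCl fun w hw => ?_
        rw [closure_ball _ hR.ne'] at hw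
        exact (anaint_diff h V (hcb w hw)).differentiableWithinAt
      · intro w hw
        exact anaint_inner_le h V (hcb w (Metric.sphere_subset_closedBall hw)).le
    · refine Filter.Eventually.of_forall fun V z hz => ?_
      have := hball z hz
      exact (anaint_diff h V (by linarith)).hasDerivAt
  · intro z hz
    have hm : ∀ w : ℂ, 0 ≤ w.im → MemLp (fun V => ‖f V w‖) (ENNReal.ofReal 2) (PX X c) := by
      intro w hw
      refine MemLp.of_bound (h.continuous_at hw).norm.aestronglyMeasurable Kb ?_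
      refine Filter.Eventually.of_forall fun V => ?_
      rw [norm_norm]
      exact h.bdd V w hw
    have h2 : (2 : ℝ).HolderConjugate 2 := Real.HolderConjugate.two_two
    have key := integral_mul_le_Lp_mul_Lq_of_nonneg h2 (μ := PX X c)
      (f := fun V => ‖f V I‖) (g := fun V => ‖f V z‖)
      (Filter.Eventually.of_forall fun V => norm_nonneg _)
      (Filter.Eventually.of_forall fun V => norm_nonneg _) (hm I hI) (hm z hz)
    have e1 : ∀ w : ℂ, (∫ V, ‖f V w‖ ^ (2 : ℝ) ∂(PX X c)) ^ (1 / (2 : ℝ))
        = √(∫ V, ‖f V w‖ ^ 2 ∂(PX X c)) := by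
      intro w
      rw [Real.sqrt_eq_rpow]
      congr 1
      refine integral_congr_ae (Filter.Eventually.of_forall fun V => ?_)
      simp only
      rw [Real.rpow_two]
    rw [e1, e1] at key
    refine le_trans ?_ key
    refine (norm_integral_le_integral_norm _).trans ?_
    refine integral_mono_of_nonneg (Filter.Eventually.of_forall fun V => norm_nonneg _) ?_
      (Filter.Eventually.of_forall fun V => norm_inner_le_norm _ _)
    refine Integrable.mono' (integrable_const (Kb * Kb))
      ((h.continuous_at hI).norm.mul (h.continuous_at hz).norm).aestronglyMeasurable ?_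
    refine Filter.Eventually.of_forall fun V => ?_
    have h0 : 0 ≤ Kb := (norm_nonneg _).trans (h.bdd V I hI)
    rw [Real.norm_of_nonneg (mul_nonneg (norm_nonneg _) (norm_nonneg _))]
    exact mul_le_mul (h.bdd V I hI) (h.bdd V z hz) (norm_nonneg _) h0

end Pool.Agent.Lib.MP_562b47_mp.Str
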