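import Pool.Agent.Lib.MP_562b47_mp.Str.Gph

/-!
Module STR-Approx (MP_562b47_mp, strips).  The scattering amplitude of the infinite system is the limit
of the ones of the truncations, for a nonreal energy.

PROOF of `approx`.  `D = ⟨T, hT, hr, W, 1, _, x0⟩`, `z = E + i y`, `u = RC T (D.cfgI X) z (eb x0)` solves
`T u + cfgI u - z u = e_{x0}` (`RC_solves`), `cfgI = W + X - i 1_{x0}`; `fI = 1 + 2 i u_{x0}`.  Put
`v = star u`: `T v + (W + X + i 1_{x0}) v - conj z v = e_{x0}`, i.e. with `-conj z = -E + i y`,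
`(t + W - E + X + i y + i 1_{x0}) v = e_{x0}`.  Let `v_n` be the restriction of `v` to the layers `≤ n`
(`n ≥ ℓ x0`).  With `K_n = (finS ..).K X` (`i U Uᵀ = i 1_{x0}`):
  `K_n v_n = e_{x0} - r_n`, `r_n x = (T (v 1_{ℓ > n})) x`, `‖r_n‖ ≤ ‖T‖ ‖v 1_{ℓ > n}‖ → 0`
(the tail of a summable series over the finite sets `{ℓ ≤ n}` which exhaust `Λ`).  Here
`(T u) x = ∑' y, t x y u y` (`mat`, continuity), or better: `T (v 1_{ℓ ≤ n})` is a finite combination of
the `T (eb y)`, whose `x` coordinate is `∑ t x y v y`.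
`G_n K_n = 1`: `v_n x0 = (G_n)_{x0 x0} - (G_n r_n) x0` and `‖G_n r‖ ≤ ‖r‖ / y` (if `g = G_n r`,
`Im ⟨g, K g⟩ ≥ y ‖g‖²` and `|⟨g, K g⟩| ≤ ‖g‖ ‖r‖`).  So `(G_n)_{x0 x0} → v x0 = conj (u x0)` and
`Sm_n = 1 - 2 i (G_n)_{x0 x0} → 1 - 2 i conj (u x0) = conj (1 + 2 i u x0) = conj (fI)`.
-/

open MeasureTheory Matrix Complex Filter Topology

namespace Pool.Agent.Lib.MP_562b47_mp.Str

open Pool.Agent.Lib.MP_562b47_mp Pool.Agent.Lib.MP_562b47_mp.CN

variable {Λ : Type} [DecidableEq Λ] {T : L2 Λ →L[ℂ] L2 Λ} {t : Λ → Λ → ℝ} {ℓ : Λ → ℕ}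
  {up : Λ → Λ} {R : ℝ} {Δ : ℕ}

/-- the data of the model with noise amplitude `1` -/
noncomputable def Gph.D (h : Gph T t ℓ up R Δ) (W : Λ → ℝ) (x0 : Λ) : Data Λ :=
  ⟨T, h.hT, h.hr, W, fun _ => 1, fun _ => zero_le_one, x0⟩

omit [DecidableEq Λ] in
private theorem approx_tail (ℓ : Λ → ℕ) (u : L2 Λ) :
    Tendsto (fun n => ‖restr (fun x => n < ℓ x) u‖) atTop (𝓝 0) := by
  have h1 : Tendsto (fun n => ‖restr (fun x => n < ℓ x) u‖ ^ 2) atTop
      (𝓝 (∑' _ : Λ, (0:ℝ))) := by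
    simp only [L2_norm_sq]
    refine tendsto_tsum_of_dominated_convergence (bound := fun j => ‖u j‖ ^ 2)
      (L2_summable u) (fun j => ?_) (Eventually.of_forall fun n j => ?_)
    · refine tendsto_const_nhds.congr' ?_
      filter_upwards [eventually_ge_atTop (ℓ j)] with n hn
      rw [restr_apply, if_neg (not_lt.mpr hn)]
      simp
    · rw [restr_apply, Real.norm_of_nonneg (by positivity)]
      split_ifs
      · exact le_rfl
      · simp
  rw [tsum_zero] at h1
  have h2 := (Real.continuous_sqrt.tendsto _).comp h1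
  rw [Real.sqrt_zero] at h2
  refine h2.congr fun n => ?_
  simp only [Function.comp]
  rw [Real.sqrt_sq (norm_nonneg _)]

omit [DecidableEq Λ] in
private theorem approx_restr_le (p : Λ → Prop) [DecidablePred p] (w : L2 Λ) :
    ‖restr p w‖ ≤ ‖w‖ := norm_mulL_apply_le _ _

private theorem approx_step (h : Gph T t ℓ up R Δ) (W : Λ → ℝ) (x0 : Λ) (X : Λ → ℝ) {z : ℂ}
    (hz : 0 < z.im) {n : ℕ} (hn : ℓ x0 ≤ n) :
    letI := h.fintype n
    |‖(finS t ℓ W z.re z.im x0 n).Sv fun x => ((X x.1 : ℝ) : ℂ)‖ - ‖(h.D W x0).fI X z‖| ≤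
      2 * (‖T‖ * ‖restr (fun x => n < ℓ x) (RC T ((h.D W x0).cfgI X) z (eb x0))‖ / z.im) := by
  let _ := h.fintype n
  set V := (h.D W x0).cfgI X with hVdef
  have hV : CN.Adm V := (h.D W x0).adm_cfgI X
  have hVx : ∀ x, V x = (W x : ℂ) + (X x : ℂ) - (if x = x0 then I else 0) := by
    intro x
    rw [hVdef, CN.Data.cfgI_apply]
    have h1 : (((h.D W x0).pot X x : ℝ) : ℂ) = (W x : ℂ) + (X x : ℂ) := by
      change ((W x + 1 * X x : ℝ) : ℂ) = _
      push_cast
      ring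
    rw [h1]
    rfl
  set u := RC T V z (eb x0) with hu
  have hus : Solves T V z u (eb x0) := RC_solves h.hT hV hz (eb x0)
  set S := finS t ℓ W z.re z.im x0 n with hSdef
  set ν : Lay ℓ n → ℂ := fun x => ((X x.1 : ℝ) : ℂ) with hνdef
  have hS : S.Good := finS_good h W z.re hz x0 n
  have hν : Str.Adm ν := fun x => by simp [ν]
  set f : Lay ℓ n → ℂ := fun x => S.w ν x 0 with hf
  set p0 : Lay ℓ n := ⟨x0, hn⟩ with hp0
  -- the scattering matrix
  have hSm : S.Sm ν 0 0 = 1 - 2 * I * f p0 := by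
    have e0 : ∑ x : Lay ℓ n, ((S.U x 0 : ℝ) : ℂ) * S.w ν x 0 = f p0 := by
      rw [Finset.sum_eq_single p0]
      · simp [S, finS, p0, f]
      · intro x _ hx
        have : x.1 ≠ x0 := fun h1 => hx (Subtype.ext h1)
        simp [S, finS, this]
      · intro h1
        exact absurd (Finset.mem_univ _) h1
    simp only [Sys.Sm, Matrix.sub_apply, Matrix.smul_apply, Matrix.mul_apply, transpose_apply,
      Matrix.map_apply, smul_eq_mul, Matrix.one_apply_eq]
    rw [e0]
  -- the finite equation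
  have heq : ∀ x : Lay ℓ n, ∑ y : Lay ℓ n, ((t x.1 y.1 : ℝ) : ℂ) * f y +
      ((W x.1 : ℂ) + (X x.1 : ℂ) - z.re + z.im * I + if x.1 = x0 then I else 0) * f x =
      if x.1 = x0 then 1 else 0 := by
    intro x
    have h1 := Sys.eqnS hS hν x 0
    have h2 : ∑ y : Lay ℓ n, ((S.H x y : ℝ) : ℂ) * S.w ν y 0 =
        ∑ y : Lay ℓ n, ((t x.1 y.1 : ℝ) : ℂ) * f y + ((W x.1 : ℂ) - z.re) * f x := by
      have h3 : ∀ y : Lay ℓ n, ((S.H x y : ℝ) : ℂ) * S.w ν y 0 =
          ((t x.1 y.1 : ℝ) : ℂ) * f y + if x = y then ((W x.1 : ℂ) - z.re) * f y else 0 := by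
        intro y
        simp only [S, finS, f]
        split_ifs
        · push_cast
          ring
        · push_cast
          ring
      rw [Finset.sum_congr rfl fun y _ => h3 y, Finset.sum_add_distrib,
        Finset.sum_ite_eq Finset.univ x, if_pos (Finset.mem_univ x)]
    rw [h2, Fin.sum_univ_one] at h1
    simp only [Matrix.add_apply, Matrix.one_apply_eq] at h1
    rw [hSm] at h1
    by_cases hx : x.1 = x0
    · have hx' : x = p0 := Subtype.ext hx
      have hU : ((S.U x 0 : ℝ) : ℂ) = 1 := by simp [S, finS, hx]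
      have hy : ((S.y x : ℝ) : ℂ) = z.im := rfl
      rw [hU, hy] at h1
      rw [if_pos hx, if_pos hx]
      subst hx'
      change _ + (((X x0 : ℝ) : ℂ) + z.im * I) * f p0 = _ at h1
      change ∑ y : Lay ℓ n, ((t x0 y.1 : ℝ) : ℂ) * f y +
        ((W x0 : ℂ) + (X x0 : ℂ) - z.re + z.im * I + I) * f p0 = 1
      change ∑ y : Lay ℓ n, ((t x0 y.1 : ℝ) : ℂ) * f y + ((W x0 : ℂ) - z.re) * f p0 +
        (((X x0 : ℝ) : ℂ) + z.im * I) * f p0 = _ at h1
      linear_combination h1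
    · have hU : ((S.U x 0 : ℝ) : ℂ) = 0 := by simp [S, finS, hx]
      have hy : ((S.y x : ℝ) : ℂ) = z.im := rfl
      rw [hU, hy] at h1
      rw [if_neg hx, if_neg hx]
      change ∑ y : Lay ℓ n, ((t x.1 y.1 : ℝ) : ℂ) * f y + ((W x.1 : ℂ) - z.re) * f x +
        (((X x.1 : ℝ) : ℂ) + z.im * I) * f x = _ at h1
      linear_combination h1
  -- the extension by zero
  set g : L2 Λ := ∑ y : Lay ℓ n, (starRingEnd ℂ) (f y) • eb y.1 with hg
  have hgx : ∀ x, g x = if hx : ℓ x ≤ n then (starRingEnd ℂ) (f ⟨x, hx⟩) else 0 := by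
    intro x
    rw [hg, lp.coeFn_sum, Finset.sum_apply]
    simp only [lp.coeFn_smul, Pi.smul_apply, smul_eq_mul, eb_apply]
    split_ifs with hx
    · rw [Finset.sum_eq_single (⟨x, hx⟩ : Lay ℓ n)]
      · simp
      · intro y _ hy
        rw [if_neg fun h1 => hy (Subtype.ext h1.symm), mul_zero]
      · intro h1
        exact absurd (Finset.mem_univ _) h1
    · refine Finset.sum_eq_zero fun y _ => ?_
      rw [if_neg, mul_zero]
      intro h1
      exact hx (h1 ▸ y.2)
  have hTg : ∀ x, T g x = ∑ y : Lay ℓ n, (starRingEnd ℂ) (f y) * ((t x y.1 : ℝ) : ℂ) := by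
    intro x
    rw [hg, map_sum, lp.coeFn_sum, Finset.sum_apply]
    refine Finset.sum_congr rfl fun y _ => ?_
    rw [map_smul, lp.coeFn_smul, Pi.smul_apply, smul_eq_mul, h.mat]
  have hgs : ∀ x, ℓ x ≤ n → T g x + V x * g x - z * g x = eb x0 x := by
    intro x hx
    have h1 := congrArg (starRingEnd ℂ) (heq ⟨x, hx⟩)
    rw [hTg, hgx, dif_pos hx, hVx, eb_apply]
    simp only [map_add, map_sum, map_mul, map_sub, Complex.conj_ofReal, Complex.conj_I,
      apply_ite (starRingEnd ℂ), map_zero, map_one] at h1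
    have h2 : ∑ y : Lay ℓ n, (starRingEnd ℂ) (f y) * ((t x y.1 : ℝ) : ℂ) =
        ∑ y : Lay ℓ n, ((t x y.1 : ℝ) : ℂ) * (starRingEnd ℂ) (f y) :=
      Finset.sum_congr rfl fun y _ => mul_comm _ _
    have h3 : z = (z.re : ℂ) + z.im * I := (Complex.re_add_im z).symm
    rw [h2]
    by_cases hx0 : x = x0
    · simp only [hx0, if_true] at h1 ⊢
      linear_combination h1 - (starRingEnd ℂ) (f ⟨x0, hn⟩) * h3
    · simp only [hx0, if_false] at h1 ⊢
      linear_combination h1 - (starRingEnd ℂ) (f ⟨x, hx⟩) * h3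
  set e : L2 Λ := restr (fun x => ℓ x ≤ n) u - g with he
  have hez : ∀ x, n < ℓ x → e x = 0 := by
    intro x hx
    rw [he, lp.coeFn_sub, Pi.sub_apply, restr_apply, if_neg (by omega), hgx,
      dif_neg (by omega), sub_zero]
  set r := T (restr (fun x => n < ℓ x) u) with hr
  have hsplit : u = restr (fun x => ℓ x ≤ n) u + restr (fun x => n < ℓ x) u := by
    ext x
    rw [lp.coeFn_add, Pi.add_apply, restr_apply, restr_apply]
    by_cases hx : ℓ x ≤ n
    · rw [if_pos hx, if_neg (by omega), add_zero]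
    · rw [if_neg hx, if_pos (by omega), zero_add]
  have hes : Solves T V z e (restr (fun x => n < ℓ x) (T e) - restr (fun x => ℓ x ≤ n) r) := by
    intro x
    have hψ : (restr (fun x => n < ℓ x) (T e) - restr (fun x => ℓ x ≤ n) r) x =
        (if n < ℓ x then T e x else 0) - (if ℓ x ≤ n then r x else 0) := by
      rw [lp.coeFn_sub, Pi.sub_apply, restr_apply, restr_apply]
    rw [hψ]
    by_cases hx : ℓ x ≤ n
    · rw [if_pos hx, if_neg (by omega)]
      have h1 := hus x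
      have h2 := hgs x hx
      have h3 : T u x = T (restr (fun x => ℓ x ≤ n) u) x + r x := by
        conv_lhs => rw [hsplit]
        rw [map_add, lp.coeFn_add, Pi.add_apply]
      have h4 : T e x = T (restr (fun x => ℓ x ≤ n) u) x - T g x := by
        rw [he, map_sub, lp.coeFn_sub, Pi.sub_apply]
      have h5 : e x = u x - g x := by
        rw [he, lp.coeFn_sub, Pi.sub_apply, restr_apply, if_pos hx]
      rw [h4, h5]
      rw [h3] at h1
      linear_combination h1 - h2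
    · rw [if_neg hx, if_pos (by omega), hez x (by omega)]
      ring
  have hen := energy_le h.hT hV hes
  have hin : (inner ℂ (restr (fun x => n < ℓ x) (T e) - restr (fun x => ℓ x ≤ n) r) e).im ≤
      ‖T‖ * ‖restr (fun x => n < ℓ x) u‖ * ‖e‖ := by
    have h1 : inner ℂ (restr (fun x => n < ℓ x) (T e)) e = 0 := by
      apply inner_eq_zero_of_disjoint
      intro x
      by_cases hx : n < ℓ x
      · right
        exact hez x hx
      · left
        rw [restr_apply, if_neg hx]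
    rw [inner_sub_left, h1, zero_sub]
    have h2 : ‖inner ℂ (restr (fun x => ℓ x ≤ n) r) e‖ ≤
        ‖T‖ * ‖restr (fun x => n < ℓ x) u‖ * ‖e‖ := by
      refine (norm_inner_le_norm _ _).trans ?_
      gcongr
      exact (approx_restr_le _ _).trans (T.le_opNorm _)
    refine le_trans (le_abs_self _) (le_trans (Complex.abs_im_le_norm _) ?_)
    rw [norm_neg]
    exact h2
  have hne : ‖e‖ ≤ ‖T‖ * ‖restr (fun x => n < ℓ x) u‖ / z.im := by
    rw [le_div_iff₀ hz]
    have h1 := hen.trans hin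
    by_cases h0 : ‖e‖ = 0
    · rw [h0, zero_mul]
      positivity
    · have hpos : 0 < ‖e‖ := lt_of_le_of_ne (norm_nonneg _) (Ne.symm h0)
      have h3 : (‖e‖ * z.im) * ‖e‖ ≤ (‖T‖ * ‖restr (fun x => n < ℓ x) u‖) * ‖e‖ := by
        nlinarith
      exact le_of_mul_le_mul_right h3 hpos
  have hex : ‖e x0‖ ≤ ‖e‖ := lp.norm_apply_le_norm two_ne_zero e x0
  have hSv : ‖S.Sv ν‖ = ‖1 + 2 * I * g x0‖ := by
    have h1 : ‖S.Sv ν‖ ^ 2 = ‖S.Sm ν 0 0‖ ^ 2 := by
      rw [Sys.norm_Sv_sq, Fin.sum_univ_one, Fin.sum_univ_one]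
    have h2 : ‖S.Sv ν‖ = ‖S.Sm ν 0 0‖ := by
      have := congrArg Real.sqrt h1
      rwa [Real.sqrt_sq (norm_nonneg _), Real.sqrt_sq (norm_nonneg _)] at this
    rw [h2, hSm, ← Complex.norm_conj, hgx, dif_pos hn]
    congr 1
    simp only [map_sub, map_mul, map_one, Complex.conj_I, map_ofNat]
    ring
  have hfI : (h.D W x0).fI X z = 1 + 2 * I * u x0 := rfl
  rw [hSv, hfI]
  calc |‖1 + 2 * I * g x0‖ - ‖1 + 2 * I * u x0‖| ≤ ‖(1 + 2 * I * g x0) - (1 + 2 * I * u x0)‖ :=
        abs_norm_sub_norm_le _ _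
    _ = 2 * ‖e x0‖ := by
        have h1 : (1 + 2 * I * g x0) - (1 + 2 * I * u x0) = -(2 * I) * e x0 := by
          rw [he, lp.coeFn_sub, Pi.sub_apply, restr_apply, if_pos hn]
          ring
        rw [h1, norm_mul, norm_neg, norm_mul, Complex.norm_I]
        simp
    _ ≤ _ := by
        have := hex.trans hne
        linarith

theorem approx (h : Gph T t ℓ up R Δ) (W : Λ → ℝ) (x0 : Λ) (X : Λ → ℝ) {z : ℂ} (hz : 0 < z.im) :
    Tendsto (fun n => letI := h.fintype n
      ‖(finS t ℓ W z.re z.im x0 n).Sv fun x => ((X x.1 : ℝ) : ℂ)‖) atTop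
      (𝓝 ‖(h.D W x0).fI X z‖) := by
  rw [tendsto_iff_norm_sub_tendsto_zero]
  have h1 : Tendsto (fun n => 2 * (‖T‖ *
      ‖restr (fun x => n < ℓ x) (RC T ((h.D W x0).cfgI X) z (eb x0))‖ / z.im)) atTop (𝓝 0) := by
    have h2 := (((approx_tail ℓ (RC T ((h.D W x0).cfgI X) z (eb x0))).const_mul ‖T‖).div_const
      z.im).const_mul 2
    simpa using h2
  refine tendsto_of_tendsto_of_tendsto_of_le_of_le' tendsto_const_nhds h1
    (Eventually.of_forall fun _ => norm_nonneg _) ?_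
  filter_upwards [eventually_ge_atTop (ℓ x0)] with n hn
  rw [Real.norm_eq_abs]
  exact approx_step h W x0 X hz hn

end Pool.Agent.Lib.MP_562b47_mp.Str
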