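import Pool.Agent.Lib.MP_562b47_mp.Str.Cells

/-!
Module STR-AvOp (MP_562b47_mp, strips).  The conditional expectation `AX x` (resampling of `V x` in its
cell) and `DX x = 1 - AX x` on bounded measurable functions of the potential; the Efron type inequality.

PROOFS.
* `BMeas.AX`: `AX x F V = ∑_j 1[V x ∈ cel j] (2c/tt) • ∫_v 1_{cel j}(v) F (update V x v) + 1[V x ∉ core'] F V`
  (as `update V x (V x) = V`): measurable by `BMeas.integral`.
* `AX_AX`: `av1_av1` for `v ↦ F (update V x v)` (`update (update V x u) x v = update V x v`).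
* `AX_comm` (`x ≠ y`): Fubini for the finite sums (`update` commutes for `x ≠ y`).
* `AX_selfadj`: `integral_update` in the coordinate `x` and `av1_selfadj`
  (`AX x F (update V x v) = av1 (fun v => F (update V x v)) v`).
* `AX_of_indep`: `av1_const`.
* `efron`.  Let `I1 = ∑_{x∈B} ∫ ‖DX x h‖²`, `I2 = ∑_{x∈B} ∑_{y∈B, y≠x} ∫ ‖DX x (DX y h)‖²`.  `DX x` is
  self-adjoint and idempotent and `DX x m = 0` for `x ∈ B`, so
  `I1 = ∑ ∫ ⟪h, DX x h⟫ = ∑ ∫ ⟪h - m, DX x h⟫ = ∫ ⟪h - m, ∑_x DX x h⟫ ≤ √(∫ ‖h-m‖²) √(∫ ‖∑_x DX x h‖²)`,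
  and `∫ ‖∑_x DX x h‖² = ∑_{x,y} ∫ ⟪DX x h, DX y h⟫ = I1 + I2`, as for `x ≠ y`
  `∫ ⟪DX x h, DX y h⟫ = ∫ ⟪DX x (DX x h), DX y h⟫ = ∫ ⟪DX x h, DX x (DX y h)⟫
   = ∫ ⟪DX x h, DX y (DX x h)⟫ = ∫ ⟪DX y (DX x h), DX y (DX x h)⟫`.
-/

open MeasureTheory Matrix Complex

namespace Pool.Agent.Lib.MP_562b47_mp.Str

variable {X : Type*} [Fintype X] [DecidableEq X]

section

variable {E : Type*} [NormedAddCommGroup E] [NormedSpace ℝ E]

/-- resampling of `V x` in its cell -/
noncomputable def AX (c q : ℝ) (m : ℕ) (x : X) (F : (X → ℝ) → E) (V : X → ℝ) : E :=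
  av1 c q m (fun v => F (Function.update V x v)) (V x)

/-- `1 - AX` -/
noncomputable def DX (c q : ℝ) (m : ℕ) (x : X) (F : (X → ℝ) → E) (V : X → ℝ) : E :=
  F V - AX c q m x F V

end

variable {E : Type*} [NormedAddCommGroup E] [InnerProductSpace ℂ E] [FiniteDimensional ℂ E]
  {c q : ℝ} {m : ℕ} {F K : (X → ℝ) → E}

private theorem AvOp_meas_cel (c q : ℝ) (m j : ℕ) : MeasurableSet (cel c q m j) :=
  measurableSet_Ico

private theorem AvOp_meas_core' (c q : ℝ) : MeasurableSet (core' c q) := measurableSet_Ico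

private theorem AvOp_bm (x : X) (hF : BMeas F) (V : X → ℝ) :
    BMeas fun v => F (Function.update V x v) :=
  hF.comp (measurable_update V)

theorem BMeas.AX (hc : 0 < c) (x : X) (hF : BMeas F) : BMeas (AX c q m x F) := by
  haveI := isProb_unif hc
  have h1 : ∀ j : ℕ, BMeas fun V : X → ℝ =>
      (cel c q m j).indicator (fun _ => (2 * c / tt c q m) •
        ∫ v, (cel c q m j).indicator (fun v => F (Function.update V x v)) v ∂(unif c)) (V x) := by
    intro j
    have h2 : BMeas fun p : (X → ℝ) × ℝ =>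
        (cel c q m j).indicator (fun v => F (Function.update p.1 x v)) p.2 := by
      have h3 : BMeas fun p : (X → ℝ) × ℝ => F (Function.update p.1 x p.2) :=
        hF.comp (measurable_update2 x)
      have h4 := h3.indicator (s := {p : (X → ℝ) × ℝ | p.2 ∈ cel c q m j})
        (measurable_snd (AvOp_meas_cel c q m j))
      convert h4 using 1
      funext p
      by_cases hp : p.2 ∈ cel c q m j
      · rw [Set.indicator_of_mem hp, Set.indicator_of_mem (by exact hp)]
      · rw [Set.indicator_of_notMem hp, Set.indicator_of_notMem (by exact hp)]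
    have h5 := (h2.integral (unif c)).smul_const (2 * c / tt c q m)
    have h6 := h5.indicator (s := {V : X → ℝ | V x ∈ cel c q m j})
      (measurable_pi_apply x (AvOp_meas_cel c q m j))
    convert h6 using 1
    funext V
    by_cases hp : V x ∈ cel c q m j
    · rw [Set.indicator_of_mem hp, Set.indicator_of_mem (by exact hp)]
    · rw [Set.indicator_of_notMem hp, Set.indicator_of_notMem (by exact hp)]
  have h7 : BMeas fun V : X → ℝ =>
      (core' c q)ᶜ.indicator (fun v => F (Function.update V x v)) (V x) := by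
    have h8 := hF.indicator (s := {V : X → ℝ | V x ∈ (core' c q)ᶜ})
      (measurable_pi_apply x (AvOp_meas_core' c q).compl)
    convert h8 using 1
    funext V
    by_cases hp : V x ∈ (core' c q)ᶜ
    · rw [Set.indicator_of_mem hp, Set.indicator_of_mem (by exact hp), Function.update_eq_self]
    · rw [Set.indicator_of_notMem hp, Set.indicator_of_notMem (by exact hp)]
  exact (BMeas.sum (Finset.range m) fun j _ => h1 j).add h7

theorem BMeas.DX (hc : 0 < c) (x : X) (hF : BMeas F) : BMeas (DX c q m x F) :=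
  hF.sub (hF.AX hc x)

theorem AX_update (x : X) (F : (X → ℝ) → E) (V : X → ℝ) (v : ℝ) :
    AX c q m x F (Function.update V x v)
      = av1 c q m (fun u => F (Function.update V x u)) v := by
  unfold AX
  simp only [Function.update_idem, Function.update_self]

private theorem AvOp_AX_sub (hc : 0 < c) (x : X) (hF : BMeas F) (hK : BMeas K) (V : X → ℝ) :
    AX c q m x (fun V => F V - K V) V = AX c q m x F V - AX c q m x K V :=
  av1_sub hc (AvOp_bm x hF V) (AvOp_bm x hK V) (V x)

private theorem AvOp_AX_AX (hc : 0 < c) (hq : 0 ≤ q) (hq1 : q < 1) (hm : 1 ≤ m) (x : X)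
    (hF : BMeas F) (V : X → ℝ) : AX c q m x (AX c q m x F) V = AX c q m x F V := by
  haveI : CompleteSpace E := FiniteDimensional.complete ℂ E
  have h := av1_av1 hc hq hq1 hm (AvOp_bm x hF V) (V x)
  have h2 : (fun v => AX c q m x F (Function.update V x v))
      = av1 c q m (fun u => F (Function.update V x u)) := by
    funext v
    exact AX_update x F V v
  show av1 c q m (fun v => AX c q m x F (Function.update V x v)) (V x) = _
  rw [h2, h]
  rfl

theorem DX_DX (hc : 0 < c) (hq : 0 ≤ q) (hq1 : q < 1) (hm : 1 ≤ m) (x : X) (hF : BMeas F)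
    (V : X → ℝ) : DX c q m x (DX c q m x F) V = DX c q m x F V := by
  have h1 : AX c q m x (DX c q m x F) V = AX c q m x F V - AX c q m x (AX c q m x F) V :=
    AvOp_AX_sub hc x hF (hF.AX hc x) V
  have h2 : DX c q m x (DX c q m x F) V = DX c q m x F V - AX c q m x (DX c q m x F) V := rfl
  rw [h2, h1, AvOp_AX_AX hc hq hq1 hm x hF V, sub_self, sub_zero]

private theorem AvOp_swap (hc : 0 < c) (i j : ℕ) {G : ℝ × ℝ → E} (hG : BMeas G) (r : ℝ) :
    (r • ∫ u, (cel c q m i).indicator (fun u => r • ∫ v, (cel c q m j).indicator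
        (fun v => G (u, v)) v ∂(unif c)) u ∂(unif c))
      = r • ∫ v, (cel c q m j).indicator (fun v => r • ∫ u, (cel c q m i).indicator
        (fun u => G (u, v)) u ∂(unif c)) v ∂(unif c) := by
  haveI := isProb_unif hc
  set H : ℝ × ℝ → E := (cel c q m i ×ˢ cel c q m j).indicator G with hH
  have hHb : BMeas H := hG.indicator ((AvOp_meas_cel c q m i).prod (AvOp_meas_cel c q m j))
  have e1 : ∀ u, (cel c q m i).indicator (fun u => r • ∫ v, (cel c q m j).indicator
      (fun v => G (u, v)) v ∂(unif c)) u = r • ∫ v, H (u, v) ∂(unif c) := by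
    intro u
    by_cases hu : u ∈ cel c q m i
    · rw [Set.indicator_of_mem hu]
      congr 1
      refine integral_congr_ae (.of_forall fun v => ?_)
      simp only
      by_cases hv : v ∈ cel c q m j
      · rw [Set.indicator_of_mem hv, hH, Set.indicator_of_mem (Set.mk_mem_prod hu hv)]
      · rw [Set.indicator_of_notMem hv, hH, Set.indicator_of_notMem (fun h => hv h.2)]
    · rw [Set.indicator_of_notMem hu]
      have : ∀ v, H (u, v) = 0 := by
        intro v
        rw [hH, Set.indicator_of_notMem (fun h => hu h.1)]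
      simp only [this, integral_zero, smul_zero]
  have e2 : ∀ v, (cel c q m j).indicator (fun v => r • ∫ u, (cel c q m i).indicator
      (fun u => G (u, v)) u ∂(unif c)) v = r • ∫ u, H (u, v) ∂(unif c) := by
    intro v
    by_cases hv : v ∈ cel c q m j
    · rw [Set.indicator_of_mem hv]
      congr 1
      refine integral_congr_ae (.of_forall fun u => ?_)
      simp only
      by_cases hu : u ∈ cel c q m i
      · rw [Set.indicator_of_mem hu, hH, Set.indicator_of_mem (Set.mk_mem_prod hu hv)]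
      · rw [Set.indicator_of_notMem hu, hH, Set.indicator_of_notMem (fun h => hu h.1)]
    · rw [Set.indicator_of_notMem hv]
      have : ∀ u, H (u, v) = 0 := by
        intro u
        rw [hH, Set.indicator_of_notMem (fun h => hv h.2)]
      simp only [this, integral_zero, smul_zero]
  simp only [e1, e2, integral_smul]
  rw [integral_integral_swap (f := fun u v => H (u, v))]
  exact hHb.integrable _

private theorem AvOp_av1_comm (hc : 0 < c) (hq1 : q < 1) (hm : 1 ≤ m) {G : ℝ × ℝ → E}
    (hG : BMeas G) (a b : ℝ) :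
    av1 c q m (fun u => av1 c q m (fun v => G (u, v)) b) a
      = av1 c q m (fun v => av1 c q m (fun u => G (u, v)) a) b := by
  by_cases ha : a ∈ core' c q
  · by_cases hb : b ∈ core' c q
    · rw [core'_eq hc hq1 hm] at ha hb
      simp only [Set.mem_iUnion, Finset.mem_range, exists_prop] at ha hb
      obtain ⟨i, hi, ha⟩ := ha
      obtain ⟨j, hj, hb⟩ := hb
      have e1 : (fun u => av1 c q m (fun v => G (u, v)) b) = fun u => (2 * c / tt c q m) •
          ∫ v, (cel c q m j).indicator (fun v => G (u, v)) v ∂(unif c) := by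
        funext u
        exact av1_of_mem hc hq1 hj _ hb
      have e2 : (fun v => av1 c q m (fun u => G (u, v)) a) = fun v => (2 * c / tt c q m) •
          ∫ u, (cel c q m i).indicator (fun u => G (u, v)) u ∂(unif c) := by
        funext v
        exact av1_of_mem hc hq1 hi _ ha
      rw [e1, e2, av1_of_mem hc hq1 hi _ ha, av1_of_mem hc hq1 hj _ hb]
      exact AvOp_swap hc i j hG _
    · have e1 : (fun u => av1 c q m (fun v => G (u, v)) b) = fun u => G (u, b) := by
        funext u
        exact av1_of_not hc hq1 _ hb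
      rw [e1, av1_of_not hc hq1 _ hb]
  · have e2 : (fun v => av1 c q m (fun u => G (u, v)) a) = fun v => G (a, v) := by
      funext v
      exact av1_of_not hc hq1 _ ha
    rw [e2, av1_of_not hc hq1 _ ha]

private theorem AvOp_AX_comm (hc : 0 < c) (hq1 : q < 1) (hm : 1 ≤ m) {x y : X} (hxy : x ≠ y)
    (hF : BMeas F) (V : X → ℝ) :
    AX c q m x (AX c q m y F) V = AX c q m y (AX c q m x F) V := by
  have hG : BMeas fun p : ℝ × ℝ => F (Function.update (Function.update V x p.1) y p.2) := by
    refine hF.comp ?_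
    have h1 : Measurable fun p : ℝ × ℝ => (Function.update V x p.1, p.2) :=
      ((measurable_update V).comp measurable_fst).prodMk measurable_snd
    exact (measurable_update2 y).comp h1
  have h := AvOp_av1_comm hc hq1 hm hG (V x) (V y)
  have e1 : AX c q m x (AX c q m y F) V = av1 c q m (fun u => av1 c q m
      (fun v => F (Function.update (Function.update V x u) y v)) (V y)) (V x) := by
    unfold AX
    simp only [Function.update_of_ne hxy.symm]
  have e2 : AX c q m y (AX c q m x F) V = av1 c q m (fun v => av1 c q m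
      (fun u => F (Function.update (Function.update V x u) y v)) (V x)) (V y) := by
    unfold AX
    simp only [Function.update_of_ne hxy, Function.update_comm hxy.symm]
  rw [e1, e2]
  exact h

theorem DX_comm (hc : 0 < c) (hq : 0 ≤ q) (hq1 : q < 1) (hm : 1 ≤ m) {x y : X} (hxy : x ≠ y)
    (hF : BMeas F) (V : X → ℝ) :
    DX c q m x (DX c q m y F) V = DX c q m y (DX c q m x F) V := by
  have h1 : AX c q m x (DX c q m y F) V = AX c q m x F V - AX c q m x (AX c q m y F) V :=
    AvOp_AX_sub hc x hF (hF.AX hc y) V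
  have h2 : AX c q m y (DX c q m x F) V = AX c q m y F V - AX c q m y (AX c q m x F) V :=
    AvOp_AX_sub hc y hF (hF.AX hc x) V
  have h3 : DX c q m x (DX c q m y F) V
      = (F V - AX c q m y F V) - AX c q m x (DX c q m y F) V := rfl
  have h4 : DX c q m y (DX c q m x F) V
      = (F V - AX c q m x F V) - AX c q m y (DX c q m x F) V := rfl
  rw [h3, h4, h1, h2, AvOp_AX_comm hc hq1 hm hxy hF V]
  abel

private theorem AvOp_AX_selfadj (hc : 0 < c) (hq1 : q < 1) (hm : 1 ≤ m) (x : X)
    (hF : BMeas F) (hK : BMeas K) :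
    ∫ V, inner ℂ (AX c q m x F V) (K V) ∂(PX X c)
      = ∫ V, inner ℂ (F V) (AX c q m x K V) ∂(PX X c) := by
  rw [integral_update hc x ((hF.AX hc x).inner hK), integral_update hc x (hF.inner (hK.AX hc x))]
  refine integral_congr_ae (.of_forall fun V => ?_)
  simp only [AX_update]
  exact av1_selfadj hc hq1 hm (AvOp_bm x hF V) (AvOp_bm x hK V)

theorem DX_selfadj (hc : 0 < c) (hq : 0 ≤ q) (hq1 : q < 1) (hm : 1 ≤ m) (x : X) (hF : BMeas F)
    (hK : BMeas K) :
    ∫ V, inner ℂ (DX c q m x F V) (K V) ∂(PX X c)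
      = ∫ V, inner ℂ (F V) (DX c q m x K V) ∂(PX X c) := by
  haveI := isProb_PX (X := X) hc
  have e1 : ∀ V, inner ℂ (DX c q m x F V) (K V)
      = inner ℂ (F V) (K V) - inner ℂ (AX c q m x F V) (K V) := by
    intro V
    exact inner_sub_left _ _ _
  have e2 : ∀ V, inner ℂ (F V) (DX c q m x K V)
      = inner ℂ (F V) (K V) - inner ℂ (F V) (AX c q m x K V) := by
    intro V
    exact inner_sub_right _ _ _
  simp only [e1, e2]
  rw [integral_sub ((hF.inner hK).integrable _) (((hF.AX hc x).inner hK).integrable _),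
    integral_sub ((hF.inner hK).integrable _) ((hF.inner (hK.AX hc x)).integrable _),
    AvOp_AX_selfadj hc hq1 hm x hF hK]

theorem DX_of_indep (hc : 0 < c) (hq : 0 ≤ q) (hq1 : q < 1) (hm : 1 ≤ m) (x : X)
    (h : ∀ V v, F (Function.update V x v) = F V) (V : X → ℝ) : DX c q m x F V = 0 := by
  haveI : CompleteSpace E := FiniteDimensional.complete ℂ E
  have h1 : AX c q m x F V = F V := by
    unfold AX
    simp only [h V]
    exact av1_const hc hq hq1 hm (F V) (V x)
  show F V - AX c q m x F V = 0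
  rw [h1, sub_self]

private theorem AvOp_cs {A S : (X → ℝ) → E} (hc : 0 < c) (hA : BMeas A) (hS : BMeas S) (r : ℝ)
    (h : ∫ V, inner ℂ (A V) (S V) ∂(PX X c) = (r : ℂ)) :
    r ^ 2 ≤ (∫ V, ‖S V‖ ^ 2 ∂(PX X c)) * ∫ V, ‖A V‖ ^ 2 ∂(PX X c) := by
  haveI := isProb_PX (X := X) hc
  have hre : ∫ V, (inner ℂ (A V) (S V)).re ∂(PX X c) = r := by
    have h1 := integral_re (𝕜 := ℂ) ((hA.inner hS).integrable (PX X c))
    simp only [RCLike.re_to_complex] at h1
    rw [h1, h, Complex.ofReal_re]
  have hrei : Integrable (fun V => (inner ℂ (A V) (S V)).re) (PX X c) :=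
    ((hA.inner hS).integrable (PX X c)).re
  have key : ∀ t : ℝ, 0 ≤ (∫ V, ‖S V‖ ^ 2 ∂(PX X c)) * (t * t) + (-(2 * r)) * t
      + ∫ V, ‖A V‖ ^ 2 ∂(PX X c) := by
    intro t
    have h2 : ∫ V, ‖A V - t • S V‖ ^ 2 ∂(PX X c) = (∫ V, ‖S V‖ ^ 2 ∂(PX X c)) * (t * t)
        + (-(2 * r)) * t + ∫ V, ‖A V‖ ^ 2 ∂(PX X c) := by
      have h3 : ∀ V, ‖A V - t • S V‖ ^ 2 = ‖S V‖ ^ 2 * (t * t)
          + (-(2 * t)) * (inner ℂ (A V) (S V)).re + ‖A V‖ ^ 2 := by
        intro V
        rw [norm_sub_sq (𝕜 := ℂ)]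
        have h4 : inner ℂ (A V) (t • S V) = (t : ℂ) * inner ℂ (A V) (S V) := by
          rw [← Complex.coe_smul, inner_smul_right]
        rw [h4, norm_smul, Real.norm_eq_abs, mul_pow, sq_abs]
        simp only [RCLike.re_to_complex, Complex.re_ofReal_mul]
        ring
      simp only [h3]
      rw [integral_add, integral_add, integral_mul_const, integral_const_mul, hre]
      · ring
      · exact (hS.norm_sq.integrable _).mul_const _
      · exact hrei.const_mul _
      · exact ((hS.norm_sq.integrable _).mul_const _).add (hrei.const_mul _)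
      · exact hA.norm_sq.integrable _
    rw [← h2]
    exact integral_nonneg fun V => sq_nonneg _
  have hd := discrim_le_zero key
  unfold discrim at hd
  nlinarith

theorem efron (hc : 0 < c) (hq : 0 ≤ q) (hq1 : q < 1) (hm : 1 ≤ m) (B : Finset X) (hF : BMeas F)
    (hK : BMeas K) (h : ∀ x ∈ B, ∀ V v, K (Function.update V x v) = K V) :
    (∑ x ∈ B, ∫ V, ‖DX c q m x F V‖ ^ 2 ∂(PX X c)) ^ 2
      ≤ (∑ x ∈ B, ∫ V, ‖DX c q m x F V‖ ^ 2 ∂(PX X c)
          + ∑ x ∈ B, ∑ y ∈ B.erase x, ∫ V, ‖DX c q m x (DX c q m y F) V‖ ^ 2 ∂(PX X c))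
        * ∫ V, ‖F V - K V‖ ^ 2 ∂(PX X c) := by
  haveI := isProb_PX (X := X) hc
  have hD : ∀ x, BMeas (DX c q m x F) := fun x => hF.DX hc x
  have hself : ∀ x, ∫ V, inner ℂ (F V) (DX c q m x F V) ∂(PX X c)
      = ((∫ V, ‖DX c q m x F V‖ ^ 2 ∂(PX X c) : ℝ) : ℂ) := by
    intro x
    have h1 := DX_selfadj hc hq hq1 hm x hF (hD x)
    have h2 : ∫ V, inner ℂ (F V) (DX c q m x (DX c q m x F) V) ∂(PX X c)
        = ∫ V, inner ℂ (F V) (DX c q m x F V) ∂(PX X c) := by
      refine integral_congr_ae (.of_forall fun V => ?_)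
      simp only
      rw [DX_DX hc hq hq1 hm x hF V]
    rw [← h2, ← h1, ← integral_complex_ofReal]
    refine integral_congr_ae (.of_forall fun V => ?_)
    simp only
    rw [inner_self_eq_norm_sq_to_K]
    norm_cast
  set S : (X → ℝ) → E := fun V => ∑ x ∈ B, DX c q m x F V with hSdef
  have hS : BMeas S := BMeas.sum B fun x _ => hD x
  have hI1 : ∫ V, inner ℂ (F V - K V) (S V) ∂(PX X c)
      = ((∑ x ∈ B, ∫ V, ‖DX c q m x F V‖ ^ 2 ∂(PX X c) : ℝ) : ℂ) := by
    have e1 : ∀ V, inner ℂ (F V - K V) (S V) = ∑ x ∈ B, inner ℂ (F V - K V) (DX c q m x F V) :=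
      fun V => inner_sum _ _ _
    simp only [e1]
    rw [integral_finset_sum _ fun x _ => ((hF.sub hK).inner (hD x)).integrable _]
    rw [Complex.ofReal_sum]
    refine Finset.sum_congr rfl fun x hx => ?_
    have e2 : ∀ V, inner ℂ (F V - K V) (DX c q m x F V)
        = inner ℂ (F V) (DX c q m x F V) - inner ℂ (K V) (DX c q m x F V) :=
      fun V => inner_sub_left _ _ _
    simp only [e2]
    rw [integral_sub ((hF.inner (hD x)).integrable _) ((hK.inner (hD x)).integrable _), hself x,
      ← DX_selfadj hc hq hq1 hm x hK hF]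
    have e3 : ∀ V, inner ℂ (DX c q m x K V) (F V) = 0 := by
      intro V
      rw [DX_of_indep hc hq hq1 hm x (h x hx) V, inner_zero_left]
    simp only [e3, integral_zero, sub_zero]
  have hcross : ∀ x y, x ≠ y → ∫ V, inner ℂ (DX c q m x F V) (DX c q m y F V) ∂(PX X c)
      = ((∫ V, ‖DX c q m x (DX c q m y F) V‖ ^ 2 ∂(PX X c) : ℝ) : ℂ) := by
    intro x y hxy
    have hDy : BMeas (DX c q m x (DX c q m y F)) := (hD y).DX hc x
    have hDx : BMeas (DX c q m y (DX c q m x F)) := (hD x).DX hc y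
    have h1 : ∫ V, inner ℂ (DX c q m x F V) (DX c q m y F V) ∂(PX X c)
        = ∫ V, inner ℂ (DX c q m x (DX c q m x F) V) (DX c q m y F V) ∂(PX X c) := by
      refine integral_congr_ae (.of_forall fun V => ?_)
      simp only
      rw [DX_DX hc hq hq1 hm x hF V]
    have h2 := DX_selfadj hc hq hq1 hm x (hD x) (hD y)
    have h3 : ∫ V, inner ℂ (DX c q m x F V) (DX c q m x (DX c q m y F) V) ∂(PX X c)
        = ∫ V, inner ℂ (DX c q m x F V) (DX c q m y (DX c q m y (DX c q m x F)) V)
          ∂(PX X c) := by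
      refine integral_congr_ae (.of_forall fun V => ?_)
      simp only
      rw [DX_DX hc hq hq1 hm y (hD x) V, DX_comm hc hq hq1 hm hxy hF V]
    have h4 := DX_selfadj hc hq hq1 hm y (hD x) hDx
    rw [h1, h2, h3, ← h4, ← integral_complex_ofReal]
    refine integral_congr_ae (.of_forall fun V => ?_)
    simp only
    rw [inner_self_eq_norm_sq_to_K, DX_comm hc hq hq1 hm hxy hF V]
    norm_cast
  have hI2 : ∫ V, ‖S V‖ ^ 2 ∂(PX X c)
      = ∑ x ∈ B, ∫ V, ‖DX c q m x F V‖ ^ 2 ∂(PX X c)
          + ∑ x ∈ B, ∑ y ∈ B.erase x, ∫ V, ‖DX c q m x (DX c q m y F) V‖ ^ 2 ∂(PX X c) := by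
    have e1 : ((∫ V, ‖S V‖ ^ 2 ∂(PX X c) : ℝ) : ℂ)
        = ∑ x ∈ B, ∑ y ∈ B, ∫ V, inner ℂ (DX c q m x F V) (DX c q m y F V) ∂(PX X c) := by
      have e2 : ∀ V, ((‖S V‖ ^ 2 : ℝ) : ℂ)
          = ∑ x ∈ B, ∑ y ∈ B, inner ℂ (DX c q m x F V) (DX c q m y F V) := by
        intro V
        have e3 : ((‖S V‖ ^ 2 : ℝ) : ℂ) = inner ℂ (S V) (S V) := by
          rw [inner_self_eq_norm_sq_to_K]
          norm_cast
        rw [e3, hSdef]
        simp only
        rw [sum_inner]
        refine Finset.sum_congr rfl fun x _ => ?_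
        rw [inner_sum]
      rw [← integral_complex_ofReal]
      simp only [e2]
      rw [integral_finset_sum _ fun x _ =>
        integrable_finset_sum _ fun y _ => ((hD x).inner (hD y)).integrable _]
      refine Finset.sum_congr rfl fun x _ => ?_
      rw [integral_finset_sum _ fun y _ => ((hD x).inner (hD y)).integrable _]
    have e4 : ∀ x ∈ B, ∑ y ∈ B, ∫ V, inner ℂ (DX c q m x F V) (DX c q m y F V) ∂(PX X c)
        = ((∫ V, ‖DX c q m x F V‖ ^ 2 ∂(PX X c)
          + ∑ y ∈ B.erase x, ∫ V, ‖DX c q m x (DX c q m y F) V‖ ^ 2 ∂(PX X c) : ℝ) : ℂ) := by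
      intro x hx
      rw [← Finset.add_sum_erase B _ hx, Complex.ofReal_add, Complex.ofReal_sum]
      congr 1
      · rw [← integral_complex_ofReal]
        refine integral_congr_ae (.of_forall fun V => ?_)
        simp only
        rw [inner_self_eq_norm_sq_to_K]
        norm_cast
      · refine Finset.sum_congr rfl fun y hy => ?_
        exact hcross x y (Finset.ne_of_mem_erase hy).symm
    rw [Finset.sum_congr rfl e4, ← Complex.ofReal_sum, Finset.sum_add_distrib] at e1
    exact_mod_cast e1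
  rw [← hI2]
  exact AvOp_cs hc (hF.sub hK) hS _ hI1

end Pool.Agent.Lib.MP_562b47_mp.Str
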