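import Mathlib

/-!
Base file of the strip board (MP_562b47_mp): definitions only.

A finite system: `K(ν) = H + diag(ν + i y) + i U Uᵀ`, `H` real symmetric (the energy `-E` and the
background are part of the diagonal of `H`), `y > 0` the absorption, `U` the real matrix of the
sources, `ν : X → ℂ` the potential with values in the closed upper half plane.
`G = K⁻¹`, `w = G U`, `S = 1 - 2 i Uᵀ G U`.
-/

open MeasureTheory Matrix Complex

namespace Pool.Agent.Lib.MP_562b47_mp.Str

/-- the uniform law on `[-c, c]` -/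
noncomputable def unif (c : ℝ) : Measure ℝ :=
  (ENNReal.ofReal (2 * c))⁻¹ • volume.restrict (Set.Icc (-c) c)

/-- the law of independent uniform variables -/
noncomputable def PX (X : Type*) [Fintype X] (c : ℝ) : Measure (X → ℝ) :=
  Measure.pi fun _ => unif c

/-- a finite system -/
structure Sys (X ι : Type*) where
  /-- the real symmetric matrix -/
  H : Matrix X X ℝ
  /-- the sources -/
  U : Matrix X ι ℝ
  /-- the absorption -/
  y : X → ℝ

section

variable {X ι : Type*} [Fintype X] [DecidableEq X] [Fintype ι] [DecidableEq ι]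

/-- admissible potentials: values in the closed upper half plane -/
def Adm (ν : X → ℂ) : Prop := ∀ x, 0 ≤ (ν x).im

namespace Sys

/-- standing hypotheses -/
structure Good (S : Sys X ι) : Prop where
  symm : S.H.IsSymm
  pos : ∀ x, 0 < S.y x

/-- `K(ν)` -/
noncomputable def K (S : Sys X ι) (ν : X → ℂ) : Matrix X X ℂ :=
  S.H.map Complex.ofReal + diagonal (fun x => ν x + (S.y x : ℂ) * I)
    + I • (S.U.map Complex.ofReal * (S.U.map Complex.ofReal)ᵀ)

/-- the Green function -/
noncomputable def G (S : Sys X ι) (ν : X → ℂ) : Matrix X X ℂ := (S.K ν)⁻¹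

/-- the field of the sources -/
noncomputable def w (S : Sys X ι) (ν : X → ℂ) : Matrix X ι ℂ := S.G ν * S.U.map Complex.ofReal

/-- the scattering matrix -/
noncomputable def Sm (S : Sys X ι) (ν : X → ℂ) : Matrix ι ι ℂ :=
  1 - (2 * I) • ((S.U.map Complex.ofReal)ᵀ * S.w ν)

/-- the row of the field at `x`, with the Euclidean norm -/
noncomputable def wv (S : Sys X ι) (ν : X → ℂ) (x : X) : EuclideanSpace ℂ ι :=
  WithLp.toLp 2 (fun s => S.w ν x s)

/-- the scattering matrix with the Hilbert-Schmidt norm -/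
noncomputable def Sv (S : Sys X ι) (ν : X → ℂ) : EuclideanSpace ℂ (ι × ι) :=
  WithLp.toLp 2 (fun p => S.Sm ν p.1 p.2)

/-- the system with the couplings between the layers `≤ N` and `> N` removed -/
def cut (S : Sys X ι) (ℓ : X → ℕ) (N : ℕ) : Sys X ι where
  H := fun x z => if (ℓ x ≤ N ↔ ℓ z ≤ N) then S.H x z else 0
  U := S.U
  y := S.y

/-- the density of the field in the layer `j` -/
noncomputable def rho (S : Sys X ι) (ℓ : X → ℕ) (ν : X → ℂ) (j : ℕ) : ℝ :=
  ∑ x with ℓ x = j, ‖S.wv ν x‖ ^ 2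

/-- four times the absorption beyond the layer `i` (the net flux through the layer `i`) -/
noncomputable def FL (S : Sys X ι) (ℓ : X → ℕ) (ν : X → ℂ) (i : ℕ) : ℝ :=
  4 * ∑ x with i < ℓ x, ((ν x).im + S.y x) * ‖S.wv ν x‖ ^ 2

/-- layered structure up to the layer `N` -/
structure Layered (S : Sys X ι) (ℓ : X → ℕ) (up : X → X) (R : ℝ) (Δ : ℕ) (N : ℕ) : Prop where
  near : ∀ x z, S.H x z ≠ 0 → ℓ x ≤ ℓ z + 1
  row : ∀ x, ∑ z, |S.H x z| ≤ R
  deg : ∀ x, (Finset.univ.filter fun z => S.H x z ≠ 0).card ≤ Δ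
  up_layer : ∀ x, ℓ x < N → ℓ (up x) = ℓ x + 1
  up_one : ∀ x, ℓ x < N → 1 ≤ |S.H (up x) x|
  up_unique : ∀ x, ℓ x < N → ∀ z, ℓ z = ℓ x → S.H (up x) z ≠ 0 → z = x

/-- the forward set of `x`: the other sites in the row of `up x` -/
noncomputable def Fs (S : Sys X ι) (up : X → X) (x : X) : Finset X :=
  open Classical in Finset.univ.filter fun z => z ≠ x ∧ (S.H (up x) z ≠ 0 ∨ z = up x)

end Sys

/-- the profile of the deformation -/
noncomputable def chi (c v : ℝ) : ℝ := max 0 (1 - (v / c) ^ 2)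

/-- the deformed potential -/
noncomputable def dfm (B : Set X) (c b : ℝ) (V : X → ℝ) (z : ℂ) : X → ℂ :=
  open Classical in fun x => if x ∈ B then (V x : ℂ) + z * ((b * chi c (V x) : ℝ) : ℂ) else (V x : ℂ)

/-- the real shift -/
noncomputable def shf (B : Set X) (c b : ℝ) (V : X → ℝ) (t : ℝ) : X → ℝ :=
  open Classical in fun x => if x ∈ B then V x + t * (b * chi c (V x)) else V x

/-- the block of layers `n < ℓ x ≤ n + l` -/
def Blk (ℓ : X → ℕ) (n l : ℕ) : Set X := {x | n < ℓ x ∧ ℓ x ≤ n + l}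

/-- `V` on the layers `≤ n`, `V'` on the others -/
def mix (ℓ : X → ℕ) (n : ℕ) (V V' : X → ℝ) : X → ℝ := fun x => if ℓ x ≤ n then V x else V' x

/-- average over the layers `> n` -/
noncomputable def cav {E : Type*} [NormedAddCommGroup E] [NormedSpace ℝ E] (c : ℝ) (ℓ : X → ℕ)
    (n : ℕ) (F : (X → ℝ) → E) (V : X → ℝ) : E := ∫ V', F (mix ℓ n V V') ∂(PX X c)

/-- the average of the scattering matrix over the layers `> n` -/
noncomputable def Sys.sav (S : Sys X ι) (c : ℝ) (ℓ : X → ℕ) (n : ℕ) (V : X → ℝ) :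
    EuclideanSpace ℂ (ι × ι) := cav c ℓ n (fun V => S.Sv fun x => (V x : ℂ)) V

/-- the scattering matrix deformed in the block, averaged over the layers beyond the block -/
noncomputable def Sys.dav (S : Sys X ι) (c b : ℝ) (ℓ : X → ℕ) (n l : ℕ) (V : X → ℝ) (z : ℂ) :
    EuclideanSpace ℂ (ι × ι) :=
  cav c ℓ (n + l) (fun V => S.Sv (dfm (Blk ℓ n l) c b V z)) V

/-- the coherent flux through the layer `n` -/
noncomputable def Sys.Phi (S : Sys X ι) (c : ℝ) (ℓ : X → ℕ) (n : ℕ) : ℝ :=
  Fintype.card ι - ∫ V, ‖S.sav c ℓ n V‖ ^ 2 ∂(PX X c)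

/-- the core of `[-c, c]` -/
def core (c q : ℝ) : Set ℝ := {v | |v| ≤ (1 - q) * c}

/-- there is a chain of `k + 1` holes which starts at `x` -/
def Bad (c q : ℝ) (F : X → Finset X) (V : X → ℝ) : ℕ → X → Prop
  | 0, x => V x ∉ core c q
  | k + 1, x => V x ∉ core c q ∧ ∃ z ∈ F x, Bad c q F V k z

/-- the good event: no chain of `k + 1` holes starts in the block (away from its right end) -/
def GE (c q : ℝ) (F : X → Finset X) (ℓ : X → ℕ) (n l k : ℕ) : Set (X → ℝ) :=
  {V | (∀ x, V x ∈ Set.Icc (-c) c) ∧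
    ∀ x, n < ℓ x → ℓ x + 2 * k + 2 ≤ n + l → ¬ Bad c q F V k x}

/-- the mean density of the field at `x` over the core values of `V x` -/
noncomputable def Sys.kap (S : Sys X ι) (B : Set X) (c b q : ℝ) (x : X) (V : X → ℝ) : ℝ :=
  ∫ v, (core c q).indicator
    (fun v => ‖S.wv (dfm B c b (Function.update V x v) I) x‖ ^ 2) v ∂(unif c)

end

end Pool.Agent.Lib.MP_562b47_mp.Str
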