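import Pool.Agent.Lib.MP_562b47_mp.Str.BlockA

/-!
Module STR-Block (MP_562b47_mp, strips).  The block theorem.

Notation: `M = card ι`, `Φ = S.Phi c ℓ n`, `b = pb ε Λ m`, `q = pq ε Λ`, `B = Blk ℓ n l`,
`h V = (S.cut ℓ (n+l)).Sv (dfm B c b V I)`, `S_n = S.sav c ℓ n`, `D = ∫ ‖h - S_n‖²`, `P = Pk (R+c+2) Δ k`.
`M ≥ 1` since `Φ ≤ M` and `Φ > 0`.

PROOF of `D_lower`: `D ≥ Φ²/(m Λ^(ε/2))`.  If `D ≥ Φ²/(64 M)`: `M ≤ m`, `n1`.  Otherwise `√D < Φ/(8√M)`;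
`∫ ‖h‖² - ∫ ‖S_n‖² = ∫ (‖h‖-‖S_n‖)(‖h‖+‖S_n‖) ≤ 2√M ∫ ‖h - S_n‖ ≤ 2√M √D ≤ Φ/4` (`norm_Sv_le`,
`norm_cav_le`).  So `M - ∫‖h‖² ≥ Φ - Φ/4` and by `bd_core` and `Λ^(-56) ≤ Φ/4` (`Φ ≥ Λ^(-8)`, `Λ ≥ 64`):
`∫ coreMass ≥ Φ/(8 b P)`.  `coreMass_sq_le`: `W := ∑∫ kap² ≥ Φ²/(64 b² P² #B)`; `lemma_var` with
`Mf = S.sav c ℓ n` (`sav_dep`: it does not depend on the block coordinates; `BMeas.cav`):
`b q W ≤ CV 𝓛³ D`, `𝓛 ≤ 1 + 2 log Λ` (`bd_log`).  So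
`D ≥ q Φ²/(64 CV P² 𝓛³ b #B) ≥ Λ^(-ε/8) Φ² / (128 CV P² 𝓛³ m Λ^(ε/4))` (`bd_card`) and by `n8`
`128 CV P² 𝓛³ ≤ Λ^(ε/8)`: `D ≥ Φ²/(m Λ^(ε/2))`.

PROOF of `block`.  `k := ⌈480/ε⌉`, `δ := ε/100`, `CT` from `transfer hc δ`, `CV` from `lemma_var`,
`Cη := 2 log (R+c+3) + 1`, `Λ0` from `num_ok`.  Let `v = Φ_n - Φ_{n+l} = ∫ ‖S_{n+l} - S_n‖²` (`Phi_sub`),
and suppose `v < Φ²/(m Λ^ε)`.  `e2 := ∫ ‖dav I - S_n‖²`; `D ≤ 2 e1 + 2 e2`, `e1 ≤ Λ^(-56)` (`bd_e1`), so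
`e2 ≥ Φ²/(2mΛ^(ε/2)) - Λ^(-56) ≥ Φ²/(4 m Λ^(ε/2))` (`Φ² ≥ Λ^(-16)`, `m ≤ Λ`, `Λ^(ε/2) ≤ Λ`, `Λ ≥ 64`).
Put `a1 := Φ²/(4 M m Λ^ε)`, `vh := 4 M a1 = Φ²/(mΛ^ε)`, `Kb = 2√M`, `Kb² = 4M`.  Then
`∫‖g‖² = v ≤ vh`; `vh ≤ Kb²` (`Φ ≤ M ≤ m`, so `Φ²/(mΛ^ε) ≤ M`); `a1 ≥ Λ^(-16)/(4Λ³) ≥ Λ^(-20)`, and
`exp (-1/(CT b²)) = exp (-(m² Λ^(3ε/2)/CT)) ≤ exp(-Λ^(3ε/2)/CT) ≤ Λ^(-30) ≤ a1` (`n9`), i.e.
`Kb² exp(-1/(CT b²)) ≤ vh`.  `transfer` (with `fam_dav`, `coe_BlkF`, `bd_card`):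
`e2 ≤ CT 4M a1^(1-δ) = CT * (Φ²/(mΛ^ε)) * a1^(-δ)`, `a1^(-δ) ≤ Λ^(20δ) = Λ^(ε/5)`.  So
`Φ²/(4mΛ^(ε/2)) ≤ CT Φ²/(mΛ^ε) Λ^(ε/5)`, i.e. `Λ^(3ε/10) ≤ 4 CT`, contradiction with `n10`.
-/

open MeasureTheory Matrix Complex

namespace Pool.Agent.Lib.MP_562b47_mp.Str

private theorem block_rpow_le {Λ a b : ℝ} (hΛ : 64 ≤ Λ) (h : a + 1 ≤ b) :
    4 * Λ ^ a ≤ Λ ^ b := by
  have hΛ0 : 0 < Λ := by linarith
  have h1 : Λ ^ (a + 1) ≤ Λ ^ b := Real.rpow_le_rpow_of_exponent_le (by linarith) h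
  rw [Real.rpow_add hΛ0, Real.rpow_one] at h1
  have h2 : 0 < Λ ^ a := Real.rpow_pos_of_pos hΛ0 a
  nlinarith

private theorem block_amgm {M Φ s a t : ℝ} (hM : 0 ≤ M) (hΦ : 0 < Φ) (ha : 0 ≤ a) (hs : 0 ≤ s)
    (hsM : s ≤ √M) (haM : a ≤ √M) (ht : a - s ≤ t) (ht0 : 0 ≤ t) :
    a ^ 2 ≤ s ^ 2 + (Φ / 8 + 8 * M / Φ * t ^ 2) := by
  have h0 := Real.sqrt_nonneg M
  have hsq := Real.sq_sqrt hM
  have h1 : a ^ 2 - s ^ 2 ≤ 2 * √M * t := by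
    have h2 : a ^ 2 - s ^ 2 = (a - s) * (a + s) := by ring
    rw [h2]
    have h3 : (a - s) * (a + s) ≤ t * (a + s) :=
      mul_le_mul_of_nonneg_right ht (by linarith)
    have h4 : t * (a + s) ≤ t * (2 * √M) := mul_le_mul_of_nonneg_left (by linarith) ht0
    linarith
  have h5 : 2 * √M * t ≤ Φ / 8 + 8 * M / Φ * t ^ 2 := by
    have h6 : 0 ≤ (Φ / 8 - √M * t) ^ 2 := sq_nonneg _
    have h7 : Φ / 8 + 8 * M / Φ * t ^ 2 - 2 * √M * t = (8 / Φ) * (Φ / 8 - √M * t) ^ 2 := by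
      have h8 : (√M * t) ^ 2 = M * t ^ 2 := by rw [mul_pow, hsq]
      have h9 : (Φ / 8 - √M * t) ^ 2 = (Φ / 8) ^ 2 - 2 * (Φ / 8) * (√M * t) + M * t ^ 2 := by
        rw [sub_sq, h8]
      rw [h9]
      field_simp
      ring
    have h10 : 0 ≤ (8 / Φ) * (Φ / 8 - √M * t) ^ 2 := by positivity
    linarith
  linarith

theorem D_lower {X ι : Type} [Fintype X] [DecidableEq X] [Fintype ι] [DecidableEq ι]
    {S : Sys X ι} {ℓ : X → ℕ} {up : X → X} {c R ε η Λ Cη CT CV : ℝ} {Δ N m n l k : ℕ}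
    (h : BD S ℓ up c R ε η Λ Cη Δ N m n l)
    (hn : NumOK c R ε CT CV (Pk (R + c + 2) Δ k) Cη Δ k Λ) (hk : 480 / ε ≤ k) (hCT : 0 < CT)
    (hCV : 0 < CV)
    (hvar : (pb ε Λ m) * (pq ε Λ) * ∑ x ∈ BlkF ℓ n l,
        ∫ V, (S.cut ℓ (n + l)).kap (Blk ℓ n l) c (pb ε Λ m) (pq ε Λ) x V ^ 2 ∂(PX X c)
      ≤ CV * (1 + Real.log (1 / (pb ε Λ m * pq ε Λ))) ^ 3
        * ∫ V, ‖(S.cut ℓ (n + l)).Sv (dfm (Blk ℓ n l) c (pb ε Λ m) V I)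
            - S.sav c ℓ n V‖ ^ 2 ∂(PX X c))
    (hΦ : Λ ^ (-8 : ℝ) ≤ S.Phi c ℓ n) :
    S.Phi c ℓ n ^ 2 / (m * Λ ^ (ε / 2))
      ≤ ∫ V, ‖(S.cut ℓ (n + l)).Sv (dfm (Blk ℓ n l) c (pb ε Λ m) V I)
            - S.sav c ℓ n V‖ ^ 2 ∂(PX X c) := by
  have hprob := isProb_PX (X := X) h.hc
  obtain ⟨hb0, hb1, -, hq0, -, hbq⟩ := bd_params h hn
  obtain ⟨hcard, -⟩ := bd_card h hn hCT
  have hcore := bd_core h hn hk
  have hlog := bd_log h hn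
  have hCS := Sys.coreMass_sq_le (T := S.cut ℓ (n + l)) (Sys.cut_good h.good _ _) (b := pb ε Λ m)
    (q := pq ε Λ) h.hc hb0.le ℓ n l
  have hΛ := hn.n0
  have hΛ0 : 0 < Λ := by linarith
  have hΛ1 : 1 ≤ Λ := by linarith
  have hm1 : (1 : ℝ) ≤ m := by exact_mod_cast h.m1
  have hm0 : (0 : ℝ) < m := by linarith
  have hΦM : S.Phi c ℓ n ≤ Fintype.card ι := Sys.Phi_le_card h.good h.hc ℓ n
  have hΦ0 : 0 < S.Phi c ℓ n := lt_of_lt_of_le (Real.rpow_pos_of_pos hΛ0 _) hΦ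
  have hMm : (Fintype.card ι : ℝ) ≤ m := by exact_mod_cast h.Mm
  have hgoodc := Sys.cut_good h.good ℓ (n + l)
  have him : (0 : ℝ) ≤ (I : ℂ).im := by rw [Complex.I_im]; exact zero_le_one
  have hmh : BMeas fun V : X → ℝ =>
      (S.cut ℓ (n + l)).Sv (dfm (Blk ℓ n l) c (pb ε Λ m) V I) :=
    Sys.bmeas_Sv_dfm hgoodc hb0.le c (Blk ℓ n l) him
  have hms : BMeas (S.sav c ℓ n) := (Sys.bmeas_Sv h.good).cav h.hc ℓ n
  have hnh : ∀ V : X → ℝ, ‖(S.cut ℓ (n + l)).Sv (dfm (Blk ℓ n l) c (pb ε Λ m) V I)‖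
      ≤ √(Fintype.card ι : ℝ) := fun V => Sys.norm_Sv_le hgoodc (adm_dfm _ c hb0.le V him)
  have hns : ∀ V : X → ℝ, ‖S.sav c ℓ n V‖ ≤ √(Fintype.card ι : ℝ) := fun V =>
    norm_cav_le h.hc (fun V => Sys.norm_Sv_le h.good (adm_real V)) ℓ n V
  have hΦdef : S.Phi c ℓ n = Fintype.card ι - ∫ V, ‖S.sav c ℓ n V‖ ^ 2 ∂(PX X c) := rfl
  have hD0 : 0 ≤ ∫ V, ‖(S.cut ℓ (n + l)).Sv (dfm (Blk ℓ n l) c (pb ε Λ m) V I)
            - S.sav c ℓ n V‖ ^ 2 ∂(PX X c) := integral_nonneg fun V => by positivity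
  have hpt : ∫ V, ‖(S.cut ℓ (n + l)).Sv (dfm (Blk ℓ n l) c (pb ε Λ m) V I)‖ ^ 2 ∂(PX X c)
      ≤ ∫ V, ‖S.sav c ℓ n V‖ ^ 2 ∂(PX X c) + (S.Phi c ℓ n / 8
        + 8 * (Fintype.card ι : ℝ) / S.Phi c ℓ n
          * ∫ V, ‖(S.cut ℓ (n + l)).Sv (dfm (Blk ℓ n l) c (pb ε Λ m) V I)
            - S.sav c ℓ n V‖ ^ 2 ∂(PX X c)) := by
    have hi1 := hms.norm_sq.integrable (PX X c)
    have hi2 := ((hmh.sub hms).norm_sq.integrable (PX X c)).const_mul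
      (8 * (Fintype.card ι : ℝ) / S.Phi c ℓ n)
    have h1 : ∫ V, ‖(S.cut ℓ (n + l)).Sv (dfm (Blk ℓ n l) c (pb ε Λ m) V I)‖ ^ 2 ∂(PX X c)
        ≤ ∫ V, (‖S.sav c ℓ n V‖ ^ 2 + (S.Phi c ℓ n / 8
        + 8 * (Fintype.card ι : ℝ) / S.Phi c ℓ n
          * ‖(S.cut ℓ (n + l)).Sv (dfm (Blk ℓ n l) c (pb ε Λ m) V I)
            - S.sav c ℓ n V‖ ^ 2)) ∂(PX X c) := by
      refine integral_mono (hmh.norm_sq.integrable _)
        (hi1.add ((integrable_const _).add hi2)) fun V => ?_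
      exact block_amgm (Nat.cast_nonneg _) hΦ0 (norm_nonneg _) (norm_nonneg _) (hns V) (hnh V)
        (norm_sub_norm_le _ _) (norm_nonneg _)
    have hi3 : Integrable (fun V => S.Phi c ℓ n / 8
        + 8 * (Fintype.card ι : ℝ) / S.Phi c ℓ n
          * ‖(S.cut ℓ (n + l)).Sv (dfm (Blk ℓ n l) c (pb ε Λ m) V I)
            - S.sav c ℓ n V‖ ^ 2) (PX X c) := (integrable_const _).add hi2
    rw [integral_add hi1 hi3, integral_add (integrable_const _) hi2, integral_const,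
      probReal_univ, one_smul, integral_const_mul] at h1
    exact h1
  have h64 : 64 * (Fintype.card ι : ℝ) ≤ m * Λ ^ (ε / 2) := by
    have h1 := mul_le_mul hMm hn.n1 (by norm_num) hm0.le
    linarith
  have hmL : 0 < m * Λ ^ (ε / 2) := mul_pos hm0 (Real.rpow_pos_of_pos hΛ0 _)
  have hM0 : (0 : ℝ) < Fintype.card ι := lt_of_lt_of_le hΦ0 hΦM
  generalize (∫ V, ‖(S.cut ℓ (n + l)).Sv (dfm (Blk ℓ n l) c (pb ε Λ m) V I)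
            - S.sav c ℓ n V‖ ^ 2 ∂(PX X c)) = D at *
  rw [div_le_iff₀ hmL]
  by_cases hcase : S.Phi c ℓ n ^ 2 ≤ D * (64 * (Fintype.card ι : ℝ))
  · exact hcase.trans (mul_le_mul_of_nonneg_left h64 hD0)
  · have hcase' := not_le.1 hcase
    have h1 : 8 * (Fintype.card ι : ℝ) / S.Phi c ℓ n * D ≤ S.Phi c ℓ n / 8 := by
      rw [div_mul_eq_mul_div, div_le_iff₀ hΦ0]
      nlinarith
    have h2 : Λ ^ (-56 : ℝ) ≤ S.Phi c ℓ n / 4 := by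
      have h3 := block_rpow_le (a := -56) (b := -8) hΛ (by norm_num)
      linarith
    generalize (∫ V, ‖(S.cut ℓ (n + l)).Sv (dfm (Blk ℓ n l) c (pb ε Λ m) V I)‖ ^ 2 ∂(PX X c))
      = H at *
    generalize (∫ V, ‖S.sav c ℓ n V‖ ^ 2 ∂(PX X c)) = s at *
    generalize (∫ V, (S.cut ℓ (n + l)).coreMass ℓ n l c (pb ε Λ m) (pq ε Λ) V ∂(PX X c))
      = CM at *
    generalize (∑ x ∈ BlkF ℓ n l,
        ∫ V, (S.cut ℓ (n + l)).kap (Blk ℓ n l) c (pb ε Λ m) (pq ε Λ) x V ^ 2 ∂(PX X c))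
      = W at *
    have h4 : S.Phi c ℓ n / 2 ≤ 4 * pb ε Λ m * Pk (R + c + 2) Δ k * CM := by linarith
    have h8 := hn.n8
    have hpow : (1 + Real.log (1 / (pb ε Λ m * pq ε Λ))) ^ 3 ≤ (1 + 2 * Real.log Λ) ^ 3 :=
      (Odd.strictMono_pow (by decide)).monotone hlog
    have hvar2 : pb ε Λ m * pq ε Λ * W ≤ CV * (1 + 2 * Real.log Λ) ^ 3 * D :=
      hvar.trans (mul_le_mul_of_nonneg_right (mul_le_mul_of_nonneg_left hpow hCV.le) hD0)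
    generalize hPP : Pk (R + c + 2) Δ k = P at *
    generalize (1 + 2 * Real.log Λ) ^ 3 = L3 at *
    generalize hcd : ((BlkF ℓ n l).card : ℝ) = cd at *
    have hcd0 : 0 ≤ cd := by rw [← hcd]; exact Nat.cast_nonneg _
    have hqΛ : pq ε Λ * Λ ^ (ε / 8) = 1 := by
      unfold pq
      rw [← Real.rpow_add hΛ0, neg_add_cancel, Real.rpow_zero]
    have hL2 : Λ ^ (ε / 2) = Λ ^ (ε / 4) * Λ ^ (ε / 8) * Λ ^ (ε / 8) := by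
      rw [← Real.rpow_add hΛ0, ← Real.rpow_add hΛ0]
      congr 1
      ring
    have hL8 : 0 < Λ ^ (ε / 8) := Real.rpow_pos_of_pos hΛ0 _
    have hL4 : 0 < Λ ^ (ε / 4) := Real.rpow_pos_of_pos hΛ0 _
    generalize S.Phi c ℓ n = Φ at *
    generalize pb ε Λ m = b at *
    generalize pq ε Λ = q at *
    rw [hL2]
    generalize Λ ^ (ε / 8) = L8 at *
    generalize Λ ^ (ε / 4) = L4 at *
    -- `Φ² ≤ 64 b² P² cd W`
    have h5 : Φ ^ 2 / 4 ≤ 16 * b ^ 2 * P ^ 2 * (cd * W) := by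
      have h6 : (Φ / 2) ^ 2 ≤ (4 * b * P * CM) ^ 2 := by
        refine pow_le_pow_left₀ (by linarith) h4 2
      have h7 : (4 * b * P * CM) ^ 2 = 16 * b ^ 2 * P ^ 2 * CM ^ 2 := by ring
      have h9 : 16 * b ^ 2 * P ^ 2 * CM ^ 2 ≤ 16 * b ^ 2 * P ^ 2 * (cd * W) :=
        mul_le_mul_of_nonneg_left hCS (by positivity)
      calc Φ ^ 2 / 4 = (Φ / 2) ^ 2 := by ring
        _ ≤ _ := h6.trans (h7.le.trans h9)
    -- multiply by `q`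
    have h10 : q * Φ ^ 2 ≤ 64 * b * P ^ 2 * cd * (b * q * W) := by
      have h11 := mul_le_mul_of_nonneg_left h5 hq0.le
      nlinarith
    have h12 : 64 * b * P ^ 2 * cd * (b * q * W) ≤ 64 * b * P ^ 2 * cd * (CV * L3 * D) :=
      mul_le_mul_of_nonneg_left hvar2 (by positivity)
    have hL30 : 0 ≤ CV * L3 * D := by
      by_contra hneg
      have h13 : 64 * b * P ^ 2 * cd * (CV * L3 * D) ≤ 0 :=
        mul_nonpos_of_nonneg_of_nonpos (by positivity) (not_le.1 hneg).le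
      have h14 : 0 < q * Φ ^ 2 := by positivity
      linarith
    have h15 : 64 * b * P ^ 2 * cd * (CV * L3 * D) ≤ 64 * P ^ 2 * (2 * (m * L4)) * (CV * L3 * D) := by
      have h16 : 64 * b * P ^ 2 * cd * (CV * L3 * D) = 64 * P ^ 2 * (b * cd) * (CV * L3 * D) := by
        ring
      rw [h16]
      exact mul_le_mul_of_nonneg_right (mul_le_mul_of_nonneg_left hcard (by positivity)) hL30
    have h17 : 64 * P ^ 2 * (2 * (m * L4)) * (CV * L3 * D)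
        = (128 * CV * P ^ 2 * L3) * (m * L4 * D) := by ring
    have h18 : (128 * CV * P ^ 2 * L3) * (m * L4 * D) ≤ L8 * (m * L4 * D) :=
      mul_le_mul_of_nonneg_right h8 (by positivity)
    have h19 : q * Φ ^ 2 ≤ L8 * (m * L4 * D) := by linarith
    calc Φ ^ 2 = L8 * (q * Φ ^ 2) := by rw [← mul_assoc, mul_comm L8 q, hqΛ, one_mul]
      _ ≤ L8 * (L8 * (m * L4 * D)) := mul_le_mul_of_nonneg_left h19 hL8.le
      _ = D * (m * (L4 * L8 * L8)) := by ring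

theorem block {c R ε : ℝ} (hc : 0 < c) (hR : 0 ≤ R) (hε : 0 < ε) (hε1 : ε ≤ 1) (Δ : ℕ) :
    ∃ Λ0 Cη : ℝ, 1 ≤ Λ0 ∧ 0 < Cη ∧ ∀ (X ι : Type) [Fintype X] [DecidableEq X] [Fintype ι]
      [DecidableEq ι] (S : Sys X ι) (ℓ : X → ℕ) (up : X → X) (η Λ : ℝ) (N m n l : ℕ), Λ0 ≤ Λ →
      BD S ℓ up c R ε η Λ Cη Δ N m n l → Λ ^ (-8 : ℝ) ≤ S.Phi c ℓ n →
      S.Phi c ℓ n ^ 2 / (m * Λ ^ ε) ≤ S.Phi c ℓ n - S.Phi c ℓ (n + l) := by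
  classical
  set k : ℕ := ⌈480 / ε⌉₊ with hkdef
  have hk : 480 / ε ≤ k := Nat.le_ceil _
  obtain ⟨CT, hCT1, htr⟩ := transfer hc (δ := ε / 100) (by positivity) (by linarith)
  obtain ⟨CV, hCV, hvar⟩ := lemma_var hc
  have hCT : 0 < CT := by linarith
  have hP : 0 < Pk (R + c + 2) Δ k := by
    unfold Pk
    positivity
  have hlogR : 0 ≤ Real.log (R + c + 3) := Real.log_nonneg (by linarith)
  obtain ⟨Λ0, hnum⟩ := num_ok hc hR hε hε1 hCT1 hCV hP (le_refl (2 * Real.log (R + c + 3) + 1)) Δ k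
  refine ⟨max 1 Λ0, 2 * Real.log (R + c + 3) + 1, le_max_left _ _, by linarith, ?_⟩
  intro X ι _ _ _ _ S ℓ up η Λ N m n l hΛge h hΦ
  have hn := hnum Λ ((le_max_right _ _).trans hΛge)
  have hprob := isProb_PX (X := X) hc
  obtain ⟨hb0, hb1, hbc, hq0, hq12, -⟩ := bd_params h hn
  obtain ⟨-, hcard⟩ := bd_card h hn hCT
  have hgoodc := Sys.cut_good h.good ℓ (n + l)
  have him : (0 : ℝ) ≤ (I : ℂ).im := by rw [Complex.I_im]; exact zero_le_one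
  have hmh : BMeas fun V : X → ℝ =>
      (S.cut ℓ (n + l)).Sv (dfm (Blk ℓ n l) c (pb ε Λ m) V I) :=
    Sys.bmeas_Sv_dfm hgoodc hb0.le c (Blk ℓ n l) him
  have hms : BMeas (S.sav c ℓ n) := (Sys.bmeas_Sv h.good).cav hc ℓ n
  have hmd : BMeas fun V : X → ℝ => S.dav c (pb ε Λ m) ℓ n l V I :=
    (Sys.bmeas_Sv_dfm h.good hb0.le c (Blk ℓ n l) him).cav hc ℓ (n + l)
  have hdep : ∀ x ∈ BlkF ℓ n l, ∀ (V : X → ℝ) (v : ℝ),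
      S.sav c ℓ n (Function.update V x v) = S.sav c ℓ n V := by
    intro x hx V v
    refine Sys.sav_dep S c ℓ n fun x' hx' => ?_
    have hne : x' ≠ x := by
      rintro rfl
      unfold BlkF at hx
      have h1 := (Finset.mem_filter.1 hx).2.1
      omega
    rw [Function.update_of_ne hne]
  have hv := hvar X ι (S.cut ℓ (n + l)) (BlkF ℓ n l) (pb ε Λ m) (pq ε Λ) (S.sav c ℓ n) hgoodc hb0
    hb1 hbc hq0 hq12 hms hdep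
  rw [coe_BlkF] at hv
  have hDl := D_lower h hn hk hCT hCV hv hΦ
  have he1 := bd_e1 h hn hk
  -- D ≤ 2 e1 + 2 e2
  have hDle : ∫ V, ‖(S.cut ℓ (n + l)).Sv (dfm (Blk ℓ n l) c (pb ε Λ m) V I)
            - S.sav c ℓ n V‖ ^ 2 ∂(PX X c)
      ≤ 2 * (∫ V, ‖(S.cut ℓ (n + l)).Sv (dfm (Blk ℓ n l) c (pb ε Λ m) V I)
        - S.dav c (pb ε Λ m) ℓ n l V I‖ ^ 2 ∂(PX X c))
        + 2 * ∫ V, ‖S.dav c (pb ε Λ m) ℓ n l V I - S.sav c ℓ n V‖ ^ 2 ∂(PX X c) := by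
    have hi1 := ((hmh.sub hmd).norm_sq.integrable (PX X c)).const_mul 2
    have hi2 := ((hmd.sub hms).norm_sq.integrable (PX X c)).const_mul 2
    rw [← integral_const_mul, ← integral_const_mul, ← integral_add hi1 hi2]
    refine integral_mono ((hmh.sub hms).norm_sq.integrable _) (hi1.add hi2) fun V => ?_
    show ‖(S.cut ℓ (n + l)).Sv (dfm (Blk ℓ n l) c (pb ε Λ m) V I) - S.sav c ℓ n V‖ ^ 2
      ≤ 2 * ‖(S.cut ℓ (n + l)).Sv (dfm (Blk ℓ n l) c (pb ε Λ m) V I)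
          - S.dav c (pb ε Λ m) ℓ n l V I‖ ^ 2
        + 2 * ‖S.dav c (pb ε Λ m) ℓ n l V I - S.sav c ℓ n V‖ ^ 2
    have h1 := norm_sub_le_norm_sub_add_norm_sub
      ((S.cut ℓ (n + l)).Sv (dfm (Blk ℓ n l) c (pb ε Λ m) V I))
      (S.dav c (pb ε Λ m) ℓ n l V I) (S.sav c ℓ n V)
    have h2 := norm_nonneg ((S.cut ℓ (n + l)).Sv (dfm (Blk ℓ n l) c (pb ε Λ m) V I)
      - S.sav c ℓ n V)
    nlinarith [sq_nonneg (‖(S.cut ℓ (n + l)).Sv (dfm (Blk ℓ n l) c (pb ε Λ m) V I)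
          - S.dav c (pb ε Λ m) ℓ n l V I‖ - ‖S.dav c (pb ε Λ m) ℓ n l V I - S.sav c ℓ n V‖)]
  -- numbers
  have hΛ := hn.n0
  have hΛ0 : 0 < Λ := by linarith
  have hΛ1 : 1 ≤ Λ := by linarith
  have hm1 : (1 : ℝ) ≤ m := by exact_mod_cast h.m1
  have hm0 : (0 : ℝ) < m := by linarith
  have hmΛ : (m : ℝ) ≤ Λ := h.mΛ
  have hMm : (Fintype.card ι : ℝ) ≤ m := by exact_mod_cast h.Mm
  have hΦM : S.Phi c ℓ n ≤ Fintype.card ι := Sys.Phi_le_card h.good hc ℓ n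
  have hΦ0 : 0 < S.Phi c ℓ n := lt_of_lt_of_le (Real.rpow_pos_of_pos hΛ0 _) hΦ
  have hM0 : (0 : ℝ) < Fintype.card ι := lt_of_lt_of_le hΦ0 hΦM
  by_contra hcon
  have hcon' := not_le.1 hcon
  rw [Sys.Phi_sub h.good hc (Nat.le_add_right n l)] at hcon'
  have hsq := Real.sq_sqrt hM0.le
  have hKb2 : (2 * √(Fintype.card ι : ℝ)) ^ 2 = 4 * (Fintype.card ι : ℝ) := by
    rw [mul_pow, hsq]
    norm_num
  have hLe : 1 ≤ Λ ^ ε := Real.one_le_rpow hΛ1 hε.le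
  have hLe0 : 0 < Λ ^ ε := by linarith
  have hLeΛ : Λ ^ ε ≤ Λ := by
    have h1 := Real.rpow_le_rpow_of_exponent_le hΛ1 hε1
    rwa [Real.rpow_one] at h1
  have hLh : 1 ≤ Λ ^ (ε / 2) := Real.one_le_rpow hΛ1 (by linarith)
  have hLhΛ : Λ ^ (ε / 2) ≤ Λ := by
    have h1 := Real.rpow_le_rpow_of_exponent_le hΛ1 (show ε / 2 ≤ 1 by linarith)
    rwa [Real.rpow_one] at h1
  have hΦsq : Λ ^ (-16 : ℝ) ≤ S.Phi c ℓ n ^ 2 := by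
    have h1 : Λ ^ (-16 : ℝ) = (Λ ^ (-8 : ℝ)) ^ 2 := by
      rw [← Real.rpow_natCast, ← Real.rpow_mul hΛ0.le]
      norm_num
    rw [h1]
    exact pow_le_pow_left₀ (Real.rpow_pos_of_pos hΛ0 _).le hΦ 2
  set a1 : ℝ := S.Phi c ℓ n ^ 2 / (4 * (Fintype.card ι : ℝ) * (m * Λ ^ ε)) with ha1def
  have hden : 0 < 4 * (Fintype.card ι : ℝ) * (m * Λ ^ ε) := by positivity
  have ha1pos : 0 < a1 := by positivity
  have hvh : 4 * (Fintype.card ι : ℝ) * a1 = S.Phi c ℓ n ^ 2 / (m * Λ ^ ε) := by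
    rw [ha1def]
    field_simp
  have ha1low : Λ ^ (-20 : ℝ) ≤ a1 := by
    rw [ha1def, le_div_iff₀ hden]
    have h1 : 4 * (Fintype.card ι : ℝ) * (m * Λ ^ ε) ≤ 4 * (Λ * (Λ * Λ)) := by
      have h2 : (Fintype.card ι : ℝ) ≤ Λ := hMm.trans hmΛ
      have h3 : (m : ℝ) * Λ ^ ε ≤ Λ * Λ := mul_le_mul hmΛ hLeΛ hLe0.le hΛ0.le
      have h4 : (Fintype.card ι : ℝ) * (m * Λ ^ ε) ≤ Λ * (Λ * Λ) :=
        mul_le_mul h2 h3 (by positivity) hΛ0.le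
      linarith
    have h5 : 4 * (Λ * (Λ * Λ)) ≤ Λ ^ (4 : ℝ) := by
      have h6 : Λ ^ (4 : ℝ) = Λ * (Λ * (Λ * Λ)) := by
        rw [show (4 : ℝ) = ((4 : ℕ) : ℝ) by norm_num, Real.rpow_natCast]
        ring
      rw [h6]
      exact mul_le_mul_of_nonneg_right (by linarith) (by positivity)
    calc Λ ^ (-20 : ℝ) * (4 * (Fintype.card ι : ℝ) * (m * Λ ^ ε))
        ≤ Λ ^ (-20 : ℝ) * Λ ^ (4 : ℝ) :=
          mul_le_mul_of_nonneg_left (h1.trans h5) (Real.rpow_pos_of_pos hΛ0 _).le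
      _ = Λ ^ (-16 : ℝ) := by
          rw [← Real.rpow_add hΛ0]
          norm_num
      _ ≤ _ := hΦsq
  have hb2 : Λ ^ (3 * ε / 2) / CT ≤ 1 / (CT * pb ε Λ m ^ 2) := by
    have h1 : pb ε Λ m ^ 2 * Λ ^ (3 * ε / 2) ≤ 1 := by
      unfold pb
      rw [div_pow, ← Real.rpow_natCast, ← Real.rpow_mul hΛ0.le, div_mul_eq_mul_div,
        ← Real.rpow_add hΛ0]
      have h2 : -(3 * ε / 4) * ((2 : ℕ) : ℝ) + 3 * ε / 2 = 0 := by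
        push_cast
        ring
      rw [h2, Real.rpow_zero, div_le_one (by positivity)]
      nlinarith
    rw [div_le_div_iff₀ hCT (by positivity)]
    nlinarith
  have hexp : Real.exp (-(1 / (CT * pb ε Λ m ^ 2))) ≤ a1 := by
    calc Real.exp (-(1 / (CT * pb ε Λ m ^ 2))) ≤ Real.exp (-(Λ ^ (3 * ε / 2) / CT)) :=
          Real.exp_le_exp.2 (neg_le_neg hb2)
      _ ≤ Λ ^ (-30 : ℝ) := hn.n9
      _ ≤ Λ ^ (-20 : ℝ) := Real.rpow_le_rpow_of_exponent_le hΛ1 (by norm_num)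
      _ ≤ a1 := ha1low
  have hvhK : S.Phi c ℓ n ^ 2 / (m * Λ ^ ε) ≤ 4 * (Fintype.card ι : ℝ) := by
    rw [div_le_iff₀ (by positivity)]
    have h1 : S.Phi c ℓ n ^ 2 ≤ (Fintype.card ι : ℝ) * m := by
      rw [sq]
      exact mul_le_mul hΦM (hΦM.trans hMm) hΦ0.le hM0.le
    have h2 : (Fintype.card ι : ℝ) * m ≤ 4 * (Fintype.card ι : ℝ) * (m * Λ ^ ε) := by
      have h3 : (m : ℝ) ≤ m * Λ ^ ε := le_mul_of_one_le_right hm0.le hLe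
      nlinarith
    exact h1.trans h2
  have hT := htr X (EuclideanSpace ℂ (ι × ι)) (BlkF ℓ n l) (pb ε Λ m)
    (2 * √(Fintype.card ι : ℝ)) (S.Phi c ℓ n ^ 2 / (m * Λ ^ ε))
    (fun V z => S.dav c (pb ε Λ m) ℓ n l V z - S.sav c ℓ n V)
    (fun V => S.sav c ℓ (n + l) V - S.sav c ℓ n V) hb0 hcard
    (by positivity) (by rw [coe_BlkF]; exact Sys.fam_dav h.good hc hb0 ℓ n l) hcon'.le
    (by
      rw [hKb2, ← hvh]
      exact mul_le_mul_of_nonneg_left hexp (by positivity))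
    (by rw [hKb2]; exact hvhK)
  have hrat : S.Phi c ℓ n ^ 2 / (m * Λ ^ ε) / (4 * (Fintype.card ι : ℝ)) = a1 := by
    rw [← hvh]
    field_simp
  rw [hKb2, hrat] at hT
  have ha1pow : a1 ^ (1 - ε / 100) ≤ a1 * Λ ^ (ε / 5) := by
    rw [sub_eq_add_neg, Real.rpow_add ha1pos, Real.rpow_one]
    refine mul_le_mul_of_nonneg_left ?_ ha1pos.le
    calc a1 ^ (-(ε / 100)) ≤ (Λ ^ (-20 : ℝ)) ^ (-(ε / 100)) :=
          Real.rpow_le_rpow_of_nonpos (Real.rpow_pos_of_pos hΛ0 _) ha1low (by linarith)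
      _ = Λ ^ (ε / 5) := by
          rw [← Real.rpow_mul hΛ0.le]
          congr 1
          ring
  have hT2 : ∫ V, ‖S.dav c (pb ε Λ m) ℓ n l V I - S.sav c ℓ n V‖ ^ 2 ∂(PX X c)
      ≤ CT * (S.Phi c ℓ n ^ 2 / (m * Λ ^ ε)) * Λ ^ (ε / 5) := by
    refine hT.trans ?_
    rw [← hvh]
    have h1 : CT * (4 * (Fintype.card ι : ℝ)) * a1 ^ (1 - ε / 100)
        ≤ CT * (4 * (Fintype.card ι : ℝ)) * (a1 * Λ ^ (ε / 5)) :=
      mul_le_mul_of_nonneg_left ha1pow (by positivity)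
    calc _ ≤ _ := h1
      _ = _ := by ring
  have hA : 4 * Λ ^ (-56 : ℝ) ≤ S.Phi c ℓ n ^ 2 / (m * Λ ^ (ε / 2)) := by
    rw [le_div_iff₀ (by positivity)]
    have h1 : (m : ℝ) * Λ ^ (ε / 2) ≤ Λ * Λ := mul_le_mul hmΛ hLhΛ (by positivity) hΛ0.le
    have h2 : Λ ^ (2 : ℝ) = Λ * Λ := by
      rw [show (2 : ℝ) = ((2 : ℕ) : ℝ) by norm_num, Real.rpow_natCast]
      ring
    calc 4 * Λ ^ (-56 : ℝ) * (m * Λ ^ (ε / 2)) ≤ 4 * Λ ^ (-56 : ℝ) * Λ ^ (2 : ℝ) := by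
          rw [h2]
          exact mul_le_mul_of_nonneg_left h1 (by positivity)
      _ = 4 * Λ ^ (-54 : ℝ) := by
          rw [mul_assoc, ← Real.rpow_add hΛ0]
          norm_num
      _ ≤ Λ ^ (-16 : ℝ) := block_rpow_le hΛ (by norm_num)
      _ ≤ _ := hΦsq
  -- the contradiction
  have hfin : S.Phi c ℓ n ^ 2 / (m * Λ ^ (ε / 2))
      ≤ 4 * (CT * (S.Phi c ℓ n ^ 2 / (m * Λ ^ ε)) * Λ ^ (ε / 5)) := by
    linarith
  have hsplit : Λ ^ ε = Λ ^ (ε / 2) * Λ ^ (ε / 5) * Λ ^ (3 * ε / 10) := by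
    rw [← Real.rpow_add hΛ0, ← Real.rpow_add hΛ0]
    congr 1
    ring
  have h10 := hn.n10
  have hL5 : 0 < Λ ^ (ε / 5) := Real.rpow_pos_of_pos hΛ0 _
  have hL2 : 0 < Λ ^ (ε / 2) := Real.rpow_pos_of_pos hΛ0 _
  have hL310 : 0 < Λ ^ (3 * ε / 10) := Real.rpow_pos_of_pos hΛ0 _
  rw [hsplit] at hfin
  generalize Λ ^ (ε / 5) = L5 at *
  generalize Λ ^ (ε / 2) = L2 at *
  generalize Λ ^ (3 * ε / 10) = L3 at *
  generalize S.Phi c ℓ n = Φ at *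
  have h11 : 4 * (CT * (Φ ^ 2 / (m * (L2 * L5 * L3))) * L5)
      = (4 * CT / L3) * (Φ ^ 2 / (m * L2)) := by
    field_simp
  rw [h11] at hfin
  have h12 : 4 * CT / L3 < 1 := (div_lt_one hL310).2 h10
  have h13 : 0 < Φ ^ 2 / (m * L2) := by positivity
  nlinarith

end Pool.Agent.Lib.MP_562b47_mp.Str
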