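import Pool.Agent.Lib.MP_562b47_mp.Str.Ward

/-!
Module STR-Cont (MP_562b47_mp, strips).  Continuity and differentiability.

`G ν = (det K ν)⁻¹ • adjugate (K ν)`, the entries of `K ν` are affine in `ν`, `det K ν ≠ 0`
on admissible `ν`.
-/

open MeasureTheory Matrix Complex

namespace Pool.Agent.Lib.MP_562b47_mp.Str

variable {X ι : Type*} [Fintype X] [DecidableEq X] [Fintype ι] [DecidableEq ι]

namespace Sys

variable {S : Sys X ι}

omit [DecidableEq ι] [Fintype X] in
private theorem cont_K {Y : Type*} [TopologicalSpace Y] {ν : Y → X → ℂ}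
    (hc : ∀ x, Continuous fun y => ν y x) : Continuous fun y => S.K (ν y) := by
  unfold K
  refine (continuous_const.add (Continuous.matrix_diagonal ?_)).add continuous_const
  exact continuous_pi fun x => (hc x).add continuous_const

theorem continuous_G (hS : S.Good) {Y : Type*} [TopologicalSpace Y] {ν : Y → X → ℂ}
    (hc : ∀ x, Continuous fun y => ν y x) (hν : ∀ y, Adm (ν y)) (p q : X) :
    Continuous fun y => S.G (ν y) p q := by
  have h1 : ∀ y, S.G (ν y) p q = ((S.K (ν y)).det)⁻¹ * (S.K (ν y)).adjugate p q := by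
    intro y
    unfold G
    rw [Matrix.inv_def, Ring.inverse_eq_inv', Matrix.smul_apply, smul_eq_mul]
  simp_rw [h1]
  have hK := cont_K (S := S) hc
  refine (hK.matrix_det.inv₀ fun y => det_ne hS (hν y)).mul ?_
  exact hK.matrix_adjugate.matrix_elem p q

private theorem cont_w (hS : S.Good) {Y : Type*} [TopologicalSpace Y] {ν : Y → X → ℂ}
    (hc : ∀ x, Continuous fun y => ν y x) (hν : ∀ y, Adm (ν y)) (x : X) (s : ι) :
    Continuous fun y => S.w (ν y) x s := by
  unfold w
  simp_rw [Matrix.mul_apply]
  exact continuous_finsetSum _ fun z _ => (continuous_G hS hc hν x z).mul continuous_const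

theorem continuous_wv (hS : S.Good) {Y : Type*} [TopologicalSpace Y] {ν : Y → X → ℂ}
    (hc : ∀ x, Continuous fun y => ν y x) (hν : ∀ y, Adm (ν y)) (x : X) :
    Continuous fun y => S.wv (ν y) x :=
  (PiLp.continuous_toLp 2 _).comp (continuous_pi fun s => cont_w hS hc hν x s)

theorem continuous_Sv (hS : S.Good) {Y : Type*} [TopologicalSpace Y] {ν : Y → X → ℂ}
    (hc : ∀ x, Continuous fun y => ν y x) (hν : ∀ y, Adm (ν y)) :
    Continuous fun y => S.Sv (ν y) := by
  refine (PiLp.continuous_toLp 2 _).comp (continuous_pi fun p => ?_)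
  unfold Sm
  simp_rw [Matrix.sub_apply, Matrix.smul_apply, Matrix.mul_apply, smul_eq_mul]
  refine continuous_const.sub (continuous_const.mul ?_)
  exact continuous_finsetSum _ fun z _ => continuous_const.mul (cont_w hS hc hν z p.2)

private theorem diff_det {M : ℂ → Matrix X X ℂ} {z0 : ℂ}
    (h : ∀ i j, DifferentiableAt ℂ (fun z => M z i j) z0) :
    DifferentiableAt ℂ (fun z => (M z).det) z0 := by
  simp_rw [Matrix.det_apply]
  refine DifferentiableAt.fun_sum fun σ _ => ?_
  refine DifferentiableAt.const_smul ?_ _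
  exact DifferentiableAt.fun_finsetProd fun i _ => h _ _

private theorem diff_adj {M : ℂ → Matrix X X ℂ} {z0 : ℂ}
    (h : ∀ i j, DifferentiableAt ℂ (fun z => M z i j) z0) (p q : X) :
    DifferentiableAt ℂ (fun z => (M z).adjugate p q) z0 := by
  simp_rw [Matrix.adjugate_apply]
  refine diff_det fun i j => ?_
  by_cases hi : i = q
  · subst hi
    simp_rw [Matrix.updateRow_self]
    exact differentiableAt_const _
  · simp_rw [Matrix.updateRow_ne hi]
    exact h i j

omit [DecidableEq ι] [Fintype X] in
private theorem diff_K (α β : X → ℂ) (z0 : ℂ) (i j : X) :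
    DifferentiableAt ℂ (fun z : ℂ => S.K (fun x => α x + z * β x) i j) z0 := by
  unfold K
  simp_rw [Matrix.add_apply]
  refine ((differentiableAt_const _).add ?_).add (differentiableAt_const _)
  by_cases hij : i = j
  · subst hij
    simp_rw [Matrix.diagonal_apply_eq]
    exact ((differentiableAt_const _).add (differentiableAt_id.mul_const _)).add
      (differentiableAt_const _)
  · simp_rw [Matrix.diagonal_apply_ne _ hij]
    exact differentiableAt_const _

/-- an affine family of potentials, admissible at `z0` -/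
theorem differentiableAt_Sv (hS : S.Good) (α β : X → ℂ) {z0 : ℂ}
    (hν : Adm fun x => α x + z0 * β x) :
    DifferentiableAt ℂ (fun z : ℂ => S.Sv fun x => α x + z * β x) z0 := by
  have hG : ∀ p q : X, DifferentiableAt ℂ (fun z : ℂ => S.G (fun x => α x + z * β x) p q) z0 := by
    intro p q
    have h1 : ∀ z : ℂ, S.G (fun x => α x + z * β x) p q =
        ((S.K (fun x => α x + z * β x)).det)⁻¹ * (S.K (fun x => α x + z * β x)).adjugate p q := by
      intro z
      unfold G
      rw [Matrix.inv_def, Ring.inverse_eq_inv', Matrix.smul_apply, smul_eq_mul]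
    simp_rw [h1]
    exact ((diff_det (diff_K (S := S) α β z0)).inv (det_ne hS hν)).mul
      (diff_adj (diff_K (S := S) α β z0) p q)
  have hw : ∀ (x : X) (s : ι),
      DifferentiableAt ℂ (fun z : ℂ => S.w (fun x => α x + z * β x) x s) z0 := by
    intro x s
    unfold w
    simp_rw [Matrix.mul_apply]
    exact DifferentiableAt.fun_sum fun z _ => (hG x z).mul_const _
  rw [differentiableAt_euclidean]
  intro p
  show DifferentiableAt ℂ (fun z : ℂ => S.Sm (fun x => α x + z * β x) p.1 p.2) z0
  unfold Sm
  simp_rw [Matrix.sub_apply, Matrix.smul_apply, Matrix.mul_apply, smul_eq_mul]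
  refine (differentiableAt_const _).sub (DifferentiableAt.const_mul ?_ _)
  exact DifferentiableAt.fun_sum fun z _ => (hw z p.2).const_mul _

end Sys

end Pool.Agent.Lib.MP_562b47_mp.Str
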