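import Pool.Agent.Lib.MP_562b47_mp.Str.CoreB
import Pool.Agent.Lib.MP_562b47_mp.Str.Cont

/-!
Module STR-Expect (MP_562b47_mp, strips).  The two estimates at the level of expectations.
`h V = (S.cut ℓ (n+l)).Sv (dfm (Blk ℓ n l) c b V I)`, `M = card ι`, `P = Pk (R+c+2) Δ k`.

PROOF of `expect_influ`.  `S.dav c b ℓ n l V I` is the average over `V'` of
`S.Sv (dfm Blk c b (mix ℓ (n+l) V V') I)`.  For `V ∈ GE` (then `V` is in the cube) and every `V'`:
`influence` with `ν = dfm (mix V V')`, `ν0 = dfm V` (they agree on `ℓ ≤ n + l`; `bp_dfm`), so the norm of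
the difference of the averages is at most `εJ = R P/(b q) 2^{-J} M` (`norm_integral_le_of_norm_le_const`,
probability measure; integrability: `continuous_Sv`, bounded).  For `V ∉ GE`: both terms have norm
`≤ √M`, so the square of the difference is `≤ 4 M`.  Integrate:
`∫ ‖h - dav‖² ≤ εJ² + 4 M P(GEᶜ)`.
PROOF of `expect_core`.  On `GE`: `core_bound`; off `GE`: `M - ‖h‖² ≤ M`; and the sum over the core is
nonnegative everywhere; integrate (all functions are bounded and measurable: `h` is continuous in `V`;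
the sum over the core: indicator of a measurable set times a continuous function, bounded on the cube:
the field `wv` is a continuous function on the compact cube).
-/

open MeasureTheory Matrix Complex

namespace Pool.Agent.Lib.MP_562b47_mp.Str

variable {X ι : Type*} [Fintype X] [DecidableEq X] [Fintype ι] [DecidableEq ι]

namespace Sys

variable {S : Sys X ι} {ℓ : X → ℕ} {up : X → X} {R c b q η : ℝ} {Δ N n l k : ℕ}

/-- the density of the field over the core sites of the block -/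
noncomputable def coreMass (T : Sys X ι) (ℓ : X → ℕ) (n l : ℕ) (c b q : ℝ) (V : X → ℝ) : ℝ :=
  ∑ x with (n < ℓ x ∧ ℓ x ≤ n + l), (open Classical in if V x ∈ core c q then
    ‖T.wv (dfm (Blk ℓ n l) c b V I) x‖ ^ 2 else 0)

theorem integrable_core_term {T : Sys X ι} (hT : T.Good) (hc : 0 < c) (hb : 0 ≤ b) (B : Set X)
    (x : X) :
    Integrable (fun V : X → ℝ => open Classical in if V x ∈ core c q then
      ‖T.wv (dfm B c b V I) x‖ ^ 2 else 0) (PX X c) := by
  classical
  have := isProb_PX (X := X) hc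
  have hadm : ∀ V : X → ℝ, Adm (dfm B c b V I) := fun V => adm_dfm B c hb V (by simp)
  have hcont : Continuous fun V : X → ℝ => ‖T.wv (dfm B c b V I) x‖ ^ 2 :=
    (continuous_wv hT (fun x => continuous_dfm B c b I x) hadm x).norm.pow 2
  have hm : Measurable (fun V : X → ℝ => if V x ∈ core c q then
      ‖T.wv (dfm B c b V I) x‖ ^ 2 else 0) :=
    Measurable.ite ((measurable_pi_apply x) (measurableSet_core c q)) hcont.measurable
      measurable_const
  have hy := hT.pos x
  have hbd : ∀ V : X → ℝ, ‖T.wv (dfm B c b V I) x‖ ^ 2 ≤ 1 / T.y x := by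
    intro V
    refine (norm_wv_sq_le hT (hadm V) x).trans ?_
    rw [le_div_iff₀ hy, mul_comm]
    refine le_trans ?_ (norm_G_le hT (hadm V) x)
    exact mul_le_mul_of_nonneg_right (by linarith [hadm V x]) (norm_nonneg _)
  refine Integrable.of_bound (hm.aestronglyMeasurable.congr ?_) (1 / T.y x)
    (Filter.Eventually.of_forall fun V => ?_)
  · exact Filter.Eventually.of_forall fun V => by
      beta_reduce
      split_ifs <;> rfl
  · have h0 : 0 ≤ ‖T.wv (dfm B c b V I) x‖ ^ 2 := by positivity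
    have h1 : 0 ≤ 1 / T.y x := by positivity
    split_ifs
    · rw [Real.norm_eq_abs, abs_of_nonneg h0]
      exact hbd V
    · rw [norm_zero]
      exact h1

private theorem Expect_integrable_coreMass {T : Sys X ι} (hT : T.Good) (hc : 0 < c) (hb : 0 ≤ b) :
    Integrable (fun V : X → ℝ => T.coreMass ℓ n l c b q V) (PX X c) := by
  unfold coreMass
  exact integrable_finsetSum _ fun x _ => integrable_core_term hT hc hb _ x

omit [DecidableEq ι] in
private theorem Expect_coreMass_nonneg (T : Sys X ι) (V : X → ℝ) :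
    0 ≤ T.coreMass ℓ n l c b q V := by
  unfold coreMass
  refine Finset.sum_nonneg fun x _ => ?_
  split_ifs
  · positivity
  · exact le_rfl

private theorem Expect_mix_cont (ℓ : X → ℕ) (N' : ℕ) (V : X → ℝ) (x : X) :
    Continuous fun V' : X → ℝ => mix ℓ N' V V' x := by
  by_cases h : ℓ x ≤ N'
  · simp_rw [mix_of_le h]
    exact continuous_const
  · simp_rw [mix_of_lt (not_le.1 h)]
    exact continuous_apply x

private theorem Expect_Sv_integrable (hS : S.Good) (hc : 0 < c) (hb : 0 ≤ b) (B : Set X) (N' : ℕ)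
    (V : X → ℝ) :
    Integrable (fun V' : X → ℝ => S.Sv (dfm B c b (mix ℓ N' V V') I)) (PX X c) := by
  have := isProb_PX (X := X) hc
  have hadm : ∀ V : X → ℝ, Adm (dfm B c b V I) := fun V => adm_dfm B c hb V (by simp)
  have hcont : Continuous fun V' : X → ℝ => S.Sv (dfm B c b (mix ℓ N' V V') I) :=
    continuous_Sv hS (fun x => (continuous_dfm B c b I x).comp
      (continuous_pi fun x => Expect_mix_cont ℓ N' V x)) (fun V' => hadm _)
  exact Integrable.of_bound hcont.aestronglyMeasurable (√(Fintype.card ι : ℝ))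
    (Filter.Eventually.of_forall fun V' => norm_Sv_le hS (hadm _))

private theorem Expect_ind_integrable (hc : 0 < c) (F : X → Finset X) (A B : ℝ) :
    Integrable (fun V : X → ℝ => A + B * (GE c q F ℓ n l k)ᶜ.indicator (fun _ => (1 : ℝ)) V)
      (PX X c) := by
  have := isProb_PX (X := X) hc
  refine (integrable_const A).add (Integrable.const_mul ?_ B)
  exact (integrable_const 1).indicator (measurableSet_GE c q F ℓ n l k).compl

private theorem Expect_ind_integral (hc : 0 < c) (F : X → Finset X) (A B : ℝ) :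
    ∫ V, (A + B * (GE c q F ℓ n l k)ᶜ.indicator (fun _ => (1 : ℝ)) V) ∂(PX X c) =
      A + B * (PX X c).real (GE c q F ℓ n l k)ᶜ := by
  have := isProb_PX (X := X) hc
  have hm := (measurableSet_GE c q F ℓ n l k).compl
  rw [integral_add (integrable_const A)
    (Integrable.const_mul ((integrable_const 1).indicator hm) B), integral_const_mul,
    integral_indicator_const _ hm, integral_const]
  simp

theorem expect_influ (hS : S.Good) (hR : 0 ≤ R) (hL : S.Layered ℓ up R Δ N) (hN : n + l ≤ N)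
    (src : ∀ x, n < ℓ x → ∀ s, S.U x s = 0) (yle : ∀ x, ℓ x ≤ n + l → S.y x ≤ 1)
    (hc : 0 < c) (hb : 0 < b) (hb1 : b ≤ 1) (hq : 0 < q) (hq1 : q ≤ 1) {r J : ℕ} (hr1 : 2 ≤ r)
    (hr : 2 * R * Pk (R + c + 2) Δ k ≤ (r - 1) * (b * q)) (hj : J * r + 2 * k + 4 ≤ l) :
    ∫ V, ‖(S.cut ℓ (n + l)).Sv (dfm (Blk ℓ n l) c b V I) - S.dav c b ℓ n l V I‖ ^ 2 ∂(PX X c)
      ≤ (R * Pk (R + c + 2) Δ k / (b * q) * ((1 / 2) ^ J * Fintype.card ι)) ^ 2
        + 4 * Fintype.card ι * (PX X c).real (GE c q (S.Fs up) ℓ n l k)ᶜ := by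
  classical
  have := isProb_PX (X := X) hc
  set A := R * Pk (R + c + 2) Δ k / (b * q) * ((1 / 2) ^ J * Fintype.card ι) with hA
  have hP : 0 ≤ Pk (R + c + 2) Δ k := by unfold Pk; positivity
  have hA0 : 0 ≤ A := by positivity
  have hadm : ∀ V : X → ℝ, Adm (dfm (Blk ℓ n l) c b V I) :=
    fun V => adm_dfm _ c hb.le V (by simp)
  rw [← Expect_ind_integral hc (S.Fs up) (A ^ 2) (4 * Fintype.card ι)]
  refine integral_mono_of_nonneg (Filter.Eventually.of_forall fun V => by positivity)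
    (Expect_ind_integrable hc _ _ _) (Filter.Eventually.of_forall fun V => ?_)
  beta_reduce
  by_cases hV : V ∈ GE c q (S.Fs up) ℓ n l k
  · rw [Set.indicator_of_notMem (by simpa using hV), mul_zero, add_zero]
    refine pow_le_pow_left₀ (norm_nonneg _) ?_ 2
    have e : (S.cut ℓ (n + l)).Sv (dfm (Blk ℓ n l) c b V I) - S.dav c b ℓ n l V I =
        ∫ V', ((S.cut ℓ (n + l)).Sv (dfm (Blk ℓ n l) c b V I) -
          S.Sv (dfm (Blk ℓ n l) c b (mix ℓ (n + l) V V') I)) ∂(PX X c) := by
      rw [integral_sub (integrable_const _) (Expect_Sv_integrable hS hc hb.le _ _ V),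
        integral_const]
      simp [dav, cav]
    rw [e]
    have h1 : ∀ V' : X → ℝ, ‖(S.cut ℓ (n + l)).Sv (dfm (Blk ℓ n l) c b V I) -
          S.Sv (dfm (Blk ℓ n l) c b (mix ℓ (n + l) V V') I)‖ ≤ A := by
      intro V'
      rw [norm_sub_rev]
      have hVc : ∀ x, n < ℓ x → ℓ x ≤ n + l → V x ∈ Set.Icc (-c) c := fun x _ _ => hV.1 x
      refine influence hS hR hL hN src yle hc hb hq hV
        (bp_dfm hc hb hb1 hq hq1 hVc fun x hx => mix_of_le hx V V')
        (bp_dfm hc hb hb1 hq hq1 hVc fun x _ => rfl) ?_ hr1 hr hj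
      intro x hx
      unfold dfm
      rw [mix_of_le hx]
    have h2 := norm_integral_le_of_norm_le_const (μ := PX X c)
      (Filter.Eventually.of_forall h1)
    simpa using h2
  · rw [Set.indicator_of_mem (by simpa using hV), mul_one]
    have h1 : ‖(S.cut ℓ (n + l)).Sv (dfm (Blk ℓ n l) c b V I)‖ ≤ √(Fintype.card ι : ℝ) :=
      norm_Sv_le (cut_good hS _ _) (hadm V)
    have h2 : ‖S.dav c b ℓ n l V I‖ ≤ √(Fintype.card ι : ℝ) := by
      have h3 := norm_integral_le_of_norm_le_const (μ := PX X c)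
        (f := fun V' => S.Sv (dfm (Blk ℓ n l) c b (mix ℓ (n + l) V V') I))
        (C := √(Fintype.card ι : ℝ))
        (Filter.Eventually.of_forall fun V' => norm_Sv_le hS (hadm _))
      simpa [dav, cav] using h3
    have h3 : ‖(S.cut ℓ (n + l)).Sv (dfm (Blk ℓ n l) c b V I) - S.dav c b ℓ n l V I‖ ≤
        2 * √(Fintype.card ι : ℝ) := by
      refine (norm_sub_le _ _).trans ?_
      linarith
    have h4 := pow_le_pow_left₀ (norm_nonneg _) h3 2
    rw [mul_pow, Real.sq_sqrt (Nat.cast_nonneg _)] at h4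
    have h5 : 0 ≤ A ^ 2 := by positivity
    linarith

theorem expect_core (hS : S.Good) (hR : 0 ≤ R) (hL : S.Layered ℓ up R Δ N) (hN : n + l ≤ N)
    (src : ∀ x, n < ℓ x → ∀ s, S.U x s = 0) (hU : ∀ x, ∑ s, S.U x s ^ 2 ≤ 1)
    (hη : 0 ≤ η) (hη1 : η ≤ 1) (yle : ∀ x, ℓ x ≤ n + l → S.y x ≤ η)
    (hc : 0 < c) (hb : 0 < b) (hb1 : b ≤ 1) (hq : 0 < q) (hq1 : q ≤ 1) {r J : ℕ} (hr1 : 2 ≤ r)
    (hr : 2 * R * Pk (R + c + 2) Δ k ≤ (r - 1) * (b * q)) (hj : J * r + 2 * k + 4 ≤ l) :
    (Fintype.card ι : ℝ)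
        - ∫ V, ‖(S.cut ℓ (n + l)).Sv (dfm (Blk ℓ n l) c b V I)‖ ^ 2 ∂(PX X c)
      ≤ 4 * b * Pk (R + c + 2) Δ k
          * ∫ V, (S.cut ℓ (n + l)).coreMass ℓ n l c b q V ∂(PX X c)
        + (1 / 2) ^ J * Fintype.card ι
        + 4 * η * Aint R c b q Δ k n (Fintype.card ι)
            (Finset.univ.filter fun x => ℓ x ≤ n).card
        + Fintype.card ι * (PX X c).real (GE c q (S.Fs up) ℓ n l k)ᶜ := by
  classical
  have := isProb_PX (X := X) hc
  have hT : (S.cut ℓ (n + l)).Good := cut_good hS _ _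
  have hadm : ∀ V : X → ℝ, Adm (dfm (Blk ℓ n l) c b V I) :=
    fun V => adm_dfm _ c hb.le V (by simp)
  have hP : 0 ≤ Pk (R + c + 2) Δ k := by unfold Pk; positivity
  have hAint : 0 ≤ Aint R c b q Δ k n (Fintype.card ι)
      (Finset.univ.filter fun x => ℓ x ≤ n).card := by
    unfold Aint
    positivity
  set C0 : ℝ := (1 / 2) ^ J * Fintype.card ι
        + 4 * η * Aint R c b q Δ k n (Fintype.card ι)
            (Finset.univ.filter fun x => ℓ x ≤ n).card with hC0
  have hC00 : 0 ≤ C0 := by positivity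
  have hcontS : Continuous fun V : X → ℝ =>
      ‖(S.cut ℓ (n + l)).Sv (dfm (Blk ℓ n l) c b V I)‖ ^ 2 :=
    (continuous_Sv hT (fun x => continuous_dfm _ c b I x) hadm).norm.pow 2
  have hint : Integrable (fun V : X → ℝ =>
      ‖(S.cut ℓ (n + l)).Sv (dfm (Blk ℓ n l) c b V I)‖ ^ 2) (PX X c) := by
    refine Integrable.of_bound hcontS.aestronglyMeasurable (Fintype.card ι : ℝ)
      (Filter.Eventually.of_forall fun V => ?_)
    rw [Real.norm_eq_abs, abs_of_nonneg (by positivity)]
    exact norm_Sv_sq_le hT (hadm V)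
  have e1 : (Fintype.card ι : ℝ)
        - ∫ V, ‖(S.cut ℓ (n + l)).Sv (dfm (Blk ℓ n l) c b V I)‖ ^ 2 ∂(PX X c) =
      ∫ V, ((Fintype.card ι : ℝ) -
        ‖(S.cut ℓ (n + l)).Sv (dfm (Blk ℓ n l) c b V I)‖ ^ 2) ∂(PX X c) := by
    rw [integral_sub (integrable_const _) hint, integral_const]
    simp
  have hcm := Expect_integrable_coreMass (ℓ := ℓ) (n := n) (l := l) (q := q) hT hc hb.le
  have hind := Expect_ind_integrable (ℓ := ℓ) (n := n) (l := l) (k := k) (q := q) hc (S.Fs up) C0
    (Fintype.card ι : ℝ)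
  have e2 : 4 * b * Pk (R + c + 2) Δ k
          * ∫ V, (S.cut ℓ (n + l)).coreMass ℓ n l c b q V ∂(PX X c)
        + (1 / 2) ^ J * Fintype.card ι
        + 4 * η * Aint R c b q Δ k n (Fintype.card ι)
            (Finset.univ.filter fun x => ℓ x ≤ n).card
        + Fintype.card ι * (PX X c).real (GE c q (S.Fs up) ℓ n l k)ᶜ =
      ∫ V, (4 * b * Pk (R + c + 2) Δ k * (S.cut ℓ (n + l)).coreMass ℓ n l c b q V +
        (C0 + (Fintype.card ι : ℝ) *
          (GE c q (S.Fs up) ℓ n l k)ᶜ.indicator (fun _ => (1 : ℝ)) V)) ∂(PX X c) := by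
    rw [integral_add (hcm.const_mul _) hind, integral_const_mul,
      Expect_ind_integral hc (S.Fs up) C0 (Fintype.card ι : ℝ), hC0]
    ring
  rw [e1, e2]
  refine integral_mono ((integrable_const _).sub hint) ((hcm.const_mul _).add hind) fun V => ?_
  beta_reduce
  have hcm0 := Expect_coreMass_nonneg (ℓ := ℓ) (n := n) (l := l) (c := c) (b := b) (q := q)
    (S.cut ℓ (n + l)) V
  by_cases hV : V ∈ GE c q (S.Fs up) ℓ n l k
  · rw [Set.indicator_of_notMem (by simpa using hV), mul_zero, add_zero]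
    have h1 := core_bound hS hR hL hN src hU hη hη1 yle hc hb hb1 hq hq1 hV hr1 hr hj
    rw [hC0, ← add_assoc]
    exact h1
  · rw [Set.indicator_of_mem (by simpa using hV), mul_one]
    have h1 : 0 ≤ ‖(S.cut ℓ (n + l)).Sv (dfm (Blk ℓ n l) c b V I)‖ ^ 2 := by positivity
    have h2 : 0 ≤ 4 * b * Pk (R + c + 2) Δ k * (S.cut ℓ (n + l)).coreMass ℓ n l c b q V := by
      positivity
    linarith

end Sys

end Pool.Agent.Lib.MP_562b47_mp.Str
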