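import Pool.Agent.Lib.MP_562b47_mp.Str.Single
import Pool.Agent.Lib.MP_562b47_mp.Str.Expect

/-!
Module STR-CS (MP_562b47_mp, strips).  The total density of the field at the core sites against the
second moments of the mean densities.

PROOF.  `Blk ℓ n l` is the coercion of the finset `BlkF`.  `integral_update` in the coordinate `x`:
`∫ 1_core(V x) ‖wv x‖² = ∫ kap_x`.  So `∫ coreMass = ∑_{x ∈ BlkF} ∫ kap_x` and by Cauchy–Schwarz (for the
finite sum and for the probability measure) its square is at most `#BlkF ∑ ∫ kap_x²`.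
-/

open MeasureTheory Matrix Complex

namespace Pool.Agent.Lib.MP_562b47_mp.Str

variable {X ι : Type*} [Fintype X] [DecidableEq X] [Fintype ι] [DecidableEq ι]

/-- the block as a finset -/
def BlkF (ℓ : X → ℕ) (n l : ℕ) : Finset X := Finset.univ.filter fun x => n < ℓ x ∧ ℓ x ≤ n + l

theorem coe_BlkF (ℓ : X → ℕ) (n l : ℕ) : (BlkF ℓ n l : Set X) = Blk ℓ n l := by
  ext x
  simp [BlkF, Blk]

private theorem CS_jensen {c : ℝ} (hc : 0 < c) {f : (X → ℝ) → ℝ} (hf : BMeas f) :
    (∫ V, f V ∂(PX X c)) ^ 2 ≤ ∫ V, f V ^ 2 ∂(PX X c) := by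
  have := isProb_PX (X := X) hc
  set m := ∫ V, f V ∂(PX X c) with hm
  have h1 : Integrable f (PX X c) := hf.integrable _
  have h2 : Integrable (fun V => f V ^ 2) (PX X c) := by
    have := hf.norm_sq.integrable (PX X c)
    simpa [Real.norm_eq_abs, sq_abs] using this
  have h3 : 0 ≤ ∫ V, (f V - m) ^ 2 ∂(PX X c) := integral_nonneg fun V => by positivity
  have h4 : ∫ V, (f V - m) ^ 2 ∂(PX X c) = ∫ V, f V ^ 2 ∂(PX X c) - m ^ 2 := by
    have e1 : ∀ V, (f V - m) ^ 2 = f V ^ 2 - (2 * m) * f V + m ^ 2 := fun V => by ring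
    simp_rw [e1]
    have i1 : Integrable (fun V => (2 * m) * f V) (PX X c) := h1.const_mul _
    have i2 : Integrable (fun V => f V ^ 2 - (2 * m) * f V) (PX X c) := h2.sub i1
    have e2 : ∫ V, (f V ^ 2 - (2 * m) * f V + m ^ 2) ∂(PX X c) =
        ∫ V, (f V ^ 2 - (2 * m) * f V) ∂(PX X c) + ∫ _, m ^ 2 ∂(PX X c) :=
      integral_add i2 (integrable_const _)
    have e3 : ∫ V, (f V ^ 2 - (2 * m) * f V) ∂(PX X c) =
        ∫ V, f V ^ 2 ∂(PX X c) - ∫ V, (2 * m) * f V ∂(PX X c) := integral_sub h2 i1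
    rw [e2, e3, integral_const_mul, ← hm, integral_const]
    simp
    ring
  linarith

namespace Sys

theorem coreMass_sq_le {T : Sys X ι} (hT : T.Good) {c b q : ℝ} (hc : 0 < c) (hb : 0 ≤ b)
    (ℓ : X → ℕ) (n l : ℕ) :
    (∫ V, T.coreMass ℓ n l c b q V ∂(PX X c)) ^ 2
      ≤ (BlkF ℓ n l).card
        * ∑ x ∈ BlkF ℓ n l, ∫ V, T.kap (Blk ℓ n l) c b q x V ^ 2 ∂(PX X c) := by
  classical
  have := isProb_PX (X := X) hc
  have hF : ∀ x, ∫ V : X → ℝ, (open Classical in if V x ∈ core c q then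
      ‖T.wv (dfm (Blk ℓ n l) c b V I) x‖ ^ 2 else 0) ∂(PX X c) =
      ∫ V, T.kap (Blk ℓ n l) c b q x V ∂(PX X c) := by
    intro x
    have hms : MeasurableSet {V : X → ℝ | V x ∈ core c q} :=
      (measurable_pi_apply x) (measurableSet_core c q)
    have hB : BMeas fun V : X → ℝ => (open Classical in if V x ∈ core c q then
        ‖T.wv (dfm (Blk ℓ n l) c b V I) x‖ ^ 2 else 0) := by
      have h1 := (bmeas_wv (B := Blk ℓ n l) (c := c) hT hb x).norm_sq.indicator hms
      have h2 : (fun V : X → ℝ => (open Classical in if V x ∈ core c q then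
          ‖T.wv (dfm (Blk ℓ n l) c b V I) x‖ ^ 2 else 0)) =
          {V : X → ℝ | V x ∈ core c q}.indicator
            (fun V => ‖T.wv (dfm (Blk ℓ n l) c b V I) x‖ ^ 2) := by
        funext V
        by_cases hV : V x ∈ core c q
        · rw [if_pos hV, Set.indicator_of_mem (show V ∈ {V : X → ℝ | V x ∈ core c q} from hV)]
        · rw [if_neg hV, Set.indicator_of_notMem (show V ∉ {V : X → ℝ | V x ∈ core c q} from hV)]
      rw [h2]
      exact h1
    rw [integral_update hc x hB]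
    refine integral_congr_ae (Filter.Eventually.of_forall fun V => ?_)
    beta_reduce
    unfold kap
    refine integral_congr_ae (Filter.Eventually.of_forall fun v => ?_)
    beta_reduce
    rw [Function.update_self]
    by_cases hv : v ∈ core c q
    · rw [if_pos hv, Set.indicator_of_mem hv]
    · rw [if_neg hv, Set.indicator_of_notMem hv]
  have h1 : ∫ V, T.coreMass ℓ n l c b q V ∂(PX X c) =
      ∑ x ∈ BlkF ℓ n l, ∫ V, T.kap (Blk ℓ n l) c b q x V ∂(PX X c) := by
    unfold coreMass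
    rw [integral_finsetSum _ fun x _ => integrable_core_term hT hc hb _ x]
    exact Finset.sum_congr rfl fun x _ => hF x
  rw [h1]
  refine sq_sum_le_card_mul_sum_sq.trans ?_
  refine mul_le_mul_of_nonneg_left ?_ (Nat.cast_nonneg _)
  exact Finset.sum_le_sum fun x _ => CS_jensen hc (bmeas_kap hT hc hb)

theorem coreMass_nonneg {T : Sys X ι} {c b q : ℝ} (ℓ : X → ℕ) (n l : ℕ) (V : X → ℝ) :
    0 ≤ T.coreMass ℓ n l c b q V := by
  unfold coreMass
  refine Finset.sum_nonneg fun x _ => ?_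
  split_ifs
  · positivity
  · exact le_rfl

end Sys

end Pool.Agent.Lib.MP_562b47_mp.Str
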