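import Mathlib

/-!
Module STR-ThreeLines (MP_562b47_mp, strips).  The three lines theorem on a horizontal strip, in the
form which is used here: `Φ` continuous on `0 ≤ Im z`, differentiable for `0 < Im z`, bounded on the
strip `0 ≤ Im z ≤ Y`, `|Φ| ≤ A0` for `Im z = 0` and `|Φ| ≤ A1` for `Im z = Y`, `Y > 1`; then
`|Φ I| ≤ A0^(1 - 1/Y) * A1^(1/Y)`.
PROOF.  Mathlib: `Complex.HadamardThreeLines` (`norm_le_interpStrip_of_mem_verticalClosedStrip`,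
`norm_le_interp_of_mem_verticalClosedStrip'`, ...), applied to `f ζ = Φ (Y * ζ * I)`-type
substitution: the vertical strip `0 ≤ Re ζ ≤ 1` is mapped to the horizontal strip by
`ζ ↦ Y * I * ζ` (`Im (Y I ζ) = Y Re ζ`), the point `I` corresponds to `ζ = 1/Y`.
`A0 = 0` or `A1 = 0`: use `A0 + ε`, or the primed Mathlib statement, which covers it (note
`(0:ℝ)^(positive) = 0`).
-/

open MeasureTheory Matrix Complex

namespace Pool.Agent.Lib.MP_562b47_mp.Str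

theorem three_lines {Φ : ℂ → ℂ} {Y A0 A1 C : ℝ} (hY : 1 < Y)
    (hc : ContinuousOn Φ {z | 0 ≤ z.im}) (hd : ∀ z : ℂ, 0 < z.im → DifferentiableAt ℂ Φ z)
    (hb : ∀ z : ℂ, 0 ≤ z.im → z.im ≤ Y → ‖Φ z‖ ≤ C)
    (h0 : ∀ t : ℝ, ‖Φ t‖ ≤ A0) (h1 : ∀ t : ℝ, ‖Φ (t + Y * I)‖ ≤ A1) :
    ‖Φ I‖ ≤ A0 ^ (1 - 1 / Y) * A1 ^ (1 / Y) := by
  have hY0 : 0 < Y := by linarith
  have hYne : (Y : ℂ) ≠ 0 := by exact_mod_cast hY0.ne'
  have him : ∀ ζ : ℂ, ((Y : ℂ) * I * ζ).im = Y * ζ.re := by intro ζ; simp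
  have hcl : closure (HadamardThreeLines.verticalStrip 0 1) ⊆ {ζ : ℂ | 0 ≤ ζ.re} := by
    apply closure_minimal
    · intro ζ hζ
      exact hζ.1.le
    · exact isClosed_le continuous_const Complex.continuous_re
  have hd' : DiffContOnCl ℂ (fun ζ : ℂ => Φ ((Y : ℂ) * I * ζ))
      (HadamardThreeLines.verticalStrip 0 1) := by
    refine ⟨fun ζ hζ => ?_, ?_⟩
    · have h1 : 0 < ((Y : ℂ) * I * ζ).im := by
        rw [him]
        exact mul_pos hY0 hζ.1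
      have h2 : DifferentiableAt ℂ (fun ζ : ℂ => (Y : ℂ) * I * ζ) ζ := by fun_prop
      exact (DifferentiableAt.comp ζ (hd _ h1) h2).differentiableWithinAt
    · have h3 : ContinuousOn (fun ζ : ℂ => Φ ((Y : ℂ) * I * ζ)) {ζ : ℂ | 0 ≤ ζ.re} := by
        refine ContinuousOn.comp (g := Φ) (t := {z : ℂ | 0 ≤ z.im}) hc (by fun_prop) ?_
        intro ζ hζ
        show 0 ≤ ((Y : ℂ) * I * ζ).im
        rw [him]
        exact mul_nonneg hY0.le hζ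
      exact h3.mono hcl
  have key := HadamardThreeLines.norm_le_interp_of_mem_verticalClosedStrip₀₁'
    (fun ζ : ℂ => Φ ((Y : ℂ) * I * ζ)) (z := ((1 / Y : ℝ) : ℂ)) (a := A0) (b := A1) ?_ hd' ?_ ?_ ?_
  · have h4 : (Y : ℂ) * I * ((1 / Y : ℝ) : ℂ) = I := by
      push_cast
      field_simp
    simp only [h4, Complex.ofReal_re] at key
    exact key
  · show ((1 / Y : ℝ) : ℂ).re ∈ Set.Icc (0 : ℝ) 1
    rw [Complex.ofReal_re]
    exact ⟨by positivity, by rw [div_le_one hY0]; exact hY.le⟩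
  · refine ⟨C, ?_⟩
    rintro _ ⟨ζ, hζ, rfl⟩
    have h5 : ζ.re ∈ Set.Icc (0 : ℝ) 1 := hζ
    refine hb _ ?_ ?_
    · rw [him]
      exact mul_nonneg hY0.le h5.1
    · rw [him]
      nlinarith [h5.2]
  · intro ζ hζ
    have h5 : ζ.re = 0 := hζ
    have h6 : (Y : ℂ) * I * ζ = ((-(Y * ζ.im) : ℝ) : ℂ) := by
      apply Complex.ext <;> simp [h5]
    show ‖Φ ((Y : ℂ) * I * ζ)‖ ≤ A0
    rw [h6]
    exact h0 _
  · intro ζ hζ
    have h5 : ζ.re = 1 := hζ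
    have h6 : (Y : ℂ) * I * ζ = ((-(Y * ζ.im) : ℝ) : ℂ) + Y * I := by
      apply Complex.ext <;> simp [h5]
    show ‖Φ ((Y : ℂ) * I * ζ)‖ ≤ A1
    rw [h6]
    exact h1 _

end Pool.Agent.Lib.MP_562b47_mp.Str
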