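import Pool.Agent.Lib.MP_562b47_mp.Str.Holder
import Pool.Agent.Lib.MP_562b47_mp.Str.ThreeLines
import Pool.Agent.Lib.MP_562b47_mp.Str.AnaInt

/-!
Module STR-Transfer (MP_562b47_mp, strips).  From the real line to the point `z = I`.

PROOF.  Fix `δ ∈ (0, 1)`.  `Y := 4 / δ > 1`, `p := 1 / (1 - δ / 2) > 1`, `θ = 1 - 1/Y = 1 - δ/4`.
Let `N_z := √(∫ ‖f V z‖²)`, `N := N_I`; `N_z ≤ Kb` always.  If `N = 0` there is nothing to prove.
`Φ z := exp (-z²) * ∫ ⟪f V I, f V z⟫`.  By `ana_int`: continuous on `0 ≤ Im z`, differentiable inside,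
and `|Φ z| ≤ exp (-(x² - y²)) * N * N_z`, `z = x + i y`; on the strip `0 ≤ Im z ≤ Y` it is bounded by
`exp (Y²) Kb²`, and `|Φ| ≤ A1 := exp (Y²) N Kb` on `Im z = Y`.
Real line, `|t| ≤ t1 := c / (4 b)`: `shift_sq` (with `f V t = g (shf V t)`, `Fam.real`):
  `N_t² ≤ Kb² (v / Kb²)^(1/p) exp (Cp (t b / c)² #B)`, `v := ∫ ‖g‖² ≤ vh`;
with the hypothesis `C b² #B ≤ 1` (choose `C ≥ Cp / c²`) the last factor is at most `exp (t²)`, so
  `|Φ t| ≤ exp (-t²) N Kb (vh / Kb²)^(1/(2p)) exp (t² / 2) ≤ N Kb (vh / Kb²)^(1/(2p))`.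
Real line, `|t| > t1`: `|Φ t| ≤ exp (-t1²) N Kb = exp (-c²/(16 b²)) N Kb`; the hypothesis
`Kb² exp (-1/(C b²)) ≤ vh` with `C ≥ 16 / c²` gives `exp (-c²/(16 b²)) ≤ exp (-1/(C b²)) ≤ vh/Kb²
≤ (vh / Kb²)^(1/(2p))` (as `vh ≤ Kb²` and `1/(2p) ≤ 1`).
So `A0 := N Kb (vh / Kb²)^(1/(2p))` works, and `three_lines` yields
  `e * N² = |Φ I| ≤ A0^θ A1^(1-θ) = N Kb exp (Y² (1 - θ)) (vh/Kb²)^(θ/(2p))`,
`N ≤ Kb exp (Y) (vh/Kb²)^(θ/(2p))`, `N² ≤ exp (2 Y) Kb² (vh/Kb²)^(θ/p)`, and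
`θ / p = (1 - δ/4)(1 - δ/2) ≥ 1 - δ`, `vh/Kb² ≤ 1`.  (`exp(-I²) = e ≥ 1`.)
The case `v = ∫‖g‖² < vh`: monotonicity of `x ↦ x^(1/p)`.  `b > 0` is assumed.
-/

open MeasureTheory Matrix Complex

namespace Pool.Agent.Lib.MP_562b47_mp.Str

private theorem transfer_norm_exp (z : ℂ) :
    ‖Complex.exp (-z ^ 2)‖ = Real.exp (z.im ^ 2 - z.re ^ 2) := by
  rw [Complex.norm_exp]
  congr 1
  simp only [sq, Complex.neg_re, Complex.mul_re]
  ring

private theorem transfer_sq_le {X : Type} [Fintype X] [DecidableEq X] {E : Type}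
    [NormedAddCommGroup E] {c Kb : ℝ} (hc : 0 < c) (F : (X → ℝ) → E)
    (hF : Continuous F) (hb : ∀ V, ‖F V‖ ≤ Kb) :
    ∫ V, ‖F V‖ ^ 2 ∂(PX X c) ≤ Kb ^ 2 := by
  have hprob := isProb_PX (X := X) hc
  have hb2 : ∀ V, ‖F V‖ ^ 2 ≤ Kb ^ 2 := fun V => by
    have := hb V
    gcongr
  have hint : Integrable (fun V => ‖F V‖ ^ 2) (PX X c) := by
    refine Integrable.of_bound (hF.norm.pow 2).aestronglyMeasurable (Kb ^ 2) ?_
    refine Filter.Eventually.of_forall fun V => ?_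
    rw [Real.norm_eq_abs, abs_of_nonneg (by positivity)]
    exact hb2 V
  calc ∫ V, ‖F V‖ ^ 2 ∂(PX X c) ≤ ∫ _V, Kb ^ 2 ∂(PX X c) :=
        integral_mono hint (integrable_const _) hb2
    _ = Kb ^ 2 := by simp

theorem transfer {c : ℝ} (hc : 0 < c) {δ : ℝ} (hδ : 0 < δ) (hδ1 : δ < 1) : ∃ C : ℝ, 1 ≤ C ∧
    ∀ (X : Type) [Fintype X] [DecidableEq X] (E : Type) [NormedAddCommGroup E]
      [InnerProductSpace ℂ E] [FiniteDimensional ℂ E] (B : Finset X) (b Kb vh : ℝ)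
      (f : (X → ℝ) → ℂ → E) (g : (X → ℝ) → E),
      0 < b → C * b ^ 2 * B.card ≤ 1 → 0 < Kb → Fam (B : Set X) c b Kb f g →
      ∫ V, ‖g V‖ ^ 2 ∂(PX X c) ≤ vh → Kb ^ 2 * Real.exp (-(1 / (C * b ^ 2))) ≤ vh →
      vh ≤ Kb ^ 2 →
      ∫ V, ‖f V I‖ ^ 2 ∂(PX X c) ≤ C * Kb ^ 2 * (vh / Kb ^ 2) ^ (1 - δ) := by
  set Y : ℝ := 4 / δ with hYdef
  have hY4 : 4 < Y := by
    rw [hYdef, lt_div_iff₀ hδ]
    linarith
  have hY : 1 < Y := by linarith
  have hY0 : 0 < Y := by linarith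
  set p : ℝ := 1 / (1 - δ / 2) with hpdef
  have hd2 : 0 < 1 - δ / 2 := by linarith
  have hp : 1 < p := by
    rw [hpdef, lt_div_iff₀ hd2]
    linarith
  have hp0 : 0 < p := by linarith
  obtain ⟨Cp, hCp, hsh⟩ := shift_sq hp
  set C : ℝ := 1 + Cp / c ^ 2 + 16 / c ^ 2 + Real.exp (2 * Y) with hCdef
  have hq1 : 0 < Cp / c ^ 2 := by positivity
  have hq2 : 0 < 16 / c ^ 2 := by positivity
  have hq3 : 0 < Real.exp (2 * Y) := Real.exp_pos _
  have hC1 : 1 ≤ C := by linarith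
  have hC0 : 0 < C := by linarith
  refine ⟨C, hC1, ?_⟩
  intro X _ _ E _ _ _ B b Kb vh f g hb hCb hKb hF hv hvh hvK
  have hprob := isProb_PX (X := X) hc
  have hK2 : 0 < Kb ^ 2 := by positivity
  have hvh0 : 0 < vh := lt_of_lt_of_le (by positivity) hvh
  set r : ℝ := vh / Kb ^ 2 with hrdef
  have hr0 : 0 < r := by positivity
  have hr1 : r ≤ 1 := by
    rw [hrdef, div_le_one hK2]
    exact hvK
  have hcontz : ∀ z : ℂ, 0 ≤ z.im → Continuous fun V => f V z := fun z hz => hF.continuous_at hz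
  have hN2 : ∀ z : ℂ, 0 ≤ z.im → ∫ V, ‖f V z‖ ^ 2 ∂(PX X c) ≤ Kb ^ 2 := fun z hz =>
    transfer_sq_le hc (fun V => f V z) (hcontz z hz) (fun V => hF.bdd V z hz)
  have hN20 : ∀ z : ℂ, 0 ≤ ∫ V, ‖f V z‖ ^ 2 ∂(PX X c) := fun z =>
    integral_nonneg fun V => by positivity
  have hsq : ∀ z : ℂ, 0 ≤ z.im → √(∫ V, ‖f V z‖ ^ 2 ∂(PX X c)) ≤ Kb := fun z hz => by
    rw [Real.sqrt_le_left hKb.le]
    exact hN2 z hz
  set N2 : ℝ := ∫ V, ‖f V I‖ ^ 2 ∂(PX X c) with hN2def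
  have hI : (0 : ℝ) ≤ I.im := by simp
  have hN2I : 0 ≤ N2 := hN20 I
  rcases hN2I.eq_or_lt with h0 | hN2pos
  · rw [← h0]
    positivity
  set N : ℝ := √N2 with hNdef
  have hN0 : 0 < N := Real.sqrt_pos.2 hN2pos
  have hNN : N * N = N2 := Real.mul_self_sqrt hN2I
  obtain ⟨hac, had, hab⟩ := ana_int hc hF
  set Φ : ℂ → ℂ := fun z => Complex.exp (-z ^ 2) * ∫ V, inner ℂ (f V I) (f V z) ∂(PX X c) with hΦ
  have hΦn : ∀ z : ℂ, 0 ≤ z.im → ‖Φ z‖ ≤ Real.exp (z.im ^ 2 - z.re ^ 2) *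
      (N * √(∫ V, ‖f V z‖ ^ 2 ∂(PX X c))) := by
    intro z hz
    rw [hΦ]
    simp only [norm_mul]
    rw [transfer_norm_exp]
    exact mul_le_mul_of_nonneg_left (hab z hz) (Real.exp_pos _).le
  have hcΦ : ContinuousOn Φ {z | 0 ≤ z.im} := by
    refine ContinuousOn.mul ?_ hac
    exact (Complex.continuous_exp.comp (by fun_prop)).continuousOn
  have hdΦ : ∀ z : ℂ, 0 < z.im → DifferentiableAt ℂ Φ z := by
    intro z hz
    refine DifferentiableAt.mul ?_ (had z hz)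
    exact (by fun_prop : DifferentiableAt ℂ (fun z : ℂ => Complex.exp (-z ^ 2)) z)
  have hbΦ : ∀ z : ℂ, 0 ≤ z.im → z.im ≤ Y → ‖Φ z‖ ≤ Real.exp (Y ^ 2) * (N * Kb) := by
    intro z hz hzY
    refine (hΦn z hz).trans ?_
    have h1 : Real.exp (z.im ^ 2 - z.re ^ 2) ≤ Real.exp (Y ^ 2) := by
      apply Real.exp_le_exp.2
      nlinarith [sq_nonneg z.re]
    have h2 := hsq z hz
    have h3 : 0 ≤ √(∫ V, ‖f V z‖ ^ 2 ∂(PX X c)) := Real.sqrt_nonneg _
    gcongr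
  set A0 : ℝ := N * Kb * r ^ (1 / (2 * p)) with hA0
  set A1 : ℝ := Real.exp (Y ^ 2) * (N * Kb) with hA1
  have h1Φ : ∀ t : ℝ, ‖Φ (t + Y * I)‖ ≤ A1 := by
    intro t
    refine hbΦ _ ?_ ?_
    · simp [hY0.le]
    · simp
  have hexpo : 0 < 1 / (2 * p) := by positivity
  have hexpo1 : 1 / (2 * p) ≤ 1 := by
    rw [div_le_one (by positivity)]
    linarith
  have h0Φ : ∀ t : ℝ, ‖Φ t‖ ≤ A0 := by
    intro t
    have hb0 := hΦn (t : ℂ) (by simp)
    simp only [Complex.ofReal_im, Complex.ofReal_re] at hb0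
    by_cases ht : |t * b| ≤ c / 4
    · have hs := hsh X E B c b t Kb g hc ht hKb hF.contg (fun V => hF.g_le V)
      have heq : ∫ V, ‖f V (t : ℂ)‖ ^ 2 ∂(PX X c)
          = ∫ V, ‖g (shf (B : Set X) c b V t)‖ ^ 2 ∂(PX X c) := by
        congr 1
        funext V
        rw [hF.real V t]
      have hvr : (∫ V, ‖g V‖ ^ 2 ∂(PX X c)) / Kb ^ 2 ≤ r := by
        rw [hrdef]
        gcongr
      have hv0 : 0 ≤ (∫ V, ‖g V‖ ^ 2 ∂(PX X c)) / Kb ^ 2 := by
        apply div_nonneg _ hK2.le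
        exact integral_nonneg fun V => by positivity
      have h2 : ((∫ V, ‖g V‖ ^ 2 ∂(PX X c)) / Kb ^ 2) ^ (1 / p) ≤ r ^ (1 / p) :=
        Real.rpow_le_rpow hv0 hvr (by positivity)
      have h3 : Cp * (t * b / c) ^ 2 * B.card ≤ t ^ 2 := by
        have h4 : Cp / c ^ 2 * b ^ 2 * B.card ≤ 1 := by
          refine le_trans ?_ hCb
          have : Cp / c ^ 2 ≤ C := by linarith
          gcongr
        have h5 : Cp * (t * b / c) ^ 2 * B.card = t ^ 2 * (Cp / c ^ 2 * b ^ 2 * B.card) := by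
          field_simp
        rw [h5]
        calc t ^ 2 * (Cp / c ^ 2 * b ^ 2 * B.card) ≤ t ^ 2 * 1 :=
              mul_le_mul_of_nonneg_left h4 (sq_nonneg _)
          _ = t ^ 2 := mul_one _
      have h6 : ∫ V, ‖f V (t : ℂ)‖ ^ 2 ∂(PX X c) ≤ (Kb * r ^ (1 / (2 * p)) * Real.exp (t ^ 2)) ^ 2 := by
        rw [heq]
        refine hs.trans ?_
        have h7 : (r ^ (1 / (2 * p))) ^ 2 = r ^ (1 / p) := by
          rw [← Real.rpow_natCast, ← Real.rpow_mul hr0.le]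
          congr 1
          push_cast
          field_simp
        rw [mul_pow, mul_pow, h7]
        have h8 : Real.exp (Cp * (t * b / c) ^ 2 * B.card) ≤ Real.exp (t ^ 2) ^ 2 := by
          rw [← Real.exp_nat_mul]
          apply Real.exp_le_exp.2
          push_cast
          nlinarith [sq_nonneg t]
        gcongr
      have h9 : √(∫ V, ‖f V (t : ℂ)‖ ^ 2 ∂(PX X c)) ≤ Kb * r ^ (1 / (2 * p)) * Real.exp (t ^ 2) := by
        rw [Real.sqrt_le_left (by positivity)]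
        exact h6
      calc ‖Φ t‖ ≤ Real.exp (0 ^ 2 - t ^ 2) * (N * √(∫ V, ‖f V (t : ℂ)‖ ^ 2 ∂(PX X c))) := hb0
        _ ≤ Real.exp (0 ^ 2 - t ^ 2) * (N * (Kb * r ^ (1 / (2 * p)) * Real.exp (t ^ 2))) := by
            gcongr
        _ = A0 * (Real.exp (0 ^ 2 - t ^ 2) * Real.exp (t ^ 2)) := by rw [hA0]; ring
        _ = A0 := by
            rw [← Real.exp_add]
            simp
    · push Not at ht
      have h1 : (c / (4 * b)) ^ 2 ≤ t ^ 2 := by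
        rw [← sq_abs t]
        have h2 : c / (4 * b) ≤ |t| := by
          rw [abs_mul, abs_of_pos hb] at ht
          rw [div_le_iff₀ (by positivity)]
          linarith
        gcongr
      have h3 : 1 / (C * b ^ 2) ≤ (c / (4 * b)) ^ 2 := by
        have h4 : 16 / c ^ 2 ≤ C := by linarith
        have h5 : 16 ≤ C * c ^ 2 := by
          rwa [div_le_iff₀ (by positivity)] at h4
        rw [div_pow, div_le_div_iff₀ (by positivity) (by positivity)]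
        nlinarith [sq_nonneg b, mul_le_mul_of_nonneg_right h5 (sq_nonneg b)]
      have h6 : Real.exp (0 ^ 2 - t ^ 2) ≤ r := by
        have h7 : Real.exp (0 ^ 2 - t ^ 2) ≤ Real.exp (-(1 / (C * b ^ 2))) := by
          apply Real.exp_le_exp.2
          linarith
        refine h7.trans ?_
        rw [hrdef, le_div_iff₀ hK2]
        linarith
      have h8 : r ≤ r ^ (1 / (2 * p)) := by
        nth_rewrite 1 [← Real.rpow_one r]
        exact Real.rpow_le_rpow_of_exponent_ge hr0 hr1 hexpo1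
      have h9 := hsq (t : ℂ) (by simp)
      calc ‖Φ t‖ ≤ Real.exp (0 ^ 2 - t ^ 2) * (N * √(∫ V, ‖f V (t : ℂ)‖ ^ 2 ∂(PX X c))) := hb0
        _ ≤ r ^ (1 / (2 * p)) * (N * Kb) := by
            have h10 := h6.trans h8
            gcongr
        _ = A0 := by rw [hA0]; ring
  have h3L := three_lines hY hcΦ hdΦ hbΦ h0Φ h1Φ
  have hΦI : ‖Φ I‖ = Real.exp 1 * N2 := by
    rw [hΦ]
    simp only [norm_mul]
    rw [transfer_norm_exp]
    have h1 : ∫ V, inner ℂ (f V I) (f V I) ∂(PX X c) = ((N2 : ℝ) : ℂ) := by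
      rw [hN2def, ← integral_complex_ofReal]
      congr 1
      funext V
      rw [inner_self_eq_norm_sq_to_K]
      simp
    rw [h1, Complex.norm_real, Real.norm_eq_abs, abs_of_nonneg hN2I]
    simp
  rw [hΦI, hA0, hA1] at h3L
  have hNK : 0 < N * Kb := by positivity
  have hθ : 1 - 1 / Y + 1 / Y = 1 := by ring
  have hsplit : (N * Kb * r ^ (1 / (2 * p))) ^ (1 - 1 / Y) * (Real.exp (Y ^ 2) * (N * Kb)) ^ (1 / Y)
      = N * Kb * r ^ (1 / (2 * p) * (1 - 1 / Y)) * Real.exp Y := by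
    rw [Real.mul_rpow hNK.le (by positivity), Real.mul_rpow (by positivity) hNK.le,
      ← Real.rpow_mul hr0.le, ← Real.exp_mul]
    have h1 : Y ^ 2 * (1 / Y) = Y := by field_simp
    rw [h1]
    have h2 : (N * Kb) ^ (1 - 1 / Y) * (N * Kb) ^ (1 / Y) = N * Kb := by
      rw [← Real.rpow_add hNK, hθ, Real.rpow_one]
    calc (N * Kb) ^ (1 - 1 / Y) * r ^ (1 / (2 * p) * (1 - 1 / Y)) * (Real.exp Y * (N * Kb) ^ (1 / Y))
        = ((N * Kb) ^ (1 - 1 / Y) * (N * Kb) ^ (1 / Y)) * r ^ (1 / (2 * p) * (1 - 1 / Y))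
          * Real.exp Y := by ring
      _ = _ := by rw [h2]
  rw [hsplit] at h3L
  have he : 1 ≤ Real.exp 1 := Real.one_le_exp (by norm_num)
  set s : ℝ := r ^ (1 / (2 * p) * (1 - 1 / Y)) with hsdef
  have hs0 : 0 < s := Real.rpow_pos_of_pos hr0 _
  have hN1 : N ≤ Kb * s * Real.exp Y := by
    have h1 : N * N ≤ N * (Kb * s * Real.exp Y) := by
      calc N * N = N2 := hNN
        _ = 1 * N2 := (one_mul _).symm
        _ ≤ Real.exp 1 * N2 := mul_le_mul_of_nonneg_right he hN2I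
        _ ≤ N * Kb * s * Real.exp Y := h3L
        _ = N * (Kb * s * Real.exp Y) := by ring
    exact le_of_mul_le_mul_left h1 hN0
  have hs2 : s ^ 2 ≤ r ^ (1 - δ) := by
    rw [hsdef, ← Real.rpow_natCast, ← Real.rpow_mul hr0.le]
    apply Real.rpow_le_rpow_of_exponent_ge hr0 hr1
    have h1 : 1 / (2 * p) * (1 - 1 / Y) * ((2 : ℕ) : ℝ) = (1 - δ / 2) * (1 - δ / 4) := by
      rw [hpdef, hYdef]
      push_cast
      field_simp
    rw [h1]
    nlinarith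
  calc N2 = N ^ 2 := by rw [sq, hNN]
    _ ≤ (Kb * s * Real.exp Y) ^ 2 := by gcongr
    _ = Real.exp (2 * Y) * Kb ^ 2 * s ^ 2 := by
        rw [two_mul, Real.exp_add]
        ring
    _ ≤ C * Kb ^ 2 * r ^ (1 - δ) := by
        have : Real.exp (2 * Y) ≤ C := by linarith
        gcongr

end Pool.Agent.Lib.MP_562b47_mp.Str
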