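import Pool.Agent.Lib.MP_562b47_mp.Str.Pair

/-!
Module STR-VarB (MP_562b47_mp, strips).  The variance bound.
`h V = T.Sv (dfm B c b V I)`, `W = ∑_{x∈B} ∫ kap_x²`, `E = ∫ ‖h - m‖²`, `𝓛 = 1 + log(1/(bq)) ≥ 1`.

PROOF of `pair_sum`: `I2(t) := ∑_{x∈B} ∑_{y∈B∖x} ∫ ‖DX x (DX y h)‖² ≤ C2 t² 𝓛/(bq) W`.
By `pair_upper` and `kap_x kap_y ≤ (kap_x² + kap_y²)/2` and the symmetry of `G` and of the sum in
`x, y`: `I2 ≤ 1024 c² t² ∑_{x∈B} ∫ 1_core(V x) kap_x² ∑_{y∈B, V y ∈ core} |G_xy|²`; at core sites of `B`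
`Im ν_y ≥ b q` (`dfm_im`, `le_chi_of_core`), so by `row_G_le` `∑_{y} |G_yx|² ≤ |G_xx|/(bq)`.  Then
`integral_update` in `x`: `kap_x` does not depend on `V x` and `∫_v 1_core |G_xx| ≤ C 𝓛`
(`core_norm_G_le`).  `C2 = 1024 c² C`.
PROOF of `lemma_var`.  `KX ≤ Kmax := 2/(c b q)`.  Let `J = ⌊log₂(1+Kmax)⌋ + 1`; the classes
`{2^j ≤ 1 + KX_x < 2^(j+1)}`, `0 ≤ j < J`, `W = ∑_j W_j`, `W_j = ∑_{x∈B} ∫ 1[class j] kap_x²`.  Choose
`j` with `W_j ≥ W / J`.  `m := ⌈2(1-q)c 2^(j+1)/c1⌉ ≥ 1` (`c1, c2` from `single_lower`):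
`t = tt c q m ≤ c1 2^(-j-1)`, and `m ≤ 2^(j+1)(2c/c1 + 1)` gives `t ≥ c5 2^(-j-1)`,
`c5 = c/(2c/c1+1)` (as `1-q ≥ 1/2`).  So on the class `j` we have `t(1+KX) ≤ c1`, and by
`single_lower` `I1 := ∑_{x∈B} ∫ ‖DX x h‖² ≥ 4 c2 t² 2^j W_j ≥ 2 c2 c5 t W_j ≥ 2 c2 c5 t W/J`.
`efron`: `I1² ≤ (I1 + I2) E`.
* `I2 ≤ I1`: `E ≥ I1/2 ≥ c2 c5 t W/J ≥ c2 c5² W/(2 (1+Kmax) J)`, `1 + Kmax ≤ (1 + 2/c)/(bq)`.
* `I1 < I2`: `E ≥ I1²/(2 I2) ≥ (2c2c5)² t² W²/J² / (2 C2 t² 𝓛 W/(bq)) = c8 b q W/(J² 𝓛)`.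
`J ≤ C 𝓛`.  In both cases `b q W ≤ C 𝓛³ E`.  (`W = 0` is trivial; `W < ∞`.)
-/

open MeasureTheory Matrix Complex

namespace Pool.Agent.Lib.MP_562b47_mp.Str

section aux

variable {X ι : Type*} [Fintype X] [DecidableEq X] [Fintype ι] [DecidableEq ι]

/-- the kernel of the second order influences -/
private noncomputable def VarB_A (T : Sys X ι) (B : Set X) (c b q : ℝ) (x y : X) (V : X → ℝ) : ℝ :=
  open Classical in if V x ∈ core c q ∧ V y ∈ core c q then ‖T.G (dfm B c b V I) x y‖ ^ 2 else 0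

omit [DecidableEq ι] in
private theorem VarB_A_nonneg (T : Sys X ι) (B : Set X) (c b q : ℝ) (x y : X) (V : X → ℝ) :
    0 ≤ VarB_A T B c b q x y V := by
  classical
  unfold VarB_A
  split_ifs
  · positivity
  · exact le_rfl

private theorem VarB_A_comm {T : Sys X ι} (hT : T.Good) (B : Set X) (c b q : ℝ) (x y : X)
    (V : X → ℝ) : VarB_A T B c b q x y V = VarB_A T B c b q y x V := by
  classical
  unfold VarB_A
  rw [Sys.G_comm hT _ x y]
  by_cases h : V x ∈ core c q ∧ V y ∈ core c q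
  · rw [if_pos h, if_pos h.symm]
  · rw [if_neg h, if_neg fun h' => h h'.symm]

private theorem VarB_A_bmeas {T : Sys X ι} (hT : T.Good) (B : Set X) {c b q : ℝ} (hb : 0 ≤ b)
    (x y : X) : BMeas (VarB_A T B c b q x y) := by
  classical
  have h1 : BMeas fun V : X → ℝ => ‖T.G (dfm B c b V I) x y‖ ^ 2 :=
    (Sys.bmeas_G hT hb x y).norm_sq
  have hx : MeasurableSet {V : X → ℝ | V x ∈ core c q} :=
    (measurable_pi_apply x) (measurableSet_core c q)
  have hy : MeasurableSet {V : X → ℝ | V y ∈ core c q} :=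
    (measurable_pi_apply y) (measurableSet_core c q)
  have hs : MeasurableSet {V : X → ℝ | V x ∈ core c q ∧ V y ∈ core c q} := hx.inter hy
  have h2 := h1.indicator hs
  have e : VarB_A T B c b q x y = {V : X → ℝ | V x ∈ core c q ∧ V y ∈ core c q}.indicator
      (fun V : X → ℝ => ‖T.G (dfm B c b V I) x y‖ ^ 2) := by
    funext V
    unfold VarB_A
    rw [Set.indicator_apply]
    rfl
  rw [e]
  exact h2

private theorem VarB_row {T : Sys X ι} {B : Finset X} {c b q : ℝ} (hT : T.Good) (hc : 0 < c)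
    (hb : 0 < b) (hq : 0 < q) (hq1 : q ≤ 1) (x : X) (V : X → ℝ) :
    ∑ y ∈ B.erase x, VarB_A T (B : Set X) c b q x y V
      ≤ (core c q).indicator (fun _ => ‖T.G (dfm (B : Set X) c b V I) x x‖) (V x) / (b * q) := by
  classical
  have hbq : 0 < b * q := mul_pos hb hq
  have hadm : Adm (dfm (B : Set X) c b V I) := adm_dfm _ c hb.le V (by simp)
  rw [le_div_iff₀ hbq]
  by_cases hx : V x ∈ core c q
  · rw [Set.indicator_of_mem hx]
    refine le_trans ?_ (Sys.row_G_le hT hadm x)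
    rw [Finset.sum_mul]
    refine le_trans (Finset.sum_le_sum fun y hy => ?_)
      (Finset.sum_le_sum_of_subset_of_nonneg (Finset.subset_univ (B.erase x))
        fun z _ _ => mul_nonneg (add_nonneg (hadm z) (hT.pos z).le) (by positivity))
    unfold VarB_A
    have hyB : y ∈ (B : Set X) := Finset.mem_coe.2 (Finset.mem_of_mem_erase hy)
    by_cases hyc : V y ∈ core c q
    · rw [if_pos ⟨hx, hyc⟩, mul_comm, Sys.G_comm hT _ x y]
      refine mul_le_mul_of_nonneg_right ?_ (by positivity)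
      rw [dfm_im, if_pos hyB, Complex.I_im, one_mul]
      have h1 := le_chi_of_core hc hq.le hq1 hyc
      have h2 := hT.pos y
      nlinarith
    · rw [if_neg fun h => hyc h.2, zero_mul]
      exact mul_nonneg (add_nonneg (hadm y) (hT.pos y).le) (by positivity)
  · rw [Set.indicator_of_notMem hx]
    have : ∀ y ∈ B.erase x, VarB_A T (B : Set X) c b q x y V = 0 := fun y _ => by
      unfold VarB_A
      rw [if_neg fun h => hx h.1]
    rw [Finset.sum_congr rfl this, Finset.sum_const_zero, zero_mul]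

end aux

theorem pair_sum {c : ℝ} (hc : 0 < c) : ∃ C2 : ℝ, 0 < C2 ∧
    ∀ (X ι : Type) [Fintype X] [DecidableEq X] [Fintype ι] [DecidableEq ι] (T : Sys X ι)
      (B : Finset X) (b q : ℝ) (m : ℕ), T.Good → 0 < b → b ≤ 1 → b ≤ c / 2 → 0 < q →
      q ≤ 1 / 2 → 1 ≤ m →
      ∑ x ∈ B, ∑ y ∈ B.erase x,
          ∫ V, ‖DX c q m x (DX c q m y fun V => T.Sv (dfm (B : Set X) c b V I)) V‖ ^ 2 ∂(PX X c)
        ≤ C2 * tt c q m ^ 2 * (1 + Real.log (1 / (b * q))) / (b * q)
          * ∑ x ∈ B, ∫ V, T.kap (B : Set X) c b q x V ^ 2 ∂(PX X c) := by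
  obtain ⟨C, hC, hG⟩ := core_norm_G_le hc
  refine ⟨1024 * c ^ 2 * C, by positivity, ?_⟩
  intro X ι _ _ _ _ T B b q m hT hb hb1 hbc hq hq2 hm
  classical
  have hprob := isProb_PX (X := X) hc
  have hprob1 := isProb_unif hc
  have hq1 : q < 1 := by linarith
  have hbq : 0 < b * q := mul_pos hb hq
  set L := 1 + Real.log (1 / (b * q)) with hL
  set S := (B : Set X) with hS
  have hK : ∀ x, BMeas (T.kap S c b q x) := fun x => Sys.bmeas_kap hT hc hb.le
  have hK2 : ∀ x, BMeas fun V => T.kap S c b q x V ^ 2 := fun x => by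
    have := (hK x).mul (hK x)
    have e : (fun V => T.kap S c b q x V ^ 2) = fun V => T.kap S c b q x V * T.kap S c b q x V := by
      funext V
      exact sq _
    rw [e]
    exact this
  have hA : ∀ x y, BMeas (VarB_A T S c b q x y) := fun x y => VarB_A_bmeas hT S hb.le x y
  -- the terms
  have h1 : ∀ x ∈ B, ∀ y ∈ B.erase x,
      ∫ V, ‖DX c q m x (DX c q m y fun V => T.Sv (dfm S c b V I)) V‖ ^ 2 ∂(PX X c)
        ≤ 1024 * c ^ 2 * tt c q m ^ 2 * (1 / 2 * ∫ V, VarB_A T S c b q x y V *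
            T.kap S c b q x V ^ 2 ∂(PX X c)
          + 1 / 2 * ∫ V, VarB_A T S c b q x y V * T.kap S c b q y V ^ 2 ∂(PX X c)) := by
    intro x hx y hy
    have hxy : x ≠ y := fun h => (Finset.ne_of_mem_erase hy) h.symm
    have hxS : x ∈ S := Finset.mem_coe.2 hx
    have hyS : y ∈ S := Finset.mem_coe.2 (Finset.mem_of_mem_erase hy)
    refine (Sys.pair_upper hT hc hb.le hbc hq.le hq1 hm hxS hyS hxy).trans ?_
    refine mul_le_mul_of_nonneg_left ?_ (by positivity)
    rw [← integral_const_mul, ← integral_const_mul, ← integral_add]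
    · refine integral_mono_of_nonneg (Filter.Eventually.of_forall fun V => ?_)
        (((((hA x y).mul (hK2 x)).integrable _).const_mul _).add
          ((((hA x y).mul (hK2 y)).integrable _).const_mul _))
        (Filter.Eventually.of_forall fun V => ?_)
      · show (0 : ℝ) ≤ if V x ∈ core c q ∧ V y ∈ core c q then
            ‖T.G (dfm S c b V I) x y‖ ^ 2 * (T.kap S c b q x V * T.kap S c b q y V) else 0
        split_ifs
        · exact mul_nonneg (by positivity) (mul_nonneg (Sys.kap_nonneg V) (Sys.kap_nonneg V))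
        · exact le_rfl
      · show (if V x ∈ core c q ∧ V y ∈ core c q then
            ‖T.G (dfm S c b V I) x y‖ ^ 2 * (T.kap S c b q x V * T.kap S c b q y V) else 0)
          ≤ 1 / 2 * (VarB_A T S c b q x y V * T.kap S c b q x V ^ 2)
            + 1 / 2 * (VarB_A T S c b q x y V * T.kap S c b q y V ^ 2)
        unfold VarB_A
        split_ifs
        · nlinarith [sq_nonneg (T.kap S c b q x V - T.kap S c b q y V),
            mul_nonneg (sq_nonneg ‖T.G (dfm S c b V I) x y‖)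
              (sq_nonneg (T.kap S c b q x V - T.kap S c b q y V))]
        · simp
    · exact (((hA x y).mul (hK2 x)).integrable _).const_mul _
    · exact (((hA x y).mul (hK2 y)).integrable _).const_mul _
  -- symmetry
  have h2 : ∑ x ∈ B, ∑ y ∈ B.erase x, ∫ V, VarB_A T S c b q x y V * T.kap S c b q y V ^ 2 ∂(PX X c)
      = ∑ x ∈ B, ∑ y ∈ B.erase x, ∫ V, VarB_A T S c b q x y V * T.kap S c b q x V ^ 2 ∂(PX X c) := by
    rw [Finset.sum_comm' (t' := B) (s' := fun y => B.erase y)]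
    · refine Finset.sum_congr rfl fun y _ => Finset.sum_congr rfl fun x _ => ?_
      refine integral_congr_ae (Filter.Eventually.of_forall fun V => ?_)
      show VarB_A T S c b q x y V * T.kap S c b q y V ^ 2
        = VarB_A T S c b q y x V * T.kap S c b q y V ^ 2
      rw [VarB_A_comm hT]
    · intro x y
      simp only [Finset.mem_erase]
      tauto
  -- one row
  have h3 : ∀ x ∈ B, ∑ y ∈ B.erase x,
      ∫ V, VarB_A T S c b q x y V * T.kap S c b q x V ^ 2 ∂(PX X c)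
        ≤ C * L / (b * q) * ∫ V, T.kap S c b q x V ^ 2 ∂(PX X c) := by
    intro x hx
    have hGx : BMeas fun V : X → ℝ =>
        (core c q).indicator (fun _ => ‖T.G (dfm S c b V I) x x‖) (V x) := by
      have h := ((Sys.bmeas_G (T := T) (B := S) (c := c) hT hb.le x x).norm).indicator
        ((measurable_pi_apply x) (measurableSet_core c q))
      have e : (fun V : X → ℝ =>
          (core c q).indicator (fun _ => ‖T.G (dfm S c b V I) x x‖) (V x))
          = ((fun V : X → ℝ => V x) ⁻¹' core c q).indicator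
            (fun V : X → ℝ => ‖T.G (dfm S c b V I) x x‖) := by
        funext V
        rw [Set.indicator_apply, Set.indicator_apply]
        rfl
      rw [e]
      exact h
    rw [← integral_finsetSum _ fun y _ => ((hA x y).mul (hK2 x)).integrable _]
    have hint : BMeas fun V : X → ℝ => T.kap S c b q x V ^ 2 *
        (core c q).indicator (fun _ => ‖T.G (dfm S c b V I) x x‖) (V x) := (hK2 x).mul hGx
    have i1 : ∫ V, ∑ y ∈ B.erase x, VarB_A T S c b q x y V * T.kap S c b q x V ^ 2 ∂(PX X c)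
        ≤ ∫ V, (b * q)⁻¹ * (T.kap S c b q x V ^ 2 *
          (core c q).indicator (fun _ => ‖T.G (dfm S c b V I) x x‖) (V x)) ∂(PX X c) := by
      refine integral_mono_of_nonneg (Filter.Eventually.of_forall fun V => ?_)
        ((hint.integrable _).const_mul _) (Filter.Eventually.of_forall fun V => ?_)
      · exact Finset.sum_nonneg fun y _ => mul_nonneg (VarB_A_nonneg _ _ _ _ _ _ _ _)
          (sq_nonneg _)
      · show ∑ y ∈ B.erase x, VarB_A T S c b q x y V * T.kap S c b q x V ^ 2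
          ≤ (b * q)⁻¹ * (T.kap S c b q x V ^ 2 *
            (core c q).indicator (fun _ => ‖T.G (dfm S c b V I) x x‖) (V x))
        rw [← Finset.sum_mul]
        have h := VarB_row (T := T) (B := B) hT hc hb hq hq1.le x V
        calc _ ≤ ((core c q).indicator (fun _ => ‖T.G (dfm S c b V I) x x‖) (V x) / (b * q))
              * T.kap S c b q x V ^ 2 := mul_le_mul_of_nonneg_right h (sq_nonneg _)
          _ = _ := by
            rw [div_eq_mul_inv]
            ring
    refine i1.trans ?_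
    rw [integral_const_mul, integral_update hc x hint]
    have i2 : ∫ V, ∫ v, T.kap S c b q x (Function.update V x v) ^ 2 *
          (core c q).indicator (fun _ => ‖T.G (dfm S c b (Function.update V x v) I) x x‖)
            (Function.update V x v x) ∂(unif c) ∂(PX X c)
        ≤ ∫ V, (C * L) * T.kap S c b q x V ^ 2 ∂(PX X c) := by
      refine integral_mono_of_nonneg (Filter.Eventually.of_forall fun V => ?_)
        (((hK2 x).integrable _).const_mul _) (Filter.Eventually.of_forall fun V => ?_)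
      · refine integral_nonneg fun v => mul_nonneg (sq_nonneg _) ?_
        exact Set.indicator_nonneg (fun _ _ => norm_nonneg _) _
      · show ∫ v, T.kap S c b q x (Function.update V x v) ^ 2 *
          (core c q).indicator (fun _ => ‖T.G (dfm S c b (Function.update V x v) I) x x‖)
            (Function.update V x v x) ∂(unif c) ≤ (C * L) * T.kap S c b q x V ^ 2
        have e : ∀ v : ℝ, T.kap S c b q x (Function.update V x v) ^ 2 *
          (core c q).indicator (fun _ => ‖T.G (dfm S c b (Function.update V x v) I) x x‖)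
            (Function.update V x v x) = T.kap S c b q x V ^ 2 *
          (core c q).indicator (fun v => ‖T.G (dfm S c b (Function.update V x v) I) x x‖) v := by
          intro v
          rw [Sys.kap_update, Function.update_self, Set.indicator_apply, Set.indicator_apply]
        simp_rw [e]
        rw [integral_const_mul, mul_comm]
        exact mul_le_mul_of_nonneg_right
          (hG X ι T S b q x V hT hb hb1 hbc hq hq2 (Finset.mem_coe.2 hx)) (sq_nonneg _)
    rw [integral_const_mul] at i2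
    calc _ ≤ (b * q)⁻¹ * (C * L * ∫ V, T.kap S c b q x V ^ 2 ∂(PX X c)) :=
          mul_le_mul_of_nonneg_left i2 (inv_nonneg.2 hbq.le)
      _ = _ := by
        rw [div_eq_mul_inv]
        ring
  -- conclusion
  have h4 : ∑ x ∈ B, ∑ y ∈ B.erase x,
      ∫ V, ‖DX c q m x (DX c q m y fun V => T.Sv (dfm S c b V I)) V‖ ^ 2 ∂(PX X c)
        ≤ 1024 * c ^ 2 * tt c q m ^ 2 * ∑ x ∈ B, ∑ y ∈ B.erase x,
          ∫ V, VarB_A T S c b q x y V * T.kap S c b q x V ^ 2 ∂(PX X c) := by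
    refine (Finset.sum_le_sum fun x hx => Finset.sum_le_sum fun y hy => h1 x hx y hy).trans ?_
    simp_rw [← Finset.mul_sum, Finset.sum_add_distrib, ← Finset.mul_sum]
    rw [h2]
    refine mul_le_mul_of_nonneg_left (le_of_eq ?_) (by positivity)
    ring
  refine h4.trans ?_
  have h5 : ∑ x ∈ B, ∑ y ∈ B.erase x,
          ∫ V, VarB_A T S c b q x y V * T.kap S c b q x V ^ 2 ∂(PX X c)
        ≤ C * L / (b * q) * ∑ x ∈ B, ∫ V, T.kap S c b q x V ^ 2 ∂(PX X c) := by
    rw [Finset.mul_sum]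
    exact Finset.sum_le_sum h3
  calc _ ≤ 1024 * c ^ 2 * tt c q m ^ 2 * (C * L / (b * q) *
        ∑ x ∈ B, ∫ V, T.kap S c b q x V ^ 2 ∂(PX X c)) :=
        mul_le_mul_of_nonneg_left h5 (by positivity)
    _ = _ := by ring

private theorem VarB_arith {c2 c5 C2 CJ K0 W E I1 I2 t L J s : ℝ} (hc2 : 0 < c2) (hc5 : 0 < c5)
    (hC2 : 0 < C2) (hCJ : 0 < CJ) (hK0 : 0 < K0) (hW : 0 ≤ W) (hE : 0 ≤ E) (hI1 : 0 ≤ I1)
    (ht : 0 < t) (hL : 1 ≤ L) (hJ : 0 < J) (hs : 0 < s) (ha : 2 * c2 * c5 * t * W / J ≤ I1)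
    (hb : I2 ≤ C2 * t ^ 2 * L / s * W) (hcc : I1 ^ 2 ≤ (I1 + I2) * E)
    (hd : c5 * s / (2 * K0) ≤ t) (he : J ≤ CJ * L) :
    s * W ≤ (2 * K0 * CJ / (c2 * c5 ^ 2) + C2 * CJ ^ 2 / (2 * c2 ^ 2 * c5 ^ 2)) * L ^ 3 * E := by
  have hL3 : L ≤ L ^ 3 := by
    nlinarith [sq_nonneg L, mul_nonneg (by linarith : 0 ≤ L) (by linarith : 0 ≤ L - 1),
      mul_nonneg (mul_nonneg (by linarith : 0 ≤ L) (by linarith : 0 ≤ L - 1))
        (by linarith : 0 ≤ L + 1)]
  have hp1 : 0 ≤ 2 * K0 * CJ / (c2 * c5 ^ 2) * L ^ 3 * E := by positivity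
  have hp2 : 0 ≤ C2 * CJ ^ 2 / (2 * c2 ^ 2 * c5 ^ 2) * L ^ 3 * E := by positivity
  rw [div_le_iff₀ hJ] at ha
  rw [div_le_iff₀ (by positivity)] at hd
  rcases le_total I2 I1 with h | h
  · have h1 : I1 ≤ 2 * E := by
      rcases hI1.eq_or_lt with h0 | h0
      · rw [← h0]
        positivity
      · have h2 : I1 * I1 ≤ 2 * E * I1 := by nlinarith [mul_le_mul_of_nonneg_right h hE]
        exact le_of_mul_le_mul_right h2 h0
    have h3 : 2 * c2 * c5 * t * W ≤ 2 * E * (CJ * L) :=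
      ha.trans (mul_le_mul h1 he hJ.le (by positivity))
    have h4 : c5 * s * (c2 * c5 * W) ≤ t * (2 * K0) * (c2 * c5 * W) :=
      mul_le_mul_of_nonneg_right hd (by positivity)
    have h5 : c2 * c5 ^ 2 * (s * W) ≤ 2 * K0 * CJ * (L ^ 3 * E) := by
      calc c2 * c5 ^ 2 * (s * W) = c5 * s * (c2 * c5 * W) := by ring
        _ ≤ t * (2 * K0) * (c2 * c5 * W) := h4
        _ = K0 * (2 * c2 * c5 * t * W) := by ring
        _ ≤ K0 * (2 * E * (CJ * L)) := mul_le_mul_of_nonneg_left h3 hK0.le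
        _ = 2 * K0 * CJ * E * L := by ring
        _ ≤ 2 * K0 * CJ * E * L ^ 3 := mul_le_mul_of_nonneg_left hL3 (by positivity)
        _ = _ := by ring
    have h6 : s * W ≤ 2 * K0 * CJ / (c2 * c5 ^ 2) * L ^ 3 * E := by
      have e : 2 * K0 * CJ / (c2 * c5 ^ 2) * L ^ 3 * E
          = 2 * K0 * CJ * (L ^ 3 * E) / (c2 * c5 ^ 2) := by ring
      rw [e, le_div_iff₀ (by positivity)]
      linarith
    nlinarith
  · rcases hW.eq_or_lt with h0 | h0
    · rw [← h0, mul_zero]
      positivity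
    · have h1 : I1 ^ 2 ≤ 2 * (C2 * t ^ 2 * L / s * W) * E := by
        nlinarith [mul_le_mul_of_nonneg_right h hE, mul_le_mul_of_nonneg_right hb hE]
      have h2 : (2 * c2 * c5 * t * W) ^ 2 ≤ (I1 * J) ^ 2 :=
        pow_le_pow_left₀ (by positivity) ha 2
      have h3 : (2 * c2 * c5 * t * W) ^ 2 ≤ 2 * (C2 * t ^ 2 * L / s * W) * E * (CJ * L) ^ 2 := by
        refine h2.trans ?_
        rw [mul_pow]
        exact mul_le_mul h1 (pow_le_pow_left₀ hJ.le he 2) (by positivity) (by positivity)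
      have h4 : (2 * t ^ 2 * W / s) * (2 * c2 ^ 2 * c5 ^ 2 * (s * W))
          ≤ (2 * t ^ 2 * W / s) * (C2 * CJ ^ 2 * (L ^ 3 * E)) := by
        calc (2 * t ^ 2 * W / s) * (2 * c2 ^ 2 * c5 ^ 2 * (s * W))
            = (2 * c2 * c5 * t * W) ^ 2 := by
              field_simp
          _ ≤ 2 * (C2 * t ^ 2 * L / s * W) * E * (CJ * L) ^ 2 := h3
          _ = _ := by
              field_simp
      have h5 : 2 * c2 ^ 2 * c5 ^ 2 * (s * W) ≤ C2 * CJ ^ 2 * (L ^ 3 * E) :=
        le_of_mul_le_mul_left h4 (by positivity)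
      have h6 : s * W ≤ C2 * CJ ^ 2 / (2 * c2 ^ 2 * c5 ^ 2) * L ^ 3 * E := by
        have e : C2 * CJ ^ 2 / (2 * c2 ^ 2 * c5 ^ 2) * L ^ 3 * E
            = C2 * CJ ^ 2 * (L ^ 3 * E) / (2 * c2 ^ 2 * c5 ^ 2) := by ring
        rw [e, le_div_iff₀ (by positivity)]
        linarith
      nlinarith

section cls

variable {X ι : Type*} [Fintype X] [DecidableEq X] [Fintype ι] [DecidableEq ι]

/-- the dyadic class of `1 + KX` -/
private noncomputable def VarB_cls (T : Sys X ι) (B : Set X) (c b q : ℝ) (x : X) (V : X → ℝ) : ℕ :=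
  Nat.log 2 ⌊1 + T.KX B c b q x V⌋₊

private theorem VarB_cls_le {T : Sys X ι} {B : Set X} {c b q : ℝ} (x : X) (V : X → ℝ) :
    (2 : ℝ) ^ VarB_cls T B c b q x V ≤ 1 + T.KX B c b q x V := by
  have h0 := Sys.KX_nonneg (T := T) (B := B) (c := c) (b := b) (q := q) (x := x) V
  have h1 : ⌊1 + T.KX B c b q x V⌋₊ ≠ 0 := by
    have : 1 ≤ ⌊1 + T.KX B c b q x V⌋₊ := Nat.le_floor (by push_cast; linarith)
    omega
  have h2 := Nat.pow_log_le_self 2 h1
  have h3 : ((2 ^ VarB_cls T B c b q x V : ℕ) : ℝ) ≤ (⌊1 + T.KX B c b q x V⌋₊ : ℝ) := by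
    exact_mod_cast h2
  push_cast at h3
  exact h3.trans (Nat.floor_le (by linarith))

omit [DecidableEq ι] in
private theorem VarB_lt_cls {T : Sys X ι} {B : Set X} {c b q : ℝ} (x : X) (V : X → ℝ) :
    1 + T.KX B c b q x V < (2 : ℝ) ^ (VarB_cls T B c b q x V + 1) := by
  have h2 : ⌊1 + T.KX B c b q x V⌋₊ < 2 ^ (VarB_cls T B c b q x V + 1) :=
    Nat.lt_pow_succ_log_self (by norm_num) _
  have h3 : ⌊1 + T.KX B c b q x V⌋₊ + 1 ≤ 2 ^ (VarB_cls T B c b q x V + 1) := h2
  have h4 : ((⌊1 + T.KX B c b q x V⌋₊ : ℝ)) + 1 ≤ (2 : ℝ) ^ (VarB_cls T B c b q x V + 1) := by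
    exact_mod_cast h3
  exact (Nat.lt_floor_add_one _).trans_le h4

private theorem VarB_cls_meas {T : Sys X ι} {B : Set X} {c b q : ℝ} (hT : T.Good) (hc : 0 < c)
    (hb : 0 ≤ b) (x : X) : Measurable (VarB_cls T B c b q x) := by
  have h1 : Measurable fun V : X → ℝ => 1 + T.KX B c b q x V :=
    measurable_const.add (Sys.bmeas_KX hT hc hb).meas.measurable
  exact (measurable_of_countable (Nat.log 2)).comp (Nat.measurable_floor.comp h1)

/-- the part of `kap²` in the class `j` -/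
private noncomputable def VarB_W (T : Sys X ι) (B : Set X) (c b q : ℝ) (x : X) (j : ℕ)
    (V : X → ℝ) : ℝ := if VarB_cls T B c b q x V = j then T.kap B c b q x V ^ 2 else 0

private theorem VarB_W_bmeas {T : Sys X ι} {B : Set X} {c b q : ℝ} (hT : T.Good) (hc : 0 < c)
    (hb : 0 ≤ b) (x : X) (j : ℕ) : BMeas (VarB_W T B c b q x j) := by
  have h := (Sys.bmeas_kap (T := T) (B := B) (q := q) (x := x) hT hc hb)
  have h1 := (h.mul h).indicator (VarB_cls_meas (T := T) (B := B) (q := q) hT hc hb x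
    (measurableSet_singleton j))
  have e : VarB_W T B c b q x j = (VarB_cls T B c b q x ⁻¹' {j}).indicator
      (fun V => T.kap B c b q x V * T.kap B c b q x V) := by
    funext V
    unfold VarB_W
    by_cases hV : VarB_cls T B c b q x V = j
    · rw [if_pos hV, Set.indicator_of_mem (show V ∈ VarB_cls T B c b q x ⁻¹' {j} from hV), sq]
    · rw [if_neg hV, Set.indicator_of_notMem (show V ∉ VarB_cls T B c b q x ⁻¹' {j} from hV)]
  rw [e]
  exact h1

omit [DecidableEq ι] in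
private theorem VarB_kap_sq {T : Sys X ι} {B : Set X} {c b q : ℝ} (x : X) (V : X → ℝ) {J : ℕ}
    (hJ : VarB_cls T B c b q x V < J) :
    T.kap B c b q x V ^ 2 = ∑ j ∈ Finset.range J, VarB_W T B c b q x j V := by
  unfold VarB_W
  rw [Finset.sum_ite_eq, if_pos (Finset.mem_range.2 hJ)]

end cls

theorem lemma_var {c : ℝ} (hc : 0 < c) : ∃ C : ℝ, 0 < C ∧
    ∀ (X ι : Type) [Fintype X] [DecidableEq X] [Fintype ι] [DecidableEq ι] (T : Sys X ι)
      (B : Finset X) (b q : ℝ) (Mf : (X → ℝ) → EuclideanSpace ℂ (ι × ι)), T.Good → 0 < b →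
      b ≤ 1 → b ≤ c / 2 → 0 < q → q ≤ 1 / 2 → BMeas Mf →
      (∀ x ∈ B, ∀ V v, Mf (Function.update V x v) = Mf V) →
      b * q * ∑ x ∈ B, ∫ V, T.kap (B : Set X) c b q x V ^ 2 ∂(PX X c)
        ≤ C * (1 + Real.log (1 / (b * q))) ^ 3
          * ∫ V, ‖T.Sv (dfm (B : Set X) c b V I) - Mf V‖ ^ 2 ∂(PX X c) := by
  obtain ⟨c1, c2, hc1, hc2, hS1⟩ := single_lower hc
  obtain ⟨C2, hC2, hS2⟩ := pair_sum hc
  set c5 : ℝ := c / (2 * c / c1 + 1) with hc5d
  have hc5 : 0 < c5 := by positivity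
  set K0 : ℝ := 1 + 2 / c with hK0d
  have hK0 : 0 < K0 := by positivity
  have hK01 : 1 ≤ K0 := by
    rw [hK0d]
    have : 0 < 2 / c := by positivity
    linarith
  have hlog2 : 0 < Real.log 2 := Real.log_pos (by norm_num)
  have hlogK : 0 ≤ Real.log K0 := Real.log_nonneg hK01
  set CJ : ℝ := (Real.log K0 + 1) / Real.log 2 + 1 with hCJd
  have hCJ : 0 < CJ := by positivity
  refine ⟨2 * K0 * CJ / (c2 * c5 ^ 2) + C2 * CJ ^ 2 / (2 * c2 ^ 2 * c5 ^ 2), by positivity, ?_⟩
  intro X ι _ _ _ _ T B b q Mf hT hb hb1 hbc hq hq2 hMf hind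
  classical
  have hprob := isProb_PX (X := X) hc
  have hprob1 := isProb_unif hc
  have hq1 : q < 1 := by linarith
  have hs : 0 < b * q := mul_pos hb hq
  have hs1 : b * q ≤ 1 := by nlinarith
  set L := 1 + Real.log (1 / (b * q)) with hLd
  have hlogs : 0 ≤ Real.log (1 / (b * q)) := Real.log_nonneg (by rwa [le_div_iff₀ hs, one_mul])
  have hL : 1 ≤ L := by rw [hLd]; linarith
  set S := (B : Set X) with hS
  set W := ∑ x ∈ B, ∫ V, T.kap S c b q x V ^ 2 ∂(PX X c) with hWd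
  have hW : 0 ≤ W := Finset.sum_nonneg fun x _ => integral_nonneg fun V => sq_nonneg _
  -- the classes
  set Km : ℝ := 1 + 2 / (c * (b * q)) with hKmd
  have hKm1 : 1 ≤ Km := by
    have : 0 < 2 / (c * (b * q)) := by positivity
    linarith
  have hKm : Km ≤ K0 / (b * q) := by
    rw [hKmd, hK0d, le_div_iff₀ hs]
    have e : (1 + 2 / (c * (b * q))) * (b * q) = b * q + 2 / c := by
      field_simp
    rw [e]
    linarith
  set J : ℕ := Nat.log 2 ⌊Km⌋₊ + 1 with hJd
  have hfl : ⌊Km⌋₊ ≠ 0 := by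
    have : 1 ≤ ⌊Km⌋₊ := Nat.le_floor (by exact_mod_cast hKm1)
    omega
  have hpow : ∀ j < J, (2 : ℝ) ^ j ≤ Km := by
    intro j hj
    have h1 : j ≤ Nat.log 2 ⌊Km⌋₊ := by omega
    have h2 : (2 : ℝ) ^ j ≤ (2 : ℝ) ^ Nat.log 2 ⌊Km⌋₊ := pow_le_pow_right₀ (by norm_num) h1
    have h3 : ((2 ^ Nat.log 2 ⌊Km⌋₊ : ℕ) : ℝ) ≤ (⌊Km⌋₊ : ℝ) := by
      exact_mod_cast Nat.pow_log_le_self 2 hfl
    push_cast at h3
    exact h2.trans (h3.trans (Nat.floor_le (by linarith)))
  have hcls : ∀ x ∈ B, ∀ V, VarB_cls T S c b q x V < J := by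
    intro x hx V
    have h1 := Sys.KX_le hT hc hb hq hq2 (Finset.mem_coe.2 hx) V
    have h2 : ⌊1 + T.KX S c b q x V⌋₊ ≤ ⌊Km⌋₊ := Nat.floor_le_floor (by rw [hKmd]; linarith)
    have h3 := Nat.log_mono_right (b := 2) h2
    show Nat.log 2 ⌊1 + T.KX S c b q x V⌋₊ < J
    omega
  have hJL : (J : ℝ) ≤ CJ * L := by
    have h1 := hpow (Nat.log 2 ⌊Km⌋₊) (by omega)
    have h2 : (2 : ℝ) ^ Nat.log 2 ⌊Km⌋₊ ≤ K0 * (1 / (b * q)) := by
      rw [mul_one_div]
      exact h1.trans hKm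
    have h3 := Real.log_le_log (by positivity) h2
    rw [Real.log_pow, Real.log_mul (by positivity) (by positivity)] at h3
    have h4 : (Nat.log 2 ⌊Km⌋₊ : ℝ) ≤ (Real.log K0 + 1) / Real.log 2 * L := by
      rw [div_mul_eq_mul_div, le_div_iff₀ hlog2]
      have : Real.log K0 ≤ Real.log K0 * L := le_mul_of_one_le_right hlogK hL
      rw [hLd] at *
      nlinarith
    rw [hJd, hCJd]
    push_cast
    nlinarith
  have hJ0 : (0 : ℝ) < J := by
    rw [hJd]
    positivity
  have hWj : W = ∑ j ∈ Finset.range J, ∑ x ∈ B, ∫ V, VarB_W T S c b q x j V ∂(PX X c) := by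
    rw [hWd, Finset.sum_comm]
    refine Finset.sum_congr rfl fun x hx => ?_
    rw [← integral_finsetSum _ fun j _ => (VarB_W_bmeas hT hc hb.le x j).integrable _]
    refine integral_congr_ae (Filter.Eventually.of_forall fun V => ?_)
    exact VarB_kap_sq x V (hcls x hx V)
  obtain ⟨j, hj, hWjj⟩ : ∃ j ∈ Finset.range J,
      W / J ≤ ∑ x ∈ B, ∫ V, VarB_W T S c b q x j V ∂(PX X c) := by
    refine Finset.exists_le_of_sum_le ⟨0, Finset.mem_range.2 (by omega)⟩ ?_
    rw [Finset.sum_const, Finset.card_range, nsmul_eq_mul, mul_div_cancel₀ _ hJ0.ne', ← hWj]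
  set Wj := ∑ x ∈ B, ∫ V, VarB_W T S c b q x j V ∂(PX X c) with hWjd
  have hWj0 : 0 ≤ Wj := Finset.sum_nonneg fun x _ => integral_nonneg fun V => by
    show 0 ≤ VarB_W T S c b q x j V
    unfold VarB_W
    split_ifs
    · positivity
    · exact le_rfl
  -- the choice of `m`
  have h2j : (0 : ℝ) < 2 ^ (j + 1) := by positivity
  set m : ℕ := ⌈2 * ((1 - q) * c) * 2 ^ (j + 1) / c1⌉₊ with hmd
  have hqc : 0 < (1 - q) * c := mul_pos (by linarith) hc
  have hm : 1 ≤ m := Nat.one_le_iff_ne_zero.2 (Nat.pos_iff_ne_zero.1 (Nat.ceil_pos.2 (by positivity)))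
  have hm0 : (0 : ℝ) < m := by exact_mod_cast hm
  have ht : 0 < tt c q m := tt_pos hc hq1 hm
  have htm : tt c q m * m = 2 * ((1 - q) * c) := by
    unfold tt
    field_simp
  have ht1 : tt c q m * 2 ^ (j + 1) ≤ c1 := by
    have h1 : 2 * ((1 - q) * c) * 2 ^ (j + 1) / c1 ≤ m := Nat.le_ceil _
    rw [div_le_iff₀ hc1] at h1
    have h2 : tt c q m * 2 ^ (j + 1) * m ≤ c1 * m := by
      calc _ = (tt c q m * m) * 2 ^ (j + 1) := by ring
        _ = 2 * ((1 - q) * c) * 2 ^ (j + 1) := by rw [htm]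
        _ ≤ _ := by linarith
    exact le_of_mul_le_mul_right h2 hm0
  have ht2 : c5 ≤ tt c q m * 2 ^ (j + 1) := by
    have h1 : (m : ℝ) < 2 * ((1 - q) * c) * 2 ^ (j + 1) / c1 + 1 :=
      Nat.ceil_lt_add_one (by positivity)
    have h2 : (m : ℝ) ≤ 2 ^ (j + 1) * (2 * c / c1 + 1) := by
      have h3 : 2 * ((1 - q) * c) * 2 ^ (j + 1) / c1 ≤ 2 ^ (j + 1) * (2 * c / c1) := by
        rw [div_le_iff₀ hc1]
        have e : 2 ^ (j + 1) * (2 * c / c1) * c1 = 2 * c * 2 ^ (j + 1) := by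
          field_simp
        rw [e]
        have : (1 - q) * c ≤ c := by nlinarith
        nlinarith
      have h4 : (1 : ℝ) ≤ 2 ^ (j + 1) := one_le_pow₀ (by norm_num)
      nlinarith
    rw [hc5d, div_le_iff₀ (by positivity)]
    have h5 : c ≤ tt c q m * m := by
      rw [htm]
      nlinarith
    calc c ≤ tt c q m * m := h5
      _ ≤ tt c q m * (2 ^ (j + 1) * (2 * c / c1 + 1)) := mul_le_mul_of_nonneg_left h2 ht.le
      _ = _ := by ring
  set t := tt c q m with htd
  set F : (X → ℝ) → EuclideanSpace ℂ (ι × ι) := fun V => T.Sv (dfm S c b V I) with hFd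
  have hadm : ∀ V : X → ℝ, Adm (dfm S c b V I) := fun V => adm_dfm S c hb.le V (by simp)
  have hF : BMeas F := by
    refine BMeas.of_continuous (C := √(Fintype.card ι : ℝ)) ?_ fun V => Sys.norm_Sv_le hT (hadm V)
    exact Sys.continuous_Sv hT (fun x => continuous_dfm S c b I x) hadm
  set I1 := ∑ x ∈ B, ∫ V, ‖DX c q m x F V‖ ^ 2 ∂(PX X c) with hI1d
  set I2 := ∑ x ∈ B, ∑ y ∈ B.erase x, ∫ V, ‖DX c q m x (DX c q m y F) V‖ ^ 2 ∂(PX X c) with hI2d
  set E := ∫ V, ‖T.Sv (dfm S c b V I) - Mf V‖ ^ 2 ∂(PX X c) with hEd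
  have hE : 0 ≤ E := integral_nonneg fun V => sq_nonneg _
  have hI1 : 0 ≤ I1 := Finset.sum_nonneg fun x _ => integral_nonneg fun V => sq_nonneg _
  have hef : I1 ^ 2 ≤ (I1 + I2) * E := efron hc hq.le hq1 hm B hF hMf hind
  have hI2 : I2 ≤ C2 * t ^ 2 * L / (b * q) * W := hS2 X ι T B b q m hT hb hb1 hbc hq hq2 hm
  have hI1W : 2 * c2 * c5 * t * W / J ≤ I1 := by
    have h1 : ∀ x ∈ B, 4 * c2 * t ^ 2 * (2 ^ j * ∫ V, VarB_W T S c b q x j V ∂(PX X c))
        ≤ ∫ V, ‖DX c q m x F V‖ ^ 2 ∂(PX X c) := by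
      intro x hx
      refine le_trans ?_ (hS1 X ι T S b q x m hT hb hbc hq hq2 (Finset.mem_coe.2 hx) hm)
      refine mul_le_mul_of_nonneg_left ?_ (by positivity)
      rw [← integral_const_mul]
      have hmk := (Sys.bmeas_KX (T := T) (B := S) (q := q) (x := x) hT hc hb.le)
      have hkk := (Sys.bmeas_kap (T := T) (B := S) (q := q) (x := x) hT hc hb.le)
      have hset : MeasurableSet {V : X → ℝ | t * (1 + T.KX S c b q x V) ≤ c1} :=
        measurableSet_le (measurable_const.mul (measurable_const.add hmk.meas.measurable))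
          measurable_const
      have hg : BMeas fun V => if t * (1 + T.KX S c b q x V) ≤ c1 then
          (1 + T.KX S c b q x V) * T.kap S c b q x V ^ 2 else 0 := by
        have h := (((BMeas.const (1 : ℝ)).add hmk).mul (hkk.mul hkk)).indicator hset
        have e : (fun V => if t * (1 + T.KX S c b q x V) ≤ c1 then
            (1 + T.KX S c b q x V) * T.kap S c b q x V ^ 2 else 0)
            = {V : X → ℝ | t * (1 + T.KX S c b q x V) ≤ c1}.indicator
              (fun V => (1 + T.KX S c b q x V) * (T.kap S c b q x V * T.kap S c b q x V)) := by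
          funext V
          rw [Set.indicator_apply, sq]
          rfl
        rw [e]
        exact h
      refine integral_mono_of_nonneg (Filter.Eventually.of_forall fun V => ?_) (hg.integrable _)
        (Filter.Eventually.of_forall fun V => ?_)
      · show 0 ≤ 2 ^ j * VarB_W T S c b q x j V
        unfold VarB_W
        split_ifs
        · positivity
        · simp
      · show 2 ^ j * VarB_W T S c b q x j V ≤ if t * (1 + T.KX S c b q x V) ≤ c1 then
          (1 + T.KX S c b q x V) * T.kap S c b q x V ^ 2 else 0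
        have hK0' := Sys.KX_nonneg (T := T) (B := S) (c := c) (b := b) (q := q) (x := x) V
        unfold VarB_W
        by_cases hcl : VarB_cls T S c b q x V = j
        · rw [if_pos hcl]
          have h1 := VarB_cls_le (T := T) (B := S) (c := c) (b := b) (q := q) x V
          have h2 := VarB_lt_cls (T := T) (B := S) (c := c) (b := b) (q := q) x V
          rw [hcl] at h1 h2
          have h3 : t * (1 + T.KX S c b q x V) ≤ c1 :=
            (mul_le_mul_of_nonneg_left h2.le ht.le).trans ht1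
          rw [if_pos h3]
          exact mul_le_mul_of_nonneg_right h1 (sq_nonneg _)
        · rw [if_neg hcl, mul_zero]
          split_ifs
          · exact mul_nonneg (by linarith) (sq_nonneg _)
          · exact le_rfl
    have h2 : 4 * c2 * t ^ 2 * (2 ^ j * Wj) ≤ I1 := by
      rw [hWjd, hI1d, Finset.mul_sum, Finset.mul_sum]
      exact Finset.sum_le_sum h1
    have h3 : 2 * c2 * c5 * t * Wj ≤ 4 * c2 * t ^ 2 * (2 ^ j * Wj) := by
      have e : 4 * c2 * t ^ 2 * (2 ^ j * Wj) = 2 * c2 * (t * 2 ^ (j + 1)) * t * Wj := by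
        rw [pow_succ]
        ring
      rw [e]
      refine mul_le_mul_of_nonneg_right ?_ hWj0
      refine mul_le_mul_of_nonneg_right ?_ ht.le
      exact mul_le_mul_of_nonneg_left ht2 (by positivity)
    calc 2 * c2 * c5 * t * W / J = 2 * c2 * c5 * t * (W / J) := by ring
      _ ≤ 2 * c2 * c5 * t * Wj := mul_le_mul_of_nonneg_left hWjj (by positivity)
      _ ≤ _ := h3.trans h2
  have htl : c5 * (b * q) / (2 * K0) ≤ t := by
    rw [div_le_iff₀ (by positivity)]
    have h1 := hpow j (Finset.mem_range.1 hj)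
    have h2 : (2 : ℝ) ^ (j + 1) ≤ 2 * (K0 / (b * q)) := by
      rw [pow_succ]
      linarith [h1.trans hKm]
    have h3 : c5 ≤ t * (2 * (K0 / (b * q))) := ht2.trans (mul_le_mul_of_nonneg_left h2 ht.le)
    calc c5 * (b * q) ≤ t * (2 * (K0 / (b * q))) * (b * q) := mul_le_mul_of_nonneg_right h3 hs.le
      _ = _ := by
        field_simp
  exact VarB_arith hc2 hc5 hC2 hCJ hK0 hW hE hI1 ht hL hJ0 hs hI1W hI2 hef htl hJL

end Pool.Agent.Lib.MP_562b47_mp.Str
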