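import Pool.Agent.Lib.MP_562b47_mp.Str.Num
import Pool.Agent.Lib.MP_562b47_mp.Str.CS
import Pool.Agent.Lib.MP_562b47_mp.Str.VarB
import Pool.Agent.Lib.MP_562b47_mp.Str.Transfer

/-!
Module STR-BlockA (MP_562b47_mp, strips).  The parameters of the block theorem and the small terms.

`q = Λ^(-ε/8)`, `b = Λ^(-3ε/4)/m`, `J = ⌈60 log₂ Λ⌉`, `r = ⌈2 R P/(b q)⌉ + 2`, `P = Pk (R+c+2) Δ k`,
`k ≥ 480/ε`, `h V = (S.cut ℓ (n+l)).Sv (dfm (Blk ℓ n l) c b V I)`, `M = card ι ≤ m ≤ Λ`.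

PROOFS.
* `bd_params`: `1 ≤ m`, `Λ ≥ 64`; `b ≤ Λ^(-3ε/4)`; `r - 1 ≥ 2RP/(bq)`; `1/(bq) = m Λ^(7ε/8)`;
  `r ≤ 2RP m Λ^(7ε/8) + 3 ≤ (2RP + 4) m Λ^(7ε/8) - ...` and `J ≤ 60 log₂ Λ + 1`, so
  `J r + 2k + 4 ≤ m ((60 log₂ Λ + 2)(2RP+4) Λ^(7ε/8) + 2k + 4) ≤ m Λ^ε ≤ l` (`n3`).
* `bd_card`: `#BlkF ≤ m l` (sum of the layers), `l ≤ 2 m Λ^ε`; so `b #BlkF ≤ 2 m Λ^(ε/4)` and
  `CT b² #BlkF ≤ 2 CT Λ^(-ε/2) ≤ 1` (`n4`).  Also `#BlkF ≤ Λ` (`tot`).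
* `bd_GE`: `prob_GE` (with `fwd_Fs`, restricted to `n + l ≤ N`), `#BlkF ≤ Λ`, `n5`:
  `P(GEᶜ) ≤ Λ (Δ+1)^k q^(k+1) ≤ Λ² Λ^(-ε(k+1)/8) ≤ Λ² Λ^(-60) = Λ^(-58)`.
* `bd_e1`: `expect_influ`; `(1/2)^J ≤ Λ^(-60)`; `RP/(bq) (1/2)^J M ≤ R P m Λ^(7ε/8) Λ^(-60) Λ
  ≤ R P Λ^(-57)`; `4 M P(GEᶜ) ≤ 4 Λ^(-57)`; `n6`.
* `bd_core`: `expect_core`; `(1/2)^J M ≤ Λ^(-59)`; `4 η Aint ≤ Λ^(-57)` by `n7`
  (`P M/(4bq) ≤ P Λ³`, as `1/(bq) = m Λ^(7ε/8) ≤ Λ²`; `(R+c+3)^(n+1) ≤ (R+c+3)^(Λ+1)` since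
  `n ≤ Λ`, `R + c + 3 ≥ 1`; `#{ℓ ≤ n} ≤ Λ`); `M P(GEᶜ) ≤ Λ^(-57)`; the sum is `≤ Λ^(-56)` (`Λ ≥ 64`).
* `bd_log`: `log(1/(bq)) = log m + (7ε/8) log Λ ≤ 2 log Λ`.
-/

open MeasureTheory Matrix Complex

namespace Pool.Agent.Lib.MP_562b47_mp.Str

variable {X ι : Type} [Fintype X] [DecidableEq X] [Fintype ι] [DecidableEq ι]

/-- the hypotheses of the block theorem -/
structure BD (S : Sys X ι) (ℓ : X → ℕ) (up : X → X) (c R ε η Λ Cη : ℝ) (Δ N m n l : ℕ) : Prop where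
  hc : 0 < c
  hR : 0 ≤ R
  hε : 0 < ε
  hε1 : ε ≤ 1
  good : S.Good
  lay : S.Layered ℓ up R Δ N
  hN : n + l ≤ N
  src : ∀ x, n < ℓ x → ∀ s, S.U x s = 0
  hU : ∀ x, ∑ s, S.U x s ^ 2 ≤ 1
  η0 : 0 ≤ η
  ηle : η ≤ Real.exp (-(Cη * Λ))
  hCη : 0 ≤ Cη
  yle : ∀ x, ℓ x ≤ n + l → S.y x ≤ η
  m1 : 1 ≤ m
  mΛ : (m : ℝ) ≤ Λ
  Mm : Fintype.card ι ≤ m
  width : ∀ j, n < j → j ≤ n + l → (Finset.univ.filter fun x => ℓ x = j).card ≤ m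
  tot : ((Finset.univ.filter fun x => ℓ x ≤ n + l).card : ℝ) ≤ Λ
  nΛ : (n : ℝ) ≤ Λ
  l1 : (m : ℝ) * Λ ^ ε ≤ l
  l2 : (l : ℝ) ≤ 2 * (m * Λ ^ ε)

/-- the parameter `q` -/
noncomputable def pq (ε Λ : ℝ) : ℝ := Λ ^ (-(ε / 8))

/-- the parameter `b` -/
noncomputable def pb (ε Λ : ℝ) (m : ℕ) : ℝ := Λ ^ (-(3 * ε / 4)) / m

variable {S : Sys X ι} {ℓ : X → ℕ} {up : X → X} {c R ε η Λ Cη CT CV : ℝ} {Δ N m n l k : ℕ}

theorem bd_params (h : BD S ℓ up c R ε η Λ Cη Δ N m n l)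
    (hn : NumOK c R ε CT CV (Pk (R + c + 2) Δ k) Cη Δ k Λ) :
    0 < pb ε Λ m ∧ pb ε Λ m ≤ 1 ∧ pb ε Λ m ≤ c / 2 ∧ 0 < pq ε Λ ∧ pq ε Λ ≤ 1 / 2 ∧
    1 / (pb ε Λ m * pq ε Λ) = m * Λ ^ (7 * ε / 8) := by
  have hΛ64 := hn.n0
  have hΛ : 0 < Λ := by linarith
  have hε := h.hε
  have hm : (1 : ℝ) ≤ m := by exact_mod_cast h.m1
  have hx0 : 0 < Λ ^ (-(3 * ε / 4)) := Real.rpow_pos_of_pos hΛ _
  have hx1 : Λ ^ (-(3 * ε / 4)) ≤ 1 :=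
    Real.rpow_le_one_of_one_le_of_nonpos (by linarith) (by linarith)
  have hble : pb ε Λ m ≤ Λ ^ (-(3 * ε / 4)) := div_le_self hx0.le hm
  refine ⟨?_, hble.trans hx1, hble.trans hn.n2', Real.rpow_pos_of_pos hΛ _, hn.n2, ?_⟩
  · unfold pb
    positivity
  · unfold pb pq
    have e1 : Λ ^ (-(3 * ε / 4)) / m * Λ ^ (-(ε / 8)) = (m * Λ ^ (7 * ε / 8))⁻¹ := by
      rw [div_mul_eq_mul_div, ← Real.rpow_add hΛ, mul_inv, ← Real.rpow_neg hΛ.le, div_eq_mul_inv,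
        mul_comm]
      congr 2
      ring
    rw [e1, one_div, inv_inv]

theorem bd_rJ (h : BD S ℓ up c R ε η Λ Cη Δ N m n l)
    (hn : NumOK c R ε CT CV (Pk (R + c + 2) Δ k) Cη Δ k Λ) :
    ∃ r J : ℕ, 2 ≤ r ∧
      2 * R * Pk (R + c + 2) Δ k ≤ (r - 1) * (pb ε Λ m * pq ε Λ) ∧
      J * r + 2 * k + 4 ≤ l ∧ ((1 : ℝ) / 2) ^ J ≤ Λ ^ (-60 : ℝ) := by
  obtain ⟨hb, hb1, hbc, hq, hq1, hbq⟩ := bd_params h hn
  have hΛ64 := hn.n0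
  have hΛ : 0 < Λ := by linarith
  have hε := h.hε
  have hR := h.hR
  have hc := h.hc
  have hm : (1 : ℝ) ≤ m := by exact_mod_cast h.m1
  have hP : 0 ≤ Pk (R + c + 2) Δ k := by unfold Pk; positivity
  set P := Pk (R + c + 2) Δ k with hPd
  set W : ℝ := m * Λ ^ (7 * ε / 8) with hW
  have hw1 : 1 ≤ Λ ^ (7 * ε / 8) := Real.one_le_rpow (by linarith) (by linarith)
  have hW1 : 1 ≤ W := by nlinarith
  have hβ : 0 < pb ε Λ m * pq ε Λ := mul_pos hb hq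
  have hWβ : W * (pb ε Λ m * pq ε Λ) = 1 := by
    rw [← hbq]
    field_simp
  have hL0 : 0 ≤ Real.logb 2 Λ := Real.logb_nonneg (by norm_num) (by linarith)
  refine ⟨⌈2 * R * P * W⌉₊ + 2, ⌈60 * Real.logb 2 Λ⌉₊, by omega, ?_, ?_, ?_⟩
  · have h1 : 2 * R * P * W ≤ (⌈2 * R * P * W⌉₊ : ℝ) := Nat.le_ceil _
    push_cast
    calc 2 * R * P = (2 * R * P * W) * (pb ε Λ m * pq ε Λ) := by
          rw [mul_assoc (2 * R * P), hWβ, mul_one]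
      _ ≤ ((⌈2 * R * P * W⌉₊ : ℝ) + 2 - 1) * (pb ε Λ m * pq ε Λ) := by
          apply mul_le_mul_of_nonneg_right _ hβ.le
          linarith
  · have h1 : (⌈2 * R * P * W⌉₊ : ℝ) ≤ 2 * R * P * W + 1 := (Nat.ceil_lt_add_one (by positivity)).le
    have h2 : (⌈60 * Real.logb 2 Λ⌉₊ : ℝ) ≤ 60 * Real.logb 2 Λ + 1 :=
      (Nat.ceil_lt_add_one (by positivity)).le
    have h3 := hn.n3
    have h4 := mul_le_mul_of_nonneg_left h3 (show (0 : ℝ) ≤ m by linarith)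
    have h5 := h.l1
    have h6 : ((⌈60 * Real.logb 2 Λ⌉₊ * (⌈2 * R * P * W⌉₊ + 2) + 2 * k + 4 : ℕ) : ℝ) ≤ l := by
      push_cast
      have h7 : (⌈60 * Real.logb 2 Λ⌉₊ : ℝ) * ((⌈2 * R * P * W⌉₊ : ℝ) + 2) ≤
          (60 * Real.logb 2 Λ + 2) * ((2 * R * P + 4) * W) := by
        apply mul_le_mul
        · linarith
        · nlinarith
        · positivity
        · positivity
      have h8 : (60 * Real.logb 2 Λ + 2) * ((2 * R * P + 4) * W) =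
          m * ((60 * Real.logb 2 Λ + 2) * ((2 * R * P + 4) * Λ ^ (7 * ε / 8))) := by
        rw [hW]
        ring
      have h9 : (2 * (k : ℝ) + 4) ≤ m * (2 * k + 4) :=
        le_mul_of_one_le_left (by positivity) hm
      have h10 : (m : ℝ) * ((60 * Real.logb 2 Λ + 2) * ((2 * R * P + 4) * Λ ^ (7 * ε / 8)) +
          (2 * k + 4)) ≤ m * Λ ^ ε := h4
      rw [mul_add] at h10
      linarith
    exact_mod_cast h6
  · have h1 : 60 * Real.logb 2 Λ ≤ (⌈60 * Real.logb 2 Λ⌉₊ : ℝ) := Nat.le_ceil _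
    have e1 : ((1 : ℝ) / 2) ^ ⌈60 * Real.logb 2 Λ⌉₊ =
        (2 : ℝ) ^ (-(⌈60 * Real.logb 2 Λ⌉₊ : ℝ)) := by
      rw [Real.rpow_neg (by norm_num), Real.rpow_natCast, one_div, inv_pow]
    have e2 : Λ ^ (-60 : ℝ) = (2 : ℝ) ^ (-(60 * Real.logb 2 Λ)) := by
      have e3 : (2 : ℝ) ^ (Real.logb 2 Λ) = Λ := Real.rpow_logb (by norm_num) (by norm_num) hΛ
      conv_lhs => rw [← e3]
      rw [← Real.rpow_mul (by norm_num)]
      congr 1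
      ring
    rw [e1, e2]
    exact Real.rpow_le_rpow_of_exponent_le (by norm_num) (by linarith)

theorem bd_card (h : BD S ℓ up c R ε η Λ Cη Δ N m n l)
    (hn : NumOK c R ε CT CV (Pk (R + c + 2) Δ k) Cη Δ k Λ) (hCT : 0 < CT) :
    pb ε Λ m * (BlkF ℓ n l).card ≤ 2 * (m * Λ ^ (ε / 4)) ∧
    CT * pb ε Λ m ^ 2 * (BlkF ℓ n l).card ≤ 1 := by
  obtain ⟨hb, hb1, hbc, hq, hq1, hbq⟩ := bd_params h hn
  have hΛ64 := hn.n0
  have hΛ : 0 < Λ := by linarith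
  have hm : (1 : ℝ) ≤ m := by exact_mod_cast h.m1
  have hm0 : (0 : ℝ) < m := by linarith
  have h1 : (BlkF ℓ n l).card ≤ m * (Finset.Ioc n (n + l)).card := by
    apply Finset.card_le_mul_card_image_of_maps_to (f := ℓ)
    · intro x hx
      simp only [BlkF, Finset.mem_filter, Finset.mem_univ, true_and] at hx
      exact Finset.mem_Ioc.mpr hx
    · intro j hj
      rw [Finset.mem_Ioc] at hj
      refine le_trans (Finset.card_le_card ?_) (h.width j hj.1 hj.2)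
      intro x hx
      rw [Finset.mem_filter] at hx ⊢
      exact ⟨Finset.mem_univ x, hx.2⟩
  rw [Nat.card_Ioc, Nat.add_sub_cancel_left] at h1
  have h2 : ((BlkF ℓ n l).card : ℝ) ≤ m * l := by exact_mod_cast h1
  have h3 : pb ε Λ m * (BlkF ℓ n l).card ≤ 2 * (m * Λ ^ (ε / 4)) := by
    calc pb ε Λ m * (BlkF ℓ n l).card ≤ pb ε Λ m * (m * (2 * (m * Λ ^ ε))) := by
          apply mul_le_mul_of_nonneg_left _ hb.le
          refine h2.trans (mul_le_mul_of_nonneg_left h.l2 hm0.le)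
      _ = 2 * (m * (Λ ^ (-(3 * ε / 4)) * Λ ^ ε)) := by
          unfold pb
          field_simp
      _ = 2 * (m * Λ ^ (ε / 4)) := by
          rw [← Real.rpow_add hΛ]
          congr 3
          ring
  refine ⟨h3, ?_⟩
  calc CT * pb ε Λ m ^ 2 * (BlkF ℓ n l).card
      = (CT * pb ε Λ m) * (pb ε Λ m * (BlkF ℓ n l).card) := by ring
    _ ≤ (CT * pb ε Λ m) * (2 * (m * Λ ^ (ε / 4))) :=
        mul_le_mul_of_nonneg_left h3 (by positivity)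
    _ = 2 * CT * (Λ ^ (-(3 * ε / 4)) * Λ ^ (ε / 4)) := by
        unfold pb
        field_simp
    _ = 2 * CT * Λ ^ (-(ε / 2)) := by
        rw [← Real.rpow_add hΛ]
        congr 2
        ring
    _ ≤ 1 := hn.n4

private theorem BlockA_e57 {Λ : ℝ} (hΛ : 0 < Λ) : Λ * Λ ^ (-58 : ℝ) = Λ ^ (-57 : ℝ) := by
  have : (-57 : ℝ) = 1 + -58 := by norm_num
  rw [this, Real.rpow_add hΛ, Real.rpow_one]

theorem bd_GE (h : BD S ℓ up c R ε η Λ Cη Δ N m n l)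
    (hn : NumOK c R ε CT CV (Pk (R + c + 2) Δ k) Cη Δ k Λ) (hk : 480 / ε ≤ k) :
    (PX X c).real (GE c (pq ε Λ) (S.Fs up) ℓ n l k)ᶜ ≤ Λ ^ (-58 : ℝ) := by
  classical
  obtain ⟨hb, hb1, hbc, hq, hq1, hbq⟩ := bd_params h hn
  have hΛ64 := hn.n0
  have hΛ : 0 < Λ := by linarith
  have hε := h.hε
  have hF := Sys.fwd_Fs h.good h.lay
  have hF' : Fwd ℓ (S.Fs up) Δ (n + l) := by
    have hN := h.hN
    refine ⟨fun x hx => hF.layer x (by omega), fun x hx => hF.card x (by omega), fun z => ?_⟩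
    refine le_trans (Finset.card_le_card ?_) (hF.col z)
    intro x hx
    simp only [Finset.mem_filter, Finset.mem_univ, true_and] at hx ⊢
    exact ⟨by omega, hx.2⟩
  have h1 := prob_GE (k := k) h.hc hq.le (by linarith : pq ε Λ ≤ 1) hF' (n := n) (l := l)
  have h2 : ((Finset.univ.filter fun x => n < ℓ x ∧ ℓ x ≤ n + l).card : ℝ) ≤ Λ := by
    refine le_trans ?_ h.tot
    exact_mod_cast Finset.card_le_card fun x hx => by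
      rw [Finset.mem_filter] at hx ⊢
      exact ⟨hx.1, hx.2.2⟩
  have h3 : pq ε Λ ^ (k + 1) ≤ Λ ^ (-60 : ℝ) := by
    unfold pq
    rw [← Real.rpow_natCast, ← Real.rpow_mul hΛ.le]
    apply Real.rpow_le_rpow_of_exponent_le (by linarith)
    have h4 : 480 ≤ k * ε := by rwa [div_le_iff₀ hε] at hk
    push_cast
    nlinarith
  have h5 := hn.n5
  calc (PX X c).real (GE c (pq ε Λ) (S.Fs up) ℓ n l k)ᶜ
      ≤ (Finset.univ.filter fun x => n < ℓ x ∧ ℓ x ≤ n + l).card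
        * (((Δ : ℝ) + 1) ^ k * pq ε Λ ^ (k + 1)) := h1
    _ ≤ Λ * (Λ * Λ ^ (-60 : ℝ)) := by
        gcongr
    _ = Λ ^ (-58 : ℝ) := by
        have e : (-58 : ℝ) = 1 + (1 + -60) := by norm_num
        rw [e, Real.rpow_add hΛ, Real.rpow_add hΛ, Real.rpow_one]

private theorem BlockA_eta (h : BD S ℓ up c R ε η Λ Cη Δ N m n l) (hΛ : 0 < Λ) : η ≤ 1 := by
  refine h.ηle.trans (Real.exp_le_one_iff.mpr ?_)
  have := mul_nonneg h.hCη hΛ.le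
  linarith

private theorem BlockA_W (h : BD S ℓ up c R ε η Λ Cη Δ N m n l) (hΛ : 1 ≤ Λ) :
    (m : ℝ) * Λ ^ (7 * ε / 8) ≤ Λ ^ 2 := by
  have h1 : Λ ^ (7 * ε / 8) ≤ Λ := by
    have hε1 := h.hε1
    calc Λ ^ (7 * ε / 8) ≤ Λ ^ (1 : ℝ) := Real.rpow_le_rpow_of_exponent_le hΛ (by linarith)
      _ = Λ := Real.rpow_one _
  calc (m : ℝ) * Λ ^ (7 * ε / 8) ≤ Λ * Λ := by
        apply mul_le_mul h.mΛ h1 (by positivity) (by linarith)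
    _ = Λ ^ 2 := by ring

theorem bd_e1 (h : BD S ℓ up c R ε η Λ Cη Δ N m n l)
    (hn : NumOK c R ε CT CV (Pk (R + c + 2) Δ k) Cη Δ k Λ) (hk : 480 / ε ≤ k) :
    ∫ V, ‖(S.cut ℓ (n + l)).Sv (dfm (Blk ℓ n l) c (pb ε Λ m) V I)
        - S.dav c (pb ε Λ m) ℓ n l V I‖ ^ 2 ∂(PX X c) ≤ Λ ^ (-56 : ℝ) := by
  obtain ⟨hb, hb1, hbc, hq, hq1, hbq⟩ := bd_params h hn
  obtain ⟨r, J, hr1, hr, hJ, hJ2⟩ := bd_rJ h hn
  have hΛ64 := hn.n0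
  have hΛ : 0 < Λ := by linarith
  have hR := h.hR
  have hc := h.hc
  have hη1 := BlockA_eta h hΛ
  have hP : 0 ≤ Pk (R + c + 2) Δ k := by unfold Pk; positivity
  have hM : (Fintype.card ι : ℝ) ≤ Λ := by
    refine le_trans ?_ h.mΛ
    exact_mod_cast h.Mm
  have h1 := Sys.expect_influ h.good h.hR h.lay h.hN h.src
    (fun x hx => (h.yle x hx).trans hη1) h.hc hb hb1 hq (by linarith) hr1 hr hJ
  have hGE := bd_GE h hn hk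
  refine h1.trans (le_trans ?_ hn.n6)
  have h2 : R * Pk (R + c + 2) Δ k / (pb ε Λ m * pq ε Λ) * ((1 / 2) ^ J * Fintype.card ι) ≤
      R * Pk (R + c + 2) Δ k * Λ ^ (-57 : ℝ) := by
    rw [div_eq_mul_one_div, hbq]
    calc R * Pk (R + c + 2) Δ k * (m * Λ ^ (7 * ε / 8)) * ((1 / 2) ^ J * Fintype.card ι)
        ≤ R * Pk (R + c + 2) Δ k * Λ ^ 2 * (Λ ^ (-60 : ℝ) * Λ) := by
          have hW := BlockA_W h (by linarith)
          gcongr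
      _ = R * Pk (R + c + 2) Δ k * (Λ ^ 2 * (Λ ^ (-60 : ℝ) * Λ)) := by ring
      _ = R * Pk (R + c + 2) Δ k * Λ ^ (-57 : ℝ) := by
          congr 1
          have e : (-57 : ℝ) = 1 + (1 + (-60 + 1)) := by norm_num
          rw [e, Real.rpow_add hΛ, Real.rpow_add hΛ, Real.rpow_add hΛ, Real.rpow_one]
          ring
  have h3 : 0 ≤ R * Pk (R + c + 2) Δ k / (pb ε Λ m * pq ε Λ) *
      ((1 / 2) ^ J * Fintype.card ι) := by positivity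
  have h4 : 4 * (Fintype.card ι : ℝ) * (PX X c).real (GE c (pq ε Λ) (S.Fs up) ℓ n l k)ᶜ ≤
      4 * Λ ^ (-57 : ℝ) := by
    rw [← BlockA_e57 hΛ]
    calc 4 * (Fintype.card ι : ℝ) * (PX X c).real (GE c (pq ε Λ) (S.Fs up) ℓ n l k)ᶜ
        ≤ 4 * Λ * Λ ^ (-58 : ℝ) := by gcongr
      _ = 4 * (Λ * Λ ^ (-58 : ℝ)) := by ring
  have h5 := pow_le_pow_left₀ h3 h2 2
  linarith

theorem bd_core (h : BD S ℓ up c R ε η Λ Cη Δ N m n l)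
    (hn : NumOK c R ε CT CV (Pk (R + c + 2) Δ k) Cη Δ k Λ) (hk : 480 / ε ≤ k) :
    (Fintype.card ι : ℝ)
        - ∫ V, ‖(S.cut ℓ (n + l)).Sv (dfm (Blk ℓ n l) c (pb ε Λ m) V I)‖ ^ 2 ∂(PX X c)
      ≤ 4 * pb ε Λ m * Pk (R + c + 2) Δ k
          * ∫ V, (S.cut ℓ (n + l)).coreMass ℓ n l c (pb ε Λ m) (pq ε Λ) V ∂(PX X c)
        + Λ ^ (-56 : ℝ) := by
  obtain ⟨hb, hb1, hbc, hq, hq1, hbq⟩ := bd_params h hn
  obtain ⟨r, J, hr1, hr, hJ, hJ2⟩ := bd_rJ h hn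
  have hΛ64 := hn.n0
  have hΛ : 0 < Λ := by linarith
  have hR := h.hR
  have hc := h.hc
  have hη1 := BlockA_eta h hΛ
  have hP : 0 ≤ Pk (R + c + 2) Δ k := by unfold Pk; positivity
  have hM : (Fintype.card ι : ℝ) ≤ Λ := by
    refine le_trans ?_ h.mΛ
    exact_mod_cast h.Mm
  have h1 := Sys.expect_core h.good h.hR h.lay h.hN h.src h.hU h.η0 hη1 h.yle h.hc hb hb1 hq
    (by linarith) hr1 hr hJ
  have hGE := bd_GE h hn hk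
  refine h1.trans ?_
  have h2 : ((1 : ℝ) / 2) ^ J * Fintype.card ι ≤ Λ ^ (-57 : ℝ) := by
    calc ((1 : ℝ) / 2) ^ J * Fintype.card ι ≤ Λ ^ (-60 : ℝ) * Λ := by gcongr
      _ = Λ ^ (-59 : ℝ) := by
          have e : (-59 : ℝ) = -60 + 1 := by norm_num
          rw [e, Real.rpow_add hΛ, Real.rpow_one]
      _ ≤ Λ ^ (-57 : ℝ) := Real.rpow_le_rpow_of_exponent_le (by linarith) (by norm_num)
  have h3 : (Fintype.card ι : ℝ) * (PX X c).real (GE c (pq ε Λ) (S.Fs up) ℓ n l k)ᶜ ≤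
      Λ ^ (-57 : ℝ) := by
    rw [← BlockA_e57 hΛ]
    gcongr
  have hQ : ((Finset.univ.filter fun x => ℓ x ≤ n).card : ℝ) ≤ Λ := by
    refine le_trans ?_ h.tot
    exact_mod_cast Finset.card_le_card fun x hx => by
      rw [Finset.mem_filter] at hx ⊢
      exact ⟨hx.1, by omega⟩
  have h4 : Pk (R + c + 2) Δ k * Fintype.card ι / (4 * pb ε Λ m * pq ε Λ) ≤
      Pk (R + c + 2) Δ k * Λ ^ 3 := by
    have e : Pk (R + c + 2) Δ k * Fintype.card ι / (4 * pb ε Λ m * pq ε Λ) =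
        Pk (R + c + 2) Δ k * (Fintype.card ι * ((1 / (pb ε Λ m * pq ε Λ)) / 4)) := by
      field_simp
    rw [e, hbq]
    have hW := BlockA_W h (by linarith)
    have hW0 : 0 ≤ (m : ℝ) * Λ ^ (7 * ε / 8) := by positivity
    calc Pk (R + c + 2) Δ k * (Fintype.card ι * ((m * Λ ^ (7 * ε / 8)) / 4))
        ≤ Pk (R + c + 2) Δ k * (Λ * (Λ ^ 2)) := by
          gcongr
          linarith
      _ = Pk (R + c + 2) Δ k * Λ ^ 3 := by ring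
  have h5 : (R + c + 3) ^ (n + 1) ≤ (R + c + 3) ^ (Λ + 1) := by
    rw [← Real.rpow_natCast]
    apply Real.rpow_le_rpow_of_exponent_le (by linarith)
    push_cast
    linarith [h.nΛ]
  have h6 : Aint R c (pb ε Λ m) (pq ε Λ) Δ k n (Fintype.card ι)
      (Finset.univ.filter fun x => ℓ x ≤ n).card ≤
      Λ * ((R + c + 3) ^ (Λ + 1) * (√(Pk (R + c + 2) Δ k * Λ ^ 3) + √Λ)) ^ 2
        + Pk (R + c + 2) Δ k * Λ ^ 3 := by
    unfold Aint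
    gcongr
  have h7 : 4 * η * Aint R c (pb ε Λ m) (pq ε Λ) Δ k n (Fintype.card ι)
      (Finset.univ.filter fun x => ℓ x ≤ n).card ≤ Λ ^ (-57 : ℝ) := by
    refine le_trans ?_ hn.n7
    have hη := h.η0
    have hηle := h.ηle
    have hA : 0 ≤ Λ * ((R + c + 3) ^ (Λ + 1) * (√(Pk (R + c + 2) Δ k * Λ ^ 3) + √Λ)) ^ 2
        + Pk (R + c + 2) Δ k * Λ ^ 3 := by positivity
    calc _ ≤ 4 * η * (Λ * ((R + c + 3) ^ (Λ + 1) * (√(Pk (R + c + 2) Δ k * Λ ^ 3) + √Λ)) ^ 2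
        + Pk (R + c + 2) Δ k * Λ ^ 3) := mul_le_mul_of_nonneg_left h6 (by positivity)
      _ ≤ _ := by
        apply mul_le_mul_of_nonneg_right _ hA
        linarith
  have h8 : 3 * Λ ^ (-57 : ℝ) ≤ Λ ^ (-56 : ℝ) := by
    have e : (-56 : ℝ) = 1 + -57 := by norm_num
    rw [e, Real.rpow_add hΛ, Real.rpow_one]
    apply mul_le_mul_of_nonneg_right _ (by positivity)
    linarith
  linarith

theorem bd_log (h : BD S ℓ up c R ε η Λ Cη Δ N m n l)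
    (hn : NumOK c R ε CT CV (Pk (R + c + 2) Δ k) Cη Δ k Λ) :
    1 + Real.log (1 / (pb ε Λ m * pq ε Λ)) ≤ 1 + 2 * Real.log Λ := by
  obtain ⟨hb, hb1, hbc, hq, hq1, hbq⟩ := bd_params h hn
  have hΛ64 := hn.n0
  have hΛ : 0 < Λ := by linarith
  have h1 : 1 / (pb ε Λ m * pq ε Λ) ≤ Λ ^ 2 := by
    rw [hbq]
    exact BlockA_W h (by linarith)
  have h2 : 0 < 1 / (pb ε Λ m * pq ε Λ) := by positivity
  have h3 := Real.log_le_log h2 h1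
  rw [Real.log_pow] at h3
  push_cast at h3
  linarith

end Pool.Agent.Lib.MP_562b47_mp.Str
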