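import Pool.Agent.Lib.MP_562b47_mp.Str.Meas
import Pool.Agent.Lib.MP_562b47_mp.Str.Cont
import Pool.Agent.Lib.MP_562b47_mp.Str.AnaInt

/-!
Module STR-Cav (MP_562b47_mp, strips).  Averages over the layers `> n` (martingale identities), and
the analytic family of the deformed averages.

PROOFS.
* `cav_dep`: `mix ℓ n V1 V' = mix ℓ n V2 V'` if `V1 = V2` on the layers `≤ n`.
* `cav_cav`: for `n ≤ n'`, `cav n (cav n' F) = cav n F`:
  `mix n' (mix n V V') V'' = mix n V (mix n' V' V'')`, then `mp_mix` (as a statement for each fixed `V`: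
  `∫∫ F (mix n V (mix n' V' V'')) = ∫ F (mix n V V')`, `integral_mix` for `F (mix n V ·)`).
* `integral_cav`: `integral_mix`.
* `inner_cav`: if `D` depends only on the layers `≤ n`: `∫ ⟪D, F⟫ = ∫ ⟪D, cav n F⟫`: `integral_mix` and
  `D (mix n V V') = D V` (take the inner product out of the inner integral:
  `integral_inner`/`ContinuousLinearMap.integral_comp_comm`).
* `cav_pyth`: `∫ ‖F - D‖² = ∫ ‖F - cav n F‖² + ∫ ‖cav n F - D‖²`; special case
  `∫ ‖cav n' F - cav n F‖² = ∫ ‖cav n' F‖² - ∫ ‖cav n F‖²` for `n ≤ n'` (expand, `inner_cav`,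
  `cav_cav`).
* `cav_top`: if all layers are `≤ n` then `cav n F = F`.
* `Phi` monotone: from the previous identity with `F V = S.Sv V`.
* `fam_dav`: the family `f V z = dav V z - sav n V`, `g V = sav (n+l) V - sav n V`, `Kb = 2 √M`:
  continuity: `continuousOn_of_dominated` (`mix` is continuous, `continuous_Sv`); for each `V'` the map
  `z ↦ S.Sv (dfm Blk c b (mix ..) z)` is differentiable at `0 < Im z` (`differentiableAt_Sv` with
  `α = V`, `β = b χ` on the block and `0` elsewhere), with values of norm `≤ √M` on `0 ≤ Im z`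
  (`norm_Sv_le`): differentiate under the integral, the derivative is bounded by Cauchy's estimate
  on a disc of radius `Im z0 / 2`.  Real values: `dfm_ofReal`, `mix_shf`; and `sav n (shf V t) = sav n V`
  (`shf` changes only the block, i.e. layers `> n`).
-/

open MeasureTheory Matrix Complex

namespace Pool.Agent.Lib.MP_562b47_mp.Str

variable {X ι : Type*} [Fintype X] [DecidableEq X] [Fintype ι] [DecidableEq ι]

section gen

variable {E : Type*} [NormedAddCommGroup E] [InnerProductSpace ℂ E] [FiniteDimensional ℂ E]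
  {c : ℝ} {ℓ : X → ℕ} {n n' : ℕ} {F D : (X → ℝ) → E}

theorem cav_dep (c : ℝ) (ℓ : X → ℕ) (n : ℕ) (F : (X → ℝ) → E) {V1 V2 : X → ℝ}
    (h : ∀ x, ℓ x ≤ n → V1 x = V2 x) : cav c ℓ n F V1 = cav c ℓ n F V2 := by
  have h1 : ∀ V' : X → ℝ, mix ℓ n V1 V' = mix ℓ n V2 V' := by
    intro V'
    funext x
    unfold mix
    split_ifs with hx
    · exact h x hx
    · rfl
  unfold cav
  simp_rw [h1]

theorem BMeas.cav (hc : 0 < c) (hF : BMeas F) (ℓ : X → ℕ) (n : ℕ) : BMeas (cav c ℓ n F) := by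
  have := isProb_PX (X := X) hc
  exact (hF.comp (measurable_mix ℓ n)).integral (PX X c)

theorem norm_cav_le (hc : 0 < c) {C : ℝ} (hF : ∀ V, ‖F V‖ ≤ C) (ℓ : X → ℕ) (n : ℕ) (V : X → ℝ) :
    ‖cav c ℓ n F V‖ ≤ C := by
  have := isProb_PX (X := X) hc
  unfold cav
  refine (norm_integral_le_of_norm_le_const (Filter.Eventually.of_forall fun V' => hF _)).trans ?_
  rw [probReal_univ, mul_one]

private theorem cav_mix_mix (ℓ : X → ℕ) {n n' : ℕ} (h : n ≤ n') (V V' V'' : X → ℝ) :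
    mix ℓ n' (mix ℓ n V V') V'' = mix ℓ n V (mix ℓ n' V' V'') := by
  funext x
  unfold mix
  split_ifs with h1 h2 h2
  · rfl
  · rfl
  · exact absurd (h2.trans h) h1
  · rfl

private theorem cav_bmeas_mix (hF : BMeas F) (ℓ : X → ℕ) (n : ℕ) (V : X → ℝ) :
    BMeas fun V' => F (mix ℓ n V V') :=
  hF.comp ((measurable_mix ℓ n).comp (measurable_const.prodMk measurable_id))

theorem cav_cav (hc : 0 < c) (hF : BMeas F) (h : n ≤ n') (V : X → ℝ) :
    cav c ℓ n (cav c ℓ n' F) V = cav c ℓ n F V := by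
  have h1 := integral_mix hc ℓ n' (cav_bmeas_mix hF ℓ n V)
  unfold cav
  rw [h1]
  refine integral_congr_ae (Filter.Eventually.of_forall fun V' => ?_)
  refine integral_congr_ae (Filter.Eventually.of_forall fun V'' => ?_)
  show F (mix ℓ n' (mix ℓ n V V') V'') = F (mix ℓ n V (mix ℓ n' V' V''))
  rw [cav_mix_mix ℓ h]

theorem integral_cav (hc : 0 < c) (hF : BMeas F) :
    ∫ V, cav c ℓ n F V ∂(PX X c) = ∫ V, F V ∂(PX X c) :=
  (integral_mix hc ℓ n hF).symm

private theorem cav_inner (hc : 0 < c) (hF : BMeas F) (hD : BMeas D)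
    (dep : ∀ V1 V2, (∀ x, ℓ x ≤ n → V1 x = V2 x) → D V1 = D V2) :
    ∫ V, inner ℂ (D V) (F V) ∂(PX X c) = ∫ V, inner ℂ (D V) (cav c ℓ n F V) ∂(PX X c) := by
  have := isProb_PX (X := X) hc
  rw [integral_mix hc ℓ n (hD.inner hF)]
  refine integral_congr_ae (Filter.Eventually.of_forall fun V => ?_)
  show ∫ V', inner ℂ (D (mix ℓ n V V')) (F (mix ℓ n V V')) ∂(PX X c) = inner ℂ (D V) (cav c ℓ n F V)
  have h1 : ∀ V' : X → ℝ, D (mix ℓ n V V') = D V := fun V' =>
    dep _ _ fun x hx => mix_of_le hx V V'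
  simp_rw [h1]
  unfold cav
  exact integral_inner ((cav_bmeas_mix hF ℓ n V).integrable _) (D V)

theorem cav_pyth (hc : 0 < c) (hF : BMeas F) (hD : BMeas D)
    (dep : ∀ V1 V2, (∀ x, ℓ x ≤ n → V1 x = V2 x) → D V1 = D V2) :
    ∫ V, ‖F V - D V‖ ^ 2 ∂(PX X c)
      = ∫ V, ‖F V - cav c ℓ n F V‖ ^ 2 ∂(PX X c) + ∫ V, ‖cav c ℓ n F V - D V‖ ^ 2 ∂(PX X c) := by
  have := isProb_PX (X := X) hc
  have hC : BMeas (cav c ℓ n F) := hF.cav hc ℓ n
  have ha := hF.sub hC
  have hb := hC.sub hD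
  have dep' : ∀ V1 V2 : X → ℝ, (∀ x, ℓ x ≤ n → V1 x = V2 x) →
      (fun V => cav c ℓ n F V - D V) V1 = (fun V => cav c ℓ n F V - D V) V2 := by
    intro V1 V2 h
    show cav c ℓ n F V1 - D V1 = cav c ℓ n F V2 - D V2
    rw [cav_dep c ℓ n F h, dep V1 V2 h]
  have hin : ∫ V, inner ℂ (cav c ℓ n F V - D V) (F V - cav c ℓ n F V) ∂(PX X c) = 0 := by
    simp_rw [inner_sub_right]
    rw [integral_sub ((hb.inner hF).integrable _) ((hb.inner hC).integrable _),
      cav_inner hc hF hb dep', sub_self]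
  have hre : ∫ V, (inner ℂ (cav c ℓ n F V - D V) (F V - cav c ℓ n F V)).re ∂(PX X c) = 0 := by
    have h2 := integral_re (𝕜 := ℂ) ((hb.inner ha).integrable (PX X c))
    simp only [RCLike.re_to_complex] at h2
    rw [h2, hin, Complex.zero_re]
  have hexp : ∀ V : X → ℝ, ‖F V - D V‖ ^ 2 = ‖F V - cav c ℓ n F V‖ ^ 2
      + ‖cav c ℓ n F V - D V‖ ^ 2
      + 2 * (inner ℂ (cav c ℓ n F V - D V) (F V - cav c ℓ n F V)).re := by
    intro V
    have h3 := norm_add_sq (𝕜 := ℂ) (cav c ℓ n F V - D V) (F V - cav c ℓ n F V)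
    rw [show cav c ℓ n F V - D V + (F V - cav c ℓ n F V) = F V - D V by abel,
      RCLike.re_to_complex] at h3
    rw [h3]
    ring
  simp_rw [hexp]
  have hi1 := ha.norm_sq.integrable (PX X c)
  have hi2 := hb.norm_sq.integrable (PX X c)
  have hi3 : Integrable (fun V => 2 * (inner ℂ (cav c ℓ n F V - D V)
      (F V - cav c ℓ n F V)).re) (PX X c) := by
    have h4 := ((hb.inner ha).integrable (PX X c)).re
    simp only [RCLike.re_to_complex] at h4
    exact h4.const_mul 2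
  have hi12 : Integrable (fun V => ‖F V - cav c ℓ n F V‖ ^ 2 + ‖cav c ℓ n F V - D V‖ ^ 2)
      (PX X c) := hi1.add hi2
  rw [integral_add hi12 hi3, integral_add hi1 hi2, integral_const_mul, hre, mul_zero,
    add_zero]

theorem cav_sq_sub (hc : 0 < c) (hF : BMeas F) (h : n ≤ n') :
    ∫ V, ‖cav c ℓ n' F V - cav c ℓ n F V‖ ^ 2 ∂(PX X c)
      = ∫ V, ‖cav c ℓ n' F V‖ ^ 2 ∂(PX X c) - ∫ V, ‖cav c ℓ n F V‖ ^ 2 ∂(PX X c) := by
  have h1 := cav_pyth (ℓ := ℓ) (n := n) hc (hF.cav hc ℓ n') (BMeas.const (0 : E))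
    (fun _ _ _ => rfl)
  simp only [sub_zero] at h1
  simp_rw [cav_cav hc hF h] at h1
  linarith

theorem cav_sq_le (hc : 0 < c) (hF : BMeas F) :
    ∫ V, ‖cav c ℓ n F V‖ ^ 2 ∂(PX X c) ≤ ∫ V, ‖F V‖ ^ 2 ∂(PX X c) := by
  have h1 := cav_pyth (ℓ := ℓ) (n := n) hc hF (BMeas.const (0 : E)) (fun _ _ _ => rfl)
  simp only [sub_zero] at h1
  have h2 : 0 ≤ ∫ V, ‖F V - cav c ℓ n F V‖ ^ 2 ∂(PX X c) := integral_nonneg fun V => by positivity
  linarith

end gen

namespace Sys

variable {S : Sys X ι} {c b : ℝ} {ℓ : X → ℕ} {n n' l : ℕ}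

theorem bmeas_Sv (hS : S.Good) : BMeas fun V : X → ℝ => S.Sv fun x => (V x : ℂ) :=
  BMeas.of_continuous
    (continuous_Sv hS (ν := fun (V : X → ℝ) x => (V x : ℂ))
      (fun x => Complex.continuous_ofReal.comp (continuous_apply x)) fun V => adm_real V)
    fun V => norm_Sv_le hS (adm_real V)

theorem bmeas_Sv_dfm (hS : S.Good) (hb : 0 ≤ b) (c : ℝ) (B : Set X) {z : ℂ} (hz : 0 ≤ z.im) :
    BMeas fun V : X → ℝ => S.Sv (dfm B c b V z) :=
  BMeas.of_continuous
    (continuous_Sv hS (ν := fun (V : X → ℝ) => dfm B c b V z)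
      (fun x => continuous_dfm B c b z x) fun V => adm_dfm B c hb V hz)
    fun V => norm_Sv_le hS (adm_dfm B c hb V hz)

private theorem cav_norm_sav_le (hS : S.Good) (hc : 0 < c) (ℓ : X → ℕ) (n : ℕ) (V : X → ℝ) :
    ‖S.sav c ℓ n V‖ ≤ √(Fintype.card ι : ℝ) :=
  norm_cav_le hc (fun V => norm_Sv_le hS (adm_real V)) ℓ n V

theorem Phi_nonneg (hS : S.Good) (hc : 0 < c) (ℓ : X → ℕ) (n : ℕ) : 0 ≤ S.Phi c ℓ n := by
  have := isProb_PX (X := X) hc
  have h1 : ∫ V, ‖S.sav c ℓ n V‖ ^ 2 ∂(PX X c) ≤ ∫ _V : X → ℝ, (Fintype.card ι : ℝ) ∂(PX X c) := by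
    refine integral_mono (((bmeas_Sv hS).cav hc ℓ n).norm_sq.integrable _) (integrable_const _)
      fun V => ?_
    show ‖S.sav c ℓ n V‖ ^ 2 ≤ (Fintype.card ι : ℝ)
    have h2 := cav_norm_sav_le hS hc ℓ n V
    have h3 := Real.sq_sqrt (Nat.cast_nonneg (α := ℝ) (Fintype.card ι))
    have h4 := norm_nonneg (S.sav c ℓ n V)
    nlinarith
  rw [integral_const, probReal_univ, one_smul] at h1
  unfold Phi
  linarith

theorem Phi_le_card (hS : S.Good) (hc : 0 < c) (ℓ : X → ℕ) (n : ℕ) :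
    S.Phi c ℓ n ≤ Fintype.card ι := by
  have h1 : 0 ≤ ∫ V, ‖S.sav c ℓ n V‖ ^ 2 ∂(PX X c) := integral_nonneg fun V => by positivity
  unfold Phi
  linarith

theorem Phi_sub (hS : S.Good) (hc : 0 < c) (h : n ≤ n') :
    S.Phi c ℓ n - S.Phi c ℓ n' = ∫ V, ‖S.sav c ℓ n' V - S.sav c ℓ n V‖ ^ 2 ∂(PX X c) := by
  have h1 := cav_sq_sub (ℓ := ℓ) hc (bmeas_Sv hS) h
  unfold Phi sav
  rw [h1]
  ring

theorem Phi_anti (hS : S.Good) (hc : 0 < c) (h : n ≤ n') : S.Phi c ℓ n' ≤ S.Phi c ℓ n := by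
  have h1 := Phi_sub (ℓ := ℓ) hS hc h
  have h2 : 0 ≤ ∫ V, ‖S.sav c ℓ n' V - S.sav c ℓ n V‖ ^ 2 ∂(PX X c) :=
    integral_nonneg fun V => by positivity
  linarith

/-- the full coherent flux is below `Phi` -/
theorem card_sub_le_Phi (hS : S.Good) (hc : 0 < c) (ℓ : X → ℕ) (n : ℕ) :
    (Fintype.card ι : ℝ) - ∫ V, ‖S.Sv fun x => ((V x : ℝ) : ℂ)‖ ^ 2 ∂(PX X c) ≤ S.Phi c ℓ n := by
  have h1 := cav_sq_le (ℓ := ℓ) (n := n) hc (bmeas_Sv hS)
  unfold Phi sav
  linarith

theorem sav_dep (S : Sys X ι) (c : ℝ) (ℓ : X → ℕ) (n : ℕ) {V1 V2 : X → ℝ}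
    (h : ∀ x, ℓ x ≤ n → V1 x = V2 x) : S.sav c ℓ n V1 = S.sav c ℓ n V2 :=
  cav_dep c ℓ n _ h

/-- holomorphic families: differentiation under the integral -/
private theorem cav_diff_int {Ω E : Type*} [MeasurableSpace Ω] {μ : Measure Ω} [IsFiniteMeasure μ]
    [NormedAddCommGroup E] [NormedSpace ℂ E] [CompleteSpace E] {f : Ω → ℂ → E} {Kb : ℝ}
    (hm : ∀ z : ℂ, 0 ≤ z.im → AEStronglyMeasurable (fun w => f w z) μ)
    (hd : ∀ w (z : ℂ), 0 < z.im → DifferentiableAt ℂ (f w) z)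
    (hb : ∀ w (z : ℂ), 0 ≤ z.im → ‖f w z‖ ≤ Kb) {z0 : ℂ} (hz0 : 0 < z0.im) :
    DifferentiableAt ℂ (fun z => ∫ w, f w z ∂μ) z0 := by
  set r : ℝ := z0.im / 4 with hr
  have hr0 : 0 < r := by positivity
  have him : ∀ z z' : ℂ, z' ∈ Metric.closedBall z r → z.im - r ≤ z'.im := by
    intro z z' hz
    rw [Metric.mem_closedBall, dist_eq_norm] at hz
    have h1 := (abs_le.1 ((Complex.abs_im_le_norm (z' - z)).trans hz)).1
    rw [Complex.sub_im] at h1
    linarith
  have hball : ∀ z ∈ Metric.ball z0 r, z0.im / 2 ≤ z.im - r := by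
    intro z hz
    have := him z0 z (Metric.ball_subset_closedBall hz)
    rw [hr] at this ⊢
    linarith
  have hder : ∀ w, ∀ z ∈ Metric.ball z0 r, ‖deriv (f w) z‖ ≤ Kb / r := by
    intro w z hz
    have hzb := hball z hz
    refine Complex.norm_deriv_le_of_forall_mem_sphere_norm_le hr0 ?_ ?_
    · refine DifferentiableOn.diffContOnCl fun z' hz' => ?_
      rw [closure_ball z hr0.ne'] at hz'
      exact (hd w z' (by linarith [him z z' hz'])).differentiableWithinAt
    · intro z' hz'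
      exact hb w z' (by linarith [him z z' (Metric.sphere_subset_closedBall hz')])
  have hmF' : AEStronglyMeasurable (fun w => deriv (f w) z0) μ := by
    refine aestronglyMeasurable_of_tendsto_ae Filter.atTop
      (f := fun (k : ℕ) w => ((1 / ((k : ℝ) + 1) : ℝ) : ℂ)⁻¹ •
        (f w (z0 + ((1 / ((k : ℝ) + 1) : ℝ) : ℂ)) - f w z0)) ?_ ?_
    · intro k
      refine AEStronglyMeasurable.const_smul ((hm _ ?_).sub (hm _ hz0.le)) _
      rw [Complex.add_im, Complex.ofReal_im, add_zero]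
      exact hz0.le
    · refine Filter.Eventually.of_forall fun w => ?_
      have h1 := (hd w z0 hz0).hasDerivAt.tendsto_slope_zero
      have h2 : Filter.Tendsto (fun k : ℕ => ((1 / ((k : ℝ) + 1) : ℝ) : ℂ)) Filter.atTop
          (nhdsWithin 0 {0}ᶜ) := by
        refine tendsto_nhdsWithin_iff.2 ⟨?_, Filter.Eventually.of_forall fun k => ?_⟩
        · have h3 : Filter.Tendsto (fun k : ℕ => ((1 / ((k : ℝ) + 1) : ℝ) : ℂ)) Filter.atTop
              (nhds ((0 : ℝ) : ℂ)) :=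
            (Complex.continuous_ofReal.tendsto 0).comp tendsto_one_div_add_atTop_nhds_zero_nat
          rwa [Complex.ofReal_zero] at h3
        · show ((1 / ((k : ℝ) + 1) : ℝ) : ℂ) ≠ 0
          rw [Complex.ofReal_ne_zero]
          positivity
      exact h1.comp h2
  have hmain := hasDerivAt_integral_of_dominated_loc_of_deriv_le (μ := μ)
    (F := fun z w => f w z) (F' := fun z w => deriv (f w) z) (x₀ := z0)
    (s := Metric.ball z0 r) (bound := fun _ => Kb / r) (Metric.ball_mem_nhds z0 hr0)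
    ?_ ?_ hmF' ?_ (integrable_const _) ?_
  · exact hmain.2.differentiableAt
  · filter_upwards [Metric.ball_mem_nhds z0 hr0] with z hz
    exact hm z (by linarith [hball z hz])
  · exact Integrable.of_bound (hm z0 hz0.le) Kb (Filter.Eventually.of_forall fun w => hb w z0 hz0.le)
  · exact Filter.Eventually.of_forall fun w z hz => hder w z hz
  · exact Filter.Eventually.of_forall fun w z hz =>
      (hd w z (by linarith [hball z hz])).hasDerivAt

private theorem cav_cont_mix (ℓ : X → ℕ) (m : ℕ) (V' : X → ℝ) :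
    Continuous fun V : X → ℝ => mix ℓ m V V' := by
  refine continuous_pi fun x => ?_
  by_cases h : ℓ x ≤ m
  · simp_rw [mix_of_le h]
    exact continuous_apply x
  · simp_rw [mix_of_lt (not_le.1 h)]
    exact continuous_const

private theorem cav_cont_dfm (B : Set X) (c b : ℝ) (x : X) :
    Continuous fun p : (X → ℝ) × ℂ => dfm B c b p.1 p.2 x := by
  have h1 : Continuous fun p : (X → ℝ) × ℂ => (p.1 x : ℂ) :=
    Complex.continuous_ofReal.comp ((continuous_apply x).comp continuous_fst)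
  by_cases hx : x ∈ B
  · simp_rw [dfm_of_mem hx]
    refine h1.add (continuous_snd.mul (Complex.continuous_ofReal.comp ?_))
    exact continuous_const.mul ((continuous_chi c).comp ((continuous_apply x).comp continuous_fst))
  · simp_rw [dfm_of_notMem hx]
    exact h1

private theorem cav_cont_sav (hS : S.Good) (hc : 0 < c) (ℓ : X → ℕ) (n : ℕ) :
    Continuous (S.sav c ℓ n) := by
  have := isProb_PX (X := X) hc
  unfold sav cav
  refine continuous_of_dominated (bound := fun _ => √(Fintype.card ι : ℝ)) (fun V => ?_)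
    (fun V => Filter.Eventually.of_forall fun V' => norm_Sv_le hS (adm_real _))
    (integrable_const _) (Filter.Eventually.of_forall fun V' => ?_)
  · exact ((bmeas_Sv hS).comp ((measurable_mix ℓ n).comp
      (measurable_const.prodMk measurable_id))).meas.aestronglyMeasurable
  · exact continuous_Sv hS (ν := fun (V : X → ℝ) x => ((mix ℓ n V V' x : ℝ) : ℂ))
      (fun x => Complex.continuous_ofReal.comp ((continuous_apply x).comp (cav_cont_mix ℓ n V')))
      fun V => adm_real _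

theorem fam_dav (hS : S.Good) (hc : 0 < c) (hb : 0 < b) (ℓ : X → ℕ) (n l : ℕ) :
    Fam (Blk ℓ n l) c b (2 * √(Fintype.card ι : ℝ))
      (fun V z => S.dav c b ℓ n l V z - S.sav c ℓ n V)
      (fun V => S.sav c ℓ (n + l) V - S.sav c ℓ n V) := by
  have := isProb_PX (X := X) hc
  have hmeas : ∀ (V : X → ℝ) (z : ℂ), 0 ≤ z.im → AEStronglyMeasurable
      (fun V' => S.Sv (dfm (Blk ℓ n l) c b (mix ℓ (n + l) V V') z)) (PX X c) := by
    intro V z hz
    exact ((bmeas_Sv_dfm hS hb.le c (Blk ℓ n l) hz).comp ((measurable_mix ℓ (n + l)).comp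
      (measurable_const.prodMk measurable_id))).meas.aestronglyMeasurable
  refine ⟨?_, ?_, ?_, ?_, ?_⟩
  · refine ContinuousOn.sub ?_ ((cav_cont_sav hS hc ℓ n).comp continuous_fst).continuousOn
    rw [continuousOn_iff_continuous_domRestrict]
    unfold dav cav
    refine continuous_of_dominated
      (F := fun (p : {p : (X → ℝ) × ℂ | 0 ≤ p.2.im}) V' =>
        S.Sv (dfm (Blk ℓ n l) c b (mix ℓ (n + l) p.1.1 V') p.1.2))
      (bound := fun _ => √(Fintype.card ι : ℝ)) (fun p => hmeas _ _ p.2)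
      (fun p => Filter.Eventually.of_forall fun V' =>
        norm_Sv_le hS (adm_dfm _ c hb.le _ p.2))
      (integrable_const _) (Filter.Eventually.of_forall fun V' => ?_)
    refine continuous_Sv hS (ν := fun (p : {p : (X → ℝ) × ℂ | 0 ≤ p.2.im}) =>
      dfm (Blk ℓ n l) c b (mix ℓ (n + l) p.1.1 V') p.1.2) (fun x => ?_)
      fun p => adm_dfm _ c hb.le _ p.2
    have h3 : Continuous fun p : {p : (X → ℝ) × ℂ | 0 ≤ p.2.im} =>
        ((mix ℓ (n + l) p.1.1 V', p.1.2) : (X → ℝ) × ℂ) :=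
      Continuous.prodMk
        ((cav_cont_mix ℓ (n + l) V').comp (continuous_fst.comp continuous_subtype_val))
        (continuous_snd.comp continuous_subtype_val)
    exact (cav_cont_dfm (Blk ℓ n l) c b x).comp h3
  · exact (cav_cont_sav hS hc ℓ (n + l)).sub (cav_cont_sav hS hc ℓ n)
  · intro V z hz
    refine DifferentiableAt.sub ?_ (differentiableAt_const _)
    unfold dav cav
    refine cav_diff_int (Kb := √(Fintype.card ι : ℝ)) (fun z hz => hmeas V z hz) ?_
      (fun V' z hz => norm_Sv_le hS (adm_dfm _ c hb.le _ hz)) hz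
    intro V' z hz
    classical
    have h1 : ∀ z : ℂ, dfm (Blk ℓ n l) c b (mix ℓ (n + l) V V') z = fun x =>
        ((mix ℓ (n + l) V V' x : ℝ) : ℂ) + z * (if x ∈ Blk ℓ n l then
          ((b * chi c (mix ℓ (n + l) V V' x) : ℝ) : ℂ) else 0) := by
      intro z
      funext x
      by_cases hx : x ∈ Blk ℓ n l
      · rw [dfm_of_mem hx, if_pos hx]
      · rw [dfm_of_notMem hx, if_neg hx, mul_zero, add_zero]
    have h2 := adm_dfm (Blk ℓ n l) c hb.le (mix ℓ (n + l) V V') hz.le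
    rw [h1 z] at h2
    simp_rw [h1]
    exact differentiableAt_Sv hS _ _ h2
  · intro V z hz
    have h1 : ‖S.dav c b ℓ n l V z‖ ≤ √(Fintype.card ι : ℝ) :=
      norm_cav_le hc (fun V => norm_Sv_le hS (adm_dfm _ c hb.le V hz)) ℓ (n + l) V
    have h2 := cav_norm_sav_le hS hc ℓ n V
    exact (norm_sub_le _ _).trans (by linarith)
  · intro V t
    have h1 : S.sav c ℓ n V = S.sav c ℓ n (shf (Blk ℓ n l) c b V t) := by
      refine sav_dep S c ℓ n fun x hx => ?_
      have hxB : x ∉ Blk ℓ n l := fun h => absurd h.1 (not_lt.2 hx)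
      unfold shf
      rw [if_neg hxB]
    have h2 : S.dav c b ℓ n l V (t : ℂ) = S.sav c ℓ (n + l) (shf (Blk ℓ n l) c b V t) := by
      unfold dav sav cav
      simp_rw [dfm_ofReal, mix_shf]
    show S.dav c b ℓ n l V (t : ℂ) - S.sav c ℓ n V = _
    rw [h1, h2]

end Sys

end Pool.Agent.Lib.MP_562b47_mp.Str
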