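import Pool.Agent.Lib.MP_562b47_mp.Str.Meas

/-!
Module STR-Cells (MP_562b47_mp, strips).  The partition of the core into `m` cells of length
`tt = 2 (1-q) c / m`, and the average over the cell, `av1`.  `a := (1-q) c > 0`.

PROOFS.  The cells `cel c q m j`, `j < m`, are disjoint with union `Ico (-a) a`
(`mem_cel_iff`: `u ∈ cel j ↔ j = ⌊(u+a)/tt⌋` on `Ico (-a) a`), inside `[-c, c]`, each of mass
`tt/(2c)`.
* `av1_apply`: on `cel j` the function `av1 f` equals the constant `(2c/tt) • ∫_{cel j} f`.
* `av1_av1`, `av1_of_not`, linearity: immediate.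
* `av1_selfadj`: both sides are `∑_j (2c/tt) ⟪∫_{cel j} f, ∫_{cel j} k⟫ + ∫_{outside} ⟪f, k⟫`.
* `av1_var`: `∫_{cel j} ‖f - avg‖² = (2c/tt)/2 ∫_{cel j}∫_{cel j} ‖f u - f v‖²` (expand the square).
* `av1_jensen`: for `u ∈ cel j`, `‖(2c/tt) • ∫_{cel j} f‖² ≤ (2c/tt) ∫_{cel j} ‖f‖²` (Cauchy–Schwarz /
  Jensen, since `(2c/tt) * unif (cel j) = 1`).
-/

open MeasureTheory Matrix Complex

namespace Pool.Agent.Lib.MP_562b47_mp.Str

/-- the length of the cells -/
noncomputable def tt (c q : ℝ) (m : ℕ) : ℝ := 2 * ((1 - q) * c) / m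

/-- the cells -/
def cel (c q : ℝ) (m j : ℕ) : Set ℝ :=
  Set.Ico (-((1 - q) * c) + j * tt c q m) (-((1 - q) * c) + (j + 1) * tt c q m)

/-- the half-open core -/
def core' (c q : ℝ) : Set ℝ := Set.Ico (-((1 - q) * c)) ((1 - q) * c)

/-- the average over the cell (nothing is done outside the half-open core) -/
noncomputable def av1 {E : Type*} [NormedAddCommGroup E] [NormedSpace ℝ E] (c q : ℝ) (m : ℕ)
    (f : ℝ → E) (u : ℝ) : E :=
  ∑ j ∈ Finset.range m, (cel c q m j).indicator
      (fun _ => (2 * c / tt c q m) • ∫ v, (cel c q m j).indicator f v ∂(unif c)) u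
    + (core' c q)ᶜ.indicator f u

section

variable {E : Type*} [NormedAddCommGroup E] [NormedSpace ℝ E] {c q : ℝ} {m : ℕ}

theorem tt_pos (hc : 0 < c) (hq1 : q < 1) (hm : 1 ≤ m) : 0 < tt c q m := by
  unfold tt
  have h1 : 0 < (1 - q) * c := mul_pos (by linarith) hc
  have h2 : (0 : ℝ) < m := by exact_mod_cast hm
  positivity

private theorem tt_mul (hm : 1 ≤ m) : (m : ℝ) * tt c q m = 2 * ((1 - q) * c) := by
  unfold tt
  have h2 : (m : ℝ) ≠ 0 := by
    have : 0 < m := hm
    exact_mod_cast this.ne'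
  field_simp

theorem cel_disj {i j : ℕ} (hc : 0 < c) (hq1 : q < 1) (hm : 1 ≤ m) (h : i ≠ j) :
    Disjoint (cel c q m i) (cel c q m j) := by
  have ht := tt_pos hc hq1 hm
  rw [Set.disjoint_left]
  intro u hu hv
  simp only [cel, Set.mem_Ico] at hu hv
  rcases lt_or_gt_of_ne h with h | h
  · have h1 : (i : ℝ) + 1 ≤ j := by exact_mod_cast h
    have := mul_le_mul_of_nonneg_right h1 ht.le
    linarith [hu.2, hv.1]
  · have h1 : (j : ℝ) + 1 ≤ i := by exact_mod_cast h
    have := mul_le_mul_of_nonneg_right h1 ht.le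
    linarith [hv.2, hu.1]

theorem cel_subset {j : ℕ} (hc : 0 < c) (hq1 : q < 1) (hj : j < m) :
    cel c q m j ⊆ core' c q := by
  have hm : 1 ≤ m := by omega
  have ht := tt_pos hc hq1 hm
  intro u hu
  simp only [cel, Set.mem_Ico] at hu
  simp only [core', Set.mem_Ico]
  have h1 : (j : ℝ) + 1 ≤ m := by exact_mod_cast hj
  have h2 := mul_le_mul_of_nonneg_right h1 ht.le
  have h3 := tt_mul (c := c) (q := q) hm
  have h4 : 0 ≤ (j : ℝ) * tt c q m := by positivity
  constructor
  · linarith [hu.1]
  · linarith [hu.2]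

theorem core'_eq (hc : 0 < c) (hq1 : q < 1) (hm : 1 ≤ m) :
    core' c q = ⋃ j ∈ Finset.range m, cel c q m j := by
  have ht := tt_pos hc hq1 hm
  apply Set.Subset.antisymm
  · intro u hu
    simp only [core', Set.mem_Ico] at hu
    simp only [Set.mem_iUnion, Finset.mem_range, exists_prop]
    have h0 : 0 ≤ (u + (1 - q) * c) / tt c q m := div_nonneg (by linarith [hu.1]) ht.le
    refine ⟨⌊(u + (1 - q) * c) / tt c q m⌋₊, ?_, ?_⟩
    · rw [Nat.floor_lt h0, div_lt_iff₀ ht]
      have h3 := tt_mul (c := c) (q := q) hm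
      linarith [hu.2]
    · simp only [cel, Set.mem_Ico]
      have h1 := Nat.floor_le h0
      have h2 := Nat.lt_floor_add_one ((u + (1 - q) * c) / tt c q m)
      rw [le_div_iff₀ ht] at h1
      rw [div_lt_iff₀ ht] at h2
      constructor <;> linarith
  · intro u hu
    simp only [Set.mem_iUnion, Finset.mem_range, exists_prop] at hu
    obtain ⟨j, hj, hu⟩ := hu
    exact cel_subset hc hq1 hj hu

theorem core'_subset_core : core' c q ⊆ core c q := by
  intro u hu
  simp only [core', Set.mem_Ico] at hu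
  simp only [core, Set.mem_ofPred_eq]
  exact abs_le.2 ⟨hu.1, hu.2.le⟩

theorem core_ae (hc : 0 < c) : core c q =ᵐ[unif c] core' c q := by
  have hab : unif c ≪ volume := by
    unfold unif
    exact (Measure.smul_absolutelyContinuous).trans Measure.restrict_le_self.absolutelyContinuous
  have h1 : core c q = Set.Icc (-((1 - q) * c)) ((1 - q) * c) := by
    ext u
    simp only [core, Set.mem_ofPred_eq, Set.mem_Icc]
    exact abs_le
  rw [h1]
  exact hab.ae_eq (Ico_ae_eq_Icc (μ := volume)).symm

theorem abs_sub_le_of_cel {j : ℕ} {u v : ℝ} (hu : u ∈ cel c q m j) (hv : v ∈ cel c q m j) :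
    |u - v| ≤ tt c q m := by
  simp only [cel, Set.mem_Ico] at hu hv
  rw [abs_le]
  constructor
  · have := hu.1
    have := hv.2
    linarith
  · have := hu.2
    have := hv.1
    linarith

private theorem measurableSet_cel (j : ℕ) : MeasurableSet (cel c q m j) := measurableSet_Ico

private theorem measurableSet_core' : MeasurableSet (core' c q) := measurableSet_Ico

theorem unif_cel {j : ℕ} (hc : 0 < c) (hq : 0 ≤ q) (hq1 : q < 1) (hj : j < m) :
    (unif c).real (cel c q m j) = tt c q m / (2 * c) := by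
  have hm : 1 ≤ m := by omega
  have ht := tt_pos hc hq1 hm
  have hsub : cel c q m j ⊆ Set.Icc (-c) c := by
    intro u hu
    have := cel_subset hc hq1 hj hu
    simp only [core', Set.mem_Ico] at this
    have h1 : (1 - q) * c ≤ c := by nlinarith
    exact ⟨by linarith [this.1], by linarith [this.2]⟩
  rw [Measure.real, unif, Measure.smul_apply, Measure.restrict_apply (measurableSet_cel j),
    Set.inter_eq_left.2 hsub, cel, Real.volume_Ico, smul_eq_mul, ENNReal.toReal_mul,
    ENNReal.toReal_inv, ENNReal.toReal_ofReal (by linarith), ENNReal.toReal_ofReal (by linarith)]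
  ring

theorem av1_of_mem {j : ℕ} (hc : 0 < c) (hq1 : q < 1) (hj : j < m) (f : ℝ → E) {u : ℝ}
    (hu : u ∈ cel c q m j) :
    av1 c q m f u = (2 * c / tt c q m) • ∫ v, (cel c q m j).indicator f v ∂(unif c) := by
  have hm : 1 ≤ m := by omega
  unfold av1
  rw [Finset.sum_eq_single j]
  · rw [Set.indicator_of_mem hu, Set.indicator_of_notMem, add_zero]
    exact fun h => h (cel_subset hc hq1 hj hu)
  · intro i _ hij
    rw [Set.indicator_of_notMem]
    exact fun h => (Set.disjoint_left.1 (cel_disj hc hq1 hm hij) h) hu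
  · intro h
    exact absurd (Finset.mem_range.2 hj) h

theorem av1_of_not (hc : 0 < c) (hq1 : q < 1) (f : ℝ → E) {u : ℝ} (hu : u ∉ core' c q) :
    av1 c q m f u = f u := by
  unfold av1
  rw [Finset.sum_eq_zero, zero_add, Set.indicator_of_mem (show u ∈ (core' c q)ᶜ from hu)]
  intro j hj
  rw [Set.indicator_of_notMem]
  exact fun h => hu (cel_subset hc hq1 (Finset.mem_range.1 hj) h)

private theorem exists_cel (hc : 0 < c) (hq1 : q < 1) (hm : 1 ≤ m) {u : ℝ} (hu : u ∈ core' c q) :
    ∃ j, j < m ∧ u ∈ cel c q m j := by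
  rw [core'_eq hc hq1 hm] at hu
  simpa only [Set.mem_iUnion, Finset.mem_range, exists_prop] using hu

theorem av1_const (hc : 0 < c) (hq : 0 ≤ q) (hq1 : q < 1) (hm : 1 ≤ m) [CompleteSpace E] (e : E)
    (u : ℝ) : av1 c q m (fun _ => e) u = e := by
  by_cases hu : u ∈ core' c q
  · obtain ⟨j, hj, hu⟩ := exists_cel hc hq1 hm hu
    rw [av1_of_mem hc hq1 hj _ hu, integral_indicator_const _ (measurableSet_cel j),
      unif_cel hc hq hq1 hj, smul_smul]
    have ht := (tt_pos hc hq1 hm).ne'
    have : 2 * c / tt c q m * (tt c q m / (2 * c)) = 1 := by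
      field_simp
    rw [this, one_smul]
  · exact av1_of_not hc hq1 _ hu

theorem av1_sub (hc : 0 < c) {f k : ℝ → E} (hf : BMeas f) (hk : BMeas k) (u : ℝ) :
    av1 c q m (fun v => f v - k v) u = av1 c q m f u - av1 c q m k u := by
  have := isProb_unif hc
  have h1 : ∀ j, ∫ v, (cel c q m j).indicator (fun v => f v - k v) v ∂(unif c)
      = ∫ v, (cel c q m j).indicator f v ∂(unif c) - ∫ v, (cel c q m j).indicator k v ∂(unif c) := by
    intro j
    rw [← integral_sub ((hf.indicator (measurableSet_cel j)).integrable _)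
      ((hk.indicator (measurableSet_cel j)).integrable _)]
    congr 1
    funext v
    by_cases hv : v ∈ cel c q m j
    · simp [Set.indicator_of_mem hv]
    · simp [Set.indicator_of_notMem hv]
  unfold av1
  simp only [h1, smul_sub]
  rw [add_sub_add_comm, ← Finset.sum_sub_distrib]
  congr 1
  · apply Finset.sum_congr rfl
    intro j _
    by_cases hv : u ∈ cel c q m j
    · simp [Set.indicator_of_mem hv]
    · simp [Set.indicator_of_notMem hv]
  · by_cases hv : u ∈ (core' c q)ᶜ
    · simp [Set.indicator_of_mem hv]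
    · simp [Set.indicator_of_notMem hv]

theorem BMeas.av1 (hc : 0 < c) {f : ℝ → E} (hf : BMeas f) : BMeas (av1 c q m f) := by
  unfold Str.av1
  apply BMeas.add
  · apply BMeas.sum
    intro j _
    exact (BMeas.const _).indicator (measurableSet_cel j)
  · exact hf.indicator measurableSet_core'.compl

private theorem indicator_av1 (hc : 0 < c) (hq1 : q < 1) {j : ℕ} (hj : j < m)
    (f : ℝ → E) : (cel c q m j).indicator (av1 c q m f) = (cel c q m j).indicator
      (fun _ => (2 * c / tt c q m) • ∫ v, (cel c q m j).indicator f v ∂(unif c)) := by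
  funext u
  by_cases hu : u ∈ cel c q m j
  · rw [Set.indicator_of_mem hu, Set.indicator_of_mem hu, av1_of_mem hc hq1 hj f hu]
  · rw [Set.indicator_of_notMem hu, Set.indicator_of_notMem hu]

theorem av1_av1 (hc : 0 < c) (hq : 0 ≤ q) (hq1 : q < 1) (hm : 1 ≤ m) [CompleteSpace E]
    {f : ℝ → E} (hf : BMeas f) (u : ℝ) :
    av1 c q m (av1 c q m f) u = av1 c q m f u := by
  by_cases hu : u ∈ core' c q
  · obtain ⟨j, hj, hu⟩ := exists_cel hc hq1 hm hu
    rw [av1_of_mem hc hq1 hj _ hu, av1_of_mem hc hq1 hj _ hu, indicator_av1 hc hq1 hj,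
      integral_indicator_const _ (measurableSet_cel j), unif_cel hc hq hq1 hj, smul_smul]
    have ht := (tt_pos hc hq1 hm).ne'
    have : 2 * c / tt c q m * (tt c q m / (2 * c)) = 1 := by
      field_simp
    rw [this, one_smul]
  · rw [av1_of_not hc hq1 _ hu]

/-- averages commute with real-linear maps -/
theorem av1_clm (hc : 0 < c) {E' : Type*} [NormedAddCommGroup E'] [NormedSpace ℝ E']
    [CompleteSpace E] [CompleteSpace E'] (A : E →L[ℝ] E') {f : ℝ → E} (hf : BMeas f) (u : ℝ) :
    av1 c q m (fun v => A (f v)) u = A (av1 c q m f u) := by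
  have := isProb_unif hc
  have h1 : ∀ j, ∫ v, (cel c q m j).indicator (fun v => A (f v)) v ∂(unif c)
      = A (∫ v, (cel c q m j).indicator f v ∂(unif c)) := by
    intro j
    rw [← A.integral_comp_comm ((hf.indicator (measurableSet_cel j)).integrable _)]
    congr 1
    funext v
    by_cases hv : v ∈ cel c q m j
    · simp [Set.indicator_of_mem hv]
    · simp [Set.indicator_of_notMem hv]
  unfold av1
  simp only [h1]
  rw [map_add, map_sum]
  congr 1
  · apply Finset.sum_congr rfl
    intro j _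
    by_cases hv : u ∈ cel c q m j
    · simp [Set.indicator_of_mem hv]
    · simp [Set.indicator_of_notMem hv]
  · by_cases hv : u ∈ (core' c q)ᶜ
    · simp [Set.indicator_of_mem hv]
    · simp [Set.indicator_of_notMem hv]

end

section inner

variable {E : Type*} [NormedAddCommGroup E] [InnerProductSpace ℂ E] [FiniteDimensional ℂ E]
  {c q : ℝ} {m : ℕ}

/-- the integral of `1_s ‖f - e‖²` -/
private theorem cell_sq {μ : Measure ℝ} [IsFiniteMeasure μ] {s : Set ℝ} (hs : MeasurableSet s)
    {f : ℝ → E} (hf : BMeas f) (e : E) :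
    ∫ u, s.indicator (fun u => ‖f u - e‖ ^ 2) u ∂μ
      = ∫ u, s.indicator (fun u => ‖f u‖ ^ 2) u ∂μ
        - 2 * RCLike.re (inner ℂ e (∫ u, s.indicator f u ∂μ)) + μ.real s * ‖e‖ ^ 2 := by
  have : CompleteSpace E := FiniteDimensional.complete ℂ E
  have h1 : ∀ u, s.indicator (fun u => ‖f u - e‖ ^ 2) u
      = (s.indicator (fun u => ‖f u‖ ^ 2) u - 2 * RCLike.re (inner ℂ e (s.indicator f u)))
        + s.indicator (fun _ => ‖e‖ ^ 2) u := by
    intro u
    by_cases hu : u ∈ s
    · simp only [Set.indicator_of_mem hu]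
      rw [norm_sub_sq (𝕜 := ℂ), ← inner_conj_symm, RCLike.conj_re]
    · simp only [Set.indicator_of_notMem hu]
      simp
  have i1 : Integrable (s.indicator (fun u => ‖f u‖ ^ 2)) μ :=
    (hf.norm_sq.indicator hs).integrable μ
  have i2 : Integrable (s.indicator f) μ := (hf.indicator hs).integrable μ
  have i3 : Integrable (fun u => inner ℂ e (s.indicator f u)) μ := i2.const_inner e
  have i4 : Integrable (fun u => 2 * RCLike.re (inner ℂ e (s.indicator f u))) μ :=
    i3.re.const_mul 2
  have i5 : Integrable (s.indicator (fun _ : ℝ => ‖e‖ ^ 2)) μ :=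
    ((BMeas.const (‖e‖ ^ 2)).indicator hs).integrable μ
  have i6 : Integrable (fun u => s.indicator (fun u => ‖f u‖ ^ 2) u
      - 2 * RCLike.re (inner ℂ e (s.indicator f u))) μ := i1.sub i4
  calc ∫ u, s.indicator (fun u => ‖f u - e‖ ^ 2) u ∂μ
      = ∫ u, ((s.indicator (fun u => ‖f u‖ ^ 2) u - 2 * RCLike.re (inner ℂ e (s.indicator f u)))
        + s.indicator (fun _ => ‖e‖ ^ 2) u) ∂μ := by
        congr 1; funext u; exact h1 u
    _ = _ := by
        rw [integral_add i6 i5, integral_sub i1 i4, integral_const_mul,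
          integral_indicator_const _ hs, smul_eq_mul]
        congr 3
        rw [← integral_inner i2 e]
        exact integral_re i3

private theorem re_inner_real_smul (r : ℝ) (x y : E) :
    RCLike.re (inner ℂ (r • x) y) = r * RCLike.re (inner ℂ x y) := by
  rw [← Complex.coe_smul, inner_smul_left]
  simp

/-- the variance in one cell -/
private theorem cell_var {μ : Measure ℝ} [IsFiniteMeasure μ] {s : Set ℝ} (hs : MeasurableSet s)
    {f : ℝ → E} (hf : BMeas f) {r : ℝ} (hr : μ.real s * r = 1) :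
    ∫ u, s.indicator (fun u => ‖f u - r • ∫ v, s.indicator f v ∂μ‖ ^ 2) u ∂μ
      = ∫ u, s.indicator (fun u => ‖f u‖ ^ 2) u ∂μ - r * ‖∫ u, s.indicator f u ∂μ‖ ^ 2 := by
  rw [cell_sq hs hf, re_inner_real_smul, inner_self_eq_norm_sq, norm_smul, mul_pow,
    Real.norm_eq_abs, sq_abs]
  have : μ.real s * (r ^ 2 * ‖∫ u, s.indicator f u ∂μ‖ ^ 2)
      = (μ.real s * r) * (r * ‖∫ u, s.indicator f u ∂μ‖ ^ 2) := by ring
  rw [this, hr]
  ring

/-- the double integral in one cell -/
private theorem cell_double {μ : Measure ℝ} [IsFiniteMeasure μ] {s : Set ℝ} (hs : MeasurableSet s)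
    {f : ℝ → E} (hf : BMeas f) :
    ∫ u, ∫ v, s.indicator (fun _ => s.indicator (fun _ => ‖f u - f v‖ ^ 2) v) u ∂μ ∂μ
      = 2 * (μ.real s * ∫ u, s.indicator (fun u => ‖f u‖ ^ 2) u ∂μ)
        - 2 * ‖∫ u, s.indicator f u ∂μ‖ ^ 2 := by
  have : CompleteSpace E := FiniteDimensional.complete ℂ E
  set A := ∫ u, s.indicator (fun u => ‖f u‖ ^ 2) u ∂μ with hA
  set F := ∫ u, s.indicator f u ∂μ with hF
  have h1 : ∀ u, ∫ v, s.indicator (fun _ => s.indicator (fun _ => ‖f u - f v‖ ^ 2) v) u ∂μ
      = s.indicator (fun _ => A) u - 2 * RCLike.re (inner ℂ (s.indicator f u) F)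
        + μ.real s * s.indicator (fun u => ‖f u‖ ^ 2) u := by
    intro u
    by_cases hu : u ∈ s
    · simp only [Set.indicator_of_mem hu]
      rw [hA, hF, ← cell_sq hs hf (f u)]
      congr 1
      funext v
      by_cases hv : v ∈ s
      · rw [Set.indicator_of_mem hv, Set.indicator_of_mem hv, norm_sub_rev]
      · rw [Set.indicator_of_notMem hv, Set.indicator_of_notMem hv]
    · simp only [Set.indicator_of_notMem hu]
      simp
  have i2 : Integrable (s.indicator f) μ := (hf.indicator hs).integrable μ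
  have i3 : Integrable (fun u => inner ℂ (s.indicator f u) F) μ := i2.inner_const F
  have i4 : Integrable (fun u => 2 * RCLike.re (inner ℂ (s.indicator f u) F)) μ :=
    i3.re.const_mul 2
  have i5 : Integrable (s.indicator (fun _ : ℝ => A)) μ :=
    ((BMeas.const A).indicator hs).integrable μ
  have i6 : Integrable (fun u => μ.real s * s.indicator (fun u => ‖f u‖ ^ 2) u) μ :=
    ((hf.norm_sq.indicator hs).integrable μ).const_mul _
  have i7 : Integrable (fun u => s.indicator (fun _ => A) u
      - 2 * RCLike.re (inner ℂ (s.indicator f u) F)) μ := i5.sub i4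
  have h2 : ∫ u, RCLike.re (inner ℂ (s.indicator f u) F) ∂μ = ‖F‖ ^ 2 := by
    have e1 : ∀ u, RCLike.re (inner ℂ (s.indicator f u) F)
        = RCLike.re (inner ℂ F (s.indicator f u)) := by
      intro u
      rw [← inner_conj_symm, RCLike.conj_re]
    simp only [e1]
    have i8 : Integrable (fun u => inner ℂ F (s.indicator f u)) μ := i2.const_inner F
    rw [integral_re i8, integral_inner i2 F, ← hF, inner_self_eq_norm_sq]
  simp only [h1]
  rw [integral_add i7 i6, integral_sub i5 i4, integral_const_mul, integral_const_mul, h2,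
    integral_indicator_const _ hs, smul_eq_mul, ← hA]
  ring

private theorem av1_inner_left (hc : 0 < c) {f k : ℝ → E} (hf : BMeas f) (hk : BMeas k) :
    ∫ u, inner ℂ (av1 c q m f u) (k u) ∂(unif c)
      = ∑ j ∈ Finset.range m, inner ℂ ((2 * c / tt c q m) • ∫ v, (cel c q m j).indicator f v
          ∂(unif c)) (∫ v, (cel c q m j).indicator k v ∂(unif c))
        + ∫ u, (core' c q)ᶜ.indicator (fun u => inner ℂ (f u) (k u)) u ∂(unif c) := by
  have : CompleteSpace E := FiniteDimensional.complete ℂ E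
  have := isProb_unif hc
  have h1 : ∀ u, inner ℂ (av1 c q m f u) (k u)
      = ∑ j ∈ Finset.range m, inner ℂ ((2 * c / tt c q m) • ∫ v, (cel c q m j).indicator f v
          ∂(unif c)) ((cel c q m j).indicator k u)
        + (core' c q)ᶜ.indicator (fun u => inner ℂ (f u) (k u)) u := by
    intro u
    unfold av1
    rw [inner_add_left, sum_inner]
    congr 1
    · apply Finset.sum_congr rfl
      intro j _
      by_cases hv : u ∈ cel c q m j
      · simp only [Set.indicator_of_mem hv]
      · simp only [Set.indicator_of_notMem hv, inner_zero_left, inner_zero_right]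
    · by_cases hv : u ∈ (core' c q)ᶜ
      · simp only [Set.indicator_of_mem hv]
      · simp only [Set.indicator_of_notMem hv, inner_zero_left]
  have i1 : ∀ j, Integrable ((cel c q m j).indicator k) (unif c) := fun j =>
    (hk.indicator (measurableSet_cel j)).integrable _
  have i2 : ∀ j ∈ Finset.range m, Integrable (fun u => inner ℂ ((2 * c / tt c q m) •
      ∫ v, (cel c q m j).indicator f v ∂(unif c)) ((cel c q m j).indicator k u)) (unif c) :=
    fun j _ => (i1 j).const_inner _
  have i3 : Integrable ((core' c q)ᶜ.indicator (fun u => inner ℂ (f u) (k u))) (unif c) :=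
    ((hf.inner hk).indicator measurableSet_core'.compl).integrable _
  simp only [h1]
  rw [integral_add (integrable_finsetSum _ i2) i3, integral_finsetSum _ i2]
  congr 1
  apply Finset.sum_congr rfl
  intro j _
  exact integral_inner (i1 j) _

theorem av1_selfadj (hc : 0 < c) (hq1 : q < 1) (hm : 1 ≤ m) {f k : ℝ → E} (hf : BMeas f)
    (hk : BMeas k) :
    ∫ u, inner ℂ (av1 c q m f u) (k u) ∂(unif c) = ∫ u, inner ℂ (f u) (av1 c q m k u) ∂(unif c) := by
  have h1 : ∫ u, inner ℂ (f u) (av1 c q m k u) ∂(unif c)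
      = (starRingEnd ℂ) (∫ u, inner ℂ (av1 c q m k u) (f u) ∂(unif c)) := by
    rw [← integral_conj]
    congr 1
    funext u
    exact (inner_conj_symm _ _).symm
  rw [h1, av1_inner_left hc hf hk, av1_inner_left hc hk hf, map_add, map_sum, ← integral_conj]
  congr 1
  · apply Finset.sum_congr rfl
    intro j _
    rw [inner_conj_symm, ← Complex.coe_smul, ← Complex.coe_smul, inner_smul_left,
      inner_smul_right, Complex.conj_ofReal]
  · congr 1
    funext u
    by_cases hv : u ∈ (core' c q)ᶜ
    · simp only [Set.indicator_of_mem hv]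
      exact (inner_conj_symm _ _).symm
    · simp only [Set.indicator_of_notMem hv, map_zero]

private theorem unif_mul (hc : 0 < c) (hq : 0 ≤ q) (hq1 : q < 1) {j : ℕ} (hj : j < m) :
    (unif c).real (cel c q m j) * (2 * c / tt c q m) = 1 := by
  have ht := (tt_pos hc hq1 (show 1 ≤ m by omega)).ne'
  rw [unif_cel hc hq hq1 hj]
  field_simp

/-- variance formula -/
theorem av1_var (hc : 0 < c) (hq : 0 ≤ q) (hq1 : q < 1) (hm : 1 ≤ m) {f : ℝ → E}
    (hf : BMeas f) :
    ∫ u, ‖f u - av1 c q m f u‖ ^ 2 ∂(unif c)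
      = ∑ j ∈ Finset.range m, (c / tt c q m) * ∫ u, ∫ v,
          (cel c q m j).indicator (fun _ => (cel c q m j).indicator (fun _ => ‖f u - f v‖ ^ 2) v) u
            ∂(unif c) ∂(unif c) := by
  have := isProb_unif hc
  have ht := tt_pos hc hq1 hm
  have h1 : ∀ u, ‖f u - av1 c q m f u‖ ^ 2 = ∑ j ∈ Finset.range m,
      (cel c q m j).indicator (fun u => ‖f u - (2 * c / tt c q m) •
        ∫ v, (cel c q m j).indicator f v ∂(unif c)‖ ^ 2) u := by
    intro u
    by_cases hu : u ∈ core' c q
    · obtain ⟨j, hj, hu⟩ := exists_cel hc hq1 hm hu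
      rw [Finset.sum_eq_single j, Set.indicator_of_mem hu, av1_of_mem hc hq1 hj _ hu]
      · intro i _ hij
        rw [Set.indicator_of_notMem]
        exact fun h => (Set.disjoint_left.1 (cel_disj hc hq1 hm hij) h) hu
      · intro h
        exact absurd (Finset.mem_range.2 hj) h
    · rw [av1_of_not hc hq1 f hu, Finset.sum_eq_zero]
      · simp
      · intro j hj
        rw [Set.indicator_of_notMem]
        exact fun h => hu (cel_subset hc hq1 (Finset.mem_range.1 hj) h)
  simp only [h1]
  rw [integral_finsetSum]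
  · apply Finset.sum_congr rfl
    intro j hj
    have hj' := Finset.mem_range.1 hj
    rw [cell_var (measurableSet_cel j) hf (unif_mul hc hq hq1 hj'),
      cell_double (measurableSet_cel j) hf, unif_cel hc hq hq1 hj']
    field_simp
  · intro j _
    exact (((hf.sub (BMeas.const _)).norm_sq).indicator (measurableSet_cel j)).integrable _

theorem av1_jensen (hc : 0 < c) (hq : 0 ≤ q) (hq1 : q < 1) {j : ℕ} (hj : j < m) {f : ℝ → E}
    (hf : BMeas f) :
    ‖(2 * c / tt c q m) • ∫ v, (cel c q m j).indicator f v ∂(unif c)‖ ^ 2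
      ≤ (2 * c / tt c q m) * ∫ v, (cel c q m j).indicator (fun v => ‖f v‖ ^ 2) v ∂(unif c) := by
  have := isProb_unif hc
  have ht := tt_pos hc hq1 (show 1 ≤ m by omega)
  have h1 := cell_var (measurableSet_cel j) hf (unif_mul hc hq hq1 hj)
  have h2 : 0 ≤ ∫ u, (cel c q m j).indicator (fun u => ‖f u - (2 * c / tt c q m) •
      ∫ v, (cel c q m j).indicator f v ∂(unif c)‖ ^ 2) u ∂(unif c) := by
    apply integral_nonneg
    intro u
    exact Set.indicator_nonneg (fun _ _ => by positivity) u
  rw [h1] at h2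
  rw [norm_smul, mul_pow, Real.norm_eq_abs, sq_abs]
  have hr : 0 < 2 * c / tt c q m := by positivity
  nlinarith [mul_nonneg hr.le h2]

end inner

end Pool.Agent.Lib.MP_562b47_mp.Str
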