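import Pool.Agent.Lib.MP_562b47_mp.Str.Influ

/-!
Module STR-CoreB (MP_562b47_mp, strips).  The coherent flux is controlled by the field at the core
sites of the block (on the good event), for the deformed cut system.

PROOF.  `T = S.cut ℓ (n+l)`, `ν0 = dfm (Blk ℓ n l) c b V I`, `V` in the cube, so
`(ν0 x).im = b χ(V x)` on the block and `0` elsewhere.  `ward_S` (with `T.U = S.U`, `T.y = S.y`):
  `M - ‖h‖² = 4 ∑_x (Im ν0 + y) ‖w x‖²`.
Split at `i0 = n + l - (2k+2)`: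
* `ℓ x > i0`: this part is `FL i0 ≤ FL (n + J r) ≤ (1/2)^J M` (`FL_anti`, `decay`, `J r + 2k + 2 ≤ l`);
* `ℓ x ≤ i0`: `4 ∑ b χ ‖w‖² ≤ 4 b ∑_{n<ℓ≤i0} ‖w‖² ≤ 4 b P ∑_{core, n<ℓ≤n+l} ‖w‖²` (`peel` as in `mass`,
  `j = i0`; here `i0 + 2k ≤ n + l`), and the absorption `y ≤ η`:
  `4 η ∑_{ℓ≤i0} ‖w‖² ≤ 4 η (#{ℓ ≤ n} ((R+c+3)^(n+1)(√(PM/(4bq)) + √M))² + P M/(4bq))` by `interior` and
  `mass` (`i = n`, `j = i0`, `FL n ≤ M`).
-/

open MeasureTheory Matrix Complex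

namespace Pool.Agent.Lib.MP_562b47_mp.Str

variable {X ι : Type*} [Fintype X] [DecidableEq X] [Fintype ι] [DecidableEq ι]

/-- the constant in front of the absorption -/
noncomputable def Aint (R c b q : ℝ) (Δ k n M Q : ℕ) : ℝ :=
  Q * ((R + c + 3) ^ (n + 1) * (√(Pk (R + c + 2) Δ k * M / (4 * b * q)) + √(M : ℝ))) ^ 2
    + Pk (R + c + 2) Δ k * M / (4 * b * q)

theorem bp_dfm {c b q : ℝ} (hc : 0 < c) (hb : 0 < b) (hb1 : b ≤ 1) (hq : 0 < q) (hq1 : q ≤ 1)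
    {ℓ : X → ℕ} {n l : ℕ} {V V' : X → ℝ} (hV : ∀ x, n < ℓ x → ℓ x ≤ n + l → V x ∈ Set.Icc (-c) c)
    (h : ∀ x, ℓ x ≤ n + l → V' x = V x) :
    BP c b q ℓ n l V (dfm (Blk ℓ n l) c b V' I) := by
  classical
  refine ⟨adm_dfm _ c hb.le V' (by rw [Complex.I_im]; norm_num), ?_, ?_⟩
  · intro x h1 h2
    refine norm_dfm_le hc hb.le hb1 ?_
    rw [h x h2]
    exact hV x h1 h2
  · intro x h1 h2 h3
    have hx : x ∈ Blk ℓ n l := ⟨h1, h2⟩
    rw [dfm_of_mem hx, Complex.add_im, Complex.ofReal_im, zero_add, mul_comm I, Complex.im_ofReal_mul,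
      Complex.I_im, mul_one, h x h2]
    exact mul_le_mul_of_nonneg_left (le_chi_of_core hc hq.le hq1 h3) hb.le

namespace Sys

variable {S : Sys X ι} {ℓ : X → ℕ} {up : X → X} {R c b q η : ℝ} {Δ N n l k : ℕ} {V : X → ℝ}

theorem core_bound (hS : S.Good) (hR : 0 ≤ R) (hL : S.Layered ℓ up R Δ N) (hN : n + l ≤ N)
    (src : ∀ x, n < ℓ x → ∀ s, S.U x s = 0) (hU : ∀ x, ∑ s, S.U x s ^ 2 ≤ 1)
    (hη : 0 ≤ η) (hη1 : η ≤ 1) (yle : ∀ x, ℓ x ≤ n + l → S.y x ≤ η)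
    (hc : 0 < c) (hb : 0 < b) (hb1 : b ≤ 1) (hq : 0 < q) (hq1 : q ≤ 1)
    (hV : V ∈ GE c q (S.Fs up) ℓ n l k) {r J : ℕ} (hr1 : 2 ≤ r)
    (hr : 2 * R * Pk (R + c + 2) Δ k ≤ (r - 1) * (b * q)) (hj : J * r + 2 * k + 4 ≤ l) :
    (Fintype.card ι : ℝ) - ‖(S.cut ℓ (n + l)).Sv (dfm (Blk ℓ n l) c b V I)‖ ^ 2
      ≤ 4 * b * Pk (R + c + 2) Δ k * ∑ x with (n < ℓ x ∧ ℓ x ≤ n + l),
          (open Classical in if V x ∈ core c q then
            ‖(S.cut ℓ (n + l)).wv (dfm (Blk ℓ n l) c b V I) x‖ ^ 2 else 0)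
        + (1 / 2) ^ J * Fintype.card ι
        + 4 * η * Aint R c b q Δ k n (Fintype.card ι)
            (Finset.univ.filter fun x => ℓ x ≤ n).card := by
  classical
  set T := S.cut ℓ (n + l) with hTdef
  set ν := dfm (Blk ℓ n l) c b V I with hνdef
  set P := Pk (R + c + 2) Δ k with hPdef
  have hVc : ∀ x, V x ∈ Set.Icc (-c) c := hV.1
  have hT : Std T (S.Fs up) ℓ up R Δ n l :=
    std_cut hS hR hL hN src (fun x hx => (yle x hx).trans hη1)
  have hB : BP c b q ℓ n l V ν := bp_dfm hc hb hb1 hq hq1 (fun x _ _ => hVc x) (fun _ _ => rfl)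
  have hP0 : 0 ≤ P := by
    rw [hPdef, Pk]
    positivity
  set M : ℝ := (Fintype.card ι : ℝ) with hM
  have hM0 : 0 ≤ M := Nat.cast_nonneg _
  set i0 := n + l - (2 * k + 2) with hi0
  have hi0a : i0 + 2 * k + 2 = n + l := by omega
  have hi0b : n + J * r + 2 ≤ i0 := by omega
  set a : X → ℝ := fun x => ‖T.wv ν x‖ ^ 2 with ha
  have ha0 : ∀ x, 0 ≤ a x := fun x => by positivity
  have hTy : ∀ x, T.y x = S.y x := fun _ => rfl
  have hTU : ∀ x s, T.U x s = S.U x s := fun _ _ => rfl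
  -- the flux identity
  have hward := ward_S hT.good hB.adm
  have hsplit : ∑ x, ((ν x).im + T.y x) * ‖T.wv ν x‖ ^ 2 =
      ∑ x with i0 < ℓ x, ((ν x).im + T.y x) * ‖T.wv ν x‖ ^ 2 +
      ∑ x with ¬ i0 < ℓ x, ((ν x).im + T.y x) * ‖T.wv ν x‖ ^ 2 :=
    (Finset.sum_filter_add_sum_filter_not _ _ _).symm
  have hA : 4 * ∑ x with i0 < ℓ x, ((ν x).im + T.y x) * ‖T.wv ν x‖ ^ 2 ≤ (1 / 2) ^ J * M := by
    have h1 : T.FL ℓ ν i0 ≤ T.FL ℓ ν (n + J * r) := FL_anti hT.good hB.adm ℓ (by omega)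
    have h2 := decay hT hc hb hq hV hB hr1 hr (J := J) (by omega)
    exact h1.trans h2
  have him : ∀ x, (ν x).im ≤ if n < ℓ x then b else 0 := by
    intro x
    rw [hνdef, dfm_im]
    by_cases hx : x ∈ Blk ℓ n l
    · rw [if_pos hx, if_pos hx.1, Complex.I_im, one_mul]
      have := mul_le_mul_of_nonneg_left (chi_le_one c (V x)) hb.le
      linarith
    · rw [if_neg hx]
      split_ifs
      · exact hb.le
      · exact le_rfl
  have hB1 : ∑ x with ¬ i0 < ℓ x, ((ν x).im + T.y x) * ‖T.wv ν x‖ ^ 2 ≤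
      b * ∑ x with (n < ℓ x ∧ ℓ x ≤ i0), a x + η * ∑ x with ¬ i0 < ℓ x, a x := by
    have e1 : ∀ x, ¬ i0 < ℓ x → ((ν x).im + T.y x) * ‖T.wv ν x‖ ^ 2 ≤
        (if n < ℓ x then b else 0) * a x + η * a x := by
      intro x hx
      rw [← add_mul]
      refine mul_le_mul_of_nonneg_right (add_le_add (him x) ?_) (ha0 x)
      rw [hTy]
      exact yle x (by omega)
    refine (Finset.sum_le_sum fun x hx => e1 x (Finset.mem_filter.1 hx).2).trans ?_
    rw [Finset.sum_add_distrib, ← Finset.mul_sum]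
    refine add_le_add (le_of_eq ?_) le_rfl
    rw [Finset.mul_sum, Finset.sum_filter, Finset.sum_filter]
    refine Finset.sum_congr rfl fun x _ => ?_
    by_cases h1 : n < ℓ x
    · by_cases h2 : i0 < ℓ x
      · rw [if_neg (not_not.2 h2), if_neg (by omega)]
      · rw [if_pos h2, if_pos h1, if_pos ⟨h1, by omega⟩]
    · rw [if_neg h1, zero_mul, if_neg (show ¬ (n < ℓ x ∧ ℓ x ≤ i0) from fun h => h1 h.1)]
      split_ifs <;> rfl
  have hstep : ∀ x, n < ℓ x → ℓ x + 2 ≤ n + l → a x ≤ (R + c + 2) ^ 2 * ∑ z ∈ S.Fs up x, a z := by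
    intro x h1 h2
    have hup : ℓ (up x) = ℓ x + 1 := hT.lay.up_layer x (by omega)
    have h3 := one_step hT.good hB.adm hT.lay (D := R + c + 2) (x := x) (by omega)
      (hT.src _ (by omega)) (by
        have e1 := hB.bdd (up x) (by omega) (by omega)
        have e2 := hT.yle (up x) (by omega)
        linarith)
    rw [hT.Feq x h2] at h3
    exact h3
  have hpeel := peel (c := c) (q := q) (D := R + c + 2) (by linarith) hT.fwd hV ha0 hstep
    (i := n) (j := i0) le_rfl (by omega)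
  have hcore : ∑ x with (n < ℓ x ∧ ℓ x ≤ i0 + 2 * k), (if V x ∈ core c q then a x else 0) ≤
      ∑ x with (n < ℓ x ∧ ℓ x ≤ n + l), (if V x ∈ core c q then a x else 0) := by
    refine Finset.sum_le_sum_of_subset_of_nonneg ?_ fun x _ _ => ?_
    · intro x hx
      rw [Finset.mem_filter] at hx ⊢
      exact ⟨hx.1, hx.2.1, by omega⟩
    · split_ifs
      · exact ha0 x
      · exact le_rfl
  have hmass := mass hT hc hb hq hV hB (i := n) (j := i0) le_rfl (by omega)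
  have hFL : T.FL ℓ ν n ≤ M := FL_le_card hT.good hB.adm ℓ n
  have hint : ∀ x, ℓ x ≤ n → a x ≤ ((R + c + 3) ^ (n + 1) * (√(P * M / (4 * b * q)) + √M)) ^ 2 := by
    intro x hx
    have h1 := interior hT hc hb hq (fun x => by simpa only [hTU] using hU x) hV hB
      (fun x _ => norm_dfm_le hc hb.le hb1 (hVc x)) (by omega) x hx
    exact pow_le_pow_left₀ (norm_nonneg _) h1 2
  have hmass2 : ∑ x with (n < ℓ x ∧ ℓ x ≤ i0), a x ≤ P * M / (4 * b * q) := by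
    refine hmass.trans ?_
    calc P / (4 * b * q) * T.FL ℓ ν n ≤ P / (4 * b * q) * M :=
          mul_le_mul_of_nonneg_left hFL (by positivity)
      _ = P * M / (4 * b * q) := by ring
  have hsmall : ∑ x with ¬ i0 < ℓ x, a x ≤
      Aint R c b q Δ k n (Fintype.card ι) (Finset.univ.filter fun x => ℓ x ≤ n).card := by
    have e1 : ∑ x with ¬ i0 < ℓ x, a x = ∑ x with ℓ x ≤ n, a x + ∑ x with (n < ℓ x ∧ ℓ x ≤ i0), a x := by
      rw [← Finset.sum_union]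
      · refine Finset.sum_congr ?_ fun _ _ => rfl
        ext x
        simp only [Finset.mem_filter, Finset.mem_univ, true_and, Finset.mem_union]
        omega
      · rw [Finset.disjoint_filter]
        intro x _ h1 h2
        omega
    rw [e1, Aint]
    refine add_le_add ?_ hmass2
    refine (Finset.sum_le_sum fun x hx => hint x (Finset.mem_filter.1 hx).2).trans ?_
    rw [Finset.sum_const, nsmul_eq_mul]
  have hfin : (Fintype.card ι : ℝ) - ‖T.Sv ν‖ ^ 2 =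
      4 * ∑ x, ((ν x).im + T.y x) * ‖T.wv ν x‖ ^ 2 := by linarith
  have hη4 : 4 * (η * ∑ x with ¬ i0 < ℓ x, a x) ≤
      4 * η * Aint R c b q Δ k n (Fintype.card ι) (Finset.univ.filter fun x => ℓ x ≤ n).card := by
    rw [mul_assoc]
    exact mul_le_mul_of_nonneg_left (mul_le_mul_of_nonneg_left hsmall hη) (by norm_num)
  have hb4 : 4 * (b * ∑ x with (n < ℓ x ∧ ℓ x ≤ i0), a x) ≤
      4 * b * P * ∑ x with (n < ℓ x ∧ ℓ x ≤ n + l), (if V x ∈ core c q then a x else 0) := by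
    have e1 : ∑ x with (n < ℓ x ∧ ℓ x ≤ i0), a x ≤
        P * ∑ x with (n < ℓ x ∧ ℓ x ≤ n + l), (if V x ∈ core c q then a x else 0) :=
      hpeel.trans (mul_le_mul_of_nonneg_left hcore hP0)
    have e2 := mul_le_mul_of_nonneg_left (mul_le_mul_of_nonneg_left e1 hb.le) (by norm_num : (0:ℝ) ≤ 4)
    calc 4 * (b * ∑ x with (n < ℓ x ∧ ℓ x ≤ i0), a x) ≤ _ := e2
      _ = _ := by ring
  rw [hfin, hsplit, mul_add]
  have hB2 := mul_le_mul_of_nonneg_left hB1 (by norm_num : (0:ℝ) ≤ 4)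
  rw [mul_add] at hB2
  linarith

end Sys

end Pool.Agent.Lib.MP_562b47_mp.Str
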