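import Pool.Agent.Lib.MP_562b47_mp.Str.Ward

/-!
Module STR-FluxLe (MP_562b47_mp, strips).  The flux through a layer is bounded by the density of the
field in two neighbouring layers.

PROOF.  The sources sit in the layers `≤ i`.  Multiply `eqn'` at `x`, `i < ℓ x`, by
`conj (w x s)` and sum over `s` and over the sites with `i < ℓ x`; take the imaginary part.  The terms
`H x z conj(w x s) w z s` with `i < ℓ z` form a real sum (`H` is real symmetric: the sum over such pairs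
equals its conjugate).  The remaining ones have `ℓ z ≤ i`, hence (`near`) `ℓ x = i + 1`, `ℓ z = i`.  So
  `∑_{i < ℓ x} ((ν x).im + y x) ‖w x‖² = - ∑_{ℓ x = i+1, ℓ z = i} H x z Im ∑_s conj(w x s) w z s
     ≤ ∑_{ℓ x = i+1, ℓ z = i} |H x z| ‖w x‖ ‖w z‖ ≤ ∑ |H x z| (‖w x‖² + ‖w z‖²)/2
     ≤ R (ρ_{i+1} + ρ_i) / 2`
(row sums and, by symmetry, column sums of `|H|` are at most `R`).  Multiply by 4.
-/

open MeasureTheory Matrix Complex

namespace Pool.Agent.Lib.MP_562b47_mp.Str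

variable {X ι : Type*} [Fintype X] [DecidableEq X] [Fintype ι] [DecidableEq ι]

namespace Sys

variable {S : Sys X ι} {ν : X → ℂ}

/-- the equation as an equation between vectors -/
private theorem fl_vec (hS : S.Good) (hν : Adm ν) (x : X) (hU : ∀ s, S.U x s = 0) :
    ∑ z, (S.H x z : ℂ) • S.wv ν z + (ν x + (S.y x : ℂ) * I) • S.wv ν x = 0 := by
  have h : ∀ s, (∑ z, (S.H x z : ℂ) • S.wv ν z + (ν x + (S.y x : ℂ) * I) • S.wv ν x) s = 0 := by
    intro s
    have h1 := eqn' hS hν x hU s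
    rw [PiLp.add_apply, PiLp.smul_apply, WithLp.ofLp_sum, Finset.sum_apply]
    simpa [wv] using h1
  ext s
  exact h s

/-- the current between two sites -/
private noncomputable def cur (S : Sys X ι) (ν : X → ℂ) (x z : X) : ℝ :=
  (inner ℂ (S.wv ν x) (S.wv ν z) : ℂ).im

private theorem cur_anti (x z : X) : cur S ν z x = -cur S ν x z := by
  unfold cur
  rw [← inner_conj_symm (S.wv ν z) (S.wv ν x), Complex.conj_im]

private theorem cur_le (x z : X) : |cur S ν x z| ≤ (‖S.wv ν x‖ ^ 2 + ‖S.wv ν z‖ ^ 2) / 2 := by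
  have h1 : |cur S ν x z| ≤ ‖S.wv ν x‖ * ‖S.wv ν z‖ :=
    (Complex.abs_im_le_norm _).trans (norm_inner_le_norm _ _)
  nlinarith [sq_nonneg (‖S.wv ν x‖ - ‖S.wv ν z‖)]

private theorem fl_im (hS : S.Good) (hν : Adm ν) (x : X) (hU : ∀ s, S.U x s = 0) :
    ((ν x).im + S.y x) * ‖S.wv ν x‖ ^ 2 = -∑ z, S.H x z * cur S ν x z := by
  have h := congrArg (fun v => (inner ℂ (S.wv ν x) v : ℂ).im) (fl_vec hS hν x hU)
  simp only [inner_add_right, inner_smul_right, inner_zero_right, Complex.add_im,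
    Complex.zero_im] at h
  rw [inner_sum, Complex.im_sum] at h
  have h2 : ∀ z, (inner ℂ (S.wv ν x) ((S.H x z : ℂ) • S.wv ν z) : ℂ).im = S.H x z * cur S ν x z := by
    intro z
    rw [inner_smul_right, Complex.im_ofReal_mul]
    rfl
  rw [Finset.sum_congr rfl (fun z _ => h2 z)] at h
  have h3 : ((ν x + (S.y x : ℂ) * I) * (inner ℂ (S.wv ν x) (S.wv ν x) : ℂ)).im =
      ((ν x).im + S.y x) * ‖S.wv ν x‖ ^ 2 := by
    rw [inner_self_eq_norm_sq_to_K]
    have : ((‖S.wv ν x‖ : ℂ)) ^ 2 = ((‖S.wv ν x‖ ^ 2 : ℝ) : ℂ) := by push_cast; rfl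
    have h4 : (((‖S.wv ν x‖ : ℝ) : ℂ)) ^ 2 = ((‖S.wv ν x‖ ^ 2 : ℝ) : ℂ) := by push_cast; rfl
    change ((ν x + (S.y x : ℂ) * I) * (((‖S.wv ν x‖ : ℝ) : ℂ)) ^ 2).im = _
    rw [h4, Complex.im_mul_ofReal]
    simp
  rw [h3] at h
  linarith

theorem flux_le (hS : S.Good) (hν : Adm ν) {ℓ : X → ℕ} {R : ℝ}
    (near : ∀ x z, S.H x z ≠ 0 → ℓ x ≤ ℓ z + 1) (row : ∀ x, ∑ z, |S.H x z| ≤ R)
    {i : ℕ} (hU : ∀ x, i < ℓ x → ∀ s, S.U x s = 0) :
    S.FL ℓ ν i ≤ 2 * R * (S.rho ℓ ν i + S.rho ℓ ν (i + 1)) := by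
  have h1 : ∑ x with i < ℓ x, ((ν x).im + S.y x) * ‖S.wv ν x‖ ^ 2 =
      -∑ x with i < ℓ x, ∑ z, S.H x z * cur S ν x z := by
    rw [← Finset.sum_neg_distrib]
    refine Finset.sum_congr rfl fun x hx => ?_
    exact fl_im hS hν x (hU x (Finset.mem_filter.1 hx).2)
  have hsymm : ∀ x z, S.H x z = S.H z x := fun x z => (hS.symm.apply x z).symm
  -- the pairs inside
  have h2 : ∑ x with i < ℓ x, ∑ z with i < ℓ z, S.H x z * cur S ν x z = 0 := by
    have e1 : ∑ x with i < ℓ x, ∑ z with i < ℓ z, S.H x z * cur S ν x z =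
        -∑ x with i < ℓ x, ∑ z with i < ℓ z, S.H x z * cur S ν x z := by
      conv_lhs => rw [Finset.sum_comm]
      rw [← Finset.sum_neg_distrib]
      refine Finset.sum_congr rfl fun x _ => ?_
      rw [← Finset.sum_neg_distrib]
      refine Finset.sum_congr rfl fun z _ => ?_
      rw [hsymm z x, cur_anti x z]
      ring
    linarith
  have h3 : ∑ x with i < ℓ x, ∑ z, S.H x z * cur S ν x z =
      ∑ x with i < ℓ x, ∑ z with ¬ i < ℓ z, S.H x z * cur S ν x z := by
    have e1 : ∑ x with i < ℓ x, ∑ z, S.H x z * cur S ν x z =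
        ∑ x with i < ℓ x, (∑ z with i < ℓ z, S.H x z * cur S ν x z +
          ∑ z with ¬ i < ℓ z, S.H x z * cur S ν x z) := by
      refine Finset.sum_congr rfl fun x _ => ?_
      rw [Finset.sum_filter_add_sum_filter_not]
    rw [e1, Finset.sum_add_distrib, h2, zero_add]
  -- the bound of the boundary terms
  have h4 : |∑ x with i < ℓ x, ∑ z with ¬ i < ℓ z, S.H x z * cur S ν x z| ≤
      ∑ x with ℓ x = i + 1, ∑ z with ℓ z = i, |S.H x z| * ((‖S.wv ν x‖ ^ 2 + ‖S.wv ν z‖ ^ 2) / 2) := by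
    refine (Finset.abs_sum_le_sum_abs _ _).trans ?_
    have e1 : ∀ x, i < ℓ x → |∑ z with ¬ i < ℓ z, S.H x z * cur S ν x z| ≤
        if ℓ x = i + 1 then ∑ z with ℓ z = i, |S.H x z| * ((‖S.wv ν x‖ ^ 2 + ‖S.wv ν z‖ ^ 2) / 2)
        else 0 := by
      intro x hx
      have e2 : ∑ z with ¬ i < ℓ z, S.H x z * cur S ν x z =
          ∑ z, if (ℓ x = i + 1 ∧ ℓ z = i) then S.H x z * cur S ν x z else 0 := by
        rw [Finset.sum_filter]
        refine Finset.sum_congr rfl fun z _ => ?_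
        by_cases hz : ¬ i < ℓ z
        · rw [if_pos hz]
          split_ifs with h
          · rfl
          · by_cases hH : S.H x z = 0
            · rw [hH, zero_mul]
            · exfalso
              have := near x z hH
              apply h
              omega
        · rw [if_neg hz, if_neg]
          omega
      rw [e2]
      split_ifs with hx1
      · refine (Finset.abs_sum_le_sum_abs _ _).trans ?_
        rw [Finset.sum_filter]
        refine Finset.sum_le_sum fun z _ => ?_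
        by_cases hz : ℓ z = i
        · rw [if_pos ⟨hx1, hz⟩, if_pos hz, abs_mul]
          exact mul_le_mul_of_nonneg_left (cur_le x z) (abs_nonneg _)
        · rw [if_neg (fun h => hz h.2), if_neg hz, abs_zero]
      · rw [Finset.sum_eq_zero, abs_zero]
        intro z _
        rw [if_neg (fun h => hx1 h.1)]
    refine (Finset.sum_le_sum fun x hx => e1 x (Finset.mem_filter.1 hx).2).trans ?_
    rw [← Finset.sum_filter]
    refine Finset.sum_le_sum_of_subset_of_nonneg ?_ fun x _ _ =>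
      Finset.sum_nonneg fun z _ => by positivity
    intro x hx
    rw [Finset.mem_filter] at hx ⊢
    exact ⟨Finset.mem_univ _, hx.2⟩
  have h5 : ∑ x with ℓ x = i + 1, ∑ z with ℓ z = i,
      |S.H x z| * ((‖S.wv ν x‖ ^ 2 + ‖S.wv ν z‖ ^ 2) / 2) ≤
      R * (S.rho ℓ ν i + S.rho ℓ ν (i + 1)) / 2 := by
    have e1 : ∑ x with ℓ x = i + 1, ∑ z with ℓ z = i,
        |S.H x z| * ((‖S.wv ν x‖ ^ 2 + ‖S.wv ν z‖ ^ 2) / 2) =
        (∑ x with ℓ x = i + 1, (∑ z with ℓ z = i, |S.H x z|) * ‖S.wv ν x‖ ^ 2) / 2 +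
        (∑ z with ℓ z = i, (∑ x with ℓ x = i + 1, |S.H x z|) * ‖S.wv ν z‖ ^ 2) / 2 := by
      have e2 : ∑ z with ℓ z = i, (∑ x with ℓ x = i + 1, |S.H x z|) * ‖S.wv ν z‖ ^ 2 =
          ∑ x with ℓ x = i + 1, ∑ z with ℓ z = i, |S.H x z| * ‖S.wv ν z‖ ^ 2 := by
        rw [Finset.sum_comm]
        exact Finset.sum_congr rfl fun z _ => Finset.sum_mul _ _ _
      rw [e2, ← add_div, ← Finset.sum_add_distrib, Finset.sum_div]
      refine Finset.sum_congr rfl fun x _ => ?_
      rw [Finset.sum_mul, ← Finset.sum_add_distrib, Finset.sum_div]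
      refine Finset.sum_congr rfl fun z _ => ?_
      ring
    have e3 : ∑ x with ℓ x = i + 1, (∑ z with ℓ z = i, |S.H x z|) * ‖S.wv ν x‖ ^ 2 ≤
        R * S.rho ℓ ν (i + 1) := by
      rw [rho, Finset.mul_sum]
      refine Finset.sum_le_sum fun x _ => mul_le_mul_of_nonneg_right ?_ (by positivity)
      refine le_trans ?_ (row x)
      exact Finset.sum_le_sum_of_subset_of_nonneg (Finset.filter_subset _ _) fun _ _ _ => abs_nonneg _
    have e4 : ∑ z with ℓ z = i, (∑ x with ℓ x = i + 1, |S.H x z|) * ‖S.wv ν z‖ ^ 2 ≤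
        R * S.rho ℓ ν i := by
      rw [rho, Finset.mul_sum]
      refine Finset.sum_le_sum fun z _ => mul_le_mul_of_nonneg_right ?_ (by positivity)
      refine le_trans ?_ (row z)
      refine le_trans (Finset.sum_le_sum_of_subset_of_nonneg (Finset.filter_subset _ _)
        fun _ _ _ => abs_nonneg _) (le_of_eq ?_)
      exact Finset.sum_congr rfl fun x _ => by rw [hsymm x z]
    rw [e1]
    linarith
  unfold FL
  rw [h1, h3]
  have h6 := neg_abs_le (∑ x with i < ℓ x, ∑ z with ¬ i < ℓ z, S.H x z * cur S ν x z)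
  linarith

end Sys

end Pool.Agent.Lib.MP_562b47_mp.Str
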