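import Pool.Agent.Lib.MP_562b47_mp.Str.Step
import Pool.Agent.Lib.MP_562b47_mp.Str.FluxLe

/-!
Module STR-Decay (MP_562b47_mp, strips).  Deterministic decay of the flux in an absorbing block.

`BP c b q ℓ n l V ν`: an admissible potential with `‖ν‖ ≤ c + 1` on the block `n < ℓ ≤ n + l` and
`b q ≤ Im ν` at the core sites of the block.  `Std`: the standing hypotheses on a system; `P = Pk D Δ k`.
PROOFS.
* `std_self`, `std_cut`: from `fwd_Fs`, `cut_good`, `cut_layered`, `cut_Fs` and monotonicity.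
* `mass`: `a x := ‖T.wv ν x‖²`, `one_step` gives `step` of `peel` (`U (up x) = 0` as
  `ℓ (up x) = ℓ x + 1 > n`; `D = R + c + 2 ≥ R + ‖ν‖ + y`).  By `peel` with `j + 2k + 2 ≤ n + l`:
  `∑_{i<ℓ≤j} a ≤ P ∑_{core, i<ℓ≤j+2k} a ≤ P / (4 b q) * FL i` since at core sites of the block
  `4 (Im ν + y) ≥ 4 b q` and all the terms of `FL i` are nonnegative.
* `half`: by `flux_le` for `i' = i+1, ..., i+r-1` (`FL i' ≤ 2R(ρ_{i'} + ρ_{i'+1})`) and `FL_anti`,
  `(r-1) FL (i+r) ≤ ∑_{i'=i+1}^{i+r-1} FL i' ≤ 4 R ∑_{i<ℓ≤i+r} a ≤ 4 R P/(4bq) FL i = (R P/(b q)) FL i`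
  and `2 R P ≤ (r-1) b q` gives `FL (i+r) ≤ FL i / 2`.
* `decay`: induction, `FL n ≤ M` (`FL_le_card`).
-/

open MeasureTheory Matrix Complex

namespace Pool.Agent.Lib.MP_562b47_mp.Str

variable {X ι : Type*} [Fintype X] [DecidableEq X] [Fintype ι] [DecidableEq ι]

/-- block potentials -/
structure BP (c b q : ℝ) (ℓ : X → ℕ) (n l : ℕ) (V : X → ℝ) (ν : X → ℂ) : Prop where
  adm : Adm ν
  bdd : ∀ x, n < ℓ x → ℓ x ≤ n + l → ‖ν x‖ ≤ c + 1
  abs : ∀ x, n < ℓ x → ℓ x ≤ n + l → V x ∈ core c q → b * q ≤ (ν x).im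

/-- standing hypotheses -/
structure Std (T : Sys X ι) (F : X → Finset X) (ℓ : X → ℕ) (up : X → X) (R : ℝ) (Δ n l : ℕ) :
    Prop where
  good : T.Good
  Rnn : 0 ≤ R
  lay : T.Layered ℓ up R Δ (n + l)
  src : ∀ x, n < ℓ x → ∀ s, T.U x s = 0
  yle : ∀ x, ℓ x ≤ n + l → T.y x ≤ 1
  Feq : ∀ x, ℓ x + 2 ≤ n + l → T.Fs up x = F x
  fwd : Fwd ℓ F Δ (n + l)

namespace Sys

variable {S T : Sys X ι} {ν : X → ℂ} {ℓ : X → ℕ} {up : X → X} {R c b q : ℝ} {Δ N n l k : ℕ}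
  {F : X → Finset X} {V : X → ℝ}

omit [DecidableEq X] [Fintype ι] [DecidableEq ι] in
private theorem Decay_mono (hL : S.Layered ℓ up R Δ N) {N' : ℕ} (hN : N' ≤ N) :
    S.Layered ℓ up R Δ N' where
  near := hL.near
  row := hL.row
  deg := hL.deg
  up_layer := fun x hx => hL.up_layer x (hx.trans_le hN)
  up_one := fun x hx => hL.up_one x (hx.trans_le hN)
  up_unique := fun x hx => hL.up_unique x (hx.trans_le hN)

theorem std_self (hS : S.Good) (hR : 0 ≤ R) (hL : S.Layered ℓ up R Δ N) (hN : n + l ≤ N)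
    (src : ∀ x, n < ℓ x → ∀ s, S.U x s = 0) (yle : ∀ x, ℓ x ≤ n + l → S.y x ≤ 1) :
    Std S (S.Fs up) ℓ up R Δ n l where
  good := hS
  Rnn := hR
  lay := Decay_mono hL hN
  src := src
  yle := yle
  Feq := fun _ _ => rfl
  fwd := fwd_Fs hS (Decay_mono hL hN)

theorem std_cut (hS : S.Good) (hR : 0 ≤ R) (hL : S.Layered ℓ up R Δ N) (hN : n + l ≤ N)
    (src : ∀ x, n < ℓ x → ∀ s, S.U x s = 0) (yle : ∀ x, ℓ x ≤ n + l → S.y x ≤ 1) :
    Std (S.cut ℓ (n + l)) (S.Fs up) ℓ up R Δ n l where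
  good := cut_good hS _ _
  Rnn := hR
  lay := cut_layered hL hN
  src := src
  yle := yle
  Feq := fun _ hx => cut_Fs hS hL hN hx
  fwd := fwd_Fs hS (Decay_mono hL hN)

theorem mass (hT : Std T F ℓ up R Δ n l) (hc : 0 < c) (hb : 0 < b) (hq : 0 < q)
    (hV : V ∈ GE c q F ℓ n l k) (hB : BP c b q ℓ n l V ν) {i j : ℕ} (hi : n ≤ i)
    (hj : j + 2 * k + 2 ≤ n + l) :
    ∑ x with i < ℓ x ∧ ℓ x ≤ j, ‖T.wv ν x‖ ^ 2
      ≤ Pk (R + c + 2) Δ k / (4 * b * q) * T.FL ℓ ν i := by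
  classical
  have hD : 1 ≤ R + c + 2 := by linarith [hT.Rnn]
  have hP : 0 ≤ Pk (R + c + 2) Δ k := by unfold Pk; positivity
  have step : ∀ x, n < ℓ x → ℓ x + 2 ≤ n + l →
      ‖T.wv ν x‖ ^ 2 ≤ (R + c + 2) ^ 2 * ∑ z ∈ F x, ‖T.wv ν z‖ ^ 2 := by
    intro x hx hx2
    have hup := hT.lay.up_layer x (by omega)
    rw [← hT.Feq x hx2]
    refine one_step hT.good hB.adm hT.lay (by omega) ?_ ?_
    · exact hT.src _ (by omega)
    · have h1 := hB.bdd (up x) (by omega) (by omega)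
      have h2 := hT.yle (up x) (by omega)
      linarith
  have h1 := peel hD hT.fwd hV (a := fun x => ‖T.wv ν x‖ ^ 2) (fun x => by positivity) step hi hj
  beta_reduce at h1
  refine h1.trans ?_
  have hbq : 0 < 4 * b * q := by positivity
  rw [div_mul_eq_mul_div, mul_div_assoc]
  refine mul_le_mul_of_nonneg_left ?_ hP
  rw [le_div_iff₀ hbq]
  unfold FL
  have h2 : b * q * ∑ x with (i < ℓ x ∧ ℓ x ≤ j + 2 * k),
      (if V x ∈ core c q then ‖T.wv ν x‖ ^ 2 else 0) ≤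
      ∑ x with i < ℓ x, ((ν x).im + T.y x) * ‖T.wv ν x‖ ^ 2 := by
    rw [Finset.mul_sum]
    have hsub : (Finset.univ.filter fun x => i < ℓ x ∧ ℓ x ≤ j + 2 * k) ⊆
        (Finset.univ.filter fun x => i < ℓ x) := by
      intro x hx
      rw [Finset.mem_filter] at hx ⊢
      exact ⟨hx.1, hx.2.1⟩
    refine le_trans (Finset.sum_le_sum ?_) (Finset.sum_le_sum_of_subset_of_nonneg hsub
      fun x _ _ => mul_nonneg (add_nonneg (hB.adm x) (hT.good.pos x).le) (by positivity))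
    intro x hx
    rw [Finset.mem_filter] at hx
    have hnn : 0 ≤ ‖T.wv ν x‖ ^ 2 := by positivity
    have hy := (hT.good.pos x).le
    split_ifs with hcore
    · have h3 := hB.abs x (by omega) (by omega) hcore
      exact mul_le_mul_of_nonneg_right (by linarith) hnn
    · rw [mul_zero]
      exact mul_nonneg (add_nonneg (hB.adm x) hy) hnn
  have e : ∀ A : ℝ, A * (4 * b * q) = 4 * (b * q * A) := fun A => by ring
  rw [e]
  refine mul_le_mul_of_nonneg_left ?_ (by norm_num)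
  exact h2

omit [DecidableEq ι] in
private theorem Decay_rho (T : Sys X ι) (ℓ : X → ℕ) (ν : X → ℂ) (i r : ℕ) :
    ∑ i' ∈ Finset.Ioc i (i + r), T.rho ℓ ν i' =
      ∑ x with i < ℓ x ∧ ℓ x ≤ i + r, ‖T.wv ν x‖ ^ 2 := by
  rw [← Finset.sum_fiberwise_of_maps_to (s := Finset.univ.filter fun x => i < ℓ x ∧ ℓ x ≤ i + r)
    (t := Finset.Ioc i (i + r)) (g := ℓ) (f := fun x => ‖T.wv ν x‖ ^ 2)]
  · refine Finset.sum_congr rfl fun i' hi' => ?_
    rw [Finset.mem_Ioc] at hi'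
    unfold rho
    refine Finset.sum_congr ?_ fun _ _ => rfl
    ext x
    simp only [Finset.mem_filter, Finset.mem_univ, true_and]
    constructor
    · intro h
      exact ⟨⟨by omega, by omega⟩, h⟩
    · exact fun h => h.2
  · intro x hx
    rw [Finset.mem_filter] at hx
    exact Finset.mem_Ioc.2 hx.2

theorem half (hT : Std T F ℓ up R Δ n l) (hc : 0 < c) (hb : 0 < b) (hq : 0 < q)
    (hV : V ∈ GE c q F ℓ n l k) (hB : BP c b q ℓ n l V ν) {i r : ℕ} (hi : n ≤ i) (hr1 : 2 ≤ r)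
    (hr : 2 * R * Pk (R + c + 2) Δ k ≤ (r - 1) * (b * q)) (hj : i + r + 2 * k + 2 ≤ n + l) :
    T.FL ℓ ν (i + r) ≤ T.FL ℓ ν i / 2 := by
  have hm := mass hT hc hb hq hV hB hi hj
  have hFL0 : 0 ≤ T.FL ℓ ν i := FL_nonneg hT.good hB.adm ℓ i
  have hρ : ∀ i', 0 ≤ T.rho ℓ ν i' := fun i' => Finset.sum_nonneg fun x _ => by positivity
  have hr0 : (0 : ℝ) < (r : ℝ) - 1 := by
    have : (2 : ℝ) ≤ r := by exact_mod_cast hr1
    linarith
  -- the sum over the layers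
  have h1 : ((r : ℝ) - 1) * T.FL ℓ ν (i + r) ≤
      ∑ i' ∈ Finset.Ico (i + 1) (i + r), T.FL ℓ ν i' := by
    have hcard : ((Finset.Ico (i + 1) (i + r)).card : ℝ) = (r : ℝ) - 1 := by
      rw [Nat.card_Ico]
      have : i + r - (i + 1) = r - 1 := by omega
      rw [this, Nat.cast_sub (by omega), Nat.cast_one]
    rw [← hcard, ← nsmul_eq_mul]
    refine Finset.card_nsmul_le_sum _ _ _ fun i' hi' => ?_
    rw [Finset.mem_Ico] at hi'
    exact FL_anti hT.good hB.adm ℓ (by omega)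
  have h2 : ∑ i' ∈ Finset.Ico (i + 1) (i + r), T.FL ℓ ν i' ≤
      ∑ i' ∈ Finset.Ico (i + 1) (i + r), 2 * R * (T.rho ℓ ν i' + T.rho ℓ ν (i' + 1)) := by
    refine Finset.sum_le_sum fun i' hi' => ?_
    rw [Finset.mem_Ico] at hi'
    exact flux_le hT.good hB.adm hT.lay.near hT.lay.row
      (fun x hx => hT.src x (by omega))
  have h3 : ∑ i' ∈ Finset.Ico (i + 1) (i + r), T.rho ℓ ν i' ≤
      ∑ i' ∈ Finset.Ioc i (i + r), T.rho ℓ ν i' := by
    refine Finset.sum_le_sum_of_subset_of_nonneg ?_ fun i' _ _ => hρ i'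
    intro i' hi'
    rw [Finset.mem_Ico] at hi'
    rw [Finset.mem_Ioc]
    omega
  have h4 : ∑ i' ∈ Finset.Ico (i + 1) (i + r), T.rho ℓ ν (i' + 1) ≤
      ∑ i' ∈ Finset.Ioc i (i + r), T.rho ℓ ν i' := by
    rw [Finset.sum_Ico_add' (fun i' => T.rho ℓ ν i') (i + 1) (i + r) 1]
    refine Finset.sum_le_sum_of_subset_of_nonneg ?_ fun i' _ _ => hρ i'
    intro i' hi'
    rw [Finset.mem_Ico] at hi'
    rw [Finset.mem_Ioc]
    omega
  rw [← Finset.mul_sum, Finset.sum_add_distrib] at h2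
  rw [Decay_rho] at h3 h4
  have hR := hT.Rnn
  have h5 : ((r : ℝ) - 1) * T.FL ℓ ν (i + r) ≤
      4 * R * (Pk (R + c + 2) Δ k / (4 * b * q) * T.FL ℓ ν i) := by
    refine (h1.trans h2).trans ?_
    have e : 4 * R * (Pk (R + c + 2) Δ k / (4 * b * q) * T.FL ℓ ν i) =
        2 * R * (Pk (R + c + 2) Δ k / (4 * b * q) * T.FL ℓ ν i +
          Pk (R + c + 2) Δ k / (4 * b * q) * T.FL ℓ ν i) := by ring
    rw [e]
    exact mul_le_mul_of_nonneg_left (add_le_add (h3.trans hm) (h4.trans hm)) (by linarith)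
  have h6 : 4 * R * (Pk (R + c + 2) Δ k / (4 * b * q) * T.FL ℓ ν i) ≤
      ((r : ℝ) - 1) * (T.FL ℓ ν i / 2) := by
    have hbq : 0 < b * q := by positivity
    have e : 4 * R * (Pk (R + c + 2) Δ k / (4 * b * q) * T.FL ℓ ν i) =
        (2 * R * Pk (R + c + 2) Δ k) / (b * q) * (T.FL ℓ ν i / 2) := by
      field_simp
    rw [e]
    refine mul_le_mul_of_nonneg_right ?_ (by linarith)
    rw [div_le_iff₀ hbq]
    exact hr
  exact le_of_mul_le_mul_left (h5.trans h6) hr0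

theorem decay (hT : Std T F ℓ up R Δ n l) (hc : 0 < c) (hb : 0 < b) (hq : 0 < q)
    (hV : V ∈ GE c q F ℓ n l k) (hB : BP c b q ℓ n l V ν) {r J : ℕ} (hr1 : 2 ≤ r)
    (hr : 2 * R * Pk (R + c + 2) Δ k ≤ (r - 1) * (b * q)) (hj : J * r + 2 * k + 2 ≤ l) :
    T.FL ℓ ν (n + J * r) ≤ (1 / 2) ^ J * Fintype.card ι := by
  induction J with
  | zero =>
    rw [zero_mul, add_zero, pow_zero, one_mul]
    exact FL_le_card hT.good hB.adm ℓ n
  | succ J ih =>
    have e1 : (J + 1) * r = J * r + r := by ring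
    have ih' := ih (by omega)
    have h1 := half hT hc hb hq hV hB (i := n + J * r) (by omega) hr1 hr (by omega)
    have e : n + (J + 1) * r = n + J * r + r := by ring
    rw [e, pow_succ]
    linarith

end Sys

end Pool.Agent.Lib.MP_562b47_mp.Str
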