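import Pool.Agent.Lib.MP_562b47_mp.Str.Base

/-!
Module STR-Dfm (MP_562b47_mp, strips).  Elementary facts on the deformation, the profile `chi`, the
maps `mix`, `shf` and on the uniform law.

`chi c v = max 0 (1 - (v/c)²)`; it is `2/c`-Lipschitz on all of `ℝ`. On the core `|v| ≤ (1-q) c`:
`chi ≥ 1 - (1-q)² = 2 q - q² ≥ q`.
`unif c` is a probability measure for `c > 0`; the complement of the core has mass `q`.
-/

open MeasureTheory Matrix Complex

namespace Pool.Agent.Lib.MP_562b47_mp.Str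

variable {X : Type*} [Fintype X] [DecidableEq X]

theorem chi_nonneg (c v : ℝ) : 0 ≤ chi c v := le_max_left _ _

theorem chi_le_one (c v : ℝ) : chi c v ≤ 1 :=
  max_le zero_le_one (by nlinarith [sq_nonneg (v / c)])

private theorem dfm_chi_eq {c : ℝ} (hc : 0 < c) (v : ℝ) :
    chi c v = 1 - (min (|v| / c) 1) ^ 2 := by
  have h0 : 0 ≤ |v| / c := by positivity
  have h1 : (v / c) ^ 2 = (|v| / c) ^ 2 := by rw [div_pow, div_pow, sq_abs]
  unfold chi
  rw [h1]
  rcases le_total (|v| / c) 1 with h | h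
  · rw [min_eq_left h, max_eq_right]
    nlinarith
  · rw [min_eq_right h, max_eq_left]
    · norm_num
    · nlinarith

theorem chi_lip {c : ℝ} (hc : 0 < c) (v v' : ℝ) : |chi c v - chi c v'| ≤ 2 / c * |v - v'| := by
  rw [dfm_chi_eq hc, dfm_chi_eq hc]
  set s := min (|v| / c) 1 with hs
  set t := min (|v'| / c) 1 with ht
  have hs0 : 0 ≤ s := le_min (by positivity) zero_le_one
  have hs1 : s ≤ 1 := min_le_right _ _
  have ht0 : 0 ≤ t := le_min (by positivity) zero_le_one
  have ht1 : t ≤ 1 := min_le_right _ _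
  have h1 : |s - t| ≤ |v - v'| / c := by
    calc |s - t| ≤ max |(|v| / c) - |v'| / c| |(1 : ℝ) - 1| := abs_min_sub_min_le_max _ _ _ _
      _ = |(|v| / c) - |v'| / c| := by
          rw [sub_self, abs_zero, max_eq_left (abs_nonneg _)]
      _ = |(|v| - |v'|)| / c := by
          rw [← sub_div, abs_div, abs_of_pos hc]
      _ ≤ |v - v'| / c := by
          have := abs_abs_sub_abs_le_abs_sub v v'
          gcongr
  have h2 : (1 - s ^ 2) - (1 - t ^ 2) = -((s - t) * (s + t)) := by ring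
  rw [h2, abs_neg, abs_mul]
  calc |s - t| * |s + t| ≤ (|v - v'| / c) * 2 := by
        refine mul_le_mul h1 ?_ (abs_nonneg _) (by positivity)
        rw [abs_of_nonneg (by linarith)]
        linarith
    _ = 2 / c * |v - v'| := by ring

theorem le_chi_of_core {c q v : ℝ} (hc : 0 < c) (hq : 0 ≤ q) (hq1 : q ≤ 1) (hv : v ∈ core c q) :
    q ≤ chi c v := by
  have hv' : |v| ≤ (1 - q) * c := hv
  have h1 : |v| / c ≤ 1 - q := by rwa [div_le_iff₀ hc]
  have h0 : 0 ≤ |v| / c := by positivity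
  have h2 : (v / c) ^ 2 = (|v| / c) ^ 2 := by rw [div_pow, div_pow, sq_abs]
  refine le_trans ?_ (le_max_right _ _)
  rw [h2]
  nlinarith

theorem continuous_chi (c : ℝ) : Continuous (chi c) := by
  unfold chi
  fun_prop

theorem measurableSet_core (c q : ℝ) : MeasurableSet (core c q) :=
  measurableSet_le continuous_abs.measurable measurable_const

theorem core_subset {c q : ℝ} (hc : 0 < c) (hq : 0 ≤ q) : core c q ⊆ Set.Icc (-c) c := by
  intro v hv
  have hv' : |v| ≤ (1 - q) * c := hv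
  rw [Set.mem_Icc, ← abs_le]
  nlinarith

theorem adm_real (V : X → ℝ) : Adm fun x => (V x : ℂ) := by
  intro x
  show 0 ≤ ((V x : ℂ)).im
  rw [Complex.ofReal_im]

theorem dfm_of_mem {B : Set X} {x : X} (hx : x ∈ B) (c b : ℝ) (V : X → ℝ) (z : ℂ) :
    dfm B c b V z x = (V x : ℂ) + z * ((b * chi c (V x) : ℝ) : ℂ) := by
  unfold dfm
  rw [if_pos hx]

theorem dfm_of_notMem {B : Set X} {x : X} (hx : x ∉ B) (c b : ℝ) (V : X → ℝ) (z : ℂ) :
    dfm B c b V z x = (V x : ℂ) := by
  unfold dfm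
  rw [if_neg hx]

theorem dfm_im (B : Set X) (c b : ℝ) (V : X → ℝ) (z : ℂ) (x : X) :
    (dfm B c b V z x).im = open Classical in if x ∈ B then z.im * (b * chi c (V x)) else 0 := by
  classical
  by_cases hx : x ∈ B
  · rw [dfm_of_mem hx, if_pos hx, Complex.add_im, Complex.ofReal_im, zero_add, mul_comm z,
      Complex.im_ofReal_mul, mul_comm]
  · rw [dfm_of_notMem hx, if_neg hx, Complex.ofReal_im]

theorem adm_dfm (B : Set X) (c : ℝ) {b : ℝ} (hb : 0 ≤ b) (V : X → ℝ) {z : ℂ} (hz : 0 ≤ z.im) :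
    Adm (dfm B c b V z) := by
  classical
  intro x
  rw [dfm_im]
  split_ifs
  · exact mul_nonneg hz (mul_nonneg hb (chi_nonneg _ _))
  · exact le_rfl

theorem dfm_ofReal (B : Set X) (c b : ℝ) (V : X → ℝ) (t : ℝ) :
    dfm B c b V (t : ℂ) = fun x => (shf B c b V t x : ℂ) := by
  funext x
  unfold shf
  by_cases hx : x ∈ B
  · rw [dfm_of_mem hx, if_pos hx]
    push_cast
    ring
  · rw [dfm_of_notMem hx, if_neg hx]

theorem dfm_update {B : Set X} {x : X} (hx : x ∈ B) (c b : ℝ) (V : X → ℝ) (v : ℝ) (z : ℂ) :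
    dfm B c b (Function.update V x v) z
      = Function.update (dfm B c b V z) x ((v : ℂ) + z * ((b * chi c v : ℝ) : ℂ)) := by
  funext w
  by_cases hw : w = x
  · subst hw
    rw [dfm_of_mem hx, Function.update_self, Function.update_self]
  · rw [Function.update_of_ne hw]
    by_cases hB : w ∈ B
    · rw [dfm_of_mem hB, dfm_of_mem hB, Function.update_of_ne hw]
    · rw [dfm_of_notMem hB, dfm_of_notMem hB, Function.update_of_ne hw]

theorem norm_dfm_le {B : Set X} {c b : ℝ} (hc : 0 < c) (hb : 0 ≤ b) (hb1 : b ≤ 1) {V : X → ℝ}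
    {x : X} (hV : V x ∈ Set.Icc (-c) c) : ‖dfm B c b V I x‖ ≤ c + 1 := by
  have h1 : ‖(V x : ℂ)‖ ≤ c := by
    rw [Complex.norm_real, Real.norm_eq_abs, abs_le]
    exact hV
  by_cases hx : x ∈ B
  · rw [dfm_of_mem hx]
    refine (norm_add_le _ _).trans (add_le_add h1 ?_)
    rw [norm_mul, Complex.norm_I, one_mul, Complex.norm_real, Real.norm_eq_abs,
      abs_of_nonneg (mul_nonneg hb (chi_nonneg _ _))]
    exact mul_le_one₀ hb1 (chi_nonneg _ _) (chi_le_one _ _)
  · rw [dfm_of_notMem hx]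
    linarith

theorem continuous_dfm (B : Set X) (c b : ℝ) (z : ℂ) (x : X) :
    Continuous fun V : X → ℝ => dfm B c b V z x := by
  have h1 : Continuous fun V : X → ℝ => (V x : ℂ) :=
    Complex.continuous_ofReal.comp (continuous_apply x)
  by_cases hx : x ∈ B
  · simp_rw [dfm_of_mem hx]
    refine h1.add (continuous_const.mul (Complex.continuous_ofReal.comp ?_))
    exact continuous_const.mul ((continuous_chi c).comp (continuous_apply x))
  · simp_rw [dfm_of_notMem hx]
    exact h1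

theorem mix_of_le {ℓ : X → ℕ} {n : ℕ} {x : X} (h : ℓ x ≤ n) (V V' : X → ℝ) :
    mix ℓ n V V' x = V x := by
  unfold mix
  rw [if_pos h]

theorem mix_of_lt {ℓ : X → ℕ} {n : ℕ} {x : X} (h : n < ℓ x) (V V' : X → ℝ) :
    mix ℓ n V V' x = V' x := by
  unfold mix
  rw [if_neg (not_le.2 h)]

/-- the two real sections agree -/
theorem mix_shf (ℓ : X → ℕ) (n l : ℕ) (c b : ℝ) (V V' : X → ℝ) (t : ℝ) :
    shf (Blk ℓ n l) c b (mix ℓ (n + l) V V') t = mix ℓ (n + l) (shf (Blk ℓ n l) c b V t) V' := by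
  funext x
  by_cases h : ℓ x ≤ n + l
  · rw [mix_of_le h]
    unfold shf
    by_cases hx : x ∈ Blk ℓ n l
    · rw [if_pos hx, if_pos hx, mix_of_le h]
    · rw [if_neg hx, if_neg hx, mix_of_le h]
  · have h' := not_le.1 h
    rw [mix_of_lt h']
    unfold shf
    have hx : x ∉ Blk ℓ n l := fun hx => h hx.2
    rw [if_neg hx, mix_of_lt h']

theorem isProb_unif {c : ℝ} (hc : 0 < c) : IsProbabilityMeasure (unif c) := by
  constructor
  unfold unif
  rw [Measure.smul_apply, Measure.restrict_apply_univ, Real.volume_Icc, smul_eq_mul,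
    show c - -c = 2 * c by ring]
  exact ENNReal.inv_mul_cancel (by simpa using hc) ENNReal.ofReal_ne_top

theorem isProb_PX {c : ℝ} (hc : 0 < c) : IsProbabilityMeasure (PX X c) := by
  have := isProb_unif hc
  unfold PX
  infer_instance

theorem integral_unif {E : Type*} [NormedAddCommGroup E] [NormedSpace ℝ E] {c : ℝ} (hc : 0 < c)
    (f : ℝ → E) : ∫ v, f v ∂(unif c) = (2 * c)⁻¹ • ∫ v in Set.Icc (-c) c, f v := by
  unfold unif
  rw [integral_smul_measure, ENNReal.toReal_inv, ENNReal.toReal_ofReal (by positivity)]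

theorem unif_hole {c q : ℝ} (hc : 0 < c) (hq : 0 ≤ q) (hq1 : q ≤ 1) :
    (unif c).real (core c q)ᶜ = q := by
  have := isProb_unif hc
  rw [probReal_compl_eq_one_sub (measurableSet_core c q)]
  have h1 : core c q = Set.Icc (-((1 - q) * c)) ((1 - q) * c) := by
    ext v
    rw [Set.mem_Icc, ← abs_le]
    rfl
  have h2 : (unif c).real (core c q) = 1 - q := by
    unfold unif
    rw [measureReal_ennreal_smul_apply, measureReal_restrict_apply (measurableSet_core c q),
      Set.inter_eq_left.2 (core_subset hc hq), h1, Measure.real, Real.volume_Icc,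
      ENNReal.toReal_inv, ENNReal.toReal_ofReal (by positivity),
      ENNReal.toReal_ofReal (by nlinarith)]
    field_simp
    ring
  rw [h2]
  ring

theorem ae_cube {c : ℝ} (hc : 0 < c) : ∀ᵐ V ∂(PX X c), ∀ x, V x ∈ Set.Icc (-c) c := by
  have := isProb_unif hc
  rw [ae_all_iff]
  intro x
  have h : ∀ᵐ v ∂(unif c), v ∈ Set.Icc (-c) c := by
    unfold unif
    exact Measure.ae_smul_measure (ae_restrict_mem measurableSet_Icc) _
  unfold PX
  exact (measurePreserving_eval (fun _ : X => unif c) x).quasiMeasurePreserving.ae h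

end Pool.Agent.Lib.MP_562b47_mp.Str
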