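import Pool.Agent.Lib.MP_562b47_mp.Str.Ward

/-!
Module STR-Site (MP_562b47_mp, strips).  Change of the potential at one site.

PROOF.  `ν' = update ν x v`, `δ = v - ν x`, `K' - K = δ e_x e_xᵀ`, resolvent identity
`G' = G - G (K' - K) G'`, i.e. `G'_pq = G_pq - δ G_px G'_xq` (`upd_G`); multiply by `U` on the right
(`upd_w`, `upd_wv`); multiply by `Uᵀ` on the left and use the symmetry of `G` (`upd_S`).
`p = q = x` gives `G'_xx (1 + δ G_xx) = G_xx`.
`site`: put `σ = 1 / G_xx(ν) - ν x` and `a = G_xx(ν)⁻¹ • wv ν x`; from `upd_Gxx`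
`1 / G'_xx = 1 / G_xx + δ = v + σ`, and from `upd_wv` at `p = x`: `wv' = G'_xx / G_xx • wv`.
`0 < σ.im`: take `v = 0` (real), `Im (1 / G'_xx) = Im σ`, and `Im G'_xx < 0`.
-/

open MeasureTheory Matrix Complex

namespace Pool.Agent.Lib.MP_562b47_mp.Str

variable {X ι : Type*} [Fintype X] [DecidableEq X] [Fintype ι] [DecidableEq ι]

theorem Adm.update {ν : X → ℂ} (hν : Adm ν) (x : X) {v : ℂ} (hv : 0 ≤ v.im) :
    Adm (Function.update ν x v) := by
  intro z
  by_cases h : z = x
  · subst h
    rw [Function.update_self]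
    exact hv
  · rw [Function.update_of_ne h]
    exact hν z

namespace Sys

variable {S : Sys X ι} {ν : X → ℂ}

private theorem K_update (S : Sys X ι) (ν : X → ℂ) (x : X) (v : ℂ) :
    S.K ν = S.K (Function.update ν x v) -
      diagonal (fun z => Function.update ν x v z - ν z) := by
  ext i j
  by_cases h : i = j
  · subst h
    simp [K]
    ring
  · simp [K, h]

private theorem G_update (hS : S.Good) (hν : Adm ν) (x : X) {v : ℂ} (hv : 0 ≤ v.im) :
    S.G (Function.update ν x v) = S.G ν -
      S.G ν * (diagonal (fun z => Function.update ν x v z - ν z) *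
        S.G (Function.update ν x v)) := by
  have hν' := hν.update x hv
  calc S.G (Function.update ν x v) = (S.G ν * S.K ν) * S.G (Function.update ν x v) := by
        rw [G_mul_K hS hν, Matrix.one_mul]
    _ = S.G ν * (S.K ν * S.G (Function.update ν x v)) := Matrix.mul_assoc _ _ _
    _ = S.G ν * (1 - diagonal (fun z => Function.update ν x v z - ν z) *
        S.G (Function.update ν x v)) := by
        congr 1
        conv_lhs => rw [K_update S ν x v]
        rw [Matrix.sub_mul, K_mul_G hS hν']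
    _ = _ := by rw [Matrix.mul_sub, Matrix.mul_one]

theorem upd_G (hS : S.Good) (hν : Adm ν) (x : X) {v : ℂ} (hv : 0 ≤ v.im) (p q : X) :
    S.G (Function.update ν x v) p q
      = S.G ν p q - (v - ν x) * S.G ν p x * S.G (Function.update ν x v) x q := by
  have h := congrFun (congrFun (G_update hS hν x hv) p) q
  rw [Matrix.sub_apply, Matrix.mul_apply, Finset.sum_eq_single x] at h
  · rw [Matrix.diagonal_mul, Function.update_self] at h
    rw [h]
    ring
  · intro z _ hz
    rw [Matrix.diagonal_mul, Function.update_of_ne hz]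
    ring
  · intro hx
    exact absurd (Finset.mem_univ x) hx

theorem upd_w (hS : S.Good) (hν : Adm ν) (x : X) {v : ℂ} (hv : 0 ≤ v.im) (p : X) (s : ι) :
    S.w (Function.update ν x v) p s
      = S.w ν p s - (v - ν x) * S.G ν p x * S.w (Function.update ν x v) x s := by
  rw [w_eq hS (Function.update ν x v) p s, w_eq hS ν p s, w_eq hS (Function.update ν x v) x s,
    Finset.mul_sum, ← Finset.sum_sub_distrib]
  apply Finset.sum_congr rfl
  intro z _
  rw [upd_G hS hν x hv p z]
  ring

theorem upd_wv (hS : S.Good) (hν : Adm ν) (x : X) {v : ℂ} (hv : 0 ≤ v.im) (p : X) :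
    S.wv (Function.update ν x v) p
      = S.wv ν p - ((v - ν x) * S.G ν p x) • S.wv (Function.update ν x v) x := by
  ext s
  show S.w (Function.update ν x v) p s =
    S.w ν p s - ((v - ν x) * S.G ν p x) * S.w (Function.update ν x v) x s
  exact upd_w hS hν x hv p s

private theorem Sm_apply (S : Sys X ι) (ν : X → ℂ) (s s' : ι) :
    S.Sm ν s s' = (1 : Matrix ι ι ℂ) s s' - 2 * I * ∑ p, (S.U p s : ℂ) * S.w ν p s' := by
  unfold Sm
  rw [Matrix.sub_apply, Matrix.smul_apply, Matrix.mul_apply, smul_eq_mul]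
  rfl

theorem upd_S (hS : S.Good) (hν : Adm ν) (x : X) {v : ℂ} (hv : 0 ≤ v.im) (s s' : ι) :
    S.Sm (Function.update ν x v) s s'
      = S.Sm ν s s' + 2 * I * (v - ν x) * (S.w ν x s * S.w (Function.update ν x v) x s') := by
  rw [Sm_apply, Sm_apply]
  have h1 : ∑ p, (S.U p s : ℂ) * S.w (Function.update ν x v) p s' =
      ∑ p, (S.U p s : ℂ) * S.w ν p s' -
        (v - ν x) * (S.w ν x s * S.w (Function.update ν x v) x s') := by
    rw [w_eq hS ν x s, Finset.sum_mul, Finset.mul_sum, ← Finset.sum_sub_distrib]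
    apply Finset.sum_congr rfl
    intro p _
    rw [upd_w hS hν x hv p s', G_comm hS ν x p]
    ring
  rw [h1]
  ring

theorem upd_Gxx (hS : S.Good) (hν : Adm ν) (x : X) {v : ℂ} (hv : 0 ≤ v.im) :
    S.G (Function.update ν x v) x x * (1 + (v - ν x) * S.G ν x x) = S.G ν x x := by
  have h := upd_G hS hν x hv x x
  linear_combination h

theorem upd_wvx (hS : S.Good) (hν : Adm ν) (x : X) {v : ℂ} (hv : 0 ≤ v.im) :
    (1 + (v - ν x) * S.G ν x x) • S.wv (Function.update ν x v) x = S.wv ν x := by
  have h := upd_wv hS hν x hv x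
  rw [add_smul, one_smul]
  nth_rewrite 1 [h]
  rw [sub_add_cancel]

/-- dependence on the potential at `x` -/
theorem site (hS : S.Good) (hν : Adm ν) (x : X) :
    ∃ (σ : ℂ) (a : EuclideanSpace ℂ ι), 0 < σ.im ∧ ∀ v : ℂ, 0 ≤ v.im → v + σ ≠ 0 ∧
      S.G (Function.update ν x v) x x = (v + σ)⁻¹ ∧
      S.wv (Function.update ν x v) x = (v + σ)⁻¹ • a := by
  have hG := G_ne hS hν x
  have key : ∀ v : ℂ, 0 ≤ v.im → v + ((S.G ν x x)⁻¹ - ν x) =
      (S.G (Function.update ν x v) x x)⁻¹ := by
    intro v hv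
    have hG' := G_ne hS (hν.update x hv) x
    have h := upd_Gxx hS hν x hv
    apply eq_inv_of_mul_eq_one_left
    have h2 : (v + ((S.G ν x x)⁻¹ - ν x)) = (1 + (v - ν x) * S.G ν x x) * (S.G ν x x)⁻¹ := by
      field_simp
      ring
    rw [h2, mul_comm _ (S.G ν x x)⁻¹, mul_assoc, mul_comm _ (S.G (Function.update ν x v) x x), h,
      inv_mul_cancel₀ hG]
  refine ⟨(S.G ν x x)⁻¹ - ν x, (S.G ν x x)⁻¹ • S.wv ν x, ?_, ?_⟩
  · have h0 : 0 ≤ (0 : ℂ).im := le_refl _
    have h1 := key 0 h0
    rw [zero_add] at h1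
    rw [h1, Complex.inv_im]
    have h2 := G_im_neg hS (hν.update x h0) x
    have h3 := G_ne hS (hν.update x h0) x
    have h4 : 0 < Complex.normSq (S.G (Function.update ν x 0) x x) := Complex.normSq_pos.mpr h3
    exact div_pos (by linarith) h4
  · intro v hv
    have hG' := G_ne hS (hν.update x hv) x
    have h1 := key v hv
    refine ⟨?_, ?_, ?_⟩
    · rw [h1]
      exact inv_ne_zero hG'
    · rw [h1, inv_inv]
    · rw [h1, inv_inv, ← upd_wvx hS hν x hv, smul_smul, smul_smul]
      have h2 := upd_Gxx hS hν x hv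
      have h3 : S.G (Function.update ν x v) x x * ((S.G ν x x)⁻¹ * (1 + (v - ν x) * S.G ν x x)) =
          1 := by
        rw [mul_left_comm, h2, inv_mul_cancel₀ hG]
      rw [mul_assoc, h3, one_smul]

/-- the difference of two scattering matrices which differ at one site -/
theorem norm_S_sub (hS : S.Good) (hν : Adm ν) (x : X) {v v' : ℂ} (hv : 0 ≤ v.im)
    (hv' : 0 ≤ v'.im) :
    ‖S.Sv (Function.update ν x v) - S.Sv (Function.update ν x v')‖
      = 2 * ‖v - v'‖ * ‖S.wv (Function.update ν x v) x‖ * ‖S.wv (Function.update ν x v') x‖ := by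
  have h1 : ∀ s s', S.Sm (Function.update ν x v) s s' - S.Sm (Function.update ν x v') s s' =
      2 * I * (v - v') * (S.w (Function.update ν x v') x s * S.w (Function.update ν x v) x s') := by
    intro s s'
    have h := upd_S hS (hν.update x hv') x hv s s'
    rw [Function.update_idem, Function.update_self] at h
    rw [h]
    ring
  rw [← sq_eq_sq₀ (norm_nonneg _) (by positivity)]
  rw [EuclideanSpace.norm_sq_eq, Fintype.sum_prod_type]
  have h2 : ∀ s s', ‖(S.Sv (Function.update ν x v) - S.Sv (Function.update ν x v')) (s, s')‖ ^ 2 =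
      (2 * ‖v - v'‖) ^ 2 * (‖S.w (Function.update ν x v') x s‖ ^ 2 *
        ‖S.w (Function.update ν x v) x s'‖ ^ 2) := by
    intro s s'
    have e : (S.Sv (Function.update ν x v) - S.Sv (Function.update ν x v')) (s, s') =
      S.Sm (Function.update ν x v) s s' - S.Sm (Function.update ν x v') s s' := rfl
    rw [e, h1, norm_mul, norm_mul, norm_mul, norm_mul, Complex.norm_I]
    rw [show ‖(2 : ℂ)‖ = 2 by simp]
    ring
  simp_rw [h2]
  simp_rw [← Finset.mul_sum]
  rw [← Finset.sum_mul]
  rw [← norm_wv_sq, ← norm_wv_sq]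
  ring

end Sys

end Pool.Agent.Lib.MP_562b47_mp.Str
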