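import Pool.Agent.Lib.MP_562b47_mp.Str.Scal2
import Pool.Agent.Lib.MP_562b47_mp.Str.AvOp
import Pool.Agent.Lib.MP_562b47_mp.Str.Site
import Pool.Agent.Lib.MP_562b47_mp.Str.Cav

/-!
Module STR-Single (MP_562b47_mp, strips).  The first order influence of a core site.
`h V = T.Sv (dfm B c b V I)`, `x ∈ B`.

PROOF of `site_dfm`.  `site` for `ν = dfm B c b V I` and `dfm_update`: `σ`, `a` with
`T.G (dfm (update V x v)) x x = g v := (zeta c b v + σ)⁻¹`, `T.wv .. x = g v • a` for every `v`, and by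
`upd_S` (applied twice, or once with base point `update ν x (zeta v')`)
`Sm(v) s s' - Sm(v') s s' = 2i (ζ v - ζ v') w_s(v') w_{s'}(v) = 2i (ζ v - ζ v') g v g v' a_s a_{s'}
= -2i (g v - g v') a_s a_{s'}` (`g_sub`).  With `aa : EuclideanSpace ℂ (ι × ι)`, `aa (s,s') = a s * a s'`,
`‖aa‖ = ‖a‖²`.
`kap_eq`: `kap = ‖a‖² KI`, `KX = KI`.  `kap` and `KX` do not depend on `V x` (`update_idem`).
PROOF of `single_lower`.  `integral_update` in the coordinate `x`: for each `V`,
`v ↦ h (update V x v)` is `const - 2i g v • aa`, so by linearity of `av1`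
`DX x h (update V x v) = -2i (g v - av1 g v) • aa`, `∫_v ‖DX x h (update V x v)‖² =
4 ‖a‖⁴ ∫ ‖g - av1 g‖² ≥ 4 c2 t² (1+KX) KX² ‖a‖⁴ = 4 c2 t² (1 + KX) kap²` if `t (1+KX) ≤ c1`
(`var_lower`).  Integrate over `V`.
`KX_le`: `KI_le`.  `core_norm_G_le`: `int_core_norm_le`.
Measurability of `kap`, `KX` and boundedness: partial integrals of bounded measurable functions;
`‖wv ν x‖² ≤ ‖G_xx‖ ≤ 1 / y x` (`norm_wv_sq_le`, `norm_G_le`).
-/

open MeasureTheory Matrix Complex

namespace Pool.Agent.Lib.MP_562b47_mp.Str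

variable {X ι : Type*} [Fintype X] [DecidableEq X] [Fintype ι] [DecidableEq ι]

namespace Sys

/-- `∫ 1_core |G_xx|²` over the potential at `x` -/
noncomputable def KX (S : Sys X ι) (B : Set X) (c b q : ℝ) (x : X) (V : X → ℝ) : ℝ :=
  ∫ v, (core c q).indicator
    (fun v => ‖S.G (dfm B c b (Function.update V x v) I) x x‖ ^ 2) v ∂(unif c)

variable {T : Sys X ι} {B : Set X} {c b q : ℝ} {x : X} {m : ℕ}

theorem norm_G_bdd (hT : T.Good) {ν : X → ℂ} (hν : Adm ν) (x z : X) :
    ‖T.G ν x z‖ ^ 2 ≤ 1 / (T.y x * T.y z) := by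
  have h1 := row_G_le hT hν z
  have h2 := norm_G_le hT hν z
  have hx := hT.pos x
  have hz := hT.pos z
  have h3 : ((ν x).im + T.y x) * ‖T.G ν x z‖ ^ 2 ≤
      ∑ w, ((ν w).im + T.y w) * ‖T.G ν w z‖ ^ 2 :=
    Finset.single_le_sum (f := fun w => ((ν w).im + T.y w) * ‖T.G ν w z‖ ^ 2)
      (fun w _ => mul_nonneg (add_nonneg (hν w) (hT.pos w).le) (by positivity))
      (Finset.mem_univ x)
  have h4 : T.y x * ‖T.G ν x z‖ ^ 2 ≤ ((ν x).im + T.y x) * ‖T.G ν x z‖ ^ 2 :=
    mul_le_mul_of_nonneg_right (by linarith [hν x]) (by positivity)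
  have h5 : T.y z * ‖T.G ν z z‖ ≤ ((ν z).im + T.y z) * ‖T.G ν z z‖ :=
    mul_le_mul_of_nonneg_right (by linarith [hν z]) (norm_nonneg _)
  have h6 : T.y z * (T.y x * ‖T.G ν x z‖ ^ 2) ≤ T.y z * ‖T.G ν z z‖ :=
    mul_le_mul_of_nonneg_left (by linarith) hz.le
  rw [le_div_iff₀ (by positivity)]
  calc ‖T.G ν x z‖ ^ 2 * (T.y x * T.y z) = T.y z * (T.y x * ‖T.G ν x z‖ ^ 2) := by ring
    _ ≤ 1 := by linarith

theorem norm_wv_bdd (hT : T.Good) {ν : X → ℂ} (hν : Adm ν) (x : X) :
    ‖T.wv ν x‖ ^ 2 ≤ 1 / T.y x := by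
  have h1 := norm_wv_sq_le hT hν x
  have h2 := norm_G_le hT hν x
  have hx := hT.pos x
  have h5 : T.y x * ‖T.G ν x x‖ ≤ ((ν x).im + T.y x) * ‖T.G ν x x‖ :=
    mul_le_mul_of_nonneg_right (by linarith [hν x]) (norm_nonneg _)
  refine h1.trans ?_
  rw [le_div_iff₀ hx]
  linarith

theorem bmeas_G (hT : T.Good) (hb : 0 ≤ b) (x z : X) :
    BMeas fun V : X → ℝ => T.G (dfm B c b V I) x z := by
  have hI : 0 ≤ (I : ℂ).im := by simp
  refine BMeas.of_continuous (C := √(1 / (T.y x * T.y z)))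
    (continuous_G hT (ν := fun V : X → ℝ => dfm B c b V I) (fun w => continuous_dfm B c b I w)
      (fun V => adm_dfm B c hb V hI) x z) fun V => ?_
  exact Real.le_sqrt_of_sq_le (norm_G_bdd hT (adm_dfm B c hb V hI) x z)

theorem bmeas_wv (hT : T.Good) (hb : 0 ≤ b) (x : X) :
    BMeas fun V : X → ℝ => T.wv (dfm B c b V I) x := by
  have hI : 0 ≤ (I : ℂ).im := by simp
  refine BMeas.of_continuous (C := √(1 / T.y x))
    (continuous_wv hT (ν := fun V : X → ℝ => dfm B c b V I) (fun w => continuous_dfm B c b I w)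
      (fun V => adm_dfm B c hb V hI) x) fun V => ?_
  exact Real.le_sqrt_of_sq_le (norm_wv_bdd hT (adm_dfm B c hb V hI) x)

theorem site_dfm (hT : T.Good) (hc : 0 < c) (hb : 0 ≤ b) (hx : x ∈ B) (V : X → ℝ) :
    ∃ (σ : ℂ) (a : EuclideanSpace ℂ ι) (aa : EuclideanSpace ℂ (ι × ι)), 0 < σ.im ∧
      ‖aa‖ = ‖a‖ ^ 2 ∧
      (∀ v, T.G (dfm B c b (Function.update V x v) I) x x = (zeta c b v + σ)⁻¹) ∧
      (∀ v, T.wv (dfm B c b (Function.update V x v) I) x = (zeta c b v + σ)⁻¹ • a) ∧
      (∀ v v', T.Sv (dfm B c b (Function.update V x v) I)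
          - T.Sv (dfm B c b (Function.update V x v') I)
        = (-(2 * I) * ((zeta c b v + σ)⁻¹ - (zeta c b v' + σ)⁻¹)) • aa) := by
  have hI : 0 ≤ (I : ℂ).im := by simp
  have hν := adm_dfm B c hb V hI
  obtain ⟨σ, a, hσ, h⟩ := site hT hν x
  have hz : ∀ v, dfm B c b (Function.update V x v) I
      = Function.update (dfm B c b V I) x (zeta c b v) := fun v => dfm_update hx c b V v I
  refine ⟨σ, a, WithLp.toLp 2 (fun p : ι × ι => a p.1 * a p.2), hσ, ?_, ?_, ?_, ?_⟩
  · rw [← sq_eq_sq₀ (norm_nonneg _) (by positivity), EuclideanSpace.norm_sq_eq,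
      Fintype.sum_prod_type]
    have h1 : ∀ s s' : ι, ‖(WithLp.toLp 2 (fun p : ι × ι => a p.1 * a p.2) :
        EuclideanSpace ℂ (ι × ι)) (s, s')‖ ^ 2 = ‖a s‖ ^ 2 * ‖a s'‖ ^ 2 := by
      intro s s'
      show ‖a s * a s'‖ ^ 2 = _
      rw [norm_mul, mul_pow]
    simp_rw [h1, ← Finset.mul_sum]
    rw [← Finset.sum_mul, ← EuclideanSpace.norm_sq_eq]
    ring
  · intro v
    rw [hz]
    exact (h _ (zeta_im_nonneg hb v)).2.1
  · intro v
    rw [hz]
    exact (h _ (zeta_im_nonneg hb v)).2.2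
  · intro v v'
    rw [hz, hz]
    have hζ := zeta_im_nonneg (c := c) hb v
    have hζ' := zeta_im_nonneg (c := c) hb v'
    ext p
    have h1 := upd_S hT (hν.update x hζ') x hζ p.1 p.2
    rw [Function.update_idem, Function.update_self] at h1
    have h2 : T.w (Function.update (dfm B c b V I) x (zeta c b v')) x p.1
        = (zeta c b v' + σ)⁻¹ * a p.1 :=
      congrArg (fun e : EuclideanSpace ℂ ι => e p.1) (h _ hζ').2.2
    have h3 : T.w (Function.update (dfm B c b V I) x (zeta c b v)) x p.2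
        = (zeta c b v + σ)⁻¹ * a p.2 :=
      congrArg (fun e : EuclideanSpace ℂ ι => e p.2) (h _ hζ).2.2
    show T.Sm (Function.update (dfm B c b V I) x (zeta c b v)) p.1 p.2
      - T.Sm (Function.update (dfm B c b V I) x (zeta c b v')) p.1 p.2
      = (-(2 * I) * ((zeta c b v + σ)⁻¹ - (zeta c b v' + σ)⁻¹)) * (a p.1 * a p.2)
    rw [h1, h2, h3, g_sub hb hσ v v']
    ring

theorem kap_update (V : X → ℝ) (v : ℝ) :
    T.kap B c b q x (Function.update V x v) = T.kap B c b q x V := by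
  unfold kap
  simp_rw [Function.update_idem]

theorem KX_update (V : X → ℝ) (v : ℝ) :
    T.KX B c b q x (Function.update V x v) = T.KX B c b q x V := by
  unfold KX
  simp_rw [Function.update_idem]

theorem kap_nonneg (V : X → ℝ) : 0 ≤ T.kap B c b q x V := by
  unfold kap
  exact integral_nonneg fun v => Set.indicator_nonneg (fun _ _ => by positivity) v

theorem KX_nonneg (V : X → ℝ) : 0 ≤ T.KX B c b q x V := by
  unfold KX
  exact integral_nonneg fun v => Set.indicator_nonneg (fun _ _ => by positivity) v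

private theorem single_bm (hc : 0 < c) {f : (X → ℝ) → ℝ} (hf : BMeas f) (x : X) (q : ℝ) :
    BMeas fun V => ∫ v, (core c q).indicator (fun v => f (Function.update V x v)) v ∂(unif c) := by
  have := isProb_unif hc
  have h1 : BMeas fun p : (X → ℝ) × ℝ => f (Function.update p.1 x p.2) :=
    hf.comp (measurable_update2 x)
  have h2 := h1.indicator (s := Prod.snd ⁻¹' core c q) (measurable_snd (measurableSet_core c q))
  exact h2.integral (unif c)

theorem bmeas_kap (hT : T.Good) (hc : 0 < c) (hb : 0 ≤ b) : BMeas (T.kap B c b q x) :=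
  single_bm hc (bmeas_wv hT hb x).norm_sq x q

theorem bmeas_KX (hT : T.Good) (hc : 0 < c) (hb : 0 ≤ b) : BMeas (T.KX B c b q x) :=
  single_bm hc (bmeas_G hT hb x x).norm_sq x q

theorem KX_le (hT : T.Good) (hc : 0 < c) (hb : 0 < b) (hq : 0 < q) (hq1 : q ≤ 1 / 2) (hx : x ∈ B)
    (V : X → ℝ) : T.KX B c b q x V ≤ 2 / (c * (b * q)) := by
  obtain ⟨σ, a, aa, hσ, -, hG, -, -⟩ := site_dfm (T := T) (B := B) (c := c) hT hc hb.le hx V
  have h : T.KX B c b q x V = KI c b q σ := by
    unfold KX KI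
    simp_rw [hG]
  rw [h]
  exact KI_le hc hb hq hq1 hσ

end Sys

theorem core_norm_G_le {c : ℝ} (hc : 0 < c) : ∃ C : ℝ, 0 < C ∧
    ∀ (X ι : Type) [Fintype X] [DecidableEq X] [Fintype ι] [DecidableEq ι] (T : Sys X ι)
      (B : Set X) (b q : ℝ) (x : X) (V : X → ℝ), T.Good → 0 < b → b ≤ 1 → b ≤ c / 2 → 0 < q →
      q ≤ 1 / 2 → x ∈ B →
      ∫ v, (core c q).indicator
        (fun v => ‖T.G (dfm B c b (Function.update V x v) I) x x‖) v ∂(unif c)
        ≤ C * (1 + Real.log (1 / (b * q))) := by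
  obtain ⟨C, hC, h⟩ := int_core_norm_le hc
  refine ⟨C, hC, ?_⟩
  intro X ι _ _ _ _ T B b q x V hT hb hb1 hbc hq hq1 hx
  obtain ⟨σ, a, aa, hσ, -, hG, -, -⟩ := Sys.site_dfm (T := T) (B := B) (c := c) hT hc hb.le hx V
  simp_rw [hG]
  exact h b q σ hb hb1 hbc hq hq1 hσ

theorem single_lower {c : ℝ} (hc : 0 < c) : ∃ c1 c2 : ℝ, 0 < c1 ∧ 0 < c2 ∧
    ∀ (X ι : Type) [Fintype X] [DecidableEq X] [Fintype ι] [DecidableEq ι] (T : Sys X ι)
      (B : Set X) (b q : ℝ) (x : X) (m : ℕ), T.Good → 0 < b → b ≤ c / 2 → 0 < q →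
      q ≤ 1 / 2 → x ∈ B → 1 ≤ m →
      4 * c2 * tt c q m ^ 2 * ∫ V, (open Classical in
          if tt c q m * (1 + T.KX B c b q x V) ≤ c1 then
            (1 + T.KX B c b q x V) * T.kap B c b q x V ^ 2 else 0) ∂(PX X c)
        ≤ ∫ V, ‖DX c q m x (fun V => T.Sv (dfm B c b V I)) V‖ ^ 2 ∂(PX X c) := by
  obtain ⟨c1, c2, h1, h2, hvar⟩ := var_lower hc
  refine ⟨c1, c2, h1, h2, ?_⟩
  intro X ι _ _ _ _ T B b q x m hT hb hbc hq hq1 hx hm
  have hI : 0 ≤ (I : ℂ).im := by simp
  have hF : BMeas fun V : X → ℝ => T.Sv (dfm B c b V I) := Sys.bmeas_Sv_dfm hT hb.le c B hI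
  have hD := hF.DX (c := c) (q := q) (m := m) hc x
  have hprob := isProb_unif hc
  have hprobX := isProb_PX (X := X) hc
  rw [integral_update hc x hD.norm_sq, ← integral_const_mul]
  refine integral_mono_of_nonneg (Filter.Eventually.of_forall fun V => ?_) ?_
    (Filter.Eventually.of_forall fun V => ?_)
  · show (0 : ℝ) ≤ 4 * c2 * tt c q m ^ 2 * _
    refine mul_nonneg (by positivity) ?_
    have hK0 := Sys.KX_nonneg (T := T) (B := B) (c := c) (b := b) (q := q) (x := x) V
    split_ifs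
    · exact mul_nonneg (by linarith) (by positivity)
    · exact le_rfl
  · have h3 : BMeas fun p : (X → ℝ) × ℝ =>
        ‖DX c q m x (fun V => T.Sv (dfm B c b V I)) (Function.update p.1 x p.2)‖ ^ 2 :=
      hD.norm_sq.comp (measurable_update2 x)
    exact (h3.integral (unif c)).integrable _
  · show 4 * c2 * tt c q m ^ 2 * _ ≤
      ∫ v, ‖DX c q m x (fun V => T.Sv (dfm B c b V I)) (Function.update V x v)‖ ^ 2 ∂(unif c)
    split_ifs with hcond
    · obtain ⟨σ, a, aa, hσ, haa, hG, hw, hS⟩ :=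
        Sys.site_dfm (T := T) (B := B) (c := c) hT hc hb.le hx V
      have hKX : T.KX B c b q x V = KI c b q σ := by
        unfold Sys.KX KI
        simp_rw [hG]
      have hkap : T.kap B c b q x V = KI c b q σ * ‖a‖ ^ 2 := by
        unfold Sys.kap KI
        rw [← integral_mul_const]
        congr 1
        funext v
        simp only [Set.indicator]
        split_ifs
        · rw [hw, norm_smul, mul_pow]
        · rw [zero_mul]
      rw [hKX] at hcond
      have hv := hvar b q σ m hb hbc hq hq1 hσ hm hcond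
      have hg : BMeas fun v : ℝ => (zeta c b v + σ)⁻¹ :=
        BMeas.of_continuous (continuous_g hb.le hσ) (norm_g_le_im hb.le hσ)
      let A : ℂ →L[ℝ] EuclideanSpace ℂ (ι × ι) :=
        LinearMap.toContinuousLinearMap
          { toFun := fun w => (2 * I * w) • aa
            map_add' := fun w w' => by rw [mul_add, add_smul]
            map_smul' := fun r w => by
              rw [RingHom.id_apply, mul_smul_comm, smul_assoc] }
      have hA : ∀ w, A w = (2 * I * w) • aa := fun w => rfl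
      have hSu : ∀ u, T.Sv (dfm B c b (Function.update V x u) I) =
          (T.Sv (dfm B c b (Function.update V x 0) I) + A (zeta c b 0 + σ)⁻¹)
            - A (zeta c b u + σ)⁻¹ := by
        intro u
        have e := hS u 0
        rw [sub_eq_iff_eq_add] at e
        rw [e, hA, hA, mul_sub, sub_smul]
        rw [neg_mul, neg_smul, neg_mul, neg_smul]
        abel
      have hDX : ∀ v, ‖DX c q m x (fun V => T.Sv (dfm B c b V I)) (Function.update V x v)‖ ^ 2
          = ‖(zeta c b v + σ)⁻¹ - av1 c q m (fun u => (zeta c b u + σ)⁻¹) v‖ ^ 2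
            * (4 * (‖a‖ ^ 2) ^ 2) := by
        intro v
        have hq1' : q < 1 := by linarith
        have hA' : BMeas fun u : ℝ => A (zeta c b u + σ)⁻¹ := by
          refine BMeas.of_continuous (A.continuous.comp (continuous_g hb.le hσ))
            (C := ‖A‖ * (1 / σ.im)) fun u => ?_
          exact (A.le_opNorm _).trans
            (mul_le_mul_of_nonneg_left (norm_g_le_im hb.le hσ u) (norm_nonneg _))
        have e1 : DX c q m x (fun V => T.Sv (dfm B c b V I)) (Function.update V x v)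
            = -A ((zeta c b v + σ)⁻¹ - av1 c q m (fun u => (zeta c b u + σ)⁻¹) v) := by
          unfold DX
          rw [AX_update]
          show T.Sv (dfm B c b (Function.update V x v) I)
            - av1 c q m (fun u => T.Sv (dfm B c b (Function.update V x u) I)) v = _
          have e2 : (fun u => T.Sv (dfm B c b (Function.update V x u) I)) = fun u =>
            (T.Sv (dfm B c b (Function.update V x 0) I) + A (zeta c b 0 + σ)⁻¹)
              - A (zeta c b u + σ)⁻¹ := funext hSu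
          rw [e2, av1_sub hc (BMeas.const _) hA', av1_const hc hq.le hq1' hm,
            av1_clm hc A hg, map_sub, hSu v]
          abel
        rw [e1, norm_neg, hA, norm_smul, norm_mul, norm_mul, haa, Complex.norm_I]
        rw [show ‖(2 : ℂ)‖ = 2 by simp]
        ring
      simp_rw [hDX]
      rw [integral_mul_const, hKX, hkap]
      calc 4 * c2 * tt c q m ^ 2 * ((1 + KI c b q σ) * (KI c b q σ * ‖a‖ ^ 2) ^ 2)
          = (c2 * tt c q m ^ 2 * ((1 + KI c b q σ) * KI c b q σ ^ 2)) * (4 * (‖a‖ ^ 2) ^ 2) := by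
            ring
        _ ≤ _ := mul_le_mul_of_nonneg_right hv (by positivity)
    · rw [mul_zero]
      exact integral_nonneg fun v => by positivity

end Pool.Agent.Lib.MP_562b47_mp.Str
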