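import Pool.Agent.Lib.MP_562b47_mp.Str.Seg
import Pool.Agent.Lib.MP_562b47_mp.Str.Apri
import Pool.Agent.Lib.MP_562b47_mp.Str.Single

/-!
Module STR-Frac (MP_562b47_mp, strips).  Fractional moments of the off-diagonal blocks of Green
functions of intervals of the tube: a priori bound and submultiplicativity.

`W = card Q`, `hsn A = √(∑ ‖A q q'‖²)`, `am s .. i j = ∫ hsn (blk G_{[i,j]} i j)^s`, absorption `η > 0`
everywhere (no leads), `0 < s < 1`, `C = C(c, s) ≥ 1` from `apri`.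

PROOFS.
* `hsn_mul`: Cauchy–Schwarz.  `hsn_rpow_le`: `(∑ a²)^(s/2) ≤ ∑ a^s` for `0 < s ≤ 2` (subadditivity of
  `x ↦ x^(s/2)`).
* `apri_block`: for all `V` and layers `k, l`: resampling the layers `k` and `l` (all the sites of them:
  `mixL k l V V'` takes `V'` on the layers `k, l` and `V` elsewhere):
  `∫_{V'} hsn (blk G k l)^s ≤ ∑_{q,q'} ∫_{V'} ‖G ((k,q),(l,q'))‖^s ≤ C W²`; each term by `apri`: resample
  further the two sites `(k,q)`, `(l,q')` (`integral_update` twice) and integrate them first.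
  (The integrals are over bounded continuous functions: `Good`, `norm_G_bdd`-type bound
  `‖G x z‖² ≤ 1/(y x y z)`; proved in `Single.lean`, or directly from `row_G_le`, `norm_G_le`.)
* `am_le`: `mp` of `mixL` and `apri_block`.
* `am_submul` (`i ≤ k`, `k + 2 ≤ j`): by `chainL` at `k` and `chainR` at `k + 1`
  `blk G_{[i,j]} i j = blk G_{[i,k]} i k * blk G_{[i,j]} (k+1) (k+1) * blk G_{[k+2,j]} (k+2) j`.
  The first factor depends only on the potential in the layers `[i,k]`, the third only on the layers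
  `[k+2,j]` (`G_agree`).  So `am ≤ ∫ a^s d^s b^s`; resample the layer `k+1` only:
  `∫_{V'} d^s ≤ C W²` (`apri_block`), and `a, b` do not change: `≤ C W² ∫ a^s b^s = C W² ∫ a^s ∫ b^s`
  (independence: `mp_mix` with `ℓ x = 0` on the layers `≤ k` and `1` on the others, `n = 0`, and
  Fubini).
* `am_endL` (`i < j`): `blk G_{[i,j]} i j = blk G_{[i,j]} i i * blk G_{[i+1,j]} (i+1) j` (`chainR`, `k = i`);
  the second factor does not depend on the layer `i`; resample the layer `i`.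
* `am_endR`: `blk G_{[i,j+1]} i (j+1) = blk G_{[i,j]} i j * blk G_{[i,j+1]} (j+1) (j+1)` (`chainL`, `k = j`).
-/

open MeasureTheory Matrix Complex

namespace Pool.Agent.Lib.MP_562b47_mp.Str

variable {Q : Type} [Fintype Q] [DecidableEq Q]

/-- the Hilbert-Schmidt norm -/
noncomputable def hsn (A : Matrix Q Q ℂ) : ℝ := √(∑ q, ∑ q', ‖A q q'‖ ^ 2)

theorem hsn_nonneg (A : Matrix Q Q ℂ) : 0 ≤ hsn A := Real.sqrt_nonneg _

private theorem frac_sum_nonneg (A : Matrix Q Q ℂ) : 0 ≤ ∑ q, ∑ q', ‖A q q'‖ ^ 2 :=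
  Finset.sum_nonneg fun _ _ => Finset.sum_nonneg fun _ _ => by positivity

section frob

open scoped Matrix.Norms.Frobenius

private theorem hsn_eq_norm (A : Matrix Q Q ℂ) : hsn A = ‖A‖ := by
  rw [Matrix.frobenius_norm_def, hsn, Real.sqrt_eq_rpow]
  norm_num

private theorem hsn_mul' (A B : Matrix Q Q ℂ) : hsn (A * B) ≤ hsn A * hsn B := by
  rw [hsn_eq_norm, hsn_eq_norm, hsn_eq_norm]
  exact Matrix.frobenius_norm_mul A B

private theorem hsn_add' (A B : Matrix Q Q ℂ) : hsn (A + B) ≤ hsn A + hsn B := by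
  rw [hsn_eq_norm, hsn_eq_norm, hsn_eq_norm]
  exact norm_add_le A B

private theorem hsn_sub' (A B : Matrix Q Q ℂ) : hsn (A - B) ≤ hsn A + hsn B := by
  rw [hsn_eq_norm, hsn_eq_norm, hsn_eq_norm]
  exact norm_sub_le A B

end frob

theorem hsn_mul (A B : Matrix Q Q ℂ) : hsn (A * B) ≤ hsn A * hsn B := hsn_mul' A B

theorem hsn_add (A B : Matrix Q Q ℂ) : hsn (A + B) ≤ hsn A + hsn B := hsn_add' A B

theorem hsn_sub (A B : Matrix Q Q ℂ) : hsn (A - B) ≤ hsn A + hsn B := hsn_sub' A B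

private theorem frac_rpow_sum {α : Type*} (t : Finset α) (f : α → ℝ) (hf : ∀ a, 0 ≤ f a) {p : ℝ}
    (hp : 0 < p) (hp1 : p ≤ 1) : (∑ a ∈ t, f a) ^ p ≤ ∑ a ∈ t, f a ^ p := by
  classical
  induction t using Finset.induction_on with
  | empty => simp [Real.zero_rpow hp.ne']
  | insert a t ha ih =>
    rw [Finset.sum_insert ha, Finset.sum_insert ha]
    refine (Real.rpow_add_le_add_rpow (hf a) (Finset.sum_nonneg fun b _ => hf b) hp.le
      hp1).trans ?_
    linarith

theorem hsn_rpow_le {s : ℝ} (hs : 0 < s) (hs1 : s ≤ 2) (A : Matrix Q Q ℂ) :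
    hsn A ^ s ≤ ∑ q, ∑ q', ‖A q q'‖ ^ s := by
  have h1 : hsn A ^ s = (∑ q, ∑ q', ‖A q q'‖ ^ 2) ^ (s / 2) := by
    rw [hsn, Real.sqrt_eq_rpow, ← Real.rpow_mul (frac_sum_nonneg A)]
    congr 1
    ring
  have h2 : ∀ q q', (‖A q q'‖ ^ 2) ^ (s / 2) = ‖A q q'‖ ^ s := by
    intro q q'
    rw [← Real.rpow_natCast, ← Real.rpow_mul (norm_nonneg _)]
    congr 1
    push_cast
    ring
  rw [h1]
  refine (frac_rpow_sum Finset.univ (fun q => ∑ q', ‖A q q'‖ ^ 2)
    (fun q => Finset.sum_nonneg fun _ _ => by positivity) (by linarith) (by linarith)).trans ?_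
  refine Finset.sum_le_sum fun q _ => ?_
  refine (frac_rpow_sum Finset.univ (fun q' => ‖A q q'‖ ^ 2)
    (fun q' => by positivity) (by linarith) (by linarith)).trans ?_
  exact Finset.sum_le_sum fun q' _ => (h2 q q').le

/-- the Green function of the interval `[i, j]` at the real potential `V`, absorption `y` -/
noncomputable def Gs (L : ℕ) (h : Fin L → Matrix Q Q ℝ) (i j : ℕ) (y : Fin L × Q → ℝ)
    (V : Fin L × Q → ℝ) : Matrix (Fin L × Q) (Fin L × Q) ℂ :=
  (segD L h i j y).G fun x => (V x : ℂ)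

/-- the fractional moment -/
noncomputable def am (c s : ℝ) (L : ℕ) (h : Fin L → Matrix Q Q ℝ) (η : ℝ) (i j : ℕ) (hi : i < L)
    (hj : j < L) : ℝ :=
  ∫ V, hsn (blk (Gs L h i j (fun _ => η) V) ⟨i, hi⟩ ⟨j, hj⟩) ^ s ∂(PX (Fin L × Q) c)

theorem norm_Gs_bdd {L : ℕ} {h : Fin L → Matrix Q Q ℝ} (hs : ∀ k, (h k).IsSymm) (i j : ℕ)
    {y : Fin L × Q → ℝ} (hy : ∀ x, 0 < y x) (V : Fin L × Q → ℝ) (x z : Fin L × Q) :
    ‖Gs L h i j y V x z‖ ^ 2 ≤ 1 / (y x * y z) :=
  Sys.norm_G_bdd (segD_good hs hy i j) (adm_real V) x z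

theorem cont_Gs {L : ℕ} {h : Fin L → Matrix Q Q ℝ} (hs : ∀ k, (h k).IsSymm) (i j : ℕ)
    {y : Fin L × Q → ℝ} (hy : ∀ x, 0 < y x) (x z : Fin L × Q) :
    Continuous fun V : Fin L × Q → ℝ => Gs L h i j y V x z :=
  Sys.continuous_G (segD_good hs hy i j)
    (ν := fun (V : Fin L × Q → ℝ) x => (V x : ℂ))
    (fun x => Complex.continuous_ofReal.comp (continuous_apply x)) (fun V => adm_real V) x z

theorem bmeas_hsn {L : ℕ} {h : Fin L → Matrix Q Q ℝ} (hs : ∀ k, (h k).IsSymm) (i j : ℕ)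
    {y : Fin L × Q → ℝ} (hy : ∀ x, 0 < y x) (k l : Fin L) {r : ℝ} (hr : 0 ≤ r) :
    BMeas fun V : Fin L × Q → ℝ => hsn (blk (Gs L h i j y V) k l) ^ r := by
  refine BMeas.of_continuous
    (C := √(∑ q, ∑ q', 1 / (y (k, q) * y (l, q'))) ^ r) ?_ fun V => ?_
  · refine Continuous.rpow_const ?_ fun V => Or.inr hr
    unfold hsn
    refine Real.continuous_sqrt.comp ?_
    refine continuous_finsetSum _ fun q _ => continuous_finsetSum _ fun q' _ => ?_
    exact ((cont_Gs hs i j hy (k, q) (l, q')).norm).pow 2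
  · have h0 := hsn_nonneg (blk (Gs L h i j y V) k l)
    rw [Real.norm_of_nonneg (Real.rpow_nonneg h0 r)]
    refine Real.rpow_le_rpow h0 (Real.sqrt_le_sqrt ?_) hr
    refine Finset.sum_le_sum fun q _ => Finset.sum_le_sum fun q' _ => ?_
    exact norm_Gs_bdd hs i j hy V (k, q) (l, q')

theorem bmeas_entry {L : ℕ} {h : Fin L → Matrix Q Q ℝ} (hs : ∀ k, (h k).IsSymm)
    (i j : ℕ) {y : Fin L × Q → ℝ} (hy : ∀ x, 0 < y x) (x z : Fin L × Q) {r : ℝ} (hr : 0 ≤ r) :
    BMeas fun V : Fin L × Q → ℝ => ‖Gs L h i j y V x z‖ ^ r := by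
  refine BMeas.of_continuous (C := √(1 / (y x * y z)) ^ r) ?_ fun V => ?_
  · exact Continuous.rpow_const (cont_Gs hs i j hy x z).norm fun V => Or.inr hr
  · rw [Real.norm_of_nonneg (Real.rpow_nonneg (norm_nonneg _) r)]
    exact Real.rpow_le_rpow (norm_nonneg _)
      (Real.le_sqrt_of_sq_le (norm_Gs_bdd hs i j hy V x z)) hr

theorem int_le {Ω : Type*} [MeasurableSpace Ω] {μ : Measure Ω} [IsProbabilityMeasure μ]
    {f : Ω → ℝ} (hf : BMeas f) {C : ℝ} (h : ∀ w, f w ≤ C) : ∫ w, f w ∂μ ≤ C := by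
  calc ∫ w, f w ∂μ ≤ ∫ _, C ∂μ := integral_mono (hf.integrable μ) (integrable_const C) h
    _ = C := by simp

/-- resampling the layers `k` and `l` -/
def mxL {L : ℕ} (k l : Fin L) (V V' : Fin L × Q → ℝ) : Fin L × Q → ℝ :=
  fun x => if x.1 = k ∨ x.1 = l then V' x else V x

theorem mxL_eq {L : ℕ} (k l : Fin L) (V V' : Fin L × Q → ℝ) :
    mxL k l V V' = mix (fun x : Fin L × Q => if x.1 = k ∨ x.1 = l then 1 else 0) 0 V V' := by
  funext x
  unfold mxL mix
  by_cases hx : x.1 = k ∨ x.1 = l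
  · simp [hx]
  · simp [hx]

theorem meas_mxL {L : ℕ} (k l : Fin L) :
    Measurable fun p : (Fin L × Q → ℝ) × (Fin L × Q → ℝ) => mxL k l p.1 p.2 := by
  simp only [mxL_eq]
  exact measurable_mix _ 0

theorem meas_mxL' {L : ℕ} (k l : Fin L) (V : Fin L × Q → ℝ) :
    Measurable fun V' : Fin L × Q → ℝ => mxL k l V V' :=
  (meas_mxL k l).comp (measurable_const.prodMk measurable_id)

theorem mxL_update {L : ℕ} (k l : Fin L) (V V' : Fin L × Q → ℝ) {x : Fin L × Q}
    (hx : x.1 = k ∨ x.1 = l) (v : ℝ) :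
    mxL k l V (Function.update V' x v) = Function.update (mxL k l V V') x v := by
  funext w
  unfold mxL
  by_cases hw : w = x
  · subst hw
    rw [if_pos hx, Function.update_self, Function.update_self]
  · rw [Function.update_of_ne hw, Function.update_of_ne hw]

/-- the a priori bound for an entry -/
private theorem apri_entry {c s C : ℝ} (hc : 0 < c) (hs : 0 < s)
    (hC : ∀ (X ι : Type) [Fintype X] [DecidableEq X] [Fintype ι] [DecidableEq ι] (S : Sys X ι),
      S.Good → ∀ (x z : X) (V : X → ℝ),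
      ∫ v, ∫ u, ‖S.G (fun w => ((Function.update (Function.update V x v) z u w : ℝ) : ℂ)) x z‖ ^ s
        ∂(unif c) ∂(unif c) ≤ C)
    {L : ℕ} {h : Fin L → Matrix Q Q ℝ} (hsy : ∀ k, (h k).IsSymm) (i j : ℕ)
    {y : Fin L × Q → ℝ} (hy : ∀ x, 0 < y x) (k l : Fin L) (V : Fin L × Q → ℝ) (q q' : Q) :
    ∫ V', ‖Gs L h i j y (mxL k l V V') (k, q) (l, q')‖ ^ s ∂(PX (Fin L × Q) c) ≤ C := by
  have := isProb_unif hc
  have : IsProbabilityMeasure (PX (Fin L × Q) c) := isProb_PX hc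
  have hF : BMeas fun V' : Fin L × Q → ℝ => ‖Gs L h i j y (mxL k l V V') (k, q) (l, q')‖ ^ s :=
    (bmeas_entry hsy i j hy (k, q) (l, q') hs.le).comp (meas_mxL' k l V)
  have hF1 : BMeas fun V' : Fin L × Q → ℝ => ∫ u, ‖Gs L h i j y
      (mxL k l V (Function.update V' (l, q') u)) (k, q) (l, q')‖ ^ s ∂(unif c) :=
    (hF.comp (measurable_update2 (l, q'))).integral (unif c)
  have hF2 : BMeas fun V' : Fin L × Q → ℝ => ∫ v, ∫ u, ‖Gs L h i j y
      (mxL k l V (Function.update (Function.update V' (k, q) v) (l, q') u)) (k, q) (l, q')‖ ^ s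
      ∂(unif c) ∂(unif c) :=
    (hF1.comp (measurable_update2 (k, q))).integral (unif c)
  rw [integral_update hc (l, q') hF, integral_update hc (k, q) hF1]
  refine int_le hF2 fun V' => ?_
  have h1 := hC (Fin L × Q) (Fin 0) (segD L h i j y) (segD_good hsy hy i j) (k, q) (l, q')
    (mxL k l V V')
  simp only [mxL_update k l V _ (x := (k, q)) (Or.inl rfl),
    mxL_update k l V _ (x := (l, q')) (Or.inr rfl)]
  exact h1

private theorem apri_cond {c s C : ℝ} (hc : 0 < c) (hs : 0 < s) (hs1 : s < 1)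
    (hC : ∀ (X ι : Type) [Fintype X] [DecidableEq X] [Fintype ι] [DecidableEq ι] (S : Sys X ι),
      S.Good → ∀ (x z : X) (V : X → ℝ),
      ∫ v, ∫ u, ‖S.G (fun w => ((Function.update (Function.update V x v) z u w : ℝ) : ℂ)) x z‖ ^ s
        ∂(unif c) ∂(unif c) ≤ C)
    {L : ℕ} {h : Fin L → Matrix Q Q ℝ} (hsy : ∀ k, (h k).IsSymm) (i j : ℕ)
    {y : Fin L × Q → ℝ} (hy : ∀ x, 0 < y x) (k l : Fin L) (V : Fin L × Q → ℝ) :
    ∫ V', hsn (blk (Gs L h i j y (mxL k l V V')) k l) ^ s ∂(PX (Fin L × Q) c)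
      ≤ C * (Fintype.card Q : ℝ) ^ 2 := by
  have := isProb_unif hc
  have : IsProbabilityMeasure (PX (Fin L × Q) c) := isProb_PX hc
  have hE : ∀ q q', BMeas fun V' : Fin L × Q → ℝ =>
      ‖Gs L h i j y (mxL k l V V') (k, q) (l, q')‖ ^ s := fun q q' =>
    (bmeas_entry hsy i j hy (k, q) (l, q') hs.le).comp (meas_mxL' k l V)
  have hI : ∀ q q', Integrable (fun V' : Fin L × Q → ℝ =>
      ‖Gs L h i j y (mxL k l V V') (k, q) (l, q')‖ ^ s) (PX (Fin L × Q) c) := fun q q' =>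
    (hE q q').integrable _
  calc ∫ V', hsn (blk (Gs L h i j y (mxL k l V V')) k l) ^ s ∂(PX (Fin L × Q) c)
      ≤ ∫ V', ∑ q, ∑ q', ‖Gs L h i j y (mxL k l V V') (k, q) (l, q')‖ ^ s
          ∂(PX (Fin L × Q) c) := by
        refine integral_mono (((bmeas_hsn hsy i j hy k l hs.le).comp
          (meas_mxL' k l V)).integrable _) ?_ fun V' => ?_
        · exact integrable_finsetSum _ fun q _ => integrable_finsetSum _ fun q' _ => hI q q'
        · exact hsn_rpow_le hs (by linarith) _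
    _ = ∑ q, ∑ q', ∫ V', ‖Gs L h i j y (mxL k l V V') (k, q) (l, q')‖ ^ s
          ∂(PX (Fin L × Q) c) := by
        rw [integral_finsetSum _ fun q _ => integrable_finsetSum _ fun q' _ => hI q q']
        refine Finset.sum_congr rfl fun q _ => ?_
        rw [integral_finsetSum _ fun q' _ => hI q q']
    _ ≤ ∑ _q : Q, ∑ _q' : Q, C := Finset.sum_le_sum fun q _ => Finset.sum_le_sum fun q' _ =>
        apri_entry hc hs hC hsy i j hy k l V q q'
    _ = C * (Fintype.card Q : ℝ) ^ 2 := by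
        simp only [Finset.sum_const, Finset.card_univ, nsmul_eq_mul]
        ring

theorem int_mxL {c : ℝ} (hc : 0 < c) {L : ℕ} (k l : Fin L) {F : (Fin L × Q → ℝ) → ℝ}
    (hF : BMeas F) : ∫ V, F V ∂(PX (Fin L × Q) c) =
      ∫ V, ∫ V', F (mxL k l V V') ∂(PX (Fin L × Q) c) ∂(PX (Fin L × Q) c) := by
  simp only [mxL_eq]
  exact integral_mix hc _ 0 hF

/-- the a priori bound for diagonal and off-diagonal blocks, general absorption -/
theorem apri_hsn {c s : ℝ} (hc : 0 < c) (hs : 0 < s) (hs1 : s < 1) : ∃ C : ℝ, 1 ≤ C ∧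
    ∀ (Q : Type) [Fintype Q] [DecidableEq Q] (L : ℕ) (h : Fin L → Matrix Q Q ℝ) (i j : ℕ)
      (y : Fin L × Q → ℝ) (k l : Fin L), (∀ k, (h k).IsSymm) → (∀ x, 0 < y x) →
      (∫ V, hsn (blk (Gs L h i j y V) k l) ^ s ∂(PX (Fin L × Q) c)
        ≤ C * (Fintype.card Q : ℝ) ^ 2) ∧
      -- conditionally on all the layers but `k` and `l`
      (∀ V : Fin L × Q → ℝ, ∫ V', hsn (blk (Gs L h i j y
          (fun x => if x.1 = k ∨ x.1 = l then V' x else V x)) k l) ^ s ∂(PX (Fin L × Q) c)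
        ≤ C * (Fintype.card Q : ℝ) ^ 2) := by
  obtain ⟨C, hC1, hC⟩ := apri hc hs hs1
  refine ⟨C, hC1, ?_⟩
  intro Q _ _ L h i j y k l hsy hy
  have := isProb_unif hc
  have : IsProbabilityMeasure (PX (Fin L × Q) c) := isProb_PX hc
  have h2 : ∀ V : Fin L × Q → ℝ, ∫ V', hsn (blk (Gs L h i j y (mxL k l V V')) k l) ^ s
      ∂(PX (Fin L × Q) c) ≤ C * (Fintype.card Q : ℝ) ^ 2 := fun V =>
    apri_cond hc hs hs1 hC hsy i j hy k l V
  refine ⟨?_, h2⟩
  rw [int_mxL hc k l (bmeas_hsn hsy i j hy k l hs.le)]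
  exact int_le (((bmeas_hsn hsy i j hy k l hs.le).comp (meas_mxL k l)).integral _) h2

/-- the block depends on the potential inside only -/
theorem blk_agree {L : ℕ} {h : Fin L → Matrix Q Q ℝ} (hsy : ∀ k, (h k).IsSymm) {i j : ℕ}
    {y : Fin L × Q → ℝ} (hy : ∀ x, 0 < y x) {V V' : Fin L × Q → ℝ}
    (hV : ∀ x : Fin L × Q, i ≤ x.1 → (x.1 : ℕ) ≤ j → V' x = V x) {k l : Fin L}
    (hk : i ≤ k ∧ (k : ℕ) ≤ j) (hl : i ≤ l ∧ (l : ℕ) ≤ j) :
    blk (Gs L h i j y V') k l = blk (Gs L h i j y V) k l := by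
  ext q q'
  exact G_agree hsy hy hy (adm_real V) (adm_real V') (fun _ _ _ => rfl)
    (fun x h1 h2 => by rw [hV x h1 h2]) hk hl

theorem blk_chainL {L : ℕ} {h : Fin L → Matrix Q Q ℝ} (hsy : ∀ k, (h k).IsSymm)
    {i j : ℕ} {y : Fin L × Q → ℝ} (hy : ∀ x, 0 < y x) (V : Fin L × Q → ℝ) {k : ℕ} (hk : i ≤ k)
    (hk1 : k + 1 < L) (hkj : k < j) {a b : Fin L} (ha : i ≤ a ∧ (a : ℕ) ≤ k)
    (hb : k < (b : ℕ) ∧ (b : ℕ) ≤ j) :
    blk (Gs L h i j y V) a b
      = blk (Gs L h i k y V) a ⟨k, by omega⟩ * blk (Gs L h i j y V) ⟨k + 1, hk1⟩ b := by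
  ext q q'
  rw [Matrix.mul_apply]
  exact chainL hsy hy (adm_real V) hk hk1 hkj (x := (a, q)) (z := (b, q')) ha hb

theorem blk_chainR {L : ℕ} {h : Fin L → Matrix Q Q ℝ} (hsy : ∀ k, (h k).IsSymm)
    {i j : ℕ} {y : Fin L × Q → ℝ} (hy : ∀ x, 0 < y x) (V : Fin L × Q → ℝ) {k : ℕ} (hk : i ≤ k)
    (hk1 : k + 1 < L) (hkj : k < j) {a b : Fin L} (ha : i ≤ a ∧ (a : ℕ) ≤ k)
    (hb : k < (b : ℕ) ∧ (b : ℕ) ≤ j) :
    blk (Gs L h i j y V) a b
      = blk (Gs L h i j y V) a ⟨k, by omega⟩ * blk (Gs L h (k + 1) j y V) ⟨k + 1, hk1⟩ b := by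
  ext q q'
  rw [Matrix.mul_apply]
  exact chainR hsy hy (adm_real V) hk hk1 hkj (x := (a, q)) (z := (b, q')) ha hb

theorem hsn_mul_rpow {s : ℝ} (hs : 0 < s) (A B : Matrix Q Q ℂ) :
    hsn (A * B) ^ s ≤ hsn A ^ s * hsn B ^ s := by
  rw [← Real.mul_rpow (hsn_nonneg A) (hsn_nonneg B)]
  exact Real.rpow_le_rpow (hsn_nonneg _) (hsn_mul A B) hs.le

/-- resampling two layers -/
theorem resamp2 {c : ℝ} (hc : 0 < c) {L : ℕ} (m m' : Fin L)
    {K : ℝ} {f d : (Fin L × Q → ℝ) → ℝ} (hf : BMeas f)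
    (hd : BMeas d) (hf0 : ∀ V, 0 ≤ f V) (hfm : ∀ V V', f (mxL m m' V V') = f V)
    (hdm : ∀ V, ∫ V', d (mxL m m' V V') ∂(PX (Fin L × Q) c) ≤ K) :
    ∫ V, f V * d V ∂(PX (Fin L × Q) c) ≤ K * ∫ V, f V ∂(PX (Fin L × Q) c) := by
  have := isProb_unif hc
  have : IsProbabilityMeasure (PX (Fin L × Q) c) := isProb_PX hc
  have h1 : BMeas fun V => ∫ V', d (mxL m m' V V') ∂(PX (Fin L × Q) c) :=
    (hd.comp (meas_mxL m m')).integral _
  calc ∫ V, f V * d V ∂(PX (Fin L × Q) c)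
      = ∫ V, ∫ V', f (mxL m m' V V') * d (mxL m m' V V') ∂(PX (Fin L × Q) c)
          ∂(PX (Fin L × Q) c) := int_mxL hc m m' (hf.mul hd)
    _ = ∫ V, f V * ∫ V', d (mxL m m' V V') ∂(PX (Fin L × Q) c) ∂(PX (Fin L × Q) c) := by
        refine integral_congr_ae (Filter.Eventually.of_forall fun V => ?_)
        simp only [hfm]
        exact integral_const_mul _ _
    _ ≤ ∫ V, K * f V ∂(PX (Fin L × Q) c) := by
        refine integral_mono ((hf.mul h1).integrable _) ((hf.integrable _).const_mul K)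
          fun V => ?_
        simp only
        rw [mul_comm K]
        exact mul_le_mul_of_nonneg_left (hdm V) (hf0 V)
    _ = K * ∫ V, f V ∂(PX (Fin L × Q) c) := integral_const_mul _ _

/-- resampling a layer -/
private theorem resamp {c : ℝ} (hc : 0 < c) {L : ℕ} (m : Fin L)
    {K : ℝ} {f d : (Fin L × Q → ℝ) → ℝ} (hf : BMeas f)
    (hd : BMeas d) (hf0 : ∀ V, 0 ≤ f V) (hfm : ∀ V V', f (mxL m m V V') = f V)
    (hdm : ∀ V, ∫ V', d (mxL m m V V') ∂(PX (Fin L × Q) c) ≤ K) :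
    ∫ V, f V * d V ∂(PX (Fin L × Q) c) ≤ K * ∫ V, f V ∂(PX (Fin L × Q) c) :=
  resamp2 hc m m hf hd hf0 hfm hdm

/-- independence of the layers `≤ k` and `> k` -/
theorem indep {c : ℝ} (hc : 0 < c) {L : ℕ} (k : ℕ)
    {f g : (Fin L × Q → ℝ) → ℝ} (hf : BMeas f) (hg : BMeas g)
    (hfm : ∀ V V', f (mix (fun x : Fin L × Q => (x.1 : ℕ)) k V V') = f V)
    (hgm : ∀ V V', g (mix (fun x : Fin L × Q => (x.1 : ℕ)) k V V') = g V') :
    ∫ V, f V * g V ∂(PX (Fin L × Q) c)
      = (∫ V, f V ∂(PX (Fin L × Q) c)) * ∫ V, g V ∂(PX (Fin L × Q) c) := by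
  rw [integral_mix hc (fun x : Fin L × Q => (x.1 : ℕ)) k (hf.mul hg)]
  simp only [hfm, hgm]
  simp only [integral_const_mul, integral_mul_const]

/-- the a priori bound and the recursive inequalities, with one constant -/
theorem am_rec {c s : ℝ} (hc : 0 < c) (hs : 0 < s) (hs1 : s < 1) : ∃ C : ℝ, 1 ≤ C ∧
    ∀ (Q : Type) [Fintype Q] [DecidableEq Q] (L : ℕ) (h : Fin L → Matrix Q Q ℝ) (η : ℝ),
      (∀ k, (h k).IsSymm) → 0 < η →
      (∀ (i j : ℕ) (hi : i < L) (hj : j < L), i ≤ j →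
        am c s L h η i j hi hj ≤ C * (Fintype.card Q : ℝ) ^ 2) ∧
      (∀ (i k j : ℕ) (hj : j < L) (_ : i ≤ k) (_ : k + 2 ≤ j),
        am c s L h η i j (by omega) hj
          ≤ C * (Fintype.card Q : ℝ) ^ 2 * (am c s L h η i k (by omega) (by omega)
            * am c s L h η (k + 2) j (by omega) hj)) ∧
      (∀ (i j : ℕ) (hj : j < L) (_ : i < j), am c s L h η i j (by omega) hj
        ≤ C * (Fintype.card Q : ℝ) ^ 2 * am c s L h η (i + 1) j (by omega) hj) ∧
      (∀ (i j : ℕ) (hj : j + 1 < L) (_ : i ≤ j), am c s L h η i (j + 1) (by omega) hj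
        ≤ C * (Fintype.card Q : ℝ) ^ 2 * am c s L h η i j (by omega) (by omega)) := by
  obtain ⟨C, hC1, hC⟩ := apri_hsn hc hs hs1
  refine ⟨C, hC1, ?_⟩
  intro Q _ _ L h η hsy hη
  have := isProb_unif hc
  have : IsProbabilityMeasure (PX (Fin L × Q) c) := isProb_PX hc
  have hy : ∀ x : Fin L × Q, 0 < (fun _ : Fin L × Q => η) x := fun _ => hη
  have hB : ∀ (i j : ℕ) (k l : Fin L), BMeas fun V : Fin L × Q → ℝ =>
      hsn (blk (Gs L h i j (fun _ => η) V) k l) ^ s := fun i j k l =>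
    bmeas_hsn hsy i j hy k l hs.le
  have h0 : ∀ (i j : ℕ) (k l : Fin L) (V : Fin L × Q → ℝ),
      0 ≤ hsn (blk (Gs L h i j (fun _ => η) V) k l) ^ s := fun i j k l V =>
    Real.rpow_nonneg (hsn_nonneg _) s
  have hd : ∀ (i j : ℕ) (m : Fin L) (V : Fin L × Q → ℝ),
      ∫ V', hsn (blk (Gs L h i j (fun _ => η) (mxL m m V V')) m m) ^ s ∂(PX (Fin L × Q) c)
        ≤ C * (Fintype.card Q : ℝ) ^ 2 := fun i j m V => (hC Q L h i j _ m m hsy hy).2 V
  refine ⟨?_, ?_, ?_, ?_⟩
  · intro i j hi hj _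
    exact (hC Q L h i j _ ⟨i, hi⟩ ⟨j, hj⟩ hsy hy).1
  · intro i k j hj hik hkj
    have hF : BMeas fun V : Fin L × Q → ℝ =>
        hsn (blk (Gs L h i k (fun _ => η) V) ⟨i, by omega⟩ ⟨k, by omega⟩) ^ s *
          hsn (blk (Gs L h (k + 2) j (fun _ => η) V) ⟨k + 2, by omega⟩ ⟨j, hj⟩) ^ s :=
      (hB i k _ _).mul (hB (k + 2) j _ _)
    calc am c s L h η i j (by omega) hj
        ≤ ∫ V, (hsn (blk (Gs L h i k (fun _ => η) V) ⟨i, by omega⟩ ⟨k, by omega⟩) ^ s *
          hsn (blk (Gs L h (k + 2) j (fun _ => η) V) ⟨k + 2, by omega⟩ ⟨j, hj⟩) ^ s) *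
          hsn (blk (Gs L h i j (fun _ => η) V) ⟨k + 1, by omega⟩ ⟨k + 1, by omega⟩) ^ s
            ∂(PX (Fin L × Q) c) := by
          refine integral_mono ((hB i j _ _).integrable _)
            ((hF.mul (hB i j _ _)).integrable _) fun V => ?_
          simp only
          rw [blk_chainL hsy hy V (i := i) (j := j) (k := k) hik (by omega) (by omega)
            (a := ⟨i, by omega⟩) (b := ⟨j, hj⟩) ⟨le_refl i, hik⟩ ⟨by
              show k < j
              omega, le_refl j⟩,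
            blk_chainR hsy hy V (i := i) (j := j) (k := k + 1) (by omega) (by omega) (by omega)
            (a := ⟨k + 1, by omega⟩) (b := ⟨j, hj⟩) ⟨by
              show i ≤ k + 1
              omega, le_refl _⟩ ⟨by
              show k + 1 < j
              omega, le_refl j⟩]
          have e1 := hsn_mul_rpow hs (blk (Gs L h i k (fun _ => η) V) ⟨i, by omega⟩
            ⟨k, by omega⟩) (blk (Gs L h i j (fun _ => η) V) ⟨k + 1, by omega⟩
            ⟨k + 1, by omega⟩ * blk (Gs L h (k + 2) j (fun _ => η) V) ⟨k + 2, by omega⟩ ⟨j, hj⟩)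
          have e2 := hsn_mul_rpow hs (blk (Gs L h i j (fun _ => η) V) ⟨k + 1, by omega⟩
            ⟨k + 1, by omega⟩) (blk (Gs L h (k + 2) j (fun _ => η) V) ⟨k + 2, by omega⟩ ⟨j, hj⟩)
          refine e1.trans ((mul_le_mul_of_nonneg_left e2 (h0 _ _ _ _ _)).trans (le_of_eq ?_))
          ring
      _ ≤ C * (Fintype.card Q : ℝ) ^ 2 * ∫ V,
          hsn (blk (Gs L h i k (fun _ => η) V) ⟨i, by omega⟩ ⟨k, by omega⟩) ^ s *
          hsn (blk (Gs L h (k + 2) j (fun _ => η) V) ⟨k + 2, by omega⟩ ⟨j, hj⟩) ^ s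
            ∂(PX (Fin L × Q) c) := by
          refine resamp hc ⟨k + 1, by omega⟩ hF (hB i j _ _)
            (fun V => mul_nonneg (h0 _ _ _ _ _) (h0 _ _ _ _ _)) (fun V V' => ?_)
            (fun V => hd i j _ V)
          rw [blk_agree hsy hy (V := V) (V' := mxL ⟨k + 1, by omega⟩ ⟨k + 1, by omega⟩ V V')
            (i := i) (j := k) (fun x h1 h2 => ?_) ⟨le_refl i, hik⟩ ⟨hik, le_refl k⟩,
            blk_agree hsy hy (V := V) (V' := mxL ⟨k + 1, by omega⟩ ⟨k + 1, by omega⟩ V V')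
            (i := k + 2) (j := j) (fun x h1 h2 => ?_) ⟨le_refl _, by
              show k + 2 ≤ j
              omega⟩ ⟨hkj, le_refl j⟩]
          · unfold mxL
            rw [if_neg]
            rintro (h3 | h3)
            · have := congrArg Fin.val h3
              simp only at this
              omega
            · have := congrArg Fin.val h3
              simp only at this
              omega
          · unfold mxL
            rw [if_neg]
            rintro (h3 | h3)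
            · have := congrArg Fin.val h3
              simp only at this
              omega
            · have := congrArg Fin.val h3
              simp only at this
              omega
      _ = C * (Fintype.card Q : ℝ) ^ 2 * (am c s L h η i k (by omega) (by omega)
            * am c s L h η (k + 2) j (by omega) hj) := by
          congr 1
          refine indep hc k (hB i k _ _) (hB (k + 2) j _ _) (fun V V' => ?_) fun V V' => ?_
          · rw [blk_agree hsy hy (V := V) (i := i) (j := k) (fun x h1 h2 => mix_of_le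
              (ℓ := fun x : Fin L × Q => (x.1 : ℕ)) h2 V V')
              ⟨le_refl i, hik⟩ ⟨hik, le_refl k⟩]
          · rw [blk_agree hsy hy (V := V') (i := k + 2) (j := j) (fun x h1 h2 =>
              mix_of_lt (ℓ := fun x : Fin L × Q => (x.1 : ℕ)) (show k < (x.1 : ℕ) by omega)
                V V') ⟨le_refl _, by
              show k + 2 ≤ j
              omega⟩ ⟨hkj, le_refl j⟩]
  · intro i j hj hij
    calc am c s L h η i j (by omega) hj
        ≤ ∫ V, hsn (blk (Gs L h (i + 1) j (fun _ => η) V) ⟨i + 1, by omega⟩ ⟨j, hj⟩) ^ s *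
          hsn (blk (Gs L h i j (fun _ => η) V) ⟨i, by omega⟩ ⟨i, by omega⟩) ^ s
            ∂(PX (Fin L × Q) c) := by
          refine integral_mono ((hB i j _ _).integrable _)
            (((hB (i + 1) j _ _).mul (hB i j _ _)).integrable _) fun V => ?_
          simp only
          rw [blk_chainR hsy hy V (i := i) (j := j) (k := i) (le_refl i) (by omega) hij
            (a := ⟨i, by omega⟩) (b := ⟨j, hj⟩) ⟨le_refl i, le_refl _⟩ ⟨hij, le_refl j⟩]
          refine (hsn_mul_rpow hs _ _).trans (le_of_eq ?_)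
          ring
      _ ≤ _ := by
          refine resamp hc ⟨i, by omega⟩ (hB (i + 1) j _ _) (hB i j _ _)
            (fun V => h0 _ _ _ _ _) (fun V V' => ?_) (fun V => hd i j _ V)
          rw [blk_agree hsy hy (V := V) (V' := mxL ⟨i, by omega⟩ ⟨i, by omega⟩ V V')
            (i := i + 1) (j := j) (k := ⟨i + 1, by omega⟩) (l := ⟨j, hj⟩)
            (fun x h1 h2 => ?_) ⟨le_refl _, by
              show i + 1 ≤ j
              omega⟩ ⟨hij, le_refl j⟩]
          unfold mxL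
          rw [if_neg]
          rintro (h3 | h3)
          · have := congrArg Fin.val h3
            simp only at this
            omega
          · have := congrArg Fin.val h3
            simp only at this
            omega
  · intro i j hj hij
    calc am c s L h η i (j + 1) (by omega) hj
        ≤ ∫ V, hsn (blk (Gs L h i j (fun _ => η) V) ⟨i, by omega⟩ ⟨j, by omega⟩) ^ s *
          hsn (blk (Gs L h i (j + 1) (fun _ => η) V) ⟨j + 1, hj⟩ ⟨j + 1, hj⟩) ^ s
            ∂(PX (Fin L × Q) c) := by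
          refine integral_mono ((hB i (j + 1) _ _).integrable _)
            (((hB i j _ _).mul (hB i (j + 1) _ _)).integrable _) fun V => ?_
          simp only
          rw [blk_chainL hsy hy V (i := i) (j := j + 1) (k := j) hij hj (by omega)
            (a := ⟨i, by omega⟩) (b := ⟨j + 1, hj⟩) ⟨le_refl i, hij⟩ ⟨by
              show j < j + 1
              omega, le_refl _⟩]
          exact hsn_mul_rpow hs _ _
      _ ≤ _ := by
          refine resamp hc ⟨j + 1, hj⟩ (hB i j _ _) (hB i (j + 1) _ _)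
            (fun V => h0 _ _ _ _ _) (fun V V' => ?_) (fun V => hd i (j + 1) _ V)
          rw [blk_agree hsy hy (V := V) (V' := mxL ⟨j + 1, hj⟩ ⟨j + 1, hj⟩ V V')
            (i := i) (j := j) (fun x h1 h2 => ?_) ⟨le_refl _, hij⟩ ⟨hij, le_refl j⟩]
          unfold mxL
          rw [if_neg]
          rintro (h3 | h3)
          · have := congrArg Fin.val h3
            simp only at this
            omega
          · have := congrArg Fin.val h3
            simp only at this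
            omega

end Pool.Agent.Lib.MP_562b47_mp.Str
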