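import Pool.Agent.Lib.MP_562b47_mp.Str.Gph

/-!
Module STR-GLat (MP_562b47_mp, strips).  Regions `Γ ⊆ ℤ^d`, `d = D + 1`, as layered graphs.

`lapG Γ = res ∘ lapL ∘ ext`: the restriction of the operator `-∑ (u(j+n) - u(j))` of the problem to `ℓ²(Γ)`
(zero boundary condition).  `e0 = Pi.single 0 1`.  Layers `|j 0|`; `up j = j + e0` if `0 ≤ j 0` and
`j - e0` otherwise.
PROOFS.  `ext` is an isometry of `ℓ²(Γ)` into `ℓ²(ℤ^d)` (`tsum` over a subtype of a function vanishing
outside), `res` its adjoint; `lapG` is self-adjoint (`isSelfAdjoint_lapL`) and real (`lapL_star`).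
Matrix: `2 d` on the diagonal, `-1` for neighbours, `0` otherwise (`d = D + 1`): row sums
`≤ 4 d`, at most `2 d + 1` nonzero entries per row.  `near`: neighbours differ by one unit vector, so `|j 0|`
changes by at most 1.  `up_unique`: a neighbour `z` of `j + e0` (`0 ≤ j 0`) with `|z 0| = j 0`:
`z = j + e0 ± e_i`; `i ≠ 0` gives `|z 0| = j 0 + 1`; `z = j + 2 e0` gives `j 0 + 2`; so `z = j`.
Similarly for `j 0 < 0`; `z = j + e0` itself has `|z 0| = j 0 + 1`.
-/

open MeasureTheory Matrix Complex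

namespace Pool.Agent.Lib.MP_562b47_mp.Str

open Pool.Agent.Lib.MP_562b47_mp

/-- extension by zero -/
noncomputable def extF {D : ℕ} (Γ : Set (Fin (D + 1) → ℤ)) (u : Γ → ℂ) (j : Fin (D + 1) → ℤ) : ℂ :=
  open Classical in if h : j ∈ Γ then u ⟨j, h⟩ else 0

/-- the layer of a site -/
def layG {D : ℕ} {Γ : Set (Fin (D + 1) → ℤ)} (j : Γ) : ℕ := (j.1 0).natAbs

/-- the region grows (weakly) in the direction `0`, away from `j 0 = 0` -/
def Grows {D : ℕ} (Γ : Set (Fin (D + 1) → ℤ)) : Prop :=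
  ∀ j ∈ Γ, (0 ≤ j 0 → j + Pi.single 0 1 ∈ Γ) ∧ (j 0 < 0 → j - Pi.single 0 1 ∈ Γ)


section ExtRes

variable {D : ℕ} (Γ : Set (Fin (D + 1) → ℤ))

theorem glat_extF_mem (u : Γ → ℂ) (x : Γ) : extF Γ u x.1 = u x := by
  unfold extF
  rw [dif_pos x.2]

theorem glat_extF_not (u : Γ → ℂ) {j : Fin (D + 1) → ℤ} (h : j ∉ Γ) : extF Γ u j = 0 := by
  unfold extF
  rw [dif_neg h]

theorem glat_extF_add (u v : Γ → ℂ) (j : Fin (D + 1) → ℤ) :
    extF Γ (u + v) j = extF Γ u j + extF Γ v j := by
  unfold extF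
  split_ifs <;> simp

theorem glat_extF_smul (c : ℂ) (u : Γ → ℂ) (j : Fin (D + 1) → ℤ) :
    extF Γ (c • u) j = c * extF Γ u j := by
  unfold extF
  split_ifs <;> simp

theorem glat_extF_star (u : Γ → ℂ) (j : Fin (D + 1) → ℤ) :
    extF Γ (star u) j = star (extF Γ u j) := by
  unfold extF
  split_ifs <;> simp

theorem glat_sup {β : Type*} [Zero β] (f : (Fin (D + 1) → ℤ) → β) (hf : ∀ j, j ∉ Γ → f j = 0) :
    Function.support f ⊆ Set.range (Subtype.val : Γ → (Fin (D + 1) → ℤ)) := by
  intro j hj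
  rw [Subtype.range_coe]
  by_contra h
  exact hj (hf j h)

theorem glat_summable (u : L2 Γ) : Summable fun j => ‖extF Γ u j‖ ^ 2 := by
  have h1 : ∀ j, j ∉ Set.range (Subtype.val : Γ → (Fin (D + 1) → ℤ)) → ‖extF Γ u j‖ ^ 2 = 0 := by
    intro j hj
    rw [Subtype.range_coe] at hj
    rw [glat_extF_not Γ _ hj, norm_zero]
    norm_num
  refine (Function.Injective.summable_iff Subtype.val_injective h1).mp ?_
  have : (fun j => ‖extF Γ u j‖ ^ 2) ∘ (Subtype.val : Γ → (Fin (D + 1) → ℤ))
      = fun x => ‖u x‖ ^ 2 := by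
    funext x
    simp only [Function.comp_apply, glat_extF_mem]
  rw [this]
  exact L2_summable u

/-- extension by zero, as an operator -/
noncomputable def glatExt : L2 Γ →L[ℂ] L2 (Fin (D + 1) → ℤ) :=
  LinearMap.mkContinuous
    { toFun := fun u => ⟨fun j => extF Γ u j, memL2_of_summable (glat_summable Γ u)⟩
      map_add' := fun u v => by
        ext j
        exact glat_extF_add Γ u v j
      map_smul' := fun c u => by
        ext j
        exact glat_extF_smul Γ c u j } 1 (fun u => by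
        rw [one_mul]
        refine (sq_le_sq₀ (norm_nonneg _) (norm_nonneg _)).mp ?_
        rw [L2_norm_sq, L2_norm_sq]
        refine le_of_eq ?_
        have h1 : Function.support (fun j => ‖extF Γ u j‖ ^ 2) ⊆
            Set.range (Subtype.val : Γ → (Fin (D + 1) → ℤ)) := by
          refine glat_sup Γ _ fun j hj => ?_
          rw [glat_extF_not Γ _ hj, norm_zero]
          norm_num
        have h2 := Function.Injective.tsum_eq (g := (Subtype.val : Γ → (Fin (D + 1) → ℤ)))
          Subtype.val_injective h1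
        calc (∑' j, ‖extF Γ u j‖ ^ 2) = ∑' x : Γ, ‖extF Γ u x.1‖ ^ 2 := h2.symm
          _ = ∑' x : Γ, ‖u x‖ ^ 2 := by
              refine tsum_congr fun x => ?_
              rw [glat_extF_mem])

theorem glatExt_apply (u : L2 Γ) (j : Fin (D + 1) → ℤ) : glatExt Γ u j = extF Γ u j := rfl

theorem glat_summable_res (v : L2 (Fin (D + 1) → ℤ)) : Summable fun x : Γ => ‖v x.1‖ ^ 2 :=
  (L2_summable v).comp_injective Subtype.val_injective

/-- restriction, as an operator -/
noncomputable def glatRes : L2 (Fin (D + 1) → ℤ) →L[ℂ] L2 Γ :=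
  LinearMap.mkContinuous
    { toFun := fun v => ⟨fun x : Γ => v x.1, memL2_of_summable (glat_summable_res Γ v)⟩
      map_add' := fun u v => by
        ext j
        simp only [lp.coeFn_add, Pi.add_apply]
      map_smul' := fun c u => by
        ext j
        simp only [lp.coeFn_smul, Pi.smul_apply, RingHom.id_apply] } 1 (fun v => by
        rw [one_mul]
        refine (sq_le_sq₀ (norm_nonneg _) (norm_nonneg _)).mp ?_
        rw [L2_norm_sq, L2_norm_sq]
        exact tsum_comp_le_tsum_of_inj (L2_summable v) (fun j => by positivity)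
          (i := (Subtype.val : Γ → (Fin (D + 1) → ℤ))) Subtype.val_injective)

theorem glatRes_apply (v : L2 (Fin (D + 1) → ℤ)) (x : Γ) : glatRes Γ v x = v x.1 := rfl

theorem glat_inner (u : L2 Γ) (v : L2 (Fin (D + 1) → ℤ)) :
    inner ℂ (glatExt Γ u) v = inner ℂ u (glatRes Γ v) := by
  rw [lp.inner_eq_tsum, lp.inner_eq_tsum]
  have h1 : Function.support (fun j => inner ℂ (glatExt Γ u j) (v j)) ⊆
      Set.range (Subtype.val : Γ → (Fin (D + 1) → ℤ)) := by
    refine glat_sup Γ _ fun j hj => ?_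
    rw [glatExt_apply, glat_extF_not Γ _ hj, inner_zero_left]
  rw [← Function.Injective.tsum_eq (g := (Subtype.val : Γ → (Fin (D + 1) → ℤ)))
      Subtype.val_injective h1]
  refine tsum_congr fun x => ?_
  rw [glatExt_apply, glat_extF_mem, glatRes_apply]

theorem glat_inner' (u : L2 (Fin (D + 1) → ℤ)) (v : L2 Γ) :
    inner ℂ (glatRes Γ u) v = inner ℂ u (glatExt Γ v) := by
  rw [← inner_conj_symm, ← glat_inner, inner_conj_symm]

/-- the restricted Laplacian -/
noncomputable def glatT : L2 Γ →L[ℂ] L2 Γ :=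
  (glatRes Γ).comp ((lapL (D + 1)).comp (glatExt Γ))

theorem glatT_apply (u : L2 Γ) (j : Γ) : glatT Γ u j = -∑ i : Fin (D + 1),
    ((extF Γ u (j.1 + Pi.single i 1) - u j) + (extF Γ u (j.1 - Pi.single i 1) - u j)) := by
  unfold glatT
  rw [ContinuousLinearMap.comp_apply, ContinuousLinearMap.comp_apply, glatRes_apply, lapL_apply]
  simp only [glatExt_apply, glat_extF_mem, uv]

theorem glatT_sa : IsSelfAdjoint (glatT Γ) := by
  refine isSelfAdjoint_of_symm fun u v => ?_
  have hs := isSelfAdjoint_lapL (D + 1)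
  have h2 : ∀ a b : L2 (Fin (D + 1) → ℤ), inner ℂ (lapL (D + 1) a) b
      = inner ℂ a (lapL (D + 1) b) := by
    intro a b
    conv_lhs => rw [← hs.adjoint_eq]
    rw [ContinuousLinearMap.adjoint_inner_left]
  unfold glatT
  rw [ContinuousLinearMap.comp_apply, ContinuousLinearMap.comp_apply, glat_inner', h2,
    glat_inner]
  rfl

theorem glatT_star (u : L2 Γ) : glatT Γ (star u) = star (glatT Γ u) := by
  ext j
  rw [lp.star_apply, glatT_apply, glatT_apply, star_neg, star_sum]
  congr 1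
  refine Finset.sum_congr rfl fun i _ => ?_
  have h : ∀ k, extF Γ (⇑(star u)) k = star (extF Γ (⇑u) k) := by
    intro k
    have : (⇑(star u) : Γ → ℂ) = star (⇑u : Γ → ℂ) := by
      funext x
      rw [lp.star_apply]
      rfl
    rw [this, glat_extF_star]
  rw [h, h, lp.star_apply, star_add, star_sub, star_sub]

end ExtRes

section Mat

variable {D : ℕ} {Γ : Set (Fin (D + 1) → ℤ)}

/-- indicator of equality -/
noncomputable def glatD (a b : Fin (D + 1) → ℤ) : ℝ := open Classical in if a = b then 1 else 0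

theorem glatD_nonneg (a b : Fin (D + 1) → ℤ) : 0 ≤ glatD a b := by
  unfold glatD
  split_ifs <;> norm_num

theorem glatD_self (a : Fin (D + 1) → ℤ) : glatD a a = 1 := by
  unfold glatD
  rw [if_pos rfl]

theorem glatD_ne {a b : Fin (D + 1) → ℤ} (h : a ≠ b) : glatD a b = 0 := by
  unfold glatD
  rw [if_neg h]

/-- the matrix -/
noncomputable def glatM (x y : Γ) : ℝ :=
  -∑ i : Fin (D + 1), ((glatD (x.1 + Pi.single i 1) y.1 - glatD x.1 y.1)
    + (glatD (x.1 - Pi.single i 1) y.1 - glatD x.1 y.1))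

theorem glat_mat [DecidableEq Γ] (x y : Γ) : glatT Γ (eb y) x = (glatM x y : ℂ) := by
  have h : ∀ k, extF Γ (⇑(eb y : L2 Γ)) k = (glatD k y.1 : ℂ) := by
    intro k
    by_cases hk : k ∈ Γ
    · have h1 := glat_extF_mem Γ (⇑(eb y : L2 Γ)) ⟨k, hk⟩
      simp only at h1
      rw [h1, eb_apply]
      unfold glatD
      by_cases hky : k = y.1
      · rw [if_pos hky, if_pos (Subtype.ext hky)]
        norm_num
      · rw [if_neg hky, if_neg (fun h => hky (congrArg Subtype.val h))]
        norm_num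
    · rw [glat_extF_not Γ _ hk, glatD_ne (fun h => hk (by rw [h]; exact y.2))]
      norm_num
  have h2 : (eb y : L2 Γ) x = (glatD x.1 y.1 : ℂ) := by
    rw [← h, glat_extF_mem]
  rw [glatT_apply]
  unfold glatM
  push_cast
  congr 1
  refine Finset.sum_congr rfl fun i _ => ?_
  rw [h, h, h2]

theorem glat_symm (x y : Γ) : glatM x y = glatM y x := by
  unfold glatM
  congr 1
  refine Finset.sum_congr rfl fun i _ => ?_
  have h1 : glatD (x.1 + Pi.single i 1) y.1 = glatD (y.1 - Pi.single i 1) x.1 := by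
    unfold glatD
    by_cases h : x.1 + Pi.single i 1 = y.1
    · rw [if_pos h, if_pos (by rw [← h]; simp)]
    · rw [if_neg h, if_neg (fun h' => h (by rw [← h']; simp))]
  have h2 : glatD (x.1 - Pi.single i 1) y.1 = glatD (y.1 + Pi.single i 1) x.1 := by
    unfold glatD
    by_cases h : x.1 - Pi.single i 1 = y.1
    · rw [if_pos h, if_pos (by rw [← h]; simp)]
    · rw [if_neg h, if_neg (fun h' => h (by rw [← h']; simp))]
  have h3 : glatD x.1 y.1 = glatD y.1 x.1 := by
    unfold glatD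
    by_cases h : x.1 = y.1
    · rw [if_pos h, if_pos h.symm]
    · rw [if_neg h, if_neg (fun h' => h h'.symm)]
  rw [h1, h2, h3]
  ring

theorem glat_ne_zero {x y : Γ} (h : glatM x y ≠ 0) :
    x.1 = y.1 ∨ ∃ i : Fin (D + 1), x.1 + Pi.single i 1 = y.1 ∨ x.1 - Pi.single i 1 = y.1 := by
  by_contra hn
  push Not at hn
  apply h
  unfold glatM
  rw [neg_eq_zero]
  refine Finset.sum_eq_zero fun i _ => ?_
  rw [glatD_ne hn.1, glatD_ne (hn.2 i).1, glatD_ne (hn.2 i).2]
  ring

theorem glat_coord (x : Fin (D + 1) → ℤ) (i : Fin (D + 1)) :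
    (x + (Pi.single i 1 : Fin (D + 1) → ℤ)) 0 = x 0 + (if i = 0 then 1 else 0) := by
  rw [Pi.add_apply]
  congr 1
  by_cases h : i = 0
  · subst h
    simp
  · rw [if_neg h, Pi.single_eq_of_ne (fun h' => h h'.symm)]

theorem glat_coord' (x : Fin (D + 1) → ℤ) (i : Fin (D + 1)) :
    (x - (Pi.single i 1 : Fin (D + 1) → ℤ)) 0 = x 0 - (if i = 0 then 1 else 0) := by
  rw [Pi.sub_apply]
  congr 1
  by_cases h : i = 0
  · subst h
    simp
  · rw [if_neg h, Pi.single_eq_of_ne (fun h' => h h'.symm)]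

theorem glat_near (x y : Γ) (h : glatM x y ≠ 0) : layG x ≤ layG y + 1 := by
  unfold layG
  rcases glat_ne_zero h with h1 | ⟨i, h1 | h1⟩
  · rw [h1]
    omega
  · rw [← h1, glat_coord]
    split_ifs <;> omega
  · rw [← h1, glat_coord']
    split_ifs <;> omega

theorem glat_sumD (a : Fin (D + 1) → ℤ) (F : Finset Γ) : ∑ y ∈ F, glatD a y.1 ≤ 1 := by
  classical
  by_cases ha : ∃ y ∈ F, a = y.1
  · obtain ⟨y, hy, hay⟩ := ha
    rw [Finset.sum_eq_single_of_mem y hy]
    · rw [hay, glatD_self]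
    · intro z _ hz
      exact glatD_ne (fun h => hz (Subtype.ext (h.symm.trans hay)))
  · push Not at ha
    rw [Finset.sum_eq_zero]
    · norm_num
    · intro y hy
      exact glatD_ne (ha y hy)

theorem glat_row (x : Γ) (F : Finset Γ) : ∑ y ∈ F, |glatM x y| ≤ 4 * ((D : ℝ) + 1) := by
  have h1 : ∀ y : Γ, |glatM x y| ≤ ∑ i : Fin (D + 1), ((glatD (x.1 + Pi.single i 1) y.1
      + glatD x.1 y.1) + (glatD (x.1 - Pi.single i 1) y.1 + glatD x.1 y.1)) := by
    intro y
    unfold glatM
    rw [abs_neg]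
    refine (Finset.abs_sum_le_sum_abs _ _).trans (Finset.sum_le_sum fun i _ => ?_)
    have a1 := glatD_nonneg (x.1 + Pi.single i 1) y.1
    have a2 := glatD_nonneg x.1 y.1
    have a3 := glatD_nonneg (x.1 - Pi.single i 1) y.1
    rw [abs_le]
    constructor <;> linarith
  calc ∑ y ∈ F, |glatM x y| ≤ ∑ y ∈ F, ∑ i : Fin (D + 1), ((glatD (x.1 + Pi.single i 1) y.1
      + glatD x.1 y.1) + (glatD (x.1 - Pi.single i 1) y.1 + glatD x.1 y.1)) :=
        Finset.sum_le_sum fun y _ => h1 y
    _ = ∑ i : Fin (D + 1), ∑ y ∈ F, ((glatD (x.1 + Pi.single i 1) y.1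
      + glatD x.1 y.1) + (glatD (x.1 - Pi.single i 1) y.1 + glatD x.1 y.1)) :=
        Finset.sum_comm
    _ ≤ ∑ i : Fin (D + 1), (4 : ℝ) := by
        refine Finset.sum_le_sum fun i _ => ?_
        rw [Finset.sum_add_distrib, Finset.sum_add_distrib, Finset.sum_add_distrib]
        have a1 := glat_sumD (x.1 + Pi.single i 1) F
        have a2 := glat_sumD x.1 F
        have a3 := glat_sumD (x.1 - Pi.single i 1) F
        linarith
    _ = 4 * ((D : ℝ) + 1) := by
        rw [Finset.sum_const, Finset.card_univ, Fintype.card_fin, nsmul_eq_mul]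
        push_cast
        ring

theorem glat_deg (x : Γ) (F : Finset Γ) (h : ∀ y ∈ F, glatM x y ≠ 0) :
    F.card ≤ 2 * (D + 1) + 1 := by
  classical
  have h1 : F.image Subtype.val ⊆ insert x.1
      ((Finset.univ.image fun i : Fin (D + 1) => x.1 + Pi.single i 1) ∪
        (Finset.univ.image fun i : Fin (D + 1) => x.1 - Pi.single i 1)) := by
    intro j hj
    rw [Finset.mem_image] at hj
    obtain ⟨y, hy, rfl⟩ := hj
    rw [Finset.mem_insert, Finset.mem_union, Finset.mem_image, Finset.mem_image]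
    rcases glat_ne_zero (h y hy) with h2 | ⟨i, h2 | h2⟩
    · exact Or.inl h2.symm
    · exact Or.inr (Or.inl ⟨i, Finset.mem_univ _, h2⟩)
    · exact Or.inr (Or.inr ⟨i, Finset.mem_univ _, h2⟩)
  have h2 := Finset.card_le_card h1
  rw [Finset.card_image_of_injective _ Subtype.val_injective] at h2
  refine h2.trans ((Finset.card_insert_le _ _).trans ?_)
  have h3 := Finset.card_union_le (Finset.univ.image fun i : Fin (D + 1) => x.1 + Pi.single i 1)
    (Finset.univ.image fun i : Fin (D + 1) => x.1 - Pi.single i 1)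
  have h4 : (Finset.univ.image fun i : Fin (D + 1) => x.1 + Pi.single i 1).card ≤ D + 1 :=
    Finset.card_image_le.trans (by simp)
  have h5 : (Finset.univ.image fun i : Fin (D + 1) => x.1 - Pi.single i 1).card ≤ D + 1 :=
    Finset.card_image_le.trans (by simp)
  omega

open Classical in
/-- the next site -/
noncomputable def glatUp (hg : Grows Γ) (x : Γ) : Γ :=
  if h : 0 ≤ x.1 0 then ⟨x.1 + Pi.single 0 1, (hg x.1 x.2).1 h⟩
  else ⟨x.1 - Pi.single 0 1, (hg x.1 x.2).2 (not_le.mp h)⟩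

theorem glatUp_nn (hg : Grows Γ) (x : Γ) (h : 0 ≤ x.1 0) :
    (glatUp hg x).1 = x.1 + Pi.single 0 1 := by
  unfold glatUp
  rw [dif_pos h]

theorem glatUp_neg (hg : Grows Γ) (x : Γ) (h : x.1 0 < 0) :
    (glatUp hg x).1 = x.1 - Pi.single 0 1 := by
  unfold glatUp
  rw [dif_neg (not_le.mpr h)]

theorem glat_up_layer (hg : Grows Γ) (x : Γ) : layG (glatUp hg x) = layG x + 1 := by
  unfold layG
  rcases le_or_gt 0 (x.1 0) with h | h
  · rw [glatUp_nn hg x h, glat_coord, if_pos rfl]
    omega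
  · rw [glatUp_neg hg x h, glat_coord', if_pos rfl]
    omega

theorem glat_up_one (hg : Grows Γ) (x : Γ) : 1 ≤ |glatM (glatUp hg x) x| := by
  have hne : (glatUp hg x).1 ≠ x.1 := by
    intro h
    have h1 := glat_up_layer hg x
    unfold layG at h1
    rw [h] at h1
    omega
  unfold glatM
  rw [abs_neg, glatD_ne hne]
  simp only [sub_zero]
  have h0 : 1 ≤ glatD ((glatUp hg x).1 + Pi.single 0 1) x.1
      + glatD ((glatUp hg x).1 - Pi.single 0 1) x.1 := by
    have a1 := glatD_nonneg ((glatUp hg x).1 + Pi.single 0 1) x.1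
    have a2 := glatD_nonneg ((glatUp hg x).1 - Pi.single 0 1) x.1
    rcases le_or_gt 0 (x.1 0) with h | h
    · have : glatD ((glatUp hg x).1 - Pi.single 0 1) x.1 = 1 := by
        rw [glatUp_nn hg x h, add_sub_cancel_right, glatD_self]
      linarith
    · have : glatD ((glatUp hg x).1 + Pi.single 0 1) x.1 = 1 := by
        rw [glatUp_neg hg x h, sub_add_cancel, glatD_self]
      linarith
  have h2 : glatD ((glatUp hg x).1 + Pi.single 0 1) x.1
      + glatD ((glatUp hg x).1 - Pi.single 0 1) x.1 ≤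
      ∑ i : Fin (D + 1), (glatD ((glatUp hg x).1 + Pi.single i 1) x.1
        + glatD ((glatUp hg x).1 - Pi.single i 1) x.1) :=
    Finset.single_le_sum (f := fun i : Fin (D + 1) =>
      glatD ((glatUp hg x).1 + Pi.single i 1) x.1
        + glatD ((glatUp hg x).1 - Pi.single i 1) x.1)
      (fun i _ => add_nonneg (glatD_nonneg _ _) (glatD_nonneg _ _)) (Finset.mem_univ 0)
  exact (h0.trans h2).trans (le_abs_self _)

theorem glat_up_unique (hg : Grows Γ) (x z : Γ) (hl : layG z = layG x)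
    (h : glatM (glatUp hg x) z ≠ 0) : z = x := by
  apply Subtype.ext
  unfold layG at hl
  rcases le_or_gt 0 (x.1 0) with hx | hx
  · rcases glat_ne_zero h with h1 | ⟨i, h1 | h1⟩
    · exfalso
      rw [glatUp_nn hg x hx] at h1
      rw [← h1, glat_coord, if_pos rfl] at hl
      omega
    · exfalso
      rw [glatUp_nn hg x hx] at h1
      rw [← h1, glat_coord, glat_coord, if_pos rfl] at hl
      split_ifs at hl <;> omega
    · rw [glatUp_nn hg x hx] at h1
      rw [← h1, glat_coord', glat_coord, if_pos rfl] at hl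
      by_cases hi : i = 0
      · subst hi
        rw [← h1, add_sub_cancel_right]
      · exfalso
        rw [if_neg hi] at hl
        omega
  · rcases glat_ne_zero h with h1 | ⟨i, h1 | h1⟩
    · exfalso
      rw [glatUp_neg hg x hx] at h1
      rw [← h1, glat_coord', if_pos rfl] at hl
      omega
    · rw [glatUp_neg hg x hx] at h1
      rw [← h1, glat_coord, glat_coord', if_pos rfl] at hl
      by_cases hi : i = 0
      · subst hi
        rw [← h1, sub_add_cancel]
      · exfalso
        rw [if_neg hi] at hl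
        omega
    · exfalso
      rw [glatUp_neg hg x hx] at h1
      rw [← h1, glat_coord', glat_coord', if_pos rfl] at hl
      split_ifs at hl <;> omega

theorem glat_fin (hfin : ∀ n : ℕ, {j ∈ Γ | (j 0).natAbs = n}.Finite) (n : ℕ) :
    {x : Γ | layG x ≤ n}.Finite := by
  have h1 : (⋃ m ∈ Finset.range (n + 1), {j ∈ Γ | (j 0).natAbs = m}).Finite :=
    Set.Finite.biUnion (Finset.finite_toSet _) fun m _ => hfin m
  refine Set.Finite.subset (Set.Finite.preimage (f := (Subtype.val : Γ → (Fin (D + 1) → ℤ)))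
    Subtype.val_injective.injOn h1) ?_
  intro x hx
  rw [Set.mem_preimage, Set.mem_iUnion₂]
  refine ⟨(x.1 0).natAbs, ?_, x.2, rfl⟩
  rw [Finset.mem_range]
  have : (x.1 0).natAbs ≤ n := hx
  omega

end Mat

theorem lat_gph {D : ℕ} (Γ : Set (Fin (D + 1) → ℤ)) [DecidableEq Γ] (hg : Grows Γ)
    (hfin : ∀ n : ℕ, {j ∈ Γ | (j 0).natAbs = n}.Finite) :
    ∃ (T : L2 Γ →L[ℂ] L2 Γ) (t : Γ → Γ → ℝ) (up : Γ → Γ),
      Gph T t layG up (4 * ((D : ℝ) + 1)) (2 * (D + 1) + 1) ∧
      ∀ (u : L2 Γ) (j : Γ), T u j = -∑ i : Fin (D + 1),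
        ((extF Γ u (j.1 + Pi.single i 1) - u j) + (extF Γ u (j.1 - Pi.single i 1) - u j)) := by
  refine ⟨glatT Γ, glatM, glatUp hg, ?_, glatT_apply Γ⟩
  exact
    { hT := glatT_sa Γ
      hr := glatT_star Γ
      mat := glat_mat
      symm := glat_symm
      near := glat_near
      row := glat_row
      deg := glat_deg
      up_layer := glat_up_layer hg
      up_one := glat_up_one hg
      up_unique := glat_up_unique hg
      fin := glat_fin hfin }

theorem wid_layG {D : ℕ} (Γ : Set (Fin (D + 1) → ℤ)) (n : ℕ) :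
    wid (layG : Γ → ℕ) n = {j ∈ Γ | (j 0).natAbs = n}.ncard := by
  unfold wid
  rw [← Set.ncard_image_of_injective _ Subtype.val_injective]
  congr 1
  ext j
  constructor
  · rintro ⟨x, hx, rfl⟩
    exact ⟨x.2, hx⟩
  · rintro ⟨hj, hn⟩
    exact ⟨⟨j, hj⟩, hn, rfl⟩

end Pool.Agent.Lib.MP_562b47_mp.Str
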