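import Pool.Agent.Lib.MP_562b47_mp.Str.Ode
import Pool.Agent.Lib.MP_562b47_mp.CNFinal

/-!
Module STR-Gph (MP_562b47_mp, strips).  Layered infinite graphs and their finite truncations.

`Gph T t ℓ up R Δ`: `T` is a bounded real self-adjoint operator on `ℓ²(Λ)` with matrix `t`, layered by
`ℓ : Λ → ℕ` with finite layers, `up x` in the next layer, etc.
`finS`: the truncation to the layers `≤ n`, one source at `x0`, `H = t + W - E`, absorption `y`.

PROOFS.
* `finS_good`: symmetry of `t`.
* `finS_lay`: `Layered` up to `n` with the row bound `R + RW + RE` and `Δ + 1`: the restriction of `t` plus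
  a diagonal matrix; `ℓ (up x) = ℓ x + 1 ≤ n` for `ℓ x < n`, off the diagonal `H = t`, and `up x ≠ x`,
  `z ≠ up x` if `ℓ z = ℓ x`.  `upF` is `up` on the layers `< n` and arbitrary on the layer `n`.
* `width_mono`: `up` is injective on each layer (`up_unique`, `up_one`) and maps the layer `j` to the
  layer `j + 1`; so `#{ℓ = j} ≤ #{ℓ = j+1}`, and by induction `≤ #{ℓ = N}` for `j ≤ N`.
* `finS_OD`: the hypotheses `OD` of `ode` for `finS` on the layers `≤ n'`, with `N ≤ n'`, `n0 = ℓ x0`,
  `m = #{ℓ = N}`, `M = card (Fin 1) = 1 ≤ m` (iterate `up` from `x0`: the layer `N` is not empty),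
  `#{ℓ ≤ N} ≤ (N+1) m ≤ Λ'`; the row sums: `R + RW + RE`.
-/

open MeasureTheory Matrix Complex

namespace Pool.Agent.Lib.MP_562b47_mp.Str

open Pool.Agent.Lib.MP_562b47_mp

/-- layered graphs -/
structure Gph {Λ : Type} [DecidableEq Λ] (T : L2 Λ →L[ℂ] L2 Λ) (t : Λ → Λ → ℝ) (ℓ : Λ → ℕ)
    (up : Λ → Λ) (R : ℝ) (Δ : ℕ) : Prop where
  hT : IsSelfAdjoint T
  hr : ∀ u, T (star u) = star (T u)
  mat : ∀ x y, T (eb y) x = (t x y : ℂ)
  symm : ∀ x y, t x y = t y x
  near : ∀ x y, t x y ≠ 0 → ℓ x ≤ ℓ y + 1
  row : ∀ x (F : Finset Λ), ∑ y ∈ F, |t x y| ≤ R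
  deg : ∀ x (F : Finset Λ), (∀ y ∈ F, t x y ≠ 0) → F.card ≤ Δ
  up_layer : ∀ x, ℓ (up x) = ℓ x + 1
  up_one : ∀ x, 1 ≤ |t (up x) x|
  up_unique : ∀ x z, ℓ z = ℓ x → t (up x) z ≠ 0 → z = x
  fin : ∀ n, {x | ℓ x ≤ n}.Finite

variable {Λ : Type} [DecidableEq Λ] {T : L2 Λ →L[ℂ] L2 Λ} {t : Λ → Λ → ℝ} {ℓ : Λ → ℕ}
  {up : Λ → Λ} {R : ℝ} {Δ : ℕ}

/-- the sites of the layers `≤ n` -/
abbrev Lay (ℓ : Λ → ℕ) (n : ℕ) : Type := {x : Λ // ℓ x ≤ n}

/-- finiteness of the truncations -/
noncomputable def Gph.fintype (h : Gph T t ℓ up R Δ) (n : ℕ) : Fintype (Lay ℓ n) :=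
  (h.fin n).fintype

/-- the truncation with one source at `x0` -/
noncomputable def finS (t : Λ → Λ → ℝ) (ℓ : Λ → ℕ) (W : Λ → ℝ) (E y : ℝ) (x0 : Λ) (n : ℕ) :
    Sys (Lay ℓ n) (Fin 1) where
  H := fun x z => t x.1 z.1 + (if x = z then W x.1 - E else 0)
  U := fun x _ => if x.1 = x0 then 1 else 0
  y := fun _ => y

theorem finS_good (h : Gph T t ℓ up R Δ) (W : Λ → ℝ) (E : ℝ) {y : ℝ} (hy : 0 < y) (x0 : Λ)
    (n : ℕ) : (finS t ℓ W E y x0 n).Good := by
  refine ⟨Matrix.IsSymm.ext fun x z => ?_, fun _ => hy⟩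
  show t z.1 x.1 + (if z = x then W z.1 - E else 0) = t x.1 z.1 + (if x = z then W x.1 - E else 0)
  rw [h.symm z.1 x.1]
  by_cases hxz : x = z
  · rw [hxz]
  · rw [if_neg hxz, if_neg (Ne.symm hxz)]

/-- the number of sites of a layer -/
noncomputable def wid (ℓ : Λ → ℕ) (j : ℕ) : ℕ := {x | ℓ x = j}.ncard

private theorem gph_fin_layer (h : Gph T t ℓ up R Δ) (j : ℕ) : {x | ℓ x = j}.Finite :=
  (h.fin j).subset fun _ hx => le_of_eq hx

private theorem gph_up_ne (h : Gph T t ℓ up R Δ) (x : Λ) : up x ≠ x := by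
  intro hx
  have h1 := h.up_layer x
  rw [hx] at h1
  omega

theorem width_mono (h : Gph T t ℓ up R Δ) {j N : ℕ} (hj : j ≤ N) : wid ℓ j ≤ wid ℓ N := by
  induction N, hj using Nat.le_induction with
  | base => exact le_rfl
  | succ k _ ih =>
    refine ih.trans ?_
    unfold wid
    refine Set.ncard_le_ncard_of_injOn up ?_ ?_ (gph_fin_layer h (k + 1))
    · intro x hx
      show ℓ (up x) = k + 1
      have hx' : ℓ x = k := hx
      rw [h.up_layer, hx']
    · intro x hx z hz hxz
      have hx' : ℓ x = k := hx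
      have hz' : ℓ z = k := hz
      refine (h.up_unique x z (hz'.trans hx'.symm) ?_).symm
      rw [hxz]
      have h1 := h.up_one z
      intro h0
      rw [h0, abs_zero] at h1
      linarith

theorem wid_pos (h : Gph T t ℓ up R Δ) {x0 : Λ} {N : ℕ} (hN : ℓ x0 ≤ N) : 1 ≤ wid ℓ N := by
  refine le_trans ?_ (width_mono h hN)
  unfold wid
  exact (Set.ncard_pos (gph_fin_layer h _)).2 ⟨x0, rfl⟩

private theorem gph_card_eq (h : Gph T t ℓ up R Δ) {n j : ℕ} (hj : j ≤ n) :
    letI := h.fintype n
    (Finset.univ.filter fun x : Lay ℓ n => ℓ x.1 = j).card = wid ℓ j := by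
  letI := h.fintype n
  show (Finset.univ.filter fun x : Lay ℓ n => ℓ x.1 = j).card = wid ℓ j
  unfold wid
  rw [← Finset.card_map (Function.Embedding.subtype _), ← Set.ncard_coe_finset]
  congr 1
  ext x
  simp only [Finset.coe_map, Set.mem_image, Finset.mem_coe, Finset.mem_filter, Finset.mem_univ,
    true_and, Set.mem_ofPred_eq, Function.Embedding.subtype_apply]
  constructor
  · rintro ⟨a, ha, rfl⟩
    exact ha
  · intro hx
    exact ⟨⟨x, hx.le.trans hj⟩, hx, rfl⟩

private theorem gph_card_le (h : Gph T t ℓ up R Δ) {n N : ℕ} (hN : N ≤ n) :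
    letI := h.fintype n
    (Finset.univ.filter fun x : Lay ℓ n => ℓ x.1 ≤ N).card ≤ (N + 1) * wid ℓ N := by
  letI := h.fintype n
  show (Finset.univ.filter fun x : Lay ℓ n => ℓ x.1 ≤ N).card ≤ (N + 1) * wid ℓ N
  have hmaps : ∀ x ∈ (Finset.univ.filter fun x : Lay ℓ n => ℓ x.1 ≤ N),
      ℓ x.1 ∈ Finset.range (N + 1) := by
    intro x hx
    have := (Finset.mem_filter.1 hx).2
    exact Finset.mem_range.2 (by omega)
  rw [Finset.card_eq_sum_card_fiberwise hmaps]
  have hb : ∀ j ∈ Finset.range (N + 1),
      ((Finset.univ.filter fun x : Lay ℓ n => ℓ x.1 ≤ N).filter fun x => ℓ x.1 = j).card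
        ≤ wid ℓ N := by
    intro j hj
    have hj' : j ≤ N := by
      have := Finset.mem_range.1 hj
      omega
    refine le_trans ?_ (width_mono h hj')
    rw [← gph_card_eq h (hj'.trans hN)]
    refine Finset.card_le_card fun x hx => ?_
    exact Finset.mem_filter.2 ⟨Finset.mem_univ _, (Finset.mem_filter.1 hx).2⟩
  refine (Finset.sum_le_card_nsmul _ _ _ hb).trans ?_
  rw [Finset.card_range, smul_eq_mul]

theorem finS_OD (h : Gph T t ℓ up R Δ) {W : Λ → ℝ} {RW RE E : ℝ} (hW : ∀ x, |W x| ≤ RW)
    (hE : |E| ≤ RE) {c Λ' Cη y : ℝ} (hy : 0 < y) (hyη : y ≤ Real.exp (-(Cη * Λ'))) {x0 : Λ}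
    {N n : ℕ} (hN : ℓ x0 < N) (hNn : N ≤ n) (hΛ : ((N : ℝ) + 1) * wid ℓ N ≤ Λ') :
    letI := h.fintype n
    ∃ upF : Lay ℓ n → Lay ℓ n,
      OD (finS t ℓ W E y x0 n) (fun x => ℓ x.1) upF c (R + RW + RE) y Λ' Cη (Δ + 1) N (wid ℓ N)
        (ℓ x0) := by
  letI := h.fintype n
  have hw1 : 1 ≤ wid ℓ N := wid_pos h hN.le
  have hw1' : (1 : ℝ) ≤ wid ℓ N := by exact_mod_cast hw1
  have hN0 : (0 : ℝ) ≤ N := Nat.cast_nonneg _
  -- the diagonal entries
  have hoff : ∀ x z : Lay ℓ n, x ≠ z → (finS t ℓ W E y x0 n).H x z = t x.1 z.1 := by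
    intro x z hxz
    show t x.1 z.1 + (if x = z then W x.1 - E else 0) = t x.1 z.1
    rw [if_neg hxz, add_zero]
  refine ⟨fun x => if hx : ℓ x.1 < n then ⟨up x.1, by rw [h.up_layer]; omega⟩ else x, ?_⟩
  have hup : ∀ x : Lay ℓ n, ℓ x.1 < N →
      ((if hx : ℓ x.1 < n then ⟨up x.1, by rw [h.up_layer]; omega⟩ else x : Lay ℓ n)).1
        = up x.1 := by
    intro x hx
    rw [dif_pos (hx.trans_le hNn)]
  exact
    { good := finS_good h W E hy x0 n
      lay :=
        { near := by
            intro x z hxz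
            show ℓ x.1 ≤ ℓ z.1 + 1
            by_cases hx : x = z
            · rw [hx]
              omega
            · rw [hoff x z hx] at hxz
              exact h.near _ _ hxz
          row := by
            intro x
            have h1 : ∀ z : Lay ℓ n, |(finS t ℓ W E y x0 n).H x z|
                ≤ |t x.1 z.1| + (if x = z then RW + RE else 0) := by
              intro z
              by_cases hx : x = z
              · show |t x.1 z.1 + (if x = z then W x.1 - E else 0)| ≤ _
                rw [if_pos hx, if_pos hx]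
                have h2 := abs_add_le (t x.1 z.1) (W x.1 - E)
                have h3 := abs_sub (W x.1) E
                have h4 := hW x.1
                linarith
              · rw [hoff x z hx, if_neg hx, add_zero]
            refine (Finset.sum_le_sum fun z _ => h1 z).trans ?_
            rw [Finset.sum_add_distrib, Finset.sum_ite_eq, if_pos (Finset.mem_univ _)]
            have h2 := h.row x.1
              ((Finset.univ : Finset (Lay ℓ n)).map (Function.Embedding.subtype _))
            rw [Finset.sum_map] at h2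
            have h3 : ∑ z : Lay ℓ n, |t x.1 z.1| ≤ R := h2
            linarith
          deg := by
            intro x
            have h1 : (Finset.univ.filter fun z : Lay ℓ n => (finS t ℓ W E y x0 n).H x z ≠ 0)
                ⊆ insert x (Finset.univ.filter fun z : Lay ℓ n => t x.1 z.1 ≠ 0) := by
              intro z hz
              by_cases hx : x = z
              · rw [hx]
                exact Finset.mem_insert_self _ _
              · refine Finset.mem_insert_of_mem (Finset.mem_filter.2 ⟨Finset.mem_univ _, ?_⟩)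
                have h2 := (Finset.mem_filter.1 hz).2
                rwa [hoff x z hx] at h2
            refine (Finset.card_le_card h1).trans ((Finset.card_insert_le _ _).trans ?_)
            refine Nat.add_le_add_right ?_ 1
            rw [← Finset.card_map (Function.Embedding.subtype _)]
            refine h.deg x.1 _ ?_
            intro z hz
            obtain ⟨a, ha, rfl⟩ := Finset.mem_map.1 hz
            exact (Finset.mem_filter.1 ha).2
          up_layer := by
            intro x hx
            show ℓ _ = ℓ x.1 + 1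
            rw [hup x hx, h.up_layer]
          up_one := by
            intro x hx
            rw [hoff, hup x hx]
            · exact h.up_one x.1
            · intro h0
              have h1 := congrArg Subtype.val h0
              rw [hup x hx] at h1
              exact gph_up_ne h x.1 h1
          up_unique := by
            intro x hx z hz hne
            have hz' : ℓ z.1 = ℓ x.1 := hz
            have h0 : (if hx : ℓ x.1 < n then ⟨up x.1, by rw [h.up_layer]; omega⟩
                else x : Lay ℓ n) ≠ z := by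
              intro h0
              have h1 := congrArg (fun a : Lay ℓ n => ℓ a.1) h0
              have h2 : ℓ ((if hx : ℓ x.1 < n then ⟨up x.1, by rw [h.up_layer]; omega⟩
                else x : Lay ℓ n)).1 = ℓ z.1 := h1
              rw [hup x hx, h.up_layer] at h2
              omega
            rw [hoff _ _ h0, hup x hx] at hne
            exact Subtype.ext (h.up_unique x.1 z.1 hz' hne) }
      src := by
        intro x hx s
        show (if x.1 = x0 then (1 : ℝ) else 0) = 0
        rw [if_neg]
        rintro h0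
        have hx' : ℓ x0 < ℓ x.1 := hx
        rw [h0] at hx'
        exact lt_irrefl _ hx'
      hU := by
        intro x
        show ∑ _s : Fin 1, (if x.1 = x0 then (1 : ℝ) else 0) ^ 2 ≤ 1
        rw [Fin.sum_univ_one]
        split_ifs <;> norm_num
      η0 := hy.le
      ηle := hyη
      yle := fun _ _ => le_rfl
      m1 := hw1
      mΛ := by
        refine le_trans ?_ hΛ
        nlinarith
      Mm := by
        rw [Fintype.card_fin]
        exact hw1
      width := by
        intro j _ hj
        refine (gph_card_eq h (hj.trans hNn)).le.trans (width_mono h hj)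
      tot := by
        refine le_trans ?_ hΛ
        have h1 := gph_card_le h hNn
        have h2 : (((Finset.univ.filter fun x : Lay ℓ n => ℓ x.1 ≤ N).card : ℕ) : ℝ)
            ≤ (((N + 1) * wid ℓ N : ℕ) : ℝ) := by exact_mod_cast h1
        push_cast at h2
        exact h2
      NΛ := by
        refine le_trans ?_ hΛ
        nlinarith
      hn0 := hN }

end Pool.Agent.Lib.MP_562b47_mp.Str
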