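import Pool.Agent.Lib.MP_562b47_mp.Str.Jac

/-!
Module STR-Holder (MP_562b47_mp, strips).  The second moment of a shifted function.

PROOF.  `g` bounded by `Kb` and measurable, `p > 1`, `p' = p / (p - 1)`.  With `J = Jb B c b t V > 0`
(on the cube, a.e.) write `‖g (shf V)‖² = (‖g (shf V)‖² J^(1/p)) * J^(-1/p)` and apply Hölder with the
exponents `p, p'`:
  `∫ ‖g(shf V)‖² ≤ (∫ ‖g(shf V)‖^(2p) J)^(1/p) * (∫ J^(-p'/p))^(1/p')`.
By `jac` the first factor is `(∫ ‖g‖^(2p))^(1/p) ≤ (Kb^(2p-2) ∫ ‖g‖²)^(1/p)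
= Kb² (∫ ‖g‖² / Kb²)^(1/p)`; the second factor is bounded by `jac_neg_prod` with
`a = p'/p = 1/(p-1)`, the exponent is `Ca (t b / c)² #B / p' ≤ Ca (t b / c)² #B`.
Real form of Hölder: `MeasureTheory.integral_mul_le_Lp_mul_Lq_of_nonneg` or the lintegral form
`ENNReal.lintegral_mul_le_Lp_mul_Lq`.
-/

open MeasureTheory Matrix Complex

namespace Pool.Agent.Lib.MP_562b47_mp.Str

variable {X : Type} [Fintype X] [DecidableEq X]

private theorem holder_shf_meas (B : Set X) (c b t : ℝ) :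
    Continuous (fun V : X → ℝ => shf B c b V t) := by
  refine continuous_pi fun x => ?_
  by_cases hx : x ∈ B
  · have h1 : (fun V : X → ℝ => shf B c b V t x) = fun V => V x + t * (b * chi c (V x)) := by
      funext V
      unfold shf
      rw [if_pos hx]
    rw [h1]
    have h2 := (continuous_chi c).comp (continuous_apply (A := fun _ : X => ℝ) x)
    exact (continuous_apply x).add (continuous_const.mul (continuous_const.mul h2))
  · have h1 : (fun V : X → ℝ => shf B c b V t x) = fun V => V x := by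
      funext V
      unfold shf
      rw [if_neg hx]
    rw [h1]
    exact continuous_apply x

private theorem holder_J_cont (B : Set X) (c b t : ℝ) :
    Continuous (fun V : X → ℝ => Jb B c b t V) := by
  unfold Jb
  refine continuous_finsetProd _ fun x _ => ?_
  by_cases hx : x ∈ B
  · simp only [if_pos hx]
    unfold J1
    fun_prop
  · simp only [if_neg hx]
    fun_prop

private theorem holder_J_bounds (B : Set X) {c b t : ℝ} (hc : 0 < c) (hs : |t * b| ≤ c / 4)
    {V : X → ℝ} (hV : ∀ x, V x ∈ Set.Icc (-c) c) :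
    (1 / 2 : ℝ) ^ Fintype.card X ≤ Jb B c b t V ∧ Jb B c b t V ≤ (3 / 2 : ℝ) ^ Fintype.card X := by
  classical
  unfold Jb
  rw [← Finset.card_univ, ← Finset.prod_const, ← Finset.prod_const]
  constructor
  · refine Finset.prod_le_prod (fun _ _ => by norm_num) fun x _ => ?_
    split_ifs
    · exact (J1_bounds hc hs (hV x)).1
    · norm_num
  · refine Finset.prod_le_prod (fun x _ => ?_) fun x _ => ?_
    · split_ifs
      · exact le_trans (by norm_num) (J1_bounds hc hs (hV x)).1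
      · norm_num
    · split_ifs
      · exact (J1_bounds hc hs (hV x)).2
      · norm_num

private theorem holder_J_ae (B : Set X) {c b t : ℝ} (hc : 0 < c) (hs : |t * b| ≤ c / 4) :
    ∀ᵐ V ∂(PX X c), (1 / 2 : ℝ) ^ Fintype.card X ≤ Jb B c b t V ∧
      Jb B c b t V ≤ (3 / 2 : ℝ) ^ Fintype.card X := by
  filter_upwards [ae_cube (X := X) hc] with V hV
  exact holder_J_bounds B hc hs hV

/-- the change of variables for real integrals of nonnegative functions -/
private theorem holder_jac_real (B : Set X) {c b t : ℝ} (hc : 0 < c) (hs : |t * b| ≤ c / 4)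
    {F : (X → ℝ) → ℝ} (hF : Measurable F) (hF0 : ∀ V, 0 ≤ F V) :
    ∫ V, F (shf B c b V t) * Jb B c b t V ∂(PX X c) = ∫ V, F V ∂(PX X c) := by
  have hm1 : Measurable (fun V : X → ℝ => F (shf B c b V t) * Jb B c b t V) :=
    (hF.comp (holder_shf_meas B c b t).measurable).mul (holder_J_cont B c b t).measurable
  have hpos : 0 ≤ᵐ[PX X c] fun V : X → ℝ => F (shf B c b V t) * Jb B c b t V := by
    filter_upwards [holder_J_ae B hc hs] with V hV
    have h1 : (0 : ℝ) ≤ (1 / 2 : ℝ) ^ Fintype.card X := by positivity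
    exact mul_nonneg (hF0 _) (h1.trans hV.1)
  rw [integral_eq_lintegral_of_nonneg_ae hpos hm1.aestronglyMeasurable,
    integral_eq_lintegral_of_nonneg_ae (Filter.Eventually.of_forall hF0)
      hF.aestronglyMeasurable]
  congr 1
  rw [← jac B hc hs (F := fun V => ENNReal.ofReal (F V)) hF.ennreal_ofReal]
  refine lintegral_congr_ae ?_
  filter_upwards [holder_J_ae B hc hs] with V _
  rw [ENNReal.ofReal_mul (hF0 _)]

theorem shift_sq {p : ℝ} (hp : 1 < p) : ∃ Cp : ℝ, 0 < Cp ∧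
    ∀ (X : Type) [Fintype X] [DecidableEq X] (E : Type) [NormedAddCommGroup E]
      (B : Finset X) (c b t Kb : ℝ) (g : (X → ℝ) → E), 0 < c → |t * b| ≤ c / 4 → 0 < Kb →
      Continuous g → (∀ V, ‖g V‖ ≤ Kb) →
      ∫ V, ‖g (shf (B : Set X) c b V t)‖ ^ 2 ∂(PX X c)
        ≤ Kb ^ 2 * ((∫ V, ‖g V‖ ^ 2 ∂(PX X c)) / Kb ^ 2) ^ (1 / p)
          * Real.exp (Cp * (t * b / c) ^ 2 * B.card) := by
  have hp0 : 0 < p := by linarith
  have hp1 : 0 < p - 1 := by linarith
  have hq : Real.HolderConjugate p (p / (p - 1)) := Real.HolderConjugate.conjExponent hp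
  set q : ℝ := p / (p - 1) with hqdef
  have hq0 : 0 < q := div_pos hp0 hp1
  have hq1 : 1 / q ≤ 1 := by
    rw [div_le_one hq0, hqdef, le_div_iff₀ hp1]
    linarith
  obtain ⟨Ca, hCa, hJ⟩ := jac_neg_prod (a := 1 / (p - 1)) (by positivity)
  refine ⟨Ca, hCa, ?_⟩
  intro X _ _ E _ B c b t Kb g hc hs hKb hg hgK
  have hprob := isProb_PX (X := X) hc
  have hJae := holder_J_ae (X := X) (B : Set X) hc hs
  have hJc := holder_J_cont (X := X) (B : Set X) c b t
  have hSc := holder_shf_meas (X := X) (B : Set X) c b t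
  have hng : Continuous fun V : X → ℝ => ‖g V‖ := hg.norm
  obtain ⟨hJi, hJe⟩ := hJ X B c b t hc hs
  have hlow : (0 : ℝ) < (1 / 2 : ℝ) ^ Fintype.card X := by positivity
  -- the two factors
  set f1 : (X → ℝ) → ℝ := fun V => ‖g (shf (B : Set X) c b V t)‖ ^ 2 * (Jb (B : Set X) c b t V) ^ (1 / p)
    with hf1
  set f2 : (X → ℝ) → ℝ := fun V => (Jb (B : Set X) c b t V) ^ (-(1 / p)) with hf2
  have hm1 : Measurable f1 := by
    refine Measurable.mul ?_ (hJc.measurable.pow_const _)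
    exact ((hng.comp hSc).pow 2).measurable
  have hm2 : Measurable f2 := hJc.measurable.pow_const _
  have hpos1 : 0 ≤ᵐ[PX X c] f1 := by
    filter_upwards [hJae] with V hV
    exact mul_nonneg (sq_nonneg _) (Real.rpow_nonneg (hlow.le.trans hV.1) _)
  have hpos2 : 0 ≤ᵐ[PX X c] f2 := by
    filter_upwards [hJae] with V hV
    exact Real.rpow_nonneg (hlow.le.trans hV.1) _
  have hL1 : MemLp f1 (ENNReal.ofReal p) (PX X c) := by
    refine MemLp.of_bound hm1.aestronglyMeasurable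
      (Kb ^ 2 * ((3 / 2 : ℝ) ^ Fintype.card X) ^ (1 / p)) ?_
    filter_upwards [hJae] with V hV
    have h0 : 0 ≤ Jb (B : Set X) c b t V := hlow.le.trans hV.1
    rw [Real.norm_eq_abs, abs_of_nonneg (mul_nonneg (sq_nonneg _) (Real.rpow_nonneg h0 _))]
    refine mul_le_mul ?_ (Real.rpow_le_rpow h0 hV.2 (by positivity)) (Real.rpow_nonneg h0 _)
      (sq_nonneg _)
    exact pow_le_pow_left₀ (norm_nonneg _) (hgK _) 2
  have hL2 : MemLp f2 (ENNReal.ofReal q) (PX X c) := by
    refine MemLp.of_bound hm2.aestronglyMeasurable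
      (((1 / 2 : ℝ) ^ Fintype.card X) ^ (-(1 / p))) ?_
    filter_upwards [hJae] with V hV
    have h0 : 0 ≤ Jb (B : Set X) c b t V := hlow.le.trans hV.1
    rw [Real.norm_eq_abs, abs_of_nonneg (Real.rpow_nonneg h0 _)]
    exact Real.rpow_le_rpow_of_nonpos hlow hV.1 (by
      have : 0 < 1 / p := by positivity
      linarith)
  have hH := integral_mul_le_Lp_mul_Lq_of_nonneg hq hpos1 hpos2 hL1 hL2
  have hprod : ∫ V, ‖g (shf (B : Set X) c b V t)‖ ^ 2 ∂(PX X c) = ∫ V, f1 V * f2 V ∂(PX X c) := by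
    refine integral_congr_ae ?_
    filter_upwards [hJae] with V hV
    have h0 : 0 < Jb (B : Set X) c b t V := hlow.trans_le hV.1
    rw [hf1, hf2]
    simp only
    rw [mul_assoc, ← Real.rpow_add h0, add_neg_cancel, Real.rpow_zero, mul_one]
  rw [hprod]
  refine hH.trans ?_
  -- first factor
  have hA : ∫ V, f1 V ^ p ∂(PX X c) = ∫ V, (‖g V‖ ^ 2) ^ p ∂(PX X c) := by
    rw [← holder_jac_real (B : Set X) hc hs (F := fun V => (‖g V‖ ^ 2) ^ p)
      ((hng.pow 2).measurable.pow_const _) (fun V => Real.rpow_nonneg (sq_nonneg _) _)]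
    refine integral_congr_ae ?_
    filter_upwards [hJae] with V hV
    have h0 : 0 < Jb (B : Set X) c b t V := hlow.trans_le hV.1
    rw [hf1]
    simp only
    rw [Real.mul_rpow (sq_nonneg _) (Real.rpow_nonneg h0.le _), ← Real.rpow_mul h0.le,
      one_div_mul_cancel hp0.ne', Real.rpow_one]
  have hint2 : Integrable (fun V => ‖g V‖ ^ 2) (PX X c) := by
    refine Integrable.of_bound (hng.pow 2).measurable.aestronglyMeasurable (Kb ^ 2) ?_
    refine Filter.Eventually.of_forall fun V => ?_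
    rw [Real.norm_eq_abs, abs_of_nonneg (sq_nonneg _)]
    exact pow_le_pow_left₀ (norm_nonneg _) (hgK _) 2
  have hKb2 : 0 < Kb ^ 2 := by positivity
  have hB : ∫ V, (‖g V‖ ^ 2) ^ p ∂(PX X c)
      ≤ (Kb ^ 2) ^ p * ((∫ V, ‖g V‖ ^ 2 ∂(PX X c)) / Kb ^ 2) := by
    have h1 : ∀ V, (‖g V‖ ^ 2) ^ p ≤ (Kb ^ 2) ^ (p - 1) * ‖g V‖ ^ 2 := by
      intro V
      rcases (sq_nonneg ‖g V‖).eq_or_lt with h | h
      · rw [← h, Real.zero_rpow hp0.ne', mul_zero]
      · have h2 : (‖g V‖ ^ 2) ^ p = (‖g V‖ ^ 2) ^ (p - 1) * ‖g V‖ ^ 2 := by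
          rw [Real.rpow_sub_one h.ne', div_mul_cancel₀ _ h.ne']
        rw [h2]
        refine mul_le_mul_of_nonneg_right ?_ h.le
        exact Real.rpow_le_rpow h.le (pow_le_pow_left₀ (norm_nonneg _) (hgK _) 2) hp1.le
    calc ∫ V, (‖g V‖ ^ 2) ^ p ∂(PX X c)
        ≤ ∫ V, (Kb ^ 2) ^ (p - 1) * ‖g V‖ ^ 2 ∂(PX X c) := by
          refine integral_mono_of_nonneg
            (Filter.Eventually.of_forall fun V => Real.rpow_nonneg (sq_nonneg _) _)
            (hint2.const_mul _) (Filter.Eventually.of_forall h1)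
      _ = (Kb ^ 2) ^ (p - 1) * ∫ V, ‖g V‖ ^ 2 ∂(PX X c) := integral_const_mul _ _
      _ = (Kb ^ 2) ^ p * ((∫ V, ‖g V‖ ^ 2 ∂(PX X c)) / Kb ^ 2) := by
          rw [Real.rpow_sub_one hKb2.ne']
          ring
  have hI0 : 0 ≤ (∫ V, ‖g V‖ ^ 2 ∂(PX X c)) / Kb ^ 2 :=
    div_nonneg (integral_nonneg fun V => sq_nonneg _) hKb2.le
  have hF1 : (∫ V, f1 V ^ p ∂(PX X c)) ^ (1 / p)
      ≤ Kb ^ 2 * ((∫ V, ‖g V‖ ^ 2 ∂(PX X c)) / Kb ^ 2) ^ (1 / p) := by
    rw [hA]
    refine (Real.rpow_le_rpow (integral_nonneg fun V => Real.rpow_nonneg (sq_nonneg _) _) hB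
      (by positivity)).trans ?_
    rw [Real.mul_rpow (Real.rpow_nonneg hKb2.le _) hI0, ← Real.rpow_mul hKb2.le,
      mul_one_div_cancel hp0.ne', Real.rpow_one]
  -- second factor
  have hC : ∫ V, f2 V ^ q ∂(PX X c) = ∫ V, (Jb (B : Set X) c b t V) ^ (-(1 / (p - 1))) ∂(PX X c) := by
    refine integral_congr_ae ?_
    filter_upwards [hJae] with V hV
    have h0 : 0 < Jb (B : Set X) c b t V := hlow.trans_le hV.1
    rw [hf2]
    simp only
    rw [← Real.rpow_mul h0.le]
    congr 1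
    rw [hqdef]
    field_simp
  have hF2 : (∫ V, f2 V ^ q ∂(PX X c)) ^ (1 / q)
      ≤ Real.exp (Ca * (t * b / c) ^ 2 * B.card) := by
    rw [hC]
    have h0 : 0 ≤ ∫ V, (Jb (B : Set X) c b t V) ^ (-(1 / (p - 1))) ∂(PX X c) := by
      refine integral_nonneg_of_ae ?_
      filter_upwards [hJae] with V hV
      exact Real.rpow_nonneg (hlow.le.trans hV.1) _
    refine (Real.rpow_le_rpow h0 hJe (by positivity)).trans ?_
    have h1 : 1 ≤ Real.exp (Ca * (t * b / c) ^ 2 * B.card) :=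
      Real.one_le_exp (by positivity)
    calc Real.exp (Ca * (t * b / c) ^ 2 * B.card) ^ (1 / q)
        ≤ Real.exp (Ca * (t * b / c) ^ 2 * B.card) ^ (1 : ℝ) :=
          Real.rpow_le_rpow_of_exponent_le h1 hq1
      _ = _ := Real.rpow_one _
  refine mul_le_mul hF1 hF2 ?_ (mul_nonneg hKb2.le (Real.rpow_nonneg hI0 _))
  refine Real.rpow_nonneg (integral_nonneg_of_ae ?_) _
  filter_upwards [hpos2] with V hV
  exact Real.rpow_nonneg hV _

end Pool.Agent.Lib.MP_562b47_mp.Str
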