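import Pool.Agent.Lib.MP_562b47_mp.CNFinal

/-!
Module STR-SingGen (MP_562b47_mp, strips).  The last step of the planar Cauchy noise theorem for an
arbitrary law `P` of the noise.

PROOF.  Copy `prob_gr_large` (end of `CNLimit.lean`) and `CNFinal.lean` (`integrable_mi`, `mean_mi_small`,
`mean_ea`, `tendsto_mean_ea`, `ae_dens`, `main`), replace the law `PC Λ` by a general probability
measure `P` on `Λ → ℝ`, and the use of `D.tau_small L` by the hypothesis `hτ`.  Nothing in these proofs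
uses the special law: the deterministic facts (`weak_entry`, `tendsto_ea`, `gr_im_le`, `meas_gr`,
`meas_fI`, ...) hold for every noise configuration.
-/

open MeasureTheory Filter Topology Complex Set
open scoped InnerProductSpace ENNReal

namespace Pool.Agent.Lib.MP_562b47_mp.Str

open Pool.Agent.Lib.MP_562b47_mp Pool.Agent.Lib.MP_562b47_mp.CN

section gen

variable {Λ : Type*} [DecidableEq Λ] (D : Data Λ) [Countable Λ] (P : Measure (Λ → ℝ))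
  [IsProbabilityMeasure P]

private theorem sing_prob_gr_large {K : ℝ} (hK : 0 < K) {t : ℝ} (ht : 0 < t) (ht1 : t ≤ 1) :
    (P.prod kap).real {p | 2 * K ^ 2 < ‖D.gr p.1 (Zt t p.2)‖} ≤ 12 / K := by
  have hms : MeasurableSet {p : (Λ → ℝ) × ℝ | 2 * K ^ 2 < ‖D.gr p.1 (Zt t p.2)‖} :=
    measurableSet_lt measurable_const (D.meas_gr ht).norm
  rw [Measure.real, Measure.prod_apply hms]
  refine ENNReal.toReal_le_of_le_ofReal (by positivity) ?_
  calc ∫⁻ X, kap (Prod.mk X ⁻¹' {p | 2 * K ^ 2 < ‖D.gr p.1 (Zt t p.2)‖}) ∂P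
      ≤ ∫⁻ _, ENNReal.ofReal (12 / K) ∂P := by
        refine lintegral_mono fun X => ?_
        have h := weak_entry D.hT D.hr (adm_real (D.pot X)) D.x0 D.x0 ht ht1 hK
        exact (ENNReal.le_ofReal_iff_toReal_le (measure_ne_top _ _) (by positivity)).mpr h
    _ = ENNReal.ofReal (12 / K) := by simp

private theorem sing_int_fI {t : ℝ} (ht : 0 < t) :
    Integrable (fun p : (Λ → ℝ) × ℝ => ‖D.fI p.1 (Zt t p.2)‖ ^ 2) (P.prod kap) :=
  Integrable.of_bound (C := 1) ((D.meas_fI ht).norm.pow_const 2).aestronglyMeasurable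
    (ae_of_all _ fun p => by
      rw [Real.norm_of_nonneg (by positivity)]
      exact pow_le_one₀ (norm_nonneg _) (D.norm_fI_le p.1 (Zt_im_pos ht p.2)))

private theorem sing_mean_mi_small
    (hτ : ∀ δ : ℝ, 0 < δ → ∃ t0 : ℝ, 0 < t0 ∧ t0 ≤ 1 ∧ ∀ t, 0 < t → t < t0 →
      1 - ∫ p : (Λ → ℝ) × ℝ, ‖D.fI p.1 (Zt t p.2)‖ ^ 2 ∂(P.prod kap) ≤ δ) {δ : ℝ} (hδ : 0 < δ) :
    ∃ t0 : ℝ, 0 < t0 ∧ ∀ t, 0 < t → t < t0 →
      ∫ p : (Λ → ℝ) × ℝ, D.mi p.1 (Zt t p.2) ∂(P.prod kap) ≤ δ := by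
  set K := 24 / δ with hK
  have hK0 : 0 < K := by positivity
  set M := 2 * K ^ 2 with hM
  have hM0 : 0 < M := by positivity
  obtain ⟨t0, ht0, ht01, h⟩ := hτ (δ / 2 / ((1 + M) ^ 2 / 4)) (by positivity)
  refine ⟨t0, ht0, fun t ht htt => ?_⟩
  have ht1 : t ≤ 1 := (htt.trans_le ht01).le
  have h1 := h t ht htt
  set Q := P.prod kap with hQ
  set Z := {p : (Λ → ℝ) × ℝ | M < ‖D.gr p.1 (Zt t p.2)‖} with hZ
  have hms : MeasurableSet Z := measurableSet_lt measurable_const (D.meas_gr ht).norm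
  have hpt : ∀ p : (Λ → ℝ) × ℝ, D.mi p.1 (Zt t p.2) ≤ Z.indicator (fun _ => (1:ℝ)) p
      + (1 + M) ^ 2 / 4 * (1 - ‖D.fI p.1 (Zt t p.2)‖ ^ 2) := by
    intro p
    have hz := Zt_im_pos ht p.2
    have h2 : 0 ≤ 1 - ‖D.fI p.1 (Zt t p.2)‖ ^ 2 := by
      have := pow_le_one₀ (n := 2) (norm_nonneg _) (D.norm_fI_le p.1 hz)
      linarith
    by_cases hp : p ∈ Z
    · rw [indicator_of_mem hp]
      have := D.mi_le_one p.1 (Zt t p.2)
      have : 0 ≤ (1 + M) ^ 2 / 4 * (1 - ‖D.fI p.1 (Zt t p.2)‖ ^ 2) := by positivity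
      linarith
    · rw [indicator_of_notMem hp, zero_add]
      have hp' : ‖D.gr p.1 (Zt t p.2)‖ ≤ M := not_lt.mp hp
      have h3 : D.mi p.1 (Zt t p.2) ≤ (D.gr p.1 (Zt t p.2)).im := min_le_right _ _
      refine h3.trans ((D.gr_im_le p.1 hz).trans ?_)
      have h4 : (1 + ‖D.gr p.1 (Zt t p.2)‖) ^ 2 ≤ (1 + M) ^ 2 := by gcongr
      nlinarith
  have hi0 : Integrable (fun p : (Λ → ℝ) × ℝ => D.mi p.1 (Zt t p.2)) Q :=
    Integrable.of_bound (C := 1) (D.measurable_mi' ht).aestronglyMeasurable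
      (ae_of_all _ fun p => D.norm_mi_le p.1 (Zt_im_pos ht p.2))
  have hi1 : Integrable (Z.indicator (fun _ => (1:ℝ))) Q := (integrable_const (1:ℝ)).indicator hms
  have hi2 : Integrable (fun p : (Λ → ℝ) × ℝ => 1 - ‖D.fI p.1 (Zt t p.2)‖ ^ 2) Q :=
    (integrable_const _).sub (sing_int_fI D P ht)
  have hiu : ∫ _p : (Λ → ℝ) × ℝ, (1 : ℝ) ∂Q = 1 := by simp
  have hiz : ∫ p in Z, (1 : ℝ) ∂Q = Q.real Z := by simp
  calc ∫ p : (Λ → ℝ) × ℝ, D.mi p.1 (Zt t p.2) ∂Q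
      ≤ ∫ p : (Λ → ℝ) × ℝ, (Z.indicator (fun _ => (1:ℝ)) p
        + (1 + M) ^ 2 / 4 * (1 - ‖D.fI p.1 (Zt t p.2)‖ ^ 2)) ∂Q :=
        integral_mono hi0 (hi1.add (hi2.const_mul _)) hpt
    _ = Q.real Z + (1 + M) ^ 2 / 4
          * (1 - ∫ p : (Λ → ℝ) × ℝ, ‖D.fI p.1 (Zt t p.2)‖ ^ 2 ∂Q) := by
        rw [integral_add hi1 (hi2.const_mul _), integral_const_mul, integral_indicator hms,
          integral_sub (integrable_const _) (sing_int_fI D P ht), hiu, hiz]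
    _ ≤ 12 / K + (1 + M) ^ 2 / 4 * (δ / 2 / ((1 + M) ^ 2 / 4)) := by
        refine add_le_add ?_ (mul_le_mul_of_nonneg_left h1 (by positivity))
        exact sing_prob_gr_large D P hK0 ht ht1
    _ = δ := by
        have e1 : 12 / K = δ / 2 := by rw [hK]; field_simp; norm_num
        have e2 : (1 + M) ^ 2 / 4 * (δ / 2 / ((1 + M) ^ 2 / 4)) = δ / 2 := by
          have : (1 + M) ^ 2 / 4 ≠ 0 := by positivity
          field_simp
        rw [e1, e2]; ring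

private theorem sing_mean_ea {t : ℝ} (ht : 0 < t) :
    ∫ X, D.ea t X ∂P = ∫ p : (Λ → ℝ) × ℝ, D.mi p.1 (Zt t p.2) ∂(P.prod kap) := by
  unfold Data.ea
  symm
  refine integral_prod _ (Integrable.of_bound (C := 1) ?_
    (ae_of_all _ fun p => D.norm_mi_le _ (Zt_im_pos ht _)))
  exact (D.measurable_mi' ht).aestronglyMeasurable

private theorem sing_tendsto_mean_ea
    (hτ : ∀ δ : ℝ, 0 < δ → ∃ t0 : ℝ, 0 < t0 ∧ t0 ≤ 1 ∧ ∀ t, 0 < t → t < t0 →
      1 - ∫ p : (Λ → ℝ) × ℝ, ‖D.fI p.1 (Zt t p.2)‖ ^ 2 ∂(P.prod kap) ≤ δ)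
    {t : ℕ → ℝ} (ht : ∀ k, 0 < t k) (ht0 : Tendsto t atTop (𝓝[>] 0)) :
    Tendsto (fun k => ∫ X, D.ea (t k) X ∂P) atTop (𝓝 0) := by
  rw [Metric.tendsto_atTop]
  intro δ hδ
  obtain ⟨t0, ht0', h⟩ := sing_mean_mi_small D P hτ (half_pos hδ)
  have h2 : Tendsto t atTop (𝓝 0) := ht0.mono_right nhdsWithin_le_nhds
  obtain ⟨N, hN⟩ := (h2.eventually (gt_mem_nhds ht0')).exists_forall_of_atTop
  refine ⟨N, fun k hk => ?_⟩
  have h3 := h _ (ht k) (hN k hk)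
  rw [Real.dist_eq, sub_zero,
    abs_of_nonneg (integral_nonneg fun X => D.ea_nonneg (ht k) X), sing_mean_ea D P (ht k)]
  linarith

private theorem sing_ae_dens
    (hτ : ∀ δ : ℝ, 0 < δ → ∃ t0 : ℝ, 0 < t0 ∧ t0 ≤ 1 ∧ ∀ t, 0 < t → t < t0 →
      1 - ∫ p : (Λ → ℝ) × ℝ, ‖D.fI p.1 (Zt t p.2)‖ ^ 2 ∂(P.prod kap) ≤ δ) :
    ∀ᵐ X ∂P, ∃ μ : Measure ℝ, IsFiniteMeasure μ ∧ Rep (RR D.T (D.pot X)) (eb D.x0) μ ∧
      ∀ᵐ E ∂kap, Dens μ E = 0 := by
  obtain ⟨t, ht, ht0'⟩ := exists_seq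
  have ht0 := tendsto_within ht ht0'
  have hmean := sing_tendsto_mean_ea D P hτ ht ht0
  have hi : ∀ k, Integrable (D.ea (t k)) P := fun k => by
    refine Integrable.of_bound (C := 1) (D.measurable_ea (ht k)).aestronglyMeasurable
      (ae_of_all _ fun X => ?_)
    rw [Real.norm_of_nonneg (D.ea_nonneg (ht k) X)]
    unfold Data.ea
    calc ∫ E, D.mi X (Zt (t k) E) ∂kap ≤ ∫ _ : ℝ, (1:ℝ) ∂kap := by
          refine integral_mono_of_nonneg (ae_of_all _ fun E => D.mi_nonneg X (Zt_im_pos (ht k) E))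
            (integrable_const _) (ae_of_all _ fun E => D.mi_le_one X _)
      _ = 1 := by simp
  have hlint : ∫⁻ X, liminf (fun k => ENNReal.ofReal (D.ea (t k) X)) atTop ∂P = 0 := by
    refine le_antisymm ?_ (zero_le)
    refine (lintegral_liminf_le fun k => (D.measurable_ea (ht k)).ennreal_ofReal).trans ?_
    have h1 : ∀ k, ∫⁻ X, ENNReal.ofReal (D.ea (t k) X) ∂P
        = ENNReal.ofReal (∫ X, D.ea (t k) X ∂P) := fun k =>
      (ofReal_integral_eq_lintegral_ofReal (hi k)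
        (ae_of_all _ fun X => D.ea_nonneg (ht k) X)).symm
    simp only [h1]
    have h2 : Tendsto (fun k => ENNReal.ofReal (∫ X, D.ea (t k) X ∂P)) atTop
        (𝓝 (ENNReal.ofReal 0)) := ENNReal.tendsto_ofReal hmean
    rw [h2.liminf_eq]
    simp
  have hm : Measurable fun X => liminf (fun k => ENNReal.ofReal (D.ea (t k) X)) atTop :=
    Measurable.liminf fun k => (D.measurable_ea (ht k)).ennreal_ofReal
  have hae := (lintegral_eq_zero_iff hm).mp hlint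
  filter_upwards [hae] with X hX
  obtain ⟨μ, hfin, -, hrep⟩ := (D.pres X).exists_rep (eb D.x0)
  refine ⟨μ, hfin, hrep, ?_⟩
  have h1 := D.tendsto_ea X hrep ht ht0
  have h2 : Tendsto (fun k => ENNReal.ofReal (D.ea (t k) X)) atTop
      (𝓝 (ENNReal.ofReal (∫ E, min 1 (Dens μ E) ∂kap))) := ENNReal.tendsto_ofReal h1
  rw [h2.liminf_eq] at hX
  have h3 : ∫ E, min 1 (Dens μ E) ∂kap = 0 := by
    have h4 : ∫ E, min 1 (Dens μ E) ∂kap ≤ 0 := ENNReal.ofReal_eq_zero.mp hX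
    exact le_antisymm h4 (integral_nonneg fun E => le_min zero_le_one (Dens_nonneg μ E))
  have hi2 : Integrable (fun E => min 1 (Dens μ E)) kap :=
    integrable_min_one (measurable_Dens μ) fun E => Dens_nonneg μ E
  have h5 := (integral_eq_zero_iff_of_nonneg
    (fun E => le_min zero_le_one (Dens_nonneg μ E)) hi2).mp h3
  filter_upwards [h5] with E hE
  have hE' : min 1 (Dens μ E) = 0 := hE
  rcases min_choice 1 (Dens μ E) with h | h
  · rw [h] at hE'; norm_num at hE'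
  · rwa [h] at hE'

end gen

theorem sing_gen {Λ : Type*} [DecidableEq Λ] [Countable Λ] {T : L2 Λ →L[ℂ] L2 Λ}
    (hT : IsSelfAdjoint T) (hr : ∀ u, T (star u) = star (T u)) (W ε : Λ → ℝ) (hε : ∀ x, 0 ≤ ε x)
    (P : Measure (Λ → ℝ)) [IsProbabilityMeasure P]
    (hτ : ∀ x0 : Λ, ∀ δ : ℝ, 0 < δ → ∃ t0 : ℝ, 0 < t0 ∧ t0 ≤ 1 ∧ ∀ t, 0 < t → t < t0 →
      1 - ∫ p : (Λ → ℝ) × ℝ, ‖(⟨T, hT, hr, W, ε, hε, x0⟩ : Data Λ).fI p.1 (Zt t p.2)‖ ^ 2
        ∂(P.prod kap) ≤ δ) :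
    ∀ᵐ X ∂P, ∀ ψ : L2 Λ, ∃ μ : Measure ℝ, IsFiniteMeasure μ ∧
      Rep (RR T (fun x => W x + ε x * X x)) ψ μ ∧ μ ⟂ₘ volume := by
  have h1 : ∀ x0 : Λ, ∀ᵐ X ∂P, ∃ μ : Measure ℝ, IsFiniteMeasure μ ∧
      Rep (RR T (fun x => W x + ε x * X x)) (eb x0) μ ∧ ∀ᵐ E ∂kap, Dens μ E = 0 := fun x0 =>
    sing_ae_dens (⟨T, hT, hr, W, ε, hε, x0⟩ : Data Λ) P (hτ x0)
  filter_upwards [ae_all_iff.mpr h1] with X hX ψ
  have hp : PRes (RR T (fun x => W x + ε x * X x)) :=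
    { res := fun _ _ hz hw u => RR_res hT hr _ hz hw u
      adj := fun _ hz u v => RR_adj _ hz u v }
  exact hp.singular_of_total (e := eb) tot_eb hX ψ

end Pool.Agent.Lib.MP_562b47_mp.Str
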