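import Pool.Agent.Lib.MP_562b47_mp.Str.Approx
import Pool.Agent.Lib.MP_562b47_mp.Str.SingGen

/-!
Module STR-InfB (MP_562b47_mp, strips).  The infinite system: the mean absorption vanishes, and the
spectrum is almost surely purely singular.

`Pinf = Measure.infinitePi (fun _ => unif c)` on `Λ → ℝ`.
PROOF of `inf_bound`.  `ode` for the truncations (`finS_OD`), `n ≥ N`:
`1 - ∫ ‖Sv_n‖² ∂(PX (Lay ℓ n) c) ≤ 4 (wid N)² Λ'^ε/(N - ℓ x0)`.  The image of `Pinf` under the restriction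
`X ↦ (fun x : Lay ℓ n => X x.1)` is `PX (Lay ℓ n) c` (Mathlib: `Measure.infinitePi_map_restrict`-type
statement for a finite set of coordinates, or `Measure.pi_eq` on boxes and `infinitePi_pi`), so the same
holds with `∫ ‖Sv_n (X|)‖² ∂Pinf`; let `n → ∞` (`approx`, dominated convergence, `‖Sv‖² ≤ 1`).
PROOF of `tau`.  Given `δ' > 0`.  Choose `RE` with `kap {|E| > RE} ≤ δ'/2`; `ε := min δ 1 / 2` hmm: take
`ε = δ/2` if `δ ≤ 1` (w.l.o.g. `δ ≤ 1/2`, since the hypothesis `wid N ≤ N^(1/2-δ)` gets weaker for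
smaller `δ`, `N ≥ 1`); `Λ0, Cη` from `ode` with `R + RW + RE`, `Δ + 1`.  For infinitely many `N`
`wid N ≤ N^(1/2-δ)`; take such an `N > ℓ x0` large, `Λ' = 2 N²`: `(N+1) wid N ≤ 2N * N ≤ Λ'`, and
`4 (wid N)² Λ'^ε/(N - ℓ x0) ≤ 4 N^(1-2δ) 2 N^δ/(N/2) = 16 N^(-δ) ≤ δ'/2`.  For `t` with
`t (1 + RE²) ≤ exp (-Cη Λ')` and `|E| ≤ RE`: `z = Zt t E` has `|Re z| ≤ |E| ≤ RE`,
`0 < Im z = t(1+E²)/(1+t²E²) ≤ t (1+RE²)`.  So `∫ (1 - ‖fI‖²) ∂(Pinf × kap) ≤ kap{|E|>RE} + δ'/2 ≤ δ'`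
(Fubini; `0 ≤ 1 - ‖fI‖² ≤ 1`; joint measurability `meas_fI`).
`inf_singular`: `sing_gen` with `ε = 1`.
-/

open MeasureTheory Matrix Complex Filter Topology

namespace Pool.Agent.Lib.MP_562b47_mp.Str

open Pool.Agent.Lib.MP_562b47_mp Pool.Agent.Lib.MP_562b47_mp.CN

variable {Λ : Type} [DecidableEq Λ] [Countable Λ] {T : L2 Λ →L[ℂ] L2 Λ} {t : Λ → Λ → ℝ}
  {ℓ : Λ → ℕ} {up : Λ → Λ} {R : ℝ} {Δ : ℕ}

/-- the law of the potential on an infinite set of sites -/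
noncomputable def Pinf (Λ : Type) (c : ℝ) : Measure (Λ → ℝ) := Measure.infinitePi fun _ => unif c

theorem isProb_Pinf {c : ℝ} (hc : 0 < c) : IsProbabilityMeasure (Pinf Λ c) := by
  have := isProb_unif hc
  unfold Pinf
  infer_instance

omit [DecidableEq Λ] [Countable Λ] in
private theorem InfB_map {c : ℝ} (hc : 0 < c) (n : ℕ) [Fintype (Lay ℓ n)] :
    (Pinf Λ c).map (fun X (x : Lay ℓ n) => X x.1) = PX (Lay ℓ n) c := by
  have := isProb_unif hc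
  unfold Pinf PX
  have h1 := Measure.infinitePi_map_restrict' (μ := fun _ : Λ => unif c) (I := {x | ℓ x ≤ n})
  have h2 : Measure.infinitePi (fun _ : Lay ℓ n => unif c) = Measure.pi fun _ => unif c :=
    Measure.infinitePi_eq_pi _
  rw [← h2]
  exact h1

omit [Countable Λ] in
private theorem InfB_trunc {c : ℝ} (hc : 0 < c) (h : Gph T t ℓ up R Δ) (W : Λ → ℝ) (x0 : Λ)
    {z : ℂ} (hz : 0 < z.im) (n : ℕ) :
    letI := h.fintype n
    ∫ V, ‖(finS t ℓ W z.re z.im x0 n).Sv fun x => ((V x : ℝ) : ℂ)‖ ^ 2 ∂(PX (Lay ℓ n) c) =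
      ∫ X, ‖(finS t ℓ W z.re z.im x0 n).Sv fun x => ((X x.1 : ℝ) : ℂ)‖ ^ 2 ∂(Pinf Λ c) := by
  letI := h.fintype n
  have hb := (Sys.bmeas_Sv (finS_good h W z.re hz x0 n)).norm_sq
  rw [← InfB_map (Λ := Λ) (ℓ := ℓ) hc n, integral_map]
  · exact (measurable_pi_lambda _ fun x => measurable_pi_apply _).aemeasurable
  · exact hb.meas.aestronglyMeasurable

theorem inf_bound {c RW RE ε : ℝ} (hc : 0 < c) (hR : 0 ≤ R) (hRW : 0 ≤ RW) (hRE : 0 ≤ RE)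
    (hε : 0 < ε) (hε1 : ε ≤ 1) (h : Gph T t ℓ up R Δ) {W : Λ → ℝ} (hW : ∀ x, |W x| ≤ RW)
    (x0 : Λ) : ∃ Λ0 Cη : ℝ, 1 ≤ Λ0 ∧ 0 < Cη ∧ ∀ (Λ' : ℝ) (N : ℕ) (z : ℂ), Λ0 ≤ Λ' → ℓ x0 < N →
      ((N : ℝ) + 1) * wid ℓ N ≤ Λ' → 0 < z.im → z.im ≤ Real.exp (-(Cη * Λ')) → |z.re| ≤ RE →
      1 - ∫ X, ‖(h.D W x0).fI X z‖ ^ 2 ∂(Pinf Λ c)
        ≤ 4 * ((wid ℓ N : ℝ) ^ 2 * Λ' ^ ε) / ((N : ℝ) - ℓ x0) := by
  have := isProb_Pinf (Λ := Λ) hc
  obtain ⟨Λ0, Cη, hΛ0, hCη, hode⟩ := ode (R := R + RW + RE) hc (by positivity) hε hε1 (Δ + 1)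
  refine ⟨Λ0, Cη, hΛ0, hCη, fun Λ' N z hΛ' hN hw hz0 hzη hzr => ?_⟩
  have hlim : Tendsto (fun n => letI := h.fintype n
      ∫ X, ‖(finS t ℓ W z.re z.im x0 n).Sv fun x => ((X x.1 : ℝ) : ℂ)‖ ^ 2 ∂(Pinf Λ c)) atTop
      (𝓝 (∫ X, ‖(h.D W x0).fI X z‖ ^ 2 ∂(Pinf Λ c))) := by
    refine tendsto_integral_of_dominated_convergence (fun _ => (1 : ℝ)) (fun n => ?_)
      (integrable_const _) (fun n => ae_of_all _ fun X => ?_) (ae_of_all _ fun X => ?_)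
    · letI := h.fintype n
      have hb := (Sys.bmeas_Sv (finS_good h W z.re hz0 x0 n)).norm_sq
      have hb2 := hb.comp (φ := fun (X : Λ → ℝ) (x : Lay ℓ n) => X x.1)
        (measurable_pi_lambda _ fun x => measurable_pi_apply _)
      exact hb2.meas.aestronglyMeasurable
    · letI := h.fintype n
      rw [Real.norm_of_nonneg (by positivity)]
      have h1 := Sys.norm_Sv_sq_le (finS_good h W z.re hz0 x0 n)
        (adm_real fun x : Lay ℓ n => X x.1)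
      simpa using h1
    · exact (approx h W x0 X hz0).pow 2
  refine le_of_tendsto (hlim.const_sub 1) ?_
  filter_upwards [eventually_ge_atTop N] with n hn
  letI := h.fintype n
  obtain ⟨upF, hOD⟩ := finS_OD (c := c) h hW hzr hz0 hzη hN hn hw
  have h1 := hode (Lay ℓ n) (Fin 1) (finS t ℓ W z.re z.im x0 n) (fun x => ℓ x.1) upF z.im Λ' N
    (wid ℓ N) (ℓ x0) hΛ' hOD
  rw [InfB_trunc hc h W x0 hz0 n] at h1
  simpa using h1

private theorem InfB_tail {δ : ℝ} (hδ : 0 < δ) : ∃ RE : ℝ, 0 ≤ RE ∧ kap.real {E | RE < |E|} ≤ δ := by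
  have h1 : Tendsto (fun n : ℕ => kap {E : ℝ | (n : ℝ) < |E|}) atTop
      (𝓝 (kap (⋂ n : ℕ, {E : ℝ | (n : ℝ) < |E|}))) := by
    refine tendsto_measure_iInter_atTop (fun n => ?_) ?_ ⟨0, measure_ne_top _ _⟩
    · exact (measurableSet_lt measurable_const (by fun_prop)).nullMeasurableSet
    · intro m n hmn E hE
      have : (m : ℝ) ≤ n := by exact_mod_cast hmn
      exact lt_of_le_of_lt this hE
  have h2 : (⋂ n : ℕ, {E : ℝ | (n : ℝ) < |E|}) = ∅ := by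
    ext E
    simp only [Set.mem_iInter, Set.mem_ofPred_eq, Set.mem_empty_iff_false, iff_false, not_forall,
      not_lt]
    exact exists_nat_ge _
  rw [h2, measure_empty] at h1
  have h3 := h1.eventually_le_const (show (0 : ENNReal) < ENNReal.ofReal δ by positivity)
  obtain ⟨n, hn⟩ := h3.exists
  refine ⟨n, Nat.cast_nonneg _, ?_⟩
  exact ENNReal.toReal_le_of_le_ofReal hδ.le hn

private theorem InfB_Zt {t RE E : ℝ} (ht : 0 < t) (ht1 : t ≤ 1) (hE : |E| ≤ RE) :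
    |(Zt t E).re| ≤ RE ∧ (Zt t E).im ≤ t * (1 + RE ^ 2) := by
  have hE2 : E ^ 2 ≤ RE ^ 2 := by
    rw [← sq_abs E]
    exact pow_le_pow_left₀ (abs_nonneg _) hE 2
  have hd : 1 ≤ 1 + t ^ 2 * E ^ 2 := by nlinarith [mul_nonneg (sq_nonneg t) (sq_nonneg E)]
  have ht2 : 0 ≤ 1 - t ^ 2 := by nlinarith
  constructor
  · simp only [Zt]
    rw [abs_div, abs_mul, abs_of_nonneg ht2, abs_of_pos (by linarith : 0 < 1 + t ^ 2 * E ^ 2),
      div_le_iff₀ (by linarith)]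
    have h1 : |E| * (1 - t ^ 2) ≤ |E| * 1 :=
      mul_le_mul_of_nonneg_left (by nlinarith [sq_nonneg t]) (abs_nonneg _)
    have h2 : RE * 1 ≤ RE * (1 + t ^ 2 * E ^ 2) :=
      mul_le_mul_of_nonneg_left hd ((abs_nonneg _).trans hE)
    linarith
  · simp only [Zt]
    rw [div_le_iff₀ (by linarith)]
    have h1 : t * (1 + E ^ 2) ≤ t * (1 + RE ^ 2) := mul_le_mul_of_nonneg_left (by linarith) ht.le
    have h2 : t * (1 + RE ^ 2) * 1 ≤ t * (1 + RE ^ 2) * (1 + t ^ 2 * E ^ 2) :=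
      mul_le_mul_of_nonneg_left hd (by positivity)
    linarith

private theorem InfB_num {δ δ' Λ0 : ℝ} (hδ : 0 < δ) (hδ' : 0 < δ') (l : ℕ) :
    ∀ᶠ N : ℕ in atTop, l < N ∧ 2 * l ≤ N ∧ Λ0 ≤ 2 * (N : ℝ) ^ 2 ∧ 16 * (N : ℝ) ^ (-δ) ≤ δ' := by
  have h1 : Tendsto (fun N : ℕ => (N : ℝ)) atTop atTop := tendsto_natCast_atTop_atTop
  have h2 : Tendsto (fun N : ℕ => 2 * (N : ℝ) ^ 2) atTop atTop :=
    ((tendsto_pow_atTop two_ne_zero).comp h1).const_mul_atTop two_pos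
  have h3 : Tendsto (fun N : ℕ => 16 * (N : ℝ) ^ (-δ)) atTop (𝓝 (16 * 0)) :=
    ((tendsto_rpow_neg_atTop hδ).comp h1).const_mul 16
  rw [mul_zero] at h3
  filter_upwards [eventually_gt_atTop l, eventually_ge_atTop (2 * l),
    h2.eventually_ge_atTop Λ0, h3.eventually_le_const hδ'] with N a b c d
  exact ⟨a, b, c, d⟩

private theorem InfB_pow {δ w N l : ℝ} (hδ : 0 < δ) (hδ1 : δ ≤ 1) (hN : 1 ≤ N) (hw0 : 0 ≤ w)
    (hw : w ≤ N ^ (1 / 2 - δ)) (hl : 0 ≤ l) (hlN : 2 * l ≤ N) :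
    4 * (w ^ 2 * (2 * N ^ 2) ^ (δ / 2)) / (N - l) ≤ 16 * N ^ (-δ) := by
  have hN0 : 0 < N := by linarith
  have hd : 0 < N - l := by linarith
  rw [div_le_iff₀ hd]
  have h1 : w ^ 2 ≤ N ^ (1 - 2 * δ) := by
    calc w ^ 2 ≤ (N ^ (1 / 2 - δ)) ^ 2 := pow_le_pow_left₀ hw0 hw 2
      _ = N ^ (1 - 2 * δ) := by
        rw [← Real.rpow_natCast, ← Real.rpow_mul hN0.le]
        congr 1
        push_cast
        ring
  have h2 : (2 * N ^ 2) ^ (δ / 2) ≤ 2 * N ^ δ := by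
    rw [Real.mul_rpow (by norm_num) (by positivity)]
    have h3 : (2 : ℝ) ^ (δ / 2) ≤ 2 := by
      calc (2 : ℝ) ^ (δ / 2) ≤ 2 ^ (1 : ℝ) := Real.rpow_le_rpow_of_exponent_le one_le_two (by linarith)
        _ = 2 := Real.rpow_one _
    have h4 : (N ^ 2) ^ (δ / 2) = N ^ δ := by
      rw [← Real.rpow_natCast, ← Real.rpow_mul hN0.le]
      congr 1
      push_cast
      ring
    rw [h4]
    exact mul_le_mul_of_nonneg_right h3 (by positivity)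
  have h5 : N ^ (1 - 2 * δ) * N ^ δ = N * N ^ (-δ) := by
    rw [← Real.rpow_add hN0]
    nth_rewrite 2 [← Real.rpow_one N]
    rw [← Real.rpow_add hN0]
    congr 1
    ring
  calc 4 * (w ^ 2 * (2 * N ^ 2) ^ (δ / 2)) ≤ 4 * (N ^ (1 - 2 * δ) * (2 * N ^ δ)) := by gcongr
    _ = 8 * (N ^ (1 - 2 * δ) * N ^ δ) := by ring
    _ = 8 * N * N ^ (-δ) := by rw [h5]; ring
    _ ≤ 16 * (N - l) * N ^ (-δ) := by
        apply mul_le_mul_of_nonneg_right _ (by positivity)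
        linarith
    _ = 16 * N ^ (-δ) * (N - l) := by ring

private theorem InfB_tau {c RW δ : ℝ} (hc : 0 < c) (hR : 0 ≤ R) (hδ : 0 < δ)
    (h : Gph T t ℓ up R Δ) {W : Λ → ℝ} (hW : ∀ x, |W x| ≤ RW)
    (thin : ∀ n0 : ℕ, ∃ N, n0 ≤ N ∧ (wid ℓ N : ℝ) ≤ (N : ℝ) ^ (1 / 2 - δ)) (x0 : Λ) {δ' : ℝ}
    (hδ' : 0 < δ') : ∃ t0 : ℝ, 0 < t0 ∧ t0 ≤ 1 ∧ ∀ t, 0 < t → t < t0 →
      1 - ∫ p : (Λ → ℝ) × ℝ, ‖(h.D W x0).fI p.1 (Zt t p.2)‖ ^ 2 ∂((Pinf Λ c).prod kap) ≤ δ' := by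
  have := isProb_Pinf (Λ := Λ) hc
  obtain ⟨RE, hRE, htail⟩ := InfB_tail (half_pos hδ')
  have hRW : 0 ≤ RW := (abs_nonneg _).trans (hW x0)
  set δ1 := min δ 1 with hδ1
  have hδ10 : 0 < δ1 := lt_min hδ one_pos
  have hδ11 : δ1 ≤ 1 := min_le_right _ _
  obtain ⟨Λ0, Cη, hΛ0, hCη, hb⟩ := inf_bound (RE := RE) (ε := δ1 / 2) hc hR hRW hRE (by positivity)
    (by linarith) h hW x0
  obtain ⟨n0, hn0⟩ := eventually_atTop.mp (InfB_num (Λ0 := Λ0) hδ10 (half_pos hδ') (ℓ x0))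
  obtain ⟨N, hN, hwN⟩ := thin n0
  obtain ⟨hN1, hN2, hN3, hN4⟩ := hn0 N hN
  have hNone : (1 : ℝ) ≤ N := by
    have : 1 ≤ N := by omega
    exact_mod_cast this
  have hw1 : (wid ℓ N : ℝ) ≤ (N : ℝ) ^ (1 / 2 - δ1) :=
    hwN.trans (Real.rpow_le_rpow_of_exponent_le hNone (by have := min_le_left δ 1; linarith))
  have hw2 : (wid ℓ N : ℝ) ≤ N := by
    calc (wid ℓ N : ℝ) ≤ (N : ℝ) ^ (1 / 2 - δ1) := hw1
      _ ≤ (N : ℝ) ^ (1 : ℝ) := Real.rpow_le_rpow_of_exponent_le hNone (by linarith)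
      _ = N := Real.rpow_one _
  have hΛ' : ((N : ℝ) + 1) * wid ℓ N ≤ 2 * (N : ℝ) ^ 2 := by
    have h0 : (0 : ℝ) ≤ wid ℓ N := Nat.cast_nonneg _
    calc ((N : ℝ) + 1) * wid ℓ N ≤ (N + N) * N := by gcongr
      _ = 2 * (N : ℝ) ^ 2 := by ring
  have hB : ∀ z : ℂ, 0 < z.im → z.im ≤ Real.exp (-(Cη * (2 * (N : ℝ) ^ 2))) → |z.re| ≤ RE →
      1 - ∫ X, ‖(h.D W x0).fI X z‖ ^ 2 ∂(Pinf Λ c) ≤ δ' / 2 := by
    intro z hz1 hz2 hz3
    refine (hb (2 * (N : ℝ) ^ 2) N z hN3 hN1 hΛ' hz1 hz2 hz3).trans (le_trans ?_ hN4)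
    refine InfB_pow hδ10 hδ11 hNone (Nat.cast_nonneg _) hw1 (Nat.cast_nonneg _) ?_
    exact_mod_cast hN2
  set D := h.D W x0 with hD
  refine ⟨min 1 (Real.exp (-(Cη * (2 * (N : ℝ) ^ 2))) / (1 + RE ^ 2)), by positivity,
    min_le_left _ _, fun t ht htt => ?_⟩
  have ht1 : t ≤ 1 := (htt.trans_le (min_le_left _ _)).le
  have ht2 : t * (1 + RE ^ 2) ≤ Real.exp (-(Cη * (2 * (N : ℝ) ^ 2))) := by
    have := (htt.trans_le (min_le_right _ _)).le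
    rwa [le_div_iff₀ (by positivity)] at this
  have hint : Integrable (fun p : (Λ → ℝ) × ℝ => ‖D.fI p.1 (Zt t p.2)‖ ^ 2)
      ((Pinf Λ c).prod kap) :=
    Integrable.of_bound (C := 1) ((D.meas_fI ht).norm.pow_const 2).aestronglyMeasurable
      (ae_of_all _ fun p => by
        rw [Real.norm_of_nonneg (by positivity)]
        exact pow_le_one₀ (norm_nonneg _) (D.norm_fI_le p.1 (Zt_im_pos ht p.2)))
  rw [integral_prod_symm _ hint]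
  have hint2 : Integrable (fun E => ∫ X, ‖D.fI X (Zt t E)‖ ^ 2 ∂(Pinf Λ c)) kap :=
    hint.integral_prod_right
  have hone : ∫ _ : ℝ, (1 : ℝ) ∂kap = 1 := by simp
  have hms : MeasurableSet {E : ℝ | RE < |E|} := measurableSet_lt measurable_const (by fun_prop)
  calc 1 - ∫ E, ∫ X, ‖D.fI X (Zt t E)‖ ^ 2 ∂(Pinf Λ c) ∂kap
      = ∫ E, (1 - ∫ X, ‖D.fI X (Zt t E)‖ ^ 2 ∂(Pinf Λ c)) ∂kap := by
        rw [integral_sub (integrable_const _) hint2, hone]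
    _ ≤ ∫ E, (({E : ℝ | RE < |E|}.indicator (fun _ => (1 : ℝ)) E) + δ' / 2) ∂kap := by
        refine integral_mono ((integrable_const _).sub hint2)
          (((integrable_const (1 : ℝ)).indicator hms).add (integrable_const _)) fun E => ?_
        by_cases hE : RE < |E|
        · have h0 : 0 ≤ ∫ X, ‖D.fI X (Zt t E)‖ ^ 2 ∂(Pinf Λ c) :=
            integral_nonneg fun X => by positivity
          have h1 : ({E : ℝ | RE < |E|}.indicator (fun _ => (1 : ℝ)) E) = 1 :=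
            Set.indicator_of_mem (s := {E : ℝ | RE < |E|}) hE _
          simp only [h1]
          linarith
        · have h1 : ({E : ℝ | RE < |E|}.indicator (fun _ => (1 : ℝ)) E) = 0 :=
            Set.indicator_of_notMem (s := {E : ℝ | RE < |E|}) hE _
          simp only [h1]
          have h2 := InfB_Zt ht ht1 (not_lt.mp hE)
          have h3 := hB (Zt t E) (Zt_im_pos ht E) (h2.2.trans ht2) h2.1
          linarith
    _ = kap.real {E : ℝ | RE < |E|} + δ' / 2 := by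
        rw [integral_add ((integrable_const (1 : ℝ)).indicator hms) (integrable_const _),
          integral_indicator hms]
        simp
    _ ≤ δ' / 2 + δ' / 2 := by linarith
    _ = δ' := by ring

theorem inf_singular {c RW δ : ℝ} (hc : 0 < c) (hR : 0 ≤ R) (hδ : 0 < δ)
    (h : Gph T t ℓ up R Δ) {W : Λ → ℝ} (hW : ∀ x, |W x| ≤ RW)
    (thin : ∀ n0 : ℕ, ∃ N, n0 ≤ N ∧ (wid ℓ N : ℝ) ≤ (N : ℝ) ^ (1 / 2 - δ)) :
    ∀ᵐ X ∂(Pinf Λ c), ∀ ψ : L2 Λ, ∃ μ : Measure ℝ, IsFiniteMeasure μ ∧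
      Rep (RR T (fun x => W x + X x)) ψ μ ∧ μ ⟂ₘ volume := by
  have := isProb_Pinf (Λ := Λ) hc
  have h1 := sing_gen h.hT h.hr W (fun _ => 1) (fun _ => zero_le_one) (Pinf Λ c)
    fun x0 δ' hδ' => InfB_tau hc hR hδ h hW thin x0 hδ'
  simpa only [one_mul] using h1

end Pool.Agent.Lib.MP_562b47_mp.Str
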