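import Pool.Agent.Lib.MP_562b47_mp.Str.Ward

/-!
Module STR-Wronsk (MP_562b47_mp, strips).  Two systems which agree on the rows of the layers `≤ i`.

PROOF.  Let `w = S.w ν`, `w' = S'.w ν'`.  `K w = U`, `K' w' = U` (`K_mul_w`), `U x s = 0` for
`i < ℓ x`.  Consider, for `s s'`,
  `D s s' := ∑_{x, ℓ x ≤ i} (w' x s * (K w) x s' - w x s' * (K' w') x s)`.
On the one hand `D s s' = ∑_x (w' x s U x s' - w x s' U x s) = (Uᵀ w') s' s - (Uᵀ w) s s'
= (Uᵀ w') s s' - (Uᵀ w) s s'` (`Uᵀ G U` is symmetric), so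
`S.Sm - S'.Sm = -2 i (Uᵀ w - Uᵀ w') = 2 i D`.
On the other hand, in `D`: the diagonal parts `ν x + i y x` cancel (they agree for `ℓ x ≤ i`); the parts
`i U Uᵀ` give `i ∑_r ((Uᵀw') r s (Uᵀ w) r s' - (Uᵀ w) r s' (Uᵀ w') r s) = 0` (all sources have
`ℓ ≤ i`); the parts with `H`: `∑_{ℓ x ≤ i} ∑_z H x z (w' x s w z s' - w x s' w' z s)`, in which the
pairs with `ℓ z ≤ i` cancel by the symmetry of `H`, and the others have `ℓ x = i`, `ℓ z = i + 1`
(`near` and symmetry).  Hence, in the Hilbert-Schmidt norm,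
  `‖Sv - Sv'‖ ≤ 2 ∑_{ℓ x = i, ℓ z = i+1} |H x z| (‖w' x‖ ‖w z‖ + ‖w x‖ ‖w' z‖)`
(the matrix `(s,s') ↦ w' x s * w z s'` has norm `‖w' x‖ ‖w z‖`) and `2ab ≤ a²+b²`, row and column
sums at most `R`:
  `≤ R (ρ'_i + ρ_{i+1} + ρ_i + ρ'_{i+1})`.
-/

open MeasureTheory Matrix Complex

namespace Pool.Agent.Lib.MP_562b47_mp.Str

variable {X ι : Type*} [Fintype X] [DecidableEq X] [Fintype ι] [DecidableEq ι]

namespace Sys

variable {S S' : Sys X ι} {ν ν' : X → ℂ}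

private theorem wr_U (S : Sys X ι) (ν : X → ℂ) (r s : ι) :
    ∑ x, (S.U x r : ℂ) * S.w ν x s = (1 - S.Sm ν) r s / (2 * I) := by
  have h2I : (2 * I : ℂ) ≠ 0 := mul_ne_zero two_ne_zero Complex.I_ne_zero
  have h : (1 - S.Sm ν) r s = 2 * I * ∑ x, (S.U x r : ℂ) * S.w ν x s := by
    simp only [Sys.Sm, Matrix.sub_apply, Matrix.smul_apply, Matrix.mul_apply, transpose_apply,
      Matrix.map_apply, smul_eq_mul]
    ring
  rw [h, mul_div_cancel_left₀ _ h2I]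

private theorem wr_one (f : ι → ℂ) (s : ι) : ∑ r, (1 : Matrix ι ι ℂ) r s * f r = f s := by
  rw [Finset.sum_eq_single s]
  · rw [Matrix.one_apply_eq, one_mul]
  · intro r _ hr
    rw [Matrix.one_apply_ne hr, zero_mul]
  · intro h
    exact absurd (Finset.mem_univ s) h

private theorem wr_swap (S : Sys X ι) (ν : X → ℂ) (T : ι → ℂ) (U : Matrix X ι ℝ)
    (hU : U = S.U) (s : ι) :
    ∑ x, S.w ν x s * ∑ r, (U x r : ℂ) * T r = ∑ r, (1 - S.Sm ν) r s / (2 * I) * T r := by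
  subst hU
  simp only [Finset.mul_sum]
  rw [Finset.sum_comm]
  refine Finset.sum_congr rfl fun r _ => ?_
  rw [← wr_U, Finset.sum_mul]
  refine Finset.sum_congr rfl fun x _ => ?_
  ring

private theorem wr_D (hS : S.Good) (hS' : S'.Good) (hν : Adm ν) (hν' : Adm ν') {ℓ : X → ℕ}
    {i : ℕ} (hU : ∀ x, i < ℓ x → ∀ s, S.U x s = 0)
    (aU : S'.U = S.U) (aH : ∀ x, ℓ x ≤ i → ∀ z, S'.H x z = S.H x z)
    (ay : ∀ x, ℓ x ≤ i → S'.y x = S.y x) (aν : ∀ x, ℓ x ≤ i → ν' x = ν x) (s s' : ι) :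
    S.Sm ν s s' - S'.Sm ν' s s' = 2 * I * ∑ x with ℓ x ≤ i, ∑ z, (S.H x z : ℂ) *
      (S'.w ν' x s * S.w ν z s' - S.w ν x s' * S'.w ν' z s) := by
  have h2I : (2 * I : ℂ) ≠ 0 := mul_ne_zero two_ne_zero Complex.I_ne_zero
  have e1 : ∀ x, ℓ x ≤ i → ∑ z, (S.H x z : ℂ) *
      (S'.w ν' x s * S.w ν z s' - S.w ν x s' * S'.w ν' z s)
      = S'.w ν' x s * (∑ r, (S.U x r : ℂ) * ((1 + S.Sm ν) r s' / 2))
        - S.w ν x s' * (∑ r, (S.U x r : ℂ) * ((1 + S'.Sm ν') r s / 2)) := by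
    intro x hx
    have h1 := eqnS hS hν x s'
    have h2 := eqnS hS' hν' x s
    rw [aU, ay x hx, aν x hx] at h2
    simp only [aH x hx] at h2
    rw [← h1, ← h2, mul_add, mul_add, Finset.mul_sum, Finset.mul_sum]
    have h3 : ∀ z, (S.H x z : ℂ) * (S'.w ν' x s * S.w ν z s' - S.w ν x s' * S'.w ν' z s)
        = S'.w ν' x s * ((S.H x z : ℂ) * S.w ν z s')
          - S.w ν x s' * ((S.H x z : ℂ) * S'.w ν' z s) := fun z => by ring
    simp only [h3, Finset.sum_sub_distrib]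
    ring
  have e2 : ∑ x with ℓ x ≤ i, ∑ z, (S.H x z : ℂ) *
      (S'.w ν' x s * S.w ν z s' - S.w ν x s' * S'.w ν' z s)
      = ∑ x, (S'.w ν' x s * (∑ r, (S.U x r : ℂ) * ((1 + S.Sm ν) r s' / 2))
        - S.w ν x s' * (∑ r, (S.U x r : ℂ) * ((1 + S'.Sm ν') r s / 2))) := by
    rw [Finset.sum_filter]
    refine Finset.sum_congr rfl fun x _ => ?_
    split_ifs with hx
    · exact e1 x hx
    · have h0 : ∀ r, S.U x r = 0 := hU x (not_le.mp hx)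
      simp [h0]
  have e3 : ∀ r, (1 - S'.Sm ν') r s / (2 * I) * ((1 + S.Sm ν) r s' / 2)
      - (1 - S.Sm ν) r s' / (2 * I) * ((1 + S'.Sm ν') r s / 2)
      = ((1 : Matrix ι ι ℂ) r s * S.Sm ν r s' - (1 : Matrix ι ι ℂ) r s' * S'.Sm ν' r s)
        / (2 * I) := by
    intro r
    simp only [Matrix.sub_apply, Matrix.add_apply]
    field_simp
    ring
  rw [e2, Finset.sum_sub_distrib, wr_swap S' ν' _ S.U aU.symm s, wr_swap S ν _ S.U rfl s',
    ← Finset.sum_sub_distrib]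
  simp only [e3]
  rw [← Finset.sum_div, Finset.sum_sub_distrib, wr_one (fun r => S.Sm ν r s') s,
    wr_one (fun r => S'.Sm ν' r s) s', mul_div_cancel₀ _ h2I]
  have h4 : S'.Sm ν' s' s = S'.Sm ν' s s' := by
    conv_lhs => rw [← Sm_symm hS' ν']
    rfl
  rw [h4]

private theorem wr_anti (H : Matrix X X ℝ) (hH : H.IsSymm) (P : X → Prop) [DecidablePred P]
    (f g : X → ℂ) :
    ∑ x with P x, ∑ z with P z, (H x z : ℂ) * (f x * g z - g x * f z) = 0 := by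
  have h1 : ∑ x with P x, ∑ z with P z, (H x z : ℂ) * (f x * g z - g x * f z)
      = -∑ x with P x, ∑ z with P z, (H x z : ℂ) * (f x * g z - g x * f z) := by
    conv_lhs => rw [Finset.sum_comm]
    rw [← Finset.sum_neg_distrib]
    refine Finset.sum_congr rfl fun x _ => ?_
    rw [← Finset.sum_neg_distrib]
    refine Finset.sum_congr rfl fun z _ => ?_
    rw [hH.apply x z]
    ring
  have h2 := add_self_eq_zero.mp (eq_neg_iff_add_eq_zero.mp h1)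
  exact h2

private theorem wr_loc (hS : S.Good) {ℓ : X → ℕ}
    (near : ∀ x z, S.H x z ≠ 0 → ℓ x ≤ ℓ z + 1) (i : ℕ) (f g : X → ℂ) :
    ∑ x with ℓ x ≤ i, ∑ z, (S.H x z : ℂ) * (f x * g z - g x * f z)
      = ∑ x with ℓ x = i, ∑ z with ℓ z = i + 1, (S.H x z : ℂ) * (f x * g z - g x * f z) := by
  have h1 : ∀ x, ∑ z, (S.H x z : ℂ) * (f x * g z - g x * f z)
      = ∑ z with ℓ z ≤ i, (S.H x z : ℂ) * (f x * g z - g x * f z)
        + ∑ z with ¬ ℓ z ≤ i, (S.H x z : ℂ) * (f x * g z - g x * f z) := fun x =>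
    (Finset.sum_filter_add_sum_filter_not _ _ _).symm
  simp only [h1]
  rw [Finset.sum_add_distrib, wr_anti S.H hS.symm (fun x => ℓ x ≤ i) f g, zero_add]
  rw [Finset.sum_filter, Finset.sum_filter]
  refine Finset.sum_congr rfl fun x _ => ?_
  rw [Finset.sum_filter, Finset.sum_filter]
  have hn : ∀ z, S.H x z ≠ 0 → ℓ z ≤ ℓ x + 1 := by
    intro z hz
    refine near z x ?_
    rw [hS.symm.apply x z]
    exact hz
  rcases lt_trichotomy (ℓ x) i with hx | hx | hx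
  · rw [if_pos hx.le, if_neg hx.ne]
    refine Finset.sum_eq_zero fun z _ => ?_
    by_cases hz : ℓ z ≤ i
    · simp [hz]
    · have h0 : S.H x z = 0 := by
        by_contra h
        have := hn z h
        omega
      rw [h0]
      simp
  · rw [if_pos hx.le, if_pos hx]
    refine Finset.sum_congr rfl fun z _ => ?_
    by_cases h0 : S.H x z = 0
    · rw [h0]
      simp
    · have := hn z h0
      by_cases hz : ℓ z = i + 1
      · rw [if_pos hz, if_pos (by omega)]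
      · rw [if_neg hz, if_neg (by omega)]
  · rw [if_neg (by omega), if_neg (by omega)]

private theorem wr_norm (a b : EuclideanSpace ℂ ι) :
    ‖(WithLp.toLp 2 (fun p : ι × ι => a p.1 * b p.2) : EuclideanSpace ℂ (ι × ι))‖
      = ‖a‖ * ‖b‖ := by
  rw [← sq_eq_sq₀ (norm_nonneg _) (by positivity), mul_pow, EuclideanSpace.norm_sq_eq,
    EuclideanSpace.norm_sq_eq, EuclideanSpace.norm_sq_eq, Fintype.sum_prod_type, Finset.sum_mul_sum]
  refine Finset.sum_congr rfl fun s _ => Finset.sum_congr rfl fun s' _ => ?_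
  simp [mul_pow]

private theorem wr_schur (H : Matrix X X ℝ) (hH : H.IsSymm) {R : ℝ}
    (row : ∀ x, ∑ z, |H x z| ≤ R) (A B : Finset X) (u v : X → ℝ) (hu : ∀ x, 0 ≤ u x)
    (hv : ∀ x, 0 ≤ v x) :
    ∑ x ∈ A, ∑ z ∈ B, |H x z| * (u x + v z) ≤ R * (∑ x ∈ A, u x + ∑ z ∈ B, v z) := by
  have key : ∀ (C D : Finset X) (t : X → ℝ), (∀ x, 0 ≤ t x) →
      ∑ x ∈ C, ∑ z ∈ D, |H x z| * t x ≤ R * ∑ x ∈ C, t x := by
    intro C D t ht
    rw [Finset.mul_sum]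
    refine Finset.sum_le_sum fun x _ => ?_
    rw [← Finset.sum_mul]
    refine mul_le_mul_of_nonneg_right (le_trans ?_ (row x)) (ht x)
    exact Finset.sum_le_sum_of_subset_of_nonneg (Finset.subset_univ _) fun _ _ _ => abs_nonneg _
  have h1 := key A B u hu
  have h2 := key B A v hv
  rw [Finset.sum_comm] at h2
  have h3 : ∑ x ∈ A, ∑ z ∈ B, |H x z| * (u x + v z)
      = ∑ x ∈ A, ∑ z ∈ B, |H x z| * u x + ∑ x ∈ A, ∑ z ∈ B, |H z x| * v z := by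
    rw [← Finset.sum_add_distrib]
    refine Finset.sum_congr rfl fun x _ => ?_
    rw [← Finset.sum_add_distrib]
    refine Finset.sum_congr rfl fun z _ => ?_
    rw [hH.apply x z]
    ring
  rw [h3, mul_add]
  exact add_le_add h1 h2

theorem wronskian (hS : S.Good) (hS' : S'.Good) (hν : Adm ν) (hν' : Adm ν') {ℓ : X → ℕ} {R : ℝ}
    (near : ∀ x z, S.H x z ≠ 0 → ℓ x ≤ ℓ z + 1) (row : ∀ x, ∑ z, |S.H x z| ≤ R)
    {i : ℕ} (hU : ∀ x, i < ℓ x → ∀ s, S.U x s = 0)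
    (aU : S'.U = S.U) (aH : ∀ x, ℓ x ≤ i → ∀ z, S'.H x z = S.H x z)
    (ay : ∀ x, ℓ x ≤ i → S'.y x = S.y x) (aν : ∀ x, ℓ x ≤ i → ν' x = ν x) :
    ‖S.Sv ν - S'.Sv ν'‖ ≤ R * (S.rho ℓ ν i + S.rho ℓ ν (i + 1)
      + S'.rho ℓ ν' i + S'.rho ℓ ν' (i + 1)) := by
  set P : X → X → EuclideanSpace ℂ (ι × ι) := fun x z =>
    WithLp.toLp 2 (fun p => S'.wv ν' x p.1 * S.wv ν z p.2) with hP
  set Q : X → X → EuclideanSpace ℂ (ι × ι) := fun x z =>
    WithLp.toLp 2 (fun p => S'.wv ν' z p.1 * S.wv ν x p.2) with hQ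
  have e1 : S.Sv ν - S'.Sv ν' = (2 * I : ℂ) • ∑ x with ℓ x = i, ∑ z with ℓ z = i + 1,
      (S.H x z : ℂ) • (P x z - Q x z) := by
    ext p
    have h1 := wr_D hS hS' hν hν' hU aU aH ay aν p.1 p.2
    rw [wr_loc hS near i (fun x => S'.w ν' x p.1) (fun x => S.w ν x p.2)] at h1
    have h2 : (S.Sv ν - S'.Sv ν') p = S.Sm ν p.1 p.2 - S'.Sm ν' p.1 p.2 := rfl
    rw [h2, h1]
    simp only [PiLp.smul_apply, WithLp.ofLp_sum, Finset.sum_apply, WithLp.ofLp_smul,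
      WithLp.ofLp_sub, Pi.smul_apply, Pi.sub_apply, smul_eq_mul, hP, hQ, Sys.wv]
    congr 1
    refine Finset.sum_congr rfl fun x _ => Finset.sum_congr rfl fun z _ => ?_
    ring
  have e2 : ‖(2 * I : ℂ)‖ = 2 := by simp
  rw [e1, norm_smul, e2]
  have e3 : ‖∑ x with ℓ x = i, ∑ z with ℓ z = i + 1, (S.H x z : ℂ) • (P x z - Q x z)‖
      ≤ ∑ x with ℓ x = i, ∑ z with ℓ z = i + 1, |S.H x z| *
        (‖S'.wv ν' x‖ * ‖S.wv ν z‖ + ‖S'.wv ν' z‖ * ‖S.wv ν x‖) := by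
    refine (norm_sum_le _ _).trans (Finset.sum_le_sum fun x _ => ?_)
    refine (norm_sum_le _ _).trans (Finset.sum_le_sum fun z _ => ?_)
    rw [norm_smul, Complex.norm_real, Real.norm_eq_abs]
    refine mul_le_mul_of_nonneg_left ?_ (abs_nonneg _)
    refine (norm_sub_le _ _).trans (le_of_eq ?_)
    rw [hP, hQ]
    exact congrArg₂ (· + ·) (wr_norm _ _) (wr_norm _ _)
  have e4 : 2 * ∑ x with ℓ x = i, ∑ z with ℓ z = i + 1, |S.H x z| *
        (‖S'.wv ν' x‖ * ‖S.wv ν z‖ + ‖S'.wv ν' z‖ * ‖S.wv ν x‖)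
      ≤ ∑ x with ℓ x = i, ∑ z with ℓ z = i + 1, |S.H x z| *
        ((‖S.wv ν x‖ ^ 2 + ‖S'.wv ν' x‖ ^ 2) + (‖S.wv ν z‖ ^ 2 + ‖S'.wv ν' z‖ ^ 2)) := by
    rw [Finset.mul_sum]
    refine Finset.sum_le_sum fun x _ => ?_
    rw [Finset.mul_sum]
    refine Finset.sum_le_sum fun z _ => ?_
    rw [mul_left_comm]
    refine mul_le_mul_of_nonneg_left ?_ (abs_nonneg _)
    nlinarith [sq_nonneg (‖S'.wv ν' x‖ - ‖S.wv ν z‖), sq_nonneg (‖S'.wv ν' z‖ - ‖S.wv ν x‖)]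
  have e5 := wr_schur S.H hS.symm row (Finset.univ.filter fun x => ℓ x = i)
    (Finset.univ.filter fun z => ℓ z = i + 1)
    (fun x => ‖S.wv ν x‖ ^ 2 + ‖S'.wv ν' x‖ ^ 2) (fun z => ‖S.wv ν z‖ ^ 2 + ‖S'.wv ν' z‖ ^ 2)
    (fun x => by positivity) (fun z => by positivity)
  have e6 : R * (S.rho ℓ ν i + S.rho ℓ ν (i + 1) + S'.rho ℓ ν' i + S'.rho ℓ ν' (i + 1))
      = R * (∑ x with ℓ x = i, (‖S.wv ν x‖ ^ 2 + ‖S'.wv ν' x‖ ^ 2)
        + ∑ z with ℓ z = i + 1, (‖S.wv ν z‖ ^ 2 + ‖S'.wv ν' z‖ ^ 2)) := by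
    rw [Finset.sum_add_distrib, Finset.sum_add_distrib]
    unfold Sys.rho
    ring
  rw [e6]
  exact (mul_le_mul_of_nonneg_left e3 (by norm_num)).trans (e4.trans e5)

end Sys

end Pool.Agent.Lib.MP_562b47_mp.Str
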