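import Pool.Agent.Lib.MP_562b47_mp.Str.Decay
import Pool.Agent.Lib.MP_562b47_mp.Str.Wronsk

/-!
Module STR-Influ (MP_562b47_mp, strips).  The influence of the exterior of the block, and the bound
of the field in the interior (the layers `≤ n`).

PROOF of `influence`.  `T = S.cut ℓ (n+l)`, `i = n + J r + 1`.  Apply `wronskian` at the layer `i` (the
rows of the layers `≤ i < n + l` agree: `cut_row`; the sources are in the layers `≤ n ≤ i`).
For both systems `ρ_i + ρ_{i+1} ≤ ∑_{n+Jr<ℓ≤n+Jr+2} ‖w‖² ≤ P/(4bq) FL (n+Jr) ≤ P/(4bq) 2^{-J} M`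
(`mass` with `j = n+Jr+2`, `j + 2k + 2 ≤ n + l`, and `decay`).  So
  `‖Sv - Sv'‖ ≤ R * 2 * P/(4bq) 2^{-J} M ≤ R P/(b q) 2^{-J} M`.
PROOF of `interior`.  `D = R + c + 2`.  By `mass` with `i = n`, `j = n + 2`:
`‖w x‖ ≤ √(P M/(4bq)) =: A` for `n < ℓ x ≤ n + 2`.  By downward induction on `ℓ x` (`one_step_src`,
`Fs up x` sits in the layers `ℓ x + 1, ℓ x + 2`), `‖w x‖ ≤ (D+1)^(n+1-ℓ x) (A + √M)` for
`ℓ x ≤ n + 1`: `D (D+1)^m (A + √M) + √M ≤ (D+1)^(m+1) (A + √M)`.
-/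

open MeasureTheory Matrix Complex

namespace Pool.Agent.Lib.MP_562b47_mp.Str

variable {X ι : Type*} [Fintype X] [DecidableEq X] [Fintype ι] [DecidableEq ι]

namespace Sys

variable {S T : Sys X ι} {ν ν0 : X → ℂ} {ℓ : X → ℕ} {up : X → X} {R c b q : ℝ} {Δ N n l k : ℕ}
  {F : X → Finset X} {V : X → ℝ}

private theorem influ_Pk_nonneg {D : ℝ} (Δ k : ℕ) : 0 ≤ Pk D Δ k := by
  unfold Pk
  positivity

private theorem influ_rho (T : Sys X ι) (ℓ : X → ℕ) (ν : X → ℂ) (m : ℕ) :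
    T.rho ℓ ν (m + 1) + T.rho ℓ ν (m + 1 + 1)
      = ∑ x with m < ℓ x ∧ ℓ x ≤ m + 2, ‖T.wv ν x‖ ^ 2 := by
  unfold rho
  rw [← Finset.sum_union]
  · refine Finset.sum_congr ?_ fun _ _ => rfl
    ext x
    simp only [Finset.mem_union, Finset.mem_filter, Finset.mem_univ, true_and]
    omega
  · rw [Finset.disjoint_filter]
    intro x _ h1 h2
    omega

private theorem influ_mass {T : Sys X ι} (hT : Std T F ℓ up R Δ n l) (hc : 0 < c) (hb : 0 < b)
    (hq : 0 < q) (hV : V ∈ GE c q F ℓ n l k) (hB : BP c b q ℓ n l V ν) {r J : ℕ} (hr1 : 2 ≤ r)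
    (hr : 2 * R * Pk (R + c + 2) Δ k ≤ (r - 1) * (b * q)) (hj : J * r + 2 * k + 4 ≤ l) :
    T.rho ℓ ν (n + J * r + 1) + T.rho ℓ ν (n + J * r + 1 + 1)
      ≤ Pk (R + c + 2) Δ k / (4 * b * q) * ((1 / 2) ^ J * Fintype.card ι) := by
  rw [influ_rho]
  refine (mass hT hc hb hq hV hB (i := n + J * r) (j := n + J * r + 2) (by omega)
    (by omega)).trans ?_
  refine mul_le_mul_of_nonneg_left ?_ (div_nonneg (influ_Pk_nonneg _ _) (by positivity))
  exact decay hT hc hb hq hV hB hr1 hr (by omega)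

theorem influence (hS : S.Good) (hR : 0 ≤ R) (hL : S.Layered ℓ up R Δ N) (hN : n + l ≤ N)
    (src : ∀ x, n < ℓ x → ∀ s, S.U x s = 0) (yle : ∀ x, ℓ x ≤ n + l → S.y x ≤ 1)
    (hc : 0 < c) (hb : 0 < b) (hq : 0 < q)
    (hV : V ∈ GE c q (S.Fs up) ℓ n l k) (hB : BP c b q ℓ n l V ν) (hB0 : BP c b q ℓ n l V ν0)
    (agree : ∀ x, ℓ x ≤ n + l → ν0 x = ν x) {r J : ℕ} (hr1 : 2 ≤ r)
    (hr : 2 * R * Pk (R + c + 2) Δ k ≤ (r - 1) * (b * q)) (hj : J * r + 2 * k + 4 ≤ l) :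
    ‖S.Sv ν - (S.cut ℓ (n + l)).Sv ν0‖
      ≤ R * Pk (R + c + 2) Δ k / (b * q) * ((1 / 2) ^ J * Fintype.card ι) := by
  have hT1 : Std S (S.Fs up) ℓ up R Δ n l := std_self hS hR hL hN src yle
  have hT2 : Std (S.cut ℓ (n + l)) (S.Fs up) ℓ up R Δ n l := std_cut hS hR hL hN src yle
  have h1 := influ_mass hT1 hc hb hq hV hB hr1 hr hj
  have h2 := influ_mass hT2 hc hb hq hV hB0 hr1 hr hj
  have hw := wronskian (S := S) (S' := S.cut ℓ (n + l)) (ν := ν) (ν' := ν0) hS hT2.good hB.adm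
    hB0.adm (ℓ := ℓ) (R := R) hL.near hL.row (i := n + J * r + 1)
    (fun x hx s => src x (by omega) s) rfl (cut_row hS hL (by omega)) (fun _ _ => rfl)
    (fun x hx => agree x (by omega))
  refine hw.trans ?_
  set P := Pk (R + c + 2) Δ k with hP
  set Y : ℝ := (1 / 2) ^ J * Fintype.card ι with hY
  have hP0 : 0 ≤ P := influ_Pk_nonneg _ _
  have hY0 : 0 ≤ Y := by positivity
  have h3 : R * P / (b * q) * Y = R * (4 * (P / (4 * b * q) * Y)) := by
    field_simp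
  rw [h3]
  refine mul_le_mul_of_nonneg_left ?_ hR
  have h4 : 0 ≤ P / (4 * b * q) * Y := mul_nonneg (div_nonneg hP0 (by positivity)) hY0
  linarith

theorem interior (hT : Std T F ℓ up R Δ n l) (hc : 0 < c) (hb : 0 < b) (hq : 0 < q)
    (hU : ∀ x, ∑ s, T.U x s ^ 2 ≤ 1) (hV : V ∈ GE c q F ℓ n l k) (hB : BP c b q ℓ n l V ν)
    (hν : ∀ x, ℓ x ≤ n → ‖ν x‖ ≤ c + 1) (hk : 2 * k + 4 ≤ l) (x : X) (hx : ℓ x ≤ n) :
    ‖T.wv ν x‖ ≤ (R + c + 3) ^ (n + 1)
      * (√(Pk (R + c + 2) Δ k * Fintype.card ι / (4 * b * q)) + √(Fintype.card ι : ℝ)) := by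
  set A : ℝ := √(Pk (R + c + 2) Δ k * Fintype.card ι / (4 * b * q)) with hA
  set M : ℝ := √(Fintype.card ι : ℝ) with hM
  have hA0 : 0 ≤ A := Real.sqrt_nonneg _
  have hM0 : 0 ≤ M := Real.sqrt_nonneg _
  have hD1 : (1 : ℝ) ≤ R + c + 3 := by have := hT.Rnn; linarith
  have hD0 : (0 : ℝ) ≤ R + c + 2 := by have := hT.Rnn; linarith
  have hbase : ∀ x, n < ℓ x → ℓ x ≤ n + 2 → ‖T.wv ν x‖ ≤ A := by
    intro x h1 h2
    have hm := mass hT hc hb hq hV hB (i := n) (j := n + 2) le_rfl (by omega)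
    have hf := FL_le_card hT.good hB.adm ℓ n
    have h3 : ‖T.wv ν x‖ ^ 2 ≤ ∑ x with n < ℓ x ∧ ℓ x ≤ n + 2, ‖T.wv ν x‖ ^ 2 :=
      Finset.single_le_sum (f := fun x => ‖T.wv ν x‖ ^ 2) (fun _ _ => sq_nonneg _)
        (Finset.mem_filter.mpr ⟨Finset.mem_univ x, h1, h2⟩)
    have h4 : Pk (R + c + 2) Δ k / (4 * b * q) * T.FL ℓ ν n
        ≤ Pk (R + c + 2) Δ k / (4 * b * q) * Fintype.card ι :=
      mul_le_mul_of_nonneg_left hf (div_nonneg (influ_Pk_nonneg _ _) (by positivity))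
    have h5 : Pk (R + c + 2) Δ k / (4 * b * q) * Fintype.card ι
        = Pk (R + c + 2) Δ k * Fintype.card ι / (4 * b * q) := by ring
    rw [hA]
    apply Real.le_sqrt_of_sq_le
    rw [← h5]
    exact h3.trans (hm.trans h4)
  have key : ∀ m : ℕ, ∀ x, ℓ x ≤ n + 2 → n + 2 ≤ ℓ x + m →
      ‖T.wv ν x‖ ≤ (R + c + 3) ^ (n + 1 - ℓ x) * (A + M) := by
    intro m
    induction m with
    | zero =>
      intro x h1 h2
      have h3 : n + 1 - ℓ x = 0 := by omega
      rw [h3, pow_zero, one_mul]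
      have := hbase x (by omega) h1
      linarith
    | succ m ih =>
      intro x h1 h2
      rcases Nat.lt_or_ge n (ℓ x) with h3 | h3
      · have h4 : n + 1 - ℓ x = 0 := by omega
        rw [h4, pow_zero, one_mul]
        have := hbase x h3 h1
        linarith
      · have h4 : n + 1 - ℓ x = (n - ℓ x) + 1 := by omega
        have hup : ℓ (up x) = ℓ x + 1 := hT.lay.up_layer x (by omega)
        have hνu : ‖ν (up x)‖ ≤ c + 1 := by
          rcases Nat.lt_or_ge (ℓ x) n with h5 | h5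
          · exact hν _ (by omega)
          · exact hB.bdd _ (by omega) (by omega)
        have hyu : T.y (up x) ≤ 1 := hT.yle _ (by omega)
        set Y : ℝ := (R + c + 3) ^ (n - ℓ x) * (A + M) with hY
        have hY0 : 0 ≤ Y := mul_nonneg (pow_nonneg (by linarith) _) (by linarith)
        have hstep := one_step_src hT.good hB.adm hT.lay (D := R + c + 2) (A := Y) (x := x)
          (by omega) (hU (up x)) (by linarith) (by
            intro z hz
            rw [hT.Feq x (by omega)] at hz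
            obtain ⟨hz1, hz2⟩ := hT.fwd.layer x (by omega) z hz
            refine (ih z (by omega) (by omega)).trans ?_
            refine mul_le_mul_of_nonneg_right ?_ (by linarith)
            exact pow_le_pow_right₀ hD1 (by omega)) hY0
        have hYM : M ≤ Y := by
          have h6 : (1 : ℝ) ≤ (R + c + 3) ^ (n - ℓ x) := one_le_pow₀ hD1
          calc M ≤ 1 * (A + M) := by linarith
            _ ≤ Y := mul_le_mul_of_nonneg_right h6 (by linarith)
        rw [h4, pow_succ]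
        have h7 : (R + c + 3) ^ (n - ℓ x) * (R + c + 3) * (A + M) = (R + c + 2) * Y + Y := by
          rw [hY]; ring
        rw [h7]
        linarith
  refine (key (n + 2) x (by omega) (by omega)).trans ?_
  refine mul_le_mul_of_nonneg_right ?_ (by linarith)
  exact pow_le_pow_right₀ hD1 (by omega)

end Sys

end Pool.Agent.Lib.MP_562b47_mp.Str
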