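import Pool.Agent.Lib.MP_562b47_mp.Str.Dfm

/-!
Module STR-Jac (MP_562b47_mp, strips).  Change of variables for the real shift.

The map `τ v = v + s * chi c v` with `|s| ≤ c / 4` is a bijection of `[-c, c]` onto itself (it fixes
`± c`), with derivative `τ' v = 1 - 2 s v / c²` between `1/2` and `3/2` there, so for every measurable
`F : ℝ → ℝ≥0∞`
  `∫⁻ v, F (τ v) * ofReal (1 - 2 s v / c²) ∂(unif c) = ∫⁻ v, F v ∂(unif c)`       (`jac_one`)
(`MeasureTheory.lintegral_image_eq_lintegral_abs_deriv_mul` on `Icc (-c) c`; injectivity by the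
positive derivative, the image is `Icc (-c) c` by continuity; or `StrictMonoOn` + IVT).
`jac`: the same for the product measure `PX X c`; the potential at the sites of `B` is shifted by
`s = t * b`.  PROOF of `jac` from `jac_one`: let `κ x := (unif c).withDensity (fun v => ofReal (J v))`
for `x ∈ B` and `κ x := unif c` otherwise.  By `jac_one` the map `τ` is measure preserving from `κ x`
to `unif c`; hence (`MeasureTheory.measurePreserving_pi`) `shf` is measure preserving from
`Measure.pi κ` to `PX X c`; and `Measure.pi κ = (PX X c).withDensity (fun V => ∏ x, J_x (V x))`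
(check on boxes: `Measure.pi_eq`, `lintegral_fintype_prod_eq_prod`-type lemma, or induction with
`lmarginal`).  Alternatively one coordinate at a time.
`jac_neg`: the one-dimensional moment: with `u = 2 s / c`, `|u| ≤ 1/2`, and `a ≥ 0`,
  `∫ v, (1 - 2 s v / c²)^(-a) ∂(unif c) ≤ 1 + Ca u² ≤ exp (Ca u²)`:
by the symmetry `v ↦ -v` the integral is `∫ v, ((1 - u v/c)^(-a) + (1 + u v/c)^(-a)) / 2`, and for
`|x| ≤ 1/2`, `((1-x)^(-a) + (1+x)^(-a))/2 ≤ 1 + Ca x²` (second derivative bounded on `[-1/2,1/2]`:
`Ca = a (a+1) 2^(a+2) / 2` works by Taylor with Lagrange remainder, or by convexity arguments).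
`jac_neg_prod`: the product over `x ∈ B` (`MeasureTheory.integral_fintype_prod_eq_prod`).
-/

open MeasureTheory Matrix Complex

namespace Pool.Agent.Lib.MP_562b47_mp.Str

variable {X : Type*} [Fintype X] [DecidableEq X]

/-- the Jacobian factor at one site -/
noncomputable def J1 (c s v : ℝ) : ℝ := 1 - 2 * s * v / c ^ 2

/-- the Jacobian of `shf` -/
noncomputable def Jb (B : Set X) (c b t : ℝ) (V : X → ℝ) : ℝ :=
  open Classical in ∏ x, if x ∈ B then J1 c (t * b) (V x) else 1

theorem J1_bounds {c s v : ℝ} (hc : 0 < c) (hs : |s| ≤ c / 4) (hv : v ∈ Set.Icc (-c) c) :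
    1 / 2 ≤ J1 c s v ∧ J1 c s v ≤ 3 / 2 := by
  have hv' : |v| ≤ c := abs_le.mpr hv
  have h1 : |2 * s * v / c ^ 2| ≤ 1 / 2 := by
    rw [abs_div, abs_of_pos (by positivity : (0 : ℝ) < c ^ 2), div_le_iff₀ (by positivity),
      abs_mul, abs_mul, abs_two]
    calc 2 * |s| * |v| ≤ 2 * (c / 4) * c := by gcongr
      _ = 1 / 2 * c ^ 2 := by ring
  obtain ⟨h2, h3⟩ := abs_le.mp h1
  unfold J1
  constructor <;> linarith

private theorem jac_Icc {c s : ℝ} (hc : 0 < c) (hs : |s| ≤ c / 4) (F : ℝ → ENNReal) :
    ∫⁻ v in Set.Icc (-c) c, F (v + s * chi c v) * ENNReal.ofReal (J1 c s v) =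
      ∫⁻ v in Set.Icc (-c) c, F v := by
  set f : ℝ → ℝ := fun v => v + s * (1 - (v / c) ^ 2) with hf
  have hcne : c ≠ 0 := hc.ne'
  have hderiv : ∀ v ∈ Set.Icc (-c) c, HasDerivWithinAt f (J1 c s v) (Set.Icc (-c) c) v := by
    intro v _
    apply HasDerivAt.hasDerivWithinAt
    have h1 : HasDerivAt (fun v : ℝ => v / c) (1 / c) v := (hasDerivAt_id v).div_const c
    have h2 := ((h1.pow 2).const_sub 1).const_mul s
    have h3 := (hasDerivAt_id v).add h2
    refine h3.congr_deriv ?_
    have e : ((2 : ℕ) : ℝ) * (v / c) ^ (2 - 1) * (1 / c) = 2 * v / c ^ 2 := by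
      rw [show 2 - 1 = 1 from rfl, pow_one]
      push_cast
      field_simp
    rw [e]
    unfold J1
    ring
  have hmono : StrictMonoOn f (Set.Icc (-c) c) := by
    intro v hv w hw hvw
    have h1 : f w - f v = (w - v) * (1 - s * (v + w) / c ^ 2) := by
      simp only [hf]
      field_simp
      ring
    have h2 : |s * (v + w) / c ^ 2| ≤ 1 / 2 := by
      rw [abs_div, abs_of_pos (by positivity : (0 : ℝ) < c ^ 2), div_le_iff₀ (by positivity),
        abs_mul]
      have h3 : |v + w| ≤ 2 * c := by
        rw [abs_le]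
        constructor <;> linarith [hv.1, hv.2, hw.1, hw.2]
      calc |s| * |v + w| ≤ (c / 4) * (2 * c) := by gcongr
        _ = 1 / 2 * c ^ 2 := by ring
    obtain ⟨_, h4⟩ := abs_le.mp h2
    have h5 : 0 < f w - f v := by
      rw [h1]
      exact mul_pos (by linarith) (by linarith)
    linarith
  have hf1 : f (-c) = -c := by
    simp only [hf]
    field_simp
    ring
  have hf2 : f c = c := by
    simp only [hf]
    field_simp
    ring
  have hcont : ContinuousOn f (Set.Icc (-c) c) := by
    apply Continuous.continuousOn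
    simp only [hf]
    fun_prop
  have himg : f '' Set.Icc (-c) c = Set.Icc (-c) c := by
    apply Set.Subset.antisymm
    · rintro _ ⟨v, hv, rfl⟩
      constructor
      · rw [← hf1]
        exact hmono.monotoneOn (Set.left_mem_Icc.mpr (by linarith)) hv hv.1
      · rw [← hf2]
        exact hmono.monotoneOn hv (Set.right_mem_Icc.mpr (by linarith)) hv.2
    · have h := intermediate_value_Icc (by linarith : -c ≤ c) hcont
      rw [hf1, hf2] at h
      exact h
  have hmain := lintegral_image_eq_lintegral_abs_deriv_mul measurableSet_Icc hderiv hmono.injOn F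
  rw [himg] at hmain
  rw [hmain]
  refine setLIntegral_congr_fun measurableSet_Icc fun v hv => ?_
  have h1 : chi c v = 1 - (v / c) ^ 2 := by
    unfold chi
    rw [max_eq_right]
    have h2 : |v / c| ≤ 1 := by
      rw [abs_div, abs_of_pos hc, div_le_one hc]
      exact abs_le.mpr hv
    have h3 : (v / c) ^ 2 ≤ 1 := by
      rw [← sq_abs]
      exact pow_le_one₀ (abs_nonneg _) h2
    linarith
  have h2 : 0 ≤ J1 c s v := by
    have := (J1_bounds hc hs hv).1
    linarith
  show F (v + s * chi c v) * ENNReal.ofReal (J1 c s v) = ENNReal.ofReal (|J1 c s v|) * F (f v)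
  rw [h1, abs_of_nonneg h2, mul_comm]

theorem jac_one {c s : ℝ} (hc : 0 < c) (hs : |s| ≤ c / 4) {F : ℝ → ENNReal} (hF : Measurable F) :
    ∫⁻ v, F (v + s * chi c v) * ENNReal.ofReal (J1 c s v) ∂(unif c) = ∫⁻ v, F v ∂(unif c) := by
  unfold unif
  rw [lintegral_smul_measure, lintegral_smul_measure, jac_Icc hc hs F]

private theorem jac_fin (B : Set X) {c s : ℝ} (hc : 0 < c) (hs : |s| ≤ c / 4) (T : Finset X) :
    ∀ {F : (X → ℝ) → ENNReal}, Measurable F →
    (∫⋯∫⁻_T, (fun V => F (open Classical in fun x => if x ∈ T ∧ x ∈ B then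
        V x + s * chi c (V x) else V x) *
      (open Classical in ∏ x ∈ T, if x ∈ B then ENNReal.ofReal (J1 c s (V x)) else 1))
        ∂(fun _ : X => unif c)) =
      ∫⋯∫⁻_T, F ∂(fun _ : X => unif c) := by
  classical
  have hP := isProb_unif hc
  have hJm : Measurable (J1 c s) := by
    unfold J1
    fun_prop
  have hchi : Measurable (chi c) := (continuous_chi c).measurable
  induction T using Finset.induction_on with
  | empty =>
    intro F hF
    simp
  | insert i T hi ih =>
    intro F hF
    -- one coordinate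
    set Fi : (X → ℝ) → ENNReal := fun W =>
      F (Function.update W i (if i ∈ B then W i + s * chi c (W i) else W i)) *
        (if i ∈ B then ENNReal.ofReal (J1 c s (W i)) else 1) with hFi
    have hmapm : Measurable fun W : X → ℝ =>
        (Function.update W i (if i ∈ B then W i + s * chi c (W i) else W i)) := by
      rw [measurable_pi_iff]
      intro x
      by_cases hx : x = i
      · subst hx
        simp only [Function.update_self]
        by_cases hB : x ∈ B
        · simp only [if_pos hB]
          exact (measurable_pi_apply x).add ((hchi.comp (measurable_pi_apply x)).const_mul s)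
        · simp only [if_neg hB]
          exact measurable_pi_apply x
      · simp only [Function.update_of_ne hx]
        exact measurable_pi_apply x
    have hFim : Measurable Fi := by
      refine (hF.comp hmapm).mul ?_
      by_cases hB : i ∈ B
      · simp only [if_pos hB]
        exact (hJm.comp (measurable_pi_apply i)).ennreal_ofReal
      · simp only [if_neg hB]
        exact measurable_const
    have hshift : Measurable fun V : X → ℝ =>
        (fun x => if x ∈ insert i T ∧ x ∈ B then V x + s * chi c (V x) else V x) := by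
      rw [measurable_pi_iff]
      intro x
      by_cases hx : x ∈ insert i T ∧ x ∈ B
      · simp only [if_pos hx]
        exact (measurable_pi_apply x).add ((hchi.comp (measurable_pi_apply x)).const_mul s)
      · simp only [if_neg hx]
        exact measurable_pi_apply x
    have hprodm : Measurable fun V : X → ℝ =>
        ∏ x ∈ insert i T, (if x ∈ B then ENNReal.ofReal (J1 c s (V x)) else 1) := by
      refine Finset.measurable_prod _ fun x _ => ?_
      by_cases hB : x ∈ B
      · simp only [if_pos hB]
        exact (hJm.comp (measurable_pi_apply x)).ennreal_ofReal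
      · simp only [if_neg hB]
        exact measurable_const
    have hg : (fun V : X → ℝ => F (fun x => if x ∈ insert i T ∧ x ∈ B then
        V x + s * chi c (V x) else V x) *
        ∏ x ∈ insert i T, (if x ∈ B then ENNReal.ofReal (J1 c s (V x)) else 1)) =
        fun V : X → ℝ => Fi (fun x => if x ∈ T ∧ x ∈ B then V x + s * chi c (V x) else V x) *
          ∏ x ∈ T, (if x ∈ B then ENNReal.ofReal (J1 c s (V x)) else 1) := by
      funext V
      rw [Finset.prod_insert hi]
      simp only [hFi]
      have e1 : (if i ∈ T ∧ i ∈ B then V i + s * chi c (V i) else V i) = V i :=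
        if_neg fun h => hi h.1
      rw [e1, ← mul_assoc]
      congr 2
      congr 1
      funext x
      by_cases hx : x = i
      · subst hx
        rw [Function.update_self]
        by_cases hB : x ∈ B
        · rw [if_pos ⟨Finset.mem_insert_self _ _, hB⟩, if_pos hB]
        · rw [if_neg (fun h => hB h.2), if_neg hB]
      · rw [Function.update_of_ne hx]
        have : (x ∈ insert i T ∧ x ∈ B) ↔ (x ∈ T ∧ x ∈ B) := by
          rw [Finset.mem_insert]
          constructor
          · rintro ⟨h | h, h'⟩
            · exact absurd h hx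
            · exact ⟨h, h'⟩
          · rintro ⟨h, h'⟩
            exact ⟨Or.inr h, h'⟩
        simp only [this]
    have hgm : Measurable (fun V : X → ℝ => F (fun x => if x ∈ insert i T ∧ x ∈ B then
        V x + s * chi c (V x) else V x) *
        ∏ x ∈ insert i T, (if x ∈ B then ENNReal.ofReal (J1 c s (V x)) else 1)) :=
      (hF.comp hshift).mul hprodm
    have h1 : (∫⋯∫⁻_(insert i T), (fun V : X → ℝ => F (fun x => if x ∈ insert i T ∧ x ∈ B then
        V x + s * chi c (V x) else V x) *
        ∏ x ∈ insert i T, (if x ∈ B then ENNReal.ofReal (J1 c s (V x)) else 1))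
          ∂(fun _ : X => unif c)) = ∫⋯∫⁻_(insert i T), Fi ∂(fun _ : X => unif c) := by
      funext V
      rw [lmarginal_insert _ hgm hi, lmarginal_insert _ hFim hi]
      refine lintegral_congr fun v => ?_
      rw [hg, ih hFim]
    rw [h1, lmarginal_insert' _ hFim hi, lmarginal_insert' _ hF hi]
    congr 1
    funext V
    have h2 : ∀ v : ℝ, Fi (Function.update V i v) =
        F (Function.update V i (if i ∈ B then v + s * chi c v else v)) *
          (if i ∈ B then ENNReal.ofReal (J1 c s v) else 1) := by
      intro v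
      simp only [hFi, Function.update_self, Function.update_idem]
    simp only [h2]
    by_cases hB : i ∈ B
    · simp only [if_pos hB]
      exact jac_one hc hs (F := fun v => F (Function.update V i v))
        (hF.comp (measurable_update V))
    · simp only [if_neg hB, mul_one]

theorem jac (B : Set X) {c b t : ℝ} (hc : 0 < c) (hs : |t * b| ≤ c / 4)
    {F : (X → ℝ) → ENNReal} (hF : Measurable F) :
    ∫⁻ V, F (shf B c b V t) * ENNReal.ofReal (Jb B c b t V) ∂(PX X c) = ∫⁻ V, F V ∂(PX X c) := by
  classical
  have hP := isProb_unif hc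
  have h1 := jac_fin B hc hs (Finset.univ : Finset X) hF
  have h2 : ∫⁻ V, F (shf B c b V t) * ENNReal.ofReal (Jb B c b t V) ∂(PX X c) =
      ∫⁻ V, F (fun x => if x ∈ Finset.univ ∧ x ∈ B then V x + (t * b) * chi c (V x) else V x) *
        ∏ x ∈ Finset.univ, (if x ∈ B then ENNReal.ofReal (J1 c (t * b) (V x)) else 1)
          ∂(PX X c) := by
    refine lintegral_congr_ae ?_
    filter_upwards [ae_cube (X := X) hc] with V hV
    have e1 : shf B c b V t =
        fun x => if x ∈ Finset.univ ∧ x ∈ B then V x + (t * b) * chi c (V x) else V x := by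
      funext x
      unfold shf
      by_cases hB : x ∈ B
      · rw [if_pos hB, if_pos ⟨Finset.mem_univ x, hB⟩]
        ring
      · rw [if_neg hB, if_neg (fun h => hB h.2)]
    have e2 : ENNReal.ofReal (Jb B c b t V) =
        ∏ x ∈ Finset.univ, (if x ∈ B then ENNReal.ofReal (J1 c (t * b) (V x)) else 1) := by
      unfold Jb
      rw [ENNReal.ofReal_prod_of_nonneg]
      · refine Finset.prod_congr rfl fun x _ => ?_
        split_ifs
        · rfl
        · exact ENNReal.ofReal_one
      · intro x _
        split_ifs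
        · have := (J1_bounds hc hs (hV x)).1
          linarith
        · exact zero_le_one
    rw [e1, e2]
  rw [h2]
  have h3 := congrFun h1 (fun _ => 0)
  rw [← lintegral_eq_lmarginal_univ, ← lintegral_eq_lmarginal_univ] at h3
  exact h3

private theorem jac_pow_le {c s v a : ℝ} (hc : 0 < c) (hs : |s| ≤ c / 4) (ha : 0 ≤ a)
    (hv : v ∈ Set.Icc (-c) c) :
    (J1 c s v) ^ (-a) ≤ Real.exp (8 * a * (s / c) ^ 2) * Real.exp (2 * a * s / c ^ 2 * v) := by
  obtain ⟨h1, h2⟩ := J1_bounds hc hs hv
  have hpos : 0 < J1 c s v := by linarith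
  rw [Real.rpow_def_of_pos hpos, ← Real.exp_add]
  refine Real.exp_le_exp.mpr ?_
  set x := 2 * s * v / c ^ 2 with hx
  have hJ : J1 c s v = 1 - x := rfl
  have h3 := Real.one_sub_inv_le_log_of_pos hpos
  have h4 : -(x + 2 * x ^ 2) ≤ Real.log (J1 c s v) := by
    refine le_trans ?_ h3
    rw [hJ] at h1 h2 hpos ⊢
    have h5 : (1 - x)⁻¹ ≤ 1 + x + 2 * x ^ 2 := by
      rw [inv_le_iff_one_le_mul₀ hpos]
      nlinarith [sq_nonneg x, mul_nonneg (sq_nonneg x) (by linarith : (0 : ℝ) ≤ 1 - 2 * x)]
    linarith
  have h6 : x ^ 2 ≤ 4 * (s / c) ^ 2 := by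
    have hv' : |v| ≤ c := abs_le.mpr hv
    have h7 : x = 2 * (s / c) * (v / c) := by
      rw [hx]
      field_simp
    have h8 : (v / c) ^ 2 ≤ 1 := by
      rw [← sq_abs, abs_div, abs_of_pos hc]
      exact pow_le_one₀ (by positivity) ((div_le_one hc).mpr hv')
    rw [h7]
    calc (2 * (s / c) * (v / c)) ^ 2 = 4 * (s / c) ^ 2 * (v / c) ^ 2 := by ring
      _ ≤ 4 * (s / c) ^ 2 * 1 := by gcongr
      _ = 4 * (s / c) ^ 2 := by ring
  have h9 : 2 * a * s / c ^ 2 * v = a * x := by
    rw [hx]
    ring
  rw [h9]
  nlinarith [mul_le_mul_of_nonneg_left h4 ha, mul_le_mul_of_nonneg_left h6 ha]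

private theorem jac_exp_le {c l : ℝ} (hc : 0 < c) :
    ∫ v, Real.exp (l * v) ∂(unif c) ≤ Real.exp (l ^ 2 * c ^ 2 / 2) := by
  rw [integral_unif hc, integral_Icc_eq_integral_Ioc,
    ← intervalIntegral.integral_of_le (by linarith : -c ≤ c), smul_eq_mul]
  have h1 : ∫ v in (-c)..c, Real.exp (l * v) = ∫ v in (-c)..c, Real.exp (l * (-v)) := by
    have h := intervalIntegral.integral_comp_neg (a := -c) (b := c) (fun v => Real.exp (l * v))
    rw [neg_neg] at h
    exact h.symm
  have hi : ∀ m : ℝ, IntervalIntegrable (fun v => Real.exp (m * v)) volume (-c) c := by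
    intro m
    apply Continuous.intervalIntegrable
    fun_prop
  have h2 : 2 * ∫ v in (-c)..c, Real.exp (l * v) ≤ 2 * (2 * c * Real.exp (l ^ 2 * c ^ 2 / 2)) := by
    calc 2 * ∫ v in (-c)..c, Real.exp (l * v) =
        (∫ v in (-c)..c, Real.exp (l * v)) + ∫ v in (-c)..c, Real.exp (l * (-v)) := by
          rw [← h1]; ring
      _ = ∫ v in (-c)..c, (Real.exp (l * v) + Real.exp (l * (-v))) := by
          rw [intervalIntegral.integral_add (hi l)]
          have := hi (-l)
          simpa using this
      _ ≤ ∫ v in (-c)..c, 2 * Real.exp (l ^ 2 * c ^ 2 / 2) := by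
          refine intervalIntegral.integral_mono_on (by linarith) ?_ ?_ ?_
          · apply Continuous.intervalIntegrable
            fun_prop
          · exact intervalIntegrable_const
          · intro v hv
            have h3 : Real.exp (l * v) + Real.exp (l * (-v)) = 2 * Real.cosh (l * v) := by
              rw [Real.cosh_eq, mul_neg]
              ring
            rw [h3]
            refine mul_le_mul_of_nonneg_left ?_ (by norm_num)
            refine le_trans (Real.cosh_le_exp_half_sq _) (Real.exp_le_exp.mpr ?_)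
            have hv' : |v| ≤ c := abs_le.mpr hv
            have h4 : v ^ 2 ≤ c ^ 2 := by
              rw [← sq_abs v]
              exact pow_le_pow_left₀ (abs_nonneg _) hv' 2
            rw [mul_pow]
            have h5 := mul_le_mul_of_nonneg_left h4 (sq_nonneg l)
            linarith
      _ = 2 * (2 * c * Real.exp (l ^ 2 * c ^ 2 / 2)) := by
          rw [intervalIntegral.integral_const, smul_eq_mul]
          ring
  have h3 : ∫ v in (-c)..c, Real.exp (l * v) ≤ 2 * c * Real.exp (l ^ 2 * c ^ 2 / 2) := by linarith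
  rw [inv_mul_le_iff₀ (by positivity)]
  exact h3

private theorem jac_exp_int {c l : ℝ} (hc : 0 < c) :
    Integrable (fun v => Real.exp (l * v)) (unif c) := by
  have := isProb_unif hc
  have hae : ∀ᵐ v ∂(unif c), v ∈ Set.Icc (-c) c := by
    unfold unif
    exact Measure.ae_smul_measure (ae_restrict_mem measurableSet_Icc) _
  refine Integrable.of_bound (by fun_prop) (Real.exp (|l| * c)) ?_
  filter_upwards [hae] with v hv
  rw [Real.norm_eq_abs, Real.abs_exp]
  refine Real.exp_le_exp.mpr ?_
  calc l * v ≤ |l * v| := le_abs_self _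
    _ = |l| * |v| := abs_mul _ _
    _ ≤ |l| * c := by
        have hv' : |v| ≤ c := abs_le.mpr hv
        gcongr

private theorem jac_neg' {a c s : ℝ} (ha : 0 ≤ a) (hc : 0 < c) (hs : |s| ≤ c / 4) :
    ∫ v, (J1 c s v) ^ (-a) ∂(unif c) ≤ Real.exp ((8 * a + 2 * a ^ 2 + 1) * (s / c) ^ 2) := by
  have := isProb_unif hc
  have hae : ∀ᵐ v ∂(unif c), v ∈ Set.Icc (-c) c := by
    unfold unif
    exact Measure.ae_smul_measure (ae_restrict_mem measurableSet_Icc) _
  have h1 : ∫ v, (J1 c s v) ^ (-a) ∂(unif c) ≤
      ∫ v, Real.exp (8 * a * (s / c) ^ 2) * Real.exp (2 * a * s / c ^ 2 * v) ∂(unif c) := by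
    refine integral_mono_of_nonneg ?_ ((jac_exp_int hc).const_mul _) ?_
    · filter_upwards [hae] with v hv
      have := (J1_bounds hc hs hv).1
      exact Real.rpow_nonneg (by linarith) _
    · filter_upwards [hae] with v hv
      exact jac_pow_le hc hs ha hv
  refine le_trans h1 ?_
  rw [integral_const_mul]
  calc Real.exp (8 * a * (s / c) ^ 2) * ∫ v, Real.exp (2 * a * s / c ^ 2 * v) ∂(unif c) ≤
      Real.exp (8 * a * (s / c) ^ 2) * Real.exp ((2 * a * s / c ^ 2) ^ 2 * c ^ 2 / 2) := by
        gcongr
        exact jac_exp_le hc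
    _ = Real.exp ((8 * a + 2 * a ^ 2) * (s / c) ^ 2) := by
        rw [← Real.exp_add]
        congr 1
        field_simp
    _ ≤ Real.exp ((8 * a + 2 * a ^ 2 + 1) * (s / c) ^ 2) := by
        refine Real.exp_le_exp.mpr ?_
        have : 0 ≤ (s / c) ^ 2 := sq_nonneg _
        nlinarith

theorem jac_neg {a : ℝ} (ha : 0 ≤ a) : ∃ Ca : ℝ, 0 < Ca ∧ ∀ c s : ℝ, 0 < c → |s| ≤ c / 4 →
    ∫ v, (J1 c s v) ^ (-a) ∂(unif c) ≤ Real.exp (Ca * (s / c) ^ 2) :=
  ⟨8 * a + 2 * a ^ 2 + 1, by positivity, fun _ _ hc hs => jac_neg' ha hc hs⟩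

theorem jac_neg_prod {a : ℝ} (ha : 0 ≤ a) : ∃ Ca : ℝ, 0 < Ca ∧
    ∀ (X : Type) [Fintype X] [DecidableEq X] (B : Finset X) (c b t : ℝ), 0 < c → |t * b| ≤ c / 4 →
      Integrable (fun V => (Jb (B : Set X) c b t V) ^ (-a)) (PX X c) ∧
      ∫ V, (Jb (B : Set X) c b t V) ^ (-a) ∂(PX X c) ≤ Real.exp (Ca * (t * b / c) ^ 2 * B.card) := by
  classical
  refine ⟨8 * a + 2 * a ^ 2 + 1, by positivity, ?_⟩
  intro X _ _ B c b t hc hs
  have := isProb_unif hc
  have hae : ∀ᵐ v ∂(unif c), v ∈ Set.Icc (-c) c := by
    unfold unif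
    exact Measure.ae_smul_measure (ae_restrict_mem measurableSet_Icc) _
  set g : X → ℝ → ℝ := fun x v => if x ∈ B then (J1 c (t * b) v) ^ (-a) else 1 with hg
  have hJm : Measurable (J1 c (t * b)) := by
    unfold J1
    fun_prop
  have hgi : ∀ x, Integrable (g x) (unif c) := by
    intro x
    by_cases hx : x ∈ B
    · simp only [hg, if_pos hx]
      refine Integrable.of_bound (hJm.pow_const _).aestronglyMeasurable ((1 / 2 : ℝ) ^ (-a)) ?_
      filter_upwards [hae] with v hv
      have h1 := (J1_bounds hc hs hv).1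
      rw [Real.norm_eq_abs, abs_of_nonneg (Real.rpow_nonneg (by linarith) _)]
      exact Real.rpow_le_rpow_of_nonpos (by norm_num) h1 (by linarith)
    · simp only [hg, if_neg hx]
      exact integrable_const _
  have hprod : (fun V : X → ℝ => ∏ x, g x (V x)) =ᵐ[PX X c]
      fun V => (Jb (B : Set X) c b t V) ^ (-a) := by
    filter_upwards [ae_cube (X := X) hc] with V hV
    unfold Jb
    rw [← Real.finsetProd_rpow]
    · refine Finset.prod_congr rfl fun x _ => ?_
      simp only [hg, Finset.mem_coe]
      split_ifs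
      · rfl
      · rw [Real.one_rpow]
    · intro x _
      split_ifs
      · have := (J1_bounds hc hs (hV x)).1
        linarith
      · exact zero_le_one
  have hint : Integrable (fun V : X → ℝ => ∏ x, g x (V x)) (PX X c) :=
    Integrable.fintype_prod hgi
  refine ⟨hint.congr hprod, ?_⟩
  rw [← integral_congr_ae hprod]
  have h1 : ∫ V, ∏ x, g x (V x) ∂(PX X c) = ∏ x, ∫ v, g x v ∂(unif c) :=
    integral_fintype_prod_eq_prod g
  rw [h1]
  have h2 : ∏ x, ∫ v, g x v ∂(unif c) ≤
      ∏ x, (if x ∈ B then Real.exp ((8 * a + 2 * a ^ 2 + 1) * (t * b / c) ^ 2) else 1) := by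
    refine Finset.prod_le_prod ?_ ?_
    · intro x _
      refine integral_nonneg_of_ae ?_
      filter_upwards [hae] with v hv
      simp only [hg]
      split_ifs
      · have := (J1_bounds hc hs hv).1
        exact Real.rpow_nonneg (by linarith) _
      · exact zero_le_one
    · intro x _
      by_cases hx : x ∈ B
      · simp only [hg, if_pos hx]
        exact jac_neg' ha hc hs
      · simp only [hg, if_neg hx, integral_const, probReal_univ, one_smul]
        exact le_rfl
  refine le_trans h2 (le_of_eq ?_)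
  rw [Finset.prod_ite_mem, Finset.univ_inter, Finset.prod_const, ← Real.exp_nat_mul]
  congr 1
  ring

end Pool.Agent.Lib.MP_562b47_mp.Str
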