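import Pool.Agent.Lib.MP_562b47_mp.Str.LeadX

/-!
Module STR-Lead (MP_562b47_mp, strips).  Factorisation of the transmission block with leads: with
`y = yLead i j η` and `T_{[i,j]} = blk G_{[i,j], yLead i j η} i j`,
`T_{[i,j]} = T_{[i,k]} * X * T_{[k+3,j]}` for `i ≤ k`, `k + 3 ≤ j`, where
`X = G(k+1,k+2) + i G(k+1,k+3) + i G(k,k+2) - G(k,k+3)` (blocks of `G = G_{[i,j], yLead i j η}`).

PROOF of `lead_factor`.  `y := yLead i j η`.
* `blk_chainL` (`Frac`) at `k` with `b = k+1`-side target: for `b` with `k < b ≤ j`: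
  `G(i,b) = G^l(i,k) G(k+1,b)` and `G(k,b) = Γ₁ G(k+1,b)`, `G^l := G_{[i,k], y}`, `Γ₁ := G^l(k,k)`.
* `G^l` (absorption `y = yLead i j η`) versus `T_{[i,k]}` (absorption `yLead i k η`): on `[i,k]` they differ
  by `1` on the layer `k` (`k < j`).  Resolvent identity for two systems with the same `H` which differ
  in `y` (`K' - K = i (y' - y)`): `G^l = G' + G' (K' - K) G^l`, so
  `blk G^l i k = blk G' i k + I • (blk G' i k * blk G^l k k) = T (1 + I • Γ₁)`.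
  (The absorptions also differ on the layer `j` outside `[i,k]`: `G_supp` kills these terms, or use
  `G_agree` first to replace `yLead i j η` by a function equal to it on `[i,k]`.)
* So `G(i,b) = T (G(k+1,b) + I • G(k,b))` for `k < b ≤ j`.
* In the same way (`blk_chainR` at `k + 2`) for `i ≤ a ≤ k+2`: `G(a,j) = G(a,k+2) G^r(k+3,j)`,
  `G(a,k+3) = G(a,k+2) Γ₂`, `G^r(k+3,j) = (1 + I • Γ₂) T'`, `T' = T_{[k+3,j]}`, so
  `G(a,j) = (G(a,k+2) + I • G(a,k+3)) T'`.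
* Combine: `G(i,j) = T (G(k+1,j) + I • G(k,j)) = T X T'`.
PROOF of `lead_remove`.  `y₁₁ = yLead 0 (L-1) η`, `y₁₀ = η + 1_{layer 0}`, `y₀₀ = η`; the same `H`, so by
the resolvent identity `G₁₀ = G₁₁ + G₁₁ (i 1_{layer L-1}) G₁₀` and `G₀₀ = G₁₀ + G₀₀ (i 1_{layer 0}) G₁₀`;
blocks `(0, L-1)`.  (For `L = 1` the two layers coincide, `y₁₁ = η + 2`, and the same computation holds.)
-/

open MeasureTheory Matrix Complex

namespace Pool.Agent.Lib.MP_562b47_mp.Str

variable {Q : Type} [Fintype Q] [DecidableEq Q]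

private theorem lead_K_sub {L : ℕ} (h : Fin L → Matrix Q Q ℝ) (i j : ℕ) (y y' : Fin L × Q → ℝ)
    (ν : Fin L × Q → ℂ) :
    (segD L h i j y').K ν - (segD L h i j y).K ν
      = diagonal fun x => ((y' x - y x : ℝ) : ℂ) * I := by
  ext x z
  simp only [Sys.K, segD, Matrix.sub_apply, Matrix.add_apply, diagonal_apply]
  split_ifs
  · push_cast
    ring
  · ring

private theorem lead_sum {L : ℕ} {i j : ℕ} (m : Fin L) (hm : i ≤ m ∧ (m : ℕ) ≤ j)
    (A B d : Fin L × Q → ℂ)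
    (hA : ∀ x : Fin L × Q, ¬ (i ≤ x.1 ∧ (x.1 : ℕ) ≤ j) → A x = 0 ∨ B x = 0)
    (hd : ∀ x : Fin L × Q, i ≤ x.1 → (x.1 : ℕ) ≤ j → d x = if x.1 = m then I else 0) :
    ∑ x, A x * d x * B x = I * ∑ r, A (m, r) * B (m, r) := by
  rw [Fintype.sum_prod_type, Finset.sum_eq_single m]
  · rw [Finset.mul_sum]
    refine Finset.sum_congr rfl fun r _ => ?_
    rw [hd (m, r) hm.1 hm.2, if_pos rfl]
    ring
  · intro b _ hb
    refine Finset.sum_eq_zero fun r _ => ?_
    by_cases hin : i ≤ (b : ℕ) ∧ (b : ℕ) ≤ j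
    · rw [hd (b, r) hin.1 hin.2, if_neg hb, mul_zero, zero_mul]
    · rcases hA (b, r) hin with h1 | h1
      · rw [h1, zero_mul, zero_mul]
      · rw [h1, mul_zero]
  · intro hh
    exact absurd (Finset.mem_univ _) hh

private theorem lead_d {L : ℕ} {i j : ℕ} {y y' : Fin L × Q → ℝ} {m : Fin L}
    (hyy : ∀ x : Fin L × Q, i ≤ x.1 → (x.1 : ℕ) ≤ j → y' x = y x + if x.1 = m then 1 else 0)
    (x : Fin L × Q) (h1 : i ≤ x.1) (h2 : (x.1 : ℕ) ≤ j) :
    ((y' x - y x : ℝ) : ℂ) * I = if x.1 = m then I else 0 := by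
  rw [hyy x h1 h2, add_sub_cancel_left]
  split_ifs
  · push_cast
    ring
  · push_cast
    ring

/-- change of the absorption by `1` on the layer `m` (left version) -/
private theorem lead_res {L : ℕ} {h : Fin L → Matrix Q Q ℝ} (hs : ∀ k, (h k).IsSymm) {i j : ℕ}
    {y y' : Fin L × Q → ℝ} (hy : ∀ x, 0 < y x) (hy' : ∀ x, 0 < y' x) {m : Fin L}
    (hm : i ≤ m ∧ (m : ℕ) ≤ j)
    (hyy : ∀ x : Fin L × Q, i ≤ x.1 → (x.1 : ℕ) ≤ j → y' x = y x + if x.1 = m then 1 else 0)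
    (V : Fin L × Q → ℝ) {a : Fin L} (b : Fin L) (ha : i ≤ a ∧ (a : ℕ) ≤ j) :
    blk (Gs L h i j y V) a b = blk (Gs L h i j y' V) a b
      + I • (blk (Gs L h i j y' V) a m * blk (Gs L h i j y V) m b) := by
  have hν : Adm (fun x : Fin L × Q => ((V x : ℝ) : ℂ)) := fun x => by
    rw [Complex.ofReal_im]
  have hS := segD_good hs hy i j
  have hS' := segD_good hs hy' i j
  have e : (segD L h i j y).G (fun x => ((V x : ℝ) : ℂ))
      = (segD L h i j y').G (fun x => ((V x : ℝ) : ℂ))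
        + (segD L h i j y').G (fun x => ((V x : ℝ) : ℂ))
          * (diagonal fun x => ((y' x - y x : ℝ) : ℂ) * I)
          * (segD L h i j y).G (fun x => ((V x : ℝ) : ℂ)) := by
    rw [← lead_K_sub h i j y y' (fun x => ((V x : ℝ) : ℂ)), Matrix.mul_sub, Sys.G_mul_K hS' hν,
      Matrix.sub_mul, Matrix.one_mul, Matrix.mul_assoc, Sys.K_mul_G hS hν, Matrix.mul_one]
    abel
  ext q q'
  have h1 := congrFun (congrFun e (a, q)) (b, q')
  rw [Matrix.add_apply, Matrix.mul_apply] at h1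
  simp only [mul_diagonal] at h1
  rw [lead_sum m hm (fun x => (segD L h i j y').G (fun x => ((V x : ℝ) : ℂ)) (a, q) x)
    (fun x => (segD L h i j y).G (fun x => ((V x : ℝ) : ℂ)) x (b, q'))
    (fun x => ((y' x - y x : ℝ) : ℂ) * I)
    (fun x hx => Or.inl (G_supp hs hy' hν ha hx))
    (fun x h1 h2 => lead_d hyy x h1 h2)] at h1
  simp only [blk, Gs, Matrix.add_apply, Matrix.smul_apply, Matrix.mul_apply, smul_eq_mul]
  exact h1

/-- change of the absorption by `1` on the layer `m` (right version) -/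
private theorem lead_res' {L : ℕ} {h : Fin L → Matrix Q Q ℝ} (hs : ∀ k, (h k).IsSymm) {i j : ℕ}
    {y y' : Fin L × Q → ℝ} (hy : ∀ x, 0 < y x) (hy' : ∀ x, 0 < y' x) {m : Fin L}
    (hm : i ≤ m ∧ (m : ℕ) ≤ j)
    (hyy : ∀ x : Fin L × Q, i ≤ x.1 → (x.1 : ℕ) ≤ j → y' x = y x + if x.1 = m then 1 else 0)
    (V : Fin L × Q → ℝ) {a : Fin L} (b : Fin L) (ha : i ≤ a ∧ (a : ℕ) ≤ j) :
    blk (Gs L h i j y V) a b = blk (Gs L h i j y' V) a b
      + I • (blk (Gs L h i j y V) a m * blk (Gs L h i j y' V) m b) := by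
  have hν : Adm (fun x : Fin L × Q => ((V x : ℝ) : ℂ)) := fun x => by
    rw [Complex.ofReal_im]
  have hS := segD_good hs hy i j
  have hS' := segD_good hs hy' i j
  have e : (segD L h i j y).G (fun x => ((V x : ℝ) : ℂ))
      = (segD L h i j y').G (fun x => ((V x : ℝ) : ℂ))
        + (segD L h i j y).G (fun x => ((V x : ℝ) : ℂ))
          * (diagonal fun x => ((y' x - y x : ℝ) : ℂ) * I)
          * (segD L h i j y').G (fun x => ((V x : ℝ) : ℂ)) := by
    rw [← lead_K_sub h i j y y' (fun x => ((V x : ℝ) : ℂ)), Matrix.mul_sub, Sys.G_mul_K hS hν,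
      Matrix.sub_mul, Matrix.one_mul, Matrix.mul_assoc, Sys.K_mul_G hS' hν, Matrix.mul_one]
    abel
  ext q q'
  have h1 := congrFun (congrFun e (a, q)) (b, q')
  rw [Matrix.add_apply, Matrix.mul_apply] at h1
  simp only [mul_diagonal] at h1
  rw [lead_sum m hm (fun x => (segD L h i j y).G (fun x => ((V x : ℝ) : ℂ)) (a, q) x)
    (fun x => (segD L h i j y').G (fun x => ((V x : ℝ) : ℂ)) x (b, q'))
    (fun x => ((y' x - y x : ℝ) : ℂ) * I)
    (fun x hx => Or.inl (G_supp hs hy hν ha hx))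
    (fun x h1 h2 => lead_d hyy x h1 h2)] at h1
  simp only [blk, Gs, Matrix.add_apply, Matrix.smul_apply, Matrix.mul_apply, smul_eq_mul]
  exact h1

private theorem yLead_pos {L : ℕ} {η : ℝ} (hη : 0 < η) (i j : ℕ) (x : Fin L × Q) :
    0 < yLead i j η x := by
  unfold yLead
  split_ifs <;> linarith

theorem lead_factor {L : ℕ} {h : Fin L → Matrix Q Q ℝ} (hs : ∀ k, (h k).IsSymm) {η : ℝ}
    (hη : 0 < η) {i k j : ℕ} (hik : i ≤ k) (hkj : k + 3 ≤ j) (hj : j < L) (V : Fin L × Q → ℝ) :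
    blk (Gs L h i j (yLead i j η) V) ⟨i, by omega⟩ ⟨j, hj⟩
      = blk (Gs L h i k (yLead i k η) V) ⟨i, by omega⟩ ⟨k, by omega⟩
        * leadX (Gs L h i j (yLead i j η) V) ⟨k, by omega⟩ ⟨k + 1, by omega⟩ ⟨k + 2, by omega⟩
            ⟨k + 3, by omega⟩
        * blk (Gs L h (k + 3) j (yLead (k + 3) j η) V) ⟨k + 3, by omega⟩ ⟨j, hj⟩ := by
  have hy := fun x : Fin L × Q => yLead_pos hη i j x
  have hy1 := fun x : Fin L × Q => yLead_pos hη i k x
  have hy2 := fun x : Fin L × Q => yLead_pos hη (k + 3) j x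
  -- left part
  have l1 := blk_chainL hs hy V hik (by omega : k + 1 < L) (by omega : k < j)
    (a := ⟨i, by omega⟩) (b := ⟨j, hj⟩) ⟨le_refl _, hik⟩ ⟨by simp only; omega, le_refl _⟩
  have l2 := blk_chainL hs hy V hik (by omega : k + 1 < L) (by omega : k < j)
    (a := ⟨k, by omega⟩) (b := ⟨j, hj⟩) ⟨hik, le_refl _⟩ ⟨by simp only; omega, le_refl _⟩
  have l3 := lead_res hs (i := i) (j := k) hy hy1 (m := ⟨k, by omega⟩) ⟨hik, le_refl _⟩
    (fun x h1 h2 => by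
      unfold yLead
      rw [if_neg (show ¬ (x.1 : ℕ) = j by omega)]
      have e1 : (if (x.1 : ℕ) = k then (1 : ℝ) else 0)
          = if x.1 = (⟨k, by omega⟩ : Fin L) then 1 else 0 :=
        if_congr (by rw [Fin.ext_iff]) rfl rfl
      rw [e1]
      ring) V (a := ⟨i, by omega⟩) ⟨k, by omega⟩ ⟨le_refl _, hik⟩
  -- right part
  have r : ∀ a : Fin L, i ≤ a ∧ (a : ℕ) ≤ k + 2 →
      blk (Gs L h i j (yLead i j η) V) a ⟨j, hj⟩
        = (blk (Gs L h i j (yLead i j η) V) a ⟨k + 2, by omega⟩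
          + I • blk (Gs L h i j (yLead i j η) V) a ⟨k + 3, by omega⟩)
        * blk (Gs L h (k + 3) j (yLead (k + 3) j η) V) ⟨k + 3, by omega⟩ ⟨j, hj⟩ := by
    intro a ha
    have hL3 : k + 3 < L := by omega
    have hi2 : i ≤ k + 2 := by omega
    have hj2 : k + 2 < j := by omega
    have r1 := blk_chainR hs hy V (k := k + 2) hi2 hL3 hj2
      (a := a) (b := ⟨j, hj⟩) ha ⟨hj2, le_refl _⟩
    have r2 := blk_chainR hs hy V (k := k + 2) hi2 hL3 hj2
      (a := a) (b := ⟨k + 3, hL3⟩) ha ⟨Nat.lt_succ_self (k + 2), hkj⟩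
    have r3 := lead_res' hs (i := k + 3) (j := j) hy hy2 (m := ⟨k + 3, by omega⟩)
      ⟨le_refl _, hkj⟩
      (fun x h1 h2 => by
        unfold yLead
        rw [if_neg (show ¬ (x.1 : ℕ) = i by omega)]
        have e1 : (if (x.1 : ℕ) = k + 3 then (1 : ℝ) else 0)
            = if x.1 = (⟨k + 3, by omega⟩ : Fin L) then 1 else 0 :=
          if_congr (by rw [Fin.ext_iff]) rfl rfl
        rw [e1]
        ring) V (a := ⟨k + 3, by omega⟩) ⟨j, hj⟩ ⟨le_refl _, hkj⟩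
    rw [r1, r2, r3]
    simp only [Matrix.mul_add, Matrix.add_mul, Matrix.mul_smul, Matrix.smul_mul,
      Matrix.mul_assoc]
  have r1 := r ⟨k + 1, by omega⟩ ⟨by simp only; omega, by simp only; omega⟩
  have r0 := r ⟨k, by omega⟩ ⟨by simp only; omega, by simp only; omega⟩
  rw [l1, l3, Matrix.add_mul, Matrix.smul_mul, Matrix.mul_assoc, ← l2, r1, r0, leadX]
  simp only [Matrix.mul_add, Matrix.add_mul, Matrix.mul_sub, Matrix.sub_mul, Matrix.mul_smul,
    Matrix.smul_mul, smul_add, smul_smul, Complex.I_mul_I, neg_smul, one_smul, Matrix.mul_assoc]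
  abel

/-- removing the leads: the block without leads -/
theorem lead_remove {L : ℕ} {h : Fin L → Matrix Q Q ℝ} (hs : ∀ k, (h k).IsSymm) {η : ℝ}
    (hη : 0 < η) (hL : 1 ≤ L) (V : Fin L × Q → ℝ) :
    blk (Gs L h 0 (L - 1) (fun _ => η) V) ⟨0, by omega⟩ ⟨L - 1, by omega⟩
      = (1 + I • blk (Gs L h 0 (L - 1) (fun _ => η) V) ⟨0, by omega⟩ ⟨0, by omega⟩)
        * blk (Gs L h 0 (L - 1) (yLead 0 (L - 1) η) V) ⟨0, by omega⟩ ⟨L - 1, by omega⟩
        * (1 + I • blk (Gs L h 0 (L - 1) (fun x => η + if (x.1 : ℕ) = 0 then 1 else 0) V)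
            ⟨L - 1, by omega⟩ ⟨L - 1, by omega⟩) := by
  have hy0 : ∀ x : Fin L × Q, 0 < (fun _ => η : Fin L × Q → ℝ) x := fun _ => hη
  have hy1 : ∀ x : Fin L × Q,
      0 < (fun x => η + if (x.1 : ℕ) = 0 then 1 else 0 : Fin L × Q → ℝ) x := by
    intro x
    simp only
    split_ifs <;> linarith
  have hy2 := fun x : Fin L × Q => yLead_pos hη 0 (L - 1) x
  have a1 := lead_res hs (i := 0) (j := L - 1) hy1 hy2 (m := ⟨L - 1, by omega⟩)
    ⟨Nat.zero_le _, le_refl _⟩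
    (fun x _ _ => by
      unfold yLead
      have e1 : (if (x.1 : ℕ) = L - 1 then (1 : ℝ) else 0)
          = if x.1 = (⟨L - 1, by omega⟩ : Fin L) then 1 else 0 :=
        if_congr (by rw [Fin.ext_iff]) rfl rfl
      rw [e1]) V (a := ⟨0, by omega⟩) ⟨L - 1, by omega⟩ ⟨le_refl _, Nat.zero_le _⟩
  have a2 := lead_res' hs (i := 0) (j := L - 1) hy0 hy1 (m := ⟨0, by omega⟩)
    ⟨le_refl _, Nat.zero_le _⟩
    (fun x _ _ => by
      have e1 : (if (x.1 : ℕ) = 0 then (1 : ℝ) else 0)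
          = if x.1 = (⟨0, by omega⟩ : Fin L) then 1 else 0 :=
        if_congr (by rw [Fin.ext_iff]) rfl rfl
      simp only [e1]) V (a := ⟨0, by omega⟩) ⟨L - 1, by omega⟩ ⟨le_refl _, Nat.zero_le _⟩
  have b1 : blk (Gs L h 0 (L - 1) (fun _ => η) V) ⟨0, by omega⟩ ⟨L - 1, by omega⟩
      = (1 + I • blk (Gs L h 0 (L - 1) (fun _ => η) V) ⟨0, by omega⟩ ⟨0, by omega⟩)
        * blk (Gs L h 0 (L - 1) (fun x => η + if (x.1 : ℕ) = 0 then 1 else 0) V)
          ⟨0, by omega⟩ ⟨L - 1, by omega⟩ := by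
    rw [Matrix.add_mul, Matrix.one_mul, Matrix.smul_mul]
    exact a2
  rw [b1, a1, Matrix.mul_assoc]
  simp only [Matrix.mul_add, Matrix.mul_one, Matrix.mul_smul]

end Pool.Agent.Lib.MP_562b47_mp.Str
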