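import Pool.Agent.Lib.MP_562b47_mp.Str.Block

/-!
Module STR-Ode (MP_562b47_mp, strips).  Iteration of the block theorem.

PROOF.  Let `ε' = ε/2`, `Λ0, Cη` from `block` for `ε'`, `A := m Λ^ε'`, `l := ⌈A⌉` (so
`A ≤ l ≤ A + 1 ≤ 2A`, `A ≥ 1`), `Φ_j := S.Phi c ℓ (n0 + j l)`, `d := N - n0 ≥ 1` (as a real number).
`M - ∫ ‖S‖² ≤ Φ_j ≤ M ≤ m` for all `j` (`card_sub_le_Phi`, `Phi_le_card`).  `J := ⌊d/l⌋`.
* `J = 0`: `d < l ≤ 2A`, so `M ≤ m ≤ 2 m A/d = 2 m² Λ^ε'/d ≤ 4 m² Λ^ε/d`.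
* Some `Φ_j < Λ^(-8)`, `j ≤ J`: `Φ_j ≤ Λ^(-8) ≤ 1/Λ ≤ 1/d` (`N ≤ Λ`) `≤ 4 m² Λ^ε/d`.
* Otherwise, for `j < J`, `block` (all hypotheses `BD` hold for `n = n0 + j l`, `n + l ≤ N`):
  `Φ_{j+1} ≤ Φ_j - Φ_j²/A`.  Then `1/Φ_{j+1} ≥ 1/Φ_j + 1/A` (`Φ_{j+1} > 0`, `x - x²/A ≤ 1/(1/x + 1/A)`
  for `x > 0`), so `1/Φ_J ≥ J/A`, `Φ_J ≤ A/J`; `J ≥ d/(2l) ≥ d/(4A)` (as `J ≥ 1`, `⌊x⌋ ≥ x/2` for
  `x ≥ 1`); so `Φ_J ≤ 4 A²/d = 4 m² Λ^(2ε')/d = 4 m² Λ^ε/d`.
-/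

open MeasureTheory Matrix Complex

namespace Pool.Agent.Lib.MP_562b47_mp.Str

/-- the hypotheses of the iteration -/
structure OD {X ι : Type} [Fintype X] [DecidableEq X] [Fintype ι] [DecidableEq ι] (S : Sys X ι)
    (ℓ : X → ℕ) (up : X → X) (c R η Λ Cη : ℝ) (Δ N m n0 : ℕ) : Prop where
  good : S.Good
  lay : S.Layered ℓ up R Δ N
  src : ∀ x, n0 < ℓ x → ∀ s, S.U x s = 0
  hU : ∀ x, ∑ s, S.U x s ^ 2 ≤ 1
  η0 : 0 ≤ η
  ηle : η ≤ Real.exp (-(Cη * Λ))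
  yle : ∀ x, ℓ x ≤ N → S.y x ≤ η
  m1 : 1 ≤ m
  mΛ : (m : ℝ) ≤ Λ
  Mm : Fintype.card ι ≤ m
  width : ∀ j, n0 < j → j ≤ N → (Finset.univ.filter fun x => ℓ x = j).card ≤ m
  tot : ((Finset.univ.filter fun x => ℓ x ≤ N).card : ℝ) ≤ Λ
  NΛ : (N : ℝ) ≤ Λ
  hn0 : n0 < N

private theorem ode_step {A x y j : ℝ} (hA : 0 < A) (hx : 0 ≤ x) (hj : 0 ≤ j) (h : j * x ≤ A)
    (hy : y ≤ x - x ^ 2 / A) : (j + 1) * y ≤ A := by
  have h1 : (j + 1) * y ≤ (j + 1) * (x - x ^ 2 / A) :=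
    mul_le_mul_of_nonneg_left hy (by linarith)
  refine h1.trans ?_
  have h2 : (j + 1) * (x - x ^ 2 / A) * A = (j + 1) * (x * (A - x)) := by
    field_simp
  have h3 : (j + 1) * (x * (A - x)) ≤ A * A := by
    rcases le_total x A with h4 | h4
    · have h5 : j * x * (A - x) ≤ A * (A - x) :=
        mul_le_mul_of_nonneg_right h (by linarith)
      nlinarith [sq_nonneg x]
    · have h5 : (j + 1) * (x * (A - x)) ≤ 0 :=
        mul_nonpos_of_nonneg_of_nonpos (by linarith)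
          (mul_nonpos_of_nonneg_of_nonpos hx (by linarith))
      nlinarith
  rw [← h2] at h3
  exact le_of_mul_le_mul_right h3 hA

private theorem ode_iter {A : ℝ} (hA : 0 < A) (Φ : ℕ → ℝ) (J : ℕ) (h0 : ∀ j, 0 ≤ Φ j)
    (hs : ∀ j, j < J → Φ (j + 1) ≤ Φ j - Φ j ^ 2 / A) : ∀ j, j ≤ J → (j : ℝ) * Φ j ≤ A := by
  intro j
  induction j with
  | zero =>
    intro _
    rw [Nat.cast_zero, zero_mul]
    exact hA.le
  | succ j ih =>
    intro hj
    push_cast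
    exact ode_step hA (h0 j) (Nat.cast_nonneg j) (ih (by omega)) (hs j (by omega))

theorem ode {c R ε : ℝ} (hc : 0 < c) (hR : 0 ≤ R) (hε : 0 < ε) (hε1 : ε ≤ 1) (Δ : ℕ) :
    ∃ Λ0 Cη : ℝ, 1 ≤ Λ0 ∧ 0 < Cη ∧ ∀ (X ι : Type) [Fintype X] [DecidableEq X] [Fintype ι]
      [DecidableEq ι] (S : Sys X ι) (ℓ : X → ℕ) (up : X → X) (η Λ : ℝ) (N m n0 : ℕ), Λ0 ≤ Λ →
      OD S ℓ up c R η Λ Cη Δ N m n0 →
      (Fintype.card ι : ℝ) - ∫ V, ‖S.Sv fun x => ((V x : ℝ) : ℂ)‖ ^ 2 ∂(PX X c)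
        ≤ 4 * (m ^ 2 * Λ ^ ε) / ((N : ℝ) - n0) := by
  obtain ⟨Λ0, Cη, hΛ0, hCη, hblock⟩ := block hc hR (half_pos hε) (by linarith) Δ
  refine ⟨Λ0, Cη, hΛ0, hCη, ?_⟩
  intro X ι _ _ _ _ S ℓ up η Λ N m n0 hΛ h
  have hΛ1 : 1 ≤ Λ := hΛ0.trans hΛ
  have hΛp : 0 < Λ := by linarith
  have hm1 : (1 : ℝ) ≤ m := by exact_mod_cast h.m1
  have hL1 : 1 ≤ Λ ^ (ε / 2) := Real.one_le_rpow hΛ1 (by linarith)
  have hLe : Λ ^ ε = Λ ^ (ε / 2) * Λ ^ (ε / 2) := by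
    rw [← Real.rpow_add hΛp]
    congr 1
    ring
  obtain ⟨A, hAdef⟩ : ∃ A : ℝ, A = m * Λ ^ (ε / 2) := ⟨_, rfl⟩
  have hA1 : 1 ≤ A := by
    rw [hAdef]
    nlinarith
  have hA0 : 0 < A := by linarith
  have hA2 : m ^ 2 * Λ ^ ε = A * A := by
    rw [hAdef, hLe]
    ring
  obtain ⟨l, hldef⟩ : ∃ l : ℕ, l = ⌈A⌉₊ := ⟨_, rfl⟩
  have hl1 : A ≤ l := by
    rw [hldef]
    exact Nat.le_ceil A
  have hl2 : (l : ℝ) ≤ 2 * A := by
    have := Nat.ceil_lt_add_one hA0.le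
    rw [← hldef] at this
    linarith
  have hlpos : 0 < l := by
    have : (0 : ℝ) < l := by linarith
    exact_mod_cast this
  have hd1 : (1 : ℝ) ≤ (N : ℝ) - n0 := by
    have h1 : ((n0 + 1 : ℕ) : ℝ) ≤ N := by exact_mod_cast h.hn0
    push_cast at h1
    linarith
  have hd0 : (0 : ℝ) < (N : ℝ) - n0 := by linarith
  have hMm : (Fintype.card ι : ℝ) ≤ m := by exact_mod_cast h.Mm
  have hle : ∀ n, (Fintype.card ι : ℝ) - ∫ V, ‖S.Sv fun x => ((V x : ℝ) : ℂ)‖ ^ 2 ∂(PX X c)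
      ≤ S.Phi c ℓ n := fun n => Sys.card_sub_le_Phi h.good hc ℓ n
  rw [hA2, le_div_iff₀ hd0]
  -- the number of steps
  obtain ⟨J, hJ⟩ : ∃ J : ℕ, J = (N - n0) / l := ⟨_, rfl⟩
  have hJl : J * l ≤ N - n0 := by
    rw [hJ]
    exact Nat.div_mul_le_self _ _
  have hJl2 : N - n0 < (J + 1) * l := by
    rw [hJ, add_mul, one_mul]
    have h1 := Nat.div_add_mod (N - n0) l
    have h2 := Nat.mod_lt (N - n0) hlpos
    have h3 : (N - n0) / l * l = l * ((N - n0) / l) := Nat.mul_comm _ _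
    omega
  have hJlr : (N : ℝ) - n0 ≤ (J + 1) * l := by
    have h1 : N ≤ (J + 1) * l + n0 := by omega
    have h2 : (N : ℝ) ≤ (((J + 1) * l + n0 : ℕ) : ℝ) := by exact_mod_cast h1
    push_cast at h2
    linarith
  rcases Nat.eq_zero_or_pos J with hJ0 | hJpos
  · have h1 : (N : ℝ) - n0 ≤ l := by
      rw [hJ0] at hJlr
      simpa using hJlr
    have h2 := (hle 0).trans ((Sys.Phi_le_card h.good hc ℓ 0).trans hMm)
    have h3 : (m : ℝ) ≤ A := by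
      rw [hAdef]
      nlinarith
    calc _ ≤ (m : ℝ) * ((N : ℝ) - n0) := mul_le_mul_of_nonneg_right h2 hd0.le
      _ ≤ A * (2 * A) := mul_le_mul h3 (by linarith) hd0.le hA0.le
      _ ≤ _ := by nlinarith
  by_cases hsmall : ∃ j, j ≤ J ∧ S.Phi c ℓ (n0 + j * l) < Λ ^ (-8 : ℝ)
  · obtain ⟨j, -, hj⟩ := hsmall
    have h1 := (hle (n0 + j * l)).trans hj.le
    have h2 : (N : ℝ) - n0 ≤ Λ := by
      have := h.NΛ
      have h3 : (0 : ℝ) ≤ n0 := Nat.cast_nonneg _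
      linarith
    have h3 : Λ ^ (-8 : ℝ) * Λ ≤ 1 := by
      have h4 : Λ ^ (-8 : ℝ) * Λ = Λ ^ (-7 : ℝ) := by
        nth_rewrite 2 [← Real.rpow_one Λ]
        rw [← Real.rpow_add hΛp]
        norm_num
      rw [h4]
      exact Real.rpow_le_one_of_one_le_of_nonpos hΛ1 (by norm_num)
    calc _ ≤ Λ ^ (-8 : ℝ) * ((N : ℝ) - n0) := mul_le_mul_of_nonneg_right h1 hd0.le
      _ ≤ Λ ^ (-8 : ℝ) * Λ :=
        mul_le_mul_of_nonneg_left h2 (Real.rpow_pos_of_pos hΛp _).le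
      _ ≤ 1 := h3
      _ ≤ _ := by nlinarith
  · push Not at hsmall
    have hstep : ∀ j, j < J → S.Phi c ℓ (n0 + (j + 1) * l)
        ≤ S.Phi c ℓ (n0 + j * l) - S.Phi c ℓ (n0 + j * l) ^ 2 / A := by
      intro j hj
      have hjl : (j + 1) * l ≤ J * l := Nat.mul_le_mul_right l hj
      have hjl' : (j + 1) * l = j * l + l := by ring
      have hN : n0 + j * l + l ≤ N := by
        have := h.hn0
        omega
      have hBD : BD S ℓ up c R (ε / 2) η Λ Cη Δ N m (n0 + j * l) l :=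
        { hc := hc
          hR := hR
          hε := half_pos hε
          hε1 := by linarith
          good := h.good
          lay := h.lay
          hN := hN
          src := fun x hx => h.src x (by omega)
          hU := h.hU
          η0 := h.η0
          ηle := h.ηle
          hCη := hCη.le
          yle := fun x hx => h.yle x (hx.trans hN)
          m1 := h.m1
          mΛ := h.mΛ
          Mm := h.Mm
          width := fun i hi hi' => h.width i (by omega) (by omega)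
          tot := by
            refine le_trans ?_ h.tot
            exact_mod_cast Finset.card_le_card (Finset.monotone_filter_right _
              (fun x _ hx => le_trans hx hN))
          nΛ := by
            refine le_trans ?_ h.NΛ
            have : n0 + j * l ≤ N := by omega
            exact_mod_cast this
          l1 := by
            rw [← hAdef]
            exact hl1
          l2 := by
            rw [← hAdef]
            exact hl2 }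
      have h1 := hblock X ι S ℓ up η Λ N m (n0 + j * l) l hΛ hBD (hsmall j hj.le)
      rw [← hAdef] at h1
      have h2 : n0 + (j + 1) * l = n0 + j * l + l := by ring
      rw [h2]
      linarith
    have hit := ode_iter hA0 (fun j => S.Phi c ℓ (n0 + j * l)) J
      (fun j => Sys.Phi_nonneg h.good hc ℓ _) hstep J le_rfl
    have hΦ0 := Sys.Phi_nonneg h.good hc ℓ (n0 + J * l)
    have h1 := hle (n0 + J * l)
    have hit' : (J : ℝ) * S.Phi c ℓ (n0 + J * l) ≤ A := hit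
    have hJ1 : (1 : ℝ) ≤ J := by exact_mod_cast hJpos
    have h2 : (N : ℝ) - n0 ≤ J * (4 * A) := by
      have h3 : ((J : ℝ) + 1) * l ≤ (2 * J) * (2 * A) :=
        mul_le_mul (by linarith) hl2 (Nat.cast_nonneg _) (by linarith)
      linarith
    calc _ ≤ S.Phi c ℓ (n0 + J * l) * ((N : ℝ) - n0) := mul_le_mul_of_nonneg_right h1 hd0.le
      _ ≤ S.Phi c ℓ (n0 + J * l) * (J * (4 * A)) := mul_le_mul_of_nonneg_left h2 hΦ0
      _ = (J * S.Phi c ℓ (n0 + J * l)) * (4 * A) := by ring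
      _ ≤ A * (4 * A) := mul_le_mul_of_nonneg_right hit' (by linarith)
      _ = _ := by ring

end Pool.Agent.Lib.MP_562b47_mp.Str
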