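import Pool.Agent.Lib.MP_562b47_mp.Str.Seg
import Pool.Agent.Lib.MP_562b47_mp.Str.Ode

/-!
Module STR-SegT (MP_562b47_mp, strips).  The mean transmission through `[i, j]` with absorbing leads of
strength 1 on the layers `i` and `j`, and absorption `η` everywhere.

`yLead i j η x = η + 1[x.1 = i] + 1[x.1 = j]`.
`segS`: the system with sources on the layer `i` (`U ((k,q), s) = 1` iff `k = i`, `q = s`) and absorption
`η + 1[x.1 = j]`.  `K` of `segS` equals `K` of `segD` with `yLead` (`i U Uᵀ = i * 1_{layer i}`).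
PROOF of `seg_trans`.  Let `n = j - i ≥ 1`, `M = card Q`.  `w x s = ∑_z G x z U z s = G x (i,s)`, so by
`ward_S` `4 ∑_{q,q'} |G((j,q'),(i,q))|² = 4 ∑_{x.1 = j} ‖w x‖² ≤ 4 ∑ y_x ‖w x‖² = M - ‖Sv‖² ≤ M`.
If `Q` is empty both sides are `0` (the left side is an empty sum).  If `n = 1`: the left side is
`≤ M ≤ C M² (...)^ε / n` as soon as `C ≥ 1`.  If `n ≥ 2`: apply `ode` with
`ℓ x = x.1 - i` for `i ≤ x.1 ≤ j` and `ℓ x = L + 5` otherwise, `up (k,q) = (k+1,q)` for `k + 1 < L`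
(anything otherwise), `N = j - i - 1`, `n0 = 0`, `m = M`, `Λ = Λ0 * (M (n + 1))`, row sums `2R + 2`
replaced for `R`, `Δ + 3` for `Δ` (a row of `segH` has the in-layer entries `h k q ·`, at most
`Δ` nonzero ones, and at most two couplings `-1`), where `R` bounds the row sums of `h`.
Check of `OD`: `near`: outside `[i,j]` there are only in-layer entries.  `up_unique`: in the row of
`(k+1,q)` the only nonzero entry in the layer `k` is at `(k,q)`.  `y ≤ η` on the layers `ℓ ≤ N`, i.e.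
`x.1 < j`.  `#{ℓ ≤ N} = n M ≤ Λ`, `N ≤ Λ` (`M ≥ 1`).  `η ≤ exp (-Cη Λ)` is the hypothesis with
`Cη' = Cη Λ0`.  `ode` gives `∫ (M - ‖Sv‖²) ≤ 4 M² Λ^ε/(n-1) ≤ 8 Λ0^ε M² (M(n+1))^ε/n`.
-/

open MeasureTheory Matrix Complex

namespace Pool.Agent.Lib.MP_562b47_mp.Str

variable {Q : Type} [Fintype Q] [DecidableEq Q]

/-- absorption with leads on the layers `i` and `j` -/
noncomputable def yLead {L : ℕ} (i j : ℕ) (η : ℝ) (x : Fin L × Q) : ℝ :=
  η + (if (x.1 : ℕ) = i then 1 else 0) + (if (x.1 : ℕ) = j then 1 else 0)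

/-- the system with sources on the layer `i` and an absorbing lead on the layer `j` -/
noncomputable def segS (L : ℕ) (h : Fin L → Matrix Q Q ℝ) (i j : ℕ) (η : ℝ) : Sys (Fin L × Q) Q where
  H := segH L h i j
  U := fun x s => if (x.1 : ℕ) = i ∧ x.2 = s then 1 else 0
  y := fun x => η + (if (x.1 : ℕ) = j then 1 else 0)

theorem segS_K (L : ℕ) (h : Fin L → Matrix Q Q ℝ) (i j : ℕ) (η : ℝ) (ν : Fin L × Q → ℂ) :
    (segS L h i j η).K ν = (segD L h i j (yLead i j η)).K ν := by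
  ext x z
  have h1 : ∑ s : Q, (((if (x.1 : ℕ) = i ∧ x.2 = s then (1 : ℝ) else 0 : ℝ) : ℂ))
      * (((if (z.1 : ℕ) = i ∧ z.2 = s then (1 : ℝ) else 0 : ℝ) : ℂ))
      = if x = z ∧ (x.1 : ℕ) = i then 1 else 0 := by
    rw [Finset.sum_eq_single x.2]
    · by_cases hx : (x.1 : ℕ) = i
      · by_cases hxz : x = z
        · subst hxz
          simp [hx]
        · have h2 : ¬ ((z.1 : ℕ) = i ∧ z.2 = x.2) := by
            rintro ⟨h3, h4⟩
            exact hxz (Prod.ext (Fin.ext (hx.trans h3.symm)) h4.symm)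
          rw [if_neg h2]
          simp [hxz]
      · simp [hx]
    · intro s _ hs
      rw [if_neg (fun hh => hs hh.2.symm)]
      simp
    · intro hh
      exact absurd (Finset.mem_univ _) hh
  simp only [Sys.K, segS, segD, Matrix.add_apply, Matrix.map_apply, diagonal_apply,
    Matrix.smul_apply, Matrix.mul_apply, transpose_apply, smul_eq_mul, h1]
  rw [Finset.univ_eq_empty, Finset.sum_empty, mul_zero, add_zero]
  by_cases hxz : x = z
  · subst hxz
    rw [if_pos rfl, if_pos rfl, yLead]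
    by_cases hx : (x.1 : ℕ) = i
    · have e1 : (if x = x ∧ (x.1 : ℕ) = i then (1 : ℂ) else 0) = 1 := if_pos ⟨rfl, hx⟩
      have e2 : (if (x.1 : ℕ) = i then (1 : ℝ) else 0) = 1 := if_pos hx
      rw [e1, e2]
      push_cast
      ring
    · have e1 : (if x = x ∧ (x.1 : ℕ) = i then (1 : ℂ) else 0) = 0 := if_neg fun hh => hx hh.2
      have e2 : (if (x.1 : ℕ) = i then (1 : ℝ) else 0) = 0 := if_neg hx
      rw [e1, e2]
      push_cast
      ring
  · rw [if_neg hxz, if_neg hxz, if_neg (fun hh => hxz hh.1), mul_zero, add_zero]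

private theorem segT_good {L : ℕ} {h : Fin L → Matrix Q Q ℝ} (hs : ∀ k, (h k).IsSymm)
    (i j : ℕ) {η : ℝ} (hη : 0 < η) : (segS L h i j η).Good := by
  refine ⟨segH_symm hs i j, fun x => ?_⟩
  show 0 < η + (if (x.1 : ℕ) = j then (1 : ℝ) else 0)
  split_ifs <;> linarith

private theorem segT_flux {L : ℕ} {h : Fin L → Matrix Q Q ℝ} (hs : ∀ k, (h k).IsSymm) {i j : ℕ}
    (hi : i < L) (hj : j < L) {η : ℝ} (hη : 0 < η) {ν : Fin L × Q → ℂ} (hν : Adm ν) :
    4 * ∑ q, ∑ q', ‖(segD L h i j (yLead i j η)).G ν (⟨i, hi⟩, q) (⟨j, hj⟩, q')‖ ^ 2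
      ≤ Fintype.card Q - ‖(segS L h i j η).Sv ν‖ ^ 2 := by
  have hS := segT_good hs i j hη
  have hG : (segS L h i j η).G ν = (segD L h i j (yLead i j η)).G ν := by
    rw [Sys.G, Sys.G, segS_K]
  have hw := Sys.ward_S hS hν
  have hws : ∀ (x : Fin L × Q) (s : Q), (segS L h i j η).w ν x s
      = (segS L h i j η).G ν x (⟨i, hi⟩, s) := by
    intro x s
    rw [Sys.w_eq hS, Finset.sum_eq_single (⟨i, hi⟩, s)]
    · simp [segS]
    · intro b _ hb
      have h1 : (segS L h i j η).U b s = 0 := by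
        show (if (b.1 : ℕ) = i ∧ b.2 = s then (1 : ℝ) else 0) = 0
        rw [if_neg]
        rintro ⟨h2, h3⟩
        exact hb (Prod.ext (Fin.ext h2) h3)
      rw [h1]
      simp
    · intro hh
      exact absurd (Finset.mem_univ _) hh
  have h1 : ∑ q, ∑ q', ‖(segD L h i j (yLead i j η)).G ν (⟨i, hi⟩, q) (⟨j, hj⟩, q')‖ ^ 2
      = ∑ q' : Q, ‖(segS L h i j η).wv ν (⟨j, hj⟩, q')‖ ^ 2 := by
    rw [Finset.sum_comm]
    refine Finset.sum_congr rfl fun q' _ => ?_
    rw [Sys.norm_wv_sq]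
    refine Finset.sum_congr rfl fun q _ => ?_
    rw [hws, Sys.G_comm hS, hG]
  have h2 : ∑ q' : Q, ‖(segS L h i j η).wv ν (⟨j, hj⟩, q')‖ ^ 2
      ≤ ∑ x, ((ν x).im + (segS L h i j η).y x) * ‖(segS L h i j η).wv ν x‖ ^ 2 := by
    rw [Fintype.sum_prod_type]
    refine le_trans ?_ (Finset.single_le_sum (f := fun k : Fin L => ∑ q : Q,
      ((ν (k, q)).im + (segS L h i j η).y (k, q)) * ‖(segS L h i j η).wv ν (k, q)‖ ^ 2)
      (fun k _ => Finset.sum_nonneg fun q _ => ?_) (Finset.mem_univ (⟨j, hj⟩ : Fin L)))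
    · refine Finset.sum_le_sum fun q _ => ?_
      have h3 : 1 ≤ (ν (⟨j, hj⟩, q)).im + (segS L h i j η).y (⟨j, hj⟩, q) := by
        have h4 := hν (⟨j, hj⟩, q)
        have h5 : (segS L h i j η).y (⟨j, hj⟩, q) = η + 1 := by
          show η + (if j = j then (1 : ℝ) else 0) = η + 1
          rw [if_pos rfl]
        rw [h5]
        linarith
      have h6 : 0 ≤ ‖(segS L h i j η).wv ν (⟨j, hj⟩, q)‖ ^ 2 := by positivity
      nlinarith
    · exact mul_nonneg (add_nonneg (hν _) (hS.pos _).le) (by positivity)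
  rw [h1]
  linarith

theorem seg_trans_le {L : ℕ} {h : Fin L → Matrix Q Q ℝ} (hs : ∀ k, (h k).IsSymm) {i j : ℕ}
    (hi : i < L) (hj : j < L) {η : ℝ} (hη : 0 < η) {ν : Fin L × Q → ℂ} (hν : Adm ν) :
    4 * ∑ q, ∑ q', ‖(segD L h i j (yLead i j η)).G ν (⟨i, hi⟩, q) (⟨j, hj⟩, q')‖ ^ 2
      ≤ Fintype.card Q := by
  have h1 := segT_flux hs hi hj hη hν
  have h2 : 0 ≤ ‖(segS L h i j η).Sv ν‖ ^ 2 := by positivity
  linarith

/-- the layer function -/
private def segTl {L : ℕ} (i j : ℕ) (x : Fin L × Q) : ℕ :=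
  if i ≤ (x.1 : ℕ) ∧ (x.1 : ℕ) ≤ j then x.1 - i else L + 5

/-- the next site -/
private def segTu {L : ℕ} (x : Fin L × Q) : Fin L × Q :=
  if h : (x.1 : ℕ) + 1 < L then (⟨x.1 + 1, h⟩, x.2) else x

private theorem segTl_lt {L : ℕ} {i j : ℕ} (hj : j < L) {x : Fin L × Q}
    (hx : segTl i j x < j - i) : i ≤ (x.1 : ℕ) ∧ (x.1 : ℕ) < j ∧ segTl i j x = x.1 - i := by
  unfold segTl at hx ⊢
  split_ifs at hx ⊢ <;> omega

private theorem segTu_eq {L : ℕ} {x : Fin L × Q} (h : (x.1 : ℕ) + 1 < L) :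
    segTu x = (⟨x.1 + 1, h⟩, x.2) := by
  rw [segTu, dif_pos h]

private theorem segH_near {L : ℕ} {h : Fin L → Matrix Q Q ℝ} {i j : ℕ} {x z : Fin L × Q}
    (hxz : segH L h i j x z ≠ 0) : (x.1 = z.1 ∧ h x.1 x.2 z.2 ≠ 0) ∨
      (z.2 = x.2 ∧ (x.1 : ℕ) + 1 = z.1 ∧ i ≤ x.1 ∧ (z.1 : ℕ) ≤ j) ∨
      (z.2 = x.2 ∧ (z.1 : ℕ) + 1 = x.1 ∧ i ≤ z.1 ∧ (x.1 : ℕ) ≤ j) := by
  unfold segH at hxz
  split_ifs at hxz with h1 h2
  · exact Or.inl ⟨h1, hxz⟩
  · rcases h2 with ⟨h2, h3 | h3⟩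
    · exact Or.inr (Or.inl ⟨h2.symm, h3⟩)
    · exact Or.inr (Or.inr ⟨h2.symm, h3⟩)
  · exact absurd rfl hxz

private theorem segT_up {L : ℕ} (x : Fin L × Q) :
    (Finset.univ.filter fun z : Fin L × Q => z.2 = x.2 ∧ (x.1 : ℕ) + 1 = z.1).card ≤ 1 := by
  refine Finset.card_le_one.2 ?_
  intro a ha b hb
  simp only [Finset.mem_filter, Finset.mem_univ, true_and] at ha hb
  exact Prod.ext (Fin.ext (by omega)) (ha.1.trans hb.1.symm)

private theorem segT_down {L : ℕ} (x : Fin L × Q) :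
    (Finset.univ.filter fun z : Fin L × Q => z.2 = x.2 ∧ (z.1 : ℕ) + 1 = x.1).card ≤ 1 := by
  refine Finset.card_le_one.2 ?_
  intro a ha b hb
  simp only [Finset.mem_filter, Finset.mem_univ, true_and] at ha hb
  exact Prod.ext (Fin.ext (by omega)) (ha.1.trans hb.1.symm)

private theorem segT_row {L : ℕ} {h : Fin L → Matrix Q Q ℝ} {R : ℝ}
    (hrow : ∀ k q, ∑ q', |h k q q'| ≤ R) (i j : ℕ) (x : Fin L × Q) :
    ∑ z, |segH L h i j x z| ≤ R + 2 := by
  have h1 : ∀ z, |segH L h i j x z| ≤ (if z.1 = x.1 then |h x.1 x.2 z.2| else 0)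
      + (if z.2 = x.2 ∧ (x.1 : ℕ) + 1 = z.1 then 1 else 0)
      + (if z.2 = x.2 ∧ (z.1 : ℕ) + 1 = x.1 then 1 else 0) := by
    intro z
    have p1 : (0 : ℝ) ≤ (if z.2 = x.2 ∧ (x.1 : ℕ) + 1 = z.1 then 1 else 0) := by
      split_ifs <;> norm_num
    have p2 : (0 : ℝ) ≤ (if z.2 = x.2 ∧ (z.1 : ℕ) + 1 = x.1 then 1 else 0) := by
      split_ifs <;> norm_num
    unfold segH
    by_cases hxz : x.1 = z.1
    · rw [if_pos hxz, if_pos hxz.symm]
      linarith
    · rw [if_neg hxz, if_neg (Ne.symm hxz)]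
      by_cases h2 : x.2 = z.2 ∧ (((x.1 : ℕ) + 1 = z.1 ∧ i ≤ x.1 ∧ (z.1 : ℕ) ≤ j) ∨
        ((z.1 : ℕ) + 1 = x.1 ∧ i ≤ z.1 ∧ (x.1 : ℕ) ≤ j))
      · rw [if_pos h2, abs_neg, abs_one]
        rcases h2 with ⟨h3, h4 | h4⟩
        · rw [if_pos (show z.2 = x.2 ∧ (x.1 : ℕ) + 1 = z.1 from ⟨h3.symm, h4.1⟩)]
          linarith
        · rw [if_pos (show z.2 = x.2 ∧ (z.1 : ℕ) + 1 = x.1 from ⟨h3.symm, h4.1⟩)]
          linarith
      · rw [if_neg h2, abs_zero]
        linarith
  refine (Finset.sum_le_sum fun z _ => h1 z).trans ?_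
  rw [Finset.sum_add_distrib, Finset.sum_add_distrib]
  have h2 : ∑ z : Fin L × Q, (if z.1 = x.1 then |h x.1 x.2 z.2| else 0) ≤ R := by
    rw [Fintype.sum_prod_type, Finset.sum_eq_single x.1]
    · simpa using hrow x.1 x.2
    · intro k _ hk
      exact Finset.sum_eq_zero fun q _ => if_neg hk
    · intro hh
      exact absurd (Finset.mem_univ _) hh
  have h3 : ∑ z : Fin L × Q, (if z.2 = x.2 ∧ (x.1 : ℕ) + 1 = z.1 then (1 : ℝ) else 0) ≤ 1 := by
    rw [Finset.sum_boole]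
    exact_mod_cast segT_up x
  have h4 : ∑ z : Fin L × Q, (if z.2 = x.2 ∧ (z.1 : ℕ) + 1 = x.1 then (1 : ℝ) else 0) ≤ 1 := by
    rw [Finset.sum_boole]
    exact_mod_cast segT_down x
  linarith

private theorem segT_deg {L : ℕ} {h : Fin L → Matrix Q Q ℝ} {Δ : ℕ}
    (hdeg : ∀ k q, (Finset.univ.filter fun q' => h k q q' ≠ 0).card ≤ Δ) (i j : ℕ)
    (x : Fin L × Q) :
    (Finset.univ.filter fun z => segH L h i j x z ≠ 0).card ≤ Δ + 3 := by
  classical
  have h1 : (Finset.univ.filter fun z => segH L h i j x z ≠ 0) ⊆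
      (((Finset.univ.filter fun q' => h x.1 x.2 q' ≠ 0).image fun q' => (x.1, q'))
      ∪ (Finset.univ.filter fun z : Fin L × Q => z.2 = x.2 ∧ (x.1 : ℕ) + 1 = z.1))
      ∪ (Finset.univ.filter fun z : Fin L × Q => z.2 = x.2 ∧ (z.1 : ℕ) + 1 = x.1) := by
    intro z hz
    simp only [Finset.mem_filter, Finset.mem_univ, true_and] at hz
    simp only [Finset.mem_union, Finset.mem_image, Finset.mem_filter, Finset.mem_univ, true_and]
    rcases segH_near hz with h2 | h2 | h2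
    · exact Or.inl (Or.inl ⟨z.2, h2.2, Prod.ext h2.1 rfl⟩)
    · exact Or.inl (Or.inr ⟨h2.1, h2.2.1⟩)
    · exact Or.inr ⟨h2.1, h2.2.1⟩
  refine (Finset.card_le_card h1).trans ((Finset.card_union_le _ _).trans ?_)
  have h2 := Finset.card_union_le
    ((Finset.univ.filter fun q' => h x.1 x.2 q' ≠ 0).image fun q' => ((x.1, q') : Fin L × Q))
    (Finset.univ.filter fun z : Fin L × Q => z.2 = x.2 ∧ (x.1 : ℕ) + 1 = z.1)
  have h3 := (Finset.card_image_le (s := Finset.univ.filter fun q' => h x.1 x.2 q' ≠ 0)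
    (f := fun q' => ((x.1, q') : Fin L × Q))).trans (hdeg x.1 x.2)
  have h4 := segT_up x
  have h5 := segT_down x
  omega

private theorem segT_layered {L : ℕ} {h : Fin L → Matrix Q Q ℝ} {R : ℝ} {Δ : ℕ}
    (hrow : ∀ k q, ∑ q', |h k q q'| ≤ R)
    (hdeg : ∀ k q, (Finset.univ.filter fun q' => h k q q' ≠ 0).card ≤ Δ) {i j : ℕ} (hj : j < L)
    (η : ℝ) : (segS L h i j η).Layered (segTl i j) segTu (R + 2) (Δ + 3) (j - i - 1) where
  near := by
    intro x z hxz
    rcases segH_near hxz with h2 | h2 | h2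
    · have h3 : segTl i j x = segTl i j z := by
        unfold segTl
        rw [h2.1]
      omega
    · unfold segTl
      split_ifs <;> omega
    · unfold segTl
      split_ifs <;> omega
  row := segT_row hrow i j
  deg := segT_deg hdeg i j
  up_layer := by
    intro x hx
    obtain ⟨h1, h2, h3⟩ := segTl_lt hj (show segTl i j x < j - i by omega)
    have h4 : (x.1 : ℕ) + 1 < L := by omega
    rw [segTu_eq h4, h3]
    unfold segTl
    simp only
    rw [if_pos ⟨by omega, by omega⟩]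
    omega
  up_one := by
    intro x hx
    obtain ⟨h1, h2, h3⟩ := segTl_lt hj (show segTl i j x < j - i by omega)
    have h4 : (x.1 : ℕ) + 1 < L := by omega
    rw [segTu_eq h4]
    show 1 ≤ |segH L h i j (⟨x.1 + 1, h4⟩, x.2) x|
    have h5 : (⟨x.1 + 1, h4⟩ : Fin L) ≠ x.1 := by
      intro hh
      have := congrArg Fin.val hh
      simp at this
    rw [segH, if_neg h5, if_pos]
    · norm_num
    · refine ⟨rfl, Or.inr ⟨rfl, h1, ?_⟩⟩
      show (x.1 : ℕ) + 1 ≤ j
      omega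
  up_unique := by
    intro x hx z hz hne
    obtain ⟨h1, h2, h3⟩ := segTl_lt hj (show segTl i j x < j - i by omega)
    obtain ⟨h1', h2', h3'⟩ := segTl_lt (x := z) hj (show segTl i j z < j - i by omega)
    have h4 : (x.1 : ℕ) + 1 < L := by omega
    rw [segTu_eq h4] at hne
    have hz1 : (z.1 : ℕ) = x.1 := by omega
    rcases segH_near hne with h5 | h5 | h5
    · have := congrArg Fin.val h5.1
      simp only at this
      omega
    · simp only at h5
      omega
    · exact Prod.ext (Fin.ext hz1) h5.1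

theorem seg_trans {c R ε : ℝ} (hc : 0 < c) (hR : 0 ≤ R) (hε : 0 < ε) (hε1 : ε ≤ 1) (Δ : ℕ) :
    ∃ C Cη : ℝ, 1 ≤ C ∧ 0 < Cη ∧ ∀ (Q : Type) [Fintype Q] [DecidableEq Q] (L : ℕ)
      (h : Fin L → Matrix Q Q ℝ) (i j : ℕ) (η : ℝ) (hi : i < L) (hj : j < L),
      (∀ k, (h k).IsSymm) → (∀ k q, ∑ q', |h k q q'| ≤ R) →
      (∀ k q, (Finset.univ.filter fun q' => h k q q' ≠ 0).card ≤ Δ) → i < j → 0 < η →
      η ≤ Real.exp (-(Cη * (Fintype.card Q * ((j : ℝ) - i + 1)))) →
      ∫ V, 4 * ∑ q, ∑ q', ‖(segD L h i j (yLead i j η)).G (fun x => ((V x : ℝ) : ℂ))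
          (⟨i, hi⟩, q) (⟨j, hj⟩, q')‖ ^ 2 ∂(PX (Fin L × Q) c)
        ≤ C * ((Fintype.card Q : ℝ) ^ 2 * (Fintype.card Q * ((j : ℝ) - i + 1)) ^ ε)
          / ((j : ℝ) - i) := by
  obtain ⟨Λ0, Cη, hΛ0, hCη, hode⟩ := ode hc (show (0 : ℝ) ≤ R + 2 by linarith) hε hε1 (Δ + 3)
  have hΛ0p : 0 < Λ0 := by linarith
  refine ⟨8 * Λ0, Cη * Λ0, by linarith, mul_pos hCη hΛ0p, ?_⟩
  intro Q _ _ L h i j η hi hj hs hrow hdeg hij hη hηle
  have hprob := isProb_PX (X := Fin L × Q) hc
  have hgood : (segS L h i j η).Good := segT_good hs i j hη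
  have hij' : (i : ℝ) + 1 ≤ j := by exact_mod_cast hij
  have hd : 0 < (j : ℝ) - i := by linarith
  have hpt : ∀ V : Fin L × Q → ℝ, 4 * ∑ q, ∑ q', ‖(segD L h i j (yLead i j η)).G
      (fun x => ((V x : ℝ) : ℂ)) (⟨i, hi⟩, q) (⟨j, hj⟩, q')‖ ^ 2
      ≤ (Fintype.card Q : ℝ) - ‖(segS L h i j η).Sv (fun x => ((V x : ℝ) : ℂ))‖ ^ 2 :=
    fun V => segT_flux hs hi hj hη (adm_real V)
  have hint : Integrable (fun V : Fin L × Q → ℝ =>
      ‖(segS L h i j η).Sv (fun x => ((V x : ℝ) : ℂ))‖ ^ 2) (PX (Fin L × Q) c) :=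
    (Sys.bmeas_Sv hgood).norm_sq.integrable _
  have hle : ∫ V, 4 * ∑ q, ∑ q', ‖(segD L h i j (yLead i j η)).G (fun x => ((V x : ℝ) : ℂ))
          (⟨i, hi⟩, q) (⟨j, hj⟩, q')‖ ^ 2 ∂(PX (Fin L × Q) c)
      ≤ (Fintype.card Q : ℝ) - ∫ V, ‖(segS L h i j η).Sv fun x => ((V x : ℝ) : ℂ)‖ ^ 2
        ∂(PX (Fin L × Q) c) := by
    refine (integral_mono_of_nonneg (ae_of_all _ fun V => ?_) ((integrable_const _).sub hint)
      (ae_of_all _ hpt)).trans ?_
    · show (0 : ℝ) ≤ 4 * ∑ q, ∑ q', ‖(segD L h i j (yLead i j η)).G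
        (fun x => ((V x : ℝ) : ℂ)) (⟨i, hi⟩, q) (⟨j, hj⟩, q')‖ ^ 2
      positivity
    · simp only [Pi.sub_apply]
      rw [integral_sub (integrable_const _) hint]
      simp
  have hSv0 : 0 ≤ ∫ V, ‖(segS L h i j η).Sv fun x => ((V x : ℝ) : ℂ)‖ ^ 2
      ∂(PX (Fin L × Q) c) := integral_nonneg fun V => by positivity
  by_cases hM : Fintype.card Q = 0
  · rw [hM] at hle ⊢
    simp only [Nat.cast_zero] at hle ⊢
    have h0 : 8 * Λ0 * ((0 : ℝ) ^ 2 * (0 * ((j : ℝ) - i + 1)) ^ ε) / ((j : ℝ) - i) = 0 := by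
      norm_num
    rw [h0]
    linarith
  have hM1 : (1 : ℝ) ≤ Fintype.card Q := by
    exact_mod_cast Nat.one_le_iff_ne_zero.2 hM
  have hbase : 1 ≤ (Fintype.card Q : ℝ) * ((j : ℝ) - i + 1) := by nlinarith
  have hX1 : 1 ≤ ((Fintype.card Q : ℝ) * ((j : ℝ) - i + 1)) ^ ε :=
    Real.one_le_rpow hbase hε.le
  rcases Nat.lt_or_ge (j - i) 2 with h2 | h2
  · have h3 : j = i + 1 := by omega
    have h4 : (j : ℝ) - i = 1 := by
      rw [h3]
      push_cast
      ring
    rw [h4] at hX1 ⊢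
    rw [div_one]
    have h5 : (Fintype.card Q : ℝ) ≤ (Fintype.card Q : ℝ) ^ 2 * ((Fintype.card Q : ℝ) * (1 + 1)) ^ ε := by
      nlinarith [sq_nonneg ((Fintype.card Q : ℝ))]
    nlinarith
  · have hM1' : 1 ≤ Fintype.card Q := Nat.one_le_iff_ne_zero.2 hM
    have hΛle : Λ0 ≤ Λ0 * ((Fintype.card Q : ℝ) * ((j : ℝ) - i + 1)) := by nlinarith
    have hbig : (Fintype.card Q : ℝ) * ((j : ℝ) - i + 1)
        ≤ Λ0 * ((Fintype.card Q : ℝ) * ((j : ℝ) - i + 1)) := by nlinarith
    have hNr : ((j - i - 1 : ℕ) : ℝ) = (j : ℝ) - i - 1 := by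
      rw [Nat.cast_sub (by omega), Nat.cast_sub (by omega)]
      simp
    have hOD : OD (segS L h i j η) (segTl i j) segTu c (R + 2) η
        (Λ0 * ((Fintype.card Q : ℝ) * ((j : ℝ) - i + 1))) Cη (Δ + 3) (j - i - 1)
        (Fintype.card Q) 0 :=
      { good := hgood
        lay := segT_layered hrow hdeg hj η
        src := by
          intro x hx s
          show (if (x.1 : ℕ) = i ∧ x.2 = s then (1 : ℝ) else 0) = 0
          rw [if_neg]
          rintro ⟨h3, -⟩
          unfold segTl at hx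
          rw [if_pos ⟨by omega, by omega⟩] at hx
          omega
        hU := by
          intro x
          show ∑ s, (if (x.1 : ℕ) = i ∧ x.2 = s then (1 : ℝ) else 0) ^ 2 ≤ 1
          rw [Finset.sum_eq_single x.2]
          · split_ifs <;> norm_num
          · intro s _ hs
            rw [if_neg (fun hh => hs hh.2.symm)]
            norm_num
          · intro hh
            exact absurd (Finset.mem_univ _) hh
        η0 := hη.le
        ηle := by
          have h3 : Cη * Λ0 * (Fintype.card Q * ((j : ℝ) - i + 1))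
            = Cη * (Λ0 * (Fintype.card Q * ((j : ℝ) - i + 1))) := by ring
          rw [← h3]
          exact hηle
        yle := by
          intro x hx
          obtain ⟨h3, h4, h5⟩ := segTl_lt hj (show segTl i j x < j - i by omega)
          show η + (if (x.1 : ℕ) = j then (1 : ℝ) else 0) ≤ η
          rw [if_neg (by omega)]
          linarith
        m1 := hM1'
        mΛ := by
          refine le_trans ?_ hbig
          nlinarith
        Mm := le_refl _
        width := by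
          intro k hk hk2
          have h3 : (Finset.univ.filter fun x : Fin L × Q => segTl i j x = k) ⊆
              Finset.univ.image fun q : Q => ((⟨i + k, by omega⟩, q) : Fin L × Q) := by
            intro x hx
            simp only [Finset.mem_filter, Finset.mem_univ, true_and] at hx
            obtain ⟨h4, h5, h6⟩ := segTl_lt hj (show segTl i j x < j - i by omega)
            simp only [Finset.mem_image, Finset.mem_univ, true_and]
            exact ⟨x.2, Prod.ext (Fin.ext (by simp only; omega)) rfl⟩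
          refine (Finset.card_le_card h3).trans (Finset.card_image_le.trans ?_)
          exact le_of_eq (Finset.card_univ)
        tot := by
          refine le_trans ?_ hbig
          have h3 : (Finset.univ.filter fun x : Fin L × Q => segTl i j x ≤ j - i - 1).card
              ≤ (Finset.range (j - i) ×ˢ (Finset.univ : Finset Q)).card := by
            refine Finset.card_le_card_of_injOn (fun x => ((x.1 : ℕ) - i, x.2)) ?_ ?_
            · intro x hx
              have hx' : segTl i j x ≤ j - i - 1 := by simpa using hx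
              obtain ⟨h4, h5, h6⟩ := segTl_lt hj (show segTl i j x < j - i by omega)
              simp only [Finset.coe_product, Finset.coe_range, Finset.coe_univ, Set.mem_prod,
                Set.mem_Iio, Set.mem_univ, and_true]
              omega
            · intro x hx z hz hxz
              have hx' : segTl i j x ≤ j - i - 1 := by simpa using hx
              have hz' : segTl i j z ≤ j - i - 1 := by simpa using hz
              obtain ⟨h4, h5, h6⟩ := segTl_lt hj (show segTl i j x < j - i by omega)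
              obtain ⟨h4', h5', h6'⟩ := segTl_lt hj (show segTl i j z < j - i by omega)
              have h7 := congrArg Prod.fst hxz
              have h8 := congrArg Prod.snd hxz
              simp only at h7 h8
              exact Prod.ext (Fin.ext (by omega)) h8
          rw [Finset.card_product, Finset.card_range, Finset.card_univ] at h3
          have h4 : ((Finset.univ.filter fun x : Fin L × Q => segTl i j x ≤ j - i - 1).card : ℝ)
              ≤ (((j - i) * Fintype.card Q : ℕ) : ℝ) := by exact_mod_cast h3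
          rw [Nat.cast_mul, Nat.cast_sub (by omega)] at h4
          nlinarith
        NΛ := by
          rw [hNr]
          refine le_trans ?_ hbig
          nlinarith
        hn0 := by omega }
    have h3 := hode (Fin L × Q) Q (segS L h i j η) (segTl i j) segTu η
      (Λ0 * ((Fintype.card Q : ℝ) * ((j : ℝ) - i + 1))) (j - i - 1) (Fintype.card Q) 0 hΛle hOD
    refine (hle.trans h3).trans ?_
    rw [hNr, Nat.cast_zero, sub_zero, Real.mul_rpow hΛ0p.le (by linarith)]
    have h4 : Λ0 ^ ε ≤ Λ0 := by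
      have := Real.rpow_le_rpow_of_exponent_le hΛ0 hε1
      rwa [Real.rpow_one] at this
    have h5 : (2 : ℝ) ≤ (j : ℝ) - i := by
      have h6 : ((2 + i : ℕ) : ℝ) ≤ j := by exact_mod_cast (show 2 + i ≤ j by omega)
      push_cast at h6
      linarith
    have hX0 : 0 ≤ (Fintype.card Q : ℝ) ^ 2 * ((Fintype.card Q : ℝ) * ((j : ℝ) - i + 1)) ^ ε := by
      positivity
    rw [div_le_div_iff₀ (by linarith) hd]
    have h7 : Λ0 ^ ε * ((j : ℝ) - i) ≤ Λ0 * (2 * ((j : ℝ) - i - 1)) :=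
      mul_le_mul h4 (by linarith) hd.le hΛ0p.le
    have h8 := mul_le_mul_of_nonneg_left h7 hX0
    nlinarith

end Pool.Agent.Lib.MP_562b47_mp.Str
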