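import Pool.Agent.Lib.MP_562b47_mp.Str.Frac
import Pool.Agent.Lib.MP_562b47_mp.Str.SegT

/-!
Module STR-LeadX (MP_562b47_mp, strips).  The middle factor `X` of the transmission block with leads
(see `Lead`) is controlled by the four blocks of the layers `k+1, k+2`.

PROOF of `hsn_leadX_le`.  `K G = 1` in the row `k+1` and `G K = 1` in the column `k+2` (in `segH L h i j`
the layers `k, k+1, k+2, k+3` are all inside `[i,j]`; no lead on `k+1, k+2`); with
`D m := blk K m m = h m + diag (V + i η)`: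
`G(k,b) = D(k+1) G(k+1,b) - G(k+2,b) - δ_{k+1,b}`,  `G(a,k+3) = G(a,k+2) D(k+2) - G(a,k+1) - δ_{a,k+2}`.
Hence `G(k,k+2) = D(k+1) G(k+1,k+2) - G(k+2,k+2)`, `G(k+1,k+3) = G(k+1,k+2) D(k+2) - G(k+1,k+1)`,
`G(k,k+3) = G(k,k+2) D(k+2) - G(k,k+1)`, `G(k,k+1) = D(k+1) G(k+1,k+1) - G(k+2,k+1) - 1`.
`hsn_op`: `hsn (D A) ≤ κ hsn A`, `hsn (A D) ≤ κ hsn A` with `κ = R + c + 1` (Schur test for `h`: symmetric,
row sums `≤ R`; `|V x| ≤ c`, `η ≤ 1`).  `hsn 1 = √W`.  Total constant `(1 + κ)^2` for each of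
`g₁₁, g₁₂, g₂₁, g₂₂, √W`.
-/

open MeasureTheory Matrix Complex

namespace Pool.Agent.Lib.MP_562b47_mp.Str

variable {Q : Type} [Fintype Q] [DecidableEq Q]

/-- the middle factor -/
noncomputable def leadX {L : ℕ} (G : Matrix (Fin L × Q) (Fin L × Q) ℂ) (k0 k1 k2 k3 : Fin L) :
    Matrix Q Q ℂ :=
  blk G k1 k2 + I • blk G k1 k3 + I • blk G k0 k2 - blk G k0 k3

private theorem leadX_op {κ : ℝ} (hκ : 0 ≤ κ) (D A : Matrix Q Q ℂ) (h1 : ∀ q, ∑ r, ‖D q r‖ ≤ κ)
    (h2 : ∀ r, ∑ q, ‖D q r‖ ≤ κ) : hsn (D * A) ≤ κ * hsn A := by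
  have h3 : ∀ q q', ‖(D * A) q q'‖ ^ 2 ≤ κ * ∑ r, ‖D q r‖ * ‖A r q'‖ ^ 2 := by
    intro q q'
    rw [Matrix.mul_apply]
    have h4 : ‖∑ r, D q r * A r q'‖ ≤ ∑ r, ‖D q r‖ * ‖A r q'‖ :=
      (norm_sum_le _ _).trans (le_of_eq (Finset.sum_congr rfl fun r _ => norm_mul _ _))
    have h5 : (∑ r, ‖D q r‖ * ‖A r q'‖) ^ 2
        ≤ (∑ r, ‖D q r‖) * ∑ r, ‖D q r‖ * ‖A r q'‖ ^ 2 := by
      refine Finset.sum_sq_le_sum_mul_sum_of_sq_le_mul _ (fun r _ => norm_nonneg _)
        (fun r _ => by positivity) (fun r _ => le_of_eq (by ring))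
    calc ‖∑ r, D q r * A r q'‖ ^ 2 ≤ (∑ r, ‖D q r‖ * ‖A r q'‖) ^ 2 :=
          pow_le_pow_left₀ (norm_nonneg _) h4 2
      _ ≤ (∑ r, ‖D q r‖) * ∑ r, ‖D q r‖ * ‖A r q'‖ ^ 2 := h5
      _ ≤ κ * ∑ r, ‖D q r‖ * ‖A r q'‖ ^ 2 :=
          mul_le_mul_of_nonneg_right (h1 q) (Finset.sum_nonneg fun r _ => by positivity)
  have h6 : ∑ q, ∑ q', ‖(D * A) q q'‖ ^ 2 ≤ κ ^ 2 * ∑ q, ∑ q', ‖A q q'‖ ^ 2 := by
    calc ∑ q, ∑ q', ‖(D * A) q q'‖ ^ 2
        ≤ ∑ q, ∑ q', κ * ∑ r, ‖D q r‖ * ‖A r q'‖ ^ 2 :=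
          Finset.sum_le_sum fun q _ => Finset.sum_le_sum fun q' _ => h3 q q'
      _ = κ * ∑ r, (∑ q, ‖D q r‖) * ∑ q', ‖A r q'‖ ^ 2 := by
          simp_rw [← Finset.mul_sum]
          congr 1
          calc ∑ q, ∑ q', ∑ r, ‖D q r‖ * ‖A r q'‖ ^ 2
              = ∑ q, ∑ r, ∑ q', ‖D q r‖ * ‖A r q'‖ ^ 2 :=
                Finset.sum_congr rfl fun q _ => Finset.sum_comm
            _ = ∑ r, ∑ q, ∑ q', ‖D q r‖ * ‖A r q'‖ ^ 2 := Finset.sum_comm
            _ = ∑ r, (∑ q, ‖D q r‖) * ∑ q', ‖A r q'‖ ^ 2 := by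
                refine Finset.sum_congr rfl fun r _ => ?_
                rw [Finset.sum_mul]
                refine Finset.sum_congr rfl fun q _ => ?_
                rw [Finset.mul_sum]
      _ ≤ κ * ∑ r, κ * ∑ q', ‖A r q'‖ ^ 2 := by
          refine mul_le_mul_of_nonneg_left (Finset.sum_le_sum fun r _ => ?_) hκ
          exact mul_le_mul_of_nonneg_right (h2 r) (Finset.sum_nonneg fun q' _ => by positivity)
      _ = κ ^ 2 * ∑ q, ∑ q', ‖A q q'‖ ^ 2 := by
          rw [← Finset.mul_sum]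
          ring
  calc hsn (D * A) ≤ √(κ ^ 2 * ∑ q, ∑ q', ‖A q q'‖ ^ 2) := Real.sqrt_le_sqrt h6
    _ = κ * hsn A := by
        rw [Real.sqrt_mul (sq_nonneg κ), Real.sqrt_sq hκ, hsn]

private theorem leadX_tr (A : Matrix Q Q ℂ) : hsn Aᵀ = hsn A := by
  unfold hsn
  rw [Finset.sum_comm]
  rfl

private theorem leadX_one : hsn (1 : Matrix Q Q ℂ) = √(Fintype.card Q) := by
  unfold hsn
  congr 1
  calc ∑ q : Q, ∑ q', ‖(1 : Matrix Q Q ℂ) q q'‖ ^ 2 = ∑ q : Q, (1 : ℝ) := by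
        refine Finset.sum_congr rfl fun q _ => ?_
        rw [Finset.sum_eq_single q]
        · simp
        · intro b _ hb
          rw [Matrix.one_apply_ne hb.symm]
          simp
        · intro hh
          exact absurd (Finset.mem_univ _) hh
    _ = Fintype.card Q := by simp

private theorem leadX_I (A : Matrix Q Q ℂ) : hsn (I • A) = hsn A := by
  unfold hsn
  simp [Matrix.smul_apply]

/-- the row `k+1` of `K G = 1` -/
private theorem leadX_row {L : ℕ} {h : Fin L → Matrix Q Q ℝ} (hs : ∀ k, (h k).IsSymm)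
    {y : Fin L × Q → ℝ} (hy : ∀ x, 0 < y x) {i k j : ℕ} (hik : i ≤ k) (hkj : k + 2 ≤ j)
    (hj : j < L) (V : Fin L × Q → ℝ) (l : Fin L) :
    blk ((segD L h i j y).K fun x => (V x : ℂ)) ⟨k + 1, by omega⟩ ⟨k + 1, by omega⟩
        * blk (Gs L h i j y V) ⟨k + 1, by omega⟩ l
      = blk (Gs L h i j y V) ⟨k, by omega⟩ l + blk (Gs L h i j y V) ⟨k + 2, by omega⟩ l
        + (if (⟨k + 1, by omega⟩ : Fin L) = l then 1 else 0) := by
  have hS := segD_good (L := L) hs hy i j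
  have hK := Sys.K_mul_G hS (adm_real V)
  ext q q'
  have h1 := congrFun (congrFun hK (⟨k + 1, by omega⟩, q)) (l, q')
  rw [Matrix.mul_apply] at h1
  set K := (segD L h i j y).K fun x => (V x : ℂ) with hKd
  set G := (segD L h i j y).G fun x => (V x : ℂ) with hGd
  have hKoff : ∀ b : Fin L × Q, b.1 ≠ ⟨k + 1, by omega⟩ → K (⟨k + 1, by omega⟩, q) b
      = if b.2 = q ∧ ((b.1 : ℕ) = k ∨ (b.1 : ℕ) = k + 2) then -1 else 0 := by
    intro b hb
    have hb1 : ((⟨k + 1, by omega⟩, q) : Fin L × Q) ≠ b := fun hh => hb (by rw [← hh])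
    have hb2 : ((⟨k + 1, by omega⟩ : Fin L)) ≠ b.1 := fun hh => hb hh.symm
    have e1 : K (⟨k + 1, by omega⟩, q) b = ((segH L h i j (⟨k + 1, by omega⟩, q) b : ℝ) : ℂ) := by
      rw [hKd]
      simp [Sys.K, segD, Matrix.add_apply, diagonal_apply, hb1]
    rw [e1, segH, if_neg hb2]
    by_cases hc : b.2 = q ∧ ((b.1 : ℕ) = k ∨ (b.1 : ℕ) = k + 2)
    · rw [if_pos hc, if_pos]
      · simp
      · refine ⟨hc.1.symm, ?_⟩
        rcases hc.2 with h3 | h3
        · right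
          exact ⟨by rw [h3], by omega, by show k + 1 ≤ j; omega⟩
        · left
          exact ⟨by rw [h3], by show i ≤ k + 1; omega, by omega⟩
    · rw [if_neg hc, if_neg]
      · simp
      · rintro ⟨h3, h4⟩
        apply hc
        refine ⟨h3.symm, ?_⟩
        simp only at h4
        omega
  have h2 : ∀ b : Fin L × Q, K (⟨k + 1, by omega⟩, q) b * G b (l, q')
      = (if b.1 = ⟨k + 1, by omega⟩ then K (⟨k + 1, by omega⟩, q) b * G b (l, q') else 0)
        + (if b = (⟨k, by omega⟩, q) then - G b (l, q') else 0)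
        + (if b = (⟨k + 2, by omega⟩, q) then - G b (l, q') else 0) := by
    intro b
    by_cases hb : b.1 = ⟨k + 1, by omega⟩
    · rw [if_pos hb, if_neg, if_neg]
      · ring
      · intro hh
        rw [hh] at hb
        have := congrArg Fin.val hb
        simp only at this
        omega
      · intro hh
        rw [hh] at hb
        have := congrArg Fin.val hb
        simp only at this
        omega
    · rw [if_neg hb, hKoff b hb]
      by_cases hb3 : b = (⟨k, by omega⟩, q)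
      · have hn : b ≠ (⟨k + 2, by omega⟩, q) := by
          intro hh
          rw [hb3] at hh
          have := congrArg (fun x : Fin L × Q => (x.1 : ℕ)) hh
          simp only at this
          omega
        have hp : b.2 = q ∧ ((b.1 : ℕ) = k ∨ (b.1 : ℕ) = k + 2) := by
          rw [hb3]
          exact ⟨rfl, Or.inl rfl⟩
        rw [if_pos hb3, if_neg hn, if_pos hp]
        ring
      · rw [if_neg hb3]
        by_cases hb4 : b = (⟨k + 2, by omega⟩, q)
        · rw [if_pos hb4, if_pos]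
          · ring
          · rw [hb4]
            exact ⟨rfl, Or.inr rfl⟩
        · rw [if_neg hb4, if_neg]
          · ring
          · rintro ⟨h3, h4 | h4⟩
            · exact hb3 (Prod.ext (Fin.ext h4) h3)
            · exact hb4 (Prod.ext (Fin.ext h4) h3)
  rw [Finset.sum_congr rfl fun b _ => h2 b, Finset.sum_add_distrib, Finset.sum_add_distrib,
    Finset.sum_ite_eq' Finset.univ, Finset.sum_ite_eq' Finset.univ, if_pos (Finset.mem_univ _),
    if_pos (Finset.mem_univ _), Fintype.sum_prod_type,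
    Finset.sum_eq_single (⟨k + 1, by omega⟩ : Fin L)] at h1
  · simp only [if_true] at h1
    rw [Matrix.mul_apply, Matrix.add_apply, Matrix.add_apply]
    have h5 : ((if (⟨k + 1, by omega⟩ : Fin L) = l then (1 : Matrix Q Q ℂ) else 0)) q q'
        = (1 : Matrix (Fin L × Q) (Fin L × Q) ℂ) (⟨k + 1, by omega⟩, q) (l, q') := by
      by_cases hl : (⟨k + 1, by omega⟩ : Fin L) = l
      · rw [if_pos hl, ← hl, Matrix.one_apply, Matrix.one_apply]
        simp
      · rw [if_neg hl, Matrix.one_apply_ne, Matrix.zero_apply]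
        intro hh
        exact hl (congrArg Prod.fst hh)
    rw [h5, ← h1]
    simp only [blk, Gs, ← hGd]
    ring
  · intro b _ hb
    refine Finset.sum_eq_zero fun r _ => ?_
    rw [if_neg hb]
  · intro hh
    exact absurd (Finset.mem_univ _) hh

private theorem leadX_sym {L : ℕ} {h : Fin L → Matrix Q Q ℝ} (hs : ∀ k, (h k).IsSymm)
    {y : Fin L × Q → ℝ} (hy : ∀ x, 0 < y x) (i j : ℕ) (V : Fin L × Q → ℝ) (a b : Fin L) :
    (blk (Gs L h i j y V) a b)ᵀ = blk (Gs L h i j y V) b a := by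
  have hS := segD_good (L := L) hs hy i j
  ext q q'
  exact Sys.G_comm hS _ _ _

private theorem leadX_Ksym {L : ℕ} {h : Fin L → Matrix Q Q ℝ} (hs : ∀ k, (h k).IsSymm)
    {y : Fin L × Q → ℝ} (i j : ℕ) (V : Fin L × Q → ℝ) (a : Fin L) :
    (blk ((segD L h i j y).K fun x => (V x : ℂ)) a a)ᵀ
      = blk ((segD L h i j y).K fun x => (V x : ℂ)) a a := by
  ext q q'
  show ((segD L h i j y).K fun x => (V x : ℂ)) (a, q') (a, q)
    = ((segD L h i j y).K fun x => (V x : ℂ)) (a, q) (a, q')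
  by_cases hq : q = q'
  · rw [hq]
  · have h1 : ((a, q') : Fin L × Q) ≠ (a, q) := fun hh => hq (congrArg Prod.snd hh).symm
    have h2 : ((a, q) : Fin L × Q) ≠ (a, q') := fun hh => hq (congrArg Prod.snd hh)
    simp only [Sys.K, segD, Matrix.add_apply, diagonal_apply, if_neg h1, if_neg h2]
    simp [segH, (hs a).apply q q']

private theorem leadX_D {L : ℕ} {h : Fin L → Matrix Q Q ℝ} (hs : ∀ k, (h k).IsSymm) {R c η : ℝ}
    (hrow : ∀ k q, ∑ q', |h k q q'| ≤ R) (hη : 0 < η) (hη1 : η ≤ 1)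
    {i j : ℕ} {V : Fin L × Q → ℝ} (hV : ∀ x, V x ∈ Set.Icc (-c) c) (m : Fin L)
    (him : i < (m : ℕ)) (hmj : (m : ℕ) < j) (q : Q) :
    ∑ r, ‖blk ((segD L h i j (yLead i j η)).K fun x => (V x : ℂ)) m m q r‖ ≤ R + c + 1 := by
  have h1 : ∀ r, ‖blk ((segD L h i j (yLead i j η)).K fun x => (V x : ℂ)) m m q r‖
      ≤ |h m q r| + if q = r then c + 1 else 0 := by
    intro r
    have e1 : blk ((segD L h i j (yLead i j η)).K fun x => (V x : ℂ)) m m q r
        = (h m q r : ℂ) + if q = r then (V (m, q) : ℂ) + (η : ℂ) * I else 0 := by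
      have hy : yLead i j η (m, q) = η := by
        unfold yLead
        rw [if_neg (by show ¬ ((m : ℕ) = i); omega), if_neg (by show ¬ ((m : ℕ) = j); omega)]
        ring
      by_cases hq : q = r
      · subst hq
        simp [blk, Sys.K, segD, Matrix.add_apply, diagonal_apply, segH, hy]
      · have h2 : ((m, q) : Fin L × Q) ≠ (m, r) := fun hh => hq (congrArg Prod.snd hh)
        simp [blk, Sys.K, segD, Matrix.add_apply, diagonal_apply, segH, hq]
    rw [e1]
    refine (norm_add_le _ _).trans ?_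
    rw [Complex.norm_real, Real.norm_eq_abs]
    refine add_le_add le_rfl ?_
    by_cases hq : q = r
    · rw [if_pos hq, if_pos hq]
      refine (norm_add_le _ _).trans ?_
      rw [Complex.norm_real, Real.norm_eq_abs, norm_mul, Complex.norm_real, Real.norm_eq_abs,
        Complex.norm_I, mul_one, abs_of_pos hη]
      have h3 := hV (m, q)
      have h4 : |V (m, q)| ≤ c := abs_le.2 ⟨h3.1, h3.2⟩
      linarith
    · rw [if_neg hq, if_neg hq, norm_zero]
  calc ∑ r, ‖blk ((segD L h i j (yLead i j η)).K fun x => (V x : ℂ)) m m q r‖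
      ≤ ∑ r, (|h m q r| + if q = r then c + 1 else 0) := Finset.sum_le_sum fun r _ => h1 r
    _ = ∑ r, |h m q r| + (c + 1) := by
        rw [Finset.sum_add_distrib, Finset.sum_ite_eq Finset.univ, if_pos (Finset.mem_univ _)]
    _ ≤ R + c + 1 := by
        have := hrow m q
        linarith

theorem hsn_leadX_le {L : ℕ} {h : Fin L → Matrix Q Q ℝ} (hs : ∀ k, (h k).IsSymm) {R c η : ℝ}
    (hR : 0 ≤ R) (hc : 0 < c) (hrow : ∀ k q, ∑ q', |h k q q'| ≤ R) (hη : 0 < η) (hη1 : η ≤ 1)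
    {i k j : ℕ} (hik : i ≤ k) (hkj : k + 3 ≤ j) (hj : j < L) {V : Fin L × Q → ℝ}
    (hV : ∀ x, V x ∈ Set.Icc (-c) c) :
    hsn (leadX (Gs L h i j (yLead i j η) V) ⟨k, by omega⟩ ⟨k + 1, by omega⟩ ⟨k + 2, by omega⟩
            ⟨k + 3, by omega⟩)
      ≤ (2 + R + c) ^ 2 * (√(Fintype.card Q)
        + hsn (blk (Gs L h i j (yLead i j η) V) ⟨k + 1, by omega⟩ ⟨k + 1, by omega⟩)
        + hsn (blk (Gs L h i j (yLead i j η) V) ⟨k + 1, by omega⟩ ⟨k + 2, by omega⟩)
        + hsn (blk (Gs L h i j (yLead i j η) V) ⟨k + 2, by omega⟩ ⟨k + 1, by omega⟩)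
        + hsn (blk (Gs L h i j (yLead i j η) V) ⟨k + 2, by omega⟩ ⟨k + 2, by omega⟩)) := by
  set y : Fin L × Q → ℝ := yLead i j η with hyd
  have hy : ∀ x, 0 < y x := by
    intro x
    rw [hyd, yLead]
    split_ifs <;> linarith
  set κ : ℝ := R + c + 1 with hκd
  have hκ : 0 ≤ κ := by rw [hκd]; linarith
  have hs1 : ∀ a b : Fin L, (blk (Gs L h i j y V) a b)ᵀ = blk (Gs L h i j y V) b a :=
    fun a b => leadX_sym hs hy i j V a b
  have hDs : ∀ m : Fin L, (blk ((segD L h i j y).K fun x => (V x : ℂ)) m m)ᵀ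
      = blk ((segD L h i j y).K fun x => (V x : ℂ)) m m := fun m => leadX_Ksym hs i j V m
  have hDr : ∀ m : Fin L, i < (m : ℕ) → (m : ℕ) < j → ∀ q,
      ∑ r, ‖blk ((segD L h i j y).K fun x => (V x : ℂ)) m m q r‖ ≤ κ :=
    fun m h1 h2 q => leadX_D hs hrow hη hη1 hV m h1 h2 q
  have hDc : ∀ m : Fin L, i < (m : ℕ) → (m : ℕ) < j → ∀ r,
      ∑ q, ‖blk ((segD L h i j y).K fun x => (V x : ℂ)) m m q r‖ ≤ κ := by
    intro m h1 h2 r
    have h3 := hDr m h1 h2 r
    rw [← hDs m] at h3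
    exact h3
  -- the block identities
  set D1 := blk ((segD L h i j y).K fun x => (V x : ℂ)) (⟨k + 1, by omega⟩ : Fin L)
    ⟨k + 1, by omega⟩ with hD1
  set D2 := blk ((segD L h i j y).K fun x => (V x : ℂ)) (⟨k + 2, by omega⟩ : Fin L)
    ⟨k + 2, by omega⟩ with hD2
  have hD1s : D1ᵀ = D1 := hDs _
  have hD2s : D2ᵀ = D2 := hDs _
  have op1 : ∀ A : Matrix Q Q ℂ, hsn (D1 * A) ≤ κ * hsn A := fun A =>
    leadX_op hκ D1 A (hDr _ (by show i < k + 1; omega) (by show k + 1 < j; omega))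
      (hDc _ (by show i < k + 1; omega) (by show k + 1 < j; omega))
  have op2 : ∀ A : Matrix Q Q ℂ, hsn (A * D2) ≤ κ * hsn A := by
    intro A
    rw [← leadX_tr (A * D2), Matrix.transpose_mul, hD2s, ← leadX_tr A]
    exact leadX_op hκ D2 Aᵀ (hDr _ (by show i < k + 2; omega) (by show k + 2 < j; omega))
      (hDc _ (by show i < k + 2; omega) (by show k + 2 < j; omega))
  have r1 := leadX_row hs hy hik (by omega : k + 2 ≤ j) hj V
  have r2 := leadX_row hs hy (by omega : i ≤ k + 1) (by omega : k + 1 + 2 ≤ j) hj V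
  rw [← hD1] at r1
  set k0 : Fin L := ⟨k, by omega⟩ with hk0
  set k1 : Fin L := ⟨k + 1, by omega⟩ with hk1
  set k2 : Fin L := ⟨k + 2, by omega⟩ with hk2
  set k3 : Fin L := ⟨k + 3, by omega⟩ with hk3
  have c2 : ∀ l : Fin L, blk (Gs L h i j y V) l k2 * D2
      = blk (Gs L h i j y V) l k1 + blk (Gs L h i j y V) l k3 + (if k2 = l then 1 else 0) := by
    intro l
    have h1 := congrArg Matrix.transpose (r2 l)
    rw [Matrix.transpose_mul] at h1
    have h2 : (blk ((segD L h i j y).K fun x => (V x : ℂ)) (⟨k + 1 + 1, by omega⟩ : Fin L)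
        ⟨k + 1 + 1, by omega⟩)ᵀ = D2 := hD2s
    rw [h2, hs1, Matrix.transpose_add, Matrix.transpose_add, hs1, hs1] at h1
    have h3 : ((if (⟨k + 1 + 1, by omega⟩ : Fin L) = l then (1 : Matrix Q Q ℂ) else 0))ᵀ
        = if k2 = l then 1 else 0 := by
      by_cases hl : k2 = l
      · rw [if_pos hl]
        exact Matrix.transpose_one
      · rw [if_neg hl]
        exact Matrix.transpose_zero
    rw [h3] at h1
    exact h1
  have n12 : k1 ≠ k2 := by
    intro hh
    have := congrArg Fin.val hh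
    simp only [hk1, hk2] at this
    omega
  have n20 : k2 ≠ k0 := by
    intro hh
    have := congrArg Fin.val hh
    simp only [hk0, hk2] at this
    omega
  have i02 : blk (Gs L h i j y V) k0 k2
      = D1 * blk (Gs L h i j y V) k1 k2 - blk (Gs L h i j y V) k2 k2 := by
    rw [r1 k2, if_neg n12]
    abel
  have i01 : blk (Gs L h i j y V) k0 k1
      = D1 * blk (Gs L h i j y V) k1 k1 - blk (Gs L h i j y V) k2 k1 - 1 := by
    rw [r1 k1, if_pos rfl]
    abel
  have i13 : blk (Gs L h i j y V) k1 k3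
      = blk (Gs L h i j y V) k1 k2 * D2 - blk (Gs L h i j y V) k1 k1 := by
    rw [c2 k1, if_neg n12.symm]
    abel
  have i03 : blk (Gs L h i j y V) k0 k3
      = blk (Gs L h i j y V) k0 k2 * D2 - blk (Gs L h i j y V) k0 k1 := by
    rw [c2 k0, if_neg n20]
    abel
  set a11 := hsn (blk (Gs L h i j y V) k1 k1)
  set a12 := hsn (blk (Gs L h i j y V) k1 k2)
  set a21 := hsn (blk (Gs L h i j y V) k2 k1)
  set a22 := hsn (blk (Gs L h i j y V) k2 k2)
  have b11 : 0 ≤ a11 := hsn_nonneg _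
  have b12 : 0 ≤ a12 := hsn_nonneg _
  have b21 : 0 ≤ a21 := hsn_nonneg _
  have b22 : 0 ≤ a22 := hsn_nonneg _
  have e02 : hsn (blk (Gs L h i j y V) k0 k2) ≤ κ * a12 + a22 := by
    rw [i02]
    exact (hsn_sub _ _).trans (add_le_add (op1 _) le_rfl)
  have e13 : hsn (blk (Gs L h i j y V) k1 k3) ≤ κ * a12 + a11 := by
    rw [i13]
    exact (hsn_sub _ _).trans (add_le_add (op2 _) le_rfl)
  have e01 : hsn (blk (Gs L h i j y V) k0 k1) ≤ κ * a11 + a21 + √(Fintype.card Q) := by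
    rw [i01]
    refine (hsn_sub _ _).trans (add_le_add ?_ leadX_one.le)
    exact (hsn_sub _ _).trans (add_le_add (op1 _) le_rfl)
  have e03 : hsn (blk (Gs L h i j y V) k0 k3)
      ≤ κ * (κ * a12 + a22) + (κ * a11 + a21 + √(Fintype.card Q)) := by
    rw [i03]
    refine (hsn_sub _ _).trans (add_le_add ((op2 _).trans ?_) e01)
    exact mul_le_mul_of_nonneg_left e02 hκ
  have hX : hsn (leadX (Gs L h i j y V) k0 k1 k2 k3) ≤ a12 + (κ * a12 + a11) + (κ * a12 + a22)
      + (κ * (κ * a12 + a22) + (κ * a11 + a21 + √(Fintype.card Q))) := by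
    unfold leadX
    refine (hsn_sub _ _).trans (add_le_add ?_ e03)
    refine (hsn_add _ _).trans (add_le_add ?_ ((leadX_I _).le.trans e02))
    exact (hsn_add _ _).trans (add_le_add le_rfl ((leadX_I _).le.trans e13))
  refine hX.trans ?_
  have hW : 0 ≤ √(Fintype.card Q : ℝ) := Real.sqrt_nonneg _
  have h2κ : (2 + R + c) ^ 2 = 1 + 2 * κ + κ ^ 2 := by rw [hκd]; ring
  rw [h2κ]
  have q1 := mul_nonneg hκ b11
  have q2 := mul_nonneg hκ b12
  have q3 := mul_nonneg hκ b21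
  have q4 := mul_nonneg hκ b22
  have q5 := mul_nonneg hκ hW
  have p1 := mul_nonneg (mul_nonneg hκ hκ) b11
  have p3 := mul_nonneg (mul_nonneg hκ hκ) b21
  have p4 := mul_nonneg (mul_nonneg hκ hκ) b22
  have p5 := mul_nonneg (mul_nonneg hκ hκ) hW
  nlinarith

end Pool.Agent.Lib.MP_562b47_mp.Str
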