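import Mathlib

/-!
Module STR-Num (MP_562b47_mp, strips).  The list of numerical facts which hold for large `Λ`.

Everything follows from: powers of `Λ` beat powers of `log Λ`, `exp (-Λ)` beats powers of `Λ`
(`isLittleO_log_rpow_atTop`, `tendsto_pow_mul_exp_neg_atTop_nhds_zero`,
`tendsto_rpow_neg_atTop`, ...).  All exponents are real powers (`Real.rpow`).
`n7`: write `(R+c+3)^(Λ+1) = exp ((Λ+1) log (R+c+3))`; the left side is at most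
`poly(Λ) * exp (2 log(R+c+3)) * exp (2 Λ log (R+c+3) - Cη Λ)` and `Cη ≥ 2 log(R+c+3) + 1`.
-/

open Real

namespace Pool.Agent.Lib.MP_562b47_mp.Str

/-- the numerical facts -/
structure NumOK (c R ε CT CV P Cη : ℝ) (Δ k : ℕ) (Λ : ℝ) : Prop where
  n0 : 64 ≤ Λ
  n1 : 64 ≤ Λ ^ (ε / 2)
  n2 : Λ ^ (-(ε / 8)) ≤ 1 / 2
  n2' : Λ ^ (-(3 * ε / 4)) ≤ c / 2
  n3 : (60 * Real.logb 2 Λ + 2) * ((2 * R * P + 4) * Λ ^ (7 * ε / 8)) + (2 * k + 4) ≤ Λ ^ ε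
  n4 : 2 * CT * Λ ^ (-(ε / 2)) ≤ 1
  n5 : ((Δ : ℝ) + 1) ^ k ≤ Λ
  n6 : (R * P * Λ ^ (-57 : ℝ)) ^ 2 + 4 * Λ ^ (-57 : ℝ) ≤ Λ ^ (-56 : ℝ)
  n7 : 4 * Real.exp (-(Cη * Λ)) * (Λ * ((R + c + 3) ^ (Λ + 1) * (√(P * Λ ^ 3) + √Λ)) ^ 2
    + P * Λ ^ 3) ≤ Λ ^ (-57 : ℝ)
  n8 : 128 * CV * P ^ 2 * (1 + 2 * Real.log Λ) ^ 3 ≤ Λ ^ (ε / 8)
  n9 : Real.exp (-(Λ ^ (3 * ε / 2) / CT)) ≤ Λ ^ (-30 : ℝ)
  n10 : 4 * CT < Λ ^ (3 * ε / 10)


open Filter in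
private theorem Num_log_le {A B s : ℝ} (hA : 0 ≤ A) (hs : 0 < s) :
    ∀ᶠ Λ : ℝ in atTop, A * Real.log Λ + B ≤ Λ ^ s := by
  have h1 := isLittleO_log_rpow_atTop hs
  have h2 := h1.bound (show (0 : ℝ) < 1 / (2 * (A + 1)) by positivity)
  have h3 : ∀ᶠ Λ : ℝ in atTop, 2 * B ≤ Λ ^ s := (tendsto_rpow_atTop hs).eventually_ge_atTop _
  filter_upwards [h2, h3, eventually_ge_atTop (1 : ℝ)] with Λ h2 h3 h4
  have hl : 0 ≤ Real.log Λ := Real.log_nonneg h4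
  have hp : 0 ≤ Λ ^ s := by positivity
  rw [Real.norm_of_nonneg hl, Real.norm_of_nonneg hp] at h2
  have h5 : A * Real.log Λ ≤ Λ ^ s / 2 := by
    calc A * Real.log Λ ≤ A * (1 / (2 * (A + 1)) * Λ ^ s) := by gcongr
      _ = (A / (A + 1)) * (Λ ^ s / 2) := by field_simp
      _ ≤ 1 * (Λ ^ s / 2) := by
          apply mul_le_mul_of_nonneg_right _ (by positivity)
          rw [div_le_one (by positivity)]
          linarith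
      _ = Λ ^ s / 2 := one_mul _
  linarith

open Filter in
private theorem Num_neg_le {s m : ℝ} (hs : 0 < s) (hm : 0 < m) :
    ∀ᶠ Λ : ℝ in atTop, Λ ^ (-s) ≤ m :=
  (tendsto_rpow_neg_atTop hs).eventually_le_const hm

open Filter in
private theorem Num_n3 {R ε P : ℝ} (hR : 0 ≤ R) (hε : 0 < ε) (hP : 0 < P) (k : ℕ) :
    ∀ᶠ Λ : ℝ in atTop,
      (60 * Real.logb 2 Λ + 2) * ((2 * R * P + 4) * Λ ^ (7 * ε / 8)) + (2 * k + 4) ≤ Λ ^ ε := by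
  have h1 := Num_log_le (A := 60 / Real.log 2 * (2 * R * P + 4))
    (B := 2 * (2 * R * P + 4) + (2 * k + 4)) (s := ε / 8) (by positivity) (by positivity)
  filter_upwards [h1, eventually_ge_atTop (1 : ℝ)] with Λ h1 h2
  have hq : 1 ≤ Λ ^ (7 * ε / 8) := Real.one_le_rpow h2 (by positivity)
  have e : Λ ^ ε = Λ ^ (ε / 8) * Λ ^ (7 * ε / 8) := by
    rw [← Real.rpow_add (by linarith)]
    congr 1
    ring
  have hk : (0 : ℝ) ≤ 2 * k + 4 := by positivity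
  rw [e]
  calc (60 * Real.logb 2 Λ + 2) * ((2 * R * P + 4) * Λ ^ (7 * ε / 8)) + (2 * k + 4)
      ≤ (60 * Real.logb 2 Λ + 2) * ((2 * R * P + 4) * Λ ^ (7 * ε / 8)) +
        (2 * k + 4) * Λ ^ (7 * ε / 8) := by
          have := mul_le_mul_of_nonneg_left hq hk
          linarith
    _ = (60 / Real.log 2 * (2 * R * P + 4) * Real.log Λ +
          (2 * (2 * R * P + 4) + (2 * k + 4))) * Λ ^ (7 * ε / 8) := by
          unfold Real.logb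
          ring
    _ ≤ Λ ^ (ε / 8) * Λ ^ (7 * ε / 8) := by gcongr

open Filter in
private theorem Num_n6 {R P : ℝ} :
    ∀ᶠ Λ : ℝ in atTop, (R * P * Λ ^ (-57 : ℝ)) ^ 2 + 4 * Λ ^ (-57 : ℝ) ≤ Λ ^ (-56 : ℝ) := by
  filter_upwards [eventually_ge_atTop (8 : ℝ), eventually_ge_atTop (2 * (R * P) ^ 2)] with Λ h1 h2
  have e : Λ ^ (-56 : ℝ) = Λ * Λ ^ (-57 : ℝ) := by
    have : (-56 : ℝ) = 1 + -57 := by norm_num
    rw [this, Real.rpow_add (by linarith), Real.rpow_one]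
  have hq0 : 0 ≤ Λ ^ (-57 : ℝ) := by positivity
  have hq1 : Λ ^ (-57 : ℝ) ≤ 1 := Real.rpow_le_one_of_one_le_of_nonpos (by linarith) (by norm_num)
  rw [e]
  set q := Λ ^ (-57 : ℝ) with hq
  have h3 : q ^ 2 ≤ q := by nlinarith
  have h4 : (R * P * q) ^ 2 ≤ (R * P) ^ 2 * q := by
    rw [mul_pow]
    exact mul_le_mul_of_nonneg_left h3 (sq_nonneg _)
  nlinarith

open Filter in
private theorem Num_n7 {c R P Cη : ℝ} (hc : 0 < c) (hR : 0 ≤ R) (hP : 0 < P)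
    (hη : 2 * Real.log (R + c + 3) + 1 ≤ Cη) :
    ∀ᶠ Λ : ℝ in atTop,
      4 * Real.exp (-(Cη * Λ)) * (Λ * ((R + c + 3) ^ (Λ + 1) * (√(P * Λ ^ 3) + √Λ)) ^ 2
        + P * Λ ^ 3) ≤ Λ ^ (-57 : ℝ) := by
  set a := Real.log (R + c + 3) with ha
  have ha0 : 0 ≤ a := Real.log_nonneg (by linarith)
  have hK : 0 < 4 * Real.exp (2 * a) * (3 * P + 2) := by positivity
  have h1 := (Real.tendsto_pow_mul_exp_neg_atTop_nhds_zero 61).eventually_le_const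
    (show (0 : ℝ) < (4 * Real.exp (2 * a) * (3 * P + 2))⁻¹ by positivity)
  filter_upwards [h1, eventually_ge_atTop (1 : ℝ)] with Λ h1 h2
  have hΛ : 0 < Λ := by linarith
  have hsq : (√(P * Λ ^ 3) + √Λ) ^ 2 ≤ 2 * (P * Λ ^ 3 + Λ) := by
    have e1 : √(P * Λ ^ 3) ^ 2 = P * Λ ^ 3 := Real.sq_sqrt (by positivity)
    have e2 : √Λ ^ 2 = Λ := Real.sq_sqrt hΛ.le
    nlinarith [sq_nonneg (√(P * Λ ^ 3) - √Λ)]
  have hA : (R + c + 3) ^ (Λ + 1) = Real.exp (a * (Λ + 1)) := by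
    rw [Real.rpow_def_of_pos (by linarith)]
  have hA2 : ((R + c + 3) ^ (Λ + 1)) ^ 2 = Real.exp (2 * a) * Real.exp (2 * a * Λ) := by
    rw [hA, ← Real.exp_nat_mul, ← Real.exp_add]
    congr 1
    push_cast
    ring
  have he1 : 1 ≤ Real.exp (2 * a) * Real.exp (2 * a * Λ) := by
    rw [← Real.exp_add]
    exact Real.one_le_exp (by positivity)
  have h3 : Λ * ((R + c + 3) ^ (Λ + 1) * (√(P * Λ ^ 3) + √Λ)) ^ 2 + P * Λ ^ 3 ≤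
      Real.exp (2 * a) * Real.exp (2 * a * Λ) * ((3 * P + 2) * Λ ^ 4) := by
    rw [mul_pow, hA2]
    set E := Real.exp (2 * a) * Real.exp (2 * a * Λ) with hE
    have hE0 : 0 ≤ E := by positivity
    have p1 : Λ * (E * (√(P * Λ ^ 3) + √Λ) ^ 2) ≤ Λ * (E * (2 * (P * Λ ^ 3 + Λ))) := by gcongr
    have p2 : P * Λ ^ 3 ≤ E * (P * Λ ^ 3) := le_mul_of_one_le_left (by positivity) he1
    have p3 : Λ ^ 3 ≤ Λ ^ 4 := pow_le_pow_right₀ h2 (by norm_num)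
    have p4 : Λ ^ 2 ≤ Λ ^ 4 := pow_le_pow_right₀ h2 (by norm_num)
    calc Λ * (E * (√(P * Λ ^ 3) + √Λ) ^ 2) + P * Λ ^ 3
        ≤ Λ * (E * (2 * (P * Λ ^ 3 + Λ))) + E * (P * Λ ^ 3) := add_le_add p1 p2
      _ = E * (2 * P * Λ ^ 4 + 2 * Λ ^ 2 + P * Λ ^ 3) := by ring
      _ ≤ E * (2 * P * Λ ^ 4 + 2 * Λ ^ 4 + P * Λ ^ 4) := by gcongr
      _ = E * ((3 * P + 2) * Λ ^ 4) := by ring
  have h4 : Real.exp (-(Cη * Λ)) * Real.exp (2 * a * Λ) ≤ Real.exp (-Λ) := by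
    rw [← Real.exp_add, Real.exp_le_exp]
    nlinarith
  have e57 : Λ ^ (-57 : ℝ) = (Λ ^ 57)⁻¹ := by
    rw [Real.rpow_neg hΛ.le]
    congr 1
    exact_mod_cast Real.rpow_natCast Λ 57
  rw [e57]
  have h5 : 4 * Real.exp (-(Cη * Λ)) * (Λ * ((R + c + 3) ^ (Λ + 1) * (√(P * Λ ^ 3) + √Λ)) ^ 2
        + P * Λ ^ 3) ≤ (4 * Real.exp (2 * a) * (3 * P + 2)) * (Λ ^ 4 * Real.exp (-Λ)) := by
    calc 4 * Real.exp (-(Cη * Λ)) * (Λ * ((R + c + 3) ^ (Λ + 1) * (√(P * Λ ^ 3) + √Λ)) ^ 2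
        + P * Λ ^ 3) ≤ 4 * Real.exp (-(Cη * Λ)) *
          (Real.exp (2 * a) * Real.exp (2 * a * Λ) * ((3 * P + 2) * Λ ^ 4)) := by gcongr
      _ = (4 * Real.exp (2 * a) * (3 * P + 2)) * (Λ ^ 4 *
          (Real.exp (-(Cη * Λ)) * Real.exp (2 * a * Λ))) := by ring
      _ ≤ (4 * Real.exp (2 * a) * (3 * P + 2)) * (Λ ^ 4 * Real.exp (-Λ)) := by gcongr
  refine h5.trans ?_
  have h6 : Λ ^ 4 * Real.exp (-Λ) = (Λ ^ 57)⁻¹ * (Λ ^ 61 * Real.exp (-Λ)) := by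
    field_simp
  rw [h6]
  calc (4 * Real.exp (2 * a) * (3 * P + 2)) * ((Λ ^ 57)⁻¹ * (Λ ^ 61 * Real.exp (-Λ)))
      ≤ (4 * Real.exp (2 * a) * (3 * P + 2)) * ((Λ ^ 57)⁻¹ *
        (4 * Real.exp (2 * a) * (3 * P + 2))⁻¹) := by gcongr
    _ = (Λ ^ 57)⁻¹ := by field_simp

open Filter in
private theorem Num_n8 {ε CV P : ℝ} (hε : 0 < ε) (hCV : 0 < CV) :
    ∀ᶠ Λ : ℝ in atTop, 128 * CV * P ^ 2 * (1 + 2 * Real.log Λ) ^ 3 ≤ Λ ^ (ε / 8) := by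
  have hD : 0 ≤ 128 * CV * P ^ 2 := by positivity
  set D := 128 * CV * P ^ 2 with hDd
  have h1 := Num_log_le (A := 2 * (D + 1)) (B := D + 1) (s := ε / 24) (by positivity)
    (by positivity)
  filter_upwards [h1, eventually_ge_atTop (1 : ℝ)] with Λ h1 h2
  have hl : 0 ≤ Real.log Λ := Real.log_nonneg h2
  have e : Λ ^ (ε / 8) = (Λ ^ (ε / 24)) ^ 3 := by
    rw [← Real.rpow_natCast, ← Real.rpow_mul (by linarith)]
    congr 1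
    push_cast
    ring
  rw [e]
  have h3 : (D + 1) * (1 + 2 * Real.log Λ) ≤ Λ ^ (ε / 24) := by linarith
  calc D * (1 + 2 * Real.log Λ) ^ 3 ≤ (D + 1) ^ 3 * (1 + 2 * Real.log Λ) ^ 3 := by
        apply mul_le_mul_of_nonneg_right _ (by positivity)
        nlinarith [mul_nonneg hD hD, mul_nonneg (mul_nonneg hD hD) hD]
    _ = ((D + 1) * (1 + 2 * Real.log Λ)) ^ 3 := by ring
    _ ≤ (Λ ^ (ε / 24)) ^ 3 := by gcongr

open Filter in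
private theorem Num_n9 {ε CT : ℝ} (hε : 0 < ε) (hCT : 1 ≤ CT) :
    ∀ᶠ Λ : ℝ in atTop, Real.exp (-(Λ ^ (3 * ε / 2) / CT)) ≤ Λ ^ (-30 : ℝ) := by
  have h1 := Num_log_le (A := 30 * CT) (B := 0) (s := 3 * ε / 2) (by positivity) (by positivity)
  filter_upwards [h1, eventually_ge_atTop (1 : ℝ)] with Λ h1 h2
  rw [Real.rpow_def_of_pos (show 0 < Λ by linarith) (-30 : ℝ), Real.exp_le_exp]
  have h3 : 30 * Real.log Λ ≤ Λ ^ (3 * ε / 2) / CT := by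
    rw [le_div_iff₀ (by linarith)]
    linarith
  linarith

theorem num_ok {c R ε CT CV P Cη : ℝ} (hc : 0 < c) (hR : 0 ≤ R) (hε : 0 < ε) (hε1 : ε ≤ 1)
    (hCT : 1 ≤ CT) (hCV : 0 < CV) (hP : 0 < P) (hη : 2 * Real.log (R + c + 3) + 1 ≤ Cη)
    (Δ k : ℕ) : ∃ Λ0 : ℝ, ∀ Λ : ℝ, Λ0 ≤ Λ → NumOK c R ε CT CV P Cη Δ k Λ := by
  have hn0 : ∀ᶠ Λ : ℝ in Filter.atTop, 64 ≤ Λ := Filter.eventually_ge_atTop _
  have hn1 : ∀ᶠ Λ : ℝ in Filter.atTop, 64 ≤ Λ ^ (ε / 2) :=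
    (tendsto_rpow_atTop (by positivity)).eventually_ge_atTop _
  have hn2 : ∀ᶠ Λ : ℝ in Filter.atTop, Λ ^ (-(ε / 8)) ≤ 1 / 2 :=
    Num_neg_le (by positivity) (by norm_num)
  have hn2' : ∀ᶠ Λ : ℝ in Filter.atTop, Λ ^ (-(3 * ε / 4)) ≤ c / 2 :=
    Num_neg_le (by positivity) (by positivity)
  have hn3 := Num_n3 hR hε hP k
  have hn4 : ∀ᶠ Λ : ℝ in Filter.atTop, Λ ^ (-(ε / 2)) ≤ 1 / (2 * CT) :=
    Num_neg_le (by positivity) (by positivity)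
  have hn5 : ∀ᶠ Λ : ℝ in Filter.atTop, ((Δ : ℝ) + 1) ^ k ≤ Λ := Filter.eventually_ge_atTop _
  have hn6 := Num_n6 (R := R) (P := P)
  have hn7 := Num_n7 hc hR hP hη
  have hn8 := Num_n8 (P := P) hε hCV
  have hn9 := Num_n9 hε hCT
  have hn10 : ∀ᶠ Λ : ℝ in Filter.atTop, 4 * CT < Λ ^ (3 * ε / 10) :=
    (tendsto_rpow_atTop (by positivity)).eventually_gt_atTop _
  have hall : ∀ᶠ Λ : ℝ in Filter.atTop, NumOK c R ε CT CV P Cη Δ k Λ := by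
    filter_upwards [hn0, hn1, hn2, hn2', hn3, hn4, hn5, hn6, hn7, hn8, hn9, hn10] with Λ
      a0 a1 a2 a2' a3 a4 a5 a6 a7 a8 a9 a10
    refine ⟨a0, a1, a2, a2', a3, ?_, a5, a6, a7, a8, a9, a10⟩
    calc 2 * CT * Λ ^ (-(ε / 2)) ≤ 2 * CT * (1 / (2 * CT)) := by gcongr
      _ = 1 := by field_simp
  obtain ⟨Λ0, h⟩ := Filter.eventually_atTop.mp hall
  exact ⟨Λ0, h⟩

end Pool.Agent.Lib.MP_562b47_mp.Str
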