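import Pool.Agent.Lib.MP_562b47_mp.Str.Single

/-!
Module STR-Pair (MP_562b47_mp, strips).  The second order influence of two core sites `x ≠ y` of `B`.
`h V = T.Sv (dfm B c b V I)`, `t = tt c q m`, `p = t/(2c) = unif (cel j)`.

PROOF of `pair_gen` (general `F`).  `DX x (DX y F) V = 0` unless `V x` and `V y` are in the half-open
core (`av1_of_not`), and if `V x ∈ cel i`, `V y ∈ cel j` it equals
`p⁻² ∫_u∫_w 1_{cel i}(u) 1_{cel j}(w) (F V - F(V;x↦u) - F(V;y↦w) + F(V;x↦u,y↦w))`.
By Jensen (`av1_jensen` twice) its norm squared is at most the average of the norm squared.  Integrate.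
(`same c q m u v : Prop` = `u` and `v` are in one common cell `cel j`, `j < m`.)

PROOF of `mixed`.  For one pair of values write `ζ, ζ'` (`= zeta c b (V x), zeta c b u`) at `x` and
`η, η'` at `y` and `h(·,·)`, `w_x(·,·)`, `G_xy(·,·)` for the functions of the two values.
By `upd_S`: `h(ζ,η)-h(ζ',η) = 2i (ζ-ζ') w_x(ζ',η) ⊗ w_x(ζ,η)`; the same with `η'`; subtract:
 `D := 2i (ζ-ζ') [ (w_x(ζ',η) - w_x(ζ',η')) ⊗ w_x(ζ,η) + w_x(ζ',η') ⊗ (w_x(ζ,η) - w_x(ζ,η')) ]`,
and by `upd_wv` at `y`: `w_x(ζ,η) - w_x(ζ,η') = -(η-η') G_xy(ζ,η') w_y(ζ,η)`.  Moreover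
`G_xy(ζ,η') w_y(ζ,η) = G_xy(ζ,η) w_y(ζ,η')` because as functions of the value `η` at `y`
`G_xy(ζ,η) = α/(η+σ_y)` (from `upd_G`: `G'_xy (1 + (η-η')G_yy) = G_xy`, and `upd_Gxx`) and
`w_y(ζ,η) = a/(η+σ_y)`.  So
 `‖D‖ ≤ 2|ζ-ζ'||η-η'| (|G_xy(ζ',η')| ‖w_y(ζ',η)‖ ‖w_x(ζ,η')‖ ... )`, precisely:
 first term: `‖w_x(ζ',η)-w_x(ζ',η')‖ ‖w_x(ζ,η)‖ = |η-η'| |G_xy(ζ',η)| ‖w_y(ζ',η')‖ ‖w_x(ζ,η)‖`,
 second term: `‖w_x(ζ',η')‖ |η-η'| |G_xy(ζ,η)| ‖w_y(ζ,η')‖`... choose in each term the base point so that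
 `G_xy` sits at a point `P`, `w_x` at the point obtained from `P` by changing ONLY the value at `x`, and
 `w_y` at the point obtained from `P` by changing ONLY the value at `y`:
 * first term: `P = (ζ',η)`: `w_x` at `(ζ,η)` (only `x` changed), `w_y` at `(ζ',η')` (only `y` changed). OK.
 * second term: `w_x(ζ',η')`, `|G_xy(ζ,η')| ‖w_y(ζ,η)‖`: `P = (ζ,η')`: `w_x` at `(ζ',η')` (only `x`
   changed), `w_y` at `(ζ,η)` (only `y` changed). OK (no need to exchange here).
 So with `Q(P; u, w) := |G_xy(P)|² ‖w_x(P; x↦u)‖² ‖w_y(P; y↦w)‖²`: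
 `‖D‖² ≤ 4 |ζ-ζ'|²|η-η'|² * 2 * (Q((ζ',η);ζ,η') + Q((ζ,η');ζ',η))`, and `|ζ-ζ'|, |η-η'| ≤ 2t`
 (`zeta_lip`, same cell): `‖D‖² ≤ 128 t⁴ (...)`.
PROOF of `pair_upper`.  Insert in `pair_gen`: `∫‖DX x (DX y h)‖² ≤ p⁻² 128 t⁴ (A1 + A2)`, where each of
`A1, A2` is an integral over the four values (two at `x`, two at `y`) and the rest; drop the indicator of
the same cell to the indicator that all four values are in the core, and (renaming the integration
variables) both are `≤ ∫_V 1_core(V x) 1_core(V y) |G_xy(V)|² (∫_u 1_core ‖w_x(V;x↦u)‖²)(∫_w 1_core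
‖w_y(V;y↦w)‖²) = ∫ 1_core 1_core |G_xy|² kap_x kap_y`.  `p⁻² = 4c²/t²`; total
`4c²/t² * 128 t⁴ * 2 = 1024 c² t²`.
(The resampling of both coordinates: `integral_update` for `x` and `y`.)
-/

set_option linter.unusedSectionVars false

open MeasureTheory Matrix Complex

namespace Pool.Agent.Lib.MP_562b47_mp.Str

/-- two values in one common cell -/
def same (c q : ℝ) (m : ℕ) (u v : ℝ) : Prop := ∃ j < m, u ∈ cel c q m j ∧ v ∈ cel c q m j

section gen

variable {X : Type*} [Fintype X] [DecidableEq X] {E : Type*} [NormedAddCommGroup E]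
    [InnerProductSpace ℂ E] [FiniteDimensional ℂ E] {c q : ℝ} {m : ℕ} {x y : X}
    {F G : (X → ℝ) → E}

private def pairD (F : (X → ℝ) → E) (x y : X) (V : X → ℝ) (u w : ℝ) : E :=
  F V - F (Function.update V x u) - F (Function.update V y w)
    + F (Function.update (Function.update V x u) y w)

private theorem pair_DX_av1 (hc : 0 < c) (hq : 0 ≤ q) (hq1 : q < 1) (hm : 1 ≤ m) (x : X)
    (hG : BMeas G) (V : X → ℝ) :
    DX c q m x G V = av1 c q m (fun u => G V - G (Function.update V x u)) (V x) := by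
  have := FiniteDimensional.complete ℂ E
  rw [av1_sub hc (BMeas.const (G V)) (hG.comp (measurable_update V)),
    av1_const hc hq hq1 hm]
  rfl

private theorem pair_DX_not (hc : 0 < c) (hq1 : q < 1) (x : X) (G : (X → ℝ) → E) {V : X → ℝ}
    (hV : V x ∉ core' c q) : DX c q m x G V = 0 := by
  unfold DX AX
  rw [av1_of_not hc hq1 _ hV, Function.update_eq_self, sub_self]

private theorem pair_DXDX_av1 (hc : 0 < c) (hq : 0 ≤ q) (hq1 : q < 1) (hm : 1 ≤ m) (hxy : x ≠ y)
    (hF : BMeas F) (V : X → ℝ) :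
    DX c q m x (DX c q m y F) V
      = av1 c q m (fun u => av1 c q m (fun w => pairD F x y V u w) (V y)) (V x) := by
  rw [pair_DX_av1 hc hq hq1 hm x (hF.DX hc y) V]
  congr 1
  funext u
  rw [pair_DX_av1 hc hq hq1 hm y hF V, pair_DX_av1 hc hq hq1 hm y hF (Function.update V x u),
    Function.update_of_ne hxy.symm]
  rw [← av1_sub hc ((BMeas.const (F V)).sub (hF.comp (measurable_update V)))
    ((BMeas.const _).sub (hF.comp (measurable_update _)))]
  congr 1
  funext w
  unfold pairD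
  abel

private theorem pair_bmeas_D (hF : BMeas F) (x y : X) :
    BMeas fun p : ((X → ℝ) × ℝ) × ℝ => pairD F x y p.1.1 p.1.2 p.2 := by
  unfold pairD
  have h1 : Measurable fun p : ((X → ℝ) × ℝ) × ℝ => p.1.1 := measurable_fst.comp measurable_fst
  have h2 : Measurable fun p : ((X → ℝ) × ℝ) × ℝ => Function.update p.1.1 x p.1.2 :=
    (measurable_update2 x).comp measurable_fst
  have h3 : Measurable fun p : ((X → ℝ) × ℝ) × ℝ => Function.update p.1.1 y p.2 :=
    (measurable_update2 y).comp (h1.prodMk measurable_snd)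
  have h4 : Measurable fun p : ((X → ℝ) × ℝ) × ℝ =>
      Function.update (Function.update p.1.1 x p.1.2) y p.2 :=
    (measurable_update2 y).comp (h2.prodMk measurable_snd)
  exact (((hF.comp h1).sub (hF.comp h2)).sub (hF.comp h3)).add (hF.comp h4)

private theorem pair_meas_cel (c q : ℝ) (m j : ℕ) : MeasurableSet (cel c q m j) := measurableSet_Ico

private theorem pair_meas_same (c q : ℝ) (m : ℕ) : MeasurableSet {p : ℝ × ℝ | same c q m p.1 p.2} := by
  have h : {p : ℝ × ℝ | same c q m p.1 p.2}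
      = ⋃ j ∈ Finset.range m, cel c q m j ×ˢ cel c q m j := by
    ext p
    simp only [same, Set.mem_ofPred_eq, Set.mem_iUnion, Finset.mem_range, Set.mem_prod,
      exists_prop]
  rw [h]
  exact Finset.measurableSet_biUnion _ fun j _ => (pair_meas_cel c q m j).prod (pair_meas_cel c q m j)

private theorem pair_same_iff (hc : 0 < c) (hq1 : q < 1) (hm : 1 ≤ m) {j : ℕ} (hj : j < m)
    {u v : ℝ} (hu : u ∈ cel c q m j) : same c q m u v ↔ v ∈ cel c q m j := by
  constructor
  · rintro ⟨i, hi, h1, h2⟩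
    by_cases hij : i = j
    · rw [← hij]; exact h2
    · exact absurd hu (Set.disjoint_left.1 (cel_disj hc hq1 hm hij) h1)
  · exact fun h => ⟨j, hj, hu, h⟩

private theorem pair_same_core {u v : ℝ} (hc : 0 < c) (hq1 : q < 1)
    (h : same c q m u v) : u ∈ core c q ∧ v ∈ core c q ∧ |u - v| ≤ tt c q m := by
  obtain ⟨j, hj, h1, h2⟩ := h
  exact ⟨core'_subset_core (cel_subset hc hq1 hj h1), core'_subset_core (cel_subset hc hq1 hj h2),
    abs_sub_le_of_cel h1 h2⟩

open Classical in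
private noncomputable def pairI (c q : ℝ) (m : ℕ) (F : (X → ℝ) → E) (x y : X)
    (p : ((X → ℝ) × ℝ) × ℝ) : ℝ :=
  if same c q m (p.1.1 x) p.1.2 ∧ same c q m (p.1.1 y) p.2 then
    ‖pairD F x y p.1.1 p.1.2 p.2‖ ^ 2 else 0

private theorem pair_bmeas_I (hF : BMeas F) (x y : X) : BMeas (pairI c q m F x y) := by
  classical
  have h1 : Measurable fun p : ((X → ℝ) × ℝ) × ℝ => p.1.1 := measurable_fst.comp measurable_fst
  have hs1 : MeasurableSet {p : ((X → ℝ) × ℝ) × ℝ | same c q m (p.1.1 x) p.1.2} :=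
    (pair_meas_same c q m).preimage
      (((measurable_pi_apply x).comp h1).prodMk (measurable_snd.comp measurable_fst))
  have hs2 : MeasurableSet {p : ((X → ℝ) × ℝ) × ℝ | same c q m (p.1.1 y) p.2} :=
    (pair_meas_same c q m).preimage
      (((measurable_pi_apply y).comp h1).prodMk measurable_snd)
  have h := ((pair_bmeas_D hF x y).norm_sq).indicator (hs1.inter hs2)
  have e : pairI c q m F x y = ({p : ((X → ℝ) × ℝ) × ℝ | same c q m (p.1.1 x) p.1.2} ∩
      {p : ((X → ℝ) × ℝ) × ℝ | same c q m (p.1.1 y) p.2}).indicator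
        (fun p => ‖pairD F x y p.1.1 p.1.2 p.2‖ ^ 2) := by
    funext p
    rw [Set.indicator_apply]
    unfold pairI
    rfl
  rw [e]
  exact h

private theorem pair_I_nonneg (p : ((X → ℝ) × ℝ) × ℝ) : 0 ≤ pairI c q m F x y p := by
  unfold pairI
  split_ifs
  · positivity
  · exact le_rfl

private theorem pair_pointwise (hc : 0 < c) (hq : 0 ≤ q) (hq1 : q < 1) (hm : 1 ≤ m) (hxy : x ≠ y)
    (hF : BMeas F) (V : X → ℝ) :
    ‖DX c q m x (DX c q m y F) V‖ ^ 2
      ≤ (2 * c / tt c q m) ^ 2 * ∫ u, ∫ w, pairI c q m F x y ((V, u), w) ∂(unif c) ∂(unif c) := by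
  classical
  have := isProb_unif hc
  have ht := tt_pos hc hq1 hm
  have hR : 0 ≤ (2 * c / tt c q m) ^ 2
      * ∫ u, ∫ w, pairI c q m F x y ((V, u), w) ∂(unif c) ∂(unif c) :=
    mul_nonneg (by positivity) (integral_nonneg fun u => integral_nonneg fun w => pair_I_nonneg _)
  by_cases hx : V x ∈ core' c q
  swap
  · rw [pair_DX_not hc hq1 x _ hx, norm_zero]
    simpa using hR
  by_cases hy : V y ∈ core' c q
  swap
  · rw [DX_comm hc hq hq1 hm hxy hF V, pair_DX_not hc hq1 y _ hy, norm_zero]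
    simpa using hR
  rw [core'_eq hc hq1 hm] at hx hy
  simp only [Set.mem_iUnion, Finset.mem_range, exists_prop] at hx hy
  obtain ⟨i, hi, hxi⟩ := hx
  obtain ⟨j, hj, hyj⟩ := hy
  set P := 2 * c / tt c q m with hP
  have hP0 : 0 ≤ P := by positivity
  -- joint measurability for fixed `V`
  have hD2 : BMeas fun p : ℝ × ℝ => pairD F x y V p.1 p.2 := by
    have h : Measurable fun p : ℝ × ℝ => (((V, p.1), p.2) : ((X → ℝ) × ℝ) × ℝ) :=
      ((measurable_const.prodMk measurable_fst).prodMk measurable_snd)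
    exact (pair_bmeas_D hF x y).comp h
  have hDu : ∀ u, BMeas fun w => pairD F x y V u w := fun u =>
    hD2.comp (measurable_const.prodMk measurable_id)
  have hφ : BMeas fun u => av1 c q m (fun w => pairD F x y V u w) (V y) := by
    have h1 : BMeas fun p : ℝ × ℝ =>
        (cel c q m j).indicator (fun w => pairD F x y V p.1 w) p.2 := by
      have h2 := hD2.indicator ((pair_meas_cel c q m j).preimage measurable_snd)
      have e : (fun p : ℝ × ℝ => (cel c q m j).indicator (fun w => pairD F x y V p.1 w) p.2)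
          = (Prod.snd ⁻¹' cel c q m j).indicator (fun p : ℝ × ℝ => pairD F x y V p.1 p.2) := by
        funext p
        simp only [Set.indicator_apply, Set.mem_preimage]
      rw [e]
      exact h2
    have h3 := (h1.integral (unif c)).smul_const P
    have e : (fun u => av1 c q m (fun w => pairD F x y V u w) (V y))
        = fun u => P • ∫ w, (cel c q m j).indicator (fun w => pairD F x y V u w) w ∂(unif c) := by
      funext u
      rw [av1_of_mem hc hq1 hj _ hyj]
    rw [e]
    exact h3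
  rw [pair_DXDX_av1 hc hq hq1 hm hxy hF V, av1_of_mem hc hq1 hi _ hxi]
  refine (av1_jensen hc hq hq1 hi hφ).trans ?_
  rw [pow_two, mul_assoc]
  refine mul_le_mul_of_nonneg_left ?_ hP0
  rw [← integral_const_mul]
  have hI2 : BMeas fun p : ℝ × ℝ => pairI c q m F x y ((V, p.1), p.2) := by
    have h : Measurable fun p : ℝ × ℝ => (((V, p.1), p.2) : ((X → ℝ) × ℝ) × ℝ) :=
      ((measurable_const.prodMk measurable_fst).prodMk measurable_snd)
    exact (pair_bmeas_I hF x y).comp h
  refine integral_mono ((hφ.norm_sq.indicator (pair_meas_cel c q m i)).integrable _)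
    (((hI2.integral (unif c)).integrable (unif c)).const_mul P) fun u => ?_
  beta_reduce
  by_cases hu : u ∈ cel c q m i
  · rw [Set.indicator_of_mem hu, av1_of_mem hc hq1 hj _ hyj]
    refine (av1_jensen hc hq hq1 hj (hDu u)).trans (le_of_eq ?_)
    congr 1
    refine integral_congr_ae (Filter.Eventually.of_forall fun w => ?_)
    show (cel c q m j).indicator (fun v => ‖pairD F x y V u v‖ ^ 2) w
      = pairI c q m F x y ((V, u), w)
    unfold pairI
    have h1 : same c q m (V x) u := ⟨i, hi, hxi, hu⟩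
    simp only [h1, true_and, pair_same_iff hc hq1 hm hj hyj, Set.indicator_apply]
  · rw [Set.indicator_of_notMem hu]
    exact mul_nonneg hP0 (integral_nonneg fun w => pair_I_nonneg _)

end gen

theorem pair_gen {X : Type*} [Fintype X] [DecidableEq X] {E : Type*} [NormedAddCommGroup E]
    [InnerProductSpace ℂ E] [FiniteDimensional ℂ E] {c q : ℝ} {m : ℕ} (hc : 0 < c) (hq : 0 ≤ q)
    (hq1 : q < 1) (hm : 1 ≤ m) {x y : X} (hxy : x ≠ y) {F : (X → ℝ) → E} (hF : BMeas F) :
    ∫ V, ‖DX c q m x (DX c q m y F) V‖ ^ 2 ∂(PX X c)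
      ≤ (2 * c / tt c q m) ^ 2 * ∫ V, ∫ u, ∫ w, (open Classical in
          if same c q m (V x) u ∧ same c q m (V y) w then
            ‖F V - F (Function.update V x u) - F (Function.update V y w)
              + F (Function.update (Function.update V x u) y w)‖ ^ 2 else 0)
          ∂(unif c) ∂(unif c) ∂(PX X c) := by
  have := isProb_unif hc
  have := isProb_PX (X := X) hc
  have h := pair_pointwise hc hq hq1 hm hxy hF
  have hB := pair_bmeas_I (c := c) (q := q) (m := m) hF x y
  have h2 := (hB.integral (unif c)).integral (unif c)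
  rw [← integral_const_mul]
  exact integral_mono ((((hF.DX hc y).DX hc x).norm_sq).integrable _)
    ((h2.integrable (PX X c)).const_mul _) h

variable {X ι : Type*} [Fintype X] [DecidableEq X] [Fintype ι] [DecidableEq ι]

namespace Sys

variable {T : Sys X ι} {B : Set X} {c b q : ℝ} {x y : X} {m : ℕ}

/-- the quantity `Q(P; u, w)` -/
noncomputable def Qxy (T : Sys X ι) (B : Set X) (c b : ℝ) (x y : X) (P : X → ℝ) (u w : ℝ) : ℝ :=
  ‖T.G (dfm B c b P I) x y‖ ^ 2 * ‖T.wv (dfm B c b (Function.update P x u) I) x‖ ^ 2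
    * ‖T.wv (dfm B c b (Function.update P y w) I) y‖ ^ 2

private noncomputable def pairTens (a b : EuclideanSpace ℂ ι) : EuclideanSpace ℂ (ι × ι) :=
  WithLp.toLp 2 (fun p => a p.1 * b p.2)

omit [DecidableEq ι] in
private theorem pairTens_norm (a b : EuclideanSpace ℂ ι) : ‖pairTens a b‖ = ‖a‖ * ‖b‖ := by
  rw [← sq_eq_sq₀ (norm_nonneg _) (by positivity)]
  rw [mul_pow, EuclideanSpace.norm_sq_eq, EuclideanSpace.norm_sq_eq, EuclideanSpace.norm_sq_eq,
    Fintype.sum_prod_type, Finset.sum_mul_sum]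
  refine Finset.sum_congr rfl fun i _ => Finset.sum_congr rfl fun j _ => ?_
  show ‖a i * b j‖ ^ 2 = _
  rw [norm_mul, mul_pow]

private theorem pair_mixedC (hT : T.Good) {ν : X → ℂ} (hν : Adm ν) (hxy : x ≠ y) {u w : ℂ}
    (hu : 0 ≤ u.im) (hw : 0 ≤ w.im) :
    ‖T.Sv ν - T.Sv (Function.update ν x u) - T.Sv (Function.update ν y w)
        + T.Sv (Function.update (Function.update ν x u) y w)‖ ^ 2
      ≤ 8 * ‖ν x - u‖ ^ 2 * ‖ν y - w‖ ^ 2 *
        (‖T.G (Function.update ν x u) x y‖ ^ 2 * ‖T.wv ν x‖ ^ 2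
            * ‖T.wv (Function.update (Function.update ν x u) y w) y‖ ^ 2
          + ‖T.G (Function.update ν y w) x y‖ ^ 2
            * ‖T.wv (Function.update (Function.update ν x u) y w) x‖ ^ 2 * ‖T.wv ν y‖ ^ 2) := by
  set ν1 := Function.update ν x u with hν1
  set ν2 := Function.update ν y w with hν2
  set ν3 := Function.update ν1 y w with hν3
  have hν3' : ν3 = Function.update ν2 x u := by
    rw [hν3, hν1, hν2, Function.update_comm hxy]
  have ha1 : Adm ν1 := hν.update x hu
  have ha2 : Adm ν2 := hν.update y hw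
  have hx2 : ν2 x = ν x := by rw [hν2, Function.update_of_ne hxy]
  have hy1 : ν1 y = ν y := by rw [hν1, Function.update_of_ne hxy.symm]
  have hself : Function.update ν2 y (ν y) = ν := by
    rw [hν2, Function.update_idem, Function.update_eq_self]
  -- scattering differences
  have hS1 : ∀ s s', T.Sm ν s s' - T.Sm ν1 s s' = 2 * I * (ν x - u) * (T.w ν x s * T.w ν1 x s') := by
    intro s s'
    rw [hν1, upd_S hT hν x hu s s']
    ring
  have hS2 : ∀ s s', T.Sm ν2 s s' - T.Sm ν3 s s'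
      = 2 * I * (ν x - u) * (T.w ν2 x s * T.w ν3 x s') := by
    intro s s'
    rw [hν3', upd_S hT ha2 x hu s s', hx2]
    ring
  have hw1 : ∀ s, T.w ν1 x s - T.w ν3 x s = (w - ν y) * T.G ν1 x y * T.w ν3 y s := by
    intro s
    rw [hν3, upd_w hT ha1 y hw x s, hy1]
    ring
  have hw2 : ∀ s, T.w ν x s - T.w ν2 x s = (w - ν y) * T.G ν2 x y * T.w ν y s := by
    intro s
    have h := upd_w hT ha2 y (hν y) x s
    rw [hself] at h
    rw [h, show ν2 y = w by rw [hν2, Function.update_self]]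
    ring
  have key : T.Sv ν - T.Sv ν1 - T.Sv ν2 + T.Sv ν3
      = (2 * I * (ν x - u) * (w - ν y)) •
        ((T.G ν1 x y) • pairTens (T.wv ν x) (T.wv ν3 y)
          + (T.G ν2 x y) • pairTens (T.wv ν y) (T.wv ν3 x)) := by
    ext p
    obtain ⟨s, s'⟩ := p
    show T.Sm ν s s' - T.Sm ν1 s s' - T.Sm ν2 s s' + T.Sm ν3 s s'
      = (2 * I * (ν x - u) * (w - ν y)) *
        ((T.G ν1 x y) * (T.w ν x s * T.w ν3 y s') + (T.G ν2 x y) * (T.w ν y s * T.w ν3 x s'))
    have e : T.Sm ν s s' - T.Sm ν1 s s' - T.Sm ν2 s s' + T.Sm ν3 s s'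
        = (T.Sm ν s s' - T.Sm ν1 s s') - (T.Sm ν2 s s' - T.Sm ν3 s s') := by ring
    rw [e, hS1, hS2]
    have h1 := hw1 s'
    have h2 := hw2 s
    linear_combination (2 * I * (ν x - u) * T.w ν x s) * h1
      + (2 * I * (ν x - u) * T.w ν3 x s') * h2
  rw [key, norm_smul, mul_pow]
  have hn : ‖(2 * I * (ν x - u) * (w - ν y) : ℂ)‖ ^ 2 = 4 * ‖ν x - u‖ ^ 2 * ‖ν y - w‖ ^ 2 := by
    rw [norm_mul, norm_mul, norm_mul, Complex.norm_I, norm_sub_rev w (ν y)]
    rw [show ‖(2 : ℂ)‖ = 2 by simp]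
    ring
  rw [hn]
  set A := T.G ν1 x y • pairTens (T.wv ν x) (T.wv ν3 y) with hA
  set A' := T.G ν2 x y • pairTens (T.wv ν y) (T.wv ν3 x) with hA'
  have hAn : ‖A‖ ^ 2 = ‖T.G ν1 x y‖ ^ 2 * ‖T.wv ν x‖ ^ 2 * ‖T.wv ν3 y‖ ^ 2 := by
    rw [hA, norm_smul, pairTens_norm]; ring
  have hAn' : ‖A'‖ ^ 2 = ‖T.G ν2 x y‖ ^ 2 * ‖T.wv ν3 x‖ ^ 2 * ‖T.wv ν y‖ ^ 2 := by
    rw [hA', norm_smul, pairTens_norm]; ring
  rw [← hAn, ← hAn']
  have h3 : ‖A + A'‖ ^ 2 ≤ 2 * (‖A‖ ^ 2 + ‖A'‖ ^ 2) := by
    have h4 := norm_add_le A A'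
    have h5 : ‖A + A'‖ ^ 2 ≤ (‖A‖ + ‖A'‖) ^ 2 := pow_le_pow_left₀ (norm_nonneg _) h4 2
    nlinarith [sq_nonneg (‖A‖ - ‖A'‖)]
  have h6 : 0 ≤ 4 * ‖ν x - u‖ ^ 2 * ‖ν y - w‖ ^ 2 := by positivity
  calc 4 * ‖ν x - u‖ ^ 2 * ‖ν y - w‖ ^ 2 * ‖A + A'‖ ^ 2
      ≤ 4 * ‖ν x - u‖ ^ 2 * ‖ν y - w‖ ^ 2 * (2 * (‖A‖ ^ 2 + ‖A'‖ ^ 2)) :=
        mul_le_mul_of_nonneg_left h3 h6
    _ = _ := by ring

theorem mixed (hT : T.Good) (hc : 0 < c) (hb : 0 ≤ b) (hbc : b ≤ c / 2) (hx : x ∈ B) (hy : y ∈ B)
    (hxy : x ≠ y) (V : X → ℝ) (u w : ℝ) :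
    ‖T.Sv (dfm B c b V I) - T.Sv (dfm B c b (Function.update V x u) I)
        - T.Sv (dfm B c b (Function.update V y w) I)
        + T.Sv (dfm B c b (Function.update (Function.update V x u) y w) I)‖ ^ 2
      ≤ 128 * |V x - u| ^ 2 * |V y - w| ^ 2 *
        (T.Qxy B c b x y (Function.update V x u) (V x) w
          + T.Qxy B c b x y (Function.update V y w) u (V y)) := by
  have hadm : Adm (dfm B c b V I) := adm_dfm B c hb V (by simp)
  have hz : ∀ v : ℝ, 0 ≤ (zeta c b v).im := zeta_im_nonneg hb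
  have e1 : ∀ (P : X → ℝ) (v : ℝ), dfm B c b (Function.update P x v) I
      = Function.update (dfm B c b P I) x (zeta c b v) := fun P v => dfm_update hx c b P v I
  have e2 : ∀ (P : X → ℝ) (v : ℝ), dfm B c b (Function.update P y v) I
      = Function.update (dfm B c b P I) y (zeta c b v) := fun P v => dfm_update hy c b P v I
  have hvx : dfm B c b V I x = zeta c b (V x) := dfm_of_mem hx c b V I
  have hvy : dfm B c b V I y = zeta c b (V y) := dfm_of_mem hy c b V I
  have key := pair_mixedC hT hadm hxy (hz u) (hz w)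
  rw [hvx, hvy] at key
  have hQ1 : T.Qxy B c b x y (Function.update V x u) (V x) w
      = ‖T.G (Function.update (dfm B c b V I) x (zeta c b u)) x y‖ ^ 2
          * ‖T.wv (dfm B c b V I) x‖ ^ 2
          * ‖T.wv (Function.update (Function.update (dfm B c b V I) x (zeta c b u)) y
              (zeta c b w)) y‖ ^ 2 := by
    unfold Qxy
    rw [Function.update_idem, Function.update_eq_self, e2, e1]
  have hQ2 : T.Qxy B c b x y (Function.update V y w) u (V y)
      = ‖T.G (Function.update (dfm B c b V I) y (zeta c b w)) x y‖ ^ 2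
          * ‖T.wv (Function.update (Function.update (dfm B c b V I) x (zeta c b u)) y
              (zeta c b w)) x‖ ^ 2 * ‖T.wv (dfm B c b V I) y‖ ^ 2 := by
    unfold Qxy
    rw [Function.update_idem, Function.update_eq_self, e1, e2, Function.update_comm hxy]
  rw [hQ1, hQ2, e2, e2, e1]
  refine key.trans ?_
  refine mul_le_mul_of_nonneg_right ?_ (by positivity)
  have h1 : ‖zeta c b (V x) - zeta c b u‖ ^ 2 ≤ (2 * |V x - u|) ^ 2 :=
    pow_le_pow_left₀ (norm_nonneg _) (zeta_lip hc hb hbc _ _) 2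
  have h2 : ‖zeta c b (V y) - zeta c b w‖ ^ 2 ≤ (2 * |V y - w|) ^ 2 :=
    pow_le_pow_left₀ (norm_nonneg _) (zeta_lip hc hb hbc _ _) 2
  have h3 := mul_le_mul h1 h2 (by positivity) (by positivity)
  calc 8 * ‖zeta c b (V x) - zeta c b u‖ ^ 2 * ‖zeta c b (V y) - zeta c b w‖ ^ 2
      = 8 * (‖zeta c b (V x) - zeta c b u‖ ^ 2 * ‖zeta c b (V y) - zeta c b w‖ ^ 2) := by ring
    _ ≤ 8 * ((2 * |V x - u|) ^ 2 * (2 * |V y - w|) ^ 2) := by linarith
    _ = _ := by ring

private theorem pair_swap (hc : 0 < c) (z : X) {Ψ : (X → ℝ) × ℝ → ℝ} (hΨ : BMeas Ψ) :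
    ∫ V, ∫ u, Ψ (Function.update V z u, V z) ∂(unif c) ∂(PX X c)
      = ∫ V, ∫ u, Ψ (V, u) ∂(unif c) ∂(PX X c) := by
  have := isProb_unif hc
  have := isProb_PX (X := X) hc
  have hmap : Measurable fun p : (X → ℝ) × ℝ => (Function.update p.1 z p.2, p.1 z) :=
    (measurable_update2 z).prodMk ((measurable_pi_apply z).comp measurable_fst)
  have h1 := (hΨ.comp hmap).integral (unif c)
  have h2 := hΨ.integral (unif c)
  rw [integral_update hc z h1, integral_update hc z h2]
  refine integral_congr_ae (Filter.Eventually.of_forall fun V => ?_)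
  beta_reduce
  simp only [Function.update_idem, Function.update_self]
  have h3 : BMeas fun p : ℝ × ℝ => Ψ (Function.update V z p.2, p.1) := by
    have h : Measurable fun p : ℝ × ℝ => (Function.update V z p.2, p.1) :=
      ((measurable_update V).comp measurable_snd).prodMk measurable_fst
    exact hΨ.comp h
  exact integral_integral_swap (f := fun v u => Ψ (Function.update V z u, v))
    (h3.integrable ((unif c).prod (unif c)))

open Classical in
private noncomputable def pairTh (T : Sys X ι) (B : Set X) (c b q : ℝ) (x y : X)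
    (p : ((X → ℝ) × ℝ) × ℝ) : ℝ :=
  if (p.1.1 x ∈ core c q ∧ p.1.1 y ∈ core c q) ∧ (p.1.2 ∈ core c q ∧ p.2 ∈ core c q) then
    T.Qxy B c b x y p.1.1 p.1.2 p.2 else 0

private theorem pair_Q_nonneg (P : X → ℝ) (u w : ℝ) : 0 ≤ T.Qxy B c b x y P u w := by
  unfold Qxy
  positivity

private theorem pair_Th_nonneg (p : ((X → ℝ) × ℝ) × ℝ) : 0 ≤ pairTh T B c b q x y p := by
  unfold pairTh
  split_ifs
  · exact pair_Q_nonneg _ _ _
  · exact le_rfl

private theorem pair_bmeas_Th (hT : T.Good) (hb : 0 ≤ b) : BMeas (pairTh T B c b q x y) := by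
  classical
  have h1 : Measurable fun p : ((X → ℝ) × ℝ) × ℝ => p.1.1 := measurable_fst.comp measurable_fst
  have h2 : Measurable fun p : ((X → ℝ) × ℝ) × ℝ => Function.update p.1.1 x p.1.2 :=
    (measurable_update2 x).comp measurable_fst
  have h3 : Measurable fun p : ((X → ℝ) × ℝ) × ℝ => Function.update p.1.1 y p.2 :=
    (measurable_update2 y).comp (h1.prodMk measurable_snd)
  have hQ : BMeas fun p : ((X → ℝ) × ℝ) × ℝ => T.Qxy B c b x y p.1.1 p.1.2 p.2 := by
    unfold Qxy
    exact (((bmeas_G (B := B) (c := c) hT hb x y).norm_sq.comp h1).mul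
      ((bmeas_wv (B := B) (c := c) hT hb x).norm_sq.comp h2)).mul
      ((bmeas_wv (B := B) (c := c) hT hb y).norm_sq.comp h3)
  have hcore := measurableSet_core c q
  have s1 : MeasurableSet {p : ((X → ℝ) × ℝ) × ℝ | p.1.1 x ∈ core c q} :=
    hcore.preimage ((measurable_pi_apply x).comp h1)
  have s2 : MeasurableSet {p : ((X → ℝ) × ℝ) × ℝ | p.1.1 y ∈ core c q} :=
    hcore.preimage ((measurable_pi_apply y).comp h1)
  have s3 : MeasurableSet {p : ((X → ℝ) × ℝ) × ℝ | p.1.2 ∈ core c q} :=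
    hcore.preimage (measurable_snd.comp measurable_fst)
  have s4 : MeasurableSet {p : ((X → ℝ) × ℝ) × ℝ | p.2 ∈ core c q} :=
    hcore.preimage measurable_snd
  have h := hQ.indicator ((s1.inter s2).inter (s3.inter s4))
  have e : pairTh T B c b q x y = (({p : ((X → ℝ) × ℝ) × ℝ | p.1.1 x ∈ core c q} ∩
      {p : ((X → ℝ) × ℝ) × ℝ | p.1.1 y ∈ core c q}) ∩
      ({p : ((X → ℝ) × ℝ) × ℝ | p.1.2 ∈ core c q} ∩
      {p : ((X → ℝ) × ℝ) × ℝ | p.2 ∈ core c q})).indicator
        (fun p => T.Qxy B c b x y p.1.1 p.1.2 p.2) := by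
    funext p
    rw [Set.indicator_apply]
    unfold pairTh
    rfl
  rw [e]
  exact h

private theorem pair_J (V : X → ℝ) :
    ∫ u, ∫ w, pairTh T B c b q x y ((V, u), w) ∂(unif c) ∂(unif c)
      = open Classical in if V x ∈ core c q ∧ V y ∈ core c q then
          ‖T.G (dfm B c b V I) x y‖ ^ 2 * (T.kap B c b q x V * T.kap B c b q y V) else 0 := by
  classical
  by_cases hV : V x ∈ core c q ∧ V y ∈ core c q
  · rw [if_pos hV]
    have e : ∀ u w, pairTh T B c b q x y ((V, u), w)
        = ‖T.G (dfm B c b V I) x y‖ ^ 2 *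
          ((core c q).indicator
            (fun v => ‖T.wv (dfm B c b (Function.update V x v) I) x‖ ^ 2) u *
          (core c q).indicator
            (fun v => ‖T.wv (dfm B c b (Function.update V y v) I) y‖ ^ 2) w) := by
      intro u w
      unfold pairTh Qxy
      simp only [hV, true_and, and_self, Set.indicator_apply]
      by_cases hu : u ∈ core c q
      · by_cases hw : w ∈ core c q
        · simp only [hu, hw, and_self, if_true]
          ring
        · simp [hu, hw]
      · simp [hu]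
    simp_rw [e, integral_const_mul]
    rw [integral_mul_const]
    rfl
  · rw [if_neg hV]
    have e : ∀ u w, pairTh T B c b q x y ((V, u), w) = 0 := by
      intro u w
      unfold pairTh
      rw [if_neg]
      exact fun h => hV h.1
    simp_rw [e, integral_zero]


private theorem pair_slice {f : ((X → ℝ) × ℝ) × ℝ → ℝ} (hf : BMeas f) (V : X → ℝ) (u : ℝ) :
    BMeas fun w => f ((V, u), w) := by
  have h : Measurable fun w : ℝ => (((V, u), w) : ((X → ℝ) × ℝ) × ℝ) :=
    measurable_const.prodMk measurable_id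
  exact hf.comp h

private theorem pair_slice2 {f : ((X → ℝ) × ℝ) × ℝ → ℝ} (hc : 0 < c) (hf : BMeas f)
    (V : X → ℝ) : BMeas fun u => ∫ w, f ((V, u), w) ∂(unif c) := by
  have := isProb_unif hc
  have h : Measurable fun u : ℝ => ((V, u) : (X → ℝ) × ℝ) :=
    measurable_const.prodMk measurable_id
  exact (hf.integral (unif c)).comp h

private theorem pair_slice3 {f : ((X → ℝ) × ℝ) × ℝ → ℝ} (hc : 0 < c) (hf : BMeas f) :
    BMeas fun V : X → ℝ => ∫ u, ∫ w, f ((V, u), w) ∂(unif c) ∂(unif c) := by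
  have := isProb_unif hc
  exact (hf.integral (unif c)).integral (unif c)

private noncomputable def pairTri (c : ℝ) (f : ((X → ℝ) × ℝ) × ℝ → ℝ) : ℝ :=
  ∫ V, ∫ u, ∫ w, f ((V, u), w) ∂(unif c) ∂(unif c) ∂(PX X c)

private theorem pair_tri_mono (hc : 0 < c) {f g : ((X → ℝ) × ℝ) × ℝ → ℝ} (hf : BMeas f)
    (hg : BMeas g) (h : ∀ V u w, f ((V, u), w) ≤ g ((V, u), w)) : pairTri c f ≤ pairTri c g := by
  have := isProb_unif hc
  have := isProb_PX (X := X) hc
  unfold pairTri
  refine integral_mono ((pair_slice3 hc hf).integrable _) ((pair_slice3 hc hg).integrable _)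
    fun V => ?_
  refine integral_mono ((pair_slice2 hc hf V).integrable _) ((pair_slice2 hc hg V).integrable _)
    fun u => ?_
  exact integral_mono ((pair_slice hf V u).integrable _) ((pair_slice hg V u).integrable _)
    fun w => h V u w

private theorem pair_tri_add (hc : 0 < c) {f g : ((X → ℝ) × ℝ) × ℝ → ℝ} (hf : BMeas f)
    (hg : BMeas g) (a : ℝ) :
    pairTri c (fun p => a * (f p + g p)) = a * (pairTri c f + pairTri c g) := by
  have := isProb_unif hc
  have := isProb_PX (X := X) hc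
  unfold pairTri
  rw [← integral_add ((pair_slice3 hc hf).integrable _) ((pair_slice3 hc hg).integrable _),
    ← integral_const_mul]
  refine integral_congr_ae (Filter.Eventually.of_forall fun V => ?_)
  beta_reduce
  rw [← integral_add ((pair_slice2 hc hf V).integrable _) ((pair_slice2 hc hg V).integrable _),
    ← integral_const_mul]
  refine integral_congr_ae (Filter.Eventually.of_forall fun u => ?_)
  beta_reduce
  rw [← integral_add ((pair_slice hf V u).integrable _) ((pair_slice hg V u).integrable _),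
    ← integral_const_mul]

/-- exchange of the value at `x` -/
private theorem pair_tri_x (hc : 0 < c) (x : X) {f : ((X → ℝ) × ℝ) × ℝ → ℝ} (hf : BMeas f) :
    pairTri c (fun p => f ((Function.update p.1.1 x p.1.2, p.1.1 x), p.2)) = pairTri c f := by
  have := isProb_unif hc
  exact pair_swap hc x (Ψ := fun p => ∫ w, f (p, w) ∂(unif c)) (hf.integral (unif c))

private theorem pair_tri_swap (hc : 0 < c) {f : ((X → ℝ) × ℝ) × ℝ → ℝ} (hf : BMeas f) :
    pairTri c (fun p => f ((p.1.1, p.2), p.1.2)) = pairTri c f := by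
  have := isProb_unif hc
  have := isProb_PX (X := X) hc
  unfold pairTri
  refine integral_congr_ae (Filter.Eventually.of_forall fun V => ?_)
  have h3 : BMeas fun p : ℝ × ℝ => f ((V, p.2), p.1) := by
    have h : Measurable fun p : ℝ × ℝ => (((V, p.2), p.1) : ((X → ℝ) × ℝ) × ℝ) :=
      (measurable_const.prodMk measurable_snd).prodMk measurable_fst
    exact hf.comp h
  exact integral_integral_swap (f := fun w u => f ((V, u), w))
    (h3.integrable ((unif c).prod (unif c)))

/-- exchange of the value at `y` -/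
private theorem pair_tri_y (hc : 0 < c) (y : X) {f : ((X → ℝ) × ℝ) × ℝ → ℝ} (hf : BMeas f) :
    pairTri c (fun p => f ((Function.update p.1.1 y p.2, p.1.2), p.1.1 y)) = pairTri c f := by
  have m1 : Measurable fun p : ((X → ℝ) × ℝ) × ℝ => p.1.1 := measurable_fst.comp measurable_fst
  have hsw : Measurable fun p : ((X → ℝ) × ℝ) × ℝ =>
      (((p.1.1, p.2), p.1.2) : ((X → ℝ) × ℝ) × ℝ) :=
    (m1.prodMk measurable_snd).prodMk (measurable_snd.comp measurable_fst)
  have hm1 : Measurable fun p : ((X → ℝ) × ℝ) × ℝ =>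
      (((Function.update p.1.1 y p.1.2, p.1.1 y), p.2) : ((X → ℝ) × ℝ) × ℝ) :=
    (((measurable_update2 y).comp measurable_fst).prodMk
      ((measurable_pi_apply y).comp m1)).prodMk measurable_snd
  have hf' : BMeas fun p : ((X → ℝ) × ℝ) × ℝ => f ((p.1.1, p.2), p.1.2) := hf.comp hsw
  have h1 := pair_tri_x hc y hf'
  have hf2 : BMeas fun p : ((X → ℝ) × ℝ) × ℝ =>
      f ((Function.update p.1.1 y p.1.2, p.2), p.1.1 y) := hf'.comp hm1
  have h2 := pair_tri_swap hc hf2
  rw [← pair_tri_swap hc hf, ← h1, ← h2]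


private theorem pair_meas_m1 (x : X) : Measurable fun p : ((X → ℝ) × ℝ) × ℝ =>
    (((Function.update p.1.1 x p.1.2, p.1.1 x), p.2) : ((X → ℝ) × ℝ) × ℝ) :=
  (((measurable_update2 x).comp measurable_fst).prodMk
    ((measurable_pi_apply x).comp (measurable_fst.comp measurable_fst))).prodMk measurable_snd

private theorem pair_meas_m2 (y : X) : Measurable fun p : ((X → ℝ) × ℝ) × ℝ =>
    (((Function.update p.1.1 y p.2, p.1.2), p.1.1 y) : ((X → ℝ) × ℝ) × ℝ) :=
  (((measurable_update2 y).comp ((measurable_fst.comp measurable_fst).prodMk measurable_snd)).prodMk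
    (measurable_snd.comp measurable_fst)).prodMk
    ((measurable_pi_apply y).comp (measurable_fst.comp measurable_fst))

private theorem pair_pt (hT : T.Good) (hc : 0 < c) (hb : 0 ≤ b) (hbc : b ≤ c / 2)
    (hq1 : q < 1) (hm : 1 ≤ m) (hx : x ∈ B) (hy : y ∈ B) (hxy : x ≠ y) (V : X → ℝ) (u w : ℝ) :
    pairI c q m (fun V : X → ℝ => T.Sv (dfm B c b V I)) x y ((V, u), w)
      ≤ 128 * tt c q m ^ 4 * (pairTh T B c b q x y ((Function.update V x u, V x), w)
          + pairTh T B c b q x y ((Function.update V y w, u), V y)) := by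
  classical
  have ht := tt_pos hc hq1 hm
  set t := tt c q m with htd
  by_cases hs : same c q m (V x) u ∧ same c q m (V y) w
  · obtain ⟨a1, a2, a3⟩ := pair_same_core hc hq1 hs.1
    obtain ⟨b1, b2, b3⟩ := pair_same_core hc hq1 hs.2
    have e1 : pairTh T B c b q x y ((Function.update V x u, V x), w)
        = T.Qxy B c b x y (Function.update V x u) (V x) w := by
      unfold pairTh
      rw [if_pos]
      simp only [Function.update_self, Function.update_of_ne hxy.symm]
      exact ⟨⟨a2, b1⟩, a1, b2⟩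
    have e2 : pairTh T B c b q x y ((Function.update V y w, u), V y)
        = T.Qxy B c b x y (Function.update V y w) u (V y) := by
      unfold pairTh
      rw [if_pos]
      simp only [Function.update_self, Function.update_of_ne hxy]
      exact ⟨⟨a1, b2⟩, a2, b1⟩
    rw [e1, e2]
    have e3 : pairI c q m (fun V : X → ℝ => T.Sv (dfm B c b V I)) x y ((V, u), w)
        = ‖T.Sv (dfm B c b V I) - T.Sv (dfm B c b (Function.update V x u) I)
          - T.Sv (dfm B c b (Function.update V y w) I)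
          + T.Sv (dfm B c b (Function.update (Function.update V x u) y w) I)‖ ^ 2 := by
      unfold pairI
      rw [if_pos hs]
      rfl
    rw [e3]
    refine (mixed hT hc hb hbc hx hy hxy V u w).trans ?_
    refine mul_le_mul_of_nonneg_right ?_ (add_nonneg (pair_Q_nonneg _ _ _) (pair_Q_nonneg _ _ _))
    have h1 : |V x - u| ^ 2 ≤ t ^ 2 := pow_le_pow_left₀ (abs_nonneg _) a3 2
    have h2 : |V y - w| ^ 2 ≤ t ^ 2 := pow_le_pow_left₀ (abs_nonneg _) b3 2
    have h3 := mul_le_mul h1 h2 (by positivity) (by positivity)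
    calc 128 * |V x - u| ^ 2 * |V y - w| ^ 2 = 128 * (|V x - u| ^ 2 * |V y - w| ^ 2) := by ring
      _ ≤ 128 * (t ^ 2 * t ^ 2) := by linarith
      _ = 128 * t ^ 4 := by ring
  · have e3 : pairI c q m (fun V : X → ℝ => T.Sv (dfm B c b V I)) x y ((V, u), w) = 0 := by
      unfold pairI
      rw [if_neg hs]
    rw [e3]
    exact mul_nonneg (by positivity) (add_nonneg (pair_Th_nonneg _) (pair_Th_nonneg _))

theorem pair_upper (hT : T.Good) (hc : 0 < c) (hb : 0 ≤ b) (hbc : b ≤ c / 2) (hq : 0 ≤ q)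
    (hq1 : q < 1) (hm : 1 ≤ m) (hx : x ∈ B) (hy : y ∈ B) (hxy : x ≠ y) :
    ∫ V, ‖DX c q m x (DX c q m y fun V => T.Sv (dfm B c b V I)) V‖ ^ 2 ∂(PX X c)
      ≤ 1024 * c ^ 2 * tt c q m ^ 2 * ∫ V, (open Classical in
          if V x ∈ core c q ∧ V y ∈ core c q then
            ‖T.G (dfm B c b V I) x y‖ ^ 2 * (T.kap B c b q x V * T.kap B c b q y V) else 0)
          ∂(PX X c) := by
  classical
  have ht := tt_pos hc hq1 hm
  have hF : BMeas fun V : X → ℝ => T.Sv (dfm B c b V I) :=
    bmeas_Sv_dfm hT hb c B (by simp)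
  have hTh := pair_bmeas_Th (B := B) (c := c) (b := b) (q := q) (x := x) (y := y) hT hb
  have hI := pair_bmeas_I (c := c) (q := q) (m := m) hF x y
  have hm1 := pair_meas_m1 (X := X) x
  have hm2 := pair_meas_m2 (X := X) y
  have hTh1 : BMeas fun p : ((X → ℝ) × ℝ) × ℝ =>
    pairTh T B c b q x y ((Function.update p.1.1 x p.1.2, p.1.1 x), p.2) := hTh.comp hm1
  have hTh2 : BMeas fun p : ((X → ℝ) × ℝ) × ℝ =>
    pairTh T B c b q x y ((Function.update p.1.1 y p.2, p.1.2), p.1.1 y) := hTh.comp hm2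
  have hpt := fun V u w => pair_pt (q := q) hT hc hb hbc hq1 hm hx hy hxy V u w
  have h1 := pair_tri_mono hc hI ((BMeas.const (128 * tt c q m ^ 4)).mul (hTh1.add hTh2)) hpt
  rw [pair_tri_add hc hTh1 hTh2, pair_tri_x hc x hTh, pair_tri_y hc y hTh] at h1
  have h2 : pairTri c (pairTh T B c b q x y) = ∫ V, (open Classical in
          if V x ∈ core c q ∧ V y ∈ core c q then
            ‖T.G (dfm B c b V I) x y‖ ^ 2 * (T.kap B c b q x V * T.kap B c b q y V) else 0)
          ∂(PX X c) := by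
    unfold pairTri
    refine integral_congr_ae (Filter.Eventually.of_forall fun V => ?_)
    exact pair_J V
  rw [← h2]
  refine (pair_gen hc hq hq1 hm hxy hF).trans ?_
  refine (mul_le_mul_of_nonneg_left h1 (by positivity)).trans (le_of_eq ?_)
  field_simp
  ring

end Sys

end Pool.Agent.Lib.MP_562b47_mp.Str
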