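import Pool.Agent.Lib.MP_562b47_mp.Str.Dfm

/-!
Module STR-Peel (MP_562b47_mp, strips).  The combinatorial peeling of holes.

`Fwd ℓ F Δ N`: a forward map on the layers `< N`.
PROOF of `peel`.  Claim (by induction on `k`): for every weight `μ ≥ 0`, `μ ≤ m`, such that
`μ x ≠ 0` implies `i < ℓ x ≤ j` and `¬ Bad k x`, and if `j + 2k ≤ j'` where the inequality
`a x ≤ K1 ∑_{z ∈ F x} a z` holds for `i < ℓ x`, `ℓ x + 2 ≤ j'`, and `j' ≤ N`:
  `∑ μ x a x ≤ m (∑_{r ≤ k} K^r) ∑_{x core, i < ℓ x ≤ j + 2k} a x`,  `K = K1 (Δ + 1)`.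
`k = 0`: `¬ Bad 0 x` says that `V x` is in the core.  Step: split `μ` in the core part (bounded by
`m ∑_core a`) and the part of the holes: for a hole with `¬ Bad (k+1) x` all `z ∈ F x` have
`¬ Bad k z`; `∑_{holes} μ x a x ≤ K1 ∑_z μ' z a z` with `μ' z = ∑_{x hole, z ∈ F x} μ x ≤ (Δ+1) m`
(`col`), supported in `i < ℓ z ≤ j + 2`.  Apply the claim to `μ'` with `j + 2`.
Finally `∑_{r ≤ k} K^r ≤ (k+1) K^k` for `K ≥ 1`.

PROOF of `prob_bad`: `Bad (k+1) x` is contained in `{V x ∉ core} ∩ ⋃_{z ∈ F x} Bad k z`, the event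
`Bad k z` depends only on the coordinates in layers `≥ ℓ z > ℓ x`, so is independent of `V x`.
So `P (Bad (k+1) x) ≤ q (Δ+1) sup_z P (Bad k z)`; `P (Bad 0 x) = q` (`unif_hole`).
Independence: e.g. `Bad k z` is a `Bad` set invariant under `Function.update _ x v`, and Fubini in the
coordinate `x` (`MeasureTheory.measurePreserving_piEquivPiSubtypeProd`-type or
`iIndepFun`/`lmarginal_singleton`).  `prob_GE`: union bound over the sites of the block.
-/

open MeasureTheory Matrix Complex

namespace Pool.Agent.Lib.MP_562b47_mp.Str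

variable {X : Type*} [Fintype X] [DecidableEq X]

/-- a forward map -/
structure Fwd (ℓ : X → ℕ) (F : X → Finset X) (Δ N : ℕ) : Prop where
  layer : ∀ x, ℓ x < N → ∀ z ∈ F x, ℓ x + 1 ≤ ℓ z ∧ ℓ z ≤ ℓ x + 2
  card : ∀ x, ℓ x < N → (F x).card ≤ Δ + 1
  col : ∀ z, (open Classical in Finset.univ.filter fun x => ℓ x < N ∧ z ∈ F x).card ≤ Δ + 1

/-- the constant of the peeling -/
noncomputable def Pk (D : ℝ) (Δ k : ℕ) : ℝ := (k + 1) * (D ^ 2 * (Δ + 1)) ^ k

theorem measurableSet_Bad (c q : ℝ) (F : X → Finset X) (k : ℕ) (x : X) :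
    MeasurableSet {V : X → ℝ | Bad c q F V k x} := by
  induction k generalizing x with
  | zero =>
    have h : {V : X → ℝ | Bad c q F V 0 x} = (fun V : X → ℝ => V x) ⁻¹' (core c q)ᶜ := rfl
    rw [h]
    exact (measurableSet_core c q).compl.preimage (measurable_pi_apply x)
  | succ k ih =>
    have h : {V : X → ℝ | Bad c q F V (k + 1) x} = ((fun V : X → ℝ => V x) ⁻¹' (core c q)ᶜ) ∩
        ⋃ z ∈ F x, {V : X → ℝ | Bad c q F V k z} := by
      ext V
      simp only [Set.mem_inter_iff, Set.mem_iUnion, exists_prop]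
      exact Iff.rfl
    rw [h]
    refine ((measurableSet_core c q).compl.preimage (measurable_pi_apply x)).inter ?_
    exact Finset.measurableSet_biUnion _ fun z _ => ih z

theorem measurableSet_GE (c q : ℝ) (F : X → Finset X) (ℓ : X → ℕ) (n l k : ℕ) :
    MeasurableSet (GE c q F ℓ n l k) := by
  have h : GE c q F ℓ n l k = (⋂ x, (fun V : X → ℝ => V x) ⁻¹' (Set.Icc (-c) c)) ∩
      ⋂ x, ⋂ (_ : n < ℓ x), ⋂ (_ : ℓ x + 2 * k + 2 ≤ n + l), {V : X → ℝ | Bad c q F V k x}ᶜ := by
    ext V
    simp only [Set.mem_inter_iff, Set.mem_iInter]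
    exact Iff.rfl
  rw [h]
  refine MeasurableSet.inter ?_ ?_
  · exact MeasurableSet.iInter fun x => measurableSet_Icc.preimage (measurable_pi_apply x)
  · exact MeasurableSet.iInter fun x => MeasurableSet.iInter fun _ => MeasurableSet.iInter fun _ =>
      (measurableSet_Bad c q F k x).compl

private theorem peel_claim {c q D : ℝ} {F : X → Finset X} {ℓ : X → ℕ} {Δ N i n : ℕ}
    (hF : Fwd ℓ F Δ N) {V : X → ℝ} {a : X → ℝ} (ha : ∀ x, 0 ≤ a x)
    (step : ∀ x, n < ℓ x → ℓ x + 2 ≤ N → a x ≤ D ^ 2 * ∑ z ∈ F x, a z) (hi : n ≤ i) (k : ℕ) :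
    ∀ (j : ℕ) (m : ℝ) (μ : X → ℝ), 0 ≤ m → (∀ x, 0 ≤ μ x) → (∀ x, μ x ≤ m) →
      (∀ x, μ x ≠ 0 → i < ℓ x ∧ ℓ x ≤ j ∧ ¬ Bad c q F V k x) → j + 2 * k + 2 ≤ N →
      ∑ x, μ x * a x ≤ m * (∑ r ∈ Finset.range (k + 1), (D ^ 2 * (Δ + 1)) ^ r) *
        ∑ x with (i < ℓ x ∧ ℓ x ≤ j + 2 * k),
          open Classical in (if V x ∈ core c q then a x else 0) := by
  classical
  have hsup : ∀ (j j' : ℕ) (m : ℝ) (μ : X → ℝ), 0 ≤ m → (∀ x, 0 ≤ μ x) → (∀ x, μ x ≤ m) →
      (∀ x, μ x ≠ 0 → i < ℓ x ∧ ℓ x ≤ j ∧ V x ∈ core c q) → j ≤ j' →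
      ∑ x, μ x * a x ≤ m * ∑ x with (i < ℓ x ∧ ℓ x ≤ j'), (if V x ∈ core c q then a x else 0) := by
    intro j j' m μ hm hμ0 hμm hμ hjj
    rw [Finset.mul_sum]
    have h1 : ∑ x, μ x * a x = ∑ x with (i < ℓ x ∧ ℓ x ≤ j'), μ x * a x := by
      refine (Finset.sum_subset (Finset.subset_univ _) fun x _ hx => ?_).symm
      by_cases h0 : μ x = 0
      · rw [h0, zero_mul]
      · exfalso
        obtain ⟨h1, h2, _⟩ := hμ x h0
        exact hx (Finset.mem_filter.mpr ⟨Finset.mem_univ x, h1, by omega⟩)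
    rw [h1]
    refine Finset.sum_le_sum fun x _ => ?_
    by_cases h0 : μ x = 0
    · rw [h0, zero_mul]
      refine mul_nonneg hm ?_
      split_ifs
      · exact ha x
      · exact le_rfl
    · rw [if_pos (hμ x h0).2.2]
      exact mul_le_mul_of_nonneg_right (hμm x) (ha x)
  induction k with
  | zero =>
    intro j m μ hm hμ0 hμm hμ hj
    have h1 := hsup j (j + 2 * 0) m μ hm hμ0 hμm (fun x hx => ⟨(hμ x hx).1, (hμ x hx).2.1, by
      have h2 := (hμ x hx).2.2
      by_contra hcon
      exact h2 hcon⟩) (by omega)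
    rw [Finset.range_one, Finset.sum_singleton, pow_zero, mul_one]
    exact h1
  | succ k ih =>
    intro j m μ hm hμ0 hμm hμ hj
    set S := ∑ x with (i < ℓ x ∧ ℓ x ≤ j + 2 * (k + 1)),
      (if V x ∈ core c q then a x else 0) with hS
    -- the split
    set μc : X → ℝ := fun x => if V x ∈ core c q then μ x else 0 with hμc
    set μh : X → ℝ := fun x => if V x ∈ core c q then 0 else μ x with hμh
    have hsplit : ∀ x, μ x = μc x + μh x := by
      intro x
      simp only [hμc, hμh]
      split_ifs <;> simp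
    have h1 : ∑ x, μc x * a x ≤ m * S := by
      refine hsup j _ m μc hm ?_ ?_ ?_ (by omega)
      · intro x
        simp only [hμc]
        split_ifs
        · exact hμ0 x
        · exact le_rfl
      · intro x
        simp only [hμc]
        split_ifs
        · exact hμm x
        · exact hm
      · intro x hx
        simp only [hμc] at hx
        by_cases hV : V x ∈ core c q
        · rw [if_pos hV] at hx
          exact ⟨(hμ x hx).1, (hμ x hx).2.1, hV⟩
        · rw [if_neg hV] at hx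
          exact absurd rfl hx
    -- the holes
    have hμh0 : ∀ x, 0 ≤ μh x := by
      intro x
      simp only [hμh]
      split_ifs
      · exact le_rfl
      · exact hμ0 x
    have hμhm : ∀ x, μh x ≤ m := by
      intro x
      simp only [hμh]
      split_ifs
      · exact hm
      · exact hμm x
    have hμhs : ∀ x, μh x ≠ 0 → i < ℓ x ∧ ℓ x ≤ j ∧ ∀ z ∈ F x, ¬ Bad c q F V k z := by
      intro x hx
      simp only [hμh] at hx
      by_cases hV : V x ∈ core c q
      · rw [if_pos hV] at hx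
        exact absurd rfl hx
      · rw [if_neg hV] at hx
        obtain ⟨h2, h3, h4⟩ := hμ x hx
        refine ⟨h2, h3, fun z hz hb => h4 ?_⟩
        exact ⟨hV, z, hz, hb⟩
    set μ' : X → ℝ := fun z => ∑ x, (if z ∈ F x then μh x else 0) with hμ'
    have h2 : ∑ x, μh x * a x ≤ D ^ 2 * ∑ z, μ' z * a z := by
      have h3 : ∀ x, μh x * a x ≤ D ^ 2 * ∑ z, (if z ∈ F x then μh x else 0) * a z := by
        intro x
        by_cases h0 : μh x = 0
        · rw [h0, zero_mul]
          simp
        · obtain ⟨h4, h5, _⟩ := hμhs x h0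
          have h6 := step x (by omega) (by omega)
          calc μh x * a x ≤ μh x * (D ^ 2 * ∑ z ∈ F x, a z) :=
                mul_le_mul_of_nonneg_left h6 (hμh0 x)
            _ = D ^ 2 * ∑ z ∈ F x, μh x * a z := by rw [← Finset.mul_sum]; ring
            _ = D ^ 2 * ∑ z, (if z ∈ F x then μh x * a z else 0) := by
                rw [Finset.sum_ite_mem, Finset.univ_inter]
            _ = D ^ 2 * ∑ z, (if z ∈ F x then μh x else 0) * a z := by
                congr 1
                refine Finset.sum_congr rfl fun z _ => ?_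
                split_ifs
                · rfl
                · rw [zero_mul]
      calc ∑ x, μh x * a x ≤ ∑ x, D ^ 2 * ∑ z, (if z ∈ F x then μh x else 0) * a z :=
            Finset.sum_le_sum fun x _ => h3 x
        _ = D ^ 2 * ∑ z, μ' z * a z := by
            rw [← Finset.mul_sum, Finset.sum_comm]
            congr 1
            refine Finset.sum_congr rfl fun z _ => ?_
            rw [hμ', Finset.sum_mul]
    have hμ'0 : ∀ z, 0 ≤ μ' z := by
      intro z
      refine Finset.sum_nonneg fun x _ => ?_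
      split_ifs
      · exact hμh0 x
      · exact le_rfl
    have hμ'm : ∀ z, μ' z ≤ (Δ + 1) * m := by
      intro z
      have h3 : μ' z ≤ ∑ x, (if ℓ x < N ∧ z ∈ F x then m else 0) := by
        refine Finset.sum_le_sum fun x _ => ?_
        by_cases h0 : μh x = 0
        · rw [h0]
          split_ifs
          · exact hm
          · exact le_rfl
          · exact hm
          · exact le_rfl
        · obtain ⟨h4, h5, _⟩ := hμhs x h0
          have h6 : ℓ x < N := by omega
          by_cases h7 : z ∈ F x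
          · rw [if_pos h7, if_pos ⟨h6, h7⟩]
            exact hμhm x
          · rw [if_neg h7, if_neg (fun h => h7 h.2)]
      refine le_trans h3 ?_
      rw [← Finset.sum_filter, Finset.sum_const, nsmul_eq_mul]
      have h8 : ((Finset.univ.filter fun x => ℓ x < N ∧ z ∈ F x).card : ℝ) ≤ Δ + 1 := by
        have h9 : (Finset.univ.filter fun x => ℓ x < N ∧ z ∈ F x).card ≤ Δ + 1 := by
          refine le_trans (le_of_eq ?_) (hF.col z)
          congr 1
        exact_mod_cast h9
      exact mul_le_mul_of_nonneg_right h8 hm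
    have hμ's : ∀ z, μ' z ≠ 0 → i < ℓ z ∧ ℓ z ≤ j + 2 ∧ ¬ Bad c q F V k z := by
      intro z hz
      have h3 : ∃ x, (if z ∈ F x then μh x else 0) ≠ 0 := by
        by_contra hcon
        push Not at hcon
        exact hz (Finset.sum_eq_zero fun x _ => hcon x)
      obtain ⟨x, hx⟩ := h3
      by_cases h7 : z ∈ F x
      · rw [if_pos h7] at hx
        obtain ⟨h4, h5, h6⟩ := hμhs x hx
        obtain ⟨h8, h9⟩ := hF.layer x (by omega) z h7
        exact ⟨by omega, by omega, h6 z h7⟩
      · rw [if_neg h7] at hx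
        exact absurd rfl hx
    have h3 := ih (j + 2) ((Δ + 1) * m) μ' (by positivity) hμ'0 hμ'm hμ's (by omega)
    have hS' : ∑ x with (i < ℓ x ∧ ℓ x ≤ j + 2 + 2 * k), (if V x ∈ core c q then a x else 0) = S := by
      rw [hS]
      have : j + 2 + 2 * k = j + 2 * (k + 1) := by ring
      rw [this]
    rw [hS'] at h3
    have hD2 : 0 ≤ D ^ 2 := sq_nonneg D
    calc ∑ x, μ x * a x = ∑ x, μc x * a x + ∑ x, μh x * a x := by
          rw [← Finset.sum_add_distrib]
          refine Finset.sum_congr rfl fun x _ => ?_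
          rw [hsplit x, add_mul]
      _ ≤ m * S + D ^ 2 * ((Δ + 1) * m *
          (∑ r ∈ Finset.range (k + 1), (D ^ 2 * (Δ + 1)) ^ r) * S) := by
          refine add_le_add h1 (le_trans h2 (mul_le_mul_of_nonneg_left h3 hD2))
      _ = m * (∑ r ∈ Finset.range (k + 1 + 1), (D ^ 2 * (Δ + 1)) ^ r) * S := by
          rw [Finset.sum_range_succ' _ (k + 1)]
          simp only [pow_succ, pow_zero]
          rw [← Finset.sum_mul]
          ring

theorem peel {c q D : ℝ} {F : X → Finset X} {ℓ : X → ℕ} {Δ n l k : ℕ} (hD : 1 ≤ D)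
    (hF : Fwd ℓ F Δ (n + l)) {V : X → ℝ} (hV : V ∈ GE c q F ℓ n l k) {a : X → ℝ}
    (ha : ∀ x, 0 ≤ a x)
    (step : ∀ x, n < ℓ x → ℓ x + 2 ≤ n + l → a x ≤ D ^ 2 * ∑ z ∈ F x, a z)
    {i j : ℕ} (hi : n ≤ i) (hj : j + 2 * k + 2 ≤ n + l) :
    ∑ x with i < ℓ x ∧ ℓ x ≤ j, a x
      ≤ Pk D Δ k * ∑ x with (i < ℓ x ∧ ℓ x ≤ j + 2 * k),
          open Classical in (if V x ∈ core c q then a x else 0) := by
  classical
  have h1 := peel_claim (c := c) (q := q) (i := i) hF (V := V) ha step hi k j 1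
    (fun x => if i < ℓ x ∧ ℓ x ≤ j then 1 else 0) zero_le_one
    (fun x => by split_ifs <;> norm_num) (fun x => by split_ifs <;> norm_num)
    (fun x hx => by
      by_cases h : i < ℓ x ∧ ℓ x ≤ j
      · exact ⟨h.1, h.2, hV.2 x (by omega) (by omega)⟩
      · simp only [if_neg h] at hx
        exact absurd rfl hx) hj
  have h2 : ∑ x, (if i < ℓ x ∧ ℓ x ≤ j then (1 : ℝ) else 0) * a x =
      ∑ x with i < ℓ x ∧ ℓ x ≤ j, a x := by
    rw [Finset.sum_filter]
    refine Finset.sum_congr rfl fun x _ => ?_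
    split_ifs
    · rw [one_mul]
    · rw [zero_mul]
  rw [h2, one_mul] at h1
  refine le_trans h1 ?_
  refine mul_le_mul_of_nonneg_right ?_ ?_
  · have hD2 : 1 ≤ D ^ 2 := one_le_pow₀ hD
    have hK : 1 ≤ D ^ 2 * ((Δ : ℝ) + 1) := by
      have : (0 : ℝ) ≤ Δ := Nat.cast_nonneg _
      nlinarith
    calc ∑ r ∈ Finset.range (k + 1), (D ^ 2 * ((Δ : ℝ) + 1)) ^ r ≤
        ∑ _r ∈ Finset.range (k + 1), (D ^ 2 * ((Δ : ℝ) + 1)) ^ k := by
          refine Finset.sum_le_sum fun r hr => ?_
          exact pow_le_pow_right₀ hK (Nat.lt_succ_iff.mp (Finset.mem_range.mp hr))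
      _ = Pk D Δ k := by
          rw [Finset.sum_const, Finset.card_range, nsmul_eq_mul, Pk]
          push_cast
          ring
  · refine Finset.sum_nonneg fun x _ => ?_
    split_ifs
    · exact ha x
    · exact le_rfl

private theorem peel_indep {c : ℝ} (hc : 0 < c) (x : X) {A : Set ℝ} (hA : MeasurableSet A)
    {E : Set (X → ℝ)} (hE : MeasurableSet E)
    (hinv : ∀ (V : X → ℝ) (v : ℝ), Function.update V x v ∈ E ↔ V ∈ E) :
    (PX X c).real ({V | V x ∈ A} ∩ E) = (unif c).real A * (PX X c).real E := by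
  have := isProb_unif hc
  have hAx : MeasurableSet {V : X → ℝ | V x ∈ A} := hA.preimage (measurable_pi_apply x)
  have h1 : ∫⁻ V, ({V : X → ℝ | V x ∈ A} ∩ E).indicator 1 V ∂(Measure.pi fun _ : X => unif c) =
      ∫⁻ V, (unif c A) * E.indicator 1 V ∂(Measure.pi fun _ : X => unif c) := by
    refine lintegral_eq_of_lmarginal_eq {x} ?_ ?_ ?_
    · exact measurable_one.indicator (hAx.inter hE)
    · exact (measurable_one.indicator hE).const_mul _
    · rw [lmarginal_singleton, lmarginal_singleton]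
      funext V
      by_cases hV : V ∈ E
      · have e1 : ∀ v : ℝ, ({V : X → ℝ | V x ∈ A} ∩ E).indicator (1 : (X → ℝ) → ENNReal)
            (Function.update V x v) = A.indicator 1 v := by
          intro v
          have h2 : Function.update V x v ∈ ({V : X → ℝ | V x ∈ A} ∩ E) ↔ v ∈ A := by
            rw [Set.mem_inter_iff, hinv V v, Set.mem_setOf_eq, Function.update_self]
            exact ⟨fun h => h.1, fun h => ⟨h, hV⟩⟩
          by_cases hv : v ∈ A
          · rw [Set.indicator_of_mem (h2.mpr hv), Set.indicator_of_mem hv]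
            rfl
          · rw [Set.indicator_of_notMem (fun h => hv (h2.mp h)), Set.indicator_of_notMem hv]
        have e2 : ∀ v : ℝ, (unif c A) * E.indicator (1 : (X → ℝ) → ENNReal)
            (Function.update V x v) = unif c A := by
          intro v
          rw [Set.indicator_of_mem ((hinv V v).mpr hV), Pi.one_apply, mul_one]
        simp only [e1, e2]
        rw [lintegral_indicator_one hA, lintegral_const, measure_univ, mul_one]
      · have e1 : ∀ v : ℝ, ({V : X → ℝ | V x ∈ A} ∩ E).indicator (1 : (X → ℝ) → ENNReal)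
            (Function.update V x v) = 0 := fun v =>
          Set.indicator_of_notMem (fun h => hV ((hinv V v).mp h.2)) _
        have e2 : ∀ v : ℝ, (unif c A) * E.indicator (1 : (X → ℝ) → ENNReal)
            (Function.update V x v) = 0 := by
          intro v
          rw [Set.indicator_of_notMem (fun h => hV ((hinv V v).mp h)), mul_zero]
        simp only [e1, e2]
  rw [lintegral_indicator_one (hAx.inter hE), lintegral_const_mul _ (measurable_one.indicator hE),
    lintegral_indicator_one hE] at h1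
  have h2 : (PX X c) ({V | V x ∈ A} ∩ E) = unif c A * (PX X c) E := h1
  rw [Measure.real, h2, ENNReal.toReal_mul]
  rfl

private theorem bad_update {c q : ℝ} {F : X → Finset X} {ℓ : X → ℕ} {Δ N : ℕ}
    (hF : Fwd ℓ F Δ N) (x : X) (k : ℕ) : ∀ z, ℓ x < ℓ z → ℓ z + 2 * k ≤ N →
    ∀ (V : X → ℝ) (v : ℝ), Bad c q F (Function.update V x v) k z ↔ Bad c q F V k z := by
  induction k with
  | zero =>
    intro z hz _ V v
    have hne : z ≠ x := by
      rintro rfl
      exact lt_irrefl _ hz
    show (Function.update V x v z ∉ core c q) ↔ (V z ∉ core c q)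
    rw [Function.update_of_ne hne]
  | succ k ih =>
    intro z hz hzN V v
    have hne : z ≠ x := by
      rintro rfl
      exact lt_irrefl _ hz
    show (Function.update V x v z ∉ core c q ∧ ∃ w ∈ F z, Bad c q F (Function.update V x v) k w) ↔
      (V z ∉ core c q ∧ ∃ w ∈ F z, Bad c q F V k w)
    rw [Function.update_of_ne hne]
    refine and_congr_right fun _ => exists_congr fun w => and_congr_right fun hw => ?_
    obtain ⟨h1, h2⟩ := hF.layer z (by omega) w hw
    exact ih w (by omega) (by omega) V v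

theorem prob_bad {c q : ℝ} (hc : 0 < c) (hq : 0 ≤ q) (hq1 : q ≤ 1) {F : X → Finset X} {ℓ : X → ℕ}
    {Δ N k : ℕ} (hF : Fwd ℓ F Δ N) (x : X) (hx : ℓ x + 2 * k ≤ N) :
    (PX X c).real {V | Bad c q F V k x} ≤ ((Δ : ℝ) + 1) ^ k * q ^ (k + 1) := by
  have hP := isProb_PX (X := X) hc
  have hcore := (measurableSet_core c q).compl
  induction k generalizing x with
  | zero =>
    have h1 := peel_indep hc x hcore (E := Set.univ) MeasurableSet.univ (fun _ _ => by simp)
    rw [Set.inter_univ, unif_hole hc hq hq1, probReal_univ, mul_one] at h1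
    rw [pow_zero, one_mul, zero_add, pow_one]
    exact h1.le
  | succ k ih =>
    set E : Set (X → ℝ) := ⋃ z ∈ F x, {V | Bad c q F V k z} with hE
    have hset : {V : X → ℝ | Bad c q F V (k + 1) x} = {V | V x ∈ (core c q)ᶜ} ∩ E := by
      ext V
      rw [hE]
      simp only [Set.mem_inter_iff, Set.mem_iUnion, exists_prop]
      exact Iff.rfl
    have hEm : MeasurableSet E := Finset.measurableSet_biUnion _ fun z _ =>
      measurableSet_Bad c q F k z
    have hinv : ∀ (V : X → ℝ) (v : ℝ), Function.update V x v ∈ E ↔ V ∈ E := by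
      intro V v
      rw [hE]
      simp only [Set.mem_iUnion, exists_prop, Set.mem_setOf_eq]
      refine exists_congr fun z => and_congr_right fun hz => ?_
      obtain ⟨h1, h2⟩ := hF.layer x (by omega) z hz
      exact bad_update hF x k z (by omega) (by omega) V v
    rw [hset, peel_indep hc x hcore hEm hinv, unif_hole hc hq hq1]
    have h1 : (PX X c).real E ≤ ∑ z ∈ F x, (PX X c).real {V | Bad c q F V k z} :=
      measureReal_biUnion_finset_le _ _
    have h2 : ∑ z ∈ F x, (PX X c).real {V | Bad c q F V k z} ≤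
        ∑ _z ∈ F x, ((Δ : ℝ) + 1) ^ k * q ^ (k + 1) := by
      refine Finset.sum_le_sum fun z hz => ?_
      obtain ⟨h1, h2⟩ := hF.layer x (by omega) z hz
      exact ih z (by omega)
    rw [Finset.sum_const, nsmul_eq_mul] at h2
    have h3 : ((F x).card : ℝ) ≤ Δ + 1 := by exact_mod_cast hF.card x (by omega)
    have h4 : 0 ≤ ((Δ : ℝ) + 1) ^ k * q ^ (k + 1) := by positivity
    calc q * (PX X c).real E ≤ q * (((Δ : ℝ) + 1) * (((Δ : ℝ) + 1) ^ k * q ^ (k + 1))) := by
          refine mul_le_mul_of_nonneg_left ?_ hq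
          exact le_trans h1 (le_trans h2 (mul_le_mul_of_nonneg_right h3 h4))
      _ = ((Δ : ℝ) + 1) ^ (k + 1) * q ^ (k + 1 + 1) := by ring

theorem prob_GE {c q : ℝ} (hc : 0 < c) (hq : 0 ≤ q) (hq1 : q ≤ 1) {F : X → Finset X} {ℓ : X → ℕ}
    {Δ n l k : ℕ} (hF : Fwd ℓ F Δ (n + l)) :
    (PX X c).real (GE c q F ℓ n l k)ᶜ
      ≤ (Finset.univ.filter fun x => n < ℓ x ∧ ℓ x ≤ n + l).card
        * (((Δ : ℝ) + 1) ^ k * q ^ (k + 1)) := by
  have hP := isProb_PX (X := X) hc
  set T : Finset X := Finset.univ.filter fun x => n < ℓ x ∧ ℓ x + 2 * k + 2 ≤ n + l with hT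
  set Z : Set (X → ℝ) := {V | ¬ ∀ x, V x ∈ Set.Icc (-c) c} with hZ
  have hZ0 : (PX X c).real Z = 0 := by
    have h1 : (PX X c) Z = 0 := ae_cube hc
    rw [Measure.real, h1, ENNReal.toReal_zero]
  have hsub : (GE c q F ℓ n l k)ᶜ ⊆ Z ∪ ⋃ x ∈ T, {V | Bad c q F V k x} := by
    intro V hV
    by_cases h1 : ∀ x, V x ∈ Set.Icc (-c) c
    · right
      by_contra hcon
      apply hV
      refine ⟨h1, fun x hx1 hx2 hb => hcon ?_⟩
      simp only [Set.mem_iUnion, exists_prop]
      exact ⟨x, Finset.mem_filter.mpr ⟨Finset.mem_univ x, hx1, hx2⟩, hb⟩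
    · left
      exact h1
  have h4 : 0 ≤ ((Δ : ℝ) + 1) ^ k * q ^ (k + 1) := by positivity
  calc (PX X c).real (GE c q F ℓ n l k)ᶜ ≤
      (PX X c).real (Z ∪ ⋃ x ∈ T, {V | Bad c q F V k x}) := measureReal_mono hsub
    _ ≤ (PX X c).real Z + (PX X c).real (⋃ x ∈ T, {V | Bad c q F V k x}) :=
        measureReal_union_le _ _
    _ ≤ 0 + ∑ x ∈ T, (PX X c).real {V | Bad c q F V k x} := by
        rw [hZ0]
        exact add_le_add le_rfl (measureReal_biUnion_finset_le _ _)
    _ ≤ ∑ _x ∈ T, ((Δ : ℝ) + 1) ^ k * q ^ (k + 1) := by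
        rw [zero_add]
        refine Finset.sum_le_sum fun x hx => ?_
        rw [hT, Finset.mem_filter] at hx
        exact prob_bad hc hq hq1 hF x (by omega)
    _ = (T.card : ℝ) * (((Δ : ℝ) + 1) ^ k * q ^ (k + 1)) := by
        rw [Finset.sum_const, nsmul_eq_mul]
    _ ≤ (Finset.univ.filter fun x => n < ℓ x ∧ ℓ x ≤ n + l).card
        * (((Δ : ℝ) + 1) ^ k * q ^ (k + 1)) := by
        refine mul_le_mul_of_nonneg_right ?_ h4
        have h5 : T.card ≤ (Finset.univ.filter fun x => n < ℓ x ∧ ℓ x ≤ n + l).card := by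
          refine Finset.card_le_card fun x hx => ?_
          rw [hT, Finset.mem_filter] at hx
          rw [Finset.mem_filter]
          exact ⟨hx.1, hx.2.1, by omega⟩
        exact_mod_cast h5

end Pool.Agent.Lib.MP_562b47_mp.Str
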