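import Pool.Agent.Lib.MP_562b47_mp.Str.Dfm

/-!
Module STR-Scal1 (MP_562b47_mp, strips).  One-dimensional upper bounds.
`zeta c b v = v + i b χ(v)`, `g v = (zeta c b v + σ)⁻¹`, `0 < Im σ`, on the core `Im (zeta + σ) ≥ b q`.

PROOFS.  `KI := ∫ 1_core |g|²` (uniform law, density `1/(2c)`).
* `zeta_sub_re`, `zeta_lip`: `Re (ζ v - ζ v') = v - v'`, so `|v - v'| ≤ |ζ v - ζ v'|`; by `chi_lip`
  `|ζ v - ζ v'| ≤ (1 + 2b/c)|v - v'| ≤ 2|v - v'|` for `b ≤ c/2`.
* `KI_le`: `|ζ+σ|² ≥ (v + Re σ)² + (bq)²` on the core (`le_chi_of_core`), `∫_ℝ dv/(v²+β²) = π/β`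
  (`integral_univ_inv_one_add_sq`), so `KI ≤ π/(2 c b q) ≤ 2/(c b q)`.
* `int_core_norm_le`: `|g| ≤ 1/max(|v + s|, β)`, `s = Re σ`, `β = b q`.  If `|s| > 2c` then
  `|v+s| ≥ c` and the integral is `≤ 1/c`.  If `|s| ≤ 2c`, `∫_{-c}^{c} dv/max(|v+s|,β) ≤
  ∫_{-3c}^{3c} du/max(|u|,β) ≤ 2 + 2 log(3c/β)` if `β ≤ 3c` (here `β = b q ≤ c/4`).
  So the integral is `≤ (1/c)(1 + log(3c/β)) ≤ C (1 + log(1/β))`, `C = (1 + |log(3c)|)/c`
  (`log(1/β) ≥ 0` as `b q ≤ 1`).
* `norm_g_le`: let `v0` be in the core, `m0 = |ζ(v0) + σ| > 0`.  By `zeta_lip`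
  `|ζ(v)+σ| ≤ m0 + 2|v - v0|`.  The core `[-a,a]`, `a = (1-q)c ≥ c/2`, contains an interval of
  length `c/2` with end point `v0` (to the side of the centre), so
  `KI ≥ (1/2c) ∫_0^{c/2} du/(m0+2u)² = (1/2c)(1/2)(1/m0 - 1/(m0+c)) = 1/(4 m0 (m0+c))`.
  If `m0 ≤ c`: `1/m0 ≤ 8 c KI`; otherwise `1/m0 ≤ 1/c`.
-/

open MeasureTheory Matrix Complex

namespace Pool.Agent.Lib.MP_562b47_mp.Str

/-- the deformed value at `z = I` -/
noncomputable def zeta (c b v : ℝ) : ℂ := (v : ℂ) + I * ((b * chi c v : ℝ) : ℂ)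

/-- the integral of `|g|²` over the core -/
noncomputable def KI (c b q : ℝ) (σ : ℂ) : ℝ :=
  ∫ v, (core c q).indicator (fun v => ‖(zeta c b v + σ)⁻¹‖ ^ 2) v ∂(unif c)

section

variable {c b q : ℝ} {σ : ℂ}

private theorem zeta_re' (v : ℝ) : (zeta c b v).re = v := by
  unfold zeta
  rw [Complex.add_re, Complex.ofReal_re, mul_comm, Complex.re_ofReal_mul, Complex.I_re, mul_zero,
    add_zero]

private theorem zeta_im' (v : ℝ) : (zeta c b v).im = b * chi c v := by
  unfold zeta
  rw [Complex.add_im, Complex.ofReal_im, mul_comm, Complex.im_ofReal_mul, Complex.I_im, mul_one,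
    zero_add]

theorem zeta_im_nonneg (hb : 0 ≤ b) (v : ℝ) : 0 ≤ (zeta c b v).im := by
  rw [zeta_im']
  exact mul_nonneg hb (chi_nonneg _ _)

theorem zeta_add_ne (hb : 0 ≤ b) (hσ : 0 < σ.im) (v : ℝ) : zeta c b v + σ ≠ 0 := by
  intro h
  have h1 := congrArg Complex.im h
  rw [Complex.add_im, Complex.zero_im] at h1
  have := zeta_im_nonneg (c := c) hb v
  linarith

private theorem continuous_zeta : Continuous fun v => zeta c b v := by
  unfold zeta
  refine Complex.continuous_ofReal.add (continuous_const.mul (Complex.continuous_ofReal.comp ?_))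
  exact continuous_const.mul (continuous_chi c)

theorem continuous_g (hb : 0 ≤ b) (hσ : 0 < σ.im) : Continuous fun v => (zeta c b v + σ)⁻¹ :=
  (continuous_zeta.add continuous_const).inv₀ fun v => zeta_add_ne hb hσ v

private theorem im_le_norm (hb : 0 ≤ b) (v : ℝ) : σ.im ≤ ‖zeta c b v + σ‖ := by
  refine le_trans ?_ (Complex.abs_im_le_norm _)
  rw [Complex.add_im]
  refine le_trans ?_ (le_abs_self _)
  have := zeta_im_nonneg (c := c) hb v
  linarith

theorem norm_g_le_im (hb : 0 ≤ b) (hσ : 0 < σ.im) (v : ℝ) :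
    ‖(zeta c b v + σ)⁻¹‖ ≤ 1 / σ.im := by
  rw [norm_inv, ← one_div]
  exact one_div_le_one_div_of_le hσ (im_le_norm hb v)

theorem sub_le_zeta (v v' : ℝ) : |v - v'| ≤ ‖zeta c b v - zeta c b v'‖ := by
  have h := Complex.abs_re_le_norm (zeta c b v - zeta c b v')
  rwa [Complex.sub_re, zeta_re', zeta_re'] at h

theorem zeta_lip (hc : 0 < c) (hb : 0 ≤ b) (hbc : b ≤ c / 2) (v v' : ℝ) :
    ‖zeta c b v - zeta c b v'‖ ≤ 2 * |v - v'| := by
  have h1 : zeta c b v - zeta c b v' = ((v - v' : ℝ) : ℂ) + I * ((b * (chi c v - chi c v') : ℝ) : ℂ) := by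
    unfold zeta
    push_cast
    ring
  rw [h1]
  refine (norm_add_le _ _).trans ?_
  rw [norm_mul, Complex.norm_I, one_mul, Complex.norm_real, Complex.norm_real, Real.norm_eq_abs,
    Real.norm_eq_abs, abs_mul, abs_of_nonneg hb]
  have h2 := chi_lip hc v v'
  have h3 : b * |chi c v - chi c v'| ≤ |v - v'| := by
    calc b * |chi c v - chi c v'| ≤ (c / 2) * (2 / c * |v - v'|) :=
          mul_le_mul hbc h2 (abs_nonneg _) (by positivity)
      _ = |v - v'| := by field_simp
  linarith

theorem g_sub (hb : 0 ≤ b) (hσ : 0 < σ.im) (v v' : ℝ) :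
    (zeta c b v + σ)⁻¹ - (zeta c b v' + σ)⁻¹
      = (zeta c b v' - zeta c b v) * ((zeta c b v + σ)⁻¹ * (zeta c b v' + σ)⁻¹) := by
  have h1 := zeta_add_ne (c := c) hb hσ v
  have h2 := zeta_add_ne (c := c) hb hσ v'
  field_simp
  ring

theorem KI_nonneg : 0 ≤ KI c b q σ := by
  unfold KI
  refine integral_nonneg fun v => ?_
  exact Set.indicator_nonneg (fun _ _ => by positivity) v

/-- the square of the norm from below on the core -/
private theorem core_sq_le (hc : 0 < c) (hb : 0 < b) (hq : 0 < q) (hq1 : q ≤ 1) (hσ : 0 < σ.im)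
    {v : ℝ} (hv : v ∈ core c q) : (v + σ.re) ^ 2 + (b * q) ^ 2 ≤ ‖zeta c b v + σ‖ ^ 2 := by
  rw [← Complex.normSq_eq_norm_sq, Complex.normSq_apply, Complex.add_re, Complex.add_im, zeta_re',
    zeta_im']
  have h1 : b * q ≤ b * chi c v := mul_le_mul_of_nonneg_left (le_chi_of_core hc hq.le hq1 hv) hb.le
  have h2 : 0 ≤ b * q := by positivity
  nlinarith

theorem KI_le (hc : 0 < c) (hb : 0 < b) (hq : 0 < q) (hq1 : q ≤ 1 / 2) (hσ : 0 < σ.im) :
    KI c b q σ ≤ 2 / (c * (b * q)) := by
  set β := b * q with hβ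
  have hβ0 : 0 < β := mul_pos hb hq
  set s := σ.re with hs
  have hint0 : Integrable (fun x : ℝ => (1 + x ^ 2)⁻¹) := integrable_inv_one_add_sq
  have hint1 : Integrable (fun v : ℝ => (1 + ((v + s) / β) ^ 2)⁻¹) :=
    (hint0.comp_div hβ0.ne').comp_add_right s
  have hval : ∫ v : ℝ, (1 + ((v + s) / β) ^ 2)⁻¹ = β * Real.pi := by
    rw [integral_add_right_eq_self (fun v : ℝ => (1 + (v / β) ^ 2)⁻¹) s,
      Measure.integral_comp_div (fun v : ℝ => (1 + v ^ 2)⁻¹) β, integral_univ_inv_one_add_sq,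
      abs_of_pos hβ0, smul_eq_mul]
  have hpt : ∀ v : ℝ, (core c q).indicator (fun v => ‖(zeta c b v + σ)⁻¹‖ ^ 2) v ≤
      (1 / β ^ 2) * (1 + ((v + s) / β) ^ 2)⁻¹ := by
    intro v
    by_cases hv : v ∈ core c q
    · rw [Set.indicator_of_mem hv, norm_inv, inv_pow]
      have h1 := core_sq_le hc hb hq (by linarith) hσ hv
      rw [← hβ, ← hs] at h1
      have h2 : (1 / β ^ 2) * (1 + ((v + s) / β) ^ 2)⁻¹ = ((v + s) ^ 2 + β ^ 2)⁻¹ := by
        rw [one_div, ← mul_inv]
        congr 1
        field_simp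
        ring
      rw [h2]
      exact inv_anti₀ (by positivity) h1
    · rw [Set.indicator_of_notMem hv]
      positivity
  unfold KI
  rw [integral_unif hc, smul_eq_mul]
  have hle : ∫ v in Set.Icc (-c) c, (core c q).indicator (fun v => ‖(zeta c b v + σ)⁻¹‖ ^ 2) v ≤
      (1 / β ^ 2) * (β * Real.pi) := by
    rw [← hval, ← integral_const_mul]
    refine (integral_mono_of_nonneg (μ := volume.restrict (Set.Icc (-c) c)) ?_
      ((hint1.const_mul (1 / β ^ 2)).restrict) (Filter.Eventually.of_forall hpt)).trans ?_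
    · exact Filter.Eventually.of_forall fun v => Set.indicator_nonneg (fun _ _ => by positivity) v
    · exact setIntegral_le_integral (hint1.const_mul (1 / β ^ 2))
        (Filter.Eventually.of_forall fun v => by positivity)
  have hpi : Real.pi ≤ 4 := Real.pi_le_four
  calc (2 * c)⁻¹ * ∫ v in Set.Icc (-c) c, (core c q).indicator (fun v => ‖(zeta c b v + σ)⁻¹‖ ^ 2) v
      ≤ (2 * c)⁻¹ * ((1 / β ^ 2) * (β * Real.pi)) := mul_le_mul_of_nonneg_left hle (by positivity)
    _ = Real.pi / (2 * (c * β)) := by field_simp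
    _ ≤ 4 / (2 * (c * β)) := div_le_div_of_nonneg_right hpi (by positivity)
    _ = 2 / (c * β) := by field_simp; norm_num

theorem int_core_norm_le (hc : 0 < c) : ∃ C : ℝ, 0 < C ∧ ∀ (b q : ℝ) (σ : ℂ), 0 < b → b ≤ 1 →
    b ≤ c / 2 → 0 < q → q ≤ 1 / 2 → 0 < σ.im →
    ∫ v, (core c q).indicator (fun v => ‖(zeta c b v + σ)⁻¹‖) v ∂(unif c)
      ≤ C * (1 + Real.log (1 / (b * q))) := by
  refine ⟨(2 / c) * (1 + |Real.log (3 * c + 1)|) + 1 / c, by positivity, ?_⟩
  intro b q σ hb hb1 hbc hq hq1 hσ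
  set β := b * q with hβ
  have hβ0 : 0 < β := mul_pos hb hq
  have hβ1 : β ≤ 1 := by nlinarith
  set s := σ.re with hs
  have hlogβ : 0 ≤ Real.log (1 / β) := Real.log_nonneg (by rw [le_div_iff₀ hβ0]; linarith)
  have hpt1 : ∀ v ∈ core c q, ‖(zeta c b v + σ)⁻¹‖ ≤ 2 / (|v + s| + β) := by
    intro v hv
    have h1 := core_sq_le hc hb hq (by linarith) hσ hv
    rw [← hβ, ← hs] at h1
    have h2 : (|v + s| + β) / 2 ≤ ‖zeta c b v + σ‖ := by
      refine abs_le_of_sq_le_sq' ?_ (norm_nonneg _) |>.2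
      rw [← sq_abs (v + s)] at h1
      nlinarith [sq_nonneg (|v + s| - β)]
    have h3 : 0 < (|v + s| + β) / 2 := by positivity
    rw [norm_inv, ← one_div]
    refine (one_div_le_one_div_of_le h3 h2).trans (le_of_eq ?_)
    field_simp
  rw [integral_unif hc, smul_eq_mul]
  rcases le_or_gt |s| (2 * c) with hsc | hsc
  · set h : ℝ → ℝ := fun u => 2 / (|u| + β) with hh
    have hcont : Continuous h := by
      rw [hh]
      exact continuous_const.div (continuous_abs.add continuous_const) fun u => by positivity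
    have h0 : ∀ u, 0 ≤ h u := fun u => by rw [hh]; positivity
    have hpos : ∫ u in (0 : ℝ)..(3 * c), h u = 2 * Real.log ((3 * c + β) / β) := by
      have h1 : ∫ u in (0 : ℝ)..(3 * c), h u = ∫ u in (0 : ℝ)..(3 * c), 2 * (u + β)⁻¹ := by
        refine intervalIntegral.integral_congr fun u hu => ?_
        rw [Set.uIcc_of_le (by positivity)] at hu
        rw [hh]
        simp only
        rw [abs_of_nonneg hu.1, div_eq_mul_inv]
      rw [h1, intervalIntegral.integral_const_mul,
        intervalIntegral.integral_comp_add_right (fun u : ℝ => u⁻¹) β,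
        integral_inv_of_pos (by linarith) (by positivity), zero_add]
    have hneg : ∫ u in (-(3 * c))..(0 : ℝ), h u = 2 * Real.log ((3 * c + β) / β) := by
      rw [← hpos]
      have h1 := intervalIntegral.integral_comp_neg (a := 0) (b := 3 * c) h
      rw [neg_zero] at h1
      rw [← h1]
      refine intervalIntegral.integral_congr fun u _ => ?_
      rw [hh]
      simp only [abs_neg]
    have hall : ∫ u in (-(3 * c))..(3 * c), h u = 4 * Real.log ((3 * c + β) / β) := by
      rw [← intervalIntegral.integral_add_adjacent_intervals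
        (hcont.intervalIntegrable (-(3 * c)) 0) (hcont.intervalIntegrable 0 (3 * c)), hpos, hneg]
      ring
    have hshift : ∫ v in (-c)..c, h (v + s) ≤ ∫ u in (-(3 * c))..(3 * c), h u := by
      rw [intervalIntegral.integral_comp_add_right h s]
      have := abs_le.1 hsc
      refine intervalIntegral.integral_mono_interval (by linarith) (by linarith) (by linarith)
        (Filter.Eventually.of_forall h0) (hcont.intervalIntegrable _ _)
    have hcont2 : Continuous fun v => h (v + s) := hcont.comp (continuous_id.add continuous_const)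
    have hle : ∫ v in Set.Icc (-c) c, (core c q).indicator (fun v => ‖(zeta c b v + σ)⁻¹‖) v ≤
        ∫ v in (-c)..c, h (v + s) := by
      rw [intervalIntegral.integral_of_le (by linarith), ← integral_Icc_eq_integral_Ioc]
      refine integral_mono_of_nonneg ?_ (hcont2.integrableOn_Icc) ?_
      · exact Filter.Eventually.of_forall fun v => Set.indicator_nonneg (fun _ _ => by positivity) v
      · refine Filter.Eventually.of_forall fun v => ?_
        by_cases hv : v ∈ core c q
        · simp only [Set.indicator_of_mem hv]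
          exact hpt1 v hv
        · simp only [Set.indicator_of_notMem hv]
          exact h0 _
    have hlog : Real.log ((3 * c + β) / β) ≤ |Real.log (3 * c + 1)| + Real.log (1 / β) := by
      have e1 : (3 * c + β) / β = (3 * c + β) * (1 / β) := by ring
      rw [e1, Real.log_mul (by positivity) (by positivity)]
      have e2 : Real.log (3 * c + β) ≤ Real.log (3 * c + 1) :=
        Real.log_le_log (by positivity) (by linarith)
      have e3 := le_abs_self (Real.log (3 * c + 1))
      linarith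
    have habs : 0 ≤ |Real.log (3 * c + 1)| := abs_nonneg _
    calc (2 * c)⁻¹ * ∫ v in Set.Icc (-c) c, (core c q).indicator (fun v => ‖(zeta c b v + σ)⁻¹‖) v
        ≤ (2 * c)⁻¹ * (4 * (|Real.log (3 * c + 1)| + Real.log (1 / β))) := by
          refine mul_le_mul_of_nonneg_left ?_ (by positivity)
          refine hle.trans (hshift.trans ?_)
          rw [hall]
          linarith
      _ = (2 / c) * (|Real.log (3 * c + 1)| + Real.log (1 / β)) := by field_simp; norm_num
      _ ≤ (2 / c) * ((1 + |Real.log (3 * c + 1)|) * (1 + Real.log (1 / β))) := by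
          refine mul_le_mul_of_nonneg_left ?_ (by positivity)
          nlinarith [mul_nonneg habs hlogβ]
      _ ≤ ((2 / c) * (1 + |Real.log (3 * c + 1)|) + 1 / c) * (1 + Real.log (1 / β)) := by
          have : 0 ≤ 1 / c * (1 + Real.log (1 / β)) := by positivity
          linarith
  · have hpt2 : ∀ v ∈ Set.Icc (-c) c, (core c q).indicator (fun v => ‖(zeta c b v + σ)⁻¹‖) v ≤ 1 / c := by
      intro v hv
      by_cases hvc : v ∈ core c q
      · rw [Set.indicator_of_mem hvc]
        have h1 := core_sq_le hc hb hq (by linarith) hσ hvc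
        rw [← hβ, ← hs] at h1
        have h2 : c ≤ |v + s| := by
          have e1 : |s| ≤ |v + s| + |v| := by
            calc |s| = |(v + s) - v| := by ring_nf
              _ ≤ |v + s| + |v| := abs_sub _ _
          have e2 : |v| ≤ c := abs_le.2 hv
          linarith
        have h3 : c ≤ ‖zeta c b v + σ‖ := by
          refine abs_le_of_sq_le_sq' ?_ (norm_nonneg _) |>.2
          rw [← sq_abs (v + s)] at h1
          nlinarith [sq_nonneg β]
        rw [norm_inv, ← one_div]
        exact one_div_le_one_div_of_le hc h3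
      · rw [Set.indicator_of_notMem hvc]
        positivity
    have hle : ∫ v in Set.Icc (-c) c, (core c q).indicator (fun v => ‖(zeta c b v + σ)⁻¹‖) v ≤
        ∫ v in Set.Icc (-c) c, (1 / c : ℝ) := by
      refine integral_mono_of_nonneg ?_ (integrableOn_const (by simp)) ?_
      · exact Filter.Eventually.of_forall fun v => Set.indicator_nonneg (fun _ _ => by positivity) v
      · exact (ae_restrict_iff' measurableSet_Icc).2 (Filter.Eventually.of_forall hpt2)
    have hval : ∫ v in Set.Icc (-c) c, (1 / c : ℝ) = 2 := by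
      rw [setIntegral_const, Measure.real, Real.volume_Icc, ENNReal.toReal_ofReal (by linarith),
        smul_eq_mul]
      field_simp
      norm_num
    rw [hval] at hle
    have habs : 0 ≤ |Real.log (3 * c + 1)| := abs_nonneg _
    calc (2 * c)⁻¹ * ∫ v in Set.Icc (-c) c, (core c q).indicator (fun v => ‖(zeta c b v + σ)⁻¹‖) v
        ≤ (2 * c)⁻¹ * 2 := mul_le_mul_of_nonneg_left hle (by positivity)
      _ = 1 / c := by field_simp
      _ ≤ (1 / c) * (1 + Real.log (1 / β)) := by
          have : 0 ≤ 1 / c * Real.log (1 / β) := by positivity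
          linarith
      _ ≤ ((2 / c) * (1 + |Real.log (3 * c + 1)|) + 1 / c) * (1 + Real.log (1 / β)) := by
          have : 0 ≤ (2 / c) * (1 + |Real.log (3 * c + 1)|) * (1 + Real.log (1 / β)) := by positivity
          linarith

private theorem int_inv_sq {m c : ℝ} (hm : 0 < m) (hc : 0 < c) :
    ∫ u in (0 : ℝ)..(c / 2), ((m + 2 * u) ^ 2)⁻¹ = c / (2 * (m * (m + c))) := by
  have h1 : ∀ u ∈ Set.uIcc (0 : ℝ) (c / 2),
      HasDerivAt (fun u : ℝ => -(2 * (m + 2 * u))⁻¹) (((m + 2 * u) ^ 2)⁻¹) u := by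
    intro u hu
    rw [Set.uIcc_of_le (by positivity)] at hu
    have hpos : 0 < m + 2 * u := by linarith [hu.1]
    have h2 : HasDerivAt (fun u : ℝ => 2 * (m + 2 * u)) (2 * (2 * 1)) u :=
      (((hasDerivAt_id u).const_mul 2).const_add m).const_mul 2
    have h3 := (h2.inv (by positivity)).neg
    have h4 : -(-(2 * (2 * 1)) / (2 * (m + 2 * u)) ^ 2) = ((m + 2 * u) ^ 2)⁻¹ := by
      field_simp
    rw [h4] at h3
    exact h3
  have hcont : ContinuousOn (fun u : ℝ => ((m + 2 * u) ^ 2)⁻¹) (Set.uIcc (0 : ℝ) (c / 2)) := by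
    rw [Set.uIcc_of_le (by positivity)]
    refine ContinuousOn.inv₀ (by fun_prop) fun u hu => ?_
    have hpos : 0 < m + 2 * u := by linarith [hu.1]
    positivity
  rw [intervalIntegral.integral_eq_sub_of_hasDerivAt h1 hcont.intervalIntegrable]
  have : m + c ≠ 0 := by positivity
  have e1 : m + 2 * (c / 2) = m + c := by ring
  rw [e1]
  field_simp
  ring

theorem norm_g_le (hc : 0 < c) (hb : 0 < b) (hbc : b ≤ c / 2) (hq : 0 < q) (hq1 : q ≤ 1 / 2)
    (hσ : 0 < σ.im) {v : ℝ} (hv : v ∈ core c q) :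
    ‖(zeta c b v + σ)⁻¹‖ ≤ 8 * c * KI c b q σ + 1 / c := by
  set m := ‖zeta c b v + σ‖ with hm
  have hm0 : 0 < m := norm_pos_iff.2 (zeta_add_ne hb.le hσ v)
  have hKI0 : 0 ≤ KI c b q σ := KI_nonneg
  rw [norm_inv, ← hm]
  rcases lt_or_ge c m with hcm | hcm
  · have h1 : m⁻¹ ≤ 1 / c := by rw [← one_div]; exact one_div_le_one_div_of_le hc hcm.le
    have : 0 ≤ 8 * c * KI c b q σ := by positivity
    linarith
  -- the main case
  have hcont : Continuous fun x => ‖(zeta c b x + σ)⁻¹‖ ^ 2 := (continuous_g hb.le hσ).norm.pow 2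
  have hlow : ∀ x, ((m + 2 * |x - v|) ^ 2)⁻¹ ≤ ‖(zeta c b x + σ)⁻¹‖ ^ 2 := by
    intro x
    have h1 : ‖zeta c b x + σ‖ ≤ m + 2 * |x - v| := by
      have h2 : zeta c b x + σ = (zeta c b v + σ) + (zeta c b x - zeta c b v) := by ring
      rw [h2]
      exact (norm_add_le _ _).trans (add_le_add le_rfl (zeta_lip hc hb.le hbc x v))
    rw [norm_inv, inv_pow]
    have h3 : 0 < ‖zeta c b x + σ‖ := norm_pos_iff.2 (zeta_add_ne hb.le hσ x)
    exact inv_anti₀ (by positivity) (pow_le_pow_left₀ h3.le h1 2)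
  have hv' : |v| ≤ (1 - q) * c := hv
  have ha : c / 2 ≤ (1 - q) * c := by nlinarith
  -- an interval `[x₀, x₀ + c/2]` in the core on which the lower bound has integral `c/(2 m (m+c))`
  obtain ⟨x₀, hx₀, hval⟩ : ∃ x₀ : ℝ, Set.Icc x₀ (x₀ + c / 2) ⊆ core c q ∧
      ∫ x in x₀..(x₀ + c / 2), ((m + 2 * |x - v|) ^ 2)⁻¹ = c / (2 * (m * (m + c))) := by
    rcases le_total 0 v with h0 | h0
    · refine ⟨v - c / 2, ?_, ?_⟩
      · intro x hx
        rw [abs_of_nonneg h0] at hv'
        change |x| ≤ (1 - q) * c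
        rw [abs_le]
        constructor
        · linarith [hx.1]
        · linarith [hx.2]
      · rw [← int_inv_sq hm0 hc]
        have e1 := intervalIntegral.integral_comp_sub_left (a := 0) (b := c / 2)
          (fun x => ((m + 2 * |x - v|) ^ 2)⁻¹) v
        rw [sub_zero] at e1
        rw [sub_add_cancel, ← e1]
        refine intervalIntegral.integral_congr fun u hu => ?_
        rw [Set.uIcc_of_le (by positivity)] at hu
        rw [sub_sub_cancel_left, abs_neg, abs_of_nonneg hu.1]
    · refine ⟨v, ?_, ?_⟩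
      · intro x hx
        rw [abs_of_nonpos h0] at hv'
        change |x| ≤ (1 - q) * c
        rw [abs_le]
        constructor
        · linarith [hx.1]
        · linarith [hx.2]
      · rw [← int_inv_sq hm0 hc]
        have e1 := intervalIntegral.integral_comp_add_left (a := 0) (b := c / 2)
          (fun x => ((m + 2 * |x - v|) ^ 2)⁻¹) v
        rw [add_zero] at e1
        rw [← e1]
        refine intervalIntegral.integral_congr fun u hu => ?_
        rw [Set.uIcc_of_le (by positivity)] at hu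
        rw [add_sub_cancel_left, abs_of_nonneg hu.1]
  have hcore : Set.Icc x₀ (x₀ + c / 2) ⊆ Set.Icc (-c) c := hx₀.trans (core_subset hc hq.le)
  have hKI : (2 * c)⁻¹ * (c / (2 * (m * (m + c)))) ≤ KI c b q σ := by
    unfold KI
    rw [integral_unif hc, smul_eq_mul]
    refine mul_le_mul_of_nonneg_left ?_ (by positivity)
    rw [← hval, intervalIntegral.integral_of_le (by linarith), ← integral_Icc_eq_integral_Ioc]
    have hi1 : IntegrableOn (fun x => ‖(zeta c b x + σ)⁻¹‖ ^ 2) (Set.Icc (-c) c) :=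
      hcont.integrableOn_Icc
    have hi2 : IntegrableOn ((core c q).indicator fun x => ‖(zeta c b x + σ)⁻¹‖ ^ 2)
        (Set.Icc (-c) c) := hi1.indicator (measurableSet_core c q)
    refine le_trans ?_ (setIntegral_mono_set hi2 ?_ hcore.eventuallyLE)
    · refine integral_mono_of_nonneg ?_ (hi2.mono_set hcore) ?_
      · exact Filter.Eventually.of_forall fun x => by positivity
      · refine (ae_restrict_iff' measurableSet_Icc).2 (Filter.Eventually.of_forall fun x hx => ?_)
        simp only [Set.indicator_of_mem (hx₀ hx)]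
        exact hlow x
    · exact Filter.Eventually.of_forall fun x => Set.indicator_nonneg (fun _ _ => by positivity) x
  have h1 : m⁻¹ ≤ 8 * c * ((2 * c)⁻¹ * (c / (2 * (m * (m + c))))) := by
    have e1 : 8 * c * ((2 * c)⁻¹ * (c / (2 * (m * (m + c))))) = (2 * c) / (m * (m + c)) := by
      field_simp
      norm_num
    rw [e1, ← one_div, div_le_div_iff₀ hm0 (by positivity)]
    nlinarith
  have h2 : 8 * c * ((2 * c)⁻¹ * (c / (2 * (m * (m + c))))) ≤ 8 * c * KI c b q σ :=
    mul_le_mul_of_nonneg_left hKI (by positivity)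
  have h3 : 0 ≤ 1 / c := by positivity
  linarith

end

end Pool.Agent.Lib.MP_562b47_mp.Str
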