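import Pool.Agent.Lib.MP_562b47_mp.Str.Scal1
import Pool.Agent.Lib.MP_562b47_mp.Str.Cells

/-!
Module STR-Scal2 (MP_562b47_mp, strips).  One-dimensional lower bound of the cell variance of
`g v = (zeta c b v + σ)⁻¹`.

PROOF of `KI_four`: `∫ 1_core |g|⁴ ≥ c3 KI² (1 + KI)`.
* `KI² ≤ ∫ 1_core |g|⁴` by Cauchy–Schwarz (probability measure).
* Let `m0 = |ζ(v0)+σ|` be the minimum over the (compact) core.  Upper bound
  `KI ≤ (1/2c) ∫_ℝ min(1/m0², 1/(v+Re σ)²) dv = 2/(c m0)`.  Lower bound (as in `norm_g_le`):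
  `∫ 1_core |g|⁴ ≥ (1/2c)∫_0^{c/2} du/(m0+2u)⁴ = (1/(12c)) (1/m0³ - 1/(m0+c)³)`.
  If `m0 ≤ c`: `(m0+c)³ ≥ 8 m0³`, so `≥ (7/(96 c)) / m0³ ≥ (7/(96c)) (c KI/2)³ = (7c²/768) KI³`.
  If `m0 > c`: `KI ≤ 2/c²`, so `KI³ ≤ (2/c²) KI² ≤ (2/c²) ∫ 1_core|g|⁴`.
  In both cases `∫ 1_core |g|⁴ ≥ (7c²/768) KI³`.  So `c3 = min(1, 7c²/768)/2` works.
PROOF of `var_lower`.  `t = tt c q m`, `c1 = 1/(2 max(8c, 1/c))`.  If `t (1+KI) ≤ c1` then on the core
`2 t |g v| ≤ 2 t (8 c KI + 1/c) ≤ 1` (`norm_g_le`).  For `u, v` in one cell: by `g_sub`, `sub_le_zeta`: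
`|g u - g v|² ≥ |u-v|² |g u|² |g v|²`, and `|1/g v - 1/g u| = |ζ v - ζ u| ≤ 2t` gives
`|g v| ≥ |g u| / (1 + 2t|g u|) ≥ |g u|/2` for all `u v` in the cell.  Hence with `g_* = inf`, `g^* = sup`
of `|g|` over the cell, `g^* ≤ 2 g_*`, `|g u|²|g v|² ≥ g_*⁴ ≥ (g^*)⁴/16 ≥ |g w|⁴/16` for all `u v w`
in the cell.  Then by `av1_var`
`∫ ‖g - av1 g‖² = ∑_j (c/t) ∫∫_{cel²} |g u - g v|² ≥ ∑_j (c/t)(1/16) sup_cel|g|⁴ ∫∫_{cel²} |u-v|²`,
`∫∫_{cel²} |u-v|² dunif dunif = (1/(2c))² t⁴/6`, so the `j`th term is at least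
`(1/16) (t³/(24 c)) sup|g|⁴ ≥ (t²/(192)) ∫_cel |g|⁴` (`unif (cel j) = t/(2c)`).  Sum over `j`:
`≥ (t²/192) ∫ 1_core |g|⁴ ≥ (t²/192) c3 KI² (1+KI)`: `c2 = c3/192`.
-/

open MeasureTheory Matrix Complex

namespace Pool.Agent.Lib.MP_562b47_mp.Str

private theorem Scal2_bm {c b : ℝ} {σ : ℂ} (hb : 0 ≤ b) (hσ : 0 < σ.im) :
    BMeas fun v => (zeta c b v + σ)⁻¹ :=
  BMeas.of_continuous (continuous_g hb hσ) (norm_g_le_im hb hσ)

private theorem Scal2_core (c q : ℝ) :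
    core c q = Set.Icc (-((1 - q) * c)) ((1 - q) * c) := by
  ext v
  rw [Set.mem_Icc, ← abs_le]
  rfl

private theorem Scal2_Icc {c x r : ℝ} (hc : 0 < c) (hx : -c ≤ x) (hr : 0 ≤ r) (hxr : x + r ≤ c) :
    (unif c).real (Set.Icc x (x + r)) = r / (2 * c) := by
  have h1 : Set.Icc x (x + r) ∩ Set.Icc (-c) c = Set.Icc x (x + r) :=
    Set.inter_eq_left.2 (Set.Icc_subset_Icc hx hxr)
  unfold unif Measure.real
  rw [Measure.smul_apply, Measure.restrict_apply measurableSet_Icc, h1, Real.volume_Icc,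
    smul_eq_mul, ENNReal.toReal_mul, ENNReal.toReal_inv, ENNReal.toReal_ofReal (by positivity),
    ENNReal.toReal_ofReal (by linarith)]
  field_simp
  ring

/-- Cauchy-Schwarz on a probability space -/
private theorem Scal2_cs {μ : Measure ℝ} [IsProbabilityMeasure μ] {f : ℝ → ℝ} (hf : BMeas f) :
    (∫ v, f v ∂μ) ^ 2 ≤ ∫ v, f v ^ 2 ∂μ := by
  have h1 : Integrable f μ := hf.integrable μ
  have h2 : Integrable (fun v => f v ^ 2) μ := by
    have := (hf.mul hf).integrable μ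
    simpa [sq] using this
  have h3 : 0 ≤ ∫ v, (f v - ∫ w, f w ∂μ) ^ 2 ∂μ := integral_nonneg fun v => sq_nonneg _
  have h4 : ∫ v, (f v - ∫ w, f w ∂μ) ^ 2 ∂μ = ∫ v, f v ^ 2 ∂μ - (∫ v, f v ∂μ) ^ 2 := by
    have e : (fun v => (f v - ∫ w, f w ∂μ) ^ 2)
        = fun v => (f v ^ 2 - 2 * (∫ w, f w ∂μ) * f v) + (∫ w, f w ∂μ) ^ 2 := by
      funext v; ring
    have e1 : Integrable (fun v => 2 * (∫ w, f w ∂μ) * f v) μ := h1.const_mul _
    have e2 : Integrable (fun v => f v ^ 2 - 2 * (∫ w, f w ∂μ) * f v) μ := h2.sub e1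
    rw [e, integral_add e2 (integrable_const _), integral_sub h2 e1, integral_const_mul,
      integral_const]
    simp
    ring
  linarith

/-- upper bound of `KI` by the maximum of `g` -/
private theorem Scal2_KI_le {c b q M : ℝ} {σ : ℂ} (hc : 0 < c) (hb : 0 ≤ b) (hσ : 0 < σ.im)
    (hM : 0 < M) (h : ∀ v ∈ core c q, ‖(zeta c b v + σ)⁻¹‖ ≤ M) :
    KI c b q σ ≤ Real.pi * M / c := by
  have hprob := isProb_unif hc
  set F : ℝ → ℝ := fun v => 2 * M ^ 2 * (1 + (M * (v + σ.re)) ^ 2)⁻¹ with hF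
  have hF0 : ∀ v, 0 ≤ F v := fun v => by positivity
  have hint : Integrable F := by
    have h1 : Integrable (fun x : ℝ => (1 + x ^ 2)⁻¹) := integrable_inv_one_add_sq
    have h2 : Integrable (fun x : ℝ => (1 + (M * x) ^ 2)⁻¹) := h1.comp_mul_left' hM.ne'
    have h3 : Integrable (fun x : ℝ => (1 + (M * (x + σ.re)) ^ 2)⁻¹) := h2.comp_add_right σ.re
    exact h3.const_mul _
  have hval : ∫ v, F v = 2 * M * Real.pi := by
    have h1 : ∫ x : ℝ, (1 + (M * (x + σ.re)) ^ 2)⁻¹ = ∫ x : ℝ, (1 + (M * x) ^ 2)⁻¹ :=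
      integral_add_right_eq_self (fun x : ℝ => (1 + (M * x) ^ 2)⁻¹) σ.re
    have h2 : ∫ x : ℝ, (1 + (M * x) ^ 2)⁻¹ = |M⁻¹| • ∫ x : ℝ, (1 + x ^ 2)⁻¹ :=
      Measure.integral_comp_mul_left (fun x : ℝ => (1 + x ^ 2)⁻¹) M
    rw [hF]
    rw [integral_const_mul, h1, h2, integral_univ_inv_one_add_sq, abs_of_pos (by positivity),
      smul_eq_mul]
    field_simp
  have hle : ∀ v, (core c q).indicator (fun v => ‖(zeta c b v + σ)⁻¹‖ ^ 2) v ≤ F v := by
    intro v
    by_cases hv : v ∈ core c q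
    · rw [Set.indicator_of_mem hv]
      have hne := zeta_add_ne (c := c) hb hσ v
      have h1 : 0 < ‖zeta c b v + σ‖ := norm_pos_iff.2 hne
      have h2 : |v + σ.re| ≤ ‖zeta c b v + σ‖ := by
        have := Complex.abs_re_le_norm (zeta c b v + σ)
        have e : (zeta c b v + σ).re = v + σ.re := by
          simp [zeta]
        rwa [e] at this
      have h3 : (v + σ.re) ^ 2 ≤ ‖zeta c b v + σ‖ ^ 2 := by
        rw [← sq_abs]; gcongr
      have h4 := h v hv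
      rw [norm_inv] at h4 ⊢
      have h5 : 1 ≤ M * ‖zeta c b v + σ‖ := by
        rwa [inv_le_iff_one_le_mul₀ h1] at h4
      rw [hF]
      simp only
      rw [inv_pow, inv_eq_one_div, ← div_eq_mul_inv, div_le_div_iff₀ (by positivity) (by positivity)]
      have h6 : 1 ≤ (M * ‖zeta c b v + σ‖) ^ 2 := one_le_pow₀ h5
      have h7 : M ^ 2 * (v + σ.re) ^ 2 ≤ M ^ 2 * ‖zeta c b v + σ‖ ^ 2 := by gcongr
      nlinarith
    · rw [Set.indicator_of_notMem hv]
      exact hF0 v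
  have h1 : KI c b q σ ≤ (2 * c)⁻¹ * ∫ v, F v := by
    unfold KI
    rw [integral_unif hc, smul_eq_mul]
    refine mul_le_mul_of_nonneg_left ?_ (by positivity)
    have h2 : ∫ v in Set.Icc (-c) c, (core c q).indicator (fun v => ‖(zeta c b v + σ)⁻¹‖ ^ 2) v
        ≤ ∫ v in Set.Icc (-c) c, F v := by
      refine setIntegral_mono_on ?_ hint.integrableOn measurableSet_Icc fun v _ => hle v
      refine Integrable.indicator ?_ (measurableSet_core c q)
      have := (continuous_g (c := c) hb hσ).norm.pow 2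
      exact this.continuousOn.integrableOn_Icc
    exact h2.trans (setIntegral_le_integral hint (Filter.Eventually.of_forall hF0))
  rw [hval] at h1
  refine h1.trans (le_of_eq ?_)
  field_simp

private theorem Scal2_bm4 {c b : ℝ} {σ : ℂ} (q : ℝ) (hb : 0 ≤ b) (hσ : 0 < σ.im) :
    BMeas ((core c q).indicator fun v => ‖(zeta c b v + σ)⁻¹‖ ^ 4) := by
  have h1 := (Scal2_bm (c := c) hb hσ).norm_sq
  have h2 := h1.mul h1
  have h3 : BMeas fun v => ‖(zeta c b v + σ)⁻¹‖ ^ 4 := by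
    have e : (fun v => ‖(zeta c b v + σ)⁻¹‖ ^ 4)
        = fun v => ‖(zeta c b v + σ)⁻¹‖ ^ 2 * ‖(zeta c b v + σ)⁻¹‖ ^ 2 := by
      funext v; ring
    rw [e]; exact h2
  exact h3.indicator (measurableSet_core c q)

private theorem Scal2_lower {c b q r : ℝ} {σ : ℂ} (hc : 0 < c) (hb : 0 < b) (hbc : b ≤ c / 2)
    (hq : 0 < q) (hq1 : q ≤ 1 / 2) (hσ : 0 < σ.im) {v0 : ℝ} (hv0 : v0 ∈ core c q) (hr : 0 ≤ r)
    (hrc : r ≤ c / 2) (hrm : r ≤ ‖zeta c b v0 + σ‖ / 2) :
    r / (2 * c) * (1 / (16 * ‖zeta c b v0 + σ‖ ^ 4))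
      ≤ ∫ v, (core c q).indicator (fun v => ‖(zeta c b v + σ)⁻¹‖ ^ 4) v ∂(unif c) := by
  have hprob := isProb_unif hc
  have hm0 : 0 < ‖zeta c b v0 + σ‖ := norm_pos_iff.2 (zeta_add_ne hb.le hσ v0)
  have hv0' := hv0
  rw [Scal2_core] at hv0'
  obtain ⟨x, hx1, hx2, hx3⟩ : ∃ x : ℝ, -((1 - q) * c) ≤ x ∧ x + r ≤ (1 - q) * c ∧
      ∀ v ∈ Set.Icc x (x + r), |v - v0| ≤ r := by
    rcases le_or_gt 0 v0 with h | h
    · refine ⟨v0 - r, by nlinarith [hv0'.1, hv0'.2], by linarith [hv0'.2], fun v hv => ?_⟩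
      rw [abs_le]; constructor <;> linarith [hv.1, hv.2]
    · refine ⟨v0, hv0'.1, by nlinarith [hv0'.1, hv0'.2], fun v hv => ?_⟩
      rw [abs_le]; constructor <;> linarith [hv.1, hv.2]
  have hqc : (1 - q) * c ≤ c := by nlinarith
  have hI := Scal2_Icc (r := r) hc (x := x) (by linarith) hr (by linarith)
  have hsub : Set.Icc x (x + r) ⊆ core c q := by
    rw [Scal2_core]; exact Set.Icc_subset_Icc hx1 hx2
  rw [← hI, ← smul_eq_mul, ← integral_indicator_const _ measurableSet_Icc]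
  refine integral_mono ?_ ((Scal2_bm4 q hb.le hσ).integrable _) ?_
  · exact (integrable_const _).indicator measurableSet_Icc
  · intro v
    by_cases hv : v ∈ Set.Icc x (x + r)
    · simp only
      rw [Set.indicator_of_mem hv, Set.indicator_of_mem (hsub hv)]
      have h1 : ‖zeta c b v + σ‖ ≤ 2 * ‖zeta c b v0 + σ‖ := by
        have h2 := zeta_lip hc hb.le hbc v v0
        have h3 := hx3 v hv
        have h4 : zeta c b v + σ = (zeta c b v0 + σ) + (zeta c b v - zeta c b v0) := by ring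
        rw [h4]
        refine (norm_add_le _ _).trans ?_
        linarith
      have hpos : 0 < ‖zeta c b v + σ‖ := norm_pos_iff.2 (zeta_add_ne hb.le hσ v)
      rw [norm_inv, inv_pow, one_div]
      refine inv_anti₀ (by positivity) ?_
      calc ‖zeta c b v + σ‖ ^ 4 ≤ (2 * ‖zeta c b v0 + σ‖) ^ 4 := by gcongr
        _ = 16 * ‖zeta c b v0 + σ‖ ^ 4 := by ring
    · simp only
      rw [Set.indicator_of_notMem hv]
      exact Set.indicator_nonneg (fun _ _ => by positivity) _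

theorem KI_four {c : ℝ} (hc : 0 < c) : ∃ c3 : ℝ, 0 < c3 ∧ ∀ (b q : ℝ) (σ : ℂ), 0 < b →
    b ≤ c / 2 → 0 < q → q ≤ 1 / 2 → 0 < σ.im →
    c3 * (1 + KI c b q σ) * KI c b q σ ^ 2
      ≤ ∫ v, (core c q).indicator (fun v => ‖(zeta c b v + σ)⁻¹‖ ^ 4) v ∂(unif c) := by
  have hprob := isProb_unif hc
  have hpi := Real.pi_pos
  have hpi3 : (3 : ℝ) < Real.pi := Real.pi_gt_three
  obtain ⟨c4, hc4⟩ : ∃ c4 : ℝ, c4 = min 1 (c ^ 2 / (64 * Real.pi ^ 3)) := ⟨_, rfl⟩
  have hc4pos : 0 < c4 := by rw [hc4]; positivity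
  have hc41 : c4 ≤ 1 := by rw [hc4]; exact min_le_left _ _
  have hc42 : c4 ≤ c ^ 2 / (64 * Real.pi ^ 3) := by rw [hc4]; exact min_le_right _ _
  refine ⟨c4 / 2, by positivity, fun b q σ hb hbc hq hq1 hσ => ?_⟩
  set J := ∫ v, (core c q).indicator (fun v => ‖(zeta c b v + σ)⁻¹‖ ^ 4) v ∂(unif c) with hJ
  have hKI0 : 0 ≤ KI c b q σ := KI_nonneg
  -- Cauchy-Schwarz
  have h1 : KI c b q σ ^ 2 ≤ J := by
    have hf : BMeas ((core c q).indicator fun v => ‖(zeta c b v + σ)⁻¹‖ ^ 2) :=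
      ((Scal2_bm (c := c) hb.le hσ).norm_sq).indicator (measurableSet_core c q)
    have h := Scal2_cs (μ := unif c) hf
    have e : (fun v => (core c q).indicator (fun v => ‖(zeta c b v + σ)⁻¹‖ ^ 2) v ^ 2)
        = fun v => (core c q).indicator (fun v => ‖(zeta c b v + σ)⁻¹‖ ^ 4) v := by
      funext v
      by_cases hv : v ∈ core c q
      · rw [Set.indicator_of_mem hv, Set.indicator_of_mem hv]; ring
      · rw [Set.indicator_of_notMem hv, Set.indicator_of_notMem hv]; ring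
    rw [e] at h
    exact h
  -- the maximum of `g`
  have hcomp : IsCompact (core c q) := by rw [Scal2_core]; exact isCompact_Icc
  have hne : (core c q).Nonempty := ⟨0, by rw [Scal2_core]; constructor <;> nlinarith⟩
  obtain ⟨v0, hv0, hmax⟩ := hcomp.exists_isMaxOn hne
    (continuous_g (c := c) hb.le hσ).norm.continuousOn
  have hm0 : 0 < ‖zeta c b v0 + σ‖ := norm_pos_iff.2 (zeta_add_ne hb.le hσ v0)
  obtain ⟨M, hM⟩ : ∃ M, M = ‖(zeta c b v0 + σ)⁻¹‖ := ⟨_, rfl⟩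
  have hMpos : 0 < M := by rw [hM, norm_inv]; positivity
  have hMm : ‖zeta c b v0 + σ‖ = M⁻¹ := by rw [hM, norm_inv, inv_inv]
  have h2 : KI c b q σ ≤ Real.pi * M / c :=
    Scal2_KI_le hc hb.le hσ hMpos fun v hv => by rw [hM]; exact hmax hv
  have h3 : c4 * KI c b q σ ^ 3 ≤ J := by
    rcases le_or_gt (M⁻¹) c with h | h
    · have h4 := Scal2_lower (r := M⁻¹ / 2) hc hb hbc hq hq1 hσ hv0 (by positivity) (by linarith)
        (by rw [hMm])
      rw [hMm, ← hJ] at h4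
      have e : M⁻¹ / 2 / (2 * c) * (1 / (16 * M⁻¹ ^ 4)) = M ^ 3 / (64 * c) := by
        field_simp
        ring
      rw [e] at h4
      refine le_trans ?_ h4
      calc c4 * KI c b q σ ^ 3 ≤ c ^ 2 / (64 * Real.pi ^ 3) * (Real.pi * M / c) ^ 3 := by
            gcongr
        _ = M ^ 3 / (64 * c) := by
            field_simp
    · have h4 : M ≤ c⁻¹ := by
        rw [← inv_inv M]; exact inv_anti₀ hc h.le
      have h5 : KI c b q σ ≤ Real.pi / c ^ 2 := by
        refine h2.trans ?_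
        calc Real.pi * M / c ≤ Real.pi * c⁻¹ / c := by gcongr
          _ = Real.pi / c ^ 2 := by field_simp
      calc c4 * KI c b q σ ^ 3 = (c4 * KI c b q σ) * KI c b q σ ^ 2 := by ring
        _ ≤ (c ^ 2 / (64 * Real.pi ^ 3) * (Real.pi / c ^ 2)) * KI c b q σ ^ 2 := by gcongr
        _ = 1 / (64 * Real.pi ^ 2) * KI c b q σ ^ 2 := by field_simp
        _ ≤ 1 * KI c b q σ ^ 2 := by
            gcongr
            rw [div_le_one (by positivity)]
            nlinarith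
        _ ≤ J := by rw [one_mul]; exact h1
  have h4 : c4 * KI c b q σ ^ 2 ≤ J := by
    calc c4 * KI c b q σ ^ 2 ≤ 1 * KI c b q σ ^ 2 := by gcongr
      _ ≤ J := by rw [one_mul]; exact h1
  calc c4 / 2 * (1 + KI c b q σ) * KI c b q σ ^ 2
      = (c4 * KI c b q σ ^ 2 + c4 * KI c b q σ ^ 3) / 2 := by ring
    _ ≤ J := by linarith

private theorem Scal2_mc {c q : ℝ} {m j : ℕ} : MeasurableSet (cel c q m j) := measurableSet_Ico

/-- the integral of `|g|⁴` is the sum over the cells -/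
private theorem Scal2_sum {c b q : ℝ} {σ : ℂ} {m : ℕ} (hc : 0 < c) (hb : 0 ≤ b) (hq1 : q < 1)
    (hσ : 0 < σ.im) (hm : 1 ≤ m) :
    ∫ v, (core c q).indicator (fun v => ‖(zeta c b v + σ)⁻¹‖ ^ 4) v ∂(unif c)
      = ∑ j ∈ Finset.range m,
        ∫ v, (cel c q m j).indicator (fun v => ‖(zeta c b v + σ)⁻¹‖ ^ 4) v ∂(unif c) := by
  have hprob := isProb_unif hc
  have hbm : BMeas fun v => ‖(zeta c b v + σ)⁻¹‖ ^ 4 := by
    have h1 := (Scal2_bm (c := c) hb hσ).norm_sq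
    have h2 := h1.mul h1
    have e : (fun v => ‖(zeta c b v + σ)⁻¹‖ ^ 4)
        = fun v => ‖(zeta c b v + σ)⁻¹‖ ^ 2 * ‖(zeta c b v + σ)⁻¹‖ ^ 2 := by
      funext v; ring
    rw [e]; exact h2
  rw [← integral_finsetSum _ fun j _ => (hbm.indicator Scal2_mc).integrable _]
  refine integral_congr_ae ?_
  have h1 := indicator_ae_eq_of_ae_eq_set (f := fun v => ‖(zeta c b v + σ)⁻¹‖ ^ 4)
    (core_ae (q := q) hc)
  refine h1.trans (Filter.Eventually.of_forall fun v => ?_)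
  rw [core'_eq hc hq1 hm]
  exact Finset.indicator_biUnion_apply (Finset.range m) (fun j => cel c q m j)
    (f := fun v => ‖(zeta c b v + σ)⁻¹‖ ^ 4)
    (fun i _ j _ hij => cel_disj hc hq1 hm hij) v

private theorem Scal2_half {c b : ℝ} {σ : ℂ} {u v t : ℝ} (hc : 0 < c) (hb : 0 ≤ b)
    (hbc : b ≤ c / 2) (hσ : 0 < σ.im) (huv : |u - v| ≤ t)
    (hu : 2 * t * ‖(zeta c b u + σ)⁻¹‖ ≤ 1) :
    ‖(zeta c b u + σ)⁻¹‖ / 2 ≤ ‖(zeta c b v + σ)⁻¹‖ := by
  have hu0 : 0 < ‖zeta c b u + σ‖ := norm_pos_iff.2 (zeta_add_ne hb hσ u)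
  have hv0 : 0 < ‖zeta c b v + σ‖ := norm_pos_iff.2 (zeta_add_ne hb hσ v)
  rw [norm_inv] at hu ⊢
  rw [norm_inv]
  have h1 : 2 * t ≤ ‖zeta c b u + σ‖ := by
    rw [← div_eq_mul_inv, div_le_one hu0] at hu
    exact hu
  have h2 := zeta_lip hc hb hbc v u
  have h3 : ‖zeta c b v + σ‖ ≤ 2 * ‖zeta c b u + σ‖ := by
    have e : zeta c b v + σ = (zeta c b u + σ) + (zeta c b v - zeta c b u) := by ring
    rw [e]
    refine (norm_add_le _ _).trans ?_
    rw [abs_sub_comm] at huv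
    linarith
  rw [inv_eq_one_div, div_div, inv_eq_one_div, div_le_div_iff₀ (by positivity) hv0]
  linarith

private theorem Scal2_cell {c b q : ℝ} {σ : ℂ} {m j : ℕ} (hc : 0 < c) (hb : 0 < b)
    (hbc : b ≤ c / 2) (hq : 0 < q) (hq1 : q ≤ 1 / 2) (hσ : 0 < σ.im) (hm : 1 ≤ m) (hj : j < m)
    (hs : ∀ u ∈ core c q, 2 * tt c q m * ‖(zeta c b u + σ)⁻¹‖ ≤ 1) :
    tt c q m ^ 2 / 8192
        * ∫ v, (cel c q m j).indicator (fun v => ‖(zeta c b v + σ)⁻¹‖ ^ 4) v ∂(unif c)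
      ≤ (c / tt c q m) * ∫ u, ∫ v,
          (cel c q m j).indicator (fun _ => (cel c q m j).indicator
            (fun _ => ‖(zeta c b u + σ)⁻¹ - (zeta c b v + σ)⁻¹‖ ^ 2) v) u
            ∂(unif c) ∂(unif c) := by
  have hprob := isProb_unif hc
  have hq1' : q < 1 := by linarith
  obtain ⟨t, ht⟩ : ∃ t, t = tt c q m := ⟨_, rfl⟩
  have htpos : 0 < t := by rw [ht]; exact tt_pos hc hq1' hm
  obtain ⟨x, hx⟩ : ∃ x, x = -((1 - q) * c) + j * tt c q m := ⟨_, rfl⟩
  have hmt : (m : ℝ) * t = 2 * ((1 - q) * c) := by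
    rw [ht]; unfold tt
    have : (m : ℝ) ≠ 0 := by
      have : (1 : ℝ) ≤ m := by exact_mod_cast hm
      positivity
    field_simp
  have hjm : ((j : ℝ) + 1) ≤ m := by exact_mod_cast hj
  have hx0 : -((1 - q) * c) ≤ x := by
    rw [hx, ← ht]
    have : 0 ≤ (j : ℝ) * t := by positivity
    linarith
  have hx1 : x + t ≤ (1 - q) * c := by
    rw [hx, ← ht]
    have : ((j : ℝ) + 1) * t ≤ m * t := by gcongr
    nlinarith
  have hqc : (1 - q) * c ≤ c := by nlinarith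
  have hcel : cel c q m j = Set.Ico x (x + t) := by
    unfold cel
    rw [hx, ← ht]
    congr 1
    ring
  set G : ℝ → ℂ := fun v => (zeta c b v + σ)⁻¹ with hG
  have hGb : BMeas G := Scal2_bm hb.le hσ
  have hcc : ∀ u ∈ cel c q m j, u ∈ core c q := fun u hu =>
    core'_subset_core (cel_subset hc hq1' hj hu)
  -- the double integral
  set H : ℝ × ℝ → ℝ := (cel c q m j ×ˢ cel c q m j).indicator fun p => ‖G p.1 - G p.2‖ ^ 2 with hH
  have hHb : BMeas H :=
    (((hGb.comp measurable_fst).sub (hGb.comp measurable_snd)).norm_sq).indicator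
      (Scal2_mc.prod Scal2_mc)
  have hHe : ∀ u v, (cel c q m j).indicator (fun _ => (cel c q m j).indicator
            (fun _ => ‖G u - G v‖ ^ 2) v) u = H (u, v) := by
    intro u v
    rw [hH]
    by_cases hu : u ∈ cel c q m j
    · by_cases hv : v ∈ cel c q m j
      · rw [Set.indicator_of_mem hu, Set.indicator_of_mem hv,
          Set.indicator_of_mem (Set.mk_mem_prod hu hv)]
      · rw [Set.indicator_of_mem hu, Set.indicator_of_notMem hv,
          Set.indicator_of_notMem (fun h => hv h.2)]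
    · rw [Set.indicator_of_notMem hu, Set.indicator_of_notMem (fun h => hu h.1)]
  have hJe : ∫ u, ∫ v,
          (cel c q m j).indicator (fun _ => (cel c q m j).indicator
            (fun _ => ‖(zeta c b u + σ)⁻¹ - (zeta c b v + σ)⁻¹‖ ^ 2) v) u
            ∂(unif c) ∂(unif c) = ∫ u, ∫ v, H (u, v) ∂(unif c) ∂(unif c) := by
    refine integral_congr_ae (Filter.Eventually.of_forall fun u => ?_)
    refine integral_congr_ae (Filter.Eventually.of_forall fun v => ?_)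
    exact hHe u v
  rw [hJe]
  obtain ⟨JJ, hJJ⟩ : ∃ JJ, JJ = ∫ u, ∫ v, H (u, v) ∂(unif c) ∂(unif c) := ⟨_, rfl⟩
  rw [← hJJ]
  have hA1 := Scal2_Icc (x := x) (r := t / 4) hc (by linarith) (by positivity) (by linarith)
  have hA2 := Scal2_Icc (x := x + t / 2) (r := t / 4) hc (by linarith) (by positivity)
    (by linarith)
  have hlow : ∀ w ∈ cel c q m j, t ^ 4 / (16384 * c ^ 2) * ‖G w‖ ^ 4 ≤ JJ := by
    intro w hw
    set κ : ℝ := (t / 4) ^ 2 * (‖G w‖ ^ 4 / 16) with hκ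
    have hκ0 : 0 ≤ κ := by positivity
    have hpt : ∀ u v, (Set.Icc x (x + t / 4)).indicator (fun _ =>
        (Set.Icc (x + t / 2) (x + t / 2 + t / 4)).indicator (fun _ => κ) v) u ≤ H (u, v) := by
      intro u v
      have hH0 : 0 ≤ H (u, v) := Set.indicator_nonneg (fun _ _ => by positivity) _
      by_cases hu : u ∈ Set.Icc x (x + t / 4)
      · by_cases hv : v ∈ Set.Icc (x + t / 2) (x + t / 2 + t / 4)
        · have hu' : u ∈ cel c q m j := by
            rw [hcel]; exact ⟨hu.1, by linarith [hu.2]⟩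
          have hv' : v ∈ cel c q m j := by
            rw [hcel]; exact ⟨by linarith [hv.1], by linarith [hv.2]⟩
          rw [Set.indicator_of_mem hu, Set.indicator_of_mem hv, hH,
            Set.indicator_of_mem (Set.mk_mem_prod hu' hv')]
          simp only
          have h1 : ‖G w‖ / 2 ≤ ‖G u‖ :=
            Scal2_half hc hb.le hbc hσ (abs_sub_le_of_cel hw hu') (hs w (hcc w hw))
          have h2 : ‖G w‖ / 2 ≤ ‖G v‖ :=
            Scal2_half hc hb.le hbc hσ (abs_sub_le_of_cel hw hv') (hs w (hcc w hw))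
          have h3 : ‖G u - G v‖ = ‖zeta c b v - zeta c b u‖ * (‖G u‖ * ‖G v‖) := by
            rw [hG]
            simp only
            rw [g_sub hb.le hσ u v, norm_mul, norm_mul]
          have h4 : t / 4 ≤ ‖zeta c b v - zeta c b u‖ := by
            refine le_trans ?_ (sub_le_zeta v u)
            rw [le_abs]; left
            linarith [hu.2, hv.1]
          rw [h3, hκ]
          calc (t / 4) ^ 2 * (‖G w‖ ^ 4 / 16)
              = (t / 4 * (‖G w‖ / 2 * (‖G w‖ / 2))) ^ 2 := by ring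
            _ ≤ (‖zeta c b v - zeta c b u‖ * (‖G u‖ * ‖G v‖)) ^ 2 := by gcongr
        · rw [Set.indicator_of_mem hu, Set.indicator_of_notMem hv]; exact hH0
      · rw [Set.indicator_of_notMem hu]; exact hH0
    have hin : ∀ u, (Set.Icc x (x + t / 4)).indicator (fun _ => t / 4 / (2 * c) * κ) u
        ≤ ∫ v, H (u, v) ∂(unif c) := by
      intro u
      have e : (Set.Icc x (x + t / 4)).indicator (fun _ => t / 4 / (2 * c) * κ) u
          = ∫ v, (Set.Icc x (x + t / 4)).indicator (fun _ =>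
        (Set.Icc (x + t / 2) (x + t / 2 + t / 4)).indicator (fun _ => κ) v) u ∂(unif c) := by
        by_cases hu : u ∈ Set.Icc x (x + t / 4)
        · simp only [Set.indicator_of_mem hu]
          rw [integral_indicator_const _ measurableSet_Icc, hA2, smul_eq_mul]
        · simp only [Set.indicator_of_notMem hu]
          simp
      rw [e]
      refine integral_mono ?_ ((hHb.comp (measurable_const.prodMk measurable_id)).integrable _)
        (hpt u)
      by_cases hu : u ∈ Set.Icc x (x + t / 4)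
      · simp only [Set.indicator_of_mem hu]
        exact (integrable_const _).indicator measurableSet_Icc
      · simp only [Set.indicator_of_notMem hu]
        exact integrable_const _
    have hout : t / 4 / (2 * c) * (t / 4 / (2 * c) * κ) ≤ JJ := by
      rw [hJJ]
      have e : t / 4 / (2 * c) * (t / 4 / (2 * c) * κ)
          = ∫ u, (Set.Icc x (x + t / 4)).indicator (fun _ => t / 4 / (2 * c) * κ) u ∂(unif c) := by
        rw [integral_indicator_const _ measurableSet_Icc, hA1, smul_eq_mul]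
      rw [e]
      exact integral_mono ((integrable_const _).indicator measurableSet_Icc)
        ((hHb.integral (unif c)).integrable _) hin
    refine le_trans (le_of_eq ?_) hout
    rw [hκ]
    field_simp
    ring
  -- integrate over `w`
  have hfin : ∫ v, (cel c q m j).indicator (fun v => ‖(zeta c b v + σ)⁻¹‖ ^ 4) v ∂(unif c)
      ≤ t / (2 * c) * (16384 * c ^ 2 / t ^ 4 * JJ) := by
    have e : t / (2 * c) * (16384 * c ^ 2 / t ^ 4 * JJ)
        = ∫ v, (cel c q m j).indicator (fun _ => 16384 * c ^ 2 / t ^ 4 * JJ) v ∂(unif c) := by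
      rw [integral_indicator_const _ Scal2_mc, unif_cel hc hq.le hq1' hj, smul_eq_mul, ht]
    rw [e]
    have hbm : BMeas ((cel c q m j).indicator fun v => ‖(zeta c b v + σ)⁻¹‖ ^ 4) := by
      have h1 := hGb.norm_sq
      have h2 := h1.mul h1
      have e : (fun v => ‖(zeta c b v + σ)⁻¹‖ ^ 4)
          = fun v => ‖G v‖ ^ 2 * ‖G v‖ ^ 2 := by
        funext v; rw [hG]; ring
      rw [e]; exact h2.indicator Scal2_mc
    refine integral_mono (hbm.integrable _) ((integrable_const _).indicator Scal2_mc) fun w => ?_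
    by_cases hw : w ∈ cel c q m j
    · simp only
      rw [Set.indicator_of_mem hw, Set.indicator_of_mem hw]
      have h1 := hlow w hw
      have h2 : ‖G w‖ ^ 4 = 16384 * c ^ 2 / t ^ 4 * (t ^ 4 / (16384 * c ^ 2) * ‖G w‖ ^ 4) := by
        field_simp
      have h3 : ‖G w‖ ^ 4 ≤ 16384 * c ^ 2 / t ^ 4 * JJ := by
        rw [h2]; gcongr
      exact h3
    · simp only
      rw [Set.indicator_of_notMem hw, Set.indicator_of_notMem hw]
  rw [← ht]
  calc t ^ 2 / 8192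
        * ∫ v, (cel c q m j).indicator (fun v => ‖(zeta c b v + σ)⁻¹‖ ^ 4) v ∂(unif c)
      ≤ t ^ 2 / 8192 * (t / (2 * c) * (16384 * c ^ 2 / t ^ 4 * JJ)) := by gcongr
    _ = c / t * JJ := by
        field_simp
        ring

theorem var_lower {c : ℝ} (hc : 0 < c) : ∃ c1 c2 : ℝ, 0 < c1 ∧ 0 < c2 ∧
    ∀ (b q : ℝ) (σ : ℂ) (m : ℕ), 0 < b → b ≤ c / 2 → 0 < q → q ≤ 1 / 2 → 0 < σ.im → 1 ≤ m →
    tt c q m * (1 + KI c b q σ) ≤ c1 →
    c2 * tt c q m ^ 2 * ((1 + KI c b q σ) * KI c b q σ ^ 2)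
      ≤ ∫ v, ‖(zeta c b v + σ)⁻¹ - av1 c q m (fun u => (zeta c b u + σ)⁻¹) v‖ ^ 2 ∂(unif c) := by
  obtain ⟨c3, hc3, h4⟩ := KI_four hc
  obtain ⟨L, hL⟩ : ∃ L, L = max (8 * c) (1 / c) := ⟨_, rfl⟩
  have hL1 : 8 * c ≤ L := by rw [hL]; exact le_max_left _ _
  have hL2 : 1 / c ≤ L := by rw [hL]; exact le_max_right _ _
  have hLpos : 0 < L := lt_of_lt_of_le (by positivity) hL1
  refine ⟨1 / (2 * L), c3 / 8192, by positivity, by positivity,
    fun b q σ m hb hbc hq hq1 hσ hm hsm => ?_⟩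
  have hq1' : q < 1 := by linarith
  have htpos : 0 < tt c q m := tt_pos hc hq1' hm
  have hKI0 : 0 ≤ KI c b q σ := KI_nonneg
  have hs : ∀ u ∈ core c q, 2 * tt c q m * ‖(zeta c b u + σ)⁻¹‖ ≤ 1 := by
    intro u hu
    have h1 := norm_g_le hc hb hbc hq hq1 hσ hu
    have h2 : ‖(zeta c b u + σ)⁻¹‖ ≤ L * (1 + KI c b q σ) := by
      refine h1.trans ?_
      have : 8 * c * KI c b q σ ≤ L * KI c b q σ := by gcongr
      linarith
    calc 2 * tt c q m * ‖(zeta c b u + σ)⁻¹‖ ≤ 2 * tt c q m * (L * (1 + KI c b q σ)) := by gcongr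
      _ = 2 * L * (tt c q m * (1 + KI c b q σ)) := by ring
      _ ≤ 2 * L * (1 / (2 * L)) := by gcongr
      _ = 1 := by field_simp
  rw [av1_var hc hq.le hq1' hm (Scal2_bm hb.le hσ)]
  have h5 := h4 b q σ hb hbc hq hq1 hσ
  rw [Scal2_sum hc hb.le hq1' hσ hm] at h5
  calc c3 / 8192 * tt c q m ^ 2 * ((1 + KI c b q σ) * KI c b q σ ^ 2)
      = tt c q m ^ 2 / 8192 * (c3 * (1 + KI c b q σ) * KI c b q σ ^ 2) := by ring
    _ ≤ tt c q m ^ 2 / 8192 * ∑ j ∈ Finset.range m,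
        ∫ v, (cel c q m j).indicator (fun v => ‖(zeta c b v + σ)⁻¹‖ ^ 4) v ∂(unif c) := by gcongr
    _ = ∑ j ∈ Finset.range m, tt c q m ^ 2 / 8192
        * ∫ v, (cel c q m j).indicator (fun v => ‖(zeta c b v + σ)⁻¹‖ ^ 4) v ∂(unif c) := by
        rw [Finset.mul_sum]
    _ ≤ _ := Finset.sum_le_sum fun j hj =>
        Scal2_cell hc hb hbc hq hq1 hσ hm (Finset.mem_range.1 hj) hs

end Pool.Agent.Lib.MP_562b47_mp.Str
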