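import Pool.Agent.Lib.MP_562b47_mp.Str.Ward
import Pool.Agent.Lib.MP_562b47_mp.Str.Cont
import Pool.Agent.Lib.MP_562b47_mp.Str.Dfm

/-!
Module STR-Seg (MP_562b47_mp, strips).  The tube `Fin L × Q` (layers `0, ..., L-1`, each a copy of the
finite set `Q`), with in-layer matrices `h k` and the couplings `-1` between `(k,q)` and `(k+1,q)` for the
layers of an interval `[i, j]` only: `segH L h i j`.  The systems `segD` (no sources): Green function
`(segH + V - E + i y)⁻¹`.

PROOFS.  All systems here have `Good` by the symmetry of the `h k` and `0 < y`.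
* `G_supp`: the sites with layer in `[i, k]` are decoupled from the others in `segH L h i k`, so the Green
  function vanishes between them: for fixed `z` outside put `u x := G x z` for `x` inside and `0` otherwise;
  `K u = 0` on the inside rows (`(K G) x z = 0`) and on the outside rows trivially, so `u = 0`
  (`det_ne`).
* `G_agree`: two systems (same `L`, possibly different `i', j'`, `y'`, `V'`) which have the same rows in
  the layers of `[i,k]` (which is decoupled from the rest in both) have the same `G x z`, `x, z` inside: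
  `u x := G x z - G' x z` inside and `0` outside satisfies `K u = 0`.
* `chainL` (`i ≤ k < j`, `x` in a layer of `[i,k]`, `z` in a layer `p`, `k < p ≤ j`):
  `G_{[i,j]}(x, z) = ∑_r G_{[i,k]}(x, (k,r)) G_{[i,j]}((k+1,r), z)`.
  From `G_{[i,j]} = G_{[i,k]} - G_{[i,k]} (K_{[i,j]} - K_{[i,k]}) G_{[i,j]}`; the row `x` of `G_{[i,k]}`
  lives on the layers `[i,k]` (`G_supp`); the difference of the two matrices consists of the couplings
  `(p,p+1)`, `k ≤ p < j`, so only the entries `((k,r),(k+1,r))`, equal to `-1`, contribute.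
* `chainR` (`i ≤ k`, `k + 1 ≤ j`, `x` in a layer of `[i,k]`... the mirror image): for `x` in a layer
  `p`, `i ≤ p < k'`, `z` in a layer of `[k', j]`:
  `G_{[i,j]}(x, z) = ∑_r G_{[i,j]}(x, (k'-1, r)) G_{[k',j]}((k', r), z)`.
* `schurL`: `(K_{[i,j]} restricted to the layer i  -  G_{[i+1,j]}(i+1,i+1)) * G_{[i,j]}(i,i) = 1` as
  `Q × Q` matrices (`i < j`): the equation `K G = 1` at the rows and columns of the layer `i`, and
  `G_{[i,j]}((i+1,r),(i,q')) = ∑_{r'} G_{[i+1,j]}((i+1,r),(i+1,r')) G_{[i,j]}((i,r'),(i,q'))`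
  (`chainR`-type identity together with the symmetry of `G`).
* `schurR`: `G_{[i,j]}(j,j) * (K restricted to the layer j - G_{[i,j-1]}(j-1,j-1)) = 1` (`i < j`).
-/

open MeasureTheory Matrix Complex

namespace Pool.Agent.Lib.MP_562b47_mp.Str

variable {Q : Type} [Fintype Q] [DecidableEq Q]

/-- the matrix of the tube with the couplings of the layers of `[i, j]` only -/
def segH (L : ℕ) (h : Fin L → Matrix Q Q ℝ) (i j : ℕ) : Matrix (Fin L × Q) (Fin L × Q) ℝ :=
  fun x z => if x.1 = z.1 then h x.1 x.2 z.2 else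
    if x.2 = z.2 ∧ (((x.1 : ℕ) + 1 = z.1 ∧ i ≤ x.1 ∧ (z.1 : ℕ) ≤ j) ∨
      ((z.1 : ℕ) + 1 = x.1 ∧ i ≤ z.1 ∧ (x.1 : ℕ) ≤ j)) then -1 else 0

/-- the system without sources on `[i, j]` -/
def segD (L : ℕ) (h : Fin L → Matrix Q Q ℝ) (i j : ℕ) (y : Fin L × Q → ℝ) :
    Sys (Fin L × Q) (Fin 0) where
  H := segH L h i j
  U := fun _ s => s.elim0
  y := y

/-- the block `(k, l)` of a matrix on the tube -/
def blk {L : ℕ} (G : Matrix (Fin L × Q) (Fin L × Q) ℂ) (k l : Fin L) : Matrix Q Q ℂ :=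
  fun q q' => G (k, q) (l, q')

section

variable {L : ℕ} {h : Fin L → Matrix Q Q ℝ} {i j : ℕ} {y : Fin L × Q → ℝ}

theorem segH_symm (hs : ∀ k, (h k).IsSymm) (i j : ℕ) : (segH L h i j).IsSymm := by
  refine Matrix.IsSymm.ext fun x z => ?_
  unfold segH
  by_cases hxz : x.1 = z.1
  · rw [if_pos hxz, if_pos hxz.symm, ← hxz]
    exact (hs x.1).apply _ _
  · rw [if_neg hxz, if_neg (Ne.symm hxz)]
    refine if_congr ?_ rfl rfl
    constructor
    · rintro ⟨h1, h2⟩
      exact ⟨h1.symm, h2.symm⟩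
    · rintro ⟨h1, h2⟩
      exact ⟨h1.symm, h2.symm⟩

theorem segD_good (hs : ∀ k, (h k).IsSymm) (hy : ∀ x, 0 < y x) (i j : ℕ) :
    (segD L h i j y).Good :=
  ⟨segH_symm hs i j, hy⟩

private theorem seg_K_apply (i j : ℕ) (ν : Fin L × Q → ℂ) (x z : Fin L × Q) :
    (segD L h i j y).K ν x z
      = (segH L h i j x z : ℂ) + if x = z then ν x + (y x : ℂ) * I else 0 := by
  simp [Sys.K, segD, Matrix.add_apply, diagonal_apply]

/-- inside `[i, j]` -/
private def Ins (i j : ℕ) (x : Fin L × Q) : Prop := i ≤ x.1 ∧ (x.1 : ℕ) ≤ j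

private noncomputable def prj (L : ℕ) (Q : Type) [DecidableEq Q] (i j : ℕ) :
    Matrix (Fin L × Q) (Fin L × Q) ℂ :=
  open Classical in diagonal fun x => if Ins i j x then 1 else 0

private theorem seg_K_zero {i j : ℕ} {ν : Fin L × Q → ℂ} {x z : Fin L × Q}
    (hxz : ¬ (Ins i j x ↔ Ins i j z)) : (segD L h i j y).K ν x z = 0 := by
  have h1 : x.1 ≠ z.1 := by
    intro h
    apply hxz
    unfold Ins
    rw [h]
  have h2 : x ≠ z := fun h => h1 (by rw [h])
  rw [seg_K_apply, if_neg h2, add_zero, segH, if_neg h1, if_neg]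
  · simp
  · rintro ⟨-, h3⟩
    apply hxz
    unfold Ins
    omega

private theorem prj_K (i j : ℕ) (ν : Fin L × Q → ℂ) :
    prj L Q i j * (segD L h i j y).K ν = (segD L h i j y).K ν * prj L Q i j := by
  classical
  ext x z
  rw [prj, diagonal_mul, mul_diagonal]
  by_cases hxz : Ins i j x ↔ Ins i j z
  · by_cases hx : Ins i j x
    · rw [if_pos hx, if_pos (hxz.1 hx), one_mul, mul_one]
    · rw [if_neg hx, if_neg (fun hz => hx (hxz.2 hz)), zero_mul, mul_zero]
  · rw [seg_K_zero hxz, zero_mul, mul_zero]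

private theorem prj_G (hs : ∀ k, (h k).IsSymm) (hy : ∀ x, 0 < y x) {ν : Fin L × Q → ℂ}
    (hν : Adm ν) (i j : ℕ) :
    prj L Q i j * (segD L h i j y).G ν = (segD L h i j y).G ν * prj L Q i j := by
  have hS := segD_good hs hy i j
  calc prj L Q i j * (segD L h i j y).G ν
      = ((segD L h i j y).G ν * (segD L h i j y).K ν) * (prj L Q i j * (segD L h i j y).G ν) := by
        rw [Sys.G_mul_K hS hν, Matrix.one_mul]
    _ = (segD L h i j y).G ν * ((segD L h i j y).K ν * prj L Q i j) * (segD L h i j y).G ν := by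
        simp only [Matrix.mul_assoc]
    _ = (segD L h i j y).G ν * prj L Q i j * ((segD L h i j y).K ν * (segD L h i j y).G ν) := by
        rw [← prj_K]
        simp only [Matrix.mul_assoc]
    _ = (segD L h i j y).G ν * prj L Q i j := by
        rw [Sys.K_mul_G hS hν, Matrix.mul_one]

theorem G_supp (hs : ∀ k, (h k).IsSymm) (hy : ∀ x, 0 < y x) {ν : Fin L × Q → ℂ} (hν : Adm ν)
    {x z : Fin L × Q} (hx : i ≤ x.1 ∧ (x.1 : ℕ) ≤ j) (hz : ¬ (i ≤ z.1 ∧ (z.1 : ℕ) ≤ j)) :
    (segD L h i j y).G ν x z = 0 := by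
  classical
  have h1 := congrFun (congrFun (prj_G hs hy hν i j) x) z
  rw [prj, diagonal_mul, mul_diagonal, if_pos (show Ins i j x from hx),
    if_neg (show ¬ Ins i j z from hz), one_mul, mul_zero] at h1
  exact h1

/-- the Green function inside `[i, j]` depends only on the data inside -/
theorem G_agree (hs : ∀ k, (h k).IsSymm) (hy : ∀ x, 0 < y x) {y' : Fin L × Q → ℝ}
    (hy' : ∀ x, 0 < y' x) {ν ν' : Fin L × Q → ℂ} (hν : Adm ν) (hν' : Adm ν')
    (hyy : ∀ x : Fin L × Q, i ≤ x.1 → (x.1 : ℕ) ≤ j → y' x = y x)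
    (hνν : ∀ x : Fin L × Q, i ≤ x.1 → (x.1 : ℕ) ≤ j → ν' x = ν x)
    {x z : Fin L × Q} (hx : i ≤ x.1 ∧ (x.1 : ℕ) ≤ j) (hz : i ≤ z.1 ∧ (z.1 : ℕ) ≤ j) :
    (segD L h i j y').G ν' x z = (segD L h i j y).G ν x z := by
  classical
  have hS := segD_good hs hy i j
  have hS' := segD_good hs hy' i j
  have hPK : prj L Q i j * (segD L h i j y').K ν' = prj L Q i j * (segD L h i j y).K ν := by
    ext a b
    rw [prj, diagonal_mul, diagonal_mul]
    by_cases ha : Ins i j a
    · rw [seg_K_apply, seg_K_apply, hyy a ha.1 ha.2, hνν a ha.1 ha.2]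
    · rw [if_neg ha, zero_mul, zero_mul]
  have key : (segD L h i j y').G ν' * prj L Q i j = prj L Q i j * (segD L h i j y).G ν := by
    calc (segD L h i j y').G ν' * prj L Q i j
        = (segD L h i j y').G ν' * prj L Q i j
            * ((segD L h i j y).K ν * (segD L h i j y).G ν) := by
          rw [Sys.K_mul_G hS hν, Matrix.mul_one]
      _ = (segD L h i j y').G ν' * (prj L Q i j * (segD L h i j y).K ν)
            * (segD L h i j y).G ν := by
          simp only [Matrix.mul_assoc]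
      _ = ((segD L h i j y').G ν' * (segD L h i j y').K ν') * (prj L Q i j
            * (segD L h i j y).G ν) := by
          rw [← hPK, prj_K]
          simp only [Matrix.mul_assoc]
      _ = prj L Q i j * (segD L h i j y).G ν := by
          rw [Sys.G_mul_K hS' hν', Matrix.one_mul]
  have h1 := congrFun (congrFun key x) z
  rw [prj, diagonal_mul, mul_diagonal, if_pos (show Ins i j x from hx),
    if_pos (show Ins i j z from hz), one_mul, mul_one] at h1
  exact h1

private theorem resolvent {X ι : Type*} [Fintype X] [DecidableEq X] [Fintype ι] [DecidableEq ι]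
    {S S' : Sys X ι} (hS : S.Good) (hS' : S'.Good) {ν : X → ℂ} (hν : Adm ν) :
    S'.G ν = S.G ν + S.G ν * (S.K ν - S'.K ν) * S'.G ν := by
  rw [Matrix.mul_sub, Sys.G_mul_K hS hν, Matrix.sub_mul, Matrix.one_mul, Matrix.mul_assoc,
    Sys.K_mul_G hS' hν, Matrix.mul_one]
  abel

private theorem sum_layer {L : ℕ} (k : Fin L) (f : Fin L × Q → ℂ)
    (hf : ∀ a, a.1 ≠ k → f a = 0) : ∑ a, f a = ∑ r, f (k, r) := by
  rw [Fintype.sum_prod_type, Finset.sum_eq_single k]
  · intro b _ hb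
    exact Finset.sum_eq_zero fun r _ => hf (b, r) hb
  · intro hh
    exact absurd (Finset.mem_univ _) hh

/-- the product of a resolvent identity when only the couplings `(k, k+1)` contribute -/
private theorem sum_couple {L : ℕ} (k : ℕ) (hk1 : k + 1 < L)
    (A D B : Matrix (Fin L × Q) (Fin L × Q) ℂ) (x z : Fin L × Q)
    (h0 : ∀ a b : Fin L × Q, ¬ ((a.1 : ℕ) = k ∧ (b.1 : ℕ) = k + 1 ∧ a.2 = b.2) →
      A x a * D a b * B b z = 0)
    (h1 : ∀ r, D (⟨k, by omega⟩, r) (⟨k + 1, hk1⟩, r) = 1) :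
    (A * D * B) x z = ∑ r, A x (⟨k, by omega⟩, r) * B (⟨k + 1, hk1⟩, r) z := by
  rw [Matrix.mul_apply, sum_layer (⟨k + 1, hk1⟩ : Fin L)]
  · refine Finset.sum_congr rfl fun r _ => ?_
    rw [Matrix.mul_apply, Finset.sum_mul, sum_layer (⟨k, by omega⟩ : Fin L),
      Finset.sum_eq_single r]
    · rw [h1, mul_one]
    · intro s _ hs
      exact h0 _ _ fun hh => hs hh.2.2
    · intro hh
      exact absurd (Finset.mem_univ _) hh
    · intro a ha
      exact h0 _ _ fun hh => ha (Fin.ext hh.1)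
  · intro b hb
    rw [Matrix.mul_apply, Finset.sum_mul]
    refine Finset.sum_eq_zero fun a _ => h0 _ _ fun hh => hb (Fin.ext hh.2.1)

/-- a row with a diagonal block and one coupling `-1` -/
private theorem row_sum {L : ℕ} {k k' : Fin L} (hk : k ≠ k') (q : Q) (F G : Fin L × Q → ℂ)
    (h0 : ∀ b : Fin L × Q, b.1 ≠ k → b ≠ (k', q) → F b = 0) (h1 : F (k', q) = -1) :
    ∑ b, F b * G b = ∑ r, F (k, r) * G (k, r) - G (k', q) := by
  have h2 : ∀ b : Fin L × Q, F b * G b = (if b.1 = k then F b * G b else 0)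
      + (if b = (k', q) then - G b else 0) := by
    intro b
    by_cases hb : b.1 = k
    · rw [if_pos hb, if_neg, add_zero]
      intro hh
      apply hk
      rw [← hb, hh]
    · rw [if_neg hb, zero_add]
      by_cases hb2 : b = (k', q)
      · rw [if_pos hb2, hb2, h1]
        ring
      · rw [if_neg hb2, h0 b hb hb2, zero_mul]
  rw [Finset.sum_congr rfl fun b _ => h2 b, Finset.sum_add_distrib, sum_layer k]
  · simp [sub_eq_add_neg]
  · intro a ha
    rw [if_neg ha]

theorem chainL (hs : ∀ k, (h k).IsSymm) (hy : ∀ x, 0 < y x) {ν : Fin L × Q → ℂ} (hν : Adm ν)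
    {k : ℕ} (hk : i ≤ k) (hk1 : k + 1 < L) (hkj : k < j) {x z : Fin L × Q}
    (hx : i ≤ x.1 ∧ (x.1 : ℕ) ≤ k) (hz : k < (z.1 : ℕ) ∧ (z.1 : ℕ) ≤ j) :
    (segD L h i j y).G ν x z
      = ∑ r, (segD L h i k y).G ν x (⟨k, by omega⟩, r)
          * (segD L h i j y).G ν (⟨k + 1, hk1⟩, r) z := by
  have hr := congrFun (congrFun (resolvent (segD_good hs hy i k) (segD_good hs hy i j) hν) x) z
  rw [Matrix.add_apply, G_supp hs hy hν hx (by omega), zero_add] at hr
  rw [hr]
  refine sum_couple k hk1 _ _ _ x z ?_ ?_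
  · intro a b hab
    by_cases ha : i ≤ a.1 ∧ (a.1 : ℕ) ≤ k
    · have hD : ((segD L h i k y).K ν - (segD L h i j y).K ν) a b = 0 := by
        rw [Matrix.sub_apply, seg_K_apply, seg_K_apply, add_sub_add_right_eq_sub, ← Complex.ofReal_sub,
          Complex.ofReal_eq_zero, segH, segH]
        by_cases h1 : a.1 = b.1
        · rw [if_pos h1, if_pos h1, sub_self]
        · rw [if_neg h1, if_neg h1, sub_eq_zero]
          refine if_congr ?_ rfl rfl
          constructor
          · rintro ⟨h2, h3⟩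
            exact ⟨h2, by omega⟩
          · rintro ⟨h2, h3⟩
            refine ⟨h2, ?_⟩
            have h4 : ¬ ((a.1 : ℕ) = k ∧ (b.1 : ℕ) = k + 1) := fun hh => hab ⟨hh.1, hh.2, h2⟩
            omega
      rw [hD, mul_zero, zero_mul]
    · have h1 : (segD L h i k y).G ν x a = 0 := G_supp hs hy hν hx ha
      simp only [h1, zero_mul]
  · intro r
    have hne : (⟨k, by omega⟩ : Fin L) ≠ ⟨k + 1, hk1⟩ := by
      intro hh
      have := congrArg Fin.val hh
      simp at this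
    rw [Matrix.sub_apply, seg_K_apply, seg_K_apply, add_sub_add_right_eq_sub, segH, segH,
      if_neg hne, if_neg hne, if_neg, if_pos]
    · simp
    · exact ⟨rfl, Or.inl ⟨rfl, hk, hkj⟩⟩
    · rintro ⟨-, hh⟩
      simp only at hh
      omega

theorem chainR (hs : ∀ k, (h k).IsSymm) (hy : ∀ x, 0 < y x) {ν : Fin L × Q → ℂ} (hν : Adm ν)
    {k : ℕ} (hk : i ≤ k) (hk1 : k + 1 < L) (hkj : k < j) {x z : Fin L × Q}
    (hx : i ≤ x.1 ∧ (x.1 : ℕ) ≤ k) (hz : k < (z.1 : ℕ) ∧ (z.1 : ℕ) ≤ j) :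
    (segD L h i j y).G ν x z
      = ∑ r, (segD L h i j y).G ν x (⟨k, by omega⟩, r)
          * (segD L h (k + 1) j y).G ν (⟨k + 1, hk1⟩, r) z := by
  have hsupp : ∀ b : Fin L × Q, ¬ (k + 1 ≤ b.1 ∧ (b.1 : ℕ) ≤ j) →
      (segD L h (k + 1) j y).G ν b z = 0 := by
    intro b hb
    rw [Sys.G_comm (segD_good hs hy (k + 1) j)]
    exact G_supp hs hy hν (by omega) hb
  have hr0 := resolvent (segD_good hs hy i j) (segD_good hs hy (k + 1) j) hν
  have hr : (segD L h i j y).G ν x z = ((segD L h i j y).G ν * ((segD L h (k + 1) j y).K ν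
      - (segD L h i j y).K ν) * (segD L h (k + 1) j y).G ν) x z := by
    have h1 := congrFun (congrFun hr0 x) z
    rw [Matrix.add_apply, hsupp x (by omega)] at h1
    have h2 : (segD L h i j y).G ν * ((segD L h (k + 1) j y).K ν
      - (segD L h i j y).K ν) * (segD L h (k + 1) j y).G ν = - ((segD L h i j y).G ν *
        ((segD L h i j y).K ν - (segD L h (k + 1) j y).K ν) * (segD L h (k + 1) j y).G ν) := by
      rw [← neg_sub ((segD L h i j y).K ν), Matrix.mul_neg, Matrix.neg_mul]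
    rw [h2, Matrix.neg_apply]
    linear_combination - h1
  rw [hr]
  refine sum_couple k hk1 _ _ _ x z ?_ ?_
  · intro a b hab
    by_cases hb : k + 1 ≤ b.1 ∧ (b.1 : ℕ) ≤ j
    · have hD : ((segD L h (k + 1) j y).K ν - (segD L h i j y).K ν) a b = 0 := by
        rw [Matrix.sub_apply, seg_K_apply, seg_K_apply, add_sub_add_right_eq_sub, ← Complex.ofReal_sub,
          Complex.ofReal_eq_zero, segH, segH]
        by_cases h1 : a.1 = b.1
        · rw [if_pos h1, if_pos h1, sub_self]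
        · rw [if_neg h1, if_neg h1, sub_eq_zero]
          refine if_congr ?_ rfl rfl
          constructor
          · rintro ⟨h2, h3⟩
            exact ⟨h2, by omega⟩
          · rintro ⟨h2, h3⟩
            refine ⟨h2, ?_⟩
            have h4 : ¬ ((a.1 : ℕ) = k ∧ (b.1 : ℕ) = k + 1) := fun hh => hab ⟨hh.1, hh.2, h2⟩
            omega
      rw [hD, mul_zero, zero_mul]
    · have h1 : (segD L h (k + 1) j y).G ν b z = 0 := hsupp b hb
      simp only [h1, mul_zero]
  · intro r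
    have hne : (⟨k, by omega⟩ : Fin L) ≠ ⟨k + 1, hk1⟩ := by
      intro hh
      have := congrArg Fin.val hh
      simp at this
    rw [Matrix.sub_apply, seg_K_apply, seg_K_apply, add_sub_add_right_eq_sub, segH, segH,
      if_neg hne, if_neg hne, if_neg, if_pos]
    · simp
    · exact ⟨rfl, Or.inl ⟨rfl, hk, hkj⟩⟩
    · rintro ⟨-, hh⟩
      simp only at hh
      omega

private theorem fin_ne {L k : ℕ} (h1 : k < L) (h2 : k + 1 < L) :
    (⟨k, h1⟩ : Fin L) ≠ ⟨k + 1, h2⟩ := by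
  intro hh
  have := congrArg Fin.val hh
  simp at this

theorem schurL (hs : ∀ k, (h k).IsSymm) (hy : ∀ x, 0 < y x) {ν : Fin L × Q → ℂ} (hν : Adm ν)
    (hi : i + 1 < L) (hij : i < j) :
    (blk ((segD L h i j y).K ν) ⟨i, by omega⟩ ⟨i, by omega⟩
      - blk ((segD L h (i + 1) j y).G ν) ⟨i + 1, hi⟩ ⟨i + 1, hi⟩)
      * blk ((segD L h i j y).G ν) ⟨i, by omega⟩ ⟨i, by omega⟩ = 1 := by
  have hS := segD_good hs hy i j
  ext q q'
  have h1 := congrFun (congrFun (Sys.K_mul_G hS hν) (⟨i, by omega⟩, q)) (⟨i, by omega⟩, q')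
  rw [Matrix.mul_apply, row_sum (fin_ne (by omega) hi) q
    (fun b => (segD L h i j y).K ν (⟨i, by omega⟩, q) b)
    (fun b => (segD L h i j y).G ν b (⟨i, by omega⟩, q'))] at h1
  rotate_left
  · rintro ⟨b, r⟩ hb hb2
    simp only at hb
    show (segD L h i j y).K ν (⟨i, by omega⟩, q) (b, r) = 0
    rw [seg_K_apply, if_neg (fun hh => hb (congrArg Prod.fst hh).symm), add_zero, segH,
      if_neg (Ne.symm hb), if_neg]
    · simp
    · rintro ⟨h3, h4⟩
      simp only at h3 h4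
      apply hb2
      rcases h4 with h4 | h4
      · refine Prod.ext (Fin.ext ?_) h3.symm
        simp only
        omega
      · omega
  · show (segD L h i j y).K ν (⟨i, by omega⟩, q) (⟨i + 1, hi⟩, q) = -1
    rw [seg_K_apply, if_neg (fun hh => fin_ne _ _ (congrArg Prod.fst hh)), add_zero, segH,
      if_neg (fin_ne _ _), if_pos]
    · simp
    · exact ⟨rfl, Or.inl ⟨rfl, le_refl i, hij⟩⟩
  rw [Sys.G_comm hS ν (⟨i + 1, hi⟩, q), chainR hs hy hν (le_refl i) hi hij
    (x := (⟨i, by omega⟩, q')) (z := (⟨i + 1, hi⟩, q)) ⟨le_refl i, le_refl i⟩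
    ⟨Nat.lt_succ_self i, hij⟩] at h1
  rw [Matrix.mul_apply]
  simp only [Matrix.sub_apply, sub_mul, Finset.sum_sub_distrib]
  have h5 : ∑ x, blk ((segD L h (i + 1) j y).G ν) ⟨i + 1, hi⟩ ⟨i + 1, hi⟩ q x *
        blk ((segD L h i j y).G ν) ⟨i, by omega⟩ ⟨i, by omega⟩ x q'
      = ∑ r, (segD L h i j y).G ν (⟨i, by omega⟩, q') (⟨i, by omega⟩, r) *
        (segD L h (i + 1) j y).G ν (⟨i + 1, hi⟩, r) (⟨i + 1, hi⟩, q) := by
    refine Finset.sum_congr rfl fun r _ => ?_
    rw [blk, blk, Sys.G_comm (segD_good hs hy (i + 1) j),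
      Sys.G_comm hS ν (⟨i, by omega⟩, r), mul_comm]
  rw [h5]
  refine h1.trans ?_
  simp [Matrix.one_apply]

theorem schurR (hs : ∀ k, (h k).IsSymm) (hy : ∀ x, 0 < y x) {ν : Fin L × Q → ℂ} (hν : Adm ν)
    (hj : j + 1 < L) (hij : i ≤ j) :
    blk ((segD L h i (j + 1) y).G ν) ⟨j + 1, hj⟩ ⟨j + 1, hj⟩
      * (blk ((segD L h i (j + 1) y).K ν) ⟨j + 1, hj⟩ ⟨j + 1, hj⟩
      - blk ((segD L h i j y).G ν) ⟨j, by omega⟩ ⟨j, by omega⟩) = 1 := by
  have hS := segD_good hs hy i (j + 1)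
  ext q q'
  have h1 := congrFun (congrFun (Sys.G_mul_K hS hν) (⟨j + 1, hj⟩, q)) (⟨j + 1, hj⟩, q')
  have hcomm : ∀ b : Fin L × Q, (segD L h i (j + 1) y).G ν (⟨j + 1, hj⟩, q) b
      * (segD L h i (j + 1) y).K ν b (⟨j + 1, hj⟩, q')
      = (segD L h i (j + 1) y).K ν b (⟨j + 1, hj⟩, q')
        * (segD L h i (j + 1) y).G ν (⟨j + 1, hj⟩, q) b := fun b => mul_comm _ _
  rw [Matrix.mul_apply, Finset.sum_congr rfl fun b _ => hcomm b,
    row_sum (fin_ne (by omega) hj).symm q'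
    (fun b => (segD L h i (j + 1) y).K ν b (⟨j + 1, hj⟩, q'))
    (fun b => (segD L h i (j + 1) y).G ν (⟨j + 1, hj⟩, q) b)] at h1
  rotate_left
  · rintro ⟨b, r⟩ hb hb2
    simp only at hb
    show (segD L h i (j + 1) y).K ν (b, r) (⟨j + 1, hj⟩, q') = 0
    rw [seg_K_apply, if_neg (fun hh => hb (congrArg Prod.fst hh)), add_zero, segH,
      if_neg hb, if_neg]
    · simp
    · rintro ⟨h3, h4⟩
      simp only at h3 h4
      apply hb2
      rcases h4 with h4 | h4
      · refine Prod.ext (Fin.ext ?_) h3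
        simp only
        omega
      · omega
  · show (segD L h i (j + 1) y).K ν (⟨j, by omega⟩, q') (⟨j + 1, hj⟩, q') = -1
    rw [seg_K_apply, if_neg (fun hh => fin_ne _ _ (congrArg Prod.fst hh)), add_zero, segH,
      if_neg (fin_ne _ _), if_pos]
    · simp
    · exact ⟨rfl, Or.inl ⟨rfl, hij, le_refl _⟩⟩
  rw [Sys.G_comm hS ν (⟨j + 1, hj⟩, q) (⟨j, by omega⟩, q'), chainL hs hy hν hij hj
    (Nat.lt_succ_self j) (x := (⟨j, by omega⟩, q')) (z := (⟨j + 1, hj⟩, q)) ⟨hij, le_refl j⟩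
    ⟨Nat.lt_succ_self j, le_refl _⟩] at h1
  rw [Matrix.mul_apply]
  simp only [Matrix.sub_apply, mul_sub, Finset.sum_sub_distrib]
  have h5 : ∑ x, blk ((segD L h i (j + 1) y).G ν) ⟨j + 1, hj⟩ ⟨j + 1, hj⟩ q x *
        blk ((segD L h i j y).G ν) ⟨j, by omega⟩ ⟨j, by omega⟩ x q'
      = ∑ r, (segD L h i j y).G ν (⟨j, by omega⟩, q') (⟨j, by omega⟩, r) *
        (segD L h i (j + 1) y).G ν (⟨j + 1, hj⟩, r) (⟨j + 1, hj⟩, q) := by
    refine Finset.sum_congr rfl fun r _ => ?_
    rw [blk, blk, Sys.G_comm (segD_good hs hy i j),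
      Sys.G_comm hS ν (⟨j + 1, hj⟩, q) (⟨j + 1, hj⟩, r), mul_comm]
  have h6 : ∑ x, blk ((segD L h i (j + 1) y).G ν) ⟨j + 1, hj⟩ ⟨j + 1, hj⟩ q x *
        blk ((segD L h i (j + 1) y).K ν) ⟨j + 1, hj⟩ ⟨j + 1, hj⟩ x q'
      = ∑ r, (segD L h i (j + 1) y).K ν (⟨j + 1, hj⟩, r) (⟨j + 1, hj⟩, q') *
        (segD L h i (j + 1) y).G ν (⟨j + 1, hj⟩, q) (⟨j + 1, hj⟩, r) :=
    Finset.sum_congr rfl fun r _ => mul_comm _ _
  rw [h5, h6]
  refine h1.trans ?_
  simp [Matrix.one_apply]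

end

end Pool.Agent.Lib.MP_562b47_mp.Str
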