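import Pool.Agent.Lib.MP_562b47_mp.Str.Ward
import Pool.Agent.Lib.MP_562b47_mp.Str.Peel

/-!
Module STR-Step (MP_562b47_mp, strips).  The forward map `Fs` of a layered system, the one-step
bound, and the same for the cut system.

PROOFS.
* `fwd_Fs`: `layer`: for `z ∈ Fs up x`, `ℓ x < N`: if `z = up x` then `ℓ z = ℓ x + 1`.  Otherwise
  `H (up x) z ≠ 0`, so `ℓ (up x) ≤ ℓ z + 1` and (symmetry) `ℓ z ≤ ℓ (up x) + 1`, i.e.
  `ℓ x ≤ ℓ z ≤ ℓ x + 2`; `ℓ z = ℓ x` is excluded by `up_unique` and `z ≠ x`.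
  `card`: `Fs up x ⊆ {z | H (up x) z ≠ 0} ∪ {up x}`.
  `col`: `up` is injective on `{ℓ x < N}` (if `up x = up x'` then `ℓ x = ℓ x'` by `up_layer` and
  `H (up x) x' ≠ 0` by `up_one`, so `x' = x` by `up_unique`), and `z ∈ Fs up x` implies
  `up x ∈ {z} ∪ {z' | H z z' ≠ 0}` (symmetry), a set with at most `Δ + 1` elements.
* `cut`: `cut ℓ N'` is symmetric and positive; its entries are those of `H` or `0`.
  If `ℓ x < N' ≤ N` then `ℓ (up x) = ℓ x + 1 ≤ N'`, so `(cut).H (up x) x = H (up x) x`.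
  `cut_Fs`: if `ℓ x + 2 ≤ N' ≤ N`, then the nonzero entries of the row `up x` sit in layers
  `≤ ℓ x + 2 ≤ N'`.
* `one_step`: the equation `eqn'` at the row `up x` (no source there):
  `H (up x) x w x s = - ∑_{z ≠ x} H (up x) z w z s - (ν (up x) + i y (up x)) w (up x) s`, with
  `1 ≤ |H (up x) x|`; the right side is a combination of the `w z s`, `z ∈ Fs up x`, with coefficients
  `c_z`, `∑ |c_z| ≤ R + ‖ν (up x)‖ + y (up x) ≤ D`; so `‖wv x‖ ≤ ∑ |c_z| ‖wv z‖` and by Cauchy–Schwarz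
  `‖wv x‖² ≤ (∑ |c_z|²) ∑ ‖wv z‖² ≤ D² ∑ ‖wv z‖²`.
* `one_step_src`: at a row with sources use `eqnS`: the norm of the source term is
  `‖∑_{s'} U (up x) s' ((1 + Sm) s' s / 2)‖ ≤ ‖U (up x)‖ (√M + ‖Sv‖)/2 ≤ √M`, `M = card ι`, if
  `∑_{s} (U (up x) s)² ≤ 1`.
-/

open MeasureTheory Matrix Complex

namespace Pool.Agent.Lib.MP_562b47_mp.Str

variable {X ι : Type*} [Fintype X] [DecidableEq X] [Fintype ι] [DecidableEq ι]

namespace Sys

variable {S : Sys X ι} {ν : X → ℂ} {ℓ : X → ℕ} {up : X → X} {R : ℝ} {Δ N : ℕ}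

private theorem st_symm (hS : S.Good) {x z : X} (h : S.H x z ≠ 0) : S.H z x ≠ 0 := by
  rwa [hS.symm.apply x z]

theorem fwd_Fs (hS : S.Good) (hL : S.Layered ℓ up R Δ N) : Fwd ℓ (S.Fs up) Δ N := by
  classical
  refine ⟨?_, ?_, ?_⟩
  · intro x hx z hz
    simp only [Fs, Finset.mem_filter, Finset.mem_univ, true_and] at hz
    obtain ⟨hzx, hz⟩ := hz
    have hl := hL.up_layer x hx
    rcases hz with hz | rfl
    · have h1 := hL.near _ _ hz
      have h2 := hL.near _ _ (st_symm hS hz)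
      have h3 : ℓ z ≠ ℓ x := fun h => hzx (hL.up_unique x hx z h hz)
      omega
    · omega
  · intro x hx
    have hsub : S.Fs up x ⊆ insert (up x) (Finset.univ.filter fun z => S.H (up x) z ≠ 0) := by
      intro z hz
      simp only [Fs, Finset.mem_filter, Finset.mem_univ, true_and] at hz
      rw [Finset.mem_insert, Finset.mem_filter]
      rcases hz.2 with h | h
      · exact Or.inr ⟨Finset.mem_univ _, h⟩
      · exact Or.inl h
    refine (Finset.card_le_card hsub).trans ((Finset.card_insert_le _ _).trans ?_)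
    have := hL.deg (up x)
    omega
  · intro z
    have h1 : (Finset.univ.filter fun x => ℓ x < N ∧ z ∈ S.Fs up x).card ≤
        (insert z (Finset.univ.filter fun z' => S.H z z' ≠ 0)).card := by
      refine Finset.card_le_card_of_injOn up ?_ ?_
      · intro x hx
        rw [Finset.mem_coe, Finset.mem_filter] at hx
        obtain ⟨-, hx, hz⟩ := hx
        simp only [Fs, Finset.mem_filter, Finset.mem_univ, true_and] at hz
        rw [Finset.mem_coe, Finset.mem_insert, Finset.mem_filter]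
        rcases hz.2 with h | h
        · exact Or.inr ⟨Finset.mem_univ _, st_symm hS h⟩
        · exact Or.inl h.symm
      · intro x hx x' hx' hxx
        rw [Finset.mem_coe, Finset.mem_filter] at hx hx'
        have e1 := hL.up_layer x hx.2.1
        have e2 := hL.up_layer x' hx'.2.1
        rw [hxx] at e1
        have e3 : ℓ x' = ℓ x := by omega
        have e4 := hL.up_one x' hx'.2.1
        have e5 : S.H (up x) x' ≠ 0 := by
          rw [hxx]
          intro h0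
          rw [h0, abs_zero] at e4
          linarith
        exact (hL.up_unique x hx.2.1 x' e3 e5).symm
    refine le_trans ?_ (h1.trans ((Finset.card_insert_le _ _).trans ?_))
    · exact Finset.card_le_card fun x hx => by
        rw [Finset.mem_filter] at hx ⊢
        exact hx
    · have := hL.deg z
      omega

theorem near_symm (hS : S.Good) (hL : S.Layered ℓ up R Δ N) (x z : X) (h : S.H x z ≠ 0) :
    ℓ z ≤ ℓ x + 1 := hL.near _ _ (st_symm hS h)

private theorem st_cut (ℓ : X → ℕ) (N' : ℕ) (x z : X) :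
    (S.cut ℓ N').H x z = if (ℓ x ≤ N' ↔ ℓ z ≤ N') then S.H x z else 0 := rfl

private theorem st_cut_ne {ℓ : X → ℕ} {N' : ℕ} {x z : X} (h : (S.cut ℓ N').H x z ≠ 0) :
    S.H x z ≠ 0 := by
  rw [st_cut] at h
  split_ifs at h with h1
  · exact h
  · exact absurd rfl h

theorem cut_good (hS : S.Good) (ℓ : X → ℕ) (N' : ℕ) : (S.cut ℓ N').Good := by
  refine ⟨?_, hS.pos⟩
  ext x z
  rw [Matrix.transpose_apply, st_cut, st_cut, hS.symm.apply x z]
  by_cases h : (ℓ x ≤ N' ↔ ℓ z ≤ N')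
  · rw [if_pos h, if_pos h.symm]
  · rw [if_neg h, if_neg fun h' => h h'.symm]

theorem cut_layered (hL : S.Layered ℓ up R Δ N) {N' : ℕ} (h : N' ≤ N) :
    (S.cut ℓ N').Layered ℓ up R Δ N' := by
  classical
  refine ⟨?_, ?_, ?_, ?_, ?_, ?_⟩
  · intro x z hz
    exact hL.near x z (st_cut_ne hz)
  · intro x
    refine le_trans (Finset.sum_le_sum fun z _ => ?_) (hL.row x)
    rw [st_cut]
    split_ifs
    · exact le_rfl
    · rw [abs_zero]
      exact abs_nonneg _
  · intro x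
    refine le_trans (Finset.card_le_card fun z hz => ?_) (hL.deg x)
    rw [Finset.mem_filter] at hz ⊢
    exact ⟨hz.1, st_cut_ne hz.2⟩
  · intro x hx
    exact hL.up_layer x (by omega)
  · intro x hx
    have hl := hL.up_layer x (by omega)
    rw [st_cut, if_pos ⟨fun _ => by omega, fun _ => by omega⟩]
    exact hL.up_one x (by omega)
  · intro x hx z hz hne
    exact hL.up_unique x (by omega) z hz (st_cut_ne hne)

theorem cut_row (hS : S.Good) (hL : S.Layered ℓ up R Δ N) {i N' : ℕ} (h : i < N') :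
    ∀ x, ℓ x ≤ i → ∀ z, (S.cut ℓ N').H x z = S.H x z := by
  intro x hx z
  rw [st_cut]
  by_cases hz : S.H x z = 0
  · rw [hz]
    simp
  · have h1 := near_symm hS hL x z hz
    rw [if_pos ⟨fun _ => by omega, fun _ => by omega⟩]

theorem cut_Fs (hS : S.Good) (hL : S.Layered ℓ up R Δ N) {N' : ℕ} (h : N' ≤ N) {x : X}
    (hx : ℓ x + 2 ≤ N') : (S.cut ℓ N').Fs up x = S.Fs up x := by
  classical
  have hl := hL.up_layer x (by omega)
  ext z
  simp only [Fs, Finset.mem_filter, Finset.mem_univ, true_and]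
  rw [cut_row hS hL (i := ℓ x + 1) (by omega) (up x) (by omega) z]

/-- the coefficients of the equation at `up x` -/
private noncomputable def stc (S : Sys X ι) (ν : X → ℂ) (up : X → X) (x z : X) : ℂ :=
  (S.H (up x) z : ℂ) + if z = up x then (ν (up x) + (S.y (up x) : ℂ) * I) else 0

private theorem st_split (hL : S.Layered ℓ up R Δ N) {x : X} (hx : ℓ x < N) (f : X → ℂ) :
    ∑ z, (S.H (up x) z : ℂ) * f z + (ν (up x) + (S.y (up x) : ℂ) * I) * f (up x) =
      (S.H (up x) x : ℂ) * f x + ∑ z ∈ S.Fs up x, stc S ν up x z * f z := by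
  classical
  have hl := hL.up_layer x hx
  have hxu : x ≠ up x := by
    intro h
    rw [← h] at hl
    omega
  have h1 : ∑ z, (S.H (up x) z : ℂ) * f z + (ν (up x) + (S.y (up x) : ℂ) * I) * f (up x) =
      ∑ z, stc S ν up x z * f z := by
    simp only [stc, add_mul, ite_mul, zero_mul, Finset.sum_add_distrib]
    rw [Finset.sum_ite_eq' Finset.univ (up x)]
    simp [add_mul]
  have hx' : x ∉ S.Fs up x := by
    simp [Fs]
  have h2 : ∑ z, stc S ν up x z * f z = ∑ z ∈ insert x (S.Fs up x), stc S ν up x z * f z := by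
    symm
    refine Finset.sum_subset (Finset.subset_univ _) fun z _ hz => ?_
    rw [Finset.mem_insert, not_or] at hz
    obtain ⟨hzx, hz⟩ := hz
    simp only [Fs, Finset.mem_filter, Finset.mem_univ, true_and, not_and, not_or, not_not] at hz
    obtain ⟨h3, h4⟩ := hz hzx
    rw [stc, h3, if_neg h4]
    simp
  rw [h1, h2, Finset.sum_insert hx']
  congr 2
  rw [stc, if_neg hxu, add_zero]

private theorem st_sum (hS : S.Good) (hL : S.Layered ℓ up R Δ N) (x : X) :
    ∑ z ∈ S.Fs up x, ‖stc S ν up x z‖ ≤ R + ‖ν (up x)‖ + S.y (up x) := by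
  classical
  calc ∑ z ∈ S.Fs up x, ‖stc S ν up x z‖ ≤ ∑ z, ‖stc S ν up x z‖ :=
        Finset.sum_le_sum_of_subset_of_nonneg (Finset.subset_univ _) fun _ _ _ => norm_nonneg _
    _ ≤ ∑ z, (|S.H (up x) z| + if z = up x then (‖ν (up x)‖ + S.y (up x)) else 0) := by
        refine Finset.sum_le_sum fun z _ => ?_
        rw [stc]
        refine (norm_add_le _ _).trans (add_le_add ?_ ?_)
        · rw [Complex.norm_real, Real.norm_eq_abs]
        · split_ifs
          · refine (norm_add_le _ _).trans (add_le_add le_rfl ?_)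
            rw [norm_mul, Complex.norm_I, mul_one, Complex.norm_real, Real.norm_eq_abs,
              abs_of_pos (hS.pos _)]
          · simp
    _ = ∑ z, |S.H (up x) z| + (‖ν (up x)‖ + S.y (up x)) := by
        rw [Finset.sum_add_distrib, Finset.sum_ite_eq' Finset.univ (up x)]
        simp
    _ ≤ R + ‖ν (up x)‖ + S.y (up x) := by
        have := hL.row (up x)
        linarith

private theorem st_bound (hS : S.Good) (hL : S.Layered ℓ up R Δ N) {D B : ℝ} {x : X}
    (hx : ℓ x < N) (hD : R + ‖ν (up x)‖ + S.y (up x) ≤ D) (src : EuclideanSpace ℂ ι)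
    (heq : ∀ s, ∑ z, (S.H (up x) z : ℂ) * S.w ν z s +
      (ν (up x) + (S.y (up x) : ℂ) * I) * S.w ν (up x) s = src s)
    (hB : ∀ z ∈ S.Fs up x, ‖S.wv ν z‖ ≤ B) (hB0 : 0 ≤ B) :
    ‖S.wv ν x‖ ≤ D * B + ‖src‖ := by
  have hvec : (S.H (up x) x : ℂ) • S.wv ν x =
      src - ∑ z ∈ S.Fs up x, stc S ν up x z • S.wv ν z := by
    ext s
    have h1 := heq s
    rw [st_split hL hx (fun z => S.w ν z s)] at h1
    have h2 : (∑ z ∈ S.Fs up x, stc S ν up x z • S.wv ν z).ofLp s =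
        ∑ z ∈ S.Fs up x, stc S ν up x z * S.w ν z s := by
      rw [WithLp.ofLp_sum, Finset.sum_apply]
      rfl
    rw [PiLp.sub_apply, h2, ← h1]
    rw [PiLp.smul_apply, smul_eq_mul]
    change (S.H (up x) x : ℂ) * S.w ν x s = _
    ring
  have h1 := hL.up_one x hx
  have h3 : ‖∑ z ∈ S.Fs up x, stc S ν up x z • S.wv ν z‖ ≤ D * B := by
    calc ‖∑ z ∈ S.Fs up x, stc S ν up x z • S.wv ν z‖
        ≤ ∑ z ∈ S.Fs up x, ‖stc S ν up x z • S.wv ν z‖ := norm_sum_le _ _
      _ ≤ ∑ z ∈ S.Fs up x, ‖stc S ν up x z‖ * B := by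
          refine Finset.sum_le_sum fun z hz => ?_
          rw [norm_smul]
          exact mul_le_mul_of_nonneg_left (hB z hz) (norm_nonneg _)
      _ = (∑ z ∈ S.Fs up x, ‖stc S ν up x z‖) * B := by rw [Finset.sum_mul]
      _ ≤ D * B := mul_le_mul_of_nonneg_right ((st_sum hS hL x).trans hD) hB0
  calc ‖S.wv ν x‖ ≤ |S.H (up x) x| * ‖S.wv ν x‖ := by
        nlinarith [norm_nonneg (S.wv ν x)]
    _ = ‖(S.H (up x) x : ℂ) • S.wv ν x‖ := by
        rw [norm_smul, Complex.norm_real, Real.norm_eq_abs]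
    _ ≤ ‖src‖ + ‖∑ z ∈ S.Fs up x, stc S ν up x z • S.wv ν z‖ := by
        rw [hvec]
        exact norm_sub_le _ _
    _ ≤ D * B + ‖src‖ := by linarith

theorem one_step (hS : S.Good) (hν : Adm ν) (hL : S.Layered ℓ up R Δ N) {D : ℝ} {x : X}
    (hx : ℓ x < N) (hU : ∀ s, S.U (up x) s = 0) (hD : R + ‖ν (up x)‖ + S.y (up x) ≤ D) :
    ‖S.wv ν x‖ ^ 2 ≤ D ^ 2 * ∑ z ∈ S.Fs up x, ‖S.wv ν z‖ ^ 2 := by
  set T : ℝ := ∑ z ∈ S.Fs up x, ‖S.wv ν z‖ ^ 2 with hT
  have hT0 : 0 ≤ T := Finset.sum_nonneg fun z _ => by positivity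
  have hB : ∀ z ∈ S.Fs up x, ‖S.wv ν z‖ ≤ √T := by
    intro z hz
    refine Real.le_sqrt_of_sq_le ?_
    exact Finset.single_le_sum (f := fun z => ‖S.wv ν z‖ ^ 2) (fun z _ => by positivity) hz
  have h := st_bound hS hL hx hD 0 (fun s => by
    rw [eqn' hS hν (up x) hU s]
    rfl) hB (Real.sqrt_nonneg _)
  rw [norm_zero, add_zero] at h
  have h2 := pow_le_pow_left₀ (norm_nonneg _) h 2
  rwa [mul_pow, Real.sq_sqrt hT0] at h2

/-- the source term of the row `u` -/
private noncomputable def stsrc (S : Sys X ι) (ν : X → ℂ) (u : X) : EuclideanSpace ℂ ι :=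
  WithLp.toLp 2 (fun s => ∑ s', (S.U u s' : ℂ) * ((1 + S.Sm ν) s' s / 2))

private theorem stsrc_le (hS : S.Good) (hν : Adm ν) (u : X) (hU : ∑ s, S.U u s ^ 2 ≤ 1) :
    ‖stsrc S ν u‖ ≤ √(Fintype.card ι : ℝ) := by
  set Ev : EuclideanSpace ℂ (ι × ι) := WithLp.toLp 2 (fun p => (1 : Matrix ι ι ℂ) p.1 p.2) with hEv
  have hE : ‖Ev‖ = √(Fintype.card ι : ℝ) := by
    rw [EuclideanSpace.norm_eq]
    congr 1
    rw [Fintype.sum_prod_type]
    simp [hEv, Matrix.one_apply, apply_ite]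
  have h1 : ‖(1 / 2 : ℂ) • (Ev + S.Sv ν)‖ ≤ √(Fintype.card ι : ℝ) := by
    rw [norm_smul]
    have h2 := norm_add_le Ev (S.Sv ν)
    have h3 := norm_Sv_le hS hν
    have h4 : ‖(1 / 2 : ℂ)‖ = 1 / 2 := by norm_num
    rw [h4, hE] at *
    linarith
  refine le_trans ?_ h1
  have h5 : ‖stsrc S ν u‖ ^ 2 ≤ ‖(1 / 2 : ℂ) • (Ev + S.Sv ν)‖ ^ 2 := by
    rw [EuclideanSpace.norm_sq_eq, EuclideanSpace.norm_sq_eq, Fintype.sum_prod_type,
      Finset.sum_comm]
    refine Finset.sum_le_sum fun s _ => ?_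
    have e1 : ∀ s', ‖((1 / 2 : ℂ) • (Ev + S.Sv ν)).ofLp (s', s)‖ = ‖(1 + S.Sm ν) s' s / 2‖ := by
      intro s'
      congr 1
      rw [PiLp.smul_apply, PiLp.add_apply, smul_eq_mul, Matrix.add_apply]
      change 1 / 2 * ((1 : Matrix ι ι ℂ) s' s + S.Sm ν s' s) = _
      ring
    simp only [e1]
    change ‖∑ s', (S.U u s' : ℂ) * ((1 + S.Sm ν) s' s / 2)‖ ^ 2 ≤ _
    calc ‖∑ s', (S.U u s' : ℂ) * ((1 + S.Sm ν) s' s / 2)‖ ^ 2
        ≤ (∑ s', |S.U u s'| * ‖(1 + S.Sm ν) s' s / 2‖) ^ 2 := by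
          refine pow_le_pow_left₀ (norm_nonneg _) ((norm_sum_le _ _).trans (le_of_eq ?_)) 2
          refine Finset.sum_congr rfl fun s' _ => ?_
          rw [norm_mul, Complex.norm_real, Real.norm_eq_abs]
      _ ≤ (∑ s', |S.U u s'| ^ 2) * ∑ s', ‖(1 + S.Sm ν) s' s / 2‖ ^ 2 :=
          Finset.sum_mul_sq_le_sq_mul_sq _ _ _
      _ ≤ 1 * ∑ s', ‖(1 + S.Sm ν) s' s / 2‖ ^ 2 := by
          refine mul_le_mul_of_nonneg_right ?_ (Finset.sum_nonneg fun _ _ => by positivity)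
          simpa using hU
      _ = _ := one_mul _
  exact (sq_le_sq₀ (norm_nonneg _) (norm_nonneg _)).1 h5

theorem one_step_src (hS : S.Good) (hν : Adm ν) (hL : S.Layered ℓ up R Δ N) {D A : ℝ} {x : X}
    (hx : ℓ x < N) (hU : ∑ s, S.U (up x) s ^ 2 ≤ 1) (hD : R + ‖ν (up x)‖ + S.y (up x) ≤ D)
    (hA : ∀ z ∈ S.Fs up x, ‖S.wv ν z‖ ≤ A) (hA0 : 0 ≤ A) :
    ‖S.wv ν x‖ ≤ D * A + √(Fintype.card ι : ℝ) := by
  have h := st_bound hS hL hx hD (stsrc S ν (up x)) (fun s => by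
    rw [eqnS hS hν (up x) s]
    rfl) hA hA0
  exact h.trans (add_le_add le_rfl (stsrc_le hS hν (up x) hU))

end Sys

end Pool.Agent.Lib.MP_562b47_mp.Str
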