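import Pool.Agent.Lib.MP_562b47_mp.Str.Frac
import Pool.Agent.Lib.MP_562b47_mp.Str.SegT

/-!
Module STR-TauInit (MP_562b47_mp, strips).  Fractional moments of the transmission block with leads:
`tau i j = ∫ hsn T_{[i,j]}^s`, `T_{[i,j]} = blk G_{[i,j], yLead i j η} i j`.  `W = card Q`.

PROOFS.
* `tau_le`: `seg_trans_le` gives `hsn T^2 ≤ W/4 ≤ W`.
* `tau_init`: `seg_trans` gives `∫ hsn T^2 ≤ C (W² (W(n+1))^ε)/n`, `n = j - i`; Jensen / Lyapunov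
  (`∫ f^(s/2) ≤ (∫ f)^(s/2)` on a probability space, `s ≤ 2`, e.g. `Real.inner_le_nnorm_mul_nnorm`-type
  `ConcaveOn` Jensen or `MeasureTheory.lpNorm` monotonicity), `f = hsn T^2`.
-/

open MeasureTheory Matrix Complex

namespace Pool.Agent.Lib.MP_562b47_mp.Str

variable {Q : Type} [Fintype Q] [DecidableEq Q]

/-- fractional moment of the transmission block with leads -/
noncomputable def tau (c s : ℝ) (L : ℕ) (h : Fin L → Matrix Q Q ℝ) (η : ℝ) (i j : ℕ) (hi : i < L)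
    (hj : j < L) : ℝ :=
  ∫ V, hsn (blk (Gs L h i j (yLead i j η) V) ⟨i, hi⟩ ⟨j, hj⟩) ^ s ∂(PX (Fin L × Q) c)

theorem yLead_pos {L : ℕ} {i j : ℕ} {η : ℝ} (hη : 0 < η) (x : Fin L × Q) : 0 < yLead i j η x := by
  unfold yLead
  split_ifs <;> linarith

theorem tau_nonneg {c s : ℝ} {L : ℕ} {h : Fin L → Matrix Q Q ℝ} {η : ℝ} {i j : ℕ}
    (hi : i < L) (hj : j < L) : 0 ≤ tau c s L h η i j hi hj :=
  integral_nonneg fun _ => Real.rpow_nonneg (hsn_nonneg _) _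

private theorem tau_sum_nonneg (A : Matrix Q Q ℂ) : 0 ≤ ∑ q, ∑ q', ‖A q q'‖ ^ 2 :=
  Finset.sum_nonneg fun _ _ => Finset.sum_nonneg fun _ _ => by positivity

private theorem tau_hsn_rpow (A : Matrix Q Q ℂ) (s : ℝ) :
    hsn A ^ s = (∑ q, ∑ q', ‖A q q'‖ ^ 2) ^ (s / 2) := by
  rw [hsn, Real.sqrt_eq_rpow, ← Real.rpow_mul (tau_sum_nonneg A)]
  congr 1
  ring

theorem tau_le {c s : ℝ} (hc : 0 < c) (hs : 0 < s) {L : ℕ} {h : Fin L → Matrix Q Q ℝ}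
    (hsy : ∀ k, (h k).IsSymm) {η : ℝ} (hη : 0 < η) {i j : ℕ} (hi : i < L) (hj : j < L) :
    tau c s L h η i j hi hj ≤ (Fintype.card Q : ℝ) ^ (s / 2) := by
  have := isProb_unif hc
  have : IsProbabilityMeasure (PX (Fin L × Q) c) := isProb_PX hc
  refine int_le (bmeas_hsn hsy i j (y := yLead i j η) (fun x => yLead_pos hη x) ⟨i, hi⟩ ⟨j, hj⟩ hs.le) fun V => ?_
  rw [tau_hsn_rpow]
  refine Real.rpow_le_rpow (tau_sum_nonneg _) ?_ (by linarith)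
  have h1 := seg_trans_le hsy hi hj hη (adm_real V)
  have h2 := tau_sum_nonneg (blk (Gs L h i j (yLead i j η) V) ⟨i, hi⟩ ⟨j, hj⟩)
  have h3 : ∑ q, ∑ q', ‖(blk (Gs L h i j (yLead i j η) V) ⟨i, hi⟩ ⟨j, hj⟩) q q'‖ ^ 2
      = ∑ q, ∑ q', ‖(segD L h i j (yLead i j η)).G (fun x => (V x : ℂ)) (⟨i, hi⟩, q)
        (⟨j, hj⟩, q')‖ ^ 2 := rfl
  linarith

theorem tau_init {c R ε s : ℝ} (hc : 0 < c) (hR : 0 ≤ R) (hε : 0 < ε) (hε1 : ε ≤ 1) (hs : 0 < s)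
    (hs2 : s ≤ 2) (Δ : ℕ) :
    ∃ C Cη : ℝ, 1 ≤ C ∧ 0 < Cη ∧ ∀ (Q : Type) [Fintype Q] [DecidableEq Q] (L : ℕ)
      (h : Fin L → Matrix Q Q ℝ) (i j : ℕ) (η : ℝ) (hi : i < L) (hj : j < L),
      (∀ k, (h k).IsSymm) → (∀ k q, ∑ q', |h k q q'| ≤ R) →
      (∀ k q, (Finset.univ.filter fun q' => h k q q' ≠ 0).card ≤ Δ) → i < j → 0 < η →
      η ≤ Real.exp (-(Cη * (Fintype.card Q * ((j : ℝ) - i + 1)))) →
      tau c s L h η i j hi hj
        ≤ (C * ((Fintype.card Q : ℝ) ^ 2 * (Fintype.card Q * ((j : ℝ) - i + 1)) ^ ε)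
          / ((j : ℝ) - i)) ^ (s / 2) := by
  obtain ⟨C, Cη, hC, hCη, H⟩ := seg_trans hc hR hε hε1 Δ
  refine ⟨C, Cη, hC, hCη, ?_⟩
  intro Q _ _ L h i j η hi hj hsy hrow hdeg hij hη hηle
  have := isProb_unif hc
  have : IsProbabilityMeasure (PX (Fin L × Q) c) := isProb_PX hc
  have hH := H Q L h i j η hi hj hsy hrow hdeg hij hη hηle
  set f : (Fin L × Q → ℝ) → ℝ := fun V =>
    ∑ q, ∑ q', ‖(blk (Gs L h i j (yLead i j η) V) ⟨i, hi⟩ ⟨j, hj⟩) q q'‖ ^ 2 with hf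
  have hf0 : ∀ V, 0 ≤ f V := fun V => tau_sum_nonneg _
  have hfm : BMeas f := by
    have h1 := bmeas_hsn hsy i j (y := yLead i j η) (fun x => yLead_pos hη x) ⟨i, hi⟩ ⟨j, hj⟩
      (show (0 : ℝ) ≤ 2 by norm_num)
    have h2 : f = fun V => hsn (blk (Gs L h i j (yLead i j η) V) ⟨i, hi⟩ ⟨j, hj⟩) ^ (2 : ℝ) := by
      funext V
      rw [tau_hsn_rpow, show (2 : ℝ) / 2 = 1 by norm_num, Real.rpow_one]
    rw [h2]
    exact h1
  have hfi : ∫ V, 4 * f V ∂(PX (Fin L × Q) c)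
      ≤ C * ((Fintype.card Q : ℝ) ^ 2 * (Fintype.card Q * ((j : ℝ) - i + 1)) ^ ε)
          / ((j : ℝ) - i) := hH
  rw [integral_const_mul] at hfi
  have hI0 : 0 ≤ ∫ V, f V ∂(PX (Fin L × Q) c) := integral_nonneg hf0
  have hg : BMeas fun V => f V ^ (s / 2) := by
    have h1 := bmeas_hsn hsy i j (y := yLead i j η) (fun x => yLead_pos hη x) ⟨i, hi⟩ ⟨j, hj⟩ hs.le
    have h2 : (fun V => f V ^ (s / 2))
        = fun V => hsn (blk (Gs L h i j (yLead i j η) V) ⟨i, hi⟩ ⟨j, hj⟩) ^ s := by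
      funext V
      rw [tau_hsn_rpow]
    rw [h2]
    exact h1
  have hJ : ∫ V, f V ^ (s / 2) ∂(PX (Fin L × Q) c)
      ≤ (∫ V, f V ∂(PX (Fin L × Q) c)) ^ (s / 2) := by
    have hcc : ConcaveOn ℝ (Set.Ici (0 : ℝ)) fun x : ℝ => x ^ (s / 2) :=
      Real.concaveOn_rpow (by linarith) (by linarith)
    refine hcc.le_map_integral ?_ isClosed_Ici (ae_of_all _ fun V => hf0 V)
      (hfm.integrable _) (hg.integrable _)
    exact (Real.continuous_rpow_const (by linarith)).continuousOn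
  have ht : tau c s L h η i j hi hj = ∫ V, f V ^ (s / 2) ∂(PX (Fin L × Q) c) := by
    unfold tau
    refine integral_congr_ae (ae_of_all _ fun V => ?_)
    exact tau_hsn_rpow _ _
  rw [ht]
  refine hJ.trans (Real.rpow_le_rpow hI0 ?_ (by linarith))
  linarith

end Pool.Agent.Lib.MP_562b47_mp.Str
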