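import Pool.Agent.Lib.MP_562b47_mp.Str.TauRec

/-!
Module STR-TauIt (MP_562b47_mp, strips).  Iteration of `tau_rec` at the length `n0 ≈ C0 W^(4+ε)`,
`W = card Q ≥ 1`, `s = 3/4`.

PROOF.  `ε' = ε/10`; `C := C` of `tau_rec` (`s = 3/4`), `C1, Cη` from `tau_init` (`ε'`, `s = 3/4`).
* Initial step: `A := C W^(3/4) tau i (i+n0) ≤ 1/2` (`n0 ≥ 1`).  By `tau_init`
  `tau i (i+n0) ≤ Y^(3/8)`, `Y = C1 W² (W(n0+1))^ε' / n0`, and `C W^(3/4) Y^(3/8) = C (W² Y)^(3/8)`;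
  `W² Y ≤ C1 W^(4+ε') (2 n0)^ε' / n0 ≤ 2 C1 W^(4+ε') n0^(ε'-1) ≤ 2 C1 W^(4+ε') (C0 W^(4+ε))^(ε'-1)
  = 2 C1 C0^(ε'-1) W^(5ε'+εε'-ε) ≤ 2 C1 C0^(-1/2)` (`5ε'+εε'-ε ≤ 0`, `ε' - 1 ≤ -1/2`, `C0 ≥ 1`); choose
  `C0 ≥ 1` with `2 C1 C0^(-1/2) ≤ (2C)^(-8/3)`, e.g. `C0 = (2 C1 (2C)^(8/3))^2`.
* Induction on `p` (for all `i ≤ j`): `p = 0`: `tau_le` (`s/2 = 3/8`).  Step: `k = i + n0`, `k + 3 ≤ j`
  and `p (n0+3) < j - (i+n0+3) + 1`: `tau i j ≤ C W^(3/4) tau i (i+n0) tau (i+n0+3) j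
  ≤ (1/2) (1/2)^p W^(3/8)`.
-/

open MeasureTheory Matrix Complex

namespace Pool.Agent.Lib.MP_562b47_mp.Str

private theorem tauIt_D {C C1 : ℝ} (hC : 1 ≤ C) (hC1 : 1 ≤ C1) :
    1 ≤ 2 * C1 * (2 * C) ^ (8 / 3 : ℝ) := by
  have h1 : (1 : ℝ) ≤ (2 * C) ^ (8 / 3 : ℝ) := Real.one_le_rpow (by linarith) (by norm_num)
  exact one_le_mul_of_one_le_of_one_le (by linarith) h1

/-- the numerics of the initial step -/
private theorem tauIt_num {C C1 ε : ℝ} (hC : 1 ≤ C) (hC1 : 1 ≤ C1) (hε : 0 < ε) (hε1 : ε ≤ 1)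
    {W n : ℝ} (hW : 1 ≤ W) (hn : (2 * C1 * (2 * C) ^ (8 / 3 : ℝ)) ^ 2 * W ^ (4 + ε) ≤ n) :
    C * W ^ (3 / 4 : ℝ) * (C1 * (W ^ 2 * (W * (n + 1)) ^ (ε / 10)) / n) ^ (3 / 8 : ℝ)
      ≤ 1 / 2 := by
  have hD1 := tauIt_D hC hC1
  set E : ℝ := (2 * C) ^ (8 / 3 : ℝ) with hE
  have hE0 : 0 < E := Real.rpow_pos_of_pos (by linarith) _
  set D : ℝ := 2 * C1 * E with hD
  have hD0 : 0 < D := by linarith
  have hW0 : 0 < W := by linarith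
  have hWe : 0 < W ^ (4 + ε) := Real.rpow_pos_of_pos hW0 _
  have hN0 : 0 < D ^ 2 * W ^ (4 + ε) := by positivity
  have hN1 : 1 ≤ D ^ 2 * W ^ (4 + ε) :=
    one_le_mul_of_one_le_of_one_le (by nlinarith) (Real.one_le_rpow hW (by linarith))
  have hn1 : 1 ≤ n := hN1.trans hn
  have hn0 : 0 < n := by linarith
  -- step 1
  have h1 : (W * (n + 1)) ^ (ε / 10) ≤ 2 * (W ^ (ε / 10) * n ^ (ε / 10)) := by
    calc (W * (n + 1)) ^ (ε / 10) ≤ (2 * (W * n)) ^ (ε / 10) := by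
          refine Real.rpow_le_rpow (by positivity) ?_ (by linarith)
          nlinarith
      _ = 2 ^ (ε / 10) * (W ^ (ε / 10) * n ^ (ε / 10)) := by
          rw [Real.mul_rpow (by norm_num) (by positivity), Real.mul_rpow hW0.le hn0.le]
      _ ≤ 2 * (W ^ (ε / 10) * n ^ (ε / 10)) := by
          refine mul_le_mul_of_nonneg_right ?_ (by positivity)
          calc (2 : ℝ) ^ (ε / 10) ≤ 2 ^ (1 : ℝ) :=
                Real.rpow_le_rpow_of_exponent_le (by norm_num) (by linarith)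
            _ = 2 := Real.rpow_one 2
  -- step 2
  have h2 : n ^ (ε / 10) / n = n ^ (ε / 10 - 1) := by
    rw [Real.rpow_sub hn0, Real.rpow_one]
  have h3 : n ^ (ε / 10 - 1) ≤ D⁻¹ * W ^ ((4 + ε) * (ε / 10 - 1)) := by
    calc n ^ (ε / 10 - 1) ≤ (D ^ 2 * W ^ (4 + ε)) ^ (ε / 10 - 1) :=
          Real.rpow_le_rpow_of_nonpos hN0 hn (by linarith)
      _ = D ^ (2 * (ε / 10 - 1)) * W ^ ((4 + ε) * (ε / 10 - 1)) := by
          rw [Real.mul_rpow (by positivity) hWe.le, ← Real.rpow_mul hW0.le,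
            ← Real.rpow_natCast D 2, ← Real.rpow_mul hD0.le]
          norm_num
      _ ≤ D⁻¹ * W ^ ((4 + ε) * (ε / 10 - 1)) := by
          refine mul_le_mul_of_nonneg_right ?_ (Real.rpow_nonneg hW0.le _)
          rw [← Real.rpow_neg_one]
          exact Real.rpow_le_rpow_of_exponent_le hD1 (by linarith)
  have h4 : W ^ 4 * W ^ (ε / 10) * W ^ ((4 + ε) * (ε / 10 - 1)) ≤ 1 := by
    rw [← Real.rpow_natCast W 4, ← Real.rpow_add hW0, ← Real.rpow_add hW0]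
    refine Real.rpow_le_one_of_one_le_of_nonpos hW ?_
    push_cast
    nlinarith
  have h5 : W ^ 2 * (C1 * (W ^ 2 * (W * (n + 1)) ^ (ε / 10)) / n) ≤ E⁻¹ := by
    calc W ^ 2 * (C1 * (W ^ 2 * (W * (n + 1)) ^ (ε / 10)) / n)
        = C1 * W ^ 4 / n * (W * (n + 1)) ^ (ε / 10) := by ring
      _ ≤ C1 * W ^ 4 / n * (2 * (W ^ (ε / 10) * n ^ (ε / 10))) :=
          mul_le_mul_of_nonneg_left h1 (by positivity)
      _ = 2 * C1 * (W ^ 4 * W ^ (ε / 10)) * (n ^ (ε / 10) / n) := by ring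
      _ = 2 * C1 * (W ^ 4 * W ^ (ε / 10)) * n ^ (ε / 10 - 1) := by rw [h2]
      _ ≤ 2 * C1 * (W ^ 4 * W ^ (ε / 10)) * (D⁻¹ * W ^ ((4 + ε) * (ε / 10 - 1))) :=
          mul_le_mul_of_nonneg_left h3 (by positivity)
      _ = 2 * C1 * D⁻¹ * (W ^ 4 * W ^ (ε / 10) * W ^ ((4 + ε) * (ε / 10 - 1))) := by ring
      _ ≤ 2 * C1 * D⁻¹ * 1 := mul_le_mul_of_nonneg_left h4 (by positivity)
      _ = E⁻¹ := by
          rw [hD]
          field_simp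
  have hY0 : 0 ≤ C1 * (W ^ 2 * (W * (n + 1)) ^ (ε / 10)) / n := by positivity
  have h6 : W ^ (3 / 4 : ℝ) = (W ^ 2) ^ (3 / 8 : ℝ) := by
    rw [← Real.rpow_natCast W 2, ← Real.rpow_mul hW0.le]
    norm_num
  rw [h6, mul_assoc, ← Real.mul_rpow (by positivity) hY0]
  have h7 : (W ^ 2 * (C1 * (W ^ 2 * (W * (n + 1)) ^ (ε / 10)) / n)) ^ (3 / 8 : ℝ)
      ≤ (2 * C)⁻¹ := by
    refine (Real.rpow_le_rpow (by positivity) h5 (by norm_num)).trans (le_of_eq ?_)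
    rw [hE, ← Real.rpow_neg (by linarith), ← Real.rpow_mul (by linarith),
      ← Real.rpow_neg_one]
    norm_num
  refine (mul_le_mul_of_nonneg_left h7 (by linarith)).trans (le_of_eq ?_)
  have : C ≠ 0 := by linarith
  field_simp

theorem tau_iter {c R ε : ℝ} (hc : 0 < c) (hR : 0 ≤ R) (hε : 0 < ε) (hε1 : ε ≤ 1) (Δ : ℕ) :
    ∃ C0 Cη : ℝ, 1 ≤ C0 ∧ 0 < Cη ∧ ∀ (Q : Type) [Fintype Q] [DecidableEq Q] [Nonempty Q] (L : ℕ)
      (h : Fin L → Matrix Q Q ℝ) (η : ℝ) (n0 : ℕ),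
      (∀ k, (h k).IsSymm) → (∀ k q, ∑ q', |h k q q'| ≤ R) →
      (∀ k q, (Finset.univ.filter fun q' => h k q q' ≠ 0).card ≤ Δ) → 0 < η → η ≤ 1 →
      C0 * (Fintype.card Q : ℝ) ^ (4 + ε) ≤ n0 →
      η ≤ Real.exp (-(Cη * (Fintype.card Q * ((n0 : ℝ) + 1)))) →
      ∀ (p i j : ℕ) (hj : j < L) (_ : i ≤ j), p * (n0 + 3) < j - i + 1 →
        tau c (3 / 4) L h η i j (by omega) hj
          ≤ (1 / 2) ^ p * (Fintype.card Q : ℝ) ^ (3 / 8 : ℝ) := by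
  obtain ⟨C, hC, hrec⟩ := tau_rec hc hR (show (0 : ℝ) < 3 / 4 by norm_num)
    (show (3 / 4 : ℝ) < 1 by norm_num)
  obtain ⟨C1, Cη, hC1, hCη, hinit⟩ := tau_init (ε := ε / 10) (s := 3 / 4) hc hR (by linarith)
    (by linarith) (by norm_num) (by norm_num) Δ
  have hD := tauIt_D hC hC1
  refine ⟨(2 * C1 * (2 * C) ^ (8 / 3 : ℝ)) ^ 2, Cη, by nlinarith, hCη, ?_⟩
  intro Q _ _ _ L h η n0 hsy hrow hdeg hη hη1 hn0 hηle
  have hW : (1 : ℝ) ≤ (Fintype.card Q : ℝ) := by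
    exact_mod_cast Nat.one_le_iff_ne_zero.mpr Fintype.card_ne_zero
  have hnum := tauIt_num hC hC1 hε hε1 hW hn0
  have hn1 : 1 ≤ n0 := by
    have h1 : (1 : ℝ) ≤ n0 := by
      refine le_trans ?_ hn0
      have h2 : (1 : ℝ) ≤ (Fintype.card Q : ℝ) ^ (4 + ε) := Real.one_le_rpow hW (by linarith)
      have h3 : (1 : ℝ) ≤ (2 * C1 * (2 * C) ^ (8 / 3 : ℝ)) ^ 2 := by nlinarith
      exact one_le_mul_of_one_le_of_one_le h3 h2
    exact_mod_cast h1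
  intro p
  induction p with
  | zero =>
    intro i j hj hij _
    have h1 := tau_le (s := 3 / 4) hc (by norm_num) hsy hη (i := i) (j := j)
      (lt_of_le_of_lt hij hj) hj
    rw [pow_zero, one_mul]
    refine h1.trans (le_of_eq ?_)
    norm_num
  | succ p ih =>
    intro i j hj hij hp
    have e1 : (p + 1) * (n0 + 3) = p * (n0 + 3) + (n0 + 3) := by ring
    rw [e1] at hp
    have hk3 : i + n0 + 3 ≤ j := by omega
    have h1 := hrec Q L h η hsy hrow hη hη1 i (i + n0) j hj (by omega) hk3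
    have h2 := ih (i + n0 + 3) j hj hk3 (by omega)
    have h3 := hinit Q L h i (i + n0) η (by omega) (by omega) hsy hrow hdeg (by omega) hη (by
      have e2 : ((i + n0 : ℕ) : ℝ) - i = n0 := by push_cast; ring
      rw [e2]
      exact hηle)
    have e2 : ((i + n0 : ℕ) : ℝ) - i = n0 := by push_cast; ring
    rw [e2, show (3 / 4 : ℝ) / 2 = 3 / 8 by norm_num] at h3
    have hW0 : (0 : ℝ) ≤ (Fintype.card Q : ℝ) ^ (3 / 4 : ℝ) := Real.rpow_nonneg (by linarith) _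
    have hCW : 0 ≤ C * (Fintype.card Q : ℝ) ^ (3 / 4 : ℝ) := mul_nonneg (by linarith) hW0
    have ht0 : 0 ≤ tau c (3 / 4) L h η (i + n0 + 3) j (by omega) hj := tau_nonneg _ _
    have h4 : tau c (3 / 4) L h η i (i + n0) (by omega) (by omega)
        * tau c (3 / 4) L h η (i + n0 + 3) j (by omega) hj
        ≤ (C1 * ((Fintype.card Q : ℝ) ^ 2 * (Fintype.card Q * ((n0 : ℝ) + 1)) ^ (ε / 10))
          / n0) ^ (3 / 8 : ℝ) * ((1 / 2) ^ p * (Fintype.card Q : ℝ) ^ (3 / 8 : ℝ)) :=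
      mul_le_mul h3 h2 ht0 (Real.rpow_nonneg (by positivity) _)
    have h5 : 0 ≤ (1 / 2 : ℝ) ^ p * (Fintype.card Q : ℝ) ^ (3 / 8 : ℝ) := by positivity
    calc tau c (3 / 4) L h η i j (by omega) hj
        ≤ C * (Fintype.card Q : ℝ) ^ (3 / 4 : ℝ) *
          ((C1 * ((Fintype.card Q : ℝ) ^ 2 * (Fintype.card Q * ((n0 : ℝ) + 1)) ^ (ε / 10))
          / n0) ^ (3 / 8 : ℝ) * ((1 / 2) ^ p * (Fintype.card Q : ℝ) ^ (3 / 8 : ℝ))) :=
          h1.trans (mul_le_mul_of_nonneg_left h4 hCW)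
      _ = (C * (Fintype.card Q : ℝ) ^ (3 / 4 : ℝ) *
          (C1 * ((Fintype.card Q : ℝ) ^ 2 * (Fintype.card Q * ((n0 : ℝ) + 1)) ^ (ε / 10))
          / n0) ^ (3 / 8 : ℝ)) * ((1 / 2) ^ p * (Fintype.card Q : ℝ) ^ (3 / 8 : ℝ)) := by ring
      _ ≤ 1 / 2 * ((1 / 2) ^ p * (Fintype.card Q : ℝ) ^ (3 / 8 : ℝ)) :=
          mul_le_mul_of_nonneg_right hnum h5
      _ = (1 / 2) ^ (p + 1) * (Fintype.card Q : ℝ) ^ (3 / 8 : ℝ) := by ring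

end Pool.Agent.Lib.MP_562b47_mp.Str
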