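import Pool.Agent.Lib.MP_562b47_mp.Str.Weg
import Pool.Agent.Lib.MP_562b47_mp.Str.Lead
import Pool.Agent.Lib.MP_562b47_mp.Str.TauInit

/-!
Module STR-TauRec (MP_562b47_mp, strips).  Fractional moments of the transmission block with leads:
`tau i j = ∫ hsn T_{[i,j]}^s`, `T_{[i,j]} = blk G_{[i,j], yLead i j η} i j`.  `W = card Q`.

PROOF.
* `tau_rec`.  For `V` in the cube (`ae_cube`), by `lead_factor`, `hsn_mul`, `hsn_leadX_le`
  (`A = (2+R+c)^2`): `hsn T_{ij} ≤ hsn T_{ik} * A (∑_{a,b ∈ {k+1,k+2}} u_ab) * hsn T_{k+3,j}`,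
  `u_ab = √W + hsn (blk G_{[i,j]} a b)`; `(∑ u_ab)^s ≤ ∑ u_ab^s` (`Real.rpow_add_le_add_rpow`).
  With `f = hsn T_{ik}^s * hsn T_{k+3,j}^s` (`BMeas`, does not depend on the layers `k+1, k+2`:
  `blk_agree`): `resamp2 hc ⟨k+1,_⟩ ⟨k+2,_⟩` with `d = u_ab^s` and the bound of `weg_tube`
  (`k := ⟨k+1,_⟩, l := ⟨k+2,_⟩`) gives `∫ f u_ab^s ≤ C W^s ∫ f`; then `indep hc k`:
  `∫ f = tau i k * tau (k+3) j` (`mix_of_le`, `mix_of_lt`; see the proof of `am_rec` in `Frac` for all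
  these steps).  Constant `4 A^s C` (and at least 1).
-/

open MeasureTheory Matrix Complex

namespace Pool.Agent.Lib.MP_562b47_mp.Str

private theorem tauR_bmeas {Ω : Type*} [MeasurableSpace Ω] {g : Ω → ℝ} {s w : ℝ} (hs : 0 ≤ s)
    (hw : 0 ≤ w) (hg : BMeas g) (hg0 : ∀ x, 0 ≤ g x) : BMeas fun x => (w + g x) ^ s := by
  obtain ⟨C, hC⟩ := hg.bdd
  refine ⟨?_, (w + C) ^ s, fun x => ?_⟩
  · have h1 : Measurable fun x => w + g x := measurable_const.add hg.meas.measurable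
    exact (h1.pow_const s).stronglyMeasurable
  · have h2 : 0 ≤ w + g x := add_nonneg hw (hg0 x)
    rw [Real.norm_of_nonneg (Real.rpow_nonneg h2 s)]
    have h3 := (Real.le_norm_self (g x)).trans (hC x)
    exact Real.rpow_le_rpow h2 (by linarith) hs

private theorem tauR_num {s A x w a b d e : ℝ} (hs : 0 < s) (hs1 : s < 1) (hA : 0 ≤ A)
    (hx : 0 ≤ x) (hw : 0 ≤ w) (ha : 0 ≤ a) (hb : 0 ≤ b) (hd : 0 ≤ d) (he : 0 ≤ e)
    (hle : x ≤ A * (w + a + b + d + e)) :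
    x ^ s ≤ A ^ s * ((w + a) ^ s + (w + b) ^ s + (w + d) ^ s + (w + e) ^ s) := by
  have e2 : x ≤ A * ((w + a) + (w + b) + (w + d) + (w + e)) :=
    hle.trans (mul_le_mul_of_nonneg_left (by linarith) hA)
  refine (Real.rpow_le_rpow hx e2 hs.le).trans ?_
  have w1 : 0 ≤ w + a := add_nonneg hw ha
  have w2 : 0 ≤ w + b := add_nonneg hw hb
  have w3 : 0 ≤ w + d := add_nonneg hw hd
  have w4 : 0 ≤ w + e := add_nonneg hw he
  rw [Real.mul_rpow hA (by linarith)]
  refine mul_le_mul_of_nonneg_left ?_ (Real.rpow_nonneg hA _)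
  have r1 := Real.rpow_add_le_add_rpow (show 0 ≤ (w + a) + (w + b) + (w + d) by linarith)
    w4 hs.le hs1.le
  have r2 := Real.rpow_add_le_add_rpow (show 0 ≤ (w + a) + (w + b) by linarith)
    w3 hs.le hs1.le
  have r3 := Real.rpow_add_le_add_rpow w1 w2 hs.le hs1.le
  linarith

private theorem tauR_int4 {Ω : Type*} [MeasurableSpace Ω] {μ : Measure Ω} {a b d e : Ω → ℝ}
    (ha : Integrable a μ) (hb : Integrable b μ) (hd : Integrable d μ) (he : Integrable e μ) :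
    ∫ x, (a x + b x + d x + e x) ∂μ = ∫ x, a x ∂μ + ∫ x, b x ∂μ + ∫ x, d x ∂μ
      + ∫ x, e x ∂μ := by
  have h1 : ∫ x, (a x + b x + d x + e x) ∂μ = ∫ x, (a x + b x + d x) ∂μ + ∫ x, e x ∂μ :=
    integral_add ((ha.add hb).add hd) he
  have h2 : ∫ x, (a x + b x + d x) ∂μ = ∫ x, (a x + b x) ∂μ + ∫ x, d x ∂μ :=
    integral_add (ha.add hb) hd
  have h3 : ∫ x, (a x + b x) ∂μ = ∫ x, a x ∂μ + ∫ x, b x ∂μ := integral_add ha hb
  rw [h1, h2, h3]

theorem tau_rec {c R s : ℝ} (hc : 0 < c) (hR : 0 ≤ R) (hs : 0 < s) (hs1 : s < 1) :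
    ∃ C : ℝ, 1 ≤ C ∧
    ∀ (Q : Type) [Fintype Q] [DecidableEq Q] (L : ℕ) (h : Fin L → Matrix Q Q ℝ) (η : ℝ),
      (∀ k, (h k).IsSymm) → (∀ k q, ∑ q', |h k q q'| ≤ R) → 0 < η → η ≤ 1 →
      ∀ (i k j : ℕ) (hj : j < L) (_ : i ≤ k) (_ : k + 3 ≤ j),
        tau c s L h η i j (by omega) hj
          ≤ C * (Fintype.card Q : ℝ) ^ s * (tau c s L h η i k (by omega) (by omega)
            * tau c s L h η (k + 3) j (by omega) hj) := by
  obtain ⟨C, hC1, hC⟩ := weg_tube hc hs hs1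
  have hA1 : (1 : ℝ) ≤ (2 + R + c) ^ 2 := by nlinarith
  have hAs : (1 : ℝ) ≤ ((2 + R + c) ^ 2) ^ s := Real.one_le_rpow hA1 hs.le
  have hAC : (1 : ℝ) ≤ ((2 + R + c) ^ 2) ^ s * C := one_le_mul_of_one_le_of_one_le hAs hC1
  refine ⟨4 * (((2 + R + c) ^ 2) ^ s * C), by linarith, ?_⟩
  intro Q _ _ L h η hsy hrow hη hη1 i k j hj hik hkj
  have := isProb_unif hc
  have : IsProbabilityMeasure (PX (Fin L × Q) c) := isProb_PX hc
  have hy : ∀ (i j : ℕ) (x : Fin L × Q), 0 < yLead i j η x := fun i j x => yLead_pos hη x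
  have hB : ∀ (i j : ℕ) (k l : Fin L), BMeas fun V : Fin L × Q → ℝ =>
      hsn (blk (Gs L h i j (yLead i j η) V) k l) ^ s := fun i j k l =>
    bmeas_hsn hsy i j (hy i j) k l hs.le
  have h0 : ∀ (i j : ℕ) (k l : Fin L) (V : Fin L × Q → ℝ),
      0 ≤ hsn (blk (Gs L h i j (yLead i j η) V) k l) ^ s := fun i j k l V =>
    Real.rpow_nonneg (hsn_nonneg _) s
  -- the four factors
  have hU : ∀ a b : Fin L, BMeas fun V : Fin L × Q → ℝ =>
      (√(Fintype.card Q) + hsn (blk (Gs L h i j (yLead i j η) V) a b)) ^ s := by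
    intro a b
    refine tauR_bmeas hs.le (Real.sqrt_nonneg _) ?_ (fun V => hsn_nonneg _)
    have h1 := bmeas_hsn hsy i j (hy i j) a b (show (0 : ℝ) ≤ 1 by norm_num)
    simpa only [Real.rpow_one] using h1
  set m1 : Fin L := ⟨k + 1, by omega⟩ with hm1
  set m2 : Fin L := ⟨k + 2, by omega⟩ with hm2
  set f : (Fin L × Q → ℝ) → ℝ := fun V =>
    hsn (blk (Gs L h i k (yLead i k η) V) ⟨i, by omega⟩ ⟨k, by omega⟩) ^ s *
      hsn (blk (Gs L h (k + 3) j (yLead (k + 3) j η) V) ⟨k + 3, by omega⟩ ⟨j, hj⟩) ^ s with hf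
  set u : Fin L → Fin L → (Fin L × Q → ℝ) → ℝ := fun a b V =>
    (√(Fintype.card Q) + hsn (blk (Gs L h i j (yLead i j η) V) a b)) ^ s with hu
  have hF : BMeas f := (hB i k _ _).mul (hB (k + 3) j _ _)
  have hf0 : ∀ V, 0 ≤ f V := fun V => mul_nonneg (h0 _ _ _ _ _) (h0 _ _ _ _ _)
  have hu0 : ∀ a b V, 0 ≤ u a b V := fun a b V =>
    Real.rpow_nonneg (add_nonneg (Real.sqrt_nonneg _) (hsn_nonneg _)) _
  have hfm : ∀ V V', f (mxL m1 m2 V V') = f V := by
    intro V V'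
    simp only [hf]
    rw [blk_agree hsy (hy i k) (V := V) (V' := mxL m1 m2 V V')
      (i := i) (j := k) (fun x h1 h2 => ?_) ⟨le_refl i, hik⟩ ⟨hik, le_refl k⟩,
      blk_agree hsy (hy (k + 3) j) (V := V) (V' := mxL m1 m2 V V')
      (i := k + 3) (j := j) (fun x h1 h2 => ?_) ⟨le_refl _, by
        show k + 3 ≤ j
        omega⟩ ⟨hkj, le_refl j⟩]
    · unfold mxL
      rw [if_neg]
      rintro (h3 | h3)
      · have := congrArg Fin.val h3
        simp only [hm1] at this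
        omega
      · have := congrArg Fin.val h3
        simp only [hm2] at this
        omega
    · unfold mxL
      rw [if_neg]
      rintro (h3 | h3)
      · have := congrArg Fin.val h3
        simp only [hm1] at this
        omega
      · have := congrArg Fin.val h3
        simp only [hm2] at this
        omega
  have hres : ∀ a b : Fin L, (a = m1 ∨ a = m2) → (b = m1 ∨ b = m2) →
      ∫ V, f V * u a b V ∂(PX (Fin L × Q) c)
        ≤ C * (Fintype.card Q : ℝ) ^ s * ∫ V, f V ∂(PX (Fin L × Q) c) := by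
    intro a b ha hb
    exact resamp2 hc m1 m2 hF (hU a b) hf0 hfm fun V =>
      hC Q L h i j (yLead i j η) m1 m2 a b hsy (hy i j) ha hb V
  have hint : ∀ a b : Fin L, Integrable (fun V => f V * u a b V) (PX (Fin L × Q) c) :=
    fun a b => (hF.mul (hU a b)).integrable _
  -- the pointwise bound
  have hpt : ∀ V : Fin L × Q → ℝ, (∀ x, V x ∈ Set.Icc (-c) c) →
      hsn (blk (Gs L h i j (yLead i j η) V) ⟨i, by omega⟩ ⟨j, hj⟩) ^ s
        ≤ ((2 + R + c) ^ 2) ^ s * (f V * u m1 m1 V + f V * u m1 m2 V + f V * u m2 m1 V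
          + f V * u m2 m2 V) := by
    intro V hV
    rw [lead_factor hsy hη hik hkj hj V]
    have e1 := hsn_leadX_le hsy hR hc hrow hη hη1 hik hkj hj hV
    have e3 := tauR_num hs hs1 (show (0 : ℝ) ≤ (2 + R + c) ^ 2 from sq_nonneg _)
      (hsn_nonneg _) (Real.sqrt_nonneg _) (hsn_nonneg _) (hsn_nonneg _) (hsn_nonneg _)
      (hsn_nonneg _) e1
    have e4 := (hsn_mul_rpow hs (blk (Gs L h i k (yLead i k η) V) ⟨i, by omega⟩ ⟨k, by omega⟩ *
      leadX (Gs L h i j (yLead i j η) V) ⟨k, by omega⟩ ⟨k + 1, by omega⟩ ⟨k + 2, by omega⟩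
        ⟨k + 3, by omega⟩)
      (blk (Gs L h (k + 3) j (yLead (k + 3) j η) V) ⟨k + 3, by omega⟩ ⟨j, hj⟩)).trans
      (mul_le_mul_of_nonneg_right (hsn_mul_rpow hs _ _) (h0 _ _ _ _ _))
    refine e4.trans ?_
    refine (mul_le_mul_of_nonneg_right (mul_le_mul_of_nonneg_left e3 (h0 _ _ _ _ _))
      (h0 _ _ _ _ _)).trans (le_of_eq ?_)
    simp only [hf, hu, hm1, hm2]
    ring
  -- integrate
  have hsum : tau c s L h η i j (by omega) hj
      ≤ ((2 + R + c) ^ 2) ^ s * (4 * (C * (Fintype.card Q : ℝ) ^ s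
        * ∫ V, f V ∂(PX (Fin L × Q) c))) := by
    calc tau c s L h η i j (by omega) hj
        ≤ ∫ V, ((2 + R + c) ^ 2) ^ s * (f V * u m1 m1 V + f V * u m1 m2 V + f V * u m2 m1 V
          + f V * u m2 m2 V) ∂(PX (Fin L × Q) c) := by
          unfold tau
          refine integral_mono_ae ((hB i j _ _).integrable _) ?_ ?_
          · exact (((((hint m1 m1).add (hint m1 m2)).add (hint m2 m1)).add
              (hint m2 m2))).const_mul _
          · filter_upwards [ae_cube (X := Fin L × Q) hc] with V hV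
            exact hpt V hV
      _ = ((2 + R + c) ^ 2) ^ s * (∫ V, f V * u m1 m1 V ∂(PX (Fin L × Q) c)
            + ∫ V, f V * u m1 m2 V ∂(PX (Fin L × Q) c)
            + ∫ V, f V * u m2 m1 V ∂(PX (Fin L × Q) c)
            + ∫ V, f V * u m2 m2 V ∂(PX (Fin L × Q) c)) := by
          rw [integral_const_mul, tauR_int4 (hint m1 m1) (hint m1 m2) (hint m2 m1) (hint m2 m2)]
      _ ≤ _ := by
          refine mul_le_mul_of_nonneg_left ?_ (by positivity)
          have t11 := hres m1 m1 (Or.inl rfl) (Or.inl rfl)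
          have t12 := hres m1 m2 (Or.inl rfl) (Or.inr rfl)
          have t21 := hres m2 m1 (Or.inr rfl) (Or.inl rfl)
          have t22 := hres m2 m2 (Or.inr rfl) (Or.inr rfl)
          linarith
  have hind : ∫ V, f V ∂(PX (Fin L × Q) c)
      = tau c s L h η i k (by omega) (by omega) * tau c s L h η (k + 3) j (by omega) hj := by
    refine indep hc k (hB i k _ _) (hB (k + 3) j _ _) (fun V V' => ?_) fun V V' => ?_
    · rw [blk_agree hsy (hy i k) (V := V) (i := i) (j := k) (fun x h1 h2 => mix_of_le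
        (ℓ := fun x : Fin L × Q => (x.1 : ℕ)) h2 V V')
        ⟨le_refl i, hik⟩ ⟨hik, le_refl k⟩]
    · rw [blk_agree hsy (hy (k + 3) j) (V := V') (i := k + 3) (j := j) (fun x h1 h2 =>
        mix_of_lt (ℓ := fun x : Fin L × Q => (x.1 : ℕ)) (show k < (x.1 : ℕ) by omega)
          V V') ⟨le_refl _, by
        show k + 3 ≤ j
        omega⟩ ⟨hkj, le_refl j⟩]
  rw [← hind]
  refine hsum.trans (le_of_eq ?_)
  ring

end Pool.Agent.Lib.MP_562b47_mp.Str
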