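import Pool.Agent.Lib.MP_562b47_mp.Str.SegT

/-!
Module STR-Tube1 (MP_562b47_mp, strips).  The mean transmission at zero absorption.

`Klead L h V = segH L h 0 (L-1) + diag V + i 1_{first layer} + i 1_{last layer}` and the transmission is
`4 ∑_{q,q'} |(Klead⁻¹)((0,q),(L-1,q'))|²` (`Matrix` inverse: `0` if the determinant vanishes).

PROOF.  Let `T_η V` be the integrand of `seg_trans` for `i = 0`, `j = L - 1`, `η = η_k → 0+`.  Its matrix
is `Klead + i η`.  For every `V`: if `det (Klead) ≠ 0` then `T_{η_k} V → T V` (continuity of the inverse: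
`det`, `adjugate` are continuous); if `det (Klead) = 0` then the inverse is `0` and `T V = 0`.  In both
cases `T V ≤ liminf T_{η_k} V` and `T V ≤ card Q` (`seg_trans_le`).  Fatou (`lintegral_liminf_le`) for
`ENNReal.ofReal (T_η V)`.  `V ↦ T V` is measurable (the inverse matrix is
`Ring.inverse det • adjugate`, a measurable function) and bounded, so the Bochner integral equals the
`lintegral`; `∫ T ≤ liminf ∫ T_{η_k} ≤ C (...)`.
Here `j - i = L - 1 ≥ L / 2` and `j - i + 1 = L`: constant `2 C`.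
-/

open MeasureTheory Matrix Complex

namespace Pool.Agent.Lib.MP_562b47_mp.Str

variable {Q : Type} [Fintype Q] [DecidableEq Q]

/-- the matrix of the tube with leads -/
noncomputable def Klead (L : ℕ) (h : Fin L → Matrix Q Q ℝ) (V : Fin L × Q → ℝ) :
    Matrix (Fin L × Q) (Fin L × Q) ℂ :=
  (segH L h 0 (L - 1)).map Complex.ofReal
    + diagonal (fun x => (V x : ℂ) + I * ((if (x.1 : ℕ) = 0 then 1 else 0)
        + (if (x.1 : ℕ) = L - 1 then 1 else 0)))

/-- the transmission -/
noncomputable def trm (L : ℕ) (h : Fin L → Matrix Q Q ℝ) (V : Fin L × Q → ℝ) : ℝ :=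
  4 * ∑ x : Fin L × Q, ∑ z : Fin L × Q,
    if (x.1 : ℕ) = 0 ∧ (z.1 : ℕ) = L - 1 then ‖(Klead L h V)⁻¹ x z‖ ^ 2 else 0

section tube1

variable {n : Type} [Fintype n] [DecidableEq n]

private theorem tube1_meas_inv {Ω : Type*} [MeasurableSpace Ω] {K : Ω → Matrix n n ℂ}
    (hK : ∀ x z, Measurable fun w => K w x z) (x z : n) : Measurable fun w => (K w)⁻¹ x z := by
  have hdet : ∀ {M : Ω → Matrix n n ℂ}, (∀ x z, Measurable fun w => M w x z) →
      Measurable fun w => (M w).det := by
    intro M hM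
    simp_rw [Matrix.det_apply]
    refine Finset.measurable_sum _ fun σ _ => ?_
    exact (Finset.measurable_prod _ fun i _ => hM _ _).const_smul _
  have hadj : Measurable fun w => (K w).adjugate x z := by
    simp_rw [Matrix.adjugate_apply]
    refine hdet fun a b => ?_
    by_cases ha : a = z
    · subst ha
      simp only [Matrix.updateRow_self]
      exact measurable_const
    · simp only [Matrix.updateRow_ne ha]
      exact hK a b
  have h1 : (fun w => (K w)⁻¹ x z) = fun w => ((K w).det)⁻¹ * (K w).adjugate x z := by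
    funext w
    rw [Matrix.inv_def, Matrix.smul_apply, Ring.inverse_eq_inv', smul_eq_mul]
  rw [h1]
  exact (hdet hK).inv.mul hadj

/-- lower semicontinuity of nonnegative functions of the inverse matrix -/
private theorem tube1_lsc {g : Matrix n n ℂ → ℝ} (hg : Continuous g) (hg0 : g 0 = 0)
    {A : Matrix n n ℂ} {B : ℕ → Matrix n n ℂ} (hB : Filter.Tendsto B Filter.atTop (nhds A)) :
    ENNReal.ofReal (g A⁻¹) ≤ Filter.liminf (fun k => ENNReal.ofReal (g (B k)⁻¹)) Filter.atTop := by
  by_cases hdet : A.det = 0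
  · have h1 : A⁻¹ = 0 := by
      rw [Matrix.inv_def, hdet, Ring.inverse_zero, zero_smul]
    rw [h1, hg0, ENNReal.ofReal_zero]
    exact zero_le
  · have h1 : ContinuousAt Ring.inverse A.det := by
      rw [Ring.inverse_eq_inv']
      exact continuousAt_inv₀ hdet
    have h2 := (continuousAt_matrix_inv A h1).tendsto.comp hB
    have h3 := (hg.tendsto A⁻¹).comp h2
    exact (ENNReal.tendsto_ofReal h3).liminf_eq.ge

end tube1

omit [Fintype Q] in
private theorem tube1_K (L : ℕ) (h : Fin L → Matrix Q Q ℝ) (η : ℝ) (V : Fin L × Q → ℝ) :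
    (segD L h 0 (L - 1) (yLead 0 (L - 1) η)).K (fun x => ((V x : ℝ) : ℂ))
      = Klead L h V + ((η : ℂ) * I) • (1 : Matrix (Fin L × Q) (Fin L × Q) ℂ) := by
  ext x z
  have hU : (segD L h 0 (L - 1) (yLead 0 (L - 1) η)).U.map Complex.ofReal
      * ((segD L h 0 (L - 1) (yLead 0 (L - 1) η)).U.map Complex.ofReal)ᵀ = 0 := by
    ext a b
    rw [Matrix.mul_apply]
    exact Finset.sum_empty
  unfold Sys.K Klead
  rw [hU, smul_zero, add_zero]
  show ((segH L h 0 (L - 1)).map Complex.ofReal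
      + diagonal (fun x => (V x : ℂ) + ((yLead 0 (L - 1) η x : ℝ) : ℂ) * I)) x z = _
  rw [Matrix.add_apply, Matrix.add_apply, Matrix.add_apply, Matrix.smul_apply]
  by_cases hxz : x = z
  · rw [hxz, diagonal_apply_eq, diagonal_apply_eq, Matrix.one_apply_eq]
    unfold yLead
    push_cast
    simp only [smul_eq_mul, mul_one]
    split_ifs <;> push_cast <;> ring
  · rw [diagonal_apply_ne _ hxz, diagonal_apply_ne _ hxz, Matrix.one_apply_ne hxz, smul_zero,
      add_zero, add_zero]

omit [DecidableEq Q] in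
/-- the sum over the pairs (first layer, last layer) -/
private theorem tube1_sum {L : ℕ} (hL : 2 ≤ L) (f : Fin L × Q → Fin L × Q → ℝ) :
    (∑ x : Fin L × Q, ∑ z : Fin L × Q,
      if (x.1 : ℕ) = 0 ∧ (z.1 : ℕ) = L - 1 then f x z else 0)
      = ∑ q, ∑ q', f (⟨0, by omega⟩, q) (⟨L - 1, by omega⟩, q') := by
  rw [Fintype.sum_prod_type]
  rw [Finset.sum_eq_single (⟨0, by omega⟩ : Fin L)]
  · refine Finset.sum_congr rfl fun q _ => ?_
    rw [Fintype.sum_prod_type, Finset.sum_eq_single (⟨L - 1, by omega⟩ : Fin L)]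
    · refine Finset.sum_congr rfl fun q' _ => ?_
      rw [if_pos ⟨rfl, rfl⟩]
    · intro b _ hb
      refine Finset.sum_eq_zero fun q' _ => ?_
      rw [if_neg]
      rintro ⟨-, h2⟩
      exact hb (Fin.ext h2)
    · intro h
      exact absurd (Finset.mem_univ _) h
  · intro b _ hb
    refine Finset.sum_eq_zero fun q _ => Finset.sum_eq_zero fun z _ => ?_
    rw [if_neg]
    rintro ⟨h1, -⟩
    exact hb (Fin.ext h1)
  · intro h
    exact absurd (Finset.mem_univ _) h

theorem tube_one {c R ε : ℝ} (hc : 0 < c) (hR : 0 ≤ R) (hε : 0 < ε) (hε1 : ε ≤ 1) (Δ : ℕ) :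
    ∃ C : ℝ, 1 ≤ C ∧ ∀ (Q : Type) [Fintype Q] [DecidableEq Q] (L : ℕ)
      (h : Fin L → Matrix Q Q ℝ), 2 ≤ L →
      (∀ k, (h k).IsSymm) → (∀ k q, ∑ q', |h k q q'| ≤ R) →
      (∀ k q, (Finset.univ.filter fun q' => h k q q' ≠ 0).card ≤ Δ) →
      ∫ V, trm L h V ∂(PX (Fin L × Q) c)
        ≤ C * (Fintype.card Q * L) ^ ε * (Fintype.card Q : ℝ) ^ 2 / L := by
  obtain ⟨C, Cη, hC1, hCη, hseg⟩ := seg_trans hc hR hε hε1 Δ
  refine ⟨2 * C, by linarith, ?_⟩
  intro Q _ _ L h hL hs hrow hdeg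
  have hprob := isProb_PX (X := Fin L × Q) hc
  have hL0 : 0 < L := by omega
  have hL1 : L - 1 < L := by omega
  have hLr : (2 : ℝ) ≤ L := by exact_mod_cast hL
  have hcast : ((L - 1 : ℕ) : ℝ) = (L : ℝ) - 1 := by
    rw [Nat.cast_sub (by omega), Nat.cast_one]
  set η0 : ℝ := Real.exp (-(Cη * (Fintype.card Q * (L : ℝ)))) with hη0
  have hη0p : 0 < η0 := Real.exp_pos _
  -- the approximations
  set ηk : ℕ → ℝ := fun k => η0 / ((k : ℝ) + 1) with hηk
  have hηp : ∀ k, 0 < ηk k := fun k => by positivity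
  have hηle : ∀ k, ηk k ≤ η0 := fun k => by
    refine div_le_self hη0p.le ?_
    have : (0 : ℝ) ≤ k := Nat.cast_nonneg _
    linarith
  have hη0t : Filter.Tendsto ηk Filter.atTop (nhds 0) := by
    have h1 : Filter.Tendsto (fun k : ℕ => η0 * (1 / ((k : ℝ) + 1))) Filter.atTop (nhds (η0 * 0)) :=
      tendsto_one_div_add_atTop_nhds_zero_nat.const_mul η0
    rw [mul_zero] at h1
    refine h1.congr fun k => ?_
    rw [hηk]
    ring
  set g : Matrix (Fin L × Q) (Fin L × Q) ℂ → ℝ := fun M => 4 * ∑ x : Fin L × Q, ∑ z : Fin L × Q,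
    if (x.1 : ℕ) = 0 ∧ (z.1 : ℕ) = L - 1 then ‖M x z‖ ^ 2 else 0 with hg
  have hgc : Continuous g := by
    refine continuous_const.mul (continuous_finsetSum _ fun x _ => continuous_finsetSum _
      fun z _ => ?_)
    split_ifs
    · exact (continuous_id.matrix_elem x z).norm.pow 2
    · exact continuous_const
  have hg0 : g 0 = 0 := by
    rw [hg]
    simp
  have hgnn : ∀ M, 0 ≤ g M := fun M => by
    refine mul_nonneg (by norm_num) (Finset.sum_nonneg fun x _ => Finset.sum_nonneg fun z _ => ?_)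
    split_ifs
    · positivity
    · exact le_rfl
  set B : ℕ → (Fin L × Q → ℝ) → Matrix (Fin L × Q) (Fin L × Q) ℂ := fun k V =>
    Klead L h V + ((ηk k : ℂ) * I) • (1 : Matrix (Fin L × Q) (Fin L × Q) ℂ) with hBdef
  have hBt : ∀ V, Filter.Tendsto (fun k => B k V) Filter.atTop (nhds (Klead L h V)) := by
    intro V
    have h1 : Filter.Tendsto (fun k => ((ηk k : ℂ) * I)) Filter.atTop (nhds (((0 : ℝ) : ℂ) * I)) :=
      ((Complex.continuous_ofReal.tendsto 0).comp hη0t).mul_const I
    have h2 := (h1.smul_const (1 : Matrix (Fin L × Q) (Fin L × Q) ℂ)).const_add (Klead L h V)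
    rw [Complex.ofReal_zero, zero_mul, zero_smul, add_zero] at h2
    exact h2
  have hKm : ∀ x z, Measurable fun V => Klead L h V x z := by
    intro x z
    unfold Klead
    simp only [Matrix.add_apply]
    refine measurable_const.add ?_
    by_cases hxz : x = z
    · rw [hxz]
      simp only [diagonal_apply_eq]
      exact (Complex.measurable_ofReal.comp (measurable_pi_apply z)).add_const _
    · simp only [diagonal_apply_ne _ hxz]
      exact measurable_const
  have hBm : ∀ k x z, Measurable fun V => B k V x z := fun k x z =>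
    (hKm x z).add_const _
  have hgm : ∀ {K : (Fin L × Q → ℝ) → Matrix (Fin L × Q) (Fin L × Q) ℂ},
      (∀ x z, Measurable fun V => K V x z) → Measurable fun V => g (K V)⁻¹ := by
    intro K hK
    rw [hg]
    refine measurable_const.mul (Finset.measurable_sum _ fun x _ => Finset.measurable_sum _
      fun z _ => ?_)
    split_ifs
    · exact (tube1_meas_inv hK x z).norm.pow_const 2
    · exact measurable_const
  have hgB : ∀ k V, g (B k V)⁻¹ = 4 * ∑ q, ∑ q',
      ‖(segD L h 0 (L - 1) (yLead 0 (L - 1) (ηk k))).G (fun x => ((V x : ℝ) : ℂ))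
        (⟨0, hL0⟩, q) (⟨L - 1, hL1⟩, q')‖ ^ 2 := by
    intro k V
    rw [hg, hBdef]
    unfold Sys.G
    rw [tube1_K]
    show 4 * _ = 4 * _
    rw [tube1_sum hL]
  have hbd : ∀ k V, g (B k V)⁻¹ ≤ Fintype.card Q := by
    intro k V
    rw [hgB k V]
    refine seg_trans_le hs hL0 hL1 (hηp k) ?_
    intro x
    rw [Complex.ofReal_im]
  have hint : ∀ k, Integrable (fun V => g (B k V)⁻¹) (PX (Fin L × Q) c) := fun k =>
    Integrable.of_bound (C := Fintype.card Q) (hgm (hBm k)).aestronglyMeasurable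
      (Filter.Eventually.of_forall fun V => by
        rw [Real.norm_of_nonneg (hgnn _)]
        exact hbd k V)
  set b : ℝ := C * ((Fintype.card Q : ℝ) ^ 2 * (Fintype.card Q * (L : ℝ)) ^ ε) / ((L : ℝ) - 1)
    with hb
  have hkb : ∀ k, ∫ V, g (B k V)⁻¹ ∂(PX (Fin L × Q) c) ≤ b := by
    intro k
    have h1 := hseg Q L h 0 (L - 1) (ηk k) hL0 hL1 hs hrow hdeg (by omega) (hηp k) (by
      refine (hηle k).trans (le_of_eq ?_)
      rw [hη0, hcast]
      norm_num)
    rw [hcast] at h1
    have h2 : (L : ℝ) - 1 - ((0 : ℕ) : ℝ) + 1 = L := by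
      push_cast
      ring
    have h3 : (L : ℝ) - 1 - ((0 : ℕ) : ℝ) = (L : ℝ) - 1 := by
      push_cast
      ring
    rw [h2, h3] at h1
    simp_rw [hgB k]
    exact h1
  have hb0 : 0 ≤ b := le_trans (integral_nonneg fun V => hgnn _) (hkb 0)
  -- Fatou
  have hF : ∫⁻ V, ENNReal.ofReal (trm L h V) ∂(PX (Fin L × Q) c) ≤ ENNReal.ofReal b := by
    calc ∫⁻ V, ENNReal.ofReal (trm L h V) ∂(PX (Fin L × Q) c)
        ≤ ∫⁻ V, Filter.liminf (fun k => ENNReal.ofReal (g (B k V)⁻¹)) Filter.atTop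
          ∂(PX (Fin L × Q) c) := lintegral_mono fun V => tube1_lsc hgc hg0 (hBt V)
      _ ≤ Filter.liminf (fun k => ∫⁻ V, ENNReal.ofReal (g (B k V)⁻¹) ∂(PX (Fin L × Q) c))
          Filter.atTop := lintegral_liminf_le fun k => (hgm (hBm k)).ennreal_ofReal
      _ ≤ Filter.liminf (fun _ : ℕ => ENNReal.ofReal b) Filter.atTop := by
          refine Filter.liminf_le_liminf (Filter.Eventually.of_forall fun k => ?_)
          rw [← ofReal_integral_eq_lintegral_ofReal (hint k)
            (Filter.Eventually.of_forall fun V => hgnn _)]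
          exact ENNReal.ofReal_le_ofReal (hkb k)
      _ = ENNReal.ofReal b := Filter.liminf_const _
  have htm : Measurable fun V => trm L h V := hgm hKm
  have h1 : ∫ V, trm L h V ∂(PX (Fin L × Q) c) ≤ b := by
    rw [integral_eq_lintegral_of_nonneg_ae (f := fun V => trm L h V)
      (Filter.Eventually.of_forall fun V => hgnn _) htm.aestronglyMeasurable]
    exact ENNReal.toReal_le_of_le_ofReal hb0 hF
  refine h1.trans ?_
  rw [hb, div_le_div_iff₀ (by linarith) (by linarith)]
  have h5 : 0 ≤ (Fintype.card Q * (L : ℝ)) ^ ε * (Fintype.card Q : ℝ) ^ 2 := by positivity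
  have h6 : (L : ℝ) ≤ 2 * ((L : ℝ) - 1) := by linarith
  calc C * ((Fintype.card Q : ℝ) ^ 2 * (Fintype.card Q * (L : ℝ)) ^ ε) * L
      = C * ((Fintype.card Q * (L : ℝ)) ^ ε * (Fintype.card Q : ℝ) ^ 2) * L := by ring
    _ ≤ C * ((Fintype.card Q * (L : ℝ)) ^ ε * (Fintype.card Q : ℝ) ^ 2) * (2 * ((L : ℝ) - 1)) :=
        mul_le_mul_of_nonneg_left h6 (mul_nonneg (by linarith) h5)
    _ = _ := by ring

end Pool.Agent.Lib.MP_562b47_mp.Str
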