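import Pool.Agent.Lib.MP_562b47_mp.Str.AlgBase

/-!
Module STR-Ward (MP_562b47_mp, strips).  The flux (Ward) identities.

PROOF.  `G - Gᴴ = Gᴴ (Kᴴ - K) G` and `Kᴴ - K = -2 i (diag(Im ν + y) + U Uᵀ)` (`H`, `U` real,
`H` symmetric).  So
* `ward_G`: the diagonal entry at `x`: `2 i Im G_xx = -2 i (∑_z (Im ν_z + y_z) |G_zx|² + ∑_s |(Uᵀ G)_sx|²)`
  and `(Uᵀ G)_sx = w x s` by the symmetry of `G`.
* `ward_S`: `Smᴴ Sm = 1 - 4 wᴴ diag(Im ν + y) w`; take the trace.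
  Indeed with `A = Uᵀ G U`: `Smᴴ Sm = 1 - 2i A + 2i Aᴴ + 4 Aᴴ A`, and
  `A - Aᴴ = Uᵀ(G - Gᴴ)U = -2i (wᴴ diag w + Aᴴ A)`, hence `-2i(A - Aᴴ) = -4 wᴴ diag w - 4 Aᴴ A`.
* the rest follows: `‖w_x‖² ≤ -Im G_xx ≤ ‖G_xx‖`; `(Im ν_x + y_x) ‖G_xx‖² ≤ -Im G_xx ≤ ‖G_xx‖`.
* `G_ne`: if `G_xx = 0` then `ward_G` gives `G_zx = 0` for all `z`, impossible (`K G = 1`).
-/

open MeasureTheory Matrix Complex

namespace Pool.Agent.Lib.MP_562b47_mp.Str

variable {X ι : Type*} [Fintype X] [DecidableEq X] [Fintype ι] [DecidableEq ι]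

namespace Sys

variable {S : Sys X ι} {ν : X → ℂ}

private theorem ward_UcH (S : Sys X ι) : (S.U.map Complex.ofReal)ᴴ = (S.U.map Complex.ofReal)ᵀ := by
  ext s x
  simp [Matrix.conjTranspose_apply, Matrix.transpose_apply, Matrix.map_apply]

private theorem ward_UcTH (S : Sys X ι) : (S.U.map Complex.ofReal)ᵀᴴ = S.U.map Complex.ofReal := by
  ext s x
  simp [Matrix.conjTranspose_apply, Matrix.transpose_apply, Matrix.map_apply]

/-- the diagonal matrix of the absorption -/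
private noncomputable def wardD (S : Sys X ι) (ν : X → ℂ) : Matrix X X ℂ :=
  diagonal (fun x => (((ν x).im + S.y x : ℝ) : ℂ))

private theorem ward_KH (hS : S.Good) : (S.K ν)ᴴ - S.K ν =
    (-(2 * I)) • (wardD S ν + S.U.map Complex.ofReal * (S.U.map Complex.ofReal)ᵀ) := by
  have h1 : (S.H.map Complex.ofReal)ᴴ = S.H.map Complex.ofReal := by
    ext x z
    simp only [Matrix.conjTranspose_apply, Matrix.map_apply]
    have := hS.symm.apply z x
    rw [RCLike.star_def, Complex.conj_ofReal]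
    rw [← this]
  have h2 : (diagonal (fun x => ν x + (S.y x : ℂ) * I))ᴴ =
      diagonal (fun x => ν x + (S.y x : ℂ) * I) + (-(2 * I)) • wardD S ν := by
    rw [Matrix.diagonal_conjTranspose, wardD, ← Matrix.diagonal_smul, Matrix.diagonal_add]
    congr 1
    funext x
    simp only [Pi.star_apply, Pi.smul_apply, smul_eq_mul]
    rw [RCLike.star_def, map_add, map_mul, Complex.conj_ofReal, Complex.conj_I]
    apply Complex.ext
    · simp
    · simp
      ring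
  have h3 : (I • (S.U.map Complex.ofReal * (S.U.map Complex.ofReal)ᵀ))ᴴ =
      (-I) • (S.U.map Complex.ofReal * (S.U.map Complex.ofReal)ᵀ) := by
    rw [Matrix.conjTranspose_smul, Matrix.conjTranspose_mul, ward_UcTH, ward_UcH, RCLike.star_def,
      Complex.conj_I]
  unfold K
  rw [Matrix.conjTranspose_add, Matrix.conjTranspose_add, h1, h2, h3]
  rw [smul_add]
  have e : (-(2 * I)) • (S.U.map Complex.ofReal * (S.U.map Complex.ofReal)ᵀ) =
      (-I) • (S.U.map Complex.ofReal * (S.U.map Complex.ofReal)ᵀ) -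
        I • (S.U.map Complex.ofReal * (S.U.map Complex.ofReal)ᵀ) := by
    rw [← sub_smul]
    congr 1
    ring
  rw [e]
  abel

private theorem ward_GH (hS : S.Good) (hν : Adm ν) : S.G ν - (S.G ν)ᴴ =
    (-(2 * I)) • ((S.G ν)ᴴ * wardD S ν * S.G ν +
      (S.G ν)ᴴ * S.U.map Complex.ofReal * ((S.U.map Complex.ofReal)ᵀ * S.G ν)) := by
  have h1 : (S.G ν)ᴴ * (S.K ν)ᴴ = 1 := by
    rw [← Matrix.conjTranspose_mul, K_mul_G hS hν, Matrix.conjTranspose_one]
  have h2 : S.G ν - (S.G ν)ᴴ = (S.G ν)ᴴ * ((S.K ν)ᴴ - S.K ν) * S.G ν := by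
    rw [Matrix.mul_sub, Matrix.sub_mul, h1, Matrix.one_mul, Matrix.mul_assoc, K_mul_G hS hν,
      Matrix.mul_one]
  rw [h2, ward_KH hS]
  rw [Matrix.mul_smul, Matrix.smul_mul, Matrix.mul_add, Matrix.add_mul]
  simp only [Matrix.mul_assoc]

private theorem ward_UG (hS : S.Good) (x : X) (s : ι) :
    ((S.U.map Complex.ofReal)ᵀ * S.G ν) s x = S.w ν x s := by
  rw [w_eq hS, Matrix.mul_apply]
  refine Finset.sum_congr rfl fun z _ => ?_
  rw [Matrix.transpose_apply, Matrix.map_apply, G_comm hS ν z x, mul_comm]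

private theorem ward_normsq (a : ℂ) : (starRingEnd ℂ) a * a = ((‖a‖ ^ 2 : ℝ) : ℂ) := by
  rw [mul_comm, Complex.mul_conj, Complex.normSq_eq_norm_sq]

theorem ward_G (hS : S.Good) (hν : Adm ν) (x : X) :
    ∑ z, ((ν z).im + S.y z) * ‖S.G ν z x‖ ^ 2 + ‖S.wv ν x‖ ^ 2 = -(S.G ν x x).im := by
  have h := congrFun (congrFun (ward_GH hS hν) x) x
  have h1 : ((S.G ν)ᴴ * wardD S ν * S.G ν) x x =
      ((∑ z, ((ν z).im + S.y z) * ‖S.G ν z x‖ ^ 2 : ℝ) : ℂ) := by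
    rw [Matrix.mul_apply, Complex.ofReal_sum]
    refine Finset.sum_congr rfl fun z _ => ?_
    rw [wardD, Matrix.mul_diagonal, Matrix.conjTranspose_apply, RCLike.star_def,
      Complex.ofReal_mul, ← ward_normsq]
    ring
  have h2 : ((S.G ν)ᴴ * S.U.map Complex.ofReal * ((S.U.map Complex.ofReal)ᵀ * S.G ν)) x x =
      ((‖S.wv ν x‖ ^ 2 : ℝ) : ℂ) := by
    rw [norm_wv_sq, Matrix.mul_apply, Complex.ofReal_sum]
    refine Finset.sum_congr rfl fun s _ => ?_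
    have h3 : ((S.G ν)ᴴ * S.U.map Complex.ofReal) x s = (starRingEnd ℂ) (S.w ν x s) := by
      rw [← ward_UG hS x s]
      have h4 : (S.G ν)ᴴ * S.U.map Complex.ofReal = ((S.U.map Complex.ofReal)ᵀ * S.G ν)ᴴ := by
        rw [Matrix.conjTranspose_mul, ward_UcTH]
      rw [h4, Matrix.conjTranspose_apply, RCLike.star_def]
    rw [h3, ward_UG hS x s, ward_normsq]
  rw [Matrix.smul_apply, Matrix.add_apply, h1, h2, Matrix.sub_apply, Matrix.conjTranspose_apply,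
    RCLike.star_def, smul_eq_mul] at h
  have h5 := congrArg Complex.im h
  simp only [Complex.sub_im, Complex.conj_im, Complex.mul_im, Complex.neg_im, Complex.neg_re,
    Complex.mul_re, Complex.add_re, Complex.add_im, Complex.ofReal_re, Complex.ofReal_im,
    Complex.I_re, Complex.I_im] at h5
  norm_num at h5
  linarith

theorem ward_S (hS : S.Good) (hν : Adm ν) :
    ‖S.Sv ν‖ ^ 2 + 4 * ∑ x, ((ν x).im + S.y x) * ‖S.wv ν x‖ ^ 2 = (Fintype.card ι : ℝ) := by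
  set A := (S.U.map Complex.ofReal)ᵀ * S.w ν with hA
  have hAH : Aᴴ = (S.U.map Complex.ofReal)ᵀ * ((S.G ν)ᴴ * S.U.map Complex.ofReal) := by
    rw [hA, w, Matrix.conjTranspose_mul, Matrix.conjTranspose_mul, ward_UcTH, ward_UcH,
      Matrix.mul_assoc]
  have hwH : (S.w ν)ᴴ = (S.U.map Complex.ofReal)ᵀ * (S.G ν)ᴴ := by
    rw [w, Matrix.conjTranspose_mul, ward_UcH]
  have h1 : A - Aᴴ = (-(2 * I)) • ((S.w ν)ᴴ * wardD S ν * S.w ν + Aᴴ * A) := by
    have h2 : A - Aᴴ = (S.U.map Complex.ofReal)ᵀ * (S.G ν - (S.G ν)ᴴ) * S.U.map Complex.ofReal := by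
      rw [hAH, hA, w, Matrix.mul_sub, Matrix.sub_mul, Matrix.mul_assoc, Matrix.mul_assoc]
    rw [h2, ward_GH hS hν, Matrix.mul_smul, Matrix.smul_mul, Matrix.mul_add, Matrix.add_mul]
    congr 2
    · rw [hwH, w]
      simp only [Matrix.mul_assoc]
    · rw [hAH, hA, w]
      simp only [Matrix.mul_assoc]
  have hSm : (S.Sm ν)ᴴ * S.Sm ν = 1 - (4 : ℂ) • ((S.w ν)ᴴ * wardD S ν * S.w ν) := by
    have h3 : S.Sm ν = 1 - (2 * I) • A := rfl
    have h4 : (S.Sm ν)ᴴ = 1 + (2 * I) • Aᴴ := by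
      rw [h3, Matrix.conjTranspose_sub, Matrix.conjTranspose_one, Matrix.conjTranspose_smul,
        RCLike.star_def]
      have : (starRingEnd ℂ) (2 * I) = -(2 * I) := by
        rw [map_mul, Complex.conj_I, map_ofNat]
        ring
      rw [this, neg_smul, sub_neg_eq_add]
    rw [h4, h3]
    have h5 : (1 + (2 * I) • Aᴴ) * (1 - (2 * I) • A) =
        1 - (2 * I) • (A - Aᴴ) + (4 : ℂ) • (Aᴴ * A) := by
      rw [Matrix.add_mul, Matrix.one_mul, Matrix.mul_sub, Matrix.mul_one, Matrix.smul_mul,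
        Matrix.mul_smul, smul_smul, smul_sub]
      have : (2 * I) * (2 * I) = (-4 : ℂ) := by
        linear_combination 4 * Complex.I_mul_I
      rw [this, neg_smul]
      abel
    rw [h5, h1, smul_smul]
    have : (2 * I) * (-(2 * I)) = (4 : ℂ) := by
      linear_combination (-4) * Complex.I_mul_I
    rw [this, smul_add]
    abel
  have htr := congrArg Matrix.trace hSm
  have ht1 : Matrix.trace ((S.Sm ν)ᴴ * S.Sm ν) = ((‖S.Sv ν‖ ^ 2 : ℝ) : ℂ) := by
    rw [norm_Sv_sq, Finset.sum_comm, Matrix.trace, Complex.ofReal_sum]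
    refine Finset.sum_congr rfl fun s _ => ?_
    rw [Matrix.diag_apply, Matrix.mul_apply, Complex.ofReal_sum]
    refine Finset.sum_congr rfl fun s' _ => ?_
    rw [Matrix.conjTranspose_apply, RCLike.star_def, ward_normsq]
  have ht2 : Matrix.trace ((S.w ν)ᴴ * wardD S ν * S.w ν) =
      ((∑ x, ((ν x).im + S.y x) * ‖S.wv ν x‖ ^ 2 : ℝ) : ℂ) := by
    rw [Matrix.trace]
    simp only [Matrix.diag_apply, Matrix.mul_apply]
    rw [Finset.sum_comm, Complex.ofReal_sum]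
    refine Finset.sum_congr rfl fun x _ => ?_
    rw [norm_wv_sq, Finset.mul_sum, Complex.ofReal_sum]
    refine Finset.sum_congr rfl fun s _ => ?_
    have : ∑ z, (S.w ν)ᴴ s z * wardD S ν z x = ((S.w ν)ᴴ * wardD S ν) s x := by
      rw [Matrix.mul_apply]
    rw [this, wardD, Matrix.mul_diagonal, Matrix.conjTranspose_apply, RCLike.star_def,
      Complex.ofReal_mul, ← ward_normsq]
    ring
  rw [ht1, Matrix.trace_sub, Matrix.trace_smul, ht2, Matrix.trace_one] at htr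
  have h6 : ((‖S.Sv ν‖ ^ 2 : ℝ) : ℂ) = (((Fintype.card ι : ℝ) -
      4 * ∑ x, ((ν x).im + S.y x) * ‖S.wv ν x‖ ^ 2 : ℝ) : ℂ) := by
    rw [htr, smul_eq_mul]
    push_cast
    ring
  have h7 := Complex.ofReal_injective h6
  linarith

theorem norm_Sv_sq_le (hS : S.Good) (hν : Adm ν) : ‖S.Sv ν‖ ^ 2 ≤ (Fintype.card ι : ℝ) := by
  have h := ward_S hS hν
  have h1 : 0 ≤ ∑ x, ((ν x).im + S.y x) * ‖S.wv ν x‖ ^ 2 :=
    Finset.sum_nonneg fun x _ => mul_nonneg (add_nonneg (hν x) (hS.pos x).le) (by positivity)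
  linarith

theorem norm_Sv_le (hS : S.Good) (hν : Adm ν) : ‖S.Sv ν‖ ≤ √(Fintype.card ι : ℝ) := by
  exact Real.le_sqrt_of_sq_le (norm_Sv_sq_le hS hν)

theorem norm_wv_sq_le (hS : S.Good) (hν : Adm ν) (x : X) : ‖S.wv ν x‖ ^ 2 ≤ ‖S.G ν x x‖ := by
  have h := ward_G hS hν x
  have h1 : 0 ≤ ∑ z, ((ν z).im + S.y z) * ‖S.G ν z x‖ ^ 2 :=
    Finset.sum_nonneg fun z _ => mul_nonneg (add_nonneg (hν z) (hS.pos z).le) (by positivity)
  have h2 : |(S.G ν x x).im| ≤ ‖S.G ν x x‖ := Complex.abs_im_le_norm _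
  have h3 := neg_abs_le (S.G ν x x).im
  linarith

theorem norm_G_le (hS : S.Good) (hν : Adm ν) (x : X) :
    ((ν x).im + S.y x) * ‖S.G ν x x‖ ≤ 1 := by
  have h := ward_G hS hν x
  have h1 : ((ν x).im + S.y x) * ‖S.G ν x x‖ ^ 2 ≤
      ∑ z, ((ν z).im + S.y z) * ‖S.G ν z x‖ ^ 2 :=
    Finset.single_le_sum (f := fun z => ((ν z).im + S.y z) * ‖S.G ν z x‖ ^ 2)
      (fun z _ => mul_nonneg (add_nonneg (hν z) (hS.pos z).le) (by positivity))
      (Finset.mem_univ x)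
  have h2 : |(S.G ν x x).im| ≤ ‖S.G ν x x‖ := Complex.abs_im_le_norm _
  have h3 := neg_abs_le (S.G ν x x).im
  have h4 : 0 ≤ ‖S.wv ν x‖ ^ 2 := by positivity
  rcases (norm_nonneg (S.G ν x x)).eq_or_lt with h5 | h5
  · rw [← h5]
    norm_num
  · have h6 : ((ν x).im + S.y x) * ‖S.G ν x x‖ * ‖S.G ν x x‖ ≤ 1 * ‖S.G ν x x‖ := by
      nlinarith
    exact le_of_mul_le_mul_right h6 h5

theorem row_G_le (hS : S.Good) (hν : Adm ν) (x : X) :
    ∑ z, ((ν z).im + S.y z) * ‖S.G ν z x‖ ^ 2 ≤ ‖S.G ν x x‖ := by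
  have h := ward_G hS hν x
  have h2 : |(S.G ν x x).im| ≤ ‖S.G ν x x‖ := Complex.abs_im_le_norm _
  have h3 := neg_abs_le (S.G ν x x).im
  have h4 : 0 ≤ ‖S.wv ν x‖ ^ 2 := by positivity
  linarith

private theorem ward_G_im_neg (hS : S.Good) (hν : Adm ν) (x : X) : (S.G ν x x).im < 0 := by
  have h := ward_G hS hν x
  have hne : ∃ z, S.G ν z x ≠ 0 := by
    by_contra hcon
    push Not at hcon
    have h1 := congrFun (congrFun (K_mul_G hS hν) x) x
    rw [Matrix.mul_apply, Matrix.one_apply_eq] at h1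
    simp [hcon] at h1
  obtain ⟨z, hz⟩ := hne
  have h1 : 0 < ∑ z, ((ν z).im + S.y z) * ‖S.G ν z x‖ ^ 2 := by
    refine Finset.sum_pos' (fun z _ => mul_nonneg (add_nonneg (hν z) (hS.pos z).le)
      (by positivity)) ⟨z, Finset.mem_univ z, ?_⟩
    have h2 : 0 < (ν z).im + S.y z := add_pos_of_nonneg_of_pos (hν z) (hS.pos z)
    have h3 : 0 < ‖S.G ν z x‖ := norm_pos_iff.mpr hz
    positivity
  have h2 : 0 ≤ ‖S.wv ν x‖ ^ 2 := by positivity
  linarith

theorem G_ne (hS : S.Good) (hν : Adm ν) (x : X) : S.G ν x x ≠ 0 := by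
  intro h
  have h1 := ward_G_im_neg hS hν x
  rw [h] at h1
  simp at h1

theorem G_im_neg (hS : S.Good) (hν : Adm ν) (x : X) : (S.G ν x x).im < 0 := ward_G_im_neg hS hν x

theorem FL_nonneg (hS : S.Good) (hν : Adm ν) (ℓ : X → ℕ) (i : ℕ) : 0 ≤ S.FL ℓ ν i := by
  unfold FL
  exact mul_nonneg (by norm_num) (Finset.sum_nonneg fun x _ =>
    mul_nonneg (add_nonneg (hν x) (hS.pos x).le) (by positivity))

theorem FL_anti (hS : S.Good) (hν : Adm ν) (ℓ : X → ℕ) {i j : ℕ} (hij : i ≤ j) :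
    S.FL ℓ ν j ≤ S.FL ℓ ν i := by
  unfold FL
  refine mul_le_mul_of_nonneg_left ?_ (by norm_num)
  refine Finset.sum_le_sum_of_subset_of_nonneg ?_ fun x _ _ =>
    mul_nonneg (add_nonneg (hν x) (hS.pos x).le) (by positivity)
  intro x hx
  rw [Finset.mem_filter] at hx ⊢
  exact ⟨hx.1, lt_of_le_of_lt hij hx.2⟩

theorem FL_le_card (hS : S.Good) (hν : Adm ν) (ℓ : X → ℕ) (i : ℕ) :
    S.FL ℓ ν i ≤ (Fintype.card ι : ℝ) := by
  have h := ward_S hS hν
  have h1 : S.FL ℓ ν i ≤ 4 * ∑ x, ((ν x).im + S.y x) * ‖S.wv ν x‖ ^ 2 := by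
    unfold FL
    refine mul_le_mul_of_nonneg_left ?_ (by norm_num)
    exact Finset.sum_le_sum_of_subset_of_nonneg (Finset.filter_subset _ _) fun x _ _ =>
      mul_nonneg (add_nonneg (hν x) (hS.pos x).le) (by positivity)
  have h2 : 0 ≤ ‖S.Sv ν‖ ^ 2 := by positivity
  linarith

end Sys

end Pool.Agent.Lib.MP_562b47_mp.Str
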