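import Pool.Agent.Lib.MP_562b47_mp.Str.Frac

/-!
Module STR-Weg (MP_562b47_mp, strips).  The matrix Wegner bound: fractional moments of a whole block
`P G P`, with the optimal power of `card P`.

PROOF of `weg`.  Fix `S`, `P`, `V`; write `n = card P` (if `n = 0` both sides are `0`), `a = 2 π n / c`.
For `δ > 0` let `S_δ` be `S` with absorption `y + δ 1_P` (still `Good`), `G_δ` its Green function,
`g`, `g_δ` the blocks `P G P`, `P G_δ P` with the Hilbert–Schmidt norm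
`‖g‖ = √(∑_{x,z ∈ P} ‖G x z‖²)` (everything at the real potential `mixP P V V'`).
(1) resolvent identity `G = G_δ + G (K_δ - K) G_δ = G_δ + i δ G 1_P G_δ`, so on `P`:
    `g = g_δ + i δ g g_δ` and `‖g‖ ≤ ‖g_δ‖ + δ ‖g‖ ‖g_δ‖` (Cauchy–Schwarz; `hsn_mul` with `Q := P`, or
    directly).  Hence for `δ = 1/t`: `‖g‖ > t` implies `‖g_δ‖ > t/2`.
(2) `ward_G` for `S_δ` (real potential): `δ ∑_{z ∈ P} ‖G_δ z x‖² ≤ - Im G_δ x x`.
(3) one-site average (`x ∈ P`): by `site`, `G_δ x x = (v + σ)⁻¹` as a function of `v = V' x`, `σ.im > 0`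
    independent of `v`, `- Im (v + σ)⁻¹ = σ.im / ((v + σ.re)² + σ.im²)` and
    `∫ over ℝ = π` (`integral_univ_inv_one_add_sq` or bound by `arctan`), so
    `∫ - Im G_δ x x ∂(unif c) ≤ π / (2c)`; with `integral_update` `∫ ‖g_δ‖² ∂PX ≤ n π / (2 c δ)`.
(4) Chebyshev: `PX {‖g‖ > t} ≤ PX {‖g_δ‖ > t/2} ≤ 4/t² * n π t/(2c) = a / t` for every `t > 0`.
(5) `∫ ‖g‖^s ≤ a^s / (1 - s)`: layer cake (`integral_rpow...`/`lintegral_rpow_eq_lintegral_meas_lt_mul`)
    `∫ ‖g‖^s = ∫_0^∞ s t^(s-1) PX{‖g‖ > t} dt ≤ ∫_0^a s t^(s-1) dt + ∫_a^∞ a s t^(s-2) dt`; or dyadic: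
    `‖g‖^s ≤ a^s + ∑_{k ≥ 0} (2^(k+1) a)^s 1{‖g‖ > 2^k a}` (a finite sum, `g` is bounded), which gives
    `a^s (1 + 2^s/(1 - 2^(s-1)))`.  Any constant depending on `c, s` is fine.
PROOF of `weg_tube`.  `P` = the sites of the layers `k, l` (`card P ≤ 2 W`); `mxL k l V V' = mixP P V V'`;
`hsn (blk (Gs ..) a b) ≤ ‖g‖` for `a, b ∈ {k, l}`; `(√W + u)^s ≤ √W^s + u^s` (`rpow_add_le_add_rpow`) and
`√W^s ≤ W^s` for `W ≥ 1`; for `W = 0` both sides are `0` (`0^s = 0`).
-/

open MeasureTheory Matrix Complex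

namespace Pool.Agent.Lib.MP_562b47_mp.Str

/-- `V'` on `P`, `V` elsewhere -/
def mixP {X : Type*} [DecidableEq X] (P : Finset X) (V V' : X → ℝ) : X → ℝ :=
  fun x => if x ∈ P then V' x else V x

section weg

variable {X ι : Type} [Fintype X] [DecidableEq X] [Fintype ι] [DecidableEq ι]

/-- the system with the absorption `δ` added on `P` -/
private def wegS (S : Sys X ι) (P : Finset X) (δ : ℝ) : Sys X ι where
  H := S.H
  U := S.U
  y := fun x => S.y x + if x ∈ P then δ else 0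

private theorem wegS_good {S : Sys X ι} (hS : S.Good) (P : Finset X) {δ : ℝ} (hδ : 0 ≤ δ) :
    (wegS S P δ).Good := by
  refine ⟨hS.symm, fun x => ?_⟩
  have h := hS.pos x
  unfold wegS
  dsimp only
  split_ifs <;> linarith

private theorem wegS_K (S : Sys X ι) (P : Finset X) (δ : ℝ) (ν : X → ℂ) :
    (wegS S P δ).K ν - S.K ν = diagonal fun x => if x ∈ P then (δ : ℂ) * I else 0 := by
  ext i j
  by_cases h : i = j
  · subst h
    by_cases hi : i ∈ P
    · simp [Sys.K, wegS, hi]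
      ring
    · simp [Sys.K, wegS, hi]
  · simp [Sys.K, wegS, h]

private theorem weg_res {S : Sys X ι} (hS : S.Good) (P : Finset X) {δ : ℝ} (hδ : 0 ≤ δ)
    {ν : X → ℂ} (hν : Adm ν) (x z : X) :
    S.G ν x z = (wegS S P δ).G ν x z +
      (δ : ℂ) * I * ∑ w ∈ P, S.G ν x w * (wegS S P δ).G ν w z := by
  have hT := wegS_good hS P hδ
  have h1 : S.G ν = (wegS S P δ).G ν +
      S.G ν * (((wegS S P δ).K ν - S.K ν) * (wegS S P δ).G ν) := by
    rw [Matrix.sub_mul, Sys.K_mul_G hT hν, Matrix.mul_sub, Matrix.mul_one, ← Matrix.mul_assoc,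
      Sys.G_mul_K hS hν, Matrix.one_mul]
    abel
  have h2 := congrFun (congrFun h1 x) z
  rw [wegS_K, Matrix.add_apply, Matrix.mul_apply] at h2
  rw [h2]
  congr 1
  rw [Finset.mul_sum, ← Finset.sum_subset (Finset.subset_univ P)]
  · refine Finset.sum_congr rfl fun w hw => ?_
    rw [Matrix.diagonal_mul, if_pos hw]
    ring
  · intro w _ hw
    rw [Matrix.diagonal_mul, if_neg hw]
    ring

/-- the block over `P` -/
private def pb (P : Finset X) (M : Matrix X X ℂ) : Matrix P P ℂ := fun x z => M x z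

private theorem pb_hsn (P : Finset X) (M : Matrix X X ℂ) :
    √(∑ x ∈ P, ∑ z ∈ P, ‖M x z‖ ^ 2) = hsn (pb P M) := by
  unfold hsn pb
  congr 1
  rw [← Finset.sum_coe_sort P]
  refine Finset.sum_congr rfl fun x _ => ?_
  rw [← Finset.sum_coe_sort P]

private theorem weg_smul {Q : Type} [Fintype Q] [DecidableEq Q] (a : ℂ) (A : Matrix Q Q ℂ) :
    hsn (a • A) = ‖a‖ * hsn A := by
  unfold hsn
  have h : ∀ q q', ‖(a • A) q q'‖ ^ 2 = ‖a‖ ^ 2 * ‖A q q'‖ ^ 2 := fun q q' => by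
    rw [Matrix.smul_apply, smul_eq_mul, norm_mul, mul_pow]
  simp_rw [h, ← Finset.mul_sum]
  rw [Real.sqrt_mul (by positivity), Real.sqrt_sq (norm_nonneg _)]

private theorem weg_half {S : Sys X ι} (hS : S.Good) (P : Finset X) {t : ℝ} (ht : 0 < t)
    {ν : X → ℂ} (hν : Adm ν) (h : t < hsn (pb P (S.G ν))) :
    t / 2 < hsn (pb P ((wegS S P t⁻¹).G ν)) := by
  by_contra hcon
  rw [not_lt] at hcon
  have h1 : pb P (S.G ν) = pb P ((wegS S P t⁻¹).G ν) +
      (((t⁻¹ : ℝ) : ℂ) * I) • (pb P (S.G ν) * pb P ((wegS S P t⁻¹).G ν)) := by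
    ext x z
    rw [Matrix.add_apply, Matrix.smul_apply, Matrix.mul_apply, smul_eq_mul]
    have h2 := weg_res hS P (inv_nonneg.2 ht.le) hν x z
    rw [← Finset.sum_coe_sort P] at h2
    exact h2
  have h3 := hsn_add (pb P ((wegS S P t⁻¹).G ν))
    ((((t⁻¹ : ℝ) : ℂ) * I) • (pb P (S.G ν) * pb P ((wegS S P t⁻¹).G ν)))
  rw [← h1, weg_smul, norm_mul, Complex.norm_I, mul_one, Complex.norm_real,
    Real.norm_of_nonneg (inv_nonneg.2 ht.le)] at h3
  have h4 := hsn_mul (pb P (S.G ν)) (pb P ((wegS S P t⁻¹).G ν))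
  have h5 : hsn (pb P (S.G ν)) * hsn (pb P ((wegS S P t⁻¹).G ν)) ≤
      hsn (pb P (S.G ν)) * (t / 2) := mul_le_mul_of_nonneg_left hcon (hsn_nonneg _)
  have h6 : t⁻¹ * hsn (pb P (S.G ν) * pb P ((wegS S P t⁻¹).G ν)) ≤
      t⁻¹ * (hsn (pb P (S.G ν)) * (t / 2)) :=
    mul_le_mul_of_nonneg_left (h4.trans h5) (inv_nonneg.2 ht.le)
  have h7 : t⁻¹ * (hsn (pb P (S.G ν)) * (t / 2)) = hsn (pb P (S.G ν)) / 2 := by
    field_simp
  linarith

private theorem weg_ward {S : Sys X ι} (hS : S.Good) (P : Finset X) {δ : ℝ} (hδ : 0 < δ)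
    {ν : X → ℂ} (hν : Adm ν) :
    δ * ∑ x ∈ P, ∑ z ∈ P, ‖(wegS S P δ).G ν x z‖ ^ 2 ≤
      ∑ x ∈ P, -((wegS S P δ).G ν x x).im := by
  have hT := wegS_good hS P hδ.le
  rw [Finset.mul_sum]
  refine Finset.sum_le_sum fun x _ => ?_
  rw [← Sys.ward_G hT hν x, Finset.mul_sum]
  have h1 : ∑ z ∈ P, δ * ‖(wegS S P δ).G ν x z‖ ^ 2 ≤
      ∑ z ∈ P, ((ν z).im + (wegS S P δ).y z) * ‖(wegS S P δ).G ν z x‖ ^ 2 := by
    refine Finset.sum_le_sum fun z hz => ?_
    rw [Sys.G_comm hT ν x z]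
    refine mul_le_mul_of_nonneg_right ?_ (by positivity)
    have h2 := hν z
    have h3 := hS.pos z
    have h4 : (wegS S P δ).y z = S.y z + δ := by
      unfold wegS
      simp [hz]
    linarith
  have h2 : ∑ z ∈ P, ((ν z).im + (wegS S P δ).y z) * ‖(wegS S P δ).G ν z x‖ ^ 2 ≤
      ∑ z, ((ν z).im + (wegS S P δ).y z) * ‖(wegS S P δ).G ν z x‖ ^ 2 := by
    refine Finset.sum_le_sum_of_subset_of_nonneg (Finset.subset_univ P) fun z _ _ => ?_
    have h2 := hν z
    have h3 := hT.pos z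
    exact mul_nonneg (by linarith) (by positivity)
  have h3 : 0 ≤ ‖(wegS S P δ).wv ν x‖ ^ 2 := by positivity
  linarith

private theorem weg_im (v : ℝ) (σ : ℂ) :
    -(((v : ℂ) + σ)⁻¹).im = σ.im / ((v + σ.re) ^ 2 + σ.im ^ 2) := by
  rw [Complex.inv_im, Complex.normSq_apply]
  simp only [Complex.add_re, Complex.add_im, Complex.ofReal_re, Complex.ofReal_im, zero_add]
  rw [neg_div, neg_neg]
  congr 1
  ring

private theorem weg_site {c : ℝ} (hc : 0 < c) {σ : ℂ} (hσ : 0 < σ.im) :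
    ∫ v : ℝ, -(((v : ℂ) + σ)⁻¹).im ∂(unif c) ≤ Real.pi / (2 * c) := by
  simp_rw [weg_im]
  rw [integral_unif hc, smul_eq_mul, integral_Icc_eq_integral_Ioc,
    ← intervalIntegral.integral_of_le (by linarith)]
  have hd : ∀ v ∈ Set.uIcc (-c) c, HasDerivAt (fun v : ℝ => Real.arctan ((v + σ.re) / σ.im))
      (σ.im / ((v + σ.re) ^ 2 + σ.im ^ 2)) v := by
    intro v _
    have h1 : HasDerivAt (fun v : ℝ => (v + σ.re) / σ.im) (1 / σ.im) v :=
      ((hasDerivAt_id v).add_const _).div_const _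
    have h2 := h1.arctan
    convert h2 using 1
    have h3 : 0 < (v + σ.re) ^ 2 + σ.im ^ 2 := by positivity
    field_simp
    ring
  have hi : IntervalIntegrable (fun v : ℝ => σ.im / ((v + σ.re) ^ 2 + σ.im ^ 2)) volume (-c) c := by
    refine Continuous.intervalIntegrable ?_ _ _
    refine Continuous.div continuous_const (by fun_prop) fun v => ?_
    positivity
  rw [intervalIntegral.integral_eq_sub_of_hasDerivAt hd hi]
  have h1 := Real.arctan_lt_pi_div_two ((c + σ.re) / σ.im)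
  have h2 := Real.neg_pi_div_two_lt_arctan ((-c + σ.re) / σ.im)
  have h3 : Real.pi / (2 * c) = (2 * c)⁻¹ * Real.pi := by
    rw [div_eq_mul_inv, mul_comm]
  rw [h3]
  exact mul_le_mul_of_nonneg_left (by linarith) (by positivity)

private theorem mixP_cont (P : Finset X) (V : X → ℝ) (w : X) :
    Continuous fun V' : X → ℝ => ((mixP P V V' w : ℝ) : ℂ) := by
  unfold mixP
  by_cases hw : w ∈ P
  · simp only [hw, if_true]
    exact Complex.continuous_ofReal.comp (continuous_apply w)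
  · simp only [hw, if_false]
    exact continuous_const

private theorem weg_cont {T : Sys X ι} (hT : T.Good) (P : Finset X) (V : X → ℝ) (x z : X) :
    Continuous fun V' : X → ℝ => T.G (fun w => ((mixP P V V' w : ℝ) : ℂ)) x z :=
  Sys.continuous_G hT (ν := fun (V' : X → ℝ) w => ((mixP P V V' w : ℝ) : ℂ))
    (fun w => mixP_cont P V w) (fun V' => adm_real _) x z

private theorem weg_bm {T : Sys X ι} (hT : T.Good) (P : Finset X) (V : X → ℝ) (x z : X) :
    BMeas fun V' : X → ℝ => T.G (fun w => ((mixP P V V' w : ℝ) : ℂ)) x z :=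
  BMeas.of_continuous (C := √(1 / (T.y x * T.y z))) (weg_cont hT P V x z) fun V' =>
    Real.le_sqrt_of_sq_le (Sys.norm_G_bdd hT (adm_real _) x z)

private theorem weg_bmsum {T : Sys X ι} (hT : T.Good) (P : Finset X) (V : X → ℝ) :
    BMeas fun V' : X → ℝ =>
      ∑ x ∈ P, ∑ z ∈ P, ‖T.G (fun w => ((mixP P V V' w : ℝ) : ℂ)) x z‖ ^ 2 :=
  BMeas.sum P fun x _ => BMeas.sum P fun z _ => (weg_bm hT P V x z).norm_sq

private theorem weg_bmim {T : Sys X ι} (hT : T.Good) (P : Finset X) (V : X → ℝ) (x : X) :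
    BMeas fun V' : X → ℝ => -(T.G (fun w => ((mixP P V V' w : ℝ) : ℂ)) x x).im := by
  refine BMeas.of_continuous (C := √(1 / (T.y x * T.y x)))
    ((Complex.continuous_im.comp (weg_cont hT P V x x)).neg) fun V' => ?_
  rw [norm_neg, Real.norm_eq_abs]
  exact (Complex.abs_im_le_norm _).trans
    (Real.le_sqrt_of_sq_le (Sys.norm_G_bdd hT (adm_real _) x x))

private theorem weg_one {c : ℝ} (hc : 0 < c) {T : Sys X ι} (hT : T.Good) (P : Finset X)
    (V : X → ℝ) {x : X} (hx : x ∈ P) :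
    ∫ V', -(T.G (fun w => ((mixP P V V' w : ℝ) : ℂ)) x x).im ∂(PX X c) ≤ Real.pi / (2 * c) := by
  have := isProb_unif hc
  have : IsProbabilityMeasure (PX X c) := isProb_PX hc
  have hF := weg_bmim hT P V x
  rw [integral_update hc x hF]
  refine int_le ((hF.comp (measurable_update2 x)).integral (unif c)) fun V' => ?_
  obtain ⟨σ, a, hσ, h⟩ := Sys.site hT (adm_real (mixP P V V')) x
  have h2 : ∀ v : ℝ, T.G (fun w => ((mixP P V (Function.update V' x v) w : ℝ) : ℂ)) x x =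
      ((v : ℂ) + σ)⁻¹ := by
    intro v
    rw [← (h v (by simp)).2.1]
    congr 1
    funext w
    by_cases hw : w = x
    · subst hw
      simp [mixP, hx]
    · simp [mixP, Function.update_of_ne hw]
  simp_rw [h2]
  exact weg_site hc hσ

private theorem weg_tail {c : ℝ} (hc : 0 < c) {S : Sys X ι} (hS : S.Good) (P : Finset X)
    (V : X → ℝ) {t : ℝ} (ht : 0 < t) :
    (PX X c).real {V' | t < √(∑ x ∈ P, ∑ z ∈ P,
      ‖S.G (fun w => ((mixP P V V' w : ℝ) : ℂ)) x z‖ ^ 2)} ≤ (2 * Real.pi / c * P.card) / t := by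
  have := isProb_unif hc
  have hprob : IsProbabilityMeasure (PX X c) := isProb_PX hc
  have hti : 0 < t⁻¹ := inv_pos.2 ht
  have hT := wegS_good hS P hti.le
  have hsub : {V' : X → ℝ | t < √(∑ x ∈ P, ∑ z ∈ P,
      ‖S.G (fun w => ((mixP P V V' w : ℝ) : ℂ)) x z‖ ^ 2)} ⊆
      {V' | t ^ 2 / 4 ≤ ∑ x ∈ P, ∑ z ∈ P,
        ‖(wegS S P t⁻¹).G (fun w => ((mixP P V V' w : ℝ) : ℂ)) x z‖ ^ 2} := by
    intro V' hV'
    rw [Set.mem_setOf_eq, pb_hsn] at hV'
    have h1 := weg_half hS P ht (adm_real _) hV'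
    rw [← pb_hsn] at h1
    rw [Set.mem_setOf_eq]
    have h2 := (Real.lt_sqrt (by linarith)).1 h1
    have h3 : (t / 2) ^ 2 = t ^ 2 / 4 := by ring
    linarith
  have hI := (weg_bmsum hT P V).integrable (PX X c)
  have h1 := mul_meas_ge_le_integral_of_nonneg (μ := PX X c)
    (Filter.Eventually.of_forall fun V' => Finset.sum_nonneg fun x _ =>
      Finset.sum_nonneg fun z _ => by positivity) hI (t ^ 2 / 4)
  have h2 : t⁻¹ * ∫ V', ∑ x ∈ P, ∑ z ∈ P,
        ‖(wegS S P t⁻¹).G (fun w => ((mixP P V V' w : ℝ) : ℂ)) x z‖ ^ 2 ∂(PX X c) ≤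
      P.card * (Real.pi / (2 * c)) := by
    rw [← integral_const_mul]
    calc _ ≤ ∫ V', ∑ x ∈ P, -((wegS S P t⁻¹).G (fun w => ((mixP P V V' w : ℝ) : ℂ)) x x).im
          ∂(PX X c) := by
          refine integral_mono (hI.const_mul _) ?_ fun V' => ?_
          · exact (BMeas.sum P fun x _ => weg_bmim hT P V x).integrable _
          · exact weg_ward hS P hti (adm_real _)
      _ = ∑ x ∈ P, ∫ V', -((wegS S P t⁻¹).G (fun w => ((mixP P V V' w : ℝ) : ℂ)) x x).im
          ∂(PX X c) := integral_finsetSum _ fun x _ => (weg_bmim hT P V x).integrable _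
      _ ≤ ∑ x ∈ P, Real.pi / (2 * c) := Finset.sum_le_sum fun x hx => weg_one hc hT P V hx
      _ = P.card * (Real.pi / (2 * c)) := by rw [Finset.sum_const, nsmul_eq_mul]
  have h3 : (PX X c).real {V' | t < √(∑ x ∈ P, ∑ z ∈ P,
      ‖S.G (fun w => ((mixP P V V' w : ℝ) : ℂ)) x z‖ ^ 2)} ≤
      (PX X c).real {V' | t ^ 2 / 4 ≤ ∑ x ∈ P, ∑ z ∈ P,
        ‖(wegS S P t⁻¹).G (fun w => ((mixP P V V' w : ℝ) : ℂ)) x z‖ ^ 2} := measureReal_mono hsub
  generalize (∫ V', ∑ x ∈ P, ∑ z ∈ P,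
        ‖(wegS S P t⁻¹).G (fun w => ((mixP P V V' w : ℝ) : ℂ)) x z‖ ^ 2 ∂(PX X c)) = J at *
  generalize ((PX X c).real {V' | t ^ 2 / 4 ≤ ∑ x ∈ P, ∑ z ∈ P,
        ‖(wegS S P t⁻¹).G (fun w => ((mixP P V V' w : ℝ) : ℂ)) x z‖ ^ 2}) = M at *
  refine h3.trans ?_
  have h4 : J ≤ t * (P.card * (Real.pi / (2 * c))) := by
    have h5 := mul_le_mul_of_nonneg_left h2 ht.le
    rwa [← mul_assoc, mul_inv_cancel₀ ht.ne', one_mul] at h5
  rw [le_div_iff₀ ht]
  have h6 : t ^ 2 / 4 * M ≤ t * (P.card * (Real.pi / (2 * c))) := h1.trans h4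
  have h7 : M * t * (t / 4) ≤ (2 * Real.pi / c * P.card) * (t / 4) := by
    have h8 : M * t * (t / 4) = t ^ 2 / 4 * M := by ring
    have h9 : (2 * Real.pi / c * P.card) * (t / 4) = t * (P.card * (Real.pi / (2 * c))) := by
      field_simp
      ring
    rw [h8, h9]
    exact h6
  exact le_of_mul_le_mul_right h7 (by positivity)

end weg

private theorem weg_int0 {a s : ℝ} (ha : 0 < a) (hs : 0 < s) :
    ∫⁻ t in Set.Ioc 0 a, ENNReal.ofReal (t ^ (s - 1)) = ENNReal.ofReal (a ^ s / s) := by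
  have hi : IntegrableOn (fun t : ℝ => t ^ (s - 1)) (Set.Ioc 0 a) :=
    (intervalIntegrable_iff_integrableOn_Ioc_of_le ha.le).1
      (intervalIntegral.intervalIntegrable_rpow' (by linarith))
  rw [← ofReal_integral_eq_lintegral_ofReal hi]
  · rw [← intervalIntegral.integral_of_le ha.le, integral_rpow (Or.inl (by linarith))]
    rw [sub_add_cancel, Real.zero_rpow hs.ne', sub_zero]
  · refine (ae_restrict_mem measurableSet_Ioc).mono fun t ht => ?_
    exact Real.rpow_nonneg ht.1.le _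

private theorem weg_int1 {a s : ℝ} (ha : 0 < a) (hs1 : s < 1) :
    ∫⁻ t in Set.Ioi a, ENNReal.ofReal (a * t ^ (s - 2)) = ENNReal.ofReal (a ^ s / (1 - s)) := by
  have hi : IntegrableOn (fun t : ℝ => a * t ^ (s - 2)) (Set.Ioi a) :=
    (integrableOn_Ioi_rpow_of_lt (by linarith) ha).const_mul a
  rw [← ofReal_integral_eq_lintegral_ofReal hi]
  · rw [integral_const_mul, integral_Ioi_rpow_of_lt (by linarith) ha]
    congr 1
    have h1 : a ^ s = a * a ^ (s - 2 + 1) := by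
      rw [show s = 1 + (s - 2 + 1) by ring, Real.rpow_add ha, Real.rpow_one]
      congr 2
      ring
    rw [h1]
    have h2 : (1 - s) ≠ 0 := by linarith
    have h3 : (s - 2 + 1) ≠ 0 := by
      intro h
      apply h2
      linarith
    field_simp
    ring
  · refine (ae_restrict_mem measurableSet_Ioi).mono fun t ht => ?_
    have h1 : 0 < t := ha.trans ht
    exact mul_nonneg ha.le (Real.rpow_nonneg h1.le _)

private theorem weg_layer {Ω : Type*} [MeasurableSpace Ω] {μ : Measure Ω} [IsProbabilityMeasure μ]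
    {f : Ω → ℝ} (hf : Measurable f) (h0 : ∀ w, 0 ≤ f w) {a s : ℝ} (ha : 0 < a) (hs : 0 < s)
    (hs1 : s < 1) (htail : ∀ t, 0 < t → μ.real {w | t < f w} ≤ a / t) :
    ∫ w, f w ^ s ∂μ ≤ a ^ s / (1 - s) := by
  have hK : 0 ≤ a ^ s / (1 - s) := div_nonneg (Real.rpow_nonneg ha.le _) (by linarith)
  rw [integral_eq_lintegral_of_nonneg_ae
    (Filter.Eventually.of_forall fun w => Real.rpow_nonneg (h0 w) _)
    (hf.pow_const s).aestronglyMeasurable]
  refine ENNReal.toReal_le_of_le_ofReal hK ?_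
  rw [lintegral_rpow_eq_lintegral_meas_lt_mul μ (Filter.Eventually.of_forall h0) hf.aemeasurable hs,
    ← Set.Ioc_union_Ioi_eq_Ioi ha.le]
  have e1 : ∫⁻ t in Set.Ioc 0 a, μ {w | t < f w} * ENNReal.ofReal (t ^ (s - 1)) ≤
      ENNReal.ofReal (a ^ s / s) := by
    rw [← weg_int0 ha hs]
    refine lintegral_mono fun t => ?_
    calc μ {w | t < f w} * ENNReal.ofReal (t ^ (s - 1)) ≤ 1 * ENNReal.ofReal (t ^ (s - 1)) := by
          gcongr
          exact prob_le_one
      _ = ENNReal.ofReal (t ^ (s - 1)) := one_mul _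
  have e2 : ∫⁻ t in Set.Ioi a, μ {w | t < f w} * ENNReal.ofReal (t ^ (s - 1)) ≤
      ENNReal.ofReal (a ^ s / (1 - s)) := by
    rw [← weg_int1 ha hs1]
    refine setLIntegral_mono' measurableSet_Ioi fun t ht => ?_
    have ht0 : 0 < t := ha.trans ht
    have h1 : μ {w | t < f w} ≤ ENNReal.ofReal (a / t) := by
      rw [← ofReal_measureReal]
      exact ENNReal.ofReal_le_ofReal (htail t ht0)
    calc μ {w | t < f w} * ENNReal.ofReal (t ^ (s - 1))
        ≤ ENNReal.ofReal (a / t) * ENNReal.ofReal (t ^ (s - 1)) := by gcongr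
      _ = ENNReal.ofReal (a * t ^ (s - 2)) := by
          rw [← ENNReal.ofReal_mul (by positivity)]
          congr 1
          rw [div_mul_eq_mul_div, mul_div_assoc]
          congr 1
          rw [div_eq_iff ht0.ne', ← Real.rpow_add_one ht0.ne']
          congr 1
          ring
  calc ENNReal.ofReal s * ∫⁻ t in Set.Ioc 0 a ∪ Set.Ioi a,
        μ {w | t < f w} * ENNReal.ofReal (t ^ (s - 1))
      ≤ ENNReal.ofReal s * (ENNReal.ofReal (a ^ s / s) + ENNReal.ofReal (a ^ s / (1 - s))) := by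
        gcongr
        exact (lintegral_union_le _ _ _).trans (add_le_add e1 e2)
    _ = ENNReal.ofReal (a ^ s / (1 - s)) := by
        rw [← ENNReal.ofReal_add (div_nonneg (Real.rpow_nonneg ha.le _) hs.le) hK,
          ← ENNReal.ofReal_mul hs.le]
        congr 1
        have : (1 - s) ≠ 0 := by linarith
        field_simp
        ring

theorem weg {c s : ℝ} (hc : 0 < c) (hs : 0 < s) (hs1 : s < 1) : ∃ C : ℝ, 1 ≤ C ∧
    ∀ (X ι : Type) [Fintype X] [DecidableEq X] [Fintype ι] [DecidableEq ι] (S : Sys X ι),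
      S.Good → ∀ (P : Finset X) (V : X → ℝ),
      ∫ V', (√(∑ x ∈ P, ∑ z ∈ P, ‖S.G (fun w => ((mixP P V V' w : ℝ) : ℂ)) x z‖ ^ 2)) ^ s
        ∂(PX X c) ≤ C * (P.card : ℝ) ^ s := by
  refine ⟨max 1 ((2 * Real.pi / c) ^ s / (1 - s)), le_max_left _ _, ?_⟩
  intro X ι _ _ _ _ S hS P V
  have := isProb_unif hc
  have hprob : IsProbabilityMeasure (PX X c) := isProb_PX hc
  rcases Nat.eq_zero_or_pos P.card with hP | hP
  · rw [Finset.card_eq_zero] at hP
    subst hP
    simp [Real.zero_rpow hs.ne']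
  · have hPr : (0 : ℝ) < P.card := by exact_mod_cast hP
    have ha : 0 < 2 * Real.pi / c * P.card := by positivity
    have hmeas : Measurable fun V' : X → ℝ =>
        √(∑ x ∈ P, ∑ z ∈ P, ‖S.G (fun w => ((mixP P V V' w : ℝ) : ℂ)) x z‖ ^ 2) :=
      (weg_bmsum hS P V).meas.measurable.sqrt
    have h1 := weg_layer (μ := PX X c) hmeas (fun _ => Real.sqrt_nonneg _) ha hs hs1
      fun t ht => weg_tail hc hS P V ht
    refine h1.trans ?_
    rw [Real.mul_rpow (by positivity) hPr.le, mul_div_right_comm]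
    exact mul_le_mul_of_nonneg_right (le_max_right _ _) (Real.rpow_nonneg hPr.le _)

theorem weg_tube {c s : ℝ} (hc : 0 < c) (hs : 0 < s) (hs1 : s < 1) : ∃ C : ℝ, 1 ≤ C ∧
    ∀ (Q : Type) [Fintype Q] [DecidableEq Q] (L : ℕ) (h : Fin L → Matrix Q Q ℝ) (i j : ℕ)
      (y : Fin L × Q → ℝ) (k l a b : Fin L), (∀ k, (h k).IsSymm) → (∀ x, 0 < y x) →
      (a = k ∨ a = l) → (b = k ∨ b = l) → ∀ V : Fin L × Q → ℝ,
      ∫ V', (√(Fintype.card Q) + hsn (blk (Gs L h i j y (mxL k l V V')) a b)) ^ s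
        ∂(PX (Fin L × Q) c) ≤ C * (Fintype.card Q : ℝ) ^ s := by
  obtain ⟨C, hC1, hC⟩ := weg hc hs hs1
  have h2s : 0 < (2 : ℝ) ^ s := Real.rpow_pos_of_pos (by norm_num) _
  refine ⟨1 + C * 2 ^ s, by nlinarith, ?_⟩
  intro Q _ _ L h i j y k l a b hsy hy ha hb V
  have := isProb_unif hc
  have hprob : IsProbabilityMeasure (PX (Fin L × Q) c) := isProb_PX hc
  set P : Finset (Fin L × Q) := Finset.univ.filter fun x => x.1 = k ∨ x.1 = l with hPdef
  have hW0 : (0 : ℝ) ≤ Fintype.card Q := Nat.cast_nonneg _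
  have hmx : ∀ V' : Fin L × Q → ℝ, mxL k l V V' = mixP P V V' := by
    intro V'
    funext x
    unfold mxL mixP
    simp [hPdef]
  have hcard : (P.card : ℝ) ≤ 2 * Fintype.card Q := by
    have h1 : P ⊆ (({k} : Finset (Fin L)) ×ˢ (Finset.univ : Finset Q)) ∪
        (({l} : Finset (Fin L)) ×ˢ (Finset.univ : Finset Q)) := by
      intro x hx
      rw [hPdef, Finset.mem_filter] at hx
      simp only [Finset.mem_union, Finset.mem_product, Finset.mem_singleton, Finset.mem_univ,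
        and_true]
      exact hx.2
    have h2 := (Finset.card_le_card h1).trans (Finset.card_union_le _ _)
    rw [Finset.card_product, Finset.card_product, Finset.card_singleton, Finset.card_singleton,
      Finset.card_univ, one_mul] at h2
    have h3 : ((P.card : ℕ) : ℝ) ≤ ((Fintype.card Q + Fintype.card Q : ℕ) : ℝ) := by exact_mod_cast h2
    push_cast at h3
    linarith
  have hin : ∀ (d : Fin L), (d = k ∨ d = l) → ∀ q : Q, (d, q) ∈ P := by
    intro d hd q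
    rw [hPdef, Finset.mem_filter]
    exact ⟨Finset.mem_univ _, hd⟩
  have hle : ∀ V' : Fin L × Q → ℝ, hsn (blk (Gs L h i j y (mxL k l V V')) a b) ≤
      √(∑ x ∈ P, ∑ z ∈ P, ‖(segD L h i j y).G (fun w => ((mixP P V V' w : ℝ) : ℂ)) x z‖ ^ 2) := by
    intro V'
    rw [hmx]
    unfold hsn
    refine Real.sqrt_le_sqrt ?_
    set M := Gs L h i j y (mixP P V V') with hM
    have h1 : ∀ x, ∑ q' : Q, ‖M x (b, q')‖ ^ 2 ≤ ∑ z ∈ P, ‖M x z‖ ^ 2 := by
      intro x
      have h2 : ∑ q' : Q, ‖M x (b, q')‖ ^ 2 =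
          ∑ z ∈ Finset.univ.map ⟨fun q : Q => (b, q), fun q q' hq => (Prod.mk.inj hq).2⟩,
            ‖M x z‖ ^ 2 := by
        rw [Finset.sum_map]
        rfl
      rw [h2]
      refine Finset.sum_le_sum_of_subset_of_nonneg ?_ fun _ _ _ => by positivity
      intro z hz
      rw [Finset.mem_map] at hz
      obtain ⟨q, _, rfl⟩ := hz
      exact hin b hb q
    have h3 : ∑ q : Q, ∑ z ∈ P, ‖M (a, q) z‖ ^ 2 ≤ ∑ x ∈ P, ∑ z ∈ P, ‖M x z‖ ^ 2 := by
      have h2 : ∑ q : Q, ∑ z ∈ P, ‖M (a, q) z‖ ^ 2 =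
          ∑ x ∈ Finset.univ.map ⟨fun q : Q => (a, q), fun q q' hq => (Prod.mk.inj hq).2⟩,
            ∑ z ∈ P, ‖M x z‖ ^ 2 := by
        rw [Finset.sum_map]
        rfl
      rw [h2]
      refine Finset.sum_le_sum_of_subset_of_nonneg ?_ fun _ _ _ =>
        Finset.sum_nonneg fun _ _ => by positivity
      intro z hz
      rw [Finset.mem_map] at hz
      obtain ⟨q, _, rfl⟩ := hz
      exact hin a ha q
    calc ∑ q, ∑ q', ‖blk M a b q q'‖ ^ 2 = ∑ q : Q, ∑ q' : Q, ‖M (a, q) (b, q')‖ ^ 2 := rfl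
      _ ≤ ∑ q : Q, ∑ z ∈ P, ‖M (a, q) z‖ ^ 2 := Finset.sum_le_sum fun q _ => h1 (a, q)
      _ ≤ _ := h3
  have hW : √(Fintype.card Q : ℝ) ≤ Fintype.card Q := by
    rcases Nat.eq_zero_or_pos (Fintype.card Q) with h0 | h0
    · rw [h0]; simp
    · have h1 : (1 : ℝ) ≤ Fintype.card Q := by exact_mod_cast h0
      rw [Real.sqrt_le_left hW0]
      nlinarith
  have hgood := segD_good hsy hy i j
  have hbm : BMeas fun V' : Fin L × Q → ℝ => (√(∑ x ∈ P, ∑ z ∈ P,
      ‖(segD L h i j y).G (fun w => ((mixP P V V' w : ℝ) : ℂ)) x z‖ ^ 2)) ^ s := by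
    obtain ⟨K, hK⟩ := (weg_bmsum hgood P V).bdd
    refine ⟨(((weg_bmsum hgood P V).meas.measurable.sqrt).pow_const s).stronglyMeasurable,
      √K ^ s, fun V' => ?_⟩
    rw [Real.norm_of_nonneg (Real.rpow_nonneg (Real.sqrt_nonneg _) _)]
    refine Real.rpow_le_rpow (Real.sqrt_nonneg _) (Real.sqrt_le_sqrt ?_) hs.le
    exact (Real.le_norm_self _).trans (hK V')
  have hbl : BMeas fun V' : Fin L × Q → ℝ =>
      (√(Fintype.card Q) + hsn (blk (Gs L h i j y (mxL k l V V')) a b)) ^ s := by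
    have h1 : BMeas fun V' : Fin L × Q → ℝ => hsn (blk (Gs L h i j y (mxL k l V V')) a b) := by
      have h2 := (bmeas_hsn hsy i j hy a b (r := 1) zero_le_one).comp (meas_mxL' k l V)
      simpa using h2
    obtain ⟨K, hK⟩ := h1.bdd
    refine ⟨((measurable_const.add h1.meas.measurable).pow_const s).stronglyMeasurable,
      (√(Fintype.card Q) + K) ^ s, fun V' => ?_⟩
    have h3 := hsn_nonneg (blk (Gs L h i j y (mxL k l V V')) a b)
    have h4 := Real.sqrt_nonneg (Fintype.card Q : ℝ)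
    rw [Real.norm_of_nonneg (Real.rpow_nonneg (by linarith) _)]
    refine Real.rpow_le_rpow (by linarith) ?_ hs.le
    have h5 := (Real.le_norm_self _).trans (hK V')
    linarith
  calc ∫ V', (√(Fintype.card Q) + hsn (blk (Gs L h i j y (mxL k l V V')) a b)) ^ s
        ∂(PX (Fin L × Q) c)
      ≤ ∫ V', ((Fintype.card Q : ℝ) ^ s + (√(∑ x ∈ P, ∑ z ∈ P,
          ‖(segD L h i j y).G (fun w => ((mixP P V V' w : ℝ) : ℂ)) x z‖ ^ 2)) ^ s)
        ∂(PX (Fin L × Q) c) := by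
        refine integral_mono (hbl.integrable _) ((integrable_const _).add (hbm.integrable _))
          fun V' => ?_
        have h3 := hsn_nonneg (blk (Gs L h i j y (mxL k l V V')) a b)
        refine (Real.rpow_add_le_add_rpow (Real.sqrt_nonneg _) h3 hs.le hs1.le).trans ?_
        exact add_le_add (Real.rpow_le_rpow (Real.sqrt_nonneg _) hW hs.le)
          (Real.rpow_le_rpow h3 (hle V') hs.le)
    _ = (Fintype.card Q : ℝ) ^ s + ∫ V', (√(∑ x ∈ P, ∑ z ∈ P,
          ‖(segD L h i j y).G (fun w => ((mixP P V V' w : ℝ) : ℂ)) x z‖ ^ 2)) ^ s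
        ∂(PX (Fin L × Q) c) := by
        rw [integral_add (integrable_const _) (hbm.integrable _)]
        simp
    _ ≤ (Fintype.card Q : ℝ) ^ s + C * (P.card : ℝ) ^ s := by
        have := hC (Fin L × Q) (Fin 0) (segD L h i j y) hgood P V
        linarith
    _ ≤ (Fintype.card Q : ℝ) ^ s + C * (2 ^ s * (Fintype.card Q : ℝ) ^ s) := by
        rw [← Real.mul_rpow (by norm_num) hW0]
        have h1 := Real.rpow_le_rpow (Nat.cast_nonneg P.card) hcard hs.le
        have h2 := mul_le_mul_of_nonneg_left h1 (by linarith : (0 : ℝ) ≤ C)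
        linarith
    _ = (1 + C * 2 ^ s) * (Fintype.card Q : ℝ) ^ s := by ring

end Pool.Agent.Lib.MP_562b47_mp.Str
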